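import Mathlib

set_option autoImplicit false

/-!
# A change of variables inequality for maps with finite fibres on a real vector space
-/

open MeasureTheory Set Topology

namespace Pool.GC.CvGen

variable {E : Type*} [NormedAddCommGroup E] [NormedSpace ℝ E] [FiniteDimensional ℝ E]
  [MeasurableSpace E] [BorelSpace E]

omit [MeasurableSpace E] [BorelSpace E] in
theorem local_inj {f : E → E} {f' : E →L[ℝ] E} {a : E} (h : HasStrictFDerivAt f f' a)
    (hd : f'.det ≠ 0) : ∃ U : Set E, IsOpen U ∧ a ∈ U ∧ InjOn f U := by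
  have : CompleteSpace E := FiniteDimensional.complete ℝ E
  have h2 : HasStrictFDerivAt f
      ((f'.toContinuousLinearEquivOfDetNeZero hd : E ≃L[ℝ] E) : E →L[ℝ] E) a := by
    simpa using h
  exact ⟨(h2.toOpenPartialHomeomorph f).source, (h2.toOpenPartialHomeomorph f).open_source,
    h2.mem_toOpenPartialHomeomorph_source, (h2.toOpenPartialHomeomorph f).injOn⟩

theorem cv_gen (μ : Measure E) [μ.IsAddHaarMeasure] (f : E → E) (f' : E → E →L[ℝ] E)
    (B : Set E) (hB : MeasurableSet B) (hf : ∀ y ∈ B, HasStrictFDerivAt f (f' y) y) (c : ℝ)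
    (hc : 0 < c) (hdet : ∀ y ∈ B, c ≤ |(f' y).det|) (k : ℕ)
    (hk : ∀ z, {y | y ∈ B ∧ f y = z}.encard ≤ k) :
    ∃ A : Set E, MeasurableSet A ∧ A ⊆ f '' B ∧ ENNReal.ofReal c * μ B ≤ k * μ A := by
  classical
  have : SecondCountableTopology E := by
    have : ProperSpace E := FiniteDimensional.proper_real E
    infer_instance
  rcases B.eq_empty_or_nonempty with rfl | hne
  · exact ⟨∅, MeasurableSet.empty, by simp, by simp⟩
  -- local injectivity
  have hU : ∀ y, ∃ U : Set E, IsOpen U ∧ (y ∈ B → y ∈ U ∧ InjOn f U) := by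
    intro y
    by_cases hy : y ∈ B
    · obtain ⟨U, h1, h2, h3⟩ := local_inj (hf y hy) (by
        intro h0
        have := hdet y hy
        rw [h0, abs_zero] at this
        linarith)
      exact ⟨U, h1, fun _ => ⟨h2, h3⟩⟩
    · exact ⟨∅, isOpen_empty, fun h => absurd h hy⟩
  choose U hUo hU using hU
  obtain ⟨t, htB, htc, hcov⟩ := TopologicalSpace.countable_cover_nhdsWithin
    (s := B) (f := U) (fun x hx => mem_nhdsWithin_of_mem_nhds ((hUo x).mem_nhds (hU x hx).1))
  have htne : t.Nonempty := by
    rcases t.eq_empty_or_nonempty with rfl | h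
    · obtain ⟨y, hy⟩ := hne
      simpa using hcov hy
    · exact h
  obtain ⟨u, rfl⟩ := htc.exists_eq_range htne
  set V : ℕ → Set E := fun n => U (u n) with hV
  have hVm : ∀ n, MeasurableSet (V n) := fun n => (hUo _).measurableSet
  set D : ℕ → Set E := fun n => B ∩ disjointed V n with hD
  have hDm : ∀ n, MeasurableSet (D n) := fun n => hB.inter (MeasurableSet.disjointed hVm n)
  have hDdisj : Pairwise (Function.onFun Disjoint D) := by
    intro i j hij
    exact (disjoint_disjointed V hij).mono inter_subset_right inter_subset_right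
  have hDU : ⋃ n, D n = B := by
    rw [hD, ← inter_iUnion, iUnion_disjointed, inter_eq_left]
    refine hcov.trans ?_
    intro x hx
    simp only [mem_iUnion] at hx ⊢
    obtain ⟨y, ⟨n, rfl⟩, hx⟩ := hx
    exact ⟨n, hx⟩
  have hDB : ∀ n, D n ⊆ B := fun n => inter_subset_left
  have hinj : ∀ n, InjOn f (D n) := fun n =>
    (hU (u n) (htB ⟨n, rfl⟩)).2.mono (inter_subset_right.trans (disjointed_subset V n))
  have hder : ∀ n, ∀ x ∈ D n, HasFDerivWithinAt f (f' x) (D n) x := fun n x hx =>
    (hf x (hDB n hx)).hasFDerivAt.hasFDerivWithinAt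
  have him : ∀ n, MeasurableSet (f '' D n) := fun n =>
    measurable_image_of_fderivWithin (hDm n) (hder n) (hinj n)
  refine ⟨⋃ n, f '' D n, MeasurableSet.iUnion him, ?_, ?_⟩
  · exact iUnion_subset fun n => image_mono (hDB n)
  -- the estimate on each piece
  have hpiece : ∀ n, ENNReal.ofReal c * μ (D n) ≤ μ (f '' D n) := by
    intro n
    rw [← lintegral_abs_det_fderiv_eq_addHaar_image μ (hDm n) (hder n) (hinj n),
      ← setLIntegral_const]
    refine setLIntegral_mono' (hDm n) fun x hx => ?_
    exact ENNReal.ofReal_le_ofReal (hdet x (hDB n hx))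
  have hsum : ENNReal.ofReal c * μ B ≤ ∑' n, μ (f '' D n) := by
    rw [← hDU, measure_iUnion hDdisj hDm, ← ENNReal.tsum_mul_left]
    exact ENNReal.tsum_le_tsum hpiece
  refine hsum.trans ?_
  have h1 : ∀ n, μ (f '' D n) = ∫⁻ z, (f '' D n).indicator 1 z ∂μ := fun n => by
    rw [lintegral_indicator_one (him n)]
  simp_rw [h1]
  rw [← lintegral_tsum (fun n => (measurable_one.indicator (him n)).aemeasurable)]
  have h2 : (k : ENNReal) * μ (⋃ n, f '' D n) =
      ∫⁻ z, (k : ENNReal) * (⋃ n, f '' D n).indicator 1 z ∂μ := by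
    rw [lintegral_const_mul _ (measurable_one.indicator (MeasurableSet.iUnion him)),
      lintegral_indicator_one (MeasurableSet.iUnion him)]
  rw [h2]
  refine lintegral_mono fun z => ?_
  -- pointwise bound
  set N : Set ℕ := {n | z ∈ f '' D n} with hN
  have hcard : N.encard ≤ k := by
    refine le_trans ?_ (hk z)
    have hch : ∀ n : ℕ, ∃ y : E, n ∈ N → y ∈ D n ∧ f y = z := by
      intro n
      by_cases hn : n ∈ N
      · obtain ⟨y, hy, hyz⟩ := hn
        exact ⟨y, fun _ => ⟨hy, hyz⟩⟩
      · exact ⟨0, fun h => absurd h hn⟩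
    choose g hg using hch
    have hginj : InjOn g N := by
      intro i hi j hj hij
      by_contra hne'
      have h3 := Set.disjoint_left.1 (hDdisj hne') (hg i hi).1
      rw [hij] at h3
      exact h3 (hg j hj).1
    rw [← hginj.encard_image]
    refine encard_le_encard ?_
    rintro _ ⟨n, hn, rfl⟩
    exact ⟨hDB n (hg n hn).1, (hg n hn).2⟩
  have hfin : N.Finite := finite_of_encard_le_coe hcard
  have hsumN : ∑' n, (f '' D n).indicator (1 : E → ENNReal) z = (hfin.toFinset.card : ENNReal) := by
    rw [tsum_eq_sum (s := hfin.toFinset)]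
    · rw [Finset.sum_congr rfl (g := fun _ => (1 : ENNReal))]
      · simp
      · intro n hn
        rw [Set.Finite.mem_toFinset] at hn
        exact indicator_of_mem (show z ∈ f '' D n from hn) _
    · intro n hn
      rw [Set.Finite.mem_toFinset] at hn
      exact indicator_of_notMem (show z ∉ f '' D n from hn) _
  show ∑' n, (f '' D n).indicator (1 : E → ENNReal) z ≤ _
  rw [hsumN]
  have hle : hfin.toFinset.card ≤ k := by
    rw [hfin.encard_eq_coe_toFinset_card] at hcard
    exact_mod_cast hcard
  by_cases hz : z ∈ ⋃ n, f '' D n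
  · rw [indicator_of_mem hz]
    simp only [Pi.one_apply, mul_one]
    exact_mod_cast hle
  · have : hfin.toFinset = ∅ := by
      rw [Set.Finite.toFinset_eq_empty]
      ext n
      simp only [mem_empty_iff_false, iff_false]
      intro hn
      exact hz (mem_iUnion.2 ⟨n, hn⟩)
    rw [this]
    simp

end Pool.GC.CvGen
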