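import Pool.Agent.GC.Stmts
import Pool.Agent.GC.CvGen

set_option autoImplicit false

/-!
# Module CVC: change of variables, complex case
-/

namespace Pool.GC

open MvPolynomial MeasureTheory Metric

namespace CVCX

variable {d : ℕ}

/-- the coordinate projection -/
noncomputable abbrev prj {F : Type} [NontriviallyNormedField F] (k : Fin d) :
    (Fin d → F) →L[F] F :=
  ContinuousLinearMap.proj (R := F) (φ := fun _ : Fin d => F) k

/-- partial derivatives of a polynomial are its strict derivative -/
theorem hasStrictFDerivAt_eval {F : Type} [NontriviallyNormedField F] [CompleteSpace F]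
    (p : MvPolynomial (Fin d) F) (y : Fin d → F) :
    HasStrictFDerivAt (fun y : Fin d → F => eval y p)
      (∑ k, eval y (pderiv k p) • (prj k : (Fin d → F) →L[F] F))
      y := by
  induction p using MvPolynomial.induction_on with
  | C a =>
    have h : HasStrictFDerivAt (fun _ : Fin d → F => a) (0 : (Fin d → F) →L[F] F) y :=
      hasStrictFDerivAt_const a y
    have h2 : (∑ k, eval y (pderiv k (C a : MvPolynomial (Fin d) F)) •
        (prj k : (Fin d → F) →L[F] F)) = 0 := by
      apply Finset.sum_eq_zero
      intro k _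
      rw [pderiv_C, map_zero]
      ext v
      simp
    rw [h2]
    simpa using h
  | add p q hp hq =>
    have h := hp.add hq
    have h2 : (∑ k, eval y (pderiv k (p + q)) • (prj k : (Fin d → F) →L[F] F)) =
        (∑ k, eval y (pderiv k p) • (prj k : (Fin d → F) →L[F] F)) +
        (∑ k, eval y (pderiv k q) • (prj k : (Fin d → F) →L[F] F)) := by
      rw [← Finset.sum_add_distrib]
      refine Finset.sum_congr rfl fun k _ => ?_
      ext v
      simp [add_mul]
    rw [h2]
    have h3 : (fun y : Fin d → F => eval y (p + q)) = (fun y => eval y p) + (fun y => eval y q) := by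
      funext z
      simp
    rw [h3]
    exact h
  | mul_X p i hp =>
    have hX : HasStrictFDerivAt (fun y : Fin d → F => y i)
        (prj i : (Fin d → F) →L[F] F) y :=
      (prj i : (Fin d → F) →L[F] F).hasStrictFDerivAt
    have h := hp.mul hX
    have h3 : (fun y : Fin d → F => eval y (p * X i)) = fun y => eval y p * y i := by
      funext z
      simp
    rw [h3]
    refine h.congr_fderiv ?_
    ext v
    simp only [Derivation.leibniz, smul_eq_mul, map_add, map_mul, eval_X,
      pderiv_X, add_apply, smul_apply,
      sum_apply, ContinuousLinearMap.proj_apply, add_mul,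
      Finset.sum_add_distrib]
    congr 1
    · rw [Finset.sum_eq_single i]
      · simp
      · intro j _ hj
        simp [Pi.single_eq_of_ne' hj]
      · simp
    · rw [Finset.mul_sum]
      exact Finset.sum_congr rfl fun j _ => by ring

/-- the derivative of `ratMap` -/
noncomputable def ratDer {F : Type} [Field F]
    (p : Fin d → MvPolynomial (Fin d) F) (q : MvPolynomial (Fin d) F) (y : Fin d → F) :
    Matrix (Fin d) (Fin d) F :=
  Matrix.of fun i k : Fin d =>
    (eval y (pderiv k (p i)) * eval y q - eval y (p i) * eval y (pderiv k q)) / eval y q ^ 2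

theorem hasStrictFDerivAt_ratMap {F : Type} [NontriviallyNormedField F] [CompleteSpace F]
    (p : Fin d → MvPolynomial (Fin d) F) (q : MvPolynomial (Fin d) F) (y : Fin d → F)
    (hq : eval y q ≠ 0) :
    HasStrictFDerivAt (ratMap p q)
      (LinearMap.toContinuousLinearMap (Matrix.toLin' (ratDer p q y))) y := by
  rw [hasStrictFDerivAt_pi']
  intro i
  have h1 : HasStrictFDerivAt (fun y : Fin d → F => (eval y q)⁻¹)
      ((-(eval y q ^ 2)⁻¹) • (∑ k, eval y (pderiv k q) • (prj k : (Fin d → F) →L[F] F))) y :=
    (hasStrictDerivAt_inv hq).comp_hasStrictFDerivAt y (hasStrictFDerivAt_eval q y)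
  have h := (hasStrictFDerivAt_eval (p i) y).mul h1
  have h3 : (fun y : Fin d → F => ratMap p q y i) = fun y => eval y (p i) * (eval y q)⁻¹ := by
    funext z
    simp [ratMap, div_eq_mul_inv]
  rw [h3]
  refine h.congr_fderiv ?_
  ext v
  simp only [add_apply, smul_apply,
    sum_apply, ContinuousLinearMap.proj_apply, smul_eq_mul,
    ContinuousLinearMap.comp_apply, LinearMap.coe_toContinuousLinearMap', Matrix.toLin'_apply,
    Matrix.mulVec, dotProduct, ratDer, Matrix.of_apply]
  rw [Finset.mul_sum, Finset.mul_sum, Finset.mul_sum, ← Finset.sum_add_distrib]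
  refine Finset.sum_congr rfl fun k _ => ?_
  field_simp
  ring

end CVCX

open CVCX in
theorem cVC_proof : Stmt_CVC := by
  intro K _ σ
  let _ : Algebra K ℂ := σ.toAlgebra
  intro d p q B hB hq c k hc hJ hk
  change ∃ E : Set (Fin d → ℂ), MeasurableSet E ∧ E ⊆ ratMap p q '' B ∧
      ENNReal.ofReal c * (Measure.pi fun _ : Fin d => (volume : Measure ℂ)) B ≤
        k * (Measure.pi fun _ : Fin d => (volume : Measure ℂ)) E
  change Fin d → MvPolynomial (Fin d) ℂ at p
  change MvPolynomial (Fin d) ℂ at q
  change Set (Fin d → ℂ) at B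
  refine CvGen.cv_gen (E := Fin d → ℂ) (Measure.pi fun _ : Fin d => (volume : Measure ℂ))
    (ratMap p q) (fun y => (LinearMap.toContinuousLinearMap
      (Matrix.toLin' (ratDer p q y))).restrictScalars ℝ) B hB ?_ c hc ?_ k hk
  · intro y hy
    exact (hasStrictFDerivAt_ratMap p q y (hq y hy)).restrictScalars ℝ
  · intro y hy
    have h : c ≤ ‖ratJac p q y‖ ^ 2 := hJ y hy
    have h1 : ratJac p q y = (ratDer p q y).det := rfl
    have h2 : ((LinearMap.toContinuousLinearMap
      (Matrix.toLin' (ratDer p q y))).restrictScalars ℝ).det = ‖ratJac p q y‖ ^ 2 := by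
      have h3 := LinearMap.det_restrictScalars (R := ℝ) (S := ℂ) (f := Matrix.toLin' (ratDer p q y))
      rw [LinearMap.det_toLin', Algebra.norm_complex_apply, Complex.normSq_eq_norm_sq] at h3
      exact h3
    rw [h2, abs_of_nonneg (by positivity)]
    exact h

end Pool.GC
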