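import Pool.Agent.GC.Stmts

set_option autoImplicit false

/-!
# Change of variables (an inequality) for rational maps with finite fibres, real case

`CVX.core` is the general statement for a map on a finite dimensional real space; `CVX.eval_deriv`
and `CVX.rat_deriv` compute the strict derivative of a rational map over any nontrivially normed
field.
-/

namespace Pool.GC

open MvPolynomial MeasureTheory Metric Set

namespace CVX

theorem core {V : Type*} [NormedAddCommGroup V] [NormedSpace ℝ V] [FiniteDimensional ℝ V]
    [MeasurableSpace V] [BorelSpace V] (μ : Measure V) [μ.IsAddHaarMeasure]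
    (f : V → V) (f' : V → V →L[ℝ] V) (B : Set V) (hB : MeasurableSet B)
    (hf : ∀ y ∈ B, HasStrictFDerivAt f (f' y) y) (c : ℝ) (k : ℕ) (hc : 0 < c)
    (hdet : ∀ y ∈ B, c ≤ |(f' y).det|) (hfib : ∀ z, {y | y ∈ B ∧ f y = z}.encard ≤ k) :
    ∃ E : Set V, MeasurableSet E ∧ E ⊆ f '' B ∧ ENNReal.ofReal c * μ B ≤ k * μ E := by
  classical
  rcases B.eq_empty_or_nonempty with rfl | hne
  · exact ⟨∅, MeasurableSet.empty, by simp, by simp⟩
  -- local injectivity
  have hloc : ∀ y : V, ∃ U : Set V, IsOpen U ∧ (y ∈ B → y ∈ U ∧ InjOn f U) := by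
    intro y
    by_cases hy : y ∈ B
    · have hd : (f' y).det ≠ 0 := by
        intro h
        have := hdet y hy
        rw [h, abs_zero] at this
        linarith
      let e := (f' y).toContinuousLinearEquivOfDetNeZero hd
      have he : HasStrictFDerivAt f (e : V →L[ℝ] V) y := by
        have : (e : V →L[ℝ] V) = f' y := by
          ext x
          exact ContinuousLinearMap.toContinuousLinearEquivOfDetNeZero_apply _ hd _
        rw [this]
        exact hf y hy
      exact ⟨(he.toOpenPartialHomeomorph f).source, (he.toOpenPartialHomeomorph f).open_source,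
        fun _ => ⟨he.mem_toOpenPartialHomeomorph_source, (he.toOpenPartialHomeomorph f).injOn⟩⟩
    · exact ⟨∅, isOpen_empty, fun h => absurd h hy⟩
  choose U hUo hU using hloc
  obtain ⟨t, htB, htc, htcov⟩ := TopologicalSpace.countable_cover_nhdsWithin
    (f := U) (s := B) fun y hy => mem_nhdsWithin_of_mem_nhds ((hUo y).mem_nhds (hU y hy).1)
  have htne : t.Nonempty := by
    rcases t.eq_empty_or_nonempty with rfl | h
    · obtain ⟨y, hy⟩ := hne
      simpa using htcov hy
    · exact h
  obtain ⟨g, rfl⟩ := htc.exists_eq_range htne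
  let W : ℕ → Set V := fun n => U (g n)
  have hWB : B ⊆ ⋃ n, W n := by
    intro y hy
    have := htcov hy
    simp only [mem_range, iUnion_exists, iUnion_iUnion_eq', mem_iUnion] at this
    exact mem_iUnion.2 this
  let D : ℕ → Set V := fun n => B ∩ disjointed W n
  have hDm : ∀ n, MeasurableSet (D n) := fun n =>
    hB.inter (MeasurableSet.disjointed (fun n => (hUo (g n)).measurableSet) n)
  have hDd : Pairwise (Function.onFun Disjoint D) := fun i j hij =>
    (disjoint_disjointed W hij).mono inter_subset_right inter_subset_right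
  have hDU : ⋃ n, D n = B := by
    rw [← inter_iUnion, iUnion_disjointed]
    exact inter_eq_left.2 hWB
  have hDB : ∀ n, D n ⊆ B := fun n => inter_subset_left
  have hDinj : ∀ n, InjOn f (D n) := fun n =>
    ((hU (g n) (htB ⟨n, rfl⟩)).2).mono fun y hy => disjointed_subset W n hy.2
  have hDf : ∀ n, ∀ y ∈ D n, HasFDerivWithinAt f (f' y) (D n) y := fun n y hy =>
    (hf y (hDB n hy)).hasFDerivAt.hasFDerivWithinAt
  have him : ∀ n, MeasurableSet (f '' D n) := fun n =>
    measurable_image_of_fderivWithin (hDm n) (hDf n) (hDinj n)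
  refine ⟨⋃ n, f '' D n, MeasurableSet.iUnion him, iUnion_subset fun n => image_mono (hDB n), ?_⟩
  have h1 : ENNReal.ofReal c * μ B = ∑' n, ENNReal.ofReal c * μ (D n) := by
    rw [← hDU, measure_iUnion hDd hDm, ENNReal.tsum_mul_left]
  have h2 : ∀ n, ENNReal.ofReal c * μ (D n) ≤ μ (f '' D n) := by
    intro n
    rw [← lintegral_abs_det_fderiv_eq_addHaar_image μ (hDm n) (hDf n) (hDinj n),
      ← setLIntegral_const]
    refine setLIntegral_mono' (hDm n) fun y hy => ENNReal.ofReal_le_ofReal (hdet y (hDB n hy))
  have h3 : ∑' n, μ (f '' D n) ≤ k * μ (⋃ n, f '' D n) := by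
    have e1 : ∑' n, μ (f '' D n) = ∫⁻ z, ∑' n, (f '' D n).indicator 1 z ∂μ := by
      rw [lintegral_tsum fun n => (measurable_one.indicator (him n)).aemeasurable]
      exact tsum_congr fun n => (lintegral_indicator_one (him n)).symm
    have e2 : (k : ENNReal) * μ (⋃ n, f '' D n) =
        ∫⁻ z, (k : ENNReal) * (⋃ n, f '' D n).indicator 1 z ∂μ := by
      rw [lintegral_const_mul _ (measurable_one.indicator (MeasurableSet.iUnion him)),
        lintegral_indicator_one (MeasurableSet.iUnion him)]
    rw [e1, e2]
    refine lintegral_mono fun z => ?_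
    simp only
    by_cases hz : z ∈ ⋃ n, f '' D n
    · rw [indicator_of_mem hz, Pi.one_apply, mul_one]
      let N : Set ℕ := {n | z ∈ f '' D n}
      have hN : N.encard ≤ k := by
        have hch : ∀ n : ℕ, ∃ y : V, n ∈ N → y ∈ D n ∧ f y = z := by
          intro n
          by_cases hn : n ∈ N
          · obtain ⟨y, hy, hyz⟩ := hn
            exact ⟨y, fun _ => ⟨hy, hyz⟩⟩
          · exact ⟨0, fun h => absurd h hn⟩
        choose y hy using hch
        refine le_trans ?_ (hfib z)
        refine encard_le_encard_of_injOn (f := y) (fun n hn => ⟨hDB n (hy n hn).1, (hy n hn).2⟩) ?_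
        intro i hi j hj hij
        by_contra hne'
        have hd := hDd hne'
        have h4 := (hy i hi).1
        have h5 := (hy j hj).1
        rw [← hij] at h5
        exact disjoint_left.1 hd h4 h5
      have hsum : ∑' n, (f '' D n).indicator (1 : V → ENNReal) z = N.encard := by
        have e3 : ∑' _ : N, (1 : ENNReal) = ∑' n, N.indicator (fun _ => (1 : ENNReal)) n :=
          tsum_subtype N (fun _ => (1 : ENNReal))
        rw [← ENNReal.tsum_set_one, e3]
        refine tsum_congr fun n => ?_
        by_cases hn : n ∈ N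
        · rw [indicator_of_mem (show z ∈ f '' D n from hn), indicator_of_mem hn, Pi.one_apply]
        · rw [indicator_of_notMem (show z ∉ f '' D n from hn), indicator_of_notMem hn]
      rw [hsum]
      exact_mod_cast hN
    · have : ∀ n, z ∉ f '' D n := fun n h => hz (mem_iUnion.2 ⟨n, h⟩)
      simp [this]
  calc ENNReal.ofReal c * μ B = ∑' n, ENNReal.ofReal c * μ (D n) := h1
    _ ≤ ∑' n, μ (f '' D n) := ENNReal.tsum_le_tsum h2
    _ ≤ _ := h3

/-- the differential of a polynomial function -/
noncomputable def dpoly {F : Type*} [NontriviallyNormedField F] {d : ℕ}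
    (p : MvPolynomial (Fin d) F) (y : Fin d → F) : (Fin d → F) →L[F] F :=
  ∑ k, eval y (pderiv k p) • ContinuousLinearMap.proj (R := F) (φ := fun _ : Fin d => F) k

theorem dpoly_apply {F : Type*} [NontriviallyNormedField F] {d : ℕ}
    (p : MvPolynomial (Fin d) F) (y x : Fin d → F) :
    dpoly p y x = ∑ k, eval y (pderiv k p) * x k := by
  unfold dpoly
  rw [_root_.sum_apply]
  exact Finset.sum_congr rfl fun k _ => rfl

/-- the strict derivative of a polynomial function -/
theorem eval_deriv {F : Type*} [NontriviallyNormedField F] {d : ℕ} (p : MvPolynomial (Fin d) F)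
    (y : Fin d → F) : HasStrictFDerivAt (fun x : Fin d → F => eval x p) (dpoly p y) y := by
  induction p using MvPolynomial.induction_on with
  | C a =>
    have h1 : (fun x : Fin d → F => eval x (C a)) = fun _ => a := by
      funext x; rw [eval_C]
    have h2 : dpoly (C a) y = 0 := by
      ext1 x
      rw [dpoly_apply]
      simp
    rw [h1, h2]
    exact hasStrictFDerivAt_const a y
  | add p q hp hq =>
    have h1 : (fun x : Fin d → F => eval x (p + q)) =
        (fun x : Fin d → F => eval x p) + fun x : Fin d → F => eval x q := by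
      funext x; simp
    have h2 : dpoly (p + q) y = dpoly p y + dpoly q y := by
      ext1 x
      rw [_root_.add_apply, dpoly_apply, dpoly_apply, dpoly_apply,
        ← Finset.sum_add_distrib]
      refine Finset.sum_congr rfl fun k _ => ?_
      rw [map_add, map_add, add_mul]
    rw [h1, h2]
    exact hp.add hq
  | mul_X p i hp =>
    have hX : HasStrictFDerivAt (fun x : Fin d → F => x i)
        (ContinuousLinearMap.proj (R := F) (φ := fun _ : Fin d => F) i) y :=
      (ContinuousLinearMap.proj (R := F) (φ := fun _ : Fin d => F) i).hasStrictFDerivAt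
    have h1 : (fun x : Fin d → F => eval x (p * X i)) =
        (fun x : Fin d → F => eval x p) * fun x : Fin d → F => x i := by
      funext x; simp
    have h2 : dpoly (p * X i) y = eval y p •
        ContinuousLinearMap.proj (R := F) (φ := fun _ : Fin d => F) i + y i • dpoly p y := by
      ext1 x
      rw [_root_.add_apply, _root_.smul_apply,
        _root_.smul_apply, dpoly_apply, dpoly_apply, ContinuousLinearMap.proj_apply,
        smul_eq_mul, smul_eq_mul, Finset.mul_sum]
      have : ∀ k, eval y (pderiv k (p * X i)) * x k =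
          (if k = i then eval y p * x i else 0) + y i * (eval y (pderiv k p) * x k) := by
        intro k
        rw [pderiv_mul, map_add, map_mul, map_mul, eval_X, pderiv_X]
        by_cases hk : k = i
        · subst hk
          simp
          ring
        · simp [hk, Ne.symm hk]
          ring
      rw [Finset.sum_congr rfl fun k _ => this k, Finset.sum_add_distrib]
      simp
    rw [h1, h2]
    exact hp.mul hX

/-- the strict derivative of a rational map -/
theorem rat_deriv {F : Type} [NontriviallyNormedField F] [CompleteSpace F] {d : ℕ}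
    (p : Fin d → MvPolynomial (Fin d) F) (q : MvPolynomial (Fin d) F)
    (y : Fin d → F) (hq : eval y q ≠ 0) :
    HasStrictFDerivAt (ratMap p q) (LinearMap.toContinuousLinearMap (Matrix.toLin'
      (Matrix.of fun i k : Fin d =>
        (eval y (pderiv k (p i)) * eval y q - eval y (p i) * eval y (pderiv k q)) /
          eval y q ^ 2))) y := by
  rw [hasStrictFDerivAt_pi']
  intro i
  have h1 := (eval_deriv (p i) y).mul
    ((hasStrictDerivAt_inv hq).comp_hasStrictFDerivAt y (eval_deriv q y))
  have h2 : (fun x : Fin d → F => ratMap p q x i) =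
      (fun x : Fin d → F => eval x (p i)) * fun x : Fin d → F => (eval x q)⁻¹ := by
    funext x
    simp [ratMap, div_eq_mul_inv]
  rw [h2]
  refine h1.congr_fderiv ?_
  ext1 x
  have h3 : ∀ (a b : F) (u v : Fin d → F), b ≠ 0 →
      a * (-(b ^ 2)⁻¹ * ∑ k, v k * x k) + b⁻¹ * ∑ k, u k * x k =
        ∑ k, (u k * b - a * v k) / b ^ 2 * x k := by
    intro a b u v hb
    rw [Finset.mul_sum, Finset.mul_sum, Finset.mul_sum, ← Finset.sum_add_distrib]
    refine Finset.sum_congr rfl fun k _ => ?_
    field_simp
    ring
  have h4 := h3 (eval y (p i)) (eval y q) (fun k => eval y (pderiv k (p i)))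
    (fun k => eval y (pderiv k q)) hq
  have h5 : (ContinuousLinearMap.proj i ∘SL LinearMap.toContinuousLinearMap (Matrix.toLin'
      (Matrix.of fun i k : Fin d =>
        (eval y (pderiv k (p i)) * eval y q - eval y (p i) * eval y (pderiv k q)) /
          eval y q ^ 2))) x = ∑ k, (eval y (pderiv k (p i)) * eval y q -
        eval y (p i) * eval y (pderiv k q)) / eval y q ^ 2 * x k := by
    simp [Matrix.mulVec, dotProduct]
  rw [h5, ← h4, _root_.add_apply, _root_.smul_apply, _root_.smul_apply, dpoly_apply]
  simp [dpoly_apply]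

theorem cv_real (d : ℕ) (p : Fin d → MvPolynomial (Fin d) ℝ) (q : MvPolynomial (Fin d) ℝ)
    (B : Set (Fin d → ℝ)) (hB : MeasurableSet B) (hq : ∀ y ∈ B, eval y q ≠ 0)
    (c : ℝ) (k : ℕ) (hc : 0 < c) (hJ : ∀ y ∈ B, c ≤ ‖ratJac p q y‖ ^ 1)
    (hfib : ∀ z, {y | y ∈ B ∧ ratMap p q y = z}.encard ≤ k) :
    ∃ E : Set (Fin d → ℝ), MeasurableSet E ∧ E ⊆ ratMap p q '' B ∧
      ENNReal.ofReal c * (Measure.pi fun _ : Fin d => (volume : Measure ℝ)) B ≤
        k * (Measure.pi fun _ : Fin d => (volume : Measure ℝ)) E := by
  refine core (V := Fin d → ℝ) (Measure.pi fun _ : Fin d => (volume : Measure ℝ)) (ratMap p q)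
    (fun y => LinearMap.toContinuousLinearMap (Matrix.toLin'
      (Matrix.of fun i k : Fin d =>
        (eval y (pderiv k (p i)) * eval y q - eval y (p i) * eval y (pderiv k q)) /
          eval y q ^ 2))) B hB (fun y hy => rat_deriv p q y (hq y hy)) c k hc ?_ hfib
  intro y hy
  have h := hJ y hy
  rw [pow_one] at h
  rw [ContinuousLinearMap.det, LinearMap.coe_toContinuousLinearMap, LinearMap.det_toLin']
  exact h

end CVX

theorem cVR_proof : Stmt_CVR := by
  intro K _ σ d p q B hB hq c k hc hJ hfib
  exact CVX.cv_real d p q B hB hq c k hc hJ hfib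

end Pool.GC
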