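import Pool.Agent.GC.Stmts

set_option autoImplicit false

/-! Squad GC, module CVNA: change of variables over nonarchimedean local fields. -/

namespace Pool.GC

open MvPolynomial MeasureTheory NumberField Metric

namespace CVnaX

/-! ### expanding maps in ultrametric spaces -/

section Ultra

variable {X : Type} [MetricSpace X] [IsUltrametricDist X] [SecondCountableTopology X]
  [MeasurableSpace X] [BorelSpace X]

theorem open_le (μ : Measure X)
    (hμ : ∀ (x y : X) (r : ℝ), μ (closedBall x r) = μ (closedBall y r)) (S : Set X) (g : X → X)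
    (hg : ∀ x ∈ S, ∀ y ∈ S, dist x y ≤ dist (g x) (g y)) (V : Set X) (hV : IsOpen V)
    (hSV : g '' S ⊆ V) : μ S ≤ μ V := by
  classical
  have hex : ∀ x ∈ V, ∃ n : ℕ, closedBall x ((1 / 2 : ℝ) ^ n) ⊆ V := by
    intro x hx
    obtain ⟨ε, hε, hε'⟩ := Metric.isOpen_iff.1 hV x hx
    obtain ⟨n, hn⟩ := exists_pow_lt_of_lt_one hε (by norm_num : (1 / 2 : ℝ) < 1)
    exact ⟨n, (closedBall_subset_ball hn).trans hε'⟩
  let n : X → ℕ := fun x => if h : ∃ n : ℕ, closedBall x ((1 / 2 : ℝ) ^ n) ⊆ V then Nat.find h else 0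
  have hn1 : ∀ x ∈ V, closedBall x ((1 / 2 : ℝ) ^ n x) ⊆ V := by
    intro x hx
    simp only [n]
    rw [dif_pos (hex x hx)]
    exact Nat.find_spec (hex x hx)
  have hn2 : ∀ x ∈ V, ∀ m, closedBall x ((1 / 2 : ℝ) ^ m) ⊆ V → n x ≤ m := by
    intro x hx m hm
    simp only [n]
    rw [dif_pos (hex x hx)]
    exact Nat.find_min' _ hm
  let B : X → Set X := fun x => closedBall x ((1 / 2 : ℝ) ^ n x)
  have hpos : ∀ m : ℕ, (0 : ℝ) < (1 / 2 : ℝ) ^ m := fun m => by positivity
  have hanti : ∀ a b : ℕ, a ≤ b → (1 / 2 : ℝ) ^ b ≤ (1 / 2 : ℝ) ^ a := fun a b h =>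
    pow_le_pow_of_le_one (by norm_num) (by norm_num) h
  have key : ∀ x ∈ V, ∀ y ∈ V, n x ≤ n y → (B x ∩ B y).Nonempty → B x = B y := by
    rintro x hx y hy hxy ⟨z, hz1, hz2⟩
    have e1 : closedBall z ((1 / 2 : ℝ) ^ n x) = B x :=
      IsUltrametricDist.closedBall_eq_of_mem hz1 |>.symm
    have e2 : closedBall z ((1 / 2 : ℝ) ^ n y) = B y :=
      IsUltrametricDist.closedBall_eq_of_mem hz2 |>.symm
    have h3 : y ∈ B x := by
      rw [← e1]
      have : y ∈ closedBall z ((1 / 2 : ℝ) ^ n y) := by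
        rw [e2]; exact mem_closedBall_self (hpos _).le
      exact closedBall_subset_closedBall (hanti _ _ hxy) this
    have h4 : closedBall y ((1 / 2 : ℝ) ^ n x) = B x :=
      IsUltrametricDist.closedBall_eq_of_mem h3 |>.symm
    have h5 : n y ≤ n x := hn2 y hy _ (by rw [h4]; exact hn1 x hx)
    have h6 : n x = n y := le_antisymm hxy h5
    rw [← h4]
    show closedBall y ((1 / 2 : ℝ) ^ n x) = closedBall y ((1 / 2 : ℝ) ^ n y)
    rw [h6]
  let 𝓑 : Set (Set X) := B '' V
  have hdisj : 𝓑.PairwiseDisjoint id := by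
    rintro _ ⟨x, hx, rfl⟩ _ ⟨y, hy, rfl⟩ hne
    rw [Function.onFun, id, id, Set.disjoint_iff_inter_eq_empty]
    by_contra h
    rw [← Ne, ← Set.nonempty_iff_ne_empty] at h
    rcases le_total (n x) (n y) with hxy | hxy
    · exact hne (key x hx y hy hxy h)
    · rw [Set.inter_comm] at h
      exact hne (key y hy x hx hxy h).symm
  have hopen : ∀ s ∈ 𝓑, IsOpen s := by
    rintro _ ⟨x, hx, rfl⟩
    exact IsUltrametricDist.isOpen_closedBall x (hpos _).ne'
  have hne : ∀ s ∈ 𝓑, (id s).Nonempty := by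
    rintro _ ⟨x, hx, rfl⟩
    exact ⟨x, mem_closedBall_self (hpos _).le⟩
  have hcount : 𝓑.Countable := hdisj.countable_of_isOpen hopen hne
  have hVU : V = ⋃₀ 𝓑 := by
    ext x
    constructor
    · intro hx
      exact ⟨B x, ⟨x, hx, rfl⟩, mem_closedBall_self (hpos _).le⟩
    · rintro ⟨_, ⟨y, hy, rfl⟩, hxy⟩
      exact hn1 y hy hxy
  have hVm : μ V = ∑' s : 𝓑, μ (s : Set X) := by
    conv_lhs => rw [hVU]
    exact measure_sUnion hcount hdisj fun s hs => (hopen s hs).measurableSet
  have hS : S ⊆ ⋃ s ∈ 𝓑, S ∩ g ⁻¹' s := by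
    intro x hx
    have h1 : g x ∈ V := hSV ⟨x, hx, rfl⟩
    rw [hVU] at h1
    obtain ⟨s, hs, hxs⟩ := h1
    rw [Set.mem_iUnion₂]
    exact ⟨s, hs, hx, hxs⟩
  have hpiece : ∀ s ∈ 𝓑, μ (S ∩ g ⁻¹' s) ≤ μ s := by
    rintro _ ⟨x, hx, rfl⟩
    rcases (S ∩ g ⁻¹' (B x)).eq_empty_or_nonempty with h | ⟨y, hy, hy'⟩
    · rw [h, measure_empty]; exact zero_le
    · rw [hμ x y] 
      refine measure_mono ?_
      rintro z ⟨hz, hz'⟩
      rw [mem_closedBall]
      refine (hg z hz y hy).trans ?_
      refine (IsUltrametricDist.dist_triangle_max (g z) x (g y)).trans ?_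
      refine max_le hz' ?_
      rw [dist_comm]
      exact hy'
  calc μ S ≤ μ (⋃ s ∈ 𝓑, S ∩ g ⁻¹' s) := measure_mono hS
    _ ≤ ∑' s : 𝓑, μ (S ∩ g ⁻¹' (s : Set X)) := measure_biUnion_le μ hcount _
    _ ≤ ∑' s : 𝓑, μ (s : Set X) := ENNReal.tsum_le_tsum fun s => hpiece s s.2
    _ = μ V := hVm.symm

theorem expand_le (μ : Measure X) [μ.OuterRegular]
    (hμ : ∀ (x y : X) (r : ℝ), μ (closedBall x r) = μ (closedBall y r)) (S : Set X) (g : X → X)
    (hg : ∀ x ∈ S, ∀ y ∈ S, dist x y ≤ dist (g x) (g y)) : μ S ≤ μ (g '' S) := by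
  rw [Set.measure_eq_iInf_isOpen (g '' S) μ]
  refine le_iInf fun V => le_iInf fun hSV => le_iInf fun hV => ?_
  exact open_le μ hμ S g hg V hV hSV

end Ultra

/-! ### derivatives -/

section Deriv

variable {F : Type} [NontriviallyNormedField F] {d : ℕ}

theorem hasStrictFDerivAt_eval (f : MvPolynomial (Fin d) F) (y : Fin d → F) :
    HasStrictFDerivAt (fun y => eval y f)
      (∑ k, (eval y (pderiv k f)) • (ContinuousLinearMap.proj k : (Fin d → F) →L[F] F)) y := by
  induction f using MvPolynomial.induction_on with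
  | C a =>
    have h : HasStrictFDerivAt (fun _ : Fin d → F => a) (0 : (Fin d → F) →L[F] F) y :=
      hasStrictFDerivAt_const a y
    simp only [eval_C]
    refine h.congr_fderiv ?_
    ext v
    simp
  | add p q hp hq =>
    have h := hp.fun_add hq
    simp only [map_add]
    refine h.congr_fderiv ?_
    ext v
    simp [add_mul, Finset.sum_add_distrib]
  | mul_X p i hp =>
    have h := hp.mul (hasStrictFDerivAt_apply (𝕜 := F) (F' := fun _ : Fin d => F) i y)
    simp only [map_mul, eval_X]
    refine h.congr_fderiv ?_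
    ext v
    simp only [Derivation.leibniz, pderiv_X, smul_eq_mul, map_add, map_mul, eval_X,
      add_apply, smul_apply,
      sum_apply, ContinuousLinearMap.proj_apply, add_mul,
      Finset.sum_add_distrib]
    congr 1
    · rw [Finset.sum_eq_single i]
      · simp
      · intro b _ hb
        simp [hb]
      · simp
    · rw [Finset.mul_sum]
      exact Finset.sum_congr rfl fun k _ => by ring

/-- the Jacobian matrix -/
noncomputable def jac (p : Fin d → MvPolynomial (Fin d) F) (q : MvPolynomial (Fin d) F)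
    (y : Fin d → F) : Matrix (Fin d) (Fin d) F :=
  Matrix.of fun i k : Fin d =>
    (eval y (pderiv k (p i)) * eval y q - eval y (p i) * eval y (pderiv k q)) / eval y q ^ 2

theorem hasStrictFDerivAt_ratMap [CompleteSpace F] (p : Fin d → MvPolynomial (Fin d) F)
    (q : MvPolynomial (Fin d) F) (y : Fin d → F) (hy : eval y q ≠ 0) :
    HasStrictFDerivAt (ratMap p q) (LinearMap.toContinuousLinearMap (Matrix.toLin' (jac p q y)))
      y := by
  rw [hasStrictFDerivAt_pi']
  intro i
  have h1 := hasStrictFDerivAt_eval (p i) y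
  have h2 := (hasStrictDerivAt_inv hy).comp_hasStrictFDerivAt y (hasStrictFDerivAt_eval q y)
  have h3 := h1.mul h2
  have h4 : (fun y => ratMap p q y i) = fun y => eval y (p i) * (Inv.inv ∘ fun y => eval y q) y := by
    funext z
    simp [ratMap, div_eq_mul_inv]
  rw [h4]
  refine h3.congr_fderiv ?_
  ext v
  simp only [Function.comp_apply, add_apply, smul_apply,
    sum_apply, ContinuousLinearMap.proj_apply, smul_eq_mul,
    ContinuousLinearMap.comp_apply, LinearMap.coe_toContinuousLinearMap', Matrix.toLin'_apply,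
    Matrix.mulVec, dotProduct, jac, Matrix.of_apply]
  rw [Finset.mul_sum, Finset.mul_sum, Finset.mul_sum, ← Finset.sum_add_distrib]
  refine Finset.sum_congr rfl fun k _ => ?_
  field_simp
  ring

end Deriv

/-! ### the local statement -/

section Local

variable {F : Type} [NontriviallyNormedField F] [CompleteSpace F] {d : ℕ}

theorem local_expand (hna : ∀ x y : F, ‖x + y‖ ≤ max ‖x‖ ‖y‖)
    (p : Fin d → MvPolynomial (Fin d) F) (q : MvPolynomial (Fin d) F) (y₀ : Fin d → F)
    (hq : eval y₀ q ≠ 0) (hJ : (jac p q y₀).det ≠ 0) :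
    ∃ U : Set (Fin d → F), IsOpen U ∧ y₀ ∈ U ∧ ∀ y ∈ U, ∀ y' ∈ U,
      dist y y' ≤ dist ((jac p q y₀)⁻¹.mulVec (ratMap p q y))
        ((jac p q y₀)⁻¹.mulVec (ratMap p q y')) := by
  have _hu : IsUltrametricDist F := IsUltrametricDist.isUltrametricDist_of_forall_norm_add_le_max_norm hna
  set J := jac p q y₀
  have h1 := hasStrictFDerivAt_ratMap p q y₀ hq
  have h2 : HasStrictFDerivAt (fun y => (LinearMap.toContinuousLinearMap (Matrix.toLin' J⁻¹)) (ratMap p q y))
      ((LinearMap.toContinuousLinearMap (Matrix.toLin' J⁻¹)).comp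
        (LinearMap.toContinuousLinearMap (Matrix.toLin' J))) y₀ :=
    (LinearMap.toContinuousLinearMap (Matrix.toLin' J⁻¹)).hasStrictFDerivAt.comp y₀ h1
  obtain ⟨s, hs, happ⟩ := h2.approximates_deriv_on_nhds (c := 1 / 2) (Or.inr (by norm_num))
  obtain ⟨U, hUs, hU, hyU⟩ := _root_.mem_nhds_iff.1 hs
  refine ⟨U, hU, hyU, ?_⟩
  intro y hy y' hy'
  have h3 := happ y (hUs hy) y' (hUs hy')
  have h4 : ((LinearMap.toContinuousLinearMap (Matrix.toLin' J⁻¹)).comp
        (LinearMap.toContinuousLinearMap (Matrix.toLin' J))) (y - y') = y - y' := by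
    simp only [ContinuousLinearMap.comp_apply, LinearMap.coe_toContinuousLinearMap',
      Matrix.toLin'_apply]
    rw [Matrix.mulVec_mulVec, Matrix.nonsing_inv_mul _ (Ne.isUnit hJ), Matrix.one_mulVec]
  rw [h4] at h3
  simp only [LinearMap.coe_toContinuousLinearMap', Matrix.toLin'_apply] at h3
  set a := J⁻¹.mulVec (ratMap p q y)
  set b := J⁻¹.mulVec (ratMap p q y')
  rw [dist_eq_norm, dist_eq_norm]
  have h5 : y - y' = (a - b) - (a - b - (y - y')) := by abel
  have h6 : ‖y - y'‖ ≤ max ‖a - b‖ ‖a - b - (y - y')‖ := by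
    conv_lhs => rw [h5]
    rw [sub_eq_add_neg, ← norm_neg (a - b - (y - y'))]
    exact IsUltrametricDist.norm_add_le_max _ _
  rcases le_max_iff.1 h6 with h | h
  · exact h
  · have h7 := h.trans h3
    have h8 : ‖y - y'‖ ≤ 0 := by
      have : ((1 / 2 : NNReal) : ℝ) = 1 / 2 := by norm_num
      rw [this] at h7
      linarith [norm_nonneg (y - y')]
    exact h8.trans (norm_nonneg _)

end Local

end CVnaX

open CVnaX

theorem cvna_proof (hScale : Stmt_Scale) : Stmt_CVna := by
  intro K _ P qq hP d p q B hB hBq c k hc hBJ hfib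
  classical
  obtain ⟨he, -, hna, -⟩ := id hP
  have : IsUltrametricDist P.F :=
    IsUltrametricDist.isUltrametricDist_of_forall_norm_add_le_max_norm hna
  have hHaar : (P.vol d).IsAddHaarMeasure := by unfold LF.vol; infer_instance
  have hreg : (P.vol d).OuterRegular := inferInstance
  have htr : ∀ (x y : Fin d → P.F) (r : ℝ), P.vol d (closedBall x r) = P.vol d (closedBall y r) := by
    have h0 : ∀ (x : Fin d → P.F) (r : ℝ), P.vol d (closedBall x r) = P.vol d (closedBall 0 r) := by
      intro x r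
      have h1 : (fun z => -x + z) ⁻¹' (closedBall (0 : Fin d → P.F) r) = closedBall x r := by
        ext z
        simp only [Set.mem_preimage, mem_closedBall, dist_eq_norm, sub_zero]
        rw [neg_add_eq_sub]
      rw [← h1, measure_preimage_add]
    intro x y r
    rw [h0 x, h0 y]
  have hjac : ∀ y, ratJac p q y = (jac p q y).det := fun y => rfl
  have hBJ' : ∀ y ∈ B, c ≤ ‖(jac p q y).det‖ := by
    intro y hy
    have := hBJ y hy
    rwa [he, pow_one, hjac] at this
  have hdet : ∀ y ∈ B, (jac p q y).det ≠ 0 := by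
    intro y hy h
    have := hBJ' y hy
    rw [h, norm_zero] at this
    linarith
  -- local neighbourhoods
  choose! U hUo hyU hUe using fun (y : Fin d → P.F) (hy : y ∈ B) =>
    local_expand hna p q y (hBq y hy) (hdet y hy)
  -- inequality on pieces
  have hpiece : ∀ y ∈ B, ∀ S ⊆ U y, ENNReal.ofReal c * P.vol d S ≤ P.vol d (ratMap p q '' S) := by
    intro y hy S hS
    have h1 := expand_le (P.vol d) htr S (fun z => (jac p q y)⁻¹.mulVec (ratMap p q z))
      (fun a ha b hb => hUe y hy a (hS ha) b (hS hb))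
    have h2 := hScale K P qq hP d (jac p q y) (hdet y hy)
      ((fun z => (jac p q y)⁻¹.mulVec (ratMap p q z)) '' S)
    have h3 : (jac p q y).mulVec '' ((fun z => (jac p q y)⁻¹.mulVec (ratMap p q z)) '' S) =
        ratMap p q '' S := by
      rw [Set.image_image]
      refine Set.image_congr fun z _ => ?_
      rw [Matrix.mulVec_mulVec, Matrix.mul_nonsing_inv _ (Ne.isUnit (hdet y hy)),
        Matrix.one_mulVec]
    rw [h3] at h2
    rw [h2]
    exact mul_le_mul' (ENNReal.ofReal_le_ofReal (hBJ' y hy)) h1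
  have hinj : ∀ y ∈ B, Set.InjOn (ratMap p q) (U y) := by
    intro y hy a ha b hb hab
    have h1 := hUe y hy a ha b hb
    rw [hab, dist_self] at h1
    exact dist_le_zero.1 h1
  have hcont : ContinuousOn (ratMap p q) B := fun y hy =>
    (hasStrictFDerivAt_ratMap p q y (hBq y hy)).continuousAt.continuousWithinAt
  rcases B.eq_empty_or_nonempty with hBe | hBne
  · exact ⟨∅, MeasurableSet.empty, Set.empty_subset _, by rw [hBe]; simp⟩
  -- countable cover
  obtain ⟨t, htB, htc, htU⟩ := TopologicalSpace.countable_cover_nhdsWithin (s := B) (f := U)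
    (fun y hy => mem_nhdsWithin_of_mem_nhds ((hUo y hy).mem_nhds (hyU y hy)))
  have htne : t.Nonempty := by
    obtain ⟨y, hy⟩ := hBne
    have := htU hy
    rw [Set.mem_iUnion₂] at this
    obtain ⟨x, hx, -⟩ := this
    exact ⟨x, hx⟩
  obtain ⟨u, hu⟩ := htc.exists_eq_range htne
  have huB : ∀ n, u n ∈ B := fun n => htB (by rw [hu]; exact ⟨n, rfl⟩)
  let V : ℕ → Set (Fin d → P.F) := disjointed fun n => U (u n)
  have hVm : ∀ n, MeasurableSet (V n) :=
    MeasurableSet.disjointed fun n => (hUo _ (huB n)).measurableSet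
  have hVU : ∀ n, V n ⊆ U (u n) := fun n => disjointed_le (fun n => U (u n)) n
  have hVd : Pairwise (Function.onFun Disjoint V) := disjoint_disjointed _
  have hBV : B ⊆ ⋃ n, V n := by
    rw [iUnion_disjointed]
    refine htU.trans ?_
    rw [hu]
    simp
  let Bn : ℕ → Set (Fin d → P.F) := fun n => B ∩ V n
  have hBn : B = ⋃ n, Bn n := by
    rw [← Set.inter_iUnion, Set.inter_eq_left.2 hBV]
  let E : ℕ → Set (Fin d → P.F) := fun n => ratMap p q '' Bn n
  have hEm : ∀ n, MeasurableSet (E n) := by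
    intro n
    exact (hB.inter (hVm n)).image_of_continuousOn_injOn
      (hcont.mono Set.inter_subset_left)
      ((hinj _ (huB n)).mono (Set.inter_subset_right.trans (hVU n)))
  refine ⟨⋃ n, E n, MeasurableSet.iUnion hEm, ?_, ?_⟩
  · rw [Set.iUnion_subset_iff]
    intro n
    exact Set.image_mono Set.inter_subset_left
  · have hmult : ∀ z, ∑' n, (E n).indicator (1 : (Fin d → P.F) → ENNReal) z ≤
        (⋃ n, E n).indicator (fun _ => (k : ENNReal)) z := by
      intro z
      by_cases hz : z ∈ ⋃ n, E n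
      · rw [Set.indicator_of_mem hz]
        rw [ENNReal.tsum_eq_iSup_sum]
        refine iSup_le fun s => ?_
        have hex : ∀ n, z ∈ E n → ∃ y, y ∈ Bn n ∧ ratMap p q y = z := fun n hn => hn
        choose! w hw1 hw2 using hex
        have h1 : ∑ n ∈ s, (E n).indicator (1 : (Fin d → P.F) → ENNReal) z =
            ((s.filter fun n => z ∈ E n).card : ENNReal) := by
          rw [Finset.card_filter]
          push_cast
          refine Finset.sum_congr rfl fun n _ => ?_
          by_cases h : z ∈ E n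
          · simp [h]
          · simp [h]
        rw [h1]
        have h2 : ((s.filter fun n => z ∈ E n : Finset ℕ) : Set ℕ).encard ≤
            {y | y ∈ B ∧ ratMap p q y = z}.encard := by
          refine Set.encard_le_encard_of_injOn (f := w) ?_ ?_
          · intro n hn
            have hn' : z ∈ E n := by simpa using (Finset.mem_filter.1 hn).2
            exact ⟨(hw1 n hn').1, hw2 n hn'⟩
          · intro n hn m hm hnm
            have hn' : z ∈ E n := by simpa using (Finset.mem_filter.1 hn).2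
            have hm' : z ∈ E m := by simpa using (Finset.mem_filter.1 hm).2
            by_contra hne
            have h3 := Set.disjoint_left.1 (hVd hne) (hw1 n hn').2
            rw [hnm] at h3
            exact h3 (hw1 m hm').2
        rw [Set.encard_coe_eq_coe_finsetCard] at h2
        have h3 := h2.trans (hfib z)
        have h4 : (s.filter fun n => z ∈ E n).card ≤ k := by exact_mod_cast h3
        exact_mod_cast h4
      · rw [Set.indicator_of_notMem hz]
        rw [ENNReal.tsum_eq_zero.2]
        intro n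
        rw [Set.indicator_of_notMem]
        intro h
        exact hz (Set.mem_iUnion.2 ⟨n, h⟩)
    calc ENNReal.ofReal c * P.vol d B ≤ ENNReal.ofReal c * ∑' n, P.vol d (Bn n) := by
          conv_lhs => rw [hBn]
          exact mul_le_mul_right (measure_iUnion_le _) _
      _ = ∑' n, ENNReal.ofReal c * P.vol d (Bn n) := ENNReal.tsum_mul_left.symm
      _ ≤ ∑' n, P.vol d (E n) := ENNReal.tsum_le_tsum fun n =>
          hpiece _ (huB n) _ (Set.inter_subset_right.trans (hVU n))
      _ = ∑' n, ∫⁻ z, (E n).indicator (1 : (Fin d → P.F) → ENNReal) z ∂(P.vol d) := by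
          refine tsum_congr fun n => ?_
          rw [lintegral_indicator_one (hEm n)]
      _ = ∫⁻ z, ∑' n, (E n).indicator (1 : (Fin d → P.F) → ENNReal) z ∂(P.vol d) := by
          rw [lintegral_tsum]
          intro n
          exact (measurable_one.indicator (hEm n)).aemeasurable
      _ ≤ ∫⁻ z, (⋃ n, E n).indicator (fun _ => (k : ENNReal)) z ∂(P.vol d) :=
          lintegral_mono hmult
      _ = k * P.vol d (⋃ n, E n) := by
          rw [lintegral_indicator_const (MeasurableSet.iUnion hEm)]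

end Pool.GC
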