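import Pool.Agent.GC.Stmts

set_option autoImplicit false

/-!
# Squad GC, module CMPB
-/

namespace Pool.GC

open MvPolynomial MeasureTheory NumberField Metric

namespace CmpBX

theorem continuous_aeval' {K : Type} [Field K] (P : LF K) {d : ℕ} (p : MvPolynomial (Fin d) K) :
    Continuous fun y : Fin d → P.F => aeval y p := by
  induction p using MvPolynomial.induction_on with
  | C a => simp only [aeval_C]; exact continuous_const
  | add p q hp hq => simp only [map_add]; exact hp.add hq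
  | mul_X p i hp => simp only [map_mul, aeval_X]; exact hp.mul (continuous_apply i)

theorem vol_ne_zero {K : Type} [Field K] (P : LF K) {d : ℕ} {B : Set (Fin d → P.F)}
    (hB : IsOpen B) (hne : B.Nonempty) : P.vol d B ≠ 0 := by
  have h1 : P.vol d = Measure.pi fun _ => P.μ := rfl
  rw [h1]
  exact (hB.measure_pos (Measure.pi fun _ : Fin d => P.μ) hne).ne'

theorem exists_nhds_vol {K : Type} [Field K] (P : LF K) {d : ℕ} (y : Fin d → P.F) :
    ∃ s ∈ nhds y, P.vol d s < ⊤ := by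
  have h1 : P.vol d = Measure.pi fun _ => P.μ := rfl
  rw [h1]
  exact (Measure.pi fun _ : Fin d => P.μ).finiteAt_nhds y

/-- a good index -/
theorem exists_J (hRel : Stmt_PRel) {K : Type} [Field K] {N d : ℕ}
    (ξ : Fin d → Matrix (Fin N) (Fin N) K) {F : Type} [NormedField F] [Algebra K F]
    (w : Fin N → F) (hw : w ≠ 0) : ∃ J : Fin (d + 1) → Fin N, ‖w (J 0)‖ = ‖w‖ ∧
      ‖plk ξ w‖ ≤ (d + 1 : ℝ) * ‖plk ξ w J‖ := by
  obtain ⟨i₀, hi₀⟩ := Function.ne_iff.1 hw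
  have hne : Nonempty (Fin N) := ⟨i₀⟩
  obtain ⟨j₀, -, hj₀⟩ := Finset.exists_max_image Finset.univ (fun i => ‖w i‖) ⟨i₀, Finset.mem_univ _⟩
  have hwj : ‖w j₀‖ = ‖w‖ := le_antisymm (norm_le_pi_norm w j₀)
    ((pi_norm_le_iff_of_nonneg (norm_nonneg _)).2 fun i => hj₀ i (Finset.mem_univ i))
  have hpos : 0 < ‖w‖ := norm_pos_iff.2 hw
  obtain ⟨J', -, hJ'⟩ := Finset.exists_max_image (Finset.univ : Finset (Fin d → Fin N))
    (fun J' => ‖plk ξ w (Fin.cons (α := fun _ => Fin N) j₀ J')‖) ⟨fun _ => i₀, Finset.mem_univ _⟩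
  refine ⟨Fin.cons (α := fun _ => Fin N) j₀ J', by simpa using hwj, ?_⟩
  refine (pi_norm_le_iff_of_nonneg (by positivity)).2 fun J => ?_
  have h1 := (hRel K N d ξ F w j₀ J).2
  have h2 : ‖w‖ * ‖plk ξ w J‖ ≤
      ‖w‖ * ((d + 1 : ℝ) * ‖plk ξ w (Fin.cons (α := fun _ => Fin N) j₀ J')‖) := by
    calc ‖w‖ * ‖plk ξ w J‖ = ‖w j₀ * plk ξ w J‖ := by rw [norm_mul, hwj]
      _ = ‖∑ i : Fin (d + 1), (-1) ^ (i : ℕ) * (w (J i) *
          plk ξ w (Fin.cons (α := fun _ => Fin N) j₀ fun a : Fin d => J (i.succAbove a)))‖ := by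
        rw [h1]
      _ ≤ ∑ i : Fin (d + 1), ‖(-1) ^ (i : ℕ) * (w (J i) *
          plk ξ w (Fin.cons (α := fun _ => Fin N) j₀ fun a : Fin d => J (i.succAbove a)))‖ :=
        norm_sum_le _ _
      _ ≤ ∑ _i : Fin (d + 1), ‖w‖ * ‖plk ξ w (Fin.cons (α := fun _ => Fin N) j₀ J')‖ := by
        refine Finset.sum_le_sum fun i _ => ?_
        rw [norm_mul, norm_pow, norm_neg, norm_one, one_pow, one_mul, norm_mul]
        exact mul_le_mul (norm_le_pi_norm w _) (hJ' _ (Finset.mem_univ _)) (norm_nonneg _)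
          (norm_nonneg _)
      _ = _ := by
        rw [Finset.sum_const, Finset.card_univ, Fintype.card_fin, nsmul_eq_mul]
        push_cast
        ring
  exact le_of_mul_le_mul_left h2 hpos

/-- the constant in the comparison of the Plücker coordinates -/
noncomputable def c₁ {K : Type} [Field K] {N d : ℕ} (ξ : Fin d → Matrix (Fin N) (Fin N) K)
    (l : Fin d → Fin N × Fin N → K) {F : Type} [NormedField F] [Algebra K F]
    (g : Matrix (Fin N) (Fin N) F) : ℝ :=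
  ‖Matrix.det (Matrix.of fun b c : Fin d => ∑ ij : Fin N × Fin N, algebraMap K F (l b ij) *
    (g.adjugate.adjugate * (ξ c).map (algebraMap K F) * g.adjugate) ij.1 ij.2)‖ *
    ∑ J : Fin (d + 1) → Fin N, ∑ J' : Fin (d + 1) → Fin N, ∏ a, ‖g.adjugate (J a) (J' a)‖

theorem c₁_nonneg {K : Type} [Field K] {N d : ℕ} (ξ : Fin d → Matrix (Fin N) (Fin N) K)
    (l : Fin d → Fin N × Fin N → K) {F : Type} [NormedField F] [Algebra K F]
    (g : Matrix (Fin N) (Fin N) F) : 0 ≤ c₁ ξ l g := by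
  unfold c₁
  exact mul_nonneg (norm_nonneg _) (Finset.sum_nonneg fun J _ => Finset.sum_nonneg fun J' _ =>
    Finset.prod_nonneg fun a _ => norm_nonneg _)

theorem continuous_c₁ {K : Type} [Field K] {N d : ℕ} (ξ : Fin d → Matrix (Fin N) (Fin N) K)
    (l : Fin d → Fin N × Fin N → K) {F : Type} [NormedField F] [Algebra K F] :
    Continuous fun g : Matrix (Fin N) (Fin N) F => c₁ ξ l g := by
  unfold c₁
  have hadj : Continuous fun g : Matrix (Fin N) (Fin N) F => g.adjugate :=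
    continuous_id.matrix_adjugate
  refine Continuous.mul (Continuous.norm (Continuous.matrix_det (continuous_matrix fun b c => ?_)))
    (continuous_finsetSum _ fun J _ => continuous_finsetSum _ fun J' _ =>
      continuous_finsetProd _ fun a _ => (hadj.matrix_elem _ _).norm)
  refine continuous_finsetSum _ fun ij _ => continuous_const.mul ?_
  exact ((hadj.matrix_adjugate.matrix_mul continuous_const).matrix_mul hadj).matrix_elem _ _

/-- comparison of the Plücker coordinates of `u` and `g u` -/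
theorem plk_le {K : Type} [Field K] {N d : ℕ} (I : Set (MvPolynomial (Fin N × Fin N) K))
    (ξ : Fin d → Matrix (Fin N) (Fin N) K) (hG : IsGroup I) (l : Fin d → Fin N × Fin N → K)
    (hl : ∀ (F : Type) [Field F] [Algebra K F] (g : Matrix (Fin N) (Fin N) F), g ∈ pts I F →
      ∀ (u : Fin N → F) (J : Fin (d + 1) → Fin N),
      plk ξ (g.mulVec u) J =
        Matrix.det (Matrix.of fun b c : Fin d => ∑ ij : Fin N × Fin N, algebraMap K F (l b ij) *
          (g.adjugate * (ξ c).map (algebraMap K F) * g) ij.1 ij.2) *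
        ∑ J' : Fin (d + 1) → Fin N, (∏ a, g (J a) (J' a)) * plk ξ u J')
    {F : Type} [NormedField F] [Algebra K F] (g : Matrix (Fin N) (Fin N) F) (hg : g ∈ pts I F)
    (u : Fin N → F) : ‖plk ξ u‖ ≤ c₁ ξ l g * ‖plk ξ (g.mulVec u)‖ := by
  refine (pi_norm_le_iff_of_nonneg (mul_nonneg (c₁_nonneg ξ l g) (norm_nonneg _))).2 fun J => ?_
  have hinv : g.adjugate.mulVec (g.mulVec u) = u := by
    rw [Matrix.mulVec_mulVec, Matrix.adjugate_mul, hG.det F g hg, one_smul, Matrix.one_mulVec]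
  have h1 := hl F g.adjugate (hG.inv F g hg) (g.mulVec u) J
  rw [hinv] at h1
  rw [h1, norm_mul]
  unfold c₁
  rw [mul_assoc]
  refine mul_le_mul_of_nonneg_left ?_ (norm_nonneg _)
  have hnn : ∀ J J' : Fin (d + 1) → Fin N, 0 ≤ ∏ a, ‖g.adjugate (J a) (J' a)‖ := fun J J' =>
    Finset.prod_nonneg fun a _ => norm_nonneg _
  calc ‖∑ J' : Fin (d + 1) → Fin N, (∏ a, g.adjugate (J a) (J' a)) * plk ξ (g.mulVec u) J'‖
      ≤ ∑ J' : Fin (d + 1) → Fin N, ‖(∏ a, g.adjugate (J a) (J' a)) * plk ξ (g.mulVec u) J'‖ :=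
        norm_sum_le _ _
    _ ≤ ∑ J' : Fin (d + 1) → Fin N, (∏ a, ‖g.adjugate (J a) (J' a)‖) * ‖plk ξ (g.mulVec u)‖ := by
        refine Finset.sum_le_sum fun J' _ => ?_
        rw [norm_mul, norm_prod]
        exact mul_le_mul_of_nonneg_left (norm_le_pi_norm (plk ξ (g.mulVec u)) J') (hnn J J')
    _ = (∑ J' : Fin (d + 1) → Fin N, ∏ a, ‖g.adjugate (J a) (J' a)‖) * ‖plk ξ (g.mulVec u)‖ := by
        rw [Finset.sum_mul]
    _ ≤ _ := by
        refine mul_le_mul_of_nonneg_right ?_ (norm_nonneg _)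
        exact Finset.single_le_sum (f := fun J : Fin (d + 1) → Fin N =>
          ∑ J' : Fin (d + 1) → Fin N, ∏ a, ‖g.adjugate (J a) (J' a)‖)
          (fun J _ => Finset.sum_nonneg fun J' _ => hnn J J') (Finset.mem_univ J)

/-- the constant in the comparison of the norms of `u` and `g u` -/
noncomputable def c₂ {N : ℕ} {F : Type} [NormedField F] (g : Matrix (Fin N) (Fin N) F) : ℝ :=
  ∑ i, ∑ j, ‖g i j‖

theorem c₂_nonneg {N : ℕ} {F : Type} [NormedField F] (g : Matrix (Fin N) (Fin N) F) :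
    0 ≤ c₂ g :=
  Finset.sum_nonneg fun _ _ => Finset.sum_nonneg fun _ _ => norm_nonneg _

theorem continuous_c₂ {N : ℕ} {F : Type} [NormedField F] :
    Continuous fun g : Matrix (Fin N) (Fin N) F => c₂ g :=
  continuous_finsetSum _ fun i _ => continuous_finsetSum _ fun j _ =>
    (continuous_id.matrix_elem i j).norm

theorem mulVec_le {N : ℕ} {F : Type} [NormedField F] (g : Matrix (Fin N) (Fin N) F)
    (u : Fin N → F) : ‖g.mulVec u‖ ≤ c₂ g * ‖u‖ := by
  refine (pi_norm_le_iff_of_nonneg (mul_nonneg (c₂_nonneg g) (norm_nonneg _))).2 fun i => ?_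
  calc ‖g.mulVec u i‖ = ‖∑ j, g i j * u j‖ := rfl
    _ ≤ ∑ j, ‖g i j * u j‖ := norm_sum_le _ _
    _ ≤ ∑ j, ‖g i j‖ * ‖u‖ := Finset.sum_le_sum fun j _ => by
        rw [norm_mul]
        exact mul_le_mul_of_nonneg_left (norm_le_pi_norm u j) (norm_nonneg _)
    _ = (∑ j, ‖g i j‖) * ‖u‖ := by rw [Finset.sum_mul]
    _ ≤ _ := by
        refine mul_le_mul_of_nonneg_right ?_ (norm_nonneg _)
        exact Finset.single_le_sum (f := fun i => ∑ j, ‖g i j‖)
          (fun i _ => Finset.sum_nonneg fun j _ => norm_nonneg _) (Finset.mem_univ i)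

theorem cont_pair {N : ℕ} {F X : Type} [NormedField F] [TopologicalSpace X]
    (ψ : X → Matrix (Fin N) (Fin N) F) (x₀ : X) (hψ : ContinuousAt ψ x₀) (i j : Fin N) :
    ContinuousAt (fun z : X × X => ‖((ψ z.2).adjugate * ψ z.1 - 1) i j‖) (x₀, x₀) := by
  have h1 : Continuous fun w : Matrix (Fin N) (Fin N) F × Matrix (Fin N) (Fin N) F =>
      ‖(w.2.adjugate * w.1 - 1) i j‖ := by
    have h2 : Continuous fun w : Matrix (Fin N) (Fin N) F × Matrix (Fin N) (Fin N) F =>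
        w.2.adjugate * w.1 := (continuous_snd.matrix_adjugate).matrix_mul continuous_fst
    have h3 : Continuous fun w : Matrix (Fin N) (Fin N) F × Matrix (Fin N) (Fin N) F =>
        (w.2.adjugate * w.1) i j - (1 : Matrix (Fin N) (Fin N) F) i j :=
      (h2.matrix_elem i j).sub continuous_const
    exact h3.norm
  have h4 : ContinuousAt (fun z : X × X => (ψ z.1, ψ z.2)) (x₀, x₀) :=
    hψ.fst'.prodMk hψ.snd'
  exact ContinuousAt.comp (f := fun z : X × X => (ψ z.1, ψ z.2))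
    (g := fun w : Matrix (Fin N) (Fin N) F × Matrix (Fin N) (Fin N) F =>
      ‖(w.2.adjugate * w.1 - 1) i j‖) h1.continuousAt h4

end CmpBX

open CmpBX in
theorem cmpB_proof (hAct : Stmt_PAct) (hRel : Stmt_PRel) : Stmt_CmpB := by
  intro K _ _ N d I ξ φ D hG hξ hD P
  obtain ⟨l, hl⟩ := hAct K N d I ξ hG hξ
  -- the centre
  obtain ⟨y₁, hy₁⟩ : ∃ y : Fin d → K, aeval y D.Δ ≠ 0 := by
    by_contra hcon
    push Not at hcon
    apply hD.ne
    apply MvPolynomial.funext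
    intro x
    have h1 := hcon x
    rw [MvPolynomial.aeval_eq_eval] at h1
    rw [map_zero]
    exact h1
  set y₀ : Fin d → P.F := fun i => algebraMap K P.F (y₁ i) with hy₀
  have hΔ₀ : aeval y₀ D.Δ ≠ 0 := by
    have h1 : aeval y₀ D.Δ = algebraMap K P.F (aeval y₁ D.Δ) := by
      exact MvPolynomial.aeval_algebraMap_apply P.F y₁ D.Δ
    rw [h1]
    exact (map_ne_zero_iff _ (algebraMap K P.F).injective).2 hy₁
  have hdvd : ∀ (y : Fin d → P.F) (p : MvPolynomial (Fin d) K), p ∣ D.Δ → aeval y D.Δ ≠ 0 →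
      aeval y p ≠ 0 := by
    rintro y p ⟨q, hq⟩ hy h0
    apply hy
    rw [hq, map_mul, h0, zero_mul]
  -- the parametrisation is continuous
  have hφc : ContinuousAt (fun y : Fin d → P.F => phiAt D.Φ D.δ y) y₀ := by
    refine continuousAt_pi.2 fun i => continuousAt_pi.2 fun j => ?_
    exact (continuous_aeval' P (D.Φ i j)).continuousAt.div
      (continuous_aeval' P D.δ).continuousAt (hdvd y₀ _ hD.dvd hΔ₀)
  set f : (Fin d → P.F) → ℝ := fun y => c₁ ξ l (phiAt D.Φ D.δ y) * c₂ (phiAt D.Φ D.δ y) ^ (d + 1) *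
    (d + 1) * (‖aeval y D.m₂‖ / ‖aeval y D.m₁‖) with hf
  have hfc : ContinuousAt f y₀ := by
    refine ContinuousAt.mul (ContinuousAt.mul (ContinuousAt.mul ?_ ?_) continuousAt_const) ?_
    · exact (continuous_c₁ ξ l).continuousAt.comp hφc
    · exact ((continuous_c₂).continuousAt.comp hφc).pow _
    · exact (continuous_aeval' P D.m₂).norm.continuousAt.div
        (continuous_aeval' P D.m₁).norm.continuousAt
        (norm_ne_zero_iff.2 (hdvd y₀ _ hD.dvd₁ hΔ₀))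
  have hf0 : ∀ y, 0 ≤ f y := fun y => by
    have h1 := c₁_nonneg ξ l (phiAt D.Φ D.δ y)
    have h2 := c₂_nonneg (phiAt D.Φ D.δ y)
    simp only [hf]
    positivity
  set M : ℝ := f y₀ + 1 with hM
  have hMpos : 0 < M := by linarith [hf0 y₀]
  have e₁ : ∀ᶠ y in nhds y₀, aeval y D.Δ ≠ 0 :=
    (continuous_aeval' P D.Δ).continuousAt.eventually_ne hΔ₀
  have e₂ : ∀ᶠ y in nhds y₀, f y < M :=
    hfc.eventually_lt continuousAt_const (by linarith)
  have e₃ : ∀ᶠ z in nhds y₀ ×ˢ nhds y₀, ∀ i j,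
      ‖((phiAt D.Φ D.δ z.2).adjugate * phiAt D.Φ D.δ z.1 - 1) i j‖ < 1 := by
    rw [← nhds_prod_eq]
    have hz : ((phiAt D.Φ D.δ y₀).adjugate * phiAt D.Φ D.δ y₀ - 1) = 0 := by
      rw [Matrix.adjugate_mul, hG.det P.F _ (hD.mem P.F y₀ hΔ₀), one_smul, sub_self]
    refine Filter.eventually_all.2 fun i => Filter.eventually_all.2 fun j => ?_
    refine (cont_pair _ y₀ hφc i j).eventually_lt continuousAt_const ?_
    simp only
    rw [hz, Matrix.zero_apply, norm_zero]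
    exact zero_lt_one
  obtain ⟨t, ht, ht'⟩ := (Filter.eventually_prod_self_iff (r := fun a b : Fin d → P.F =>
    ∀ i j, ‖((phiAt D.Φ D.δ b).adjugate * phiAt D.Φ D.δ a - 1) i j‖ < 1)).1 e₃
  obtain ⟨s, hs, hs'⟩ := exists_nhds_vol P y₀
  obtain ⟨B, hBsub, hBo, hyB⟩ := _root_.mem_nhds_iff.1
    (Filter.inter_mem (Filter.inter_mem (Filter.inter_mem e₁ e₂) ht) hs)
  refine ⟨B, (1 / M) ^ P.e, hBo.measurableSet, by positivity, ?_, ?_, ?_, ?_⟩
  · exact vol_ne_zero P hBo ⟨y₀, hyB⟩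
  · exact ((measure_mono fun x hx => (hBsub hx).2).trans_lt hs').ne
  · intro y hy
    obtain ⟨⟨⟨hyΔ, hyf⟩, -⟩, -⟩ := hBsub hy
    have hyΔ' : aeval y D.Δ ≠ 0 := hyΔ
    refine ⟨hyΔ', fun u hu => ?_⟩
    have hδ := hdvd y _ hD.dvd hyΔ'
    have hm₁ := hdvd y _ hD.dvd₁ hyΔ'
    have hm₂ := hdvd y _ hD.dvd₂ hyΔ'
    set g := phiAt D.Φ D.δ y with hg
    have hgI : g ∈ pts I P.F := hD.mem P.F y hyΔ'
    have hnum : (phiNum D.Φ y).mulVec u = aeval y D.δ • g.mulVec u := by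
      have h1 : phiNum D.Φ y = aeval y D.δ • g := by
        ext i j
        rw [Matrix.smul_apply, smul_eq_mul, hg]
        unfold phiNum phiAt
        rw [Matrix.of_apply, Matrix.of_apply, mul_div_cancel₀ _ hδ]
      rw [h1, Matrix.smul_mulVec]
    have hgu : g.mulVec u ≠ 0 := by
      intro h0
      apply hu
      have h1 : g.adjugate.mulVec (g.mulVec u) = u := by
        rw [Matrix.mulVec_mulVec, Matrix.adjugate_mul, hG.det P.F g hgI, one_smul,
          Matrix.one_mulVec]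
      rw [← h1, h0, Matrix.mulVec_zero]
    have hw : (phiNum D.Φ y).mulVec u ≠ 0 := by
      rw [hnum]
      exact smul_ne_zero hδ hgu
    refine ⟨hw, ?_⟩
    obtain ⟨J, hJ1, hJ2⟩ := exists_J hRel ξ _ hw
    refine ⟨J, hJ1, ?_⟩
    rw [← mul_pow]
    refine pow_le_pow_left₀ (by positivity) ?_ _
    have htan := hD.tan P.F y u J
    set w := (phiNum D.Φ y).mulVec u with hwdef
    -- norms
    have hupos : 0 < ‖u‖ := norm_pos_iff.2 hu
    have hgupos : 0 < ‖g.mulVec u‖ := norm_pos_iff.2 hgu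
    have hwpos : 0 < ‖w‖ := norm_pos_iff.2 hw
    have hδpos : 0 < ‖aeval y D.δ‖ := norm_pos_iff.2 hδ
    have hm₁pos : 0 < ‖aeval y D.m₁‖ := norm_pos_iff.2 hm₁
    have hm₂pos : 0 < ‖aeval y D.m₂‖ := norm_pos_iff.2 hm₂
    have hwn : ‖w‖ = ‖aeval y D.δ‖ * ‖g.mulVec u‖ := by rw [hnum, norm_smul]
    have hplkw : ‖plk ξ w‖ = ‖aeval y D.δ‖ ^ (d + 1) * ‖plk ξ (g.mulVec u)‖ := by
      have h1 : plk ξ w = aeval y D.δ ^ (d + 1) • plk ξ (g.mulVec u) := by
        funext J'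
        rw [hnum, (hRel K N d ξ P.F (g.mulVec u) (J 0) J').1, Pi.smul_apply, smul_eq_mul]
      rw [h1, norm_smul, norm_pow]
    have hp1 : ‖plk ξ u‖ ≤ c₁ ξ l g * ‖plk ξ (g.mulVec u)‖ := plk_le I ξ hG l hl g hgI u
    have hp2 : ‖g.mulVec u‖ ≤ c₂ g * ‖u‖ := mulVec_le g u
    have hc1 := c₁_nonneg ξ l g
    have hc2 := c₂_nonneg g
    -- ratio of `u` against ratio of `g u`
    have hr1 : ‖plk ξ u‖ / ‖u‖ ^ (d + 1) ≤
        c₁ ξ l g * c₂ g ^ (d + 1) * (‖plk ξ w‖ / ‖w‖ ^ (d + 1)) := by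
      have hratio : ‖plk ξ w‖ / ‖w‖ ^ (d + 1) =
          ‖plk ξ (g.mulVec u)‖ / ‖g.mulVec u‖ ^ (d + 1) := by
        rw [hplkw, hwn, mul_pow, mul_div_mul_left _ _ (pow_pos hδpos _).ne']
      rw [hratio, div_le_iff₀ (pow_pos hupos _)]
      have h3 : ‖g.mulVec u‖ ^ (d + 1) ≤ c₂ g ^ (d + 1) * ‖u‖ ^ (d + 1) := by
        rw [← mul_pow]
        exact pow_le_pow_left₀ (norm_nonneg _) hp2 _
      have h4 : ‖plk ξ (g.mulVec u)‖ ≤
          ‖plk ξ (g.mulVec u)‖ / ‖g.mulVec u‖ ^ (d + 1) * (c₂ g ^ (d + 1) * ‖u‖ ^ (d + 1)) := by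
        calc ‖plk ξ (g.mulVec u)‖ =
            ‖plk ξ (g.mulVec u)‖ / ‖g.mulVec u‖ ^ (d + 1) * ‖g.mulVec u‖ ^ (d + 1) := by
              rw [div_mul_cancel₀ _ (pow_pos hgupos _).ne']
          _ ≤ _ := mul_le_mul_of_nonneg_left h3 (by positivity)
      calc ‖plk ξ u‖ ≤ c₁ ξ l g * ‖plk ξ (g.mulVec u)‖ := hp1
        _ ≤ c₁ ξ l g * (‖plk ξ (g.mulVec u)‖ / ‖g.mulVec u‖ ^ (d + 1) *
            (c₂ g ^ (d + 1) * ‖u‖ ^ (d + 1))) := mul_le_mul_of_nonneg_left h4 hc1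
        _ = _ := by ring
    have hr2 : ‖plk ξ w J‖ = ‖aeval y D.m₂‖ / ‖aeval y D.m₁‖ * ‖wdet D.Φ y u J‖ := by
      have h1 : ‖aeval y D.m₂‖ * ‖wdet D.Φ y u J‖ = ‖aeval y D.m₁‖ * ‖plk ξ w J‖ := by
        rw [← norm_mul, ← norm_mul, htan]
      field_simp
      linarith
    have hr3 : ‖plk ξ u‖ / ‖u‖ ^ (d + 1) ≤ f y * (‖wdet D.Φ y u J‖ / ‖w‖ ^ (d + 1)) := by
      calc ‖plk ξ u‖ / ‖u‖ ^ (d + 1)
          ≤ c₁ ξ l g * c₂ g ^ (d + 1) * (‖plk ξ w‖ / ‖w‖ ^ (d + 1)) := hr1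
        _ ≤ c₁ ξ l g * c₂ g ^ (d + 1) * (((d + 1 : ℝ) * ‖plk ξ w J‖) / ‖w‖ ^ (d + 1)) := by
          gcongr
        _ = f y * (‖wdet D.Φ y u J‖ / ‖w‖ ^ (d + 1)) := by
          rw [hr2]
          simp only [hf, ← hg]
          ring
    rw [one_div, inv_mul_le_iff₀ hMpos]
    refine hr3.trans ?_
    exact mul_le_mul_of_nonneg_right (le_of_lt hyf) (by positivity)
  · intro y hy y' hy' i j
    exact ht' y (hBsub hy).1.2 y' (hBsub hy').1.2 i j

end Pool.GC
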