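import Mathlib

set_option autoImplicit false

/-!
# Equivariant compactifications of linear algebraic groups: definitions

`G ⊂ SL_N` is a closed subgroup over `K`, given by polynomial equations in the matrix entries and
by its functor of points; it acts on `K^N` and on the projective space `P(K^N)`.
-/

namespace Pool.GC

open MvPolynomial

section Groups

variable {K : Type} [Field K] {N d : ℕ}

/-- The value at a matrix of a polynomial in the matrix entries. -/
noncomputable def ev {R : Type} [CommRing R] [Algebra K R]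
    (p : MvPolynomial (Fin N × Fin N) K) (g : Matrix (Fin N) (Fin N) R) : R :=
  aeval (fun ij : Fin N × Fin N => g ij.1 ij.2) p

/-- The `R`-points of the closed subscheme of the space of `N × N` matrices defined by `I`. -/
def pts (I : Set (MvPolynomial (Fin N × Fin N) K)) (R : Type) [CommRing R] [Algebra K R] :
    Set (Matrix (Fin N) (Fin N) R) :=
  {g | ∀ p ∈ I, ev p g = 0}

/-- The equations `I` define a closed subgroup scheme `G` of `SL_N`. -/
structure IsGroup (I : Set (MvPolynomial (Fin N × Fin N) K)) : Prop where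
  det : ∀ (R : Type) [CommRing R] [Algebra K R] (g : Matrix (Fin N) (Fin N) R),
    g ∈ pts I R → g.det = 1
  one : (1 : Matrix (Fin N) (Fin N) K) ∈ pts I K
  mul : ∀ (R : Type) [CommRing R] [Algebra K R] (g h : Matrix (Fin N) (Fin N) R),
    g ∈ pts I R → h ∈ pts I R → g * h ∈ pts I R
  inv : ∀ (R : Type) [CommRing R] [Algebra K R] (g : Matrix (Fin N) (Fin N) R),
    g ∈ pts I R → g.adjugate ∈ pts I R

/-- The matrices `ξ_1, …, ξ_d` form a basis of the Lie algebra of `G`, the space of the `η` with
`∑ (∂p/∂x_{ij})(1) η_{ij} = 0` for all `p ∈ I`. -/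
structure IsLieBasis (I : Set (MvPolynomial (Fin N × Fin N) K))
    (ξ : Fin d → Matrix (Fin N) (Fin N) K) : Prop where
  indep : LinearIndependent K ξ
  span : ∀ η : Matrix (Fin N) (Fin N) K,
    (∀ p ∈ I, ∑ ij : Fin N × Fin N, ev (pderiv ij p) (1 : Matrix (Fin N) (Fin N) K) *
      η ij.1 ij.2 = 0) ↔ η ∈ Submodule.span K (Set.range ξ)

/-- The field `K(y_1, …, y_d)` of rational functions. -/
abbrev RF (K : Type) [Field K] (d : ℕ) : Type := FractionRing (MvPolynomial (Fin d) K)

/-- `φ` is a generically finite dominant rational map from the affine space `A^d` to `G`. -/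
structure IsParam (I : Set (MvPolynomial (Fin N × Fin N) K))
    (φ : Matrix (Fin N) (Fin N) (RF K d)) : Prop where
  mem : φ ∈ pts I (RF K d)
  dense : ∀ p : MvPolynomial (Fin N × Fin N) K, ev p φ = 0 →
    ∀ (F : Type) [Field F] [Algebra K F] (g : Matrix (Fin N) (Fin N) F), g ∈ pts I F → ev p g = 0
  finite : ∀ x : RF K d,
    IsAlgebraic (IntermediateField.adjoin K (Set.range fun ij : Fin N × Fin N => φ ij.1 ij.2)) x

/-- The vector `g v₀`. -/
def orb {F : Type} [Field F] [Algebra K F] (v₀ : Fin N → K) (g : Matrix (Fin N) (Fin N) F) :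
    Fin N → F :=
  g.mulVec fun i => algebraMap K F (v₀ i)

/-- The line `[v₀]` has trivial stabiliser in `G`. -/
def FreeAt (I : Set (MvPolynomial (Fin N × Fin N) K)) (v₀ : Fin N → K) : Prop :=
  ∀ (F : Type) [Field F] [Algebra K F] (g : Matrix (Fin N) (Fin N) F), g ∈ pts I F →
    ∀ c : F, orb v₀ g = c • orb v₀ (1 : Matrix (Fin N) (Fin N) F) → g = 1

/-- The coordinate with index `J` of `u ∧ ξ_1 u ∧ … ∧ ξ_d u`: the determinant of the rows
`J_0, …, J_d` of the matrix with columns `u, ξ_1 u, …, ξ_d u`. -/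
def plk (ξ : Fin d → Matrix (Fin N) (Fin N) K) {F : Type} [Field F] [Algebra K F]
    (u : Fin N → F) (J : Fin (d + 1) → Fin N) : F :=
  Matrix.det (Matrix.of fun a b : Fin (d + 1) =>
    Fin.cases (motive := fun _ => F) (u (J a))
      (fun c : Fin d => ((ξ c).map (algebraMap K F)).mulVec u (J a)) b)

/-- `f` is integral over the graded algebra generated by `W` in degree one:
`f^r + a_1 f^(r-1) + … + a_r = 0` with `a_j ∈ W^j`. -/
def IntegralOver {A : Type} [CommRing A] [Algebra K A] (W : Submodule K A) (f : A) : Prop :=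
  ∃ (r : ℕ) (a : ℕ → A), 1 ≤ r ∧ (∀ j, a j ∈ W ^ j) ∧
    f ^ r + ∑ j ∈ Finset.Icc 1 r, a j * f ^ (r - j) = 0

/-- The functions `L_j` on `G` span a space stable under left translations by `G(K)`. -/
def StableFam {a : ℕ} (I : Set (MvPolynomial (Fin N × Fin N) K))
    (L : Fin a → MvPolynomial (Fin N × Fin N) K) : Prop :=
  ∀ h : Matrix (Fin N) (Fin N) K, h ∈ pts I K → ∃ C : Matrix (Fin a) (Fin a) K,
    ∀ (F : Type) [Field F] [Algebra K F] (g : Matrix (Fin N) (Fin N) F), g ∈ pts I F →
      ∀ j, ev (L j) (h.map (algebraMap K F) * g) = ∑ i, algebraMap K F (C j i) * ev (L i) g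

/-- The map `[L_1 : … : L_a]` from `G` to projective space is generically finite. -/
def BigFam {a : ℕ} (φ : Matrix (Fin N) (Fin N) (RF K d))
    (L : Fin a → MvPolynomial (Fin N × Fin N) K) : Prop :=
  ∃ j, ev (L j) φ ≠ 0 ∧ ∀ x : RF K d,
    IsAlgebraic (IntermediateField.adjoin K (Set.range fun i => ev (L i) φ / ev (L j) φ)) x

end Groups

end Pool.GC
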