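import Mathlib
import Pool.Agent.GC.Defs

set_option autoImplicit false

/-!
# Exact statements of the modules of squad GC (weak Manin for equivariant compactifications of
linear algebraic groups, MP_18ea5f_nt).  Paper proofs: /team-store/MP_18ea5f_GC_PROOF.md
-/

namespace Pool.GC

open MvPolynomial MeasureTheory NumberField Metric

/-! ## Local fields with a Haar measure -/

/-- A completion of `K`: a normed field with a Haar measure; the normalised absolute value is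
`x ↦ ‖x‖ ^ e` (`e = 2` for complex places, `e = 1` otherwise). -/
structure LF (K : Type) [Field K] where
  F : Type
  [nf : NontriviallyNormedField F]
  [alg : Algebra K F]
  [meas : MeasurableSpace F]
  [borel : BorelSpace F]
  [sec : SecondCountableTopology F]
  [complete : CompleteSpace F]
  [lc : LocallyCompactSpace F]
  e : ℕ
  μ : Measure F
  [haar : μ.IsAddHaarMeasure]

attribute [instance] LF.nf LF.alg LF.meas LF.borel LF.sec LF.complete LF.lc LF.haar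

/-- the product measure on `F^d` -/
noncomputable def LF.vol {K : Type} [Field K] (P : LF K) (d : ℕ) : Measure (Fin d → P.F) :=
  Measure.pi fun _ => P.μ

/-- the rational map `y ↦ (p_i(y)/q(y))_i` -/
noncomputable def ratMap {F : Type} [Field F] {d : ℕ} (p : Fin d → MvPolynomial (Fin d) F)
    (q : MvPolynomial (Fin d) F) (y : Fin d → F) : Fin d → F :=
  fun i => eval y (p i) / eval y q

/-- its Jacobian determinant -/
noncomputable def ratJac {F : Type} [Field F] {d : ℕ} (p : Fin d → MvPolynomial (Fin d) F)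
    (q : MvPolynomial (Fin d) F) (y : Fin d → F) : F :=
  Matrix.det (Matrix.of fun i k : Fin d =>
    (eval y (pderiv k (p i)) * eval y q - eval y (p i) * eval y (pderiv k q)) / eval y q ^ 2)

/-- Change of variables (an inequality) for rational maps with finite fibres. -/
def LF.CV {K : Type} [Field K] (P : LF K) : Prop :=
  ∀ (d : ℕ) (p : Fin d → MvPolynomial (Fin d) P.F) (q : MvPolynomial (Fin d) P.F)
    (B : Set (Fin d → P.F)), MeasurableSet B → (∀ y ∈ B, eval y q ≠ 0) →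
    ∀ (c : ℝ) (k : ℕ), 0 < c → (∀ y ∈ B, c ≤ ‖ratJac p q y‖ ^ P.e) →
    (∀ z, {y | y ∈ B ∧ ratMap p q y = z}.encard ≤ k) →
    ∃ E : Set (Fin d → P.F), MeasurableSet E ∧ E ⊆ ratMap p q '' B ∧
      ENNReal.ofReal c * P.vol d B ≤ k * P.vol d E

/-- Zero sets of polynomials are null sets. -/
def LF.Null {K : Type} [Field K] (P : LF K) : Prop :=
  ∀ (d : ℕ) (f : MvPolynomial (Fin d) P.F), f ≠ 0 → P.vol d {y | eval y f = 0} = 0

/-- Nonarchimedean local fields with residue field of cardinality `q`. -/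
def LF.IsNA {K : Type} [Field K] (P : LF K) (q : ℕ) : Prop :=
  P.e = 1 ∧ 2 ≤ q ∧ (∀ x y : P.F, ‖x + y‖ ≤ max ‖x‖ ‖y‖) ∧
  (∀ x : P.F, x ≠ 0 → ∃ n : ℤ, ‖x‖ = (q : ℝ) ^ n) ∧ (∃ π : P.F, ‖π‖ = (q : ℝ)⁻¹) ∧
  (∃ R : Finset P.F, R.card = q ∧ (∀ r ∈ R, ‖r‖ ≤ 1) ∧
    ∀ x : P.F, ‖x‖ ≤ 1 → ∃! r, r ∈ R ∧ ‖x - r‖ < 1) ∧
  P.μ (closedBall 0 1) = 1

/-- the cardinality of the residue field -/
noncomputable def qv {K : Type} [Field K] [NumberField K] (v : FinitePlace K) : ℕ :=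
  Ideal.absNorm v.maximalIdeal.asIdeal

/-- COMP: completions at finite places -/
def Stmt_Comp : Prop :=
  ∀ (K : Type) [Field K] [NumberField K] (v : FinitePlace K), ∃ P : LF K, P.IsNA (qv v) ∧
    ∀ x : K, ‖algebraMap K P.F x‖ = v x

/-- SCALE: linear maps scale the measure by the absolute value of the determinant -/
def Stmt_Scale : Prop :=
  ∀ (K : Type) [Field K] (P : LF K) (q : ℕ), P.IsNA q → ∀ (d : ℕ)
    (A : Matrix (Fin d) (Fin d) P.F), A.det ≠ 0 → ∀ S : Set (Fin d → P.F),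
    P.vol d (A.mulVec '' S) = ENNReal.ofReal ‖A.det‖ * P.vol d S

/-- CVNA: change of variables, nonarchimedean case (uses SCALE) -/
def Stmt_CVna : Prop := ∀ (K : Type) [Field K] (P : LF K) (q : ℕ), P.IsNA q → P.CV

/-- SZ: the set of integral points where a polynomial is not a unit (Schwartz-Zippel) -/
def Stmt_SZ : Prop :=
  ∀ (K : Type) [Field K] (P : LF K) (q : ℕ), P.IsNA q → ∀ (d : ℕ)
    (c : MvPolynomial (Fin d) P.F), (∀ s, ‖coeff s c‖ ≤ 1) → (∃ s, ‖coeff s c‖ = 1) →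
    P.vol d (closedBall 0 1) = 1 ∧
    P.vol d {z | z ∈ closedBall (0 : Fin d → P.F) 1 ∧ ‖eval z c‖ < 1} ≤
      ENNReal.ofReal (c.totalDegree / q)

/-- NULL: zero sets of polynomials are null sets -/
def Stmt_Null : Prop := ∀ (K : Type) [Field K] (P : LF K), P.Null

/-- the real local field attached to an embedding -/
noncomputable def LF.ofReal {K : Type} [Field K] (σ : K →+* ℝ) : LF K :=
  letI := σ.toAlgebra
  { F := ℝ, e := 1, μ := volume }

/-- the complex local field attached to an embedding -/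
noncomputable def LF.ofComplex {K : Type} [Field K] (σ : K →+* ℂ) : LF K :=
  letI := σ.toAlgebra
  { F := ℂ, e := 2, μ := volume }

/-- CVR: change of variables, real case -/
def Stmt_CVR : Prop := ∀ (K : Type) [Field K] (σ : K →+* ℝ), (LF.ofReal σ).CV

/-- CVC: change of variables, complex case -/
def Stmt_CVC : Prop := ∀ (K : Type) [Field K] (σ : K →+* ℂ), (LF.ofComplex σ).CV

/-- INF: infinite places (uses CVR, CVC) -/
def Stmt_Inf : Prop :=
  ∀ (K : Type) [Field K] [NumberField K] (w : InfinitePlace K), ∃ P : LF K, P.e = w.mult ∧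
    P.CV ∧ ∀ x : K, ‖algebraMap K P.F x‖ = w x

/-! ## Algebra of rational functions -/

/-- DER: the derivations `∂/∂y_k` of `K(y)` -/
def Stmt_Der : Prop :=
  ∀ (K : Type) [Field K] (d : ℕ), ∃ D : Fin d → Derivation K (RF K d) (RF K d),
    ∀ k (p : MvPolynomial (Fin d) K), D k (algebraMap _ (RF K d) p) =
      algebraMap _ (RF K d) (pderiv k p)

/-- DALG: a derivation vanishing on `S` vanishes on the elements algebraic over `K(S)` -/
def Stmt_Dalg : Prop :=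
  ∀ (K : Type) [Field K] [CharZero K] (E : Type) [Field E] [Algebra K E] (D : Derivation K E E)
    (S : Set E), (∀ s ∈ S, D s = 0) → ∀ x : E, IsAlgebraic (IntermediateField.adjoin K S) x →
    D x = 0

/-- JIND: nonzero Jacobian implies a transcendence basis -/
def Stmt_JInd : Prop :=
  ∀ (K : Type) [Field K] [CharZero K] (d : ℕ) (D : Fin d → Derivation K (RF K d) (RF K d)),
    (∀ k (p : MvPolynomial (Fin d) K), D k (algebraMap _ (RF K d) p) =
      algebraMap _ (RF K d) (pderiv k p)) →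
    ∀ f : Fin d → RF K d, Matrix.det (Matrix.of fun i k => D k (f i)) ≠ 0 →
      AlgebraicIndependent K f ∧ ∀ x : RF K d,
        IsAlgebraic (IntermediateField.adjoin K (Set.range f)) x

/-! ## The group -/

section

variable {K : Type} [Field K] {N d : ℕ}

/-- the matrix `φ(y) = Φ(y)/δ(y)` -/
noncomputable def phiAt (Φ : Matrix (Fin N) (Fin N) (MvPolynomial (Fin d) K))
    (δ : MvPolynomial (Fin d) K) {F : Type} [Field F] [Algebra K F] (y : Fin d → F) :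
    Matrix (Fin N) (Fin N) F :=
  Matrix.of fun i j => aeval y (Φ i j) / aeval y δ

/-- the matrix `Φ(y)` -/
noncomputable def phiNum (Φ : Matrix (Fin N) (Fin N) (MvPolynomial (Fin d) K))
    {F : Type} [Field F] [Algebra K F] (y : Fin d → F) : Matrix (Fin N) (Fin N) F :=
  Matrix.of fun i j => aeval y (Φ i j)

/-- the determinant of the rows `J` of the matrix with columns `Φ(y) u, (∂_k Φ)(y) u` -/
noncomputable def wdet (Φ : Matrix (Fin N) (Fin N) (MvPolynomial (Fin d) K))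
    {F : Type} [Field F] [Algebra K F] (y : Fin d → F) (u : Fin N → F)
    (J : Fin (d + 1) → Fin N) : F :=
  Matrix.det (Matrix.of fun a b : Fin (d + 1) =>
    Fin.cases (motive := fun _ => F) ((phiNum Φ y).mulVec u (J a))
      (fun k : Fin d => (Matrix.of fun i j => aeval y (pderiv k (Φ i j)) :
        Matrix (Fin N) (Fin N) F).mulVec u (J a)) b)

/-- the affine coordinates `u_{J_i}/u_{J_0}` -/
def zc {F : Type} [Field F] (J : Fin (d + 1) → Fin N) (u : Fin N → F) : Fin d → F :=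
  fun i => u (J i.succ) / u (J 0)

end

/-- polynomials describing the parametrisation -/
structure GeoData (K : Type) [Field K] (N d : ℕ) where
  Φ : Matrix (Fin N) (Fin N) (MvPolynomial (Fin d) K)
  δ : MvPolynomial (Fin d) K
  Δ : MvPolynomial (Fin d) K
  m₁ : MvPolynomial (Fin d) K
  m₂ : MvPolynomial (Fin d) K
  kφ : ℕ

/-- properties of these polynomials -/
structure IsGeo {K : Type} [Field K] {N d : ℕ} (I : Set (MvPolynomial (Fin N × Fin N) K))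
    (ξ : Fin d → Matrix (Fin N) (Fin N) K) (φ : Matrix (Fin N) (Fin N) (RF K d))
    (D : GeoData K N d) : Prop where
  ne : D.Δ ≠ 0
  dvd : D.δ ∣ D.Δ
  dvd₁ : D.m₁ ∣ D.Δ
  dvd₂ : D.m₂ ∣ D.Δ
  eq : ∀ i j, φ i j = algebraMap _ (RF K d) (D.Φ i j) / algebraMap _ (RF K d) D.δ
  mem : ∀ (F : Type) [Field F] [Algebra K F] (y : Fin d → F), aeval y D.Δ ≠ 0 →
    phiAt D.Φ D.δ y ∈ pts I F
  fib : ∀ (F : Type) [Field F] [Algebra K F] (g : Matrix (Fin N) (Fin N) F),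
    {y : Fin d → F | aeval y D.Δ ≠ 0 ∧ phiAt D.Φ D.δ y = g}.encard ≤ D.kφ
  tan : ∀ (F : Type) [Field F] [Algebra K F] (y : Fin d → F) (u : Fin N → F)
    (J : Fin (d + 1) → Fin N),
    aeval y D.m₂ * wdet D.Φ y u J = aeval y D.m₁ * plk ξ ((phiNum D.Φ y).mulVec u) J

/-- LIEF: the tangent space over larger fields, conjugation -/
def Stmt_LieF : Prop :=
  ∀ (K : Type) [Field K] (N d : ℕ) (I : Set (MvPolynomial (Fin N × Fin N) K))
    (ξ : Fin d → Matrix (Fin N) (Fin N) K), IsGroup I → IsLieBasis I ξ →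
    ∀ (F : Type) [Field F] [Algebra K F],
    (∀ η : Matrix (Fin N) (Fin N) F,
      (∀ p ∈ I, ∑ ij : Fin N × Fin N, ev (pderiv ij p) (1 : Matrix (Fin N) (Fin N) F) *
        η ij.1 ij.2 = 0) → ∃ c : Fin d → F, η = ∑ b, c b • (ξ b).map (algebraMap K F)) ∧
    (∀ g θ : Matrix (Fin N) (Fin N) F, g ∈ pts I F →
      (∀ p ∈ I, ∑ ij : Fin N × Fin N, ev (pderiv ij p) g * θ ij.1 ij.2 = 0) →
      ∃ c : Fin d → F, θ * g.adjugate = ∑ b, c b • (ξ b).map (algebraMap K F)) ∧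
    ∀ g : Matrix (Fin N) (Fin N) F, g ∈ pts I F → ∀ c : Fin d, ∃ a : Fin d → F,
      g.adjugate * (ξ c).map (algebraMap K F) * g = ∑ b, a b • (ξ b).map (algebraMap K F)

/-- GEO: existence of the polynomials (uses DER, DALG, LIEF) -/
def Stmt_Geo : Prop :=
  ∀ (K : Type) [Field K] [CharZero K] (N d : ℕ) (I : Set (MvPolynomial (Fin N × Fin N) K))
    (ξ : Fin d → Matrix (Fin N) (Fin N) K) (φ : Matrix (Fin N) (Fin N) (RF K d)),
    IsGroup I → IsLieBasis I ξ → IsParam I φ → ∃ D : GeoData K N d, IsGeo I ξ φ D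

/-- REL: algebraic relations over the affine coordinates with index `J` (uses DER, JIND, GEO) -/
def Stmt_Rel : Prop :=
  ∀ (K : Type) [Field K] [CharZero K] (N d : ℕ) (I : Set (MvPolynomial (Fin N × Fin N) K))
    (ξ : Fin d → Matrix (Fin N) (Fin N) K) (φ : Matrix (Fin N) (Fin N) (RF K d))
    (v₀ : Fin N → K), IsGroup I → IsLieBasis I ξ → IsParam I φ → ∀ J : Fin (d + 1) → Fin N,
    (∀ (F : Type) [Field F] [Algebra K F] (g : Matrix (Fin N) (Fin N) F), g ∈ pts I F →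
      orb v₀ g (J 0) * plk ξ (orb v₀ g) J = 0) ∨
    ∃ (Λ : MvPolynomial (Fin N × Fin N) K) (D : ℕ) (c : MvPolynomial (Fin d) K) (𝒞 : Finset K),
      ev Λ φ ≠ 0 ∧ c ≠ 0 ∧
      (∀ (F : Type) [Field F] [Algebra K F] (g : Matrix (Fin N) (Fin N) F), g ∈ pts I F →
        ev Λ g ≠ 0 → orb v₀ g (J 0) ≠ 0) ∧
      (∀ (F : Type) [Field F] [Algebra K F] (z : Fin d → F),
        {x : Fin N → F | ∃ g ∈ pts I F, ev Λ g ≠ 0 ∧ x = (orb v₀ g (J 0))⁻¹ • orb v₀ g ∧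
          zc J (orb v₀ g) = z}.encard ≤ D) ∧
      ∀ (F : Type) [NormedField F] [Algebra K F], (∀ x y : F, ‖x + y‖ ≤ max ‖x‖ ‖y‖) →
        (∀ κ ∈ 𝒞, ‖algebraMap K F κ‖ ≤ 1) → ∀ g : Matrix (Fin N) (Fin N) F, g ∈ pts I F →
        orb v₀ g (J 0) ≠ 0 → (∀ i, ‖zc J (orb v₀ g) i‖ ≤ 1) → (∃ i j, 1 < ‖g i j‖) →
        ‖aeval (zc J (orb v₀ g)) c‖ < 1

/-- NUM: a function on `G` along the translates of the parametrisation -/
def Stmt_Num : Prop :=
  ∀ (K : Type) [Field K] (N d : ℕ) (I : Set (MvPolynomial (Fin N × Fin N) K))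
    (ξ : Fin d → Matrix (Fin N) (Fin N) K) (φ : Matrix (Fin N) (Fin N) (RF K d))
    (D : GeoData K N d), IsGroup I → IsParam I φ → IsGeo I ξ φ D →
    ∀ Λ : MvPolynomial (Fin N × Fin N) K, ev Λ φ ≠ 0 →
    ∀ γ : Matrix (Fin N) (Fin N) K, γ ∈ pts I K → ∃ n : MvPolynomial (Fin d) K, n ≠ 0 ∧
      ∀ (F : Type) [Field F] [Algebra K F] (y : Fin d → F), aeval y D.Δ ≠ 0 → aeval y n ≠ 0 →
        ev Λ (phiAt D.Φ D.δ y * γ.map (algebraMap K F)) ≠ 0

/-- PACT: action of `G` on the Plücker coordinates (uses LIEF) -/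
def Stmt_PAct : Prop :=
  ∀ (K : Type) [Field K] (N d : ℕ) (I : Set (MvPolynomial (Fin N × Fin N) K))
    (ξ : Fin d → Matrix (Fin N) (Fin N) K), IsGroup I → IsLieBasis I ξ →
    ∃ l : Fin d → Fin N × Fin N → K,
    ∀ (F : Type) [Field F] [Algebra K F] (g : Matrix (Fin N) (Fin N) F), g ∈ pts I F →
      ∀ (u : Fin N → F) (J : Fin (d + 1) → Fin N),
      plk ξ (g.mulVec u) J =
        Matrix.det (Matrix.of fun b c : Fin d => ∑ ij : Fin N × Fin N, algebraMap K F (l b ij) *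
          (g.adjugate * (ξ c).map (algebraMap K F) * g) ij.1 ij.2) *
        ∑ J' : Fin (d + 1) → Fin N, (∏ a, g (J a) (J' a)) * plk ξ u J'

/-- PREL: the Plücker relation for the vector `u` -/
def Stmt_PRel : Prop :=
  ∀ (K : Type) [Field K] (N d : ℕ) (ξ : Fin d → Matrix (Fin N) (Fin N) K)
    (F : Type) [Field F] [Algebra K F] (u : Fin N → F) (j₀ : Fin N) (J : Fin (d + 1) → Fin N),
    (∀ c : F, plk ξ (c • u) J = c ^ (d + 1) * plk ξ u J) ∧
    u j₀ * plk ξ u J = ∑ i : Fin (d + 1), (-1) ^ (i : ℕ) * (u (J i) *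
      plk ξ u (Fin.cons (α := fun _ => Fin N) j₀ fun a : Fin d => J (i.succAbove a)))

/-- JID: the Jacobian of the affine coordinates -/
def Stmt_JId : Prop :=
  ∀ (F : Type) [Field F] (d : ℕ) (M : Matrix (Fin (d + 1)) (Fin (d + 1)) F), M 0 0 ≠ 0 →
    Matrix.det (Matrix.of fun i k : Fin d =>
      (M i.succ k.succ * M 0 0 - M i.succ 0 * M 0 k.succ) / M 0 0 ^ 2) =
    M.det / M 0 0 ^ (d + 1)

/-! ## Local estimates -/

/-- LOC: a large set of affine coordinates (uses JID) -/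
def Stmt_Loc : Prop :=
  ∀ (K : Type) [Field K] (P : LF K), P.CV → P.Null → ∀ (N d : ℕ)
    (Φ : Matrix (Fin N) (Fin N) (MvPolynomial (Fin d) K)) (u : Fin N → P.F)
    (B : Set (Fin d → P.F)), MeasurableSet B → P.vol d B ≠ 0 → ∀ (c : ℝ), 0 < c → ∀ (k : ℕ)
    (n : (Fin (d + 1) → Fin N) → MvPolynomial (Fin d) K),
    (∀ y ∈ B, (phiNum Φ y).mulVec u ≠ 0 ∧ ∃ J, n J ≠ 0 ∧
      ‖(phiNum Φ y).mulVec u (J 0)‖ = ‖(phiNum Φ y).mulVec u‖ ∧
      c ≤ (‖wdet Φ y u J‖ / ‖(phiNum Φ y).mulVec u‖ ^ (d + 1)) ^ P.e) →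
    (∀ J z, {y | y ∈ B ∧ aeval y (n J) ≠ 0 ∧ (phiNum Φ y).mulVec u (J 0) ≠ 0 ∧
      zc J ((phiNum Φ y).mulVec u) = z}.encard ≤ k) →
    ∃ (J : Fin (d + 1) → Fin N) (E : Set (Fin d → P.F)), n J ≠ 0 ∧ MeasurableSet E ∧
      (∀ z ∈ E, ∃ y ∈ B, aeval y (n J) ≠ 0 ∧
        ‖(phiNum Φ y).mulVec u (J 0)‖ = ‖(phiNum Φ y).mulVec u‖ ∧
        zc J ((phiNum Φ y).mulVec u) = z) ∧
      ENNReal.ofReal c * P.vol d B ≤ ((N ^ (d + 1) * k : ℕ) : ENNReal) * P.vol d E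

/-- comparison of the parametrisation with the Plücker coordinates -/
def CMP {K : Type} [Field K] {N d : ℕ} (ξ : Fin d → Matrix (Fin N) (Fin N) K)
    (D : GeoData K N d) (P : LF K) (B : Set (Fin d → P.F)) (c₀ : ℝ) : Prop :=
  ∀ y ∈ B, aeval y D.Δ ≠ 0 ∧ ∀ u : Fin N → P.F, u ≠ 0 → (phiNum D.Φ y).mulVec u ≠ 0 ∧
    ∃ J : Fin (d + 1) → Fin N,
      ‖(phiNum D.Φ y).mulVec u (J 0)‖ = ‖(phiNum D.Φ y).mulVec u‖ ∧
      c₀ * (‖plk ξ u‖ / ‖u‖ ^ (d + 1)) ^ P.e ≤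
        (‖wdet D.Φ y u J‖ / ‖(phiNum D.Φ y).mulVec u‖ ^ (d + 1)) ^ P.e

/-- CMPB: comparison near a point, at any place (uses PACT, PREL) -/
def Stmt_CmpB : Prop :=
  ∀ (K : Type) [Field K] [Infinite K] (N d : ℕ) (I : Set (MvPolynomial (Fin N × Fin N) K))
    (ξ : Fin d → Matrix (Fin N) (Fin N) K) (φ : Matrix (Fin N) (Fin N) (RF K d))
    (D : GeoData K N d), IsGroup I → IsLieBasis I ξ → IsGeo I ξ φ D → ∀ P : LF K,
    ∃ (B : Set (Fin d → P.F)) (c₀ : ℝ), MeasurableSet B ∧ 0 < c₀ ∧ P.vol d B ≠ 0 ∧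
      P.vol d B ≠ ⊤ ∧ CMP ξ D P B c₀ ∧ ∀ y ∈ B, ∀ y' ∈ B, ∀ i j,
      ‖((phiAt D.Φ D.δ y').adjugate * phiAt D.Φ D.δ y - 1) i j‖ < 1

/-- the set of parameters used at the good places -/
def goodB {K : Type} [Field K] {N d : ℕ} (D : GeoData K N d) (P : LF K) : Set (Fin d → P.F) :=
  {y | y ∈ closedBall (0 : Fin d → P.F) 1 ∧ ‖aeval y D.Δ‖ = 1}

/-- CMPG: comparison at almost all places (uses PACT, PREL, SZ) -/
def Stmt_CmpG : Prop :=
  ∀ (K : Type) [Field K] [NumberField K] (N d : ℕ) (I : Set (MvPolynomial (Fin N × Fin N) K))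
    (ξ : Fin d → Matrix (Fin N) (Fin N) K) (φ : Matrix (Fin N) (Fin N) (RF K d))
    (D : GeoData K N d), IsGroup I → IsLieBasis I ξ → IsGeo I ξ φ D →
    ∃ S₀ : Finset (FinitePlace K), ∀ v ∉ S₀, ∀ P : LF K, P.IsNA (qv v) →
      (∀ x : K, ‖algebraMap K P.F x‖ = v x) →
      MeasurableSet (goodB D P) ∧ ENNReal.ofReal (1 / 2) ≤ P.vol d (goodB D P) ∧
      CMP ξ D P (goodB D P) 1 ∧ ∀ y ∈ goodB D P, ∀ i j, ‖phiAt D.Φ D.δ y i j‖ ≤ 1

/-- INTG: at almost all places nothing happens for integral elements (uses PACT) -/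
def Stmt_IntG : Prop :=
  ∀ (K : Type) [Field K] [NumberField K] (N d : ℕ) (I : Set (MvPolynomial (Fin N × Fin N) K))
    (ξ : Fin d → Matrix (Fin N) (Fin N) K) (v₀ : Fin N → K), IsGroup I → IsLieBasis I ξ →
    plk ξ (fun i => v₀ i) ≠ 0 →
    ∃ S₀ : Finset (FinitePlace K), ∀ v ∉ S₀, ∀ γ : Matrix (Fin N) (Fin N) K, γ ∈ pts I K →
      (∀ i j, v (γ i j) ≤ 1) → (⨆ i, v (orb v₀ γ i)) = 1 ∧ (⨆ J, v (plk ξ (orb v₀ γ) J)) = 1

/-! ## Packing -/

/-- PACKM: the packing inequality -/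
def Stmt_PackM : Prop :=
  ∀ (ι : Type) [Fintype ι] (α : ι → Type) [∀ i, MeasurableSpace (α i)]
    (μ : ∀ i, Measure (α i)) [∀ i, SigmaFinite (μ i)] (𝒥 : Type) [Fintype 𝒥] (Γ : Type)
    (𝒢 : Finset Γ) (J : Γ → ι → 𝒥) (E : Γ → ∀ i, Set (α i)) (R : ∀ i, 𝒥 → Set (α i))
    (ρ : ι → ℝ) (M : ℕ), (∀ γ i, MeasurableSet (E γ i)) → (∀ i j, MeasurableSet (R i j)) →
    (∀ i, 0 ≤ ρ i) → (∀ i j, μ i (R i j) ≤ ENNReal.ofReal (ρ i)) →
    (∀ γ ∈ 𝒢, ∀ i, E γ i ⊆ R i (J γ i)) →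
    (∀ (j : ι → 𝒥) (z : ∀ i, α i), {γ | γ ∈ 𝒢 ∧ J γ = j ∧ ∀ i, z i ∈ E γ i}.encard ≤ M) →
    ∑ γ ∈ 𝒢, ∏ i, (μ i (E γ i)).toReal ≤
      (Fintype.card 𝒥 : ℝ) ^ Fintype.card ι * M * ∏ i, ρ i

/-- PACK: counting the elements of `G(K)` with given bad places -/
def Stmt_Pack : Prop :=
  ∀ (K : Type) [Field K] [NumberField K] (N d : ℕ) (I : Set (MvPolynomial (Fin N × Fin N) K))
    (ξ : Fin d → Matrix (Fin N) (Fin N) K) (φ : Matrix (Fin N) (Fin N) (RF K d))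
    (v₀ : Fin N → K), IsGroup I → IsLieBasis I ξ → IsParam I φ → FreeAt I v₀ →
    plk ξ (fun i => v₀ i) ≠ 0 →
    ∃ (S₀ : Finset (FinitePlace K)) (C : ℝ), 1 ≤ C ∧ ∀ S : Finset (FinitePlace K),
      Disjoint S S₀ → ∀ (𝒢 : Finset (Matrix (Fin N) (Fin N) K)) (τ : ℝ), 0 < τ →
      (∀ γ ∈ 𝒢, γ ∈ pts I K ∧ (∀ v ∉ S₀, v ∈ S ↔ ∃ i j, 1 < v (γ i j)) ∧
        τ ≤ Height.mulHeight (plk ξ (orb v₀ γ)) / Height.mulHeight (orb v₀ γ) ^ (d + 1)) →
      (𝒢.card : ℝ) * τ ≤ C ^ (S.card + 1) * ∏ v ∈ S, ((qv v : ℝ))⁻¹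

/-- SUM: sum over the sets of bad places -/
def Stmt_Sum : Prop :=
  ∀ (K : Type) [Field K] [NumberField K] (C : ℝ), 1 ≤ C → ∃ (C' : ℝ) (k : ℕ), 1 ≤ C' ∧
    ∀ X : ℝ, 1 ≤ X → ∀ 𝒮 : Finset (Finset (FinitePlace K)),
      (∀ S ∈ 𝒮, ∏ v ∈ S, (qv v : ℝ) ≤ X) →
      ∑ S ∈ 𝒮, C ^ S.card * ∏ v ∈ S, ((qv v : ℝ))⁻¹ ≤ C' * (1 + Real.log X) ^ k

/-- the matrix entries together with `1` -/
def ent {K : Type} [Field K] {N : ℕ} (γ : Matrix (Fin N) (Fin N) K) :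
    Option (Fin N × Fin N) → K :=
  fun o => o.elim 1 fun ij => γ ij.1 ij.2

/-- QV: denominators and the height -/
def Stmt_Qv : Prop :=
  ∀ (K : Type) [Field K] [NumberField K] (N : ℕ) (γ : Matrix (Fin N) (Fin N) K)
    (S : Finset (FinitePlace K)), (∀ v ∈ S, ∃ i j, 1 < v (γ i j)) →
    ∏ v ∈ S, (qv v : ℝ) ≤ Height.mulHeight (ent γ)

/-- HT: the height of `γ` is bounded by the height for a big family -/
def Stmt_Ht : Prop :=
  ∀ (K : Type) [Field K] [NumberField K] (N d a : ℕ) (I : Set (MvPolynomial (Fin N × Fin N) K))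
    (φ : Matrix (Fin N) (Fin N) (RF K d)) (L : Fin a → MvPolynomial (Fin N × Fin N) K),
    IsParam I φ → BigFam φ L → ∃ (Λ : MvPolynomial (Fin N × Fin N) K) (C : ℝ) (e : ℕ),
      ev Λ φ ≠ 0 ∧ 1 ≤ C ∧ ∀ γ : Matrix (Fin N) (Fin N) K, γ ∈ pts I K → ev Λ γ ≠ 0 →
      Height.mulHeight (ent γ) ≤ C * Height.mulHeight (fun j => ev (L j) γ) ^ e

/-- EFF: the effectivity condition gives an inequality between heights -/
def Stmt_Eff : Prop :=
  ∀ (K : Type) [Field K] [NumberField K] (N d a : ℕ) (I : Set (MvPolynomial (Fin N × Fin N) K))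
    (ξ : Fin d → Matrix (Fin N) (Fin N) K) (φ : Matrix (Fin N) (Fin N) (RF K d))
    (v₀ : Fin N → K) (L : Fin a → MvPolynomial (Fin N × Fin N) K)
    (Q : MvPolynomial (Fin N × Fin N) K) (m k : ℕ), IsParam I φ → v₀ ≠ 0 → IsGroup I →
    (∀ i, IntegralOver
      (Submodule.span K (Set.range (plk ξ (orb v₀ φ))) ^ m *
        Submodule.span K (Set.range fun j => ev (L j) φ) ^ k)
      (ev Q φ * orb v₀ φ i ^ (m * (d + 1)))) →
    ∃ C : ℝ, 1 ≤ C ∧ ∀ γ : Matrix (Fin N) (Fin N) K, γ ∈ pts I K → ev Q γ ≠ 0 →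
      Height.mulHeight (orb v₀ γ) ^ (m * (d + 1)) ≤
        C * Height.mulHeight (plk ξ (orb v₀ γ)) ^ m *
          Height.mulHeight (fun j => ev (L j) γ) ^ k

/-- TRANS: translates of a function have no common zero; heights of translates -/
def Stmt_Trans : Prop :=
  ∀ (K : Type) [Field K] [NumberField K] (N d a : ℕ) (I : Set (MvPolynomial (Fin N × Fin N) K))
    (φ : Matrix (Fin N) (Fin N) (RF K d)) (L : Fin a → MvPolynomial (Fin N × Fin N) K),
    IsGroup I → IsParam I φ →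
    (∀ Λ : MvPolynomial (Fin N × Fin N) K, ev Λ φ ≠ 0 →
      ∃ ℋ : Finset (Matrix (Fin N) (Fin N) K), (∀ h ∈ ℋ, h ∈ pts I K) ∧
        ∀ γ : Matrix (Fin N) (Fin N) K, γ ∈ pts I K → ∃ h ∈ ℋ, ev Λ (h * γ) ≠ 0) ∧
    (StableFam I L → ∀ h : Matrix (Fin N) (Fin N) K, h ∈ pts I K → ∃ C : ℝ, 1 ≤ C ∧
      ∀ γ : Matrix (Fin N) (Fin N) K, γ ∈ pts I K →
        Height.mulHeight (fun j => ev (L j) (h * γ)) ≤
          C * Height.mulHeight (fun j => ev (L j) γ))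

/-! ## The theorem -/

/-- MAIN: weak Manin for equivariant compactifications of linear algebraic groups -/
def Stmt_Main : Prop :=
  ∀ (K : Type) [Field K] [NumberField K] (N d a : ℕ) (I : Set (MvPolynomial (Fin N × Fin N) K))
    (ξ : Fin d → Matrix (Fin N) (Fin N) K) (φ : Matrix (Fin N) (Fin N) (RF K d))
    (v₀ : Fin N → K) (L : Fin a → MvPolynomial (Fin N × Fin N) K)
    (Q : MvPolynomial (Fin N × Fin N) K) (m k : ℕ),
    IsGroup I → IsLieBasis I ξ → IsParam I φ → v₀ ≠ 0 → FreeAt I v₀ →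
    StableFam I L → BigFam φ L → 0 < m → ev Q φ ≠ 0 →
    (∀ i, IntegralOver
      (Submodule.span K (Set.range (plk ξ (orb v₀ φ))) ^ m *
        Submodule.span K (Set.range fun j => ev (L j) φ) ^ k)
      (ev Q φ * orb v₀ φ i ^ (m * (d + 1)))) →
    ∃ (C : ℝ) (e : ℕ), ∀ T : ℝ, 1 ≤ T →
      {γ | γ ∈ pts I K ∧ Height.mulHeight (fun j => ev (L j) γ) ≤ T}.Finite ∧
      ({γ | γ ∈ pts I K ∧ Height.mulHeight (fun j => ev (L j) γ) ≤ T}.ncard : ℝ) ≤
        C * T ^ ((k : ℝ) / (m : ℝ)) * (1 + Real.log T) ^ e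

end Pool.GC
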