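import Mathlib
import Pool.Agent.GC.Stmts

set_option autoImplicit false

/-!
# Module CMPG of squad GC: comparison at almost all places
-/

namespace Pool.GC

open MvPolynomial MeasureTheory NumberField Metric

namespace CmpGX

/-- the closed unit ball as a subring -/
def oring {F : Type} [NontriviallyNormedField F] (h : ∀ x y : F, ‖x + y‖ ≤ max ‖x‖ ‖y‖) :
    Subring F where
  carrier := {x | ‖x‖ ≤ 1}
  zero_mem' := by simp
  one_mem' := by simp
  add_mem' := fun {a b} ha hb => (h a b).trans (max_le ha hb)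
  neg_mem' := fun {a} ha => by
    change ‖-a‖ ≤ 1
    rw [norm_neg]
    exact ha
  mul_mem' := fun {a b} ha hb => by
    change ‖a * b‖ ≤ 1
    rw [norm_mul]
    exact mul_le_one₀ ha (norm_nonneg _) hb

lemma mem_oring {F : Type} [NontriviallyNormedField F] (h : ∀ x y : F, ‖x + y‖ ≤ max ‖x‖ ‖y‖)
    (x : F) : x ∈ oring h ↔ ‖x‖ ≤ 1 := Iff.rfl

section

variable {K : Type} [Field K] {F : Type} [NontriviallyNormedField F] [Algebra K F]

/-- all coefficients are integral -/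
def IntCoe (F : Type) [NontriviallyNormedField F] [Algebra K F] {σ : Type}
    (p : MvPolynomial σ K) : Prop :=
  ∀ s, ‖algebraMap K F (coeff s p)‖ ≤ 1

lemma aeval_mem (h : ∀ x y : F, ‖x + y‖ ≤ max ‖x‖ ‖y‖) {σ : Type} (p : MvPolynomial σ K)
    (hp : IntCoe F p) (y : σ → F) (hy : ∀ i, ‖y i‖ ≤ 1) : ‖aeval y p‖ ≤ 1 := by
  rw [← mem_oring h]
  rw [MvPolynomial.aeval_def, MvPolynomial.eval₂_eq]
  refine Subring.sum_mem _ fun s _ => Subring.mul_mem _ (hp s) ?_
  exact Subring.prod_mem _ fun i _ => Subring.pow_mem _ (hy i) _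

lemma det_mem (h : ∀ x y : F, ‖x + y‖ ≤ max ‖x‖ ‖y‖) {n : Type} [Fintype n] [DecidableEq n]
    (M : Matrix n n F) (hM : ∀ i j, ‖M i j‖ ≤ 1) : ‖M.det‖ ≤ 1 := by
  rw [← mem_oring h, Matrix.det_apply']
  refine Subring.sum_mem _ fun s _ => Subring.mul_mem _ ?_ (Subring.prod_mem _ fun i _ => hM _ _)
  exact intCast_mem _ _

lemma adj_mem (h : ∀ x y : F, ‖x + y‖ ≤ max ‖x‖ ‖y‖) {n : Type} [Fintype n] [DecidableEq n]
    (M : Matrix n n F) (hM : ∀ i j, ‖M i j‖ ≤ 1) (i j : n) : ‖M.adjugate i j‖ ≤ 1 := by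
  rw [Matrix.adjugate_apply]
  apply det_mem h
  intro a b
  rw [Matrix.updateRow_apply]
  split_ifs
  · by_cases hb : b = i
    · subst hb; simp
    · simp [hb]
  · exact hM _ _

lemma mul_mem' (h : ∀ x y : F, ‖x + y‖ ≤ max ‖x‖ ‖y‖) {n : Type} [Fintype n]
    (M M' : Matrix n n F) (hM : ∀ i j, ‖M i j‖ ≤ 1) (hM' : ∀ i j, ‖M' i j‖ ≤ 1) (i j : n) :
    ‖(M * M') i j‖ ≤ 1 := by
  rw [← mem_oring h, Matrix.mul_apply]
  exact Subring.sum_mem _ fun s _ => Subring.mul_mem _ (hM _ _) (hM' _ _)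

/-- ultrametric bound for sums -/
lemma sum_le (h : ∀ x y : F, ‖x + y‖ ≤ max ‖x‖ ‖y‖) {ι : Type} (s : Finset ι) (f : ι → F)
    (C : ℝ) (hC : 0 ≤ C) (hf : ∀ i ∈ s, ‖f i‖ ≤ C) : ‖∑ i ∈ s, f i‖ ≤ C := by
  classical
  induction s using Finset.induction_on with
  | empty => simpa using hC
  | insert a s ha ih =>
    rw [Finset.sum_insert ha]
    refine (h _ _).trans (max_le (hf _ (by simp)) (ih fun i hi => hf i (by simp [hi])))

lemma mulVec_le (h : ∀ x y : F, ‖x + y‖ ≤ max ‖x‖ ‖y‖) {n : Type} [Fintype n]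
    (M : Matrix n n F) (hM : ∀ i j, ‖M i j‖ ≤ 1) (u : n → F) : ‖M.mulVec u‖ ≤ ‖u‖ := by
  refine (pi_norm_le_iff_of_nonneg (norm_nonneg _)).2 fun i => ?_
  rw [Matrix.mulVec, dotProduct]
  refine sum_le h _ _ _ (norm_nonneg _) fun j _ => ?_
  rw [norm_mul]
  calc ‖M i j‖ * ‖u j‖ ≤ 1 * ‖u‖ := mul_le_mul (hM _ _) (norm_le_pi_norm u j) (norm_nonneg _)
        zero_le_one
    _ = ‖u‖ := one_mul _

/-- the action of an integral matrix decreases the norm of the Plücker vector -/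
lemma plk_le (h : ∀ x y : F, ‖x + y‖ ≤ max ‖x‖ ‖y‖) {N d : ℕ}
    (ξ : Fin d → Matrix (Fin N) (Fin N) K) (l : Fin d → Fin N × Fin N → K)
    (hξ : ∀ c i j, ‖algebraMap K F (ξ c i j)‖ ≤ 1) (hl : ∀ b ij, ‖algebraMap K F (l b ij)‖ ≤ 1)
    (g : Matrix (Fin N) (Fin N) F) (hg : ∀ i j, ‖g i j‖ ≤ 1)
    (hP : ∀ (u : Fin N → F) (J : Fin (d + 1) → Fin N),
      plk ξ (g.mulVec u) J =
        Matrix.det (Matrix.of fun b c : Fin d => ∑ ij : Fin N × Fin N, algebraMap K F (l b ij) *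
          (g.adjugate * (ξ c).map (algebraMap K F) * g) ij.1 ij.2) *
        ∑ J' : Fin (d + 1) → Fin N, (∏ a, g (J a) (J' a)) * plk ξ u J') (u : Fin N → F) :
    ‖plk ξ (g.mulVec u)‖ ≤ ‖plk ξ u‖ := by
  refine (pi_norm_le_iff_of_nonneg (norm_nonneg _)).2 fun J => ?_
  rw [hP, norm_mul]
  have h1 : ‖Matrix.det (Matrix.of fun b c : Fin d => ∑ ij : Fin N × Fin N,
      algebraMap K F (l b ij) *
      (g.adjugate * (ξ c).map (algebraMap K F) * g) ij.1 ij.2)‖ ≤ 1 := by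
    apply det_mem h
    intro b c
    rw [Matrix.of_apply]
    refine sum_le h _ _ _ zero_le_one fun ij _ => ?_
    rw [norm_mul]
    refine mul_le_one₀ (hl _ _) (norm_nonneg _) ?_
    apply mul_mem' h _ _ _ hg
    apply mul_mem' h _ _ (adj_mem h g hg)
    intro i j
    exact hξ c i j
  have h2 : ‖∑ J' : Fin (d + 1) → Fin N, (∏ a, g (J a) (J' a)) * plk ξ u J'‖ ≤ ‖plk ξ u‖ := by
    refine sum_le h _ _ _ (norm_nonneg _) fun J' _ => ?_
    rw [norm_mul]
    have h3 : ‖∏ a, g (J a) (J' a)‖ ≤ 1 := by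
      rw [← mem_oring h]
      exact Subring.prod_mem _ fun i _ => hg _ _
    calc ‖∏ a, g (J a) (J' a)‖ * ‖plk ξ u J'‖ ≤ 1 * ‖plk ξ u‖ :=
          mul_le_mul h3 (norm_le_pi_norm (plk ξ u) J') (norm_nonneg _) zero_le_one
      _ = _ := one_mul _
  calc _ ≤ 1 * ‖plk ξ u‖ := mul_le_mul h1 h2 (norm_nonneg _) zero_le_one
    _ = _ := one_mul _

lemma exists_norm_eq {n : Type} [Fintype n] [Nonempty n] (u : n → F) : ∃ i, ‖u i‖ = ‖u‖ := by
  obtain ⟨i, hi⟩ := Finite.exists_max fun i => ‖u i‖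
  exact ⟨i, le_antisymm (norm_le_pi_norm u i)
    ((pi_norm_le_iff_of_nonneg (norm_nonneg _)).2 fun j => hi j)⟩

/-- choice of the index `J` with the first entry prescribed -/
lemma choose_J (h : ∀ x y : F, ‖x + y‖ ≤ max ‖x‖ ‖y‖) {N d : ℕ}
    (ξ : Fin d → Matrix (Fin N) (Fin N) K) (u : Fin N → F) (hu : u ≠ 0)
    (hR : ∀ (j₀ : Fin N) (J : Fin (d + 1) → Fin N),
      u j₀ * plk ξ u J = ∑ i : Fin (d + 1), (-1) ^ (i : ℕ) * (u (J i) *
        plk ξ u (Fin.cons (α := fun _ => Fin N) j₀ fun a : Fin d => J (i.succAbove a)))) :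
    ∃ J : Fin (d + 1) → Fin N, ‖u (J 0)‖ = ‖u‖ ∧ ‖plk ξ u‖ ≤ ‖plk ξ u J‖ := by
  have hN : Nonempty (Fin N) := by
    by_contra hN
    rw [not_nonempty_iff] at hN
    exact hu (Subsingleton.elim _ _)
  obtain ⟨j₀, hj₀⟩ := exists_norm_eq u
  obtain ⟨J', hJ'⟩ := exists_norm_eq (plk ξ u)
  have hupos : 0 < ‖u‖ := norm_pos_iff.2 hu
  by_contra hcon
  push Not at hcon
  have hlt : ∀ i : Fin (d + 1),
      ‖plk ξ u (Fin.cons (α := fun _ => Fin N) j₀ fun a : Fin d => J' (i.succAbove a))‖ <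
        ‖plk ξ u‖ := fun i => hcon _ (by simpa using hj₀)
  obtain ⟨i₀, hi₀⟩ := Finite.exists_max fun i : Fin (d + 1) =>
    ‖plk ξ u (Fin.cons (α := fun _ => Fin N) j₀ fun a : Fin d => J' (i.succAbove a))‖
  have h1 : ‖u j₀ * plk ξ u J'‖ ≤ ‖u‖ *
      ‖plk ξ u (Fin.cons (α := fun _ => Fin N) j₀ fun a : Fin d => J' (i₀.succAbove a))‖ := by
    rw [hR]
    refine sum_le h _ _ _ (by positivity) fun i _ => ?_
    rw [norm_mul, norm_mul, norm_pow, norm_neg, norm_one, one_pow, one_mul]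
    exact mul_le_mul (norm_le_pi_norm u _) (hi₀ i) (norm_nonneg _) (norm_nonneg _)
  rw [norm_mul, hj₀, hJ'] at h1
  exact absurd (le_of_mul_le_mul_left h1 hupos) (not_le.2 (hlt i₀))

/-- two integral elements whose product is a unit are units -/
lemma unit_of_dvd (h : ∀ x y : F, ‖x + y‖ ≤ max ‖x‖ ‖y‖) {d : ℕ} (p q r : MvPolynomial (Fin d) K)
    (hpq : r = p * q) (hp : IntCoe F p) (hq : IntCoe F q) (y : Fin d → F) (hy : ∀ i, ‖y i‖ ≤ 1)
    (hr : ‖aeval y r‖ = 1) : ‖aeval y p‖ = 1 := by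
  have h1 := aeval_mem h p hp y hy
  have h2 := aeval_mem h q hq y hy
  rw [hpq, map_mul, norm_mul] at hr
  refine le_antisymm h1 ?_
  by_contra hlt
  push Not at hlt
  have : ‖aeval y p‖ * ‖aeval y q‖ < 1 :=
    mul_lt_one_of_nonneg_of_lt_one_left (norm_nonneg _) hlt h2
  linarith

end

/-! ### Almost all places -/

section

variable {K : Type} [Field K] [NumberField K]

lemma fin_one_lt (x : K) : {v : FinitePlace K | ¬ v x ≤ 1}.Finite := by
  by_cases hx : x = 0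
  · subst hx
    simp
  · refine (FinitePlace.hasFiniteMulSupport (x := x) hx).subset ?_
    intro v hv
    simp only [Set.mem_setOf_eq, not_le] at hv
    simp only [Function.mem_mulSupport]
    exact ne_of_gt hv

lemma fin_ne_one (x : K) (hx : x ≠ 0) : {v : FinitePlace K | ¬ v x = 1}.Finite :=
  FinitePlace.hasFiniteMulSupport (x := x) hx

lemma fin_q (n : ℕ) : {v : FinitePlace K | qv v ≤ n}.Finite := by
  have h := Ideal.finite_setOfPred_absNorm_le (S := 𝓞 K) n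
  have h2 : Function.Injective fun v : FinitePlace K => v.maximalIdeal.asIdeal := by
    intro v w hvw
    apply FinitePlace.maximalIdeal_injective
    exact IsDedekindDomain.HeightOneSpectrum.ext hvw
  exact (h.preimage h2.injOn).subset fun v hv => hv

/-- a finite family of conditions each failing at finitely many places -/
lemma exists_S {ι : Type} [Finite ι] (p : ι → FinitePlace K → Prop)
    (hp : ∀ i, {v | ¬ p i v}.Finite) : {v | ¬ ∀ i, p i v}.Finite := by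
  have : {v | ¬ ∀ i, p i v} = ⋃ i, {v | ¬ p i v} := by
    ext v; simp
  rw [this]
  exact Set.finite_iUnion hp

lemma fin_coe {σ : Type} (p : MvPolynomial σ K) :
    {v : FinitePlace K | ¬ ∀ s, v (coeff s p) ≤ 1}.Finite := by
  have h1 := exists_S (K := K) (ι := p.support) (fun s v => v (coeff s.1 p) ≤ 1)
    (fun s => fin_one_lt _)
  refine h1.subset fun v hv => ?_
  simp only [Set.mem_setOf_eq] at hv ⊢
  intro hcon
  apply hv
  intro s
  by_cases hs : s ∈ p.support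
  · exact hcon ⟨s, hs⟩
  · rw [MvPolynomial.notMem_support_iff.1 hs]
    simp

end

end CmpGX

open CmpGX in
/-- module CMPG -/
theorem cmpG_proof (hPA : Stmt_PAct) (hPR : Stmt_PRel) (hSZ : Stmt_SZ) : Stmt_CmpG := by
  intro K _ _ N d I ξ φ D hI hξ hD
  obtain ⟨l, hl⟩ := hPA K N d I ξ hI hξ
  obtain ⟨eδ, heδ⟩ := hD.dvd
  obtain ⟨e₁, he₁⟩ := hD.dvd₁
  obtain ⟨e₂, he₂⟩ := hD.dvd₂
  obtain ⟨s₀, hs₀⟩ := MvPolynomial.ne_zero_iff.1 hD.ne
  have hfin : {v : FinitePlace K | ¬ ((∀ s, v (coeff s D.δ) ≤ 1) ∧ (∀ s, v (coeff s eδ) ≤ 1) ∧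
      (∀ s, v (coeff s D.m₁) ≤ 1) ∧ (∀ s, v (coeff s e₁) ≤ 1) ∧
      (∀ s, v (coeff s D.m₂) ≤ 1) ∧ (∀ s, v (coeff s e₂) ≤ 1) ∧
      (∀ s, v (coeff s D.Δ) ≤ 1) ∧
      (∀ ij : Fin N × Fin N, ∀ s, v (coeff s (D.Φ ij.1 ij.2)) ≤ 1) ∧
      (∀ cij : Fin d × Fin N × Fin N, v (ξ cij.1 cij.2.1 cij.2.2) ≤ 1) ∧
      (∀ bij : Fin d × Fin N × Fin N, v (l bij.1 bij.2) ≤ 1) ∧
      v (coeff s₀ D.Δ) = 1 ∧ ¬ qv v ≤ 2 * D.Δ.totalDegree)}.Finite := by
    have h1 := fin_coe D.δ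
    have h2 := fin_coe eδ
    have h3 := fin_coe D.m₁
    have h4 := fin_coe e₁
    have h5 := fin_coe D.m₂
    have h6 := fin_coe e₂
    have h7 := fin_coe D.Δ
    have h8 := exists_S (K := K) (fun (ij : Fin N × Fin N) v =>
      ∀ s, v (coeff s (D.Φ ij.1 ij.2)) ≤ 1) (fun ij => fin_coe _)
    have h9 := exists_S (K := K) (fun (cij : Fin d × Fin N × Fin N) v =>
      v (ξ cij.1 cij.2.1 cij.2.2) ≤ 1) (fun ij => fin_one_lt _)
    have h10 := exists_S (K := K) (fun (cij : Fin d × Fin N × Fin N) v =>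
      v (l cij.1 cij.2) ≤ 1) (fun ij => fin_one_lt _)
    have h11 := fin_ne_one (coeff s₀ D.Δ) hs₀
    have h12 := fin_q (K := K) (2 * D.Δ.totalDegree)
    refine (((((((((((h1.union h2).union h3).union h4).union h5).union h6).union h7).union
      h8).union h9).union h10).union h11).union h12).subset fun v hv => ?_
    simp only [Set.mem_union, Set.mem_setOf_eq] at hv ⊢
    tauto
  refine ⟨hfin.toFinset, fun v hv P hP hPv => ?_⟩
  simp only [Set.Finite.mem_toFinset, Set.mem_setOf_eq, not_not] at hv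
  obtain ⟨hδ, hδ', hm₁, hm₁', hm₂, hm₂', hΔ, hΦ, hξv, hlv, hs₀v, hqv⟩ := hv
  have hna := hP.2.2.1
  have cI : ∀ {σ : Type} (p : MvPolynomial σ K), (∀ s, v (coeff s p) ≤ 1) → IntCoe P.F p := by
    intro σ p hp s
    rw [hPv]
    exact hp s
  have hball : ∀ y : Fin d → P.F, y ∈ closedBall (0 : Fin d → P.F) 1 → ∀ i, ‖y i‖ ≤ 1 := by
    intro y hy i
    rw [mem_closedBall_zero_iff] at hy
    exact (norm_le_pi_norm y i).trans hy
  have hcont : ∀ p : MvPolynomial (Fin d) K, Continuous fun y : Fin d → P.F => aeval y p := by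
    intro p
    have : (fun y : Fin d → P.F => aeval y p) =
        fun y => eval y (MvPolynomial.map (algebraMap K P.F) p) := by
      funext y
      rw [MvPolynomial.eval_map, MvPolynomial.aeval_def]
    rw [this]
    exact MvPolynomial.continuous_eval _
  have hclosed : IsClosed (goodB D P) := by
    have h1 : IsClosed {y : Fin d → P.F | ‖aeval y D.Δ‖ = 1} :=
      isClosed_eq (hcont _).norm continuous_const
    exact isClosed_closedBall.inter h1
  have hgδ : ∀ y ∈ goodB D P, ‖aeval y D.δ‖ = 1 := fun y hy =>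
    unit_of_dvd hna _ _ _ heδ (cI _ hδ) (cI _ hδ') y (hball y hy.1) hy.2
  have hgm₁ : ∀ y ∈ goodB D P, ‖aeval y D.m₁‖ = 1 := fun y hy =>
    unit_of_dvd hna _ _ _ he₁ (cI _ hm₁) (cI _ hm₁') y (hball y hy.1) hy.2
  have hgm₂ : ∀ y ∈ goodB D P, ‖aeval y D.m₂‖ = 1 := fun y hy =>
    unit_of_dvd hna _ _ _ he₂ (cI _ hm₂) (cI _ hm₂') y (hball y hy.1) hy.2
  have hΦy : ∀ y ∈ goodB D P, ∀ i j, ‖aeval y (D.Φ i j)‖ ≤ 1 := fun y hy i j =>
    aeval_mem hna _ (cI _ fun s => hΦ (i, j) s) y (hball y hy.1)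
  have hφy : ∀ y ∈ goodB D P, ∀ i j, ‖phiAt D.Φ D.δ y i j‖ ≤ 1 := fun y hy i j => by
    rw [phiAt, Matrix.of_apply, norm_div, hgδ y hy, div_one]
    exact hΦy y hy i j
  have hΔne : ∀ y ∈ goodB D P, aeval y D.Δ ≠ 0 := fun y hy h0 => by
    have := hy.2
    rw [h0, norm_zero] at this
    exact zero_ne_one this
  refine ⟨hclosed.measurableSet, ?_, ?_, hφy⟩
  · -- the volume
    obtain ⟨hv1, hv2⟩ := hSZ K P (qv v) hP d (MvPolynomial.map (algebraMap K P.F) D.Δ)
      (fun s => by rw [coeff_map, hPv]; exact hΔ s) ⟨s₀, by rw [coeff_map, hPv]; exact hs₀v⟩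
    have hsub : closedBall (0 : Fin d → P.F) 1 ⊆ goodB D P ∪
        {z | z ∈ closedBall (0 : Fin d → P.F) 1 ∧
          ‖eval z (MvPolynomial.map (algebraMap K P.F) D.Δ)‖ < 1} := by
      intro z hz
      have h1 : ‖aeval z D.Δ‖ ≤ 1 := aeval_mem hna _ (cI _ hΔ) z (hball z hz)
      rcases lt_or_eq_of_le h1 with h2 | h2
      · right
        refine ⟨hz, ?_⟩
        rw [MvPolynomial.eval_map, ← MvPolynomial.aeval_def]
        exact h2
      · left
        exact ⟨hz, h2⟩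
    have h1 : (1 : ENNReal) ≤ P.vol d (goodB D P) +
        ENNReal.ofReal ((MvPolynomial.map (algebraMap K P.F) D.Δ).totalDegree / qv v) := by
      calc (1 : ENNReal) = P.vol d (closedBall (0 : Fin d → P.F) 1) := hv1.symm
        _ ≤ P.vol d (goodB D P ∪ _) := measure_mono hsub
        _ ≤ _ := (measure_union_le _ _).trans (by gcongr)
    have hdeg : (MvPolynomial.map (algebraMap K P.F) D.Δ).totalDegree ≤ D.Δ.totalDegree :=
      Finset.sup_mono (MvPolynomial.support_map_subset _ _)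
    have hq2 : 2 ≤ qv v := hP.2.1
    have hle : ((MvPolynomial.map (algebraMap K P.F) D.Δ).totalDegree : ℝ) / qv v ≤ 1 / 2 := by
      rw [div_le_div_iff₀ (by positivity) (by norm_num)]
      have : (MvPolynomial.map (algebraMap K P.F) D.Δ).totalDegree * 2 ≤ 1 * qv v := by omega
      exact_mod_cast this
    have h2 : (1 : ENNReal) ≤ P.vol d (goodB D P) + ENNReal.ofReal (1 / 2) :=
      h1.trans (by gcongr)
    have h3 : (1 : ENNReal) = ENNReal.ofReal (1 / 2) + ENNReal.ofReal (1 / 2) := by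
      rw [← ENNReal.ofReal_add (by norm_num) (by norm_num)]
      norm_num
    rw [h3] at h2
    exact (ENNReal.add_le_add_iff_right ENNReal.ofReal_ne_top).1 h2
  · -- the comparison
    intro y hy
    refine ⟨hΔne y hy, fun u hu => ?_⟩
    have hmem := hD.mem P.F y (hΔne y hy)
    have hdet := hI.det P.F _ hmem
    have hδne : aeval y D.δ ≠ 0 := by
      intro h0
      have := hgδ y hy
      rw [h0, norm_zero] at this
      exact zero_ne_one this
    have hΦφ : phiNum D.Φ y = aeval y D.δ • phiAt D.Φ D.δ y := by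
      ext i j
      simp only [phiNum, phiAt, Matrix.of_apply, Matrix.smul_apply, smul_eq_mul]
      field_simp
    have hadj := hI.inv P.F _ hmem
    have hadjint := adj_mem hna _ (hφy y hy)
    have hinv : ∀ w : Fin N → P.F,
        (phiAt D.Φ D.δ y).adjugate.mulVec ((phiAt D.Φ D.δ y).mulVec w) = w := by
      intro w
      rw [Matrix.mulVec_mulVec, Matrix.adjugate_mul, hdet, one_smul, Matrix.one_mulVec]
    have hnorm : ‖(phiNum D.Φ y).mulVec u‖ = ‖u‖ := by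
      rw [hΦφ, Matrix.smul_mulVec, norm_smul, hgδ y hy, one_mul]
      refine le_antisymm (mulVec_le hna _ (hφy y hy) u) ?_
      calc ‖u‖ = ‖(phiAt D.Φ D.δ y).adjugate.mulVec ((phiAt D.Φ D.δ y).mulVec u)‖ := by
            rw [hinv]
        _ ≤ _ := mulVec_le hna _ hadjint _
    have hne : (phiNum D.Φ y).mulVec u ≠ 0 := by
      rw [← norm_pos_iff, hnorm]
      exact norm_pos_iff.2 hu
    refine ⟨hne, ?_⟩
    obtain ⟨J, hJ1, hJ2⟩ := choose_J hna ξ _ hne (fun j₀ J =>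
      (hPR K N d ξ P.F ((phiNum D.Φ y).mulVec u) j₀ J).2)
    refine ⟨J, hJ1, ?_⟩
    have hN0 : ∃ j₀ : Fin N, True := ⟨J 0, trivial⟩
    have hplk : ‖plk ξ u‖ ≤ ‖plk ξ ((phiNum D.Φ y).mulVec u)‖ := by
      have h1 : ‖plk ξ u‖ ≤ ‖plk ξ ((phiAt D.Φ D.δ y).mulVec u)‖ := by
        have := plk_le hna ξ l (fun c i j => by rw [hPv]; exact hξv (c, i, j))
          (fun b ij => by rw [hPv]; exact hlv (b, ij)) _ hadjint
          (fun w J => hl P.F _ hadj w J) ((phiAt D.Φ D.δ y).mulVec u)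
        rwa [hinv] at this
      have h2 : ‖plk ξ ((phiNum D.Φ y).mulVec u)‖ = ‖plk ξ ((phiAt D.Φ D.δ y).mulVec u)‖ := by
        have h3 : plk ξ ((phiNum D.Φ y).mulVec u) =
            (aeval y D.δ) ^ (d + 1) • plk ξ ((phiAt D.Φ D.δ y).mulVec u) := by
          funext J'
          rw [hΦφ, Matrix.smul_mulVec, (hPR K N d ξ P.F _ (J 0) J').1]
          rfl
        rw [h3, norm_smul, norm_pow, hgδ y hy, one_pow, one_mul]
      rw [h2]
      exact h1
    have htan := hD.tan P.F y u J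
    have hw : ‖wdet D.Φ y u J‖ = ‖plk ξ ((phiNum D.Φ y).mulVec u) J‖ := by
      have := congrArg norm htan
      rwa [norm_mul, norm_mul, hgm₁ y hy, hgm₂ y hy, one_mul, one_mul] at this
    rw [hP.1, pow_one, pow_one, one_mul, hnorm, hw]
    gcongr
    exact hplk.trans hJ2

end Pool.GC
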