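import Mathlib
import Pool.Agent.GC.Stmts

set_option autoImplicit false

/-!
# Squad GC, module COMP: the completion of a number field at a finite place is a nonarchimedean
local field with a Haar measure
-/

namespace Pool.GC

open MvPolynomial MeasureTheory NumberField Metric IsDedekindDomain

namespace CompX

variable {K : Type} [Field K] [NumberField K] (v : HeightOneSpectrum (𝓞 K))

abbrev Kv (v : HeightOneSpectrum (𝓞 K)) : Type := v.adicCompletion K

noncomputable def q (v : HeightOneSpectrum (𝓞 K)) : ℕ := Ideal.absNorm v.asIdeal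

lemma one_lt_q : 1 < q v := NumberField.HeightOneSpectrum.one_lt_absNorm v

lemma norm_eq_zpow (x : Kv v) (hx : x ≠ 0) : ∃ n : ℤ, ‖x‖ = (q v : ℝ) ^ n := by
  rw [FinitePlace.norm_def]
  have h : (Valued.v x : WithZero (Multiplicative ℤ)) ≠ 0 := by
    simpa using hx
  rw [WithZeroMulInt.toNNReal_neg_apply _ h]
  refine ⟨Multiplicative.toAdd (WithZero.unzero h), ?_⟩
  push_cast
  rfl

lemma norm_add (x y : Kv v) : ‖x + y‖ ≤ max ‖x‖ ‖y‖ := by
  rw [FinitePlace.norm_def, FinitePlace.norm_def, FinitePlace.norm_def]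
  have hm : StrictMono (WithZeroMulInt.toNNReal (NumberField.HeightOneSpectrum.absNorm_ne_zero v)) :=
    WithZeroMulInt.toNNReal_strictMono (NumberField.HeightOneSpectrum.one_lt_absNorm_nnreal v)
  rw [← NNReal.coe_max, NNReal.coe_le_coe, ← hm.monotone.map_max]
  exact hm.monotone (Valued.v.map_add x y)

lemma exists_unif : ∃ π : Kv v, ‖π‖ = (q v : ℝ)⁻¹ := by
  obtain ⟨π, hπ⟩ := v.valuation_exists_uniformizer K
  refine ⟨FinitePlace.embedding v π, ?_⟩
  rw [FinitePlace.norm_embedding', hπ, WithZeroMulInt.toNNReal_neg_apply _ (by simp)]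
  have h : WithZero.unzero (show (WithZero.exp (-1 : ℤ)) ≠ 0 by simp) =
      Multiplicative.ofAdd (-1 : ℤ) := WithZero.unzero_coe _
  rw [h]
  simp [q]

lemma exists_gt_one : ∃ x : Kv v, 1 < ‖x‖ := by
  obtain ⟨π, hπ⟩ := exists_unif v
  refine ⟨π⁻¹, ?_⟩
  rw [norm_inv, hπ, inv_inv]
  exact_mod_cast one_lt_q v

noncomputable instance : NontriviallyNormedField (Kv v) :=
  { NumberField.HeightOneSpectrum.instNormedFieldValuedAdicCompletion K v with
    non_trivial := exists_gt_one v }

lemma lt_one_iff (x : Kv v) (h : ‖x‖ < 1) : ‖x‖ ≤ (q v : ℝ)⁻¹ := by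
  by_cases hx : x = 0
  · simp [hx]
  obtain ⟨n, hn⟩ := norm_eq_zpow v x hx
  have hq : (1 : ℝ) < q v := by exact_mod_cast one_lt_q v
  rw [hn] at h ⊢
  have h1 : n < 0 := by
    rw [← zpow_zero (q v : ℝ)] at h
    exact (zpow_lt_zpow_iff_right₀ hq).1 h
  rw [← zpow_neg_one]
  exact zpow_le_zpow_right₀ hq.le (by omega)

/-- density of the ring of integers in the unit ball -/
lemma exists_int (x : Kv v) (hx : ‖x‖ ≤ 1) :
    ∃ r : 𝓞 K, ‖x - FinitePlace.embedding v (algebraMap (𝓞 K) K r)‖ < 1 := by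
  have hd := v.denseRange_algebraMap K
  have h1 : ∃ a : K, ‖x - FinitePlace.embedding v a‖ < 1 := by
    obtain ⟨a, ha⟩ := Metric.denseRange_iff.1 hd x 1 one_pos
    refine ⟨a, ?_⟩
    rw [dist_eq_norm] at ha
    exact ha
  obtain ⟨a, ha⟩ := h1
  have h2 : ‖FinitePlace.embedding v a‖ ≤ 1 := by
    have h3 : FinitePlace.embedding v a = x + -(x - FinitePlace.embedding v a) := by ring
    rw [h3]
    refine (norm_add v _ _).trans (max_le hx ?_)
    rw [norm_neg]
    exact ha.le
  have hm : StrictMono (WithZeroMulInt.toNNReal (NumberField.HeightOneSpectrum.absNorm_ne_zero v)) :=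
    WithZeroMulInt.toNNReal_strictMono (NumberField.HeightOneSpectrum.one_lt_absNorm_nnreal v)
  have h4 : v.valuation K a ≤ 1 := by
    rw [FinitePlace.norm_embedding'] at h2
    rw [← hm.le_iff_le, map_one]
    exact_mod_cast h2
  obtain ⟨r, hr⟩ := v.exists_valuation_sub_lt_of_integer h4 1
  refine ⟨r, ?_⟩
  have h5 : x - FinitePlace.embedding v (algebraMap (𝓞 K) K r) =
      (x - FinitePlace.embedding v a) + -(FinitePlace.embedding v (algebraMap (𝓞 K) K r - a)) := by
    rw [map_sub]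
    ring
  rw [h5]
  refine (norm_add v _ _).trans_lt (max_lt ha ?_)
  rw [norm_neg, FinitePlace.norm_embedding']
  have h6 := hm hr
  simp only [Units.val_one, map_one] at h6
  exact_mod_cast h6


/-- residues -/
lemma exists_residues : ∃ R : Finset (Kv v), R.card = q v ∧ (∀ r ∈ R, ‖r‖ ≤ 1) ∧
    ∀ x : Kv v, ‖x‖ ≤ 1 → ∃! r, r ∈ R ∧ ‖x - r‖ < 1 := by
  classical
  have : Finite (𝓞 K ⧸ v.asIdeal) := v.asIdeal.finiteQuotientOfFreeOfNeBot v.ne_bot
  have : Fintype (𝓞 K ⧸ v.asIdeal) := Fintype.ofFinite _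
  set f : (𝓞 K ⧸ v.asIdeal) → Kv v := fun c =>
    FinitePlace.embedding v (algebraMap (𝓞 K) K (Quotient.out c)) with hf
  have hmk : ∀ c : 𝓞 K ⧸ v.asIdeal, Ideal.Quotient.mk v.asIdeal (Quotient.out c) = c := by
    intro c
    exact Quotient.out_eq c
  have hdist : ∀ r s : 𝓞 K, ‖FinitePlace.embedding v (algebraMap (𝓞 K) K r) -
      FinitePlace.embedding v (algebraMap (𝓞 K) K s)‖ < 1 ↔
      Ideal.Quotient.mk v.asIdeal r = Ideal.Quotient.mk v.asIdeal s := by
    intro r s
    rw [← map_sub, ← map_sub, FinitePlace.norm_lt_one_iff_mem, Ideal.Quotient.eq]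
  have hinj : Function.Injective f := by
    intro c c' h
    have h1 := (hdist (Quotient.out c) (Quotient.out c')).1 (by
      have h2 : f c = f c' := h
      simp only [hf] at h2
      rw [h2, sub_self, norm_zero]
      exact one_pos)
    rwa [hmk, hmk] at h1
  refine ⟨Finset.univ.image f, ?_, ?_, ?_⟩
  · rw [Finset.card_image_of_injective _ hinj, Finset.card_univ, q, Ideal.absNorm_apply,
      Submodule.cardQuot_apply, Nat.card_eq_fintype_card]
  · intro r hr
    obtain ⟨c, -, rfl⟩ := Finset.mem_image.1 hr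
    exact FinitePlace.norm_le_one K v _
  · intro x hx
    obtain ⟨r, hr⟩ := exists_int v x hx
    refine ⟨f (Ideal.Quotient.mk v.asIdeal r), ⟨Finset.mem_image_of_mem _ (Finset.mem_univ _), ?_⟩,
      ?_⟩
    · have h1 : ‖FinitePlace.embedding v (algebraMap (𝓞 K) K r) -
          f (Ideal.Quotient.mk v.asIdeal r)‖ < 1 := by
        rw [hf, hdist, hmk]
      have h2 : x - f (Ideal.Quotient.mk v.asIdeal r) =
          (x - FinitePlace.embedding v (algebraMap (𝓞 K) K r)) +
          (FinitePlace.embedding v (algebraMap (𝓞 K) K r) -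
          f (Ideal.Quotient.mk v.asIdeal r)) := by ring
      rw [h2]
      exact (norm_add v _ _).trans_lt (max_lt hr h1)
    · rintro y ⟨hy, hxy⟩
      obtain ⟨c, -, rfl⟩ := Finset.mem_image.1 hy
      have h1 : ‖f c - FinitePlace.embedding v (algebraMap (𝓞 K) K r)‖ < 1 := by
        have h2 : f c - FinitePlace.embedding v (algebraMap (𝓞 K) K r) =
          (x - FinitePlace.embedding v (algebraMap (𝓞 K) K r)) + -(x - f c) := by ring
        rw [h2]
        refine (norm_add v _ _).trans_lt (max_lt hr ?_)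
        rw [norm_neg]
        exact hxy
      rw [hf, hdist, hmk] at h1
      rw [h1]

lemma isCompact_ball : IsCompact (closedBall (0 : Kv v) 1) := by
  obtain ⟨R, -, -, hR⟩ := exists_residues v
  obtain ⟨π, hπ⟩ := exists_unif v
  have hq : (1 : ℝ) < q v := by exact_mod_cast one_lt_q v
  have hπ0 : π ≠ 0 := by
    intro h
    rw [h, norm_zero] at hπ
    have : (0 : ℝ) < (q v : ℝ)⁻¹ := by positivity
    linarith
  have key : ∀ n : ℕ, ∃ S : Finset (Kv v), ∀ x : Kv v, ‖x‖ ≤ 1 →
      ∃ s ∈ S, ‖x - s‖ ≤ ((q v : ℝ)⁻¹) ^ n := by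
    classical
    intro n
    induction n with
    | zero => exact ⟨{0}, fun x hx => ⟨0, by simp, by simpa using hx⟩⟩
    | succ n ih =>
      obtain ⟨S, hS⟩ := ih
      refine ⟨(S ×ˢ R).image fun p => p.1 + π ^ n * p.2, fun x hx => ?_⟩
      obtain ⟨s, hs, hxs⟩ := hS x hx
      have h1 : ‖(x - s) / π ^ n‖ ≤ 1 := by
        rw [norm_div, norm_pow, hπ]
        exact div_le_one_of_le₀ hxs (by positivity)
      obtain ⟨r, ⟨hr, hxr⟩, -⟩ := hR _ h1
      refine ⟨s + π ^ n * r, Finset.mem_image.2 ⟨(s, r), Finset.mem_product.2 ⟨hs, hr⟩, rfl⟩, ?_⟩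
      have h2 : x - (s + π ^ n * r) = π ^ n * ((x - s) / π ^ n - r) := by
        field_simp
        ring
      rw [h2, norm_mul, norm_pow, hπ, pow_succ]
      exact mul_le_mul_of_nonneg_left (lt_one_iff v _ hxr) (by positivity)
  have hc : IsClosed (closedBall (0 : Kv v) 1) := isClosed_closedBall
  refine TotallyBounded.isCompact_of_isClosed ?_ hc
  rw [Metric.totallyBounded_iff]
  intro ε hε
  obtain ⟨n, hn⟩ : ∃ n : ℕ, ((q v : ℝ)⁻¹) ^ n < ε :=
    exists_pow_lt_of_lt_one hε (inv_lt_one_of_one_lt₀ hq)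
  obtain ⟨S, hS⟩ := key n
  refine ⟨S, S.finite_toSet, fun x hx => ?_⟩
  rw [mem_closedBall, dist_zero_right] at hx
  obtain ⟨s, hs, hxs⟩ := hS x hx
  refine Set.mem_biUnion (Finset.mem_coe.2 hs) ?_
  rw [mem_ball, dist_eq_norm]
  exact hxs.trans_lt hn

instance : LocallyCompactSpace (Kv v) :=
  (isCompact_ball v).locallyCompactSpace_of_mem_nhds_of_addGroup (closedBall_mem_nhds 0 one_pos)

instance : ProperSpace (Kv v) :=
  ProperSpace.of_nontriviallyNormedField_of_weaklyLocallyCompactSpace _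

noncomputable def K₀ : TopologicalSpace.PositiveCompacts (Kv v) where
  carrier := closedBall 0 1
  isCompact' := isCompact_ball v
  interior_nonempty' := ⟨0, mem_interior_iff_mem_nhds.2 (closedBall_mem_nhds 0 one_pos)⟩

noncomputable def lf : LF K :=
  letI : MeasurableSpace (Kv v) := borel (Kv v)
  haveI : BorelSpace (Kv v) := ⟨rfl⟩
  { F := Kv v
    alg := (FinitePlace.embedding v).toAlgebra
    e := 1
    μ := Measure.addHaarMeasure (K₀ v) }

end CompX

theorem comp_proof : Stmt_Comp := by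
  intro K _ _ v
  refine ⟨CompX.lf v.maximalIdeal, ⟨rfl, CompX.one_lt_q v.maximalIdeal,
    CompX.norm_add v.maximalIdeal, CompX.norm_eq_zpow v.maximalIdeal,
    CompX.exists_unif v.maximalIdeal, CompX.exists_residues v.maximalIdeal, ?_⟩, ?_⟩
  · let : MeasurableSpace (CompX.Kv v.maximalIdeal) := borel _
    have : BorelSpace (CompX.Kv v.maximalIdeal) := ⟨rfl⟩
    exact Measure.addHaarMeasure_self (K₀ := CompX.K₀ v.maximalIdeal)
  · intro x
    exact FinitePlace.norm_embedding_eq v x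

end Pool.GC
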