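import Pool.Agent.GC.Stmts

set_option autoImplicit false

namespace Pool.GC

open MvPolynomial MeasureTheory NumberField Metric

/-- DALG -/
theorem dalg_proof : Stmt_Dalg := by
  intro K _ _ E _ _ D S hS x hx
  let C : IntermediateField K E :=
    { carrier := {a | D a = 0}
      mul_mem' := by
        intro a b ha hb
        simp only [Set.mem_ofPred_eq] at ha hb ⊢
        rw [D.leibniz, ha, hb]
        simp
      add_mem' := by
        intro a b ha hb
        simp only [Set.mem_ofPred_eq] at ha hb ⊢
        rw [map_add, ha, hb, add_zero]
      algebraMap_mem' := by
        intro r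
        simp
      inv_mem' := by
        intro a ha
        simp only [Set.mem_ofPred_eq] at ha ⊢
        rw [D.leibniz_inv, ha, smul_zero] }
  have hle : IntermediateField.adjoin K S ≤ C := by
    rw [IntermediateField.adjoin_le_iff]
    intro s hs
    exact hS s hs
  have hL : ∀ a ∈ IntermediateField.adjoin K S, D a = 0 := fun a ha => hle ha
  let L := IntermediateField.adjoin K S
  let D' : Derivation L E E :=
    { toFun := D
      map_add' := map_add D
      map_smul' := by
        intro c y
        have h1 : c • y = (c : E) * y := rfl
        rw [h1, D.leibniz, hL c c.2]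
        simp only [smul_eq_mul, mul_zero, add_zero, RingHom.id_apply]
        rfl
      map_one_eq_zero' := D.map_one_eq_zero
      leibniz' := fun a b => D.leibniz a b }
  have hD' : ∀ y, D' y = D y := fun y => rfl
  have h1 := Derivation.map_aeval D' (minpoly L x) x
  rw [minpoly.aeval, map_zero] at h1
  have hint : IsIntegral L x := hx.isIntegral
  have hsep : (minpoly L x).Separable := (minpoly.irreducible hint).separable
  have h2 : Polynomial.aeval x (Polynomial.derivative (minpoly L x)) ≠ 0 :=
    hsep.aeval_derivative_ne_zero (minpoly.aeval L x)
  rw [hD'] at h1
  rcases smul_eq_zero.1 h1.symm with h3 | h3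
  · exact absurd h3 h2
  · exact h3

end Pool.GC
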