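import Pool.Agent.GC.Stmts

set_option autoImplicit false

/-! Module Der: partial derivatives on the field of rational functions. -/

namespace Pool.GC

namespace DerX

open MvPolynomial

variable {K : Type} [Field K] {d : ℕ}

/-- the homomorphism `y_i ↦ y_i + ε c_i` -/
noncomputable def phi0 (c : Fin d → RF K d) :
    MvPolynomial (Fin d) K →ₐ[K] TrivSqZeroExt (RF K d) (RF K d) :=
  MvPolynomial.aeval (fun i => TrivSqZeroExt.inl (algebraMap (MvPolynomial (Fin d) K) (RF K d) (X i))
    + TrivSqZeroExt.inr (c i))

theorem fst_phi0 (c : Fin d → RF K d) (p : MvPolynomial (Fin d) K) :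
    (phi0 c p).fst = algebraMap (MvPolynomial (Fin d) K) (RF K d) p := by
  have h : (TrivSqZeroExt.fstHom K (RF K d) (RF K d)).comp (phi0 c)
      = IsScalarTower.toAlgHom K (MvPolynomial (Fin d) K) (RF K d) := by
    apply MvPolynomial.algHom_ext
    intro i
    simp [phi0]
  exact congrArg (fun f : MvPolynomial (Fin d) K →ₐ[K] RF K d => f p) h

theorem isUnit_phi0 (c : Fin d → RF K d) (y : nonZeroDivisors (MvPolynomial (Fin d) K)) :
    IsUnit (phi0 c y) := by
  rw [TrivSqZeroExt.isUnit_iff_isUnit_fst, fst_phi0]
  exact IsLocalization.map_units (RF K d) y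

/-- its extension to the field -/
noncomputable def phi (c : Fin d → RF K d) : RF K d →ₐ[K] TrivSqZeroExt (RF K d) (RF K d) :=
  IsLocalization.liftAlgHom (M := nonZeroDivisors (MvPolynomial (Fin d) K)) (f := phi0 c)
    (isUnit_phi0 c)

theorem phi_algebraMap (c : Fin d → RF K d) (p : MvPolynomial (Fin d) K) :
    phi c (algebraMap (MvPolynomial (Fin d) K) (RF K d) p) = phi0 c p := by
  unfold phi
  rw [IsLocalization.liftAlgHom_apply, IsLocalization.lift_eq]
  rfl

theorem fst_phi (c : Fin d → RF K d) (f : RF K d) : (phi c f).fst = f := by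
  have h : ((TrivSqZeroExt.fstHom K (RF K d) (RF K d)).comp (phi c)).toRingHom =
      RingHom.id (RF K d) := by
    apply IsLocalization.ringHom_ext (nonZeroDivisors (MvPolynomial (Fin d) K))
    refine RingHom.ext (fun p => ?_)
    change (phi c (algebraMap (MvPolynomial (Fin d) K) (RF K d) p)).fst = _
    rw [phi_algebraMap, fst_phi0]
    rfl
  exact congrArg (fun f' : RF K d →+* RF K d => f' f) h

/-- the derivation -/
noncomputable def der (c : Fin d → RF K d) : Derivation K (RF K d) (RF K d) :=
  Derivation.mk' ((TrivSqZeroExt.sndHom (RF K d) (RF K d)).restrictScalars K ∘ₗ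
      (phi c).toLinearMap)
    (by
      intro a b
      change (phi c (a * b)).snd = a • (phi c b).snd + b • (phi c a).snd
      rw [map_mul, TrivSqZeroExt.snd_mul, fst_phi, fst_phi, op_smul_eq_smul])

theorem der_apply (c : Fin d → RF K d) (f : RF K d) : der c f = (phi c f).snd := rfl

theorem der_X (c : Fin d → RF K d) (i : Fin d) :
    der c (algebraMap (MvPolynomial (Fin d) K) (RF K d) (X i)) = c i := by
  rw [der_apply, phi_algebraMap]
  simp [phi0]

theorem der_poly (k : Fin d) (p : MvPolynomial (Fin d) K) :
    der (fun i => if i = k then 1 else 0) (algebraMap (MvPolynomial (Fin d) K) (RF K d) p) =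
      algebraMap (MvPolynomial (Fin d) K) (RF K d) (pderiv k p) := by
  induction p using MvPolynomial.induction_on with
  | C a =>
    have : algebraMap (MvPolynomial (Fin d) K) (RF K d) (MvPolynomial.C a) =
        algebraMap K (RF K d) a := by
      rw [IsScalarTower.algebraMap_apply K (MvPolynomial (Fin d) K) (RF K d)]; rfl
    rw [this, Derivation.map_algebraMap, pderiv_C, map_zero]
  | add p q hp hq => rw [map_add, map_add, map_add, map_add, hp, hq]
  | mul_X p i hp =>
    rw [map_mul, Derivation.leibniz, hp, der_X, pderiv_mul, map_add, map_mul, map_mul]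
    by_cases hik : i = k
    · subst hik
      rw [if_pos rfl, pderiv_X_self, map_one, smul_eq_mul, smul_eq_mul]
      ring
    · rw [if_neg hik, pderiv_X_of_ne hik, map_zero, smul_eq_mul, smul_eq_mul]
      ring

end DerX

theorem der_proof : Stmt_Der := by
  intro K _ d
  exact ⟨fun k => DerX.der (fun i => if i = k then 1 else 0), fun k p => DerX.der_poly k p⟩

end Pool.GC
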