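import Mathlib
import Pool.Agent.GC.Stmts

set_option autoImplicit false

/-!
# Module EFF: the effectivity condition gives an inequality between heights
-/

namespace Pool.GC

open MvPolynomial NumberField Height Height.AdmissibleAbsValues

namespace Eff

/-! ### Comparing heights through local bounds -/

section Local

variable {K : Type} [Field K] [AdmissibleAbsValues K]

lemma finSupp {ι : Type} [Finite ι] {x : ι → K} (hx : x ≠ 0) :
    (fun v : nonarchAbsVal (K := K) => ⨆ i, v.val (x i)).HasFiniteMulSupport := by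
  have : Nonempty {j // x j ≠ 0} := nonempty_subtype.mpr <| Function.ne_iff.mp hx
  suffices (fun v : nonarchAbsVal (K := K) ↦ ⨆ i : {j // x j ≠ 0},
      v.val (x i)).HasFiniteMulSupport by
    convert! this with v
    obtain ⟨i, hi⟩ : ∃ j, x j ≠ 0 := Function.ne_iff.mp hx
    have : Nonempty ι := .intro i
    refine le_antisymm (ciSup_le fun j ↦ ?_) (ciSup_le fun ⟨j, hj⟩ ↦ Finite.le_ciSup_of_le j le_rfl)
    rcases eq_or_ne (x j) 0 with h | h
    · rw [h, v.val.map_zero]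
      exact Real.iSup_nonneg' ⟨⟨i, hi⟩, v.val.nonneg ..⟩
    · exact Finite.le_ciSup_of_le ⟨j, h⟩ le_rfl
  fun_prop (disch := grind)

/-- Local bounds for `x` in terms of `w` imply a bound for the heights. -/
lemma height_le {κ : Type} [Finite κ] (c : κ → K) (hc : c ≠ 0) (D : ℝ) (hD : 1 ≤ D) :
    ∃ C : ℝ, 1 ≤ C ∧ ∀ (ι T : Type) [Finite ι] [Finite T] (x : ι → K) (w : T → K), x ≠ 0 → w ≠ 0 →
      (∀ v ∈ archAbsVal (K := K), ∀ i, v (x i) ≤ D * ((⨆ s, v (c s)) * ⨆ t, v (w t))) →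
      (∀ v ∈ nonarchAbsVal (K := K), ∀ i, v (x i) ≤ (⨆ s, v (c s)) * ⨆ t, v (w t)) →
      mulHeight x ≤ C * mulHeight w := by
  refine ⟨D ^ totalWeight K * mulHeight c, one_le_mul_of_one_le_of_one_le (one_le_pow₀ hD)
    (one_le_mulHeight c), ?_⟩
  intro ι T _ _ x w hx hw h1 h2
  have : Nonempty ι := (Function.ne_iff.mp hx).nonempty
  rw [mulHeight_eq hx, mulHeight_eq hw, mulHeight_eq hc]
  have e1 : (archAbsVal.map fun v : AbsoluteValue K ℝ ↦ ⨆ i, v (x i)).prod ≤
      D ^ totalWeight K * ((archAbsVal.map fun v : AbsoluteValue K ℝ ↦ ⨆ i, v (c i)).prod *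
        (archAbsVal.map fun v : AbsoluteValue K ℝ ↦ ⨆ i, v (w i)).prod) := by
    have : D ^ totalWeight K = (archAbsVal.map fun _ : AbsoluteValue K ℝ ↦ D).prod := by
      simp [totalWeight]
    rw [this, ← Multiset.prod_map_mul, ← Multiset.prod_map_mul]
    exact Multiset.prod_map_le_prod_map₀ _ _
      (fun v _ ↦ Real.iSup_nonneg_of_nonnegHomClass v _) fun v hv ↦ ciSup_le (h1 v hv)
  have e2 : (∏ᶠ v : nonarchAbsVal (K := K), ⨆ i, v.val (x i)) ≤
      (∏ᶠ v : nonarchAbsVal (K := K), ⨆ i, v.val (c i)) *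
        ∏ᶠ v : nonarchAbsVal (K := K), ⨆ i, v.val (w i) := by
    rw [← finprod_mul_distrib (finSupp hc) (finSupp hw)]
    refine finprod_le_finprod (finSupp hx) (fun v ↦ Real.iSup_nonneg_of_nonnegHomClass v.val _)
      ?_ fun v ↦ ciSup_le (h2 v.val v.2)
    exact (finSupp hc).mul (finSupp hw)
  calc _ ≤ (D ^ totalWeight K * ((archAbsVal.map fun v : AbsoluteValue K ℝ ↦ ⨆ i, v (c i)).prod *
        (archAbsVal.map fun v : AbsoluteValue K ℝ ↦ ⨆ i, v (w i)).prod)) *
      ((∏ᶠ v : nonarchAbsVal (K := K), ⨆ i, v.val (c i)) *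
        ∏ᶠ v : nonarchAbsVal (K := K), ⨆ i, v.val (w i)) := by
        gcongr
        · exact finprod_nonneg fun v ↦ Real.iSup_nonneg_of_nonnegHomClass v.val _
        · refine mul_nonneg (by positivity) (mul_nonneg ?_ ?_) <;>
          exact Multiset.prod_map_nonneg fun v _ ↦ Real.iSup_nonneg_of_nonnegHomClass v _
    _ = _ := by ring

end Local

/-! ### The size of a root -/

section Root

variable {K : Type} [Field K]

lemma term_lt {b x B M D : ℝ} {r j : ℕ} (hj : 1 ≤ j) (hjr : j ≤ r) (hB : 1 ≤ B) (hD : 1 ≤ D)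
    (hM : 0 ≤ M) (hb : b ≤ B * M ^ j) (hx : D * (B * M) < x) :
    b * x ^ (r - j) < x ^ r / D := by
  have hDB : 1 ≤ D * B := one_le_mul_of_one_le_of_one_le hD hB
  have hx0 : 0 < x := lt_of_le_of_lt (by positivity) hx
  have h1 : D * B * M ^ j < x ^ j := by
    calc D * B * M ^ j ≤ (D * B) ^ j * M ^ j := by
          gcongr
          exact le_self_pow₀ hDB (by omega)
      _ = (D * (B * M)) ^ j := by rw [← mul_pow, mul_assoc]
      _ < x ^ j := pow_lt_pow_left₀ hx (by positivity) (by omega)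
  rw [lt_div_iff₀ (by linarith)]
  calc b * x ^ (r - j) * D ≤ B * M ^ j * x ^ (r - j) * D := by gcongr
    _ = D * B * M ^ j * x ^ (r - j) := by ring
    _ < x ^ j * x ^ (r - j) := by gcongr
    _ = x ^ r := by rw [← pow_add, Nat.add_sub_cancel' hjr]

lemma root_arch (v : AbsoluteValue K ℝ) {r : ℕ} (hr : 1 ≤ r) (x : K) (b : ℕ → K) {B M : ℝ}
    (hB : 1 ≤ B) (hM : 0 ≤ M) (hb : ∀ j ∈ Finset.Icc 1 r, v (b j) ≤ B * M ^ j)
    (h : x ^ r + ∑ j ∈ Finset.Icc 1 r, b j * x ^ (r - j) = 0) : v x ≤ r * (B * M) := by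
  by_contra hlt
  push Not at hlt
  have hr1 : (1 : ℝ) ≤ r := by exact_mod_cast hr
  have h1 : v x ^ r ≤ ∑ j ∈ Finset.Icc 1 r, v (b j) * v x ^ (r - j) := by
    have h2 : x ^ r = - ∑ j ∈ Finset.Icc 1 r, b j * x ^ (r - j) := eq_neg_of_add_eq_zero_left h
    calc v x ^ r = v (∑ j ∈ Finset.Icc 1 r, b j * x ^ (r - j)) := by
          rw [← map_pow, h2, v.map_neg]
      _ ≤ _ := by
        refine (v.sum_le _ _).trans (le_of_eq ?_)
        simp
  have h3 : ∑ j ∈ Finset.Icc 1 r, v (b j) * v x ^ (r - j) <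
      ∑ j ∈ Finset.Icc 1 r, v x ^ r / r := by
    refine Finset.sum_lt_sum_of_nonempty ⟨1, by simp [hr]⟩ fun j hj => ?_
    exact term_lt (Finset.mem_Icc.1 hj).1 (Finset.mem_Icc.1 hj).2 hB hr1 hM (hb j hj) hlt
  rw [Finset.sum_const, Nat.card_Icc, nsmul_eq_mul, Nat.add_sub_cancel] at h3
  have : (r : ℝ) * (v x ^ r / r) = v x ^ r := by field_simp
  linarith

lemma root_nonarch (v : AbsoluteValue K ℝ) (hv : IsNonarchimedean v) {r : ℕ} (hr : 1 ≤ r) (x : K)
    (b : ℕ → K) {B M : ℝ}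
    (hB : 1 ≤ B) (hM : 0 ≤ M) (hb : ∀ j ∈ Finset.Icc 1 r, v (b j) ≤ B * M ^ j)
    (h : x ^ r + ∑ j ∈ Finset.Icc 1 r, b j * x ^ (r - j) = 0) : v x ≤ B * M := by
  by_contra hlt
  push Not at hlt
  have h2 : x ^ r = - ∑ j ∈ Finset.Icc 1 r, b j * x ^ (r - j) := eq_neg_of_add_eq_zero_left h
  obtain ⟨j, hj, hj2⟩ := hv.finset_image_add_of_nonempty (fun j => b j * x ^ (r - j))
    (t := Finset.Icc 1 r) ⟨1, by simp [hr]⟩
  have h1 : v x ^ r ≤ v (b j) * v x ^ (r - j) := by
    calc v x ^ r = v (∑ j ∈ Finset.Icc 1 r, b j * x ^ (r - j)) := by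
          rw [← map_pow, h2, v.map_neg]
      _ ≤ _ := by simpa using hj2
  have h3 := term_lt (D := 1) (Finset.mem_Icc.1 hj).1 (Finset.mem_Icc.1 hj).2 hB le_rfl hM
    (hb j hj) (by simpa using hlt)
  simp only [div_one] at h3
  linarith

end Root

/-! ### Integral elements -/

section Int

variable {K : Type} [Field K]

/-- the relation with universal coefficients -/
def RelU {T : Type} [Fintype T] (r : ℕ) (c : (j : ℕ) → (Fin j → T) → K) {A : Type} [CommRing A]
    [Algebra K A] (x : A) (w : T → A) : Prop :=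
  x ^ r + ∑ j ∈ Finset.Icc 1 r, (∑ s : Fin j → T, algebraMap K A (c j s) * ∏ l, w (s l)) *
    x ^ (r - j) = 0

lemma coef_arch {T : Type} [Fintype T] (v : AbsoluteValue K ℝ) (j : ℕ) (c : (Fin j → T) → K)
    (w : T → K) {B : ℝ} (hB : ∀ s, v (c s) ≤ B) (hB0 : 0 ≤ B) :
    v (∑ s, c s * ∏ l, w (s l)) ≤ (Fintype.card T ^ j : ℕ) * B * (⨆ t, v (w t)) ^ j := by
  refine (v.sum_le _ _).trans ?_
  have : ∀ s ∈ (Finset.univ : Finset (Fin j → T)), v (c s * ∏ l, w (s l)) ≤
      B * (⨆ t, v (w t)) ^ j := by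
    intro s _
    rw [map_mul, map_prod]
    have h1 : ∏ l, v (w (s l)) ≤ (⨆ t, v (w t)) ^ j := by
      calc ∏ l, v (w (s l)) ≤ ∏ _l : Fin j, (⨆ t, v (w t)) := by
            refine Finset.prod_le_prod (fun l _ => v.nonneg _) fun l _ => ?_
            exact Finite.le_ciSup_of_le (s l) le_rfl
        _ = _ := by simp
    exact mul_le_mul (hB s) h1 (Finset.prod_nonneg fun l _ => v.nonneg _) hB0
  refine (Finset.sum_le_sum this).trans (le_of_eq ?_)
  rw [Finset.sum_const, Finset.card_univ, nsmul_eq_mul, mul_assoc]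
  simp

lemma coef_nonarch {T : Type} [Fintype T] (v : AbsoluteValue K ℝ) (hv : IsNonarchimedean v)
    (j : ℕ) (c : (Fin j → T) → K) (w : T → K) {B : ℝ} (hB : ∀ s, v (c s) ≤ B) (hB0 : 0 ≤ B) :
    v (∑ s, c s * ∏ l, w (s l)) ≤ B * (⨆ t, v (w t)) ^ j := by
  have h0 : 0 ≤ B * (⨆ t, v (w t)) ^ j :=
    mul_nonneg hB0 (pow_nonneg (Real.iSup_nonneg_of_nonnegHomClass v _) _)
  rcases isEmpty_or_nonempty (Fin j → T) with hE | hE
  · simpa using h0
  obtain ⟨s, -, hs⟩ := hv.finset_image_add_of_nonempty (fun s : Fin j → T => c s * ∏ l, w (s l))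
    (t := Finset.univ) Finset.univ_nonempty
  refine hs.trans ?_
  rw [map_mul, map_prod]
  have h1 : ∏ l, v (w (s l)) ≤ (⨆ t, v (w t)) ^ j := by
    calc ∏ l, v (w (s l)) ≤ ∏ _l : Fin j, (⨆ t, v (w t)) := by
          refine Finset.prod_le_prod (fun l _ => v.nonneg _) fun l _ => ?_
          exact Finite.le_ciSup_of_le (s l) le_rfl
      _ = _ := by simp
  exact mul_le_mul (hB s) h1 (Finset.prod_nonneg fun l _ => v.nonneg _) hB0

/-- integral elements are bounded in height -/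
lemma height_rel [AdmissibleAbsValues K] {ι T : Type} [Fintype ι] [Fintype T] (r : ι → ℕ)
    (hr : ∀ i, 1 ≤ r i) (c : (i : ι) → (j : ℕ) → (Fin j → T) → K) :
    ∃ C : ℝ, 1 ≤ C ∧ ∀ (x : ι → K) (w : T → K), x ≠ 0 → (∀ i, RelU (r i) (c i) (x i) w) →
      w ≠ 0 ∧ mulHeight x ≤ C * mulHeight w := by
  classical
  let κ := Option (Σ i : ι, Σ j : Fin (r i + 1), (Fin (j : ℕ) → T))
  let c' : κ → K := fun o => o.elim 1 fun p => c p.1 (p.2.1 : ℕ) p.2.2
  have hc' : c' ≠ 0 := Function.ne_iff.2 ⟨none, by simp [c']⟩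
  let D : ℝ := ∑ i : ι, (r i : ℝ) * ((Fintype.card T + 1 : ℕ) ^ (r i) : ℕ) + 1
  have hD : 1 ≤ D := by
    have : 0 ≤ ∑ i : ι, (r i : ℝ) * ((Fintype.card T + 1 : ℕ) ^ (r i) : ℕ) := by positivity
    simp only [D]; linarith
  have hDi : ∀ i, (r i : ℝ) * ((Fintype.card T + 1 : ℕ) ^ (r i) : ℕ) ≤ D := by
    intro i
    have : (r i : ℝ) * ((Fintype.card T + 1 : ℕ) ^ (r i) : ℕ) ≤
        ∑ i : ι, (r i : ℝ) * ((Fintype.card T + 1 : ℕ) ^ (r i) : ℕ) :=
      Finset.single_le_sum (f := fun i => (r i : ℝ) * ((Fintype.card T + 1 : ℕ) ^ (r i) : ℕ))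
        (fun i _ => by positivity) (Finset.mem_univ i)
    simp only [D]; linarith
  obtain ⟨C, hC, h⟩ := height_le c' hc' D hD
  refine ⟨C, hC, fun x w hx hrel => ?_⟩
  have hcv : ∀ v : AbsoluteValue K ℝ, 1 ≤ ⨆ s, v (c' s) := fun v =>
    Finite.le_ciSup_of_le none (by simp [c'])
  have hcs : ∀ v : AbsoluteValue K ℝ, ∀ i, ∀ j ∈ Finset.Icc 1 (r i), ∀ s : Fin j → T,
      v (c i j s) ≤ ⨆ s, v (c' s) := by
    intro v i j hj s
    have hj' : j < r i + 1 := by have := (Finset.mem_Icc.1 hj).2; omega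
    exact Finite.le_ciSup_of_le (some ⟨i, ⟨j, hj'⟩, s⟩) (by simp [c'])
  have hw : w ≠ 0 := by
    rintro rfl
    apply hx
    funext i
    have h1 := hrel i
    unfold RelU at h1
    have h2 : ∑ j ∈ Finset.Icc 1 (r i), (∑ s : Fin j → T, algebraMap K K (c i j s) *
        ∏ l, (0 : T → K) (s l)) * x i ^ (r i - j) = 0 := by
      refine Finset.sum_eq_zero fun j hj => ?_
      have hj0 : j ≠ 0 := by have := (Finset.mem_Icc.1 hj).1; omega
      simp [hj0]
    rw [h2, add_zero] at h1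
    exact pow_eq_zero_iff (by have := hr i; omega) |>.1 h1
  refine ⟨hw, h ι T x w hx hw ?_ ?_⟩
  · intro v hv i
    have hM : 0 ≤ ⨆ t, v (w t) := Real.iSup_nonneg_of_nonnegHomClass v _
    have h1 := root_arch v (hr i) (x i)
      (fun j => ∑ s : Fin j → T, algebraMap K K (c i j s) * ∏ l, w (s l))
      (B := ((Fintype.card T + 1 : ℕ) ^ (r i) : ℕ) * ⨆ s, v (c' s)) (M := ⨆ t, v (w t))
      (one_le_mul_of_one_le_of_one_le (by exact_mod_cast Nat.one_le_pow _ _ (by omega)) (hcv v))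
      hM ?_ (hrel i)
    · refine h1.trans ?_
      calc (r i : ℝ) * (((Fintype.card T + 1 : ℕ) ^ (r i) : ℕ) * (⨆ s, v (c' s)) * ⨆ t, v (w t)) =
          ((r i : ℝ) * ((Fintype.card T + 1 : ℕ) ^ (r i) : ℕ)) *
            ((⨆ s, v (c' s)) * ⨆ t, v (w t)) := by ring
        _ ≤ D * ((⨆ s, v (c' s)) * ⨆ t, v (w t)) := by
          gcongr
          · exact mul_nonneg (by linarith [hcv v]) hM
          · exact hDi i
    · intro j hj
      have hB0 : 0 ≤ ⨆ s, v (c' s) := by linarith [hcv v]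
      refine (coef_arch v j (fun s => algebraMap K K (c i j s)) w (B := ⨆ s, v (c' s))
        (fun s => hcs v i j hj s) hB0).trans ?_
      have hnat : Fintype.card T ^ j ≤ (Fintype.card T + 1) ^ r i :=
        calc Fintype.card T ^ j ≤ (Fintype.card T + 1) ^ j := Nat.pow_le_pow_left (by omega) j
          _ ≤ (Fintype.card T + 1) ^ r i := Nat.pow_le_pow_right (by omega) (Finset.mem_Icc.1 hj).2
      have hnat' : ((Fintype.card T ^ j : ℕ) : ℝ) ≤ (((Fintype.card T + 1) ^ r i : ℕ) : ℝ) := by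
        exact_mod_cast hnat
      exact mul_le_mul_of_nonneg_right (mul_le_mul_of_nonneg_right hnat' hB0) (pow_nonneg hM j)
  · intro v hv i
    have hna := isNonarchimedean v hv
    have hM : 0 ≤ ⨆ t, v (w t) := Real.iSup_nonneg_of_nonnegHomClass v _
    refine root_nonarch v hna (hr i) (x i)
      (fun j => ∑ s : Fin j → T, algebraMap K K (c i j s) * ∏ l, w (s l)) (hcv v) hM ?_ (hrel i)
    intro j hj
    exact coef_nonarch v hna j (fun s => algebraMap K K (c i j s)) w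
        (fun s => hcs v i j hj s) (by linarith [hcv v])

/-- products of `m` elements of the first and `k` elements of the second family -/
def prd {J I A : Type} [CommRing A] (m k : ℕ) (P : J → A) (L : I → A)
    (t : (Fin m → J) × (Fin k → I)) : A :=
  (∏ i, P (t.1 i)) * ∏ i, L (t.2 i)

lemma span_pow_range {A : Type} [CommRing A] [Algebra K A] {T : Type} (w : T → A) (j : ℕ) :
    Submodule.span K (Set.range w) ^ j =
      Submodule.span K (Set.range fun s : Fin j → T => ∏ l, w (s l)) := by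
  rw [Submodule.span_pow]
  congr 1
  ext a
  rw [Set.mem_pow]
  constructor
  · rintro ⟨f, rfl⟩
    have h : ∀ i, ∃ t, w t = (f i : A) := fun i => (f i).2
    choose s hs using h
    refine ⟨s, ?_⟩
    simp only [hs]
    rw [List.prod_ofFn]
  · rintro ⟨s, rfl⟩
    refine ⟨fun i => ⟨w (s i), s i, rfl⟩, ?_⟩
    rw [List.prod_ofFn]

lemma span_prd {A : Type} [CommRing A] [Algebra K A] {J I : Type} (m k : ℕ) (P : J → A)
    (L : I → A) : Submodule.span K (Set.range P) ^ m * Submodule.span K (Set.range L) ^ k =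
      Submodule.span K (Set.range (prd m k P L)) := by
  rw [span_pow_range, span_pow_range, Submodule.span_mul_span]
  congr 1
  ext a
  rw [Set.mem_mul]
  constructor
  · rintro ⟨_, ⟨s, rfl⟩, _, ⟨t, rfl⟩, rfl⟩
    exact ⟨(s, t), rfl⟩
  · rintro ⟨⟨s, t⟩, rfl⟩
    exact ⟨_, ⟨s, rfl⟩, _, ⟨t, rfl⟩, rfl⟩

lemma exists_rel {A : Type} [CommRing A] [Algebra K A] {T : Type} [Fintype T] (w : T → A) (x : A)
    (h : IntegralOver (Submodule.span K (Set.range w)) x) :
    ∃ (r : ℕ) (c : (j : ℕ) → (Fin j → T) → K), 1 ≤ r ∧ RelU r c x w := by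
  obtain ⟨r, a, hr, ha, h⟩ := h
  have h1 : ∀ j, ∃ c : (Fin j → T) → K, ∑ s, c s • ∏ l, w (s l) = a j := by
    intro j
    have := ha j
    rw [span_pow_range] at this
    exact (Submodule.mem_span_range_iff_exists_fun K).1 this
  choose c hc using h1
  refine ⟨r, c, hr, ?_⟩
  unfold RelU
  rw [← h]
  congr 1
  refine Finset.sum_congr rfl fun j _ => ?_
  rw [← hc j]
  simp only [Algebra.smul_def]

end Int

/-! ### Heights of products -/

section Heights

variable {K : Type} [Field K] [AdmissibleAbsValues K]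

lemma mulHeight_prd {J I : Type} [Finite J] [Finite I] (m k : ℕ) (P : J → K) (L : I → K)
    (h : prd m k P L ≠ 0) :
    mulHeight (prd m k P L) = mulHeight P ^ m * mulHeight L ^ k := by
  obtain ⟨t, ht⟩ := Function.ne_iff.1 h
  have ht' : (∏ i, P (t.1 i)) * ∏ i, L (t.2 i) ≠ 0 := ht
  have hP : ∀ _ : Fin m, P ≠ 0 := by
    intro i hP
    apply left_ne_zero_of_mul ht'
    exact Finset.prod_eq_zero (Finset.mem_univ i) (by rw [hP]; rfl)
  have hL : ∀ _ : Fin k, L ≠ 0 := by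
    intro i hL
    apply right_ne_zero_of_mul ht'
    exact Finset.prod_eq_zero (Finset.mem_univ i) (by rw [hL]; rfl)
  have h1 : (fun s : Fin m → J => ∏ i, P (s i)) ≠ 0 :=
    Function.ne_iff.2 ⟨t.1, left_ne_zero_of_mul ht'⟩
  have h2 : (fun s : Fin k → I => ∏ i, L (s i)) ≠ 0 :=
    Function.ne_iff.2 ⟨t.2, right_ne_zero_of_mul ht'⟩
  have e := mulHeight_fun_mul_eq h1 h2
  have e1 := mulHeight_fun_prod_eq (x := fun _ : Fin m => P) hP
  have e2 := mulHeight_fun_prod_eq (x := fun _ : Fin k => L) hL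
  have e0 : (fun a : (Fin m → J) × (Fin k → I) => (∏ i, P (a.1 i)) * ∏ i, L (a.2 i)) =
      prd m k P L := rfl
  rw [e0] at e
  rw [e, e1, e2]
  simp

end Heights

/-! ### Polynomial versions of `orb` and `plk` -/

section Poly

variable {K : Type} [Field K] {N d : ℕ}

/-- the entries of `X v₀` for the generic matrix `X` -/
noncomputable def orbP (v₀ : Fin N → K) (i : Fin N) : MvPolynomial (Fin N × Fin N) K :=
  ∑ j, X (i, j) * C (v₀ j)

lemma ev_orbP (v₀ : Fin N → K) (i : Fin N) {F : Type} [Field F] [Algebra K F]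
    (g : Matrix (Fin N) (Fin N) F) : ev (orbP v₀ i) g = orb v₀ g i := by
  simp [ev, orbP, orb, Matrix.mulVec, dotProduct]

/-- the Plücker coordinates of the generic matrix -/
noncomputable def plkP (ξ : Fin d → Matrix (Fin N) (Fin N) K) (v₀ : Fin N → K)
    (J : Fin (d + 1) → Fin N) : MvPolynomial (Fin N × Fin N) K :=
  Matrix.det (Matrix.of fun a b : Fin (d + 1) =>
    Fin.cases (motive := fun _ => MvPolynomial (Fin N × Fin N) K) (orbP v₀ (J a))
      (fun c : Fin d => ∑ l, C (ξ c (J a) l) * orbP v₀ l) b)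

lemma ev_plkP (ξ : Fin d → Matrix (Fin N) (Fin N) K) (v₀ : Fin N → K) (J : Fin (d + 1) → Fin N)
    {F : Type} [Field F] [Algebra K F] (g : Matrix (Fin N) (Fin N) F) :
    ev (plkP ξ v₀ J) g = plk ξ (orb v₀ g) J := by
  unfold ev plkP plk
  rw [AlgHom.map_det]
  congr 1
  ext a b
  refine Fin.cases ?_ (fun c => ?_) b
  · simp only [AlgHom.mapMatrix_apply, Matrix.map_apply, Matrix.of_apply, Fin.cases_zero]
    exact ev_orbP v₀ (J a) g
  · simp only [AlgHom.mapMatrix_apply, Matrix.map_apply, Matrix.of_apply, Fin.cases_succ]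
    simp only [map_sum, map_mul, Matrix.mulVec, dotProduct, Matrix.map_apply]
    refine Finset.sum_congr rfl fun l _ => ?_
    congr 1
    · simp
    · exact ev_orbP v₀ l g

end Poly

end Eff

open Eff in
theorem eff_proof : Stmt_Eff := by
  intro K _ _ N d a I ξ φ v₀ L Q m k hφ hv₀ hI hint
  -- the generic elements
  let xP : Fin N → MvPolynomial (Fin N × Fin N) K := fun i => Q * orbP v₀ i ^ (m * (d + 1))
  let wP : (Fin m → (Fin (d + 1) → Fin N)) × (Fin k → Fin a) →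
      MvPolynomial (Fin N × Fin N) K := prd m k (plkP ξ v₀) L
  have hwev : ∀ (F : Type) [Field F] [Algebra K F] (g : Matrix (Fin N) (Fin N) F)
      (t : (Fin m → (Fin (d + 1) → Fin N)) × (Fin k → Fin a)), ev (wP t) g =
      prd m k (plk ξ (orb v₀ g)) (fun j => ev (L j) g) t := by
    intro F _ _ g t
    simp only [wP, prd]
    rw [← funext (f := fun J => ev (plkP ξ v₀ J) g) (fun J => ev_plkP ξ v₀ J g)]
    simp [ev]
  have hxev : ∀ (F : Type) [Field F] [Algebra K F] (g : Matrix (Fin N) (Fin N) F) (i : Fin N),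
      ev (xP i) g = ev Q g * orb v₀ g i ^ (m * (d + 1)) := by
    intro F _ _ g i
    simp only [xP]
    rw [← ev_orbP v₀ i g]
    simp [ev]
  -- relations
  have hrel : ∀ i, ∃ (r : ℕ) (c : (j : ℕ) → (Fin j →
      (Fin m → (Fin (d + 1) → Fin N)) × (Fin k → Fin a)) → K), 1 ≤ r ∧
      RelU r c (ev Q φ * orb v₀ φ i ^ (m * (d + 1)))
        (prd m k (plk ξ (orb v₀ φ)) (fun j => ev (L j) φ)) := by
    intro i
    have := hint i
    rw [span_prd] at this
    exact exists_rel _ _ this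
  choose r c hr hc using hrel
  -- specialise
  have hspec : ∀ γ : Matrix (Fin N) (Fin N) K, γ ∈ pts I K → ∀ i,
      RelU (r i) (c i) (ev Q γ * orb v₀ γ i ^ (m * (d + 1)))
        (prd m k (plk ξ (orb v₀ γ)) (fun j => ev (L j) γ)) := by
    intro γ hγ i
    let p : MvPolynomial (Fin N × Fin N) K := xP i ^ r i + ∑ j ∈ Finset.Icc 1 (r i),
      (∑ s, C (c i j s) * ∏ l, wP (s l)) * xP i ^ (r i - j)
    have hp : ∀ (F : Type) [Field F] [Algebra K F] (g : Matrix (Fin N) (Fin N) F), ev p g =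
        ev (xP i) g ^ r i + ∑ j ∈ Finset.Icc 1 (r i),
      (∑ s, algebraMap K F (c i j s) * ∏ l, ev (wP (s l)) g) * ev (xP i) g ^ (r i - j) := by
      intro F _ _ g
      simp [p, ev]
    have h0 : ev p φ = 0 := by
      rw [hp]
      have := hc i
      unfold RelU at this
      rw [← this]
      simp only [hwev, hxev]
    have h1 := hφ.dense p h0 K γ hγ
    rw [hp] at h1
    unfold RelU
    rw [← h1]
    simp only [hwev, hxev]
  obtain ⟨C, hC, h⟩ := height_rel r hr c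
  refine ⟨C, hC, fun γ hγ hQ => ?_⟩
  have horb : orb v₀ γ ≠ 0 := by
    intro h0
    have hdet := hI.det K γ hγ
    have h1 : γ.adjugate.mulVec (γ.mulVec fun i => algebraMap K K (v₀ i)) = 0 := by
      have : (γ.mulVec fun i => algebraMap K K (v₀ i)) = 0 := h0
      rw [this, Matrix.mulVec_zero]
    rw [Matrix.mulVec_mulVec, Matrix.adjugate_mul, hdet, one_smul, Matrix.one_mulVec] at h1
    exact hv₀ (funext fun i => by simpa using congrFun h1 i)
  have hx0 : (fun i => ev Q γ * orb v₀ γ i ^ (m * (d + 1))) ≠ 0 := by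
    obtain ⟨i, hi⟩ := Function.ne_iff.1 horb
    exact Function.ne_iff.2 ⟨i, mul_ne_zero hQ (pow_ne_zero _ hi)⟩
  obtain ⟨hw, hle⟩ := h _ _ hx0 (hspec γ hγ)
  rw [mulHeight_prd _ _ _ _ hw] at hle
  have e1 : (fun i => ev Q γ * orb v₀ γ i ^ (m * (d + 1))) =
      ev Q γ • (orb v₀ γ ^ (m * (d + 1))) := by
    funext i; simp
  rw [e1, mulHeight_smul_eq_mulHeight _ hQ, mulHeight_pow] at hle
  calc _ ≤ _ := hle
    _ = _ := by ring

end Pool.GC
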