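import Mathlib
import Pool.Agent.GC.Stmts

set_option autoImplicit false

namespace Pool.GC

open MvPolynomial

namespace GeoX

variable {K : Type} [Field K] {N d : ℕ}

/-! ### Clearing denominators -/

/-- `f` is a rational function with denominator a power of `δ`, on all fields -/
def Clear (δ : MvPolynomial (Fin d) K)
    (f : ∀ (F : Type) [Field F] [Algebra K F], (MvPolynomial (Fin d) K →ₐ[K] F) → F) : Prop :=
  ∃ (q : MvPolynomial (Fin d) K) (n : ℕ), ∀ (F : Type) [Field F] [Algebra K F]
    (ψ : MvPolynomial (Fin d) K →ₐ[K] F), ψ δ ≠ 0 → f F ψ = ψ q / ψ δ ^ n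

theorem Clear.const (δ : MvPolynomial (Fin d) K) (q : MvPolynomial (Fin d) K) :
    Clear δ (fun _ _ _ ψ => ψ q) :=
  ⟨q, 0, fun F _ _ ψ _ => by simp⟩

theorem Clear.frac (δ : MvPolynomial (Fin d) K) (q : MvPolynomial (Fin d) K) :
    Clear δ (fun _ _ _ ψ => ψ q / ψ δ) :=
  ⟨q, 1, fun F _ _ ψ _ => by simp⟩

theorem Clear.add {δ : MvPolynomial (Fin d) K}
    {f g : ∀ (F : Type) [Field F] [Algebra K F], (MvPolynomial (Fin d) K →ₐ[K] F) → F}
    (hf : Clear δ f) (hg : Clear δ g) : Clear δ (fun F _ _ ψ => f F ψ + g F ψ) := by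
  obtain ⟨q, n, h⟩ := hf
  obtain ⟨q', n', h'⟩ := hg
  refine ⟨q * δ ^ n' + q' * δ ^ n, n + n', fun F _ _ ψ hψ => ?_⟩
  change f F ψ + g F ψ = _
  rw [h F ψ hψ, h' F ψ hψ]
  simp only [map_add, map_mul, map_pow]
  field_simp
  ring

theorem Clear.mul {δ : MvPolynomial (Fin d) K}
    {f g : ∀ (F : Type) [Field F] [Algebra K F], (MvPolynomial (Fin d) K →ₐ[K] F) → F}
    (hf : Clear δ f) (hg : Clear δ g) : Clear δ (fun F _ _ ψ => f F ψ * g F ψ) := by
  obtain ⟨q, n, h⟩ := hf
  obtain ⟨q', n', h'⟩ := hg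
  refine ⟨q * q', n + n', fun F _ _ ψ hψ => ?_⟩
  change f F ψ * g F ψ = _
  rw [h F ψ hψ, h' F ψ hψ]
  simp only [map_mul]
  field_simp
  ring

theorem Clear.pow {δ : MvPolynomial (Fin d) K}
    {f : ∀ (F : Type) [Field F] [Algebra K F], (MvPolynomial (Fin d) K →ₐ[K] F) → F}
    (hf : Clear δ f) (m : ℕ) : Clear δ (fun F _ _ ψ => f F ψ ^ m) := by
  induction m with
  | zero => simpa using Clear.const δ 1
  | succ m ih => simpa only [pow_succ] using ih.mul hf

theorem Clear.sum {δ : MvPolynomial (Fin d) K} {ι : Type} (s : Finset ι)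
    {f : ι → ∀ (F : Type) [Field F] [Algebra K F], (MvPolynomial (Fin d) K →ₐ[K] F) → F}
    (hf : ∀ i ∈ s, Clear δ (f i)) : Clear δ (fun F _ _ ψ => ∑ i ∈ s, f i F ψ) := by
  classical
  induction s using Finset.induction_on with
  | empty => simpa using Clear.const δ 0
  | insert a s ha ih =>
    simp only [Finset.sum_insert ha]
    exact (hf a (Finset.mem_insert_self a s)).add (ih fun i hi => hf i (Finset.mem_insert_of_mem hi))

/-- `ψ(φ)` as a matrix -/
noncomputable def psi (Φ : Matrix (Fin N) (Fin N) (MvPolynomial (Fin d) K))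
    (δ : MvPolynomial (Fin d) K) {F : Type} [Field F] [Algebra K F]
    (ψ : MvPolynomial (Fin d) K →ₐ[K] F) : Matrix (Fin N) (Fin N) F :=
  Matrix.of fun i j => ψ (Φ i j) / ψ δ

theorem Clear.ev (Φ : Matrix (Fin N) (Fin N) (MvPolynomial (Fin d) K))
    (δ : MvPolynomial (Fin d) K) (p : MvPolynomial (Fin N × Fin N) K) :
    Clear δ (fun _ _ _ ψ => ev p (psi Φ δ ψ)) := by
  induction p using MvPolynomial.induction_on with
  | C c =>
    refine ⟨C c, 0, fun F _ _ ψ _ => ?_⟩
    simp only [Pool.GC.ev, aeval_C, pow_zero, div_one]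
    rw [← MvPolynomial.algebraMap_eq, AlgHom.commutes]
  | add p q hp hq =>
    simpa only [Pool.GC.ev, map_add] using hp.add hq
  | mul_X p s hp =>
    have := hp.mul (Clear.frac δ (Φ s.1 s.2))
    simp only [Pool.GC.ev, map_mul, aeval_X] at this ⊢
    exact this

/-- If a function vanishes on `RF` it vanishes on all fields. -/
theorem Clear.zero {δ : MvPolynomial (Fin d) K}
    {f : ∀ (F : Type) [Field F] [Algebra K F], (MvPolynomial (Fin d) K →ₐ[K] F) → F}
    (hf : Clear δ f) (hδ : δ ≠ 0)
    (h0 : f (RF K d) (IsScalarTower.toAlgHom K (MvPolynomial (Fin d) K) (RF K d)) = 0)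
    (F : Type) [Field F] [Algebra K F] (ψ : MvPolynomial (Fin d) K →ₐ[K] F) (hψ : ψ δ ≠ 0) :
    f F ψ = 0 := by
  obtain ⟨q, n, h⟩ := hf
  have hinj : Function.Injective (algebraMap (MvPolynomial (Fin d) K) (RF K d)) :=
    IsFractionRing.injective _ _
  have hδ' : algebraMap (MvPolynomial (Fin d) K) (RF K d) δ ≠ 0 := by
    rwa [Ne, map_eq_zero_iff _ hinj]
  rw [h _ _ (by simpa using hδ')] at h0
  simp only [IsScalarTower.coe_toAlgHom', div_eq_zero_iff, pow_eq_zero_iff', hδ', false_and,
    or_false] at h0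
  rw [map_eq_zero_iff _ hinj] at h0
  rw [h F ψ hψ, h0, map_zero, zero_div]

/-- If a function does not vanish on `RF` there is a polynomial `q` with `f ≠ 0` where `q ≠ 0`. -/
theorem Clear.ne {δ : MvPolynomial (Fin d) K}
    {f : ∀ (F : Type) [Field F] [Algebra K F], (MvPolynomial (Fin d) K →ₐ[K] F) → F}
    (hf : Clear δ f) (hδ : δ ≠ 0)
    (h0 : f (RF K d) (IsScalarTower.toAlgHom K (MvPolynomial (Fin d) K) (RF K d)) ≠ 0) :
    ∃ q : MvPolynomial (Fin d) K, q ≠ 0 ∧ ∀ (F : Type) [Field F] [Algebra K F]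
      (ψ : MvPolynomial (Fin d) K →ₐ[K] F), ψ δ ≠ 0 → ψ q ≠ 0 → f F ψ ≠ 0 := by
  obtain ⟨q, n, h⟩ := hf
  have hinj : Function.Injective (algebraMap (MvPolynomial (Fin d) K) (RF K d)) :=
    IsFractionRing.injective _ _
  have hδ' : algebraMap (MvPolynomial (Fin d) K) (RF K d) δ ≠ 0 := by
    rwa [Ne, map_eq_zero_iff _ hinj]
  refine ⟨q, ?_, fun F _ _ ψ hψ hq => ?_⟩
  · rintro rfl
    apply h0
    rw [h _ _ (by simpa using hδ'), map_zero, zero_div]
  · rw [h F ψ hψ]
    exact div_ne_zero hq (pow_ne_zero _ hψ)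

/-! ### Algebraic relations -/

theorem exists_rel {σ E : Type} [Field E] [Algebra K E] (φ : σ → E) (x : E)
    (hx : IsAlgebraic (IntermediateField.adjoin K (Set.range φ)) x) :
    ∃ (n : ℕ) (A : ℕ → MvPolynomial σ K), (∃ i ≤ n, aeval φ (A i) ≠ 0) ∧
      ∑ i ∈ Finset.range (n + 1), aeval φ (A i) * x ^ i = 0 := by
  have hx' : IsAlgebraic (Algebra.adjoin K (Set.range φ)) x := by
    open scoped IntermediateField.algebraAdjoinAdjoin in
    exact (IsFractionRing.isAlgebraic_iff (Algebra.adjoin K (Set.range φ))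
      (IntermediateField.adjoin K (Set.range φ)) E).2 hx
  obtain ⟨p, hp, hpx⟩ := hx'
  have h1 : ∀ i, ∃ A : MvPolynomial σ K, aeval φ A = ((p.coeff i : Algebra.adjoin K (Set.range φ)) : E) := by
    intro i
    have h2 : ∀ z ∈ Algebra.adjoin K (Set.range φ), ∃ A : MvPolynomial σ K, aeval φ A = z := by
      intro z hz
      rw [Algebra.adjoin_range_eq_range_aeval] at hz
      exact hz
    exact h2 _ (p.coeff i).2
  choose A hA using h1
  refine ⟨p.natDegree, A, ⟨p.natDegree, le_rfl, ?_⟩, ?_⟩
  · rw [hA]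
    intro h
    apply hp
    rw [← Polynomial.leadingCoeff_eq_zero]
    exact Subtype.ext h
  · rw [Polynomial.aeval_eq_sum_range] at hpx
    rw [← hpx]
    refine Finset.sum_congr rfl fun i _ => ?_
    rw [hA, Algebra.smul_def]
    rfl

theorem card_roots_le {F : Type} [Field F] {n : ℕ} (a : ℕ → F) (hi : ∃ i ≤ n, a i ≠ 0) :
    ∃ R : Finset F, R.card ≤ n ∧ ∀ x : F, ∑ i ∈ Finset.range (n + 1), a i * x ^ i = 0 → x ∈ R := by
  classical
  let Q : Polynomial F := ∑ i ∈ Finset.range (n + 1), Polynomial.C (a i) * Polynomial.X ^ i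
  have hc : ∀ i ≤ n, Q.coeff i = a i := by
    intro i hi
    simp only [Q, Polynomial.finsetSum_coeff, Polynomial.coeff_C_mul_X_pow]
    rw [Finset.sum_eq_single i]
    · simp
    · intro j _ hj
      rw [if_neg (Ne.symm hj)]
    · intro h
      exact absurd (Finset.mem_range.2 (Nat.lt_succ_of_le hi)) h
  have hQ : Q ≠ 0 := by
    obtain ⟨i, hi, hne⟩ := hi
    intro h
    apply hne
    rw [← hc i hi, h, Polynomial.coeff_zero]
  refine ⟨Q.roots.toFinset, ?_, ?_⟩
  · refine (Multiset.toFinset_card_le _).trans ((Polynomial.card_roots' Q).trans ?_)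
    refine Polynomial.natDegree_sum_le_of_forall_le _ _ fun i hi => ?_
    exact (Polynomial.natDegree_C_mul_X_pow_le _ _).trans (Nat.lt_succ_iff.1 (Finset.mem_range.1 hi))
  · intro x hx
    rw [Multiset.mem_toFinset, Polynomial.mem_roots hQ, Polynomial.IsRoot.def]
    simp only [Q, Polynomial.eval_finsetSum, Polynomial.eval_mul, Polynomial.eval_C,
      Polynomial.eval_pow, Polynomial.eval_X]
    exact hx

/-! ### Derivations -/

theorem derivation_ev {E : Type} [Field E] [Algebra K E] (D : Derivation K E E)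
    (p : MvPolynomial (Fin N × Fin N) K) (g : Matrix (Fin N) (Fin N) E) :
    D (Pool.GC.ev p g) = ∑ ij : Fin N × Fin N, Pool.GC.ev (pderiv ij p) g * D (g ij.1 ij.2) := by
  induction p using MvPolynomial.induction_on with
  | C c =>
    simp [Pool.GC.ev]
  | add p q hp hq =>
    simp only [Pool.GC.ev, map_add] at hp hq ⊢
    rw [hp, hq]
    simp only [add_mul, Finset.sum_add_distrib]
  | mul_X p s hp =>
    simp only [Pool.GC.ev, map_mul, aeval_X, Derivation.leibniz, pderiv_X, smul_eq_mul, map_add,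
      map_mul] at hp ⊢
    rw [hp]
    have h1 : ∀ x : Fin N × Fin N, (aeval fun ij : Fin N × Fin N => g ij.1 ij.2)
        ((Pi.single x (1 : MvPolynomial (Fin N × Fin N) K) :
          Fin N × Fin N → MvPolynomial (Fin N × Fin N) K) s) =
        (Pi.single s (1 : E) : Fin N × Fin N → E) x := by
      intro x
      by_cases h : x = s
      · subst h; simp
      · rw [Pi.single_eq_of_ne h, Pi.single_eq_of_ne (Ne.symm h), map_zero]
    simp only [h1, add_mul, Finset.sum_add_distrib]
    congr 1
    · simp [Pi.single_apply]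
    · rw [Finset.mul_sum]
      exact Finset.sum_congr rfl fun x _ => by ring

/-! ### Determinants -/

/-- the determinant relation for matrices with columns `w, a_k` and `w, b_c` -/
theorem det_rel {F : Type} [Field F] (w : Fin N → F) (a b : Fin d → Fin N → F) (s : F)
    (t : Fin d → F) (r : Fin d → Fin d → F) (h : ∀ k i, s * a k i = t k * w i + ∑ c, r k c * b c i)
    (J : Fin (d + 1) → Fin N) :
    s ^ d * Matrix.det (Matrix.of fun x y : Fin (d + 1) =>
      Fin.cases (motive := fun _ => F) (w (J x)) (fun k : Fin d => a k (J x)) y) =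
    Matrix.det (Matrix.of r) * Matrix.det (Matrix.of fun x y : Fin (d + 1) =>
      Fin.cases (motive := fun _ => F) (w (J x)) (fun c : Fin d => b c (J x)) y) := by
  classical
  let T : Matrix (Fin (d + 1)) (Fin (d + 1)) F := Matrix.of fun x y =>
    Fin.cases (motive := fun _ => F)
      (Fin.cases (motive := fun _ => F) (1 : F) (fun _ => (0 : F)) x)
      (fun k : Fin d => Fin.cases (motive := fun _ => F) (t k) (fun c => r k c) x) y
  let S : Fin (d + 1) → F := fun y => Fin.cases (motive := fun _ => F) (1 : F) (fun _ => s) y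
  have hT : T.det = Matrix.det (Matrix.of r) := by
    rw [Matrix.det_succ_column_zero, Fin.sum_univ_succ]
    have h0 : ∑ i : Fin d, (-1) ^ (i.succ : ℕ) * T i.succ 0 *
        (T.submatrix i.succ.succAbove Fin.succ).det = 0 := by
      refine Finset.sum_eq_zero fun i _ => ?_
      have : T i.succ 0 = 0 := rfl
      rw [this, mul_zero, zero_mul]
    rw [h0, add_zero]
    have h1 : T 0 0 = 1 := rfl
    rw [h1]
    simp only [Fin.val_zero, pow_zero, one_mul]
    rw [← Matrix.det_transpose]
    rfl
  have hS : ∏ y, S y = s ^ d := by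
    rw [Fin.prod_univ_succ]
    simp [S]
  rw [← hT, ← hS, mul_comm T.det, ← Matrix.det_mul, ← Matrix.det_mul_row]
  congr 1
  ext x y
  rw [Matrix.mul_apply, Fin.sum_univ_succ]
  refine Fin.cases ?_ (fun k => ?_) y
  · simp [S, T]
  · simp only [S, T, Matrix.of_apply, Fin.cases_zero, Fin.cases_succ]
    rw [h]
    congr 1
    · ring
    · exact Finset.sum_congr rfl fun c _ => by ring

end GeoX

open GeoX

theorem geo_proof (hDer : Stmt_Der) (hDalg : Stmt_Dalg) (hLieF : Stmt_LieF) : Stmt_Geo := by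
  classical
  intro K _ _ N d I ξ φ hI hξ hφ
  -- the fraction field
  have hinj : Function.Injective (algebraMap (MvPolynomial (Fin d) K) (RF K d)) :=
    IsFractionRing.injective _ _
  set a := algebraMap (MvPolynomial (Fin d) K) (RF K d) with ha
  -- common denominator of `φ`
  obtain ⟨δ₀, hδ₀⟩ := IsLocalization.exist_integer_multiples_of_finite
    (nonZeroDivisors (MvPolynomial (Fin d) K)) (fun ij : Fin N × Fin N => φ ij.1 ij.2)
  choose Φ₀ hΦ₀ using hδ₀
  set δ : MvPolynomial (Fin d) K := (δ₀ : MvPolynomial (Fin d) K) with hδdef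
  have hδ : δ ≠ 0 := nonZeroDivisors.ne_zero δ₀.2
  have haδ : a δ ≠ 0 := by rwa [Ne, map_eq_zero_iff _ hinj]
  let Φ : Matrix (Fin N) (Fin N) (MvPolynomial (Fin d) K) := Matrix.of fun i j => Φ₀ (i, j)
  have hΦ : ∀ i j, a (Φ i j) = a δ * φ i j := by
    intro i j
    have := hΦ₀ (i, j)
    rw [Algebra.smul_def] at this
    exact this
  have hΦ' : ∀ i j, φ i j = a (Φ i j) / a δ := by
    intro i j
    rw [hΦ, mul_div_cancel_left₀ _ haδ]
  -- the derivations
  obtain ⟨D, hD⟩ := hDer K d
  -- tangent vectors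
  have hM : ∀ k : Fin d, ∃ c : Fin d → RF K d,
      (Matrix.of fun i j => D k (φ i j) : Matrix (Fin N) (Fin N) (RF K d)) * φ.adjugate =
        ∑ b, c b • (ξ b).map (algebraMap K (RF K d)) := by
    intro k
    refine (hLieF K N d I ξ hI hξ (RF K d)).2.1 φ _ hφ.mem fun p hp => ?_
    have h1 := derivation_ev (D k) p φ
    rw [hφ.mem p hp, map_zero] at h1
    exact h1.symm
  choose M hM using hM
  have hM' : ∀ k i j, D k (φ i j) = ∑ b, M k b * ((ξ b).map (algebraMap K (RF K d)) * φ) i j := by
    intro k i j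
    have h1 := congrArg (fun X => X * φ) (hM k)
    simp only [Matrix.mul_assoc, Matrix.adjugate_mul, hI.det _ _ hφ.mem, one_smul,
      Matrix.mul_one] at h1
    have h2 := congrFun (congrFun h1 i) j
    rw [Matrix.of_apply, Matrix.sum_mul, Matrix.sum_apply] at h2
    rw [h2]
    refine Finset.sum_congr rfl fun b _ => ?_
    rw [Matrix.smul_mul, Matrix.smul_apply, smul_eq_mul]
  -- common denominator of `M`
  obtain ⟨β₀, hβ₀⟩ := IsLocalization.exist_integer_multiples_of_finite
    (nonZeroDivisors (MvPolynomial (Fin d) K)) (fun kb : Fin d × Fin d => M kb.1 kb.2)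
  choose α₀ hα₀ using hβ₀
  set β : MvPolynomial (Fin d) K := (β₀ : MvPolynomial (Fin d) K) with hβdef
  have hβ : β ≠ 0 := nonZeroDivisors.ne_zero β₀.2
  have haβ : a β ≠ 0 := by rwa [Ne, map_eq_zero_iff _ hinj]
  let α : Matrix (Fin d) (Fin d) (MvPolynomial (Fin d) K) := Matrix.of fun k b => α₀ (k, b)
  have hα : ∀ k b, a (α k b) = a β * M k b := by
    intro k b
    have := hα₀ (k, b)
    rw [Algebra.smul_def] at this
    exact this
  -- polynomial identity
  have hpoly : ∀ k i j, β * δ * pderiv k (Φ i j) = β * pderiv k δ * Φ i j +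
      ∑ b, δ * α k b * ∑ l, C (ξ b i l) * Φ l j := by
    intro k i j
    apply hinj
    have h1 : D k (a (Φ i j)) = D k (a δ) * φ i j + a δ * D k (φ i j) := by
      rw [hΦ, Derivation.leibniz, smul_eq_mul, smul_eq_mul]
      ring
    rw [hD, hD] at h1
    rw [hM'] at h1
    simp only [map_mul, map_add, map_sum]
    rw [show algebraMap (MvPolynomial (Fin d) K) (RF K d) (pderiv k (Φ i j)) = _ from h1]
    have h2 : ∀ b, (∑ l, a (C (ξ b i l)) * a (Φ l j)) =
        a δ * ((ξ b).map (algebraMap K (RF K d)) * φ) i j := by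
      intro b
      rw [Matrix.mul_apply, Finset.mul_sum]
      refine Finset.sum_congr rfl fun l _ => ?_
      rw [hΦ, Matrix.map_apply]
      have h3 : a (C (ξ b i l)) = algebraMap K (RF K d) (ξ b i l) := by
        rw [← MvPolynomial.algebraMap_eq]
        exact (IsScalarTower.algebraMap_apply K (MvPolynomial (Fin d) K) (RF K d) _).symm
      rw [h3]
      ring
    rw [← ha]
    simp only [h2]
    simp only [hα, hΦ]
    rw [mul_add, Finset.mul_sum, Finset.mul_sum]
    congr 1
    · ring
    · exact Finset.sum_congr rfl fun b _ => by ring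
  -- nonvanishing of the determinant
  have hdet : α.det ≠ 0 := by
    intro h0
    have h1 : (Matrix.of M).det = 0 := by
      have h2 : (Matrix.of fun k b => a β * M k b).det = 0 := by
        have h3 : (Matrix.of fun k b => a β * M k b) = α.map a := by
          ext k b
          rw [Matrix.of_apply, Matrix.map_apply, hα]
        rw [h3, ← RingHom.mapMatrix_apply, ← RingHom.map_det, h0, map_zero]
      have h4 : (Matrix.of fun k b => a β * M k b) = a β • Matrix.of M := by
        ext k b
        rfl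
      rw [h4, Matrix.det_smul] at h2
      exact (mul_eq_zero.1 h2).resolve_left (pow_ne_zero _ haβ)
    obtain ⟨v, hv, hvM⟩ := Matrix.exists_vecMul_eq_zero_iff.2 h1
    apply hv
    let Dv : Derivation K (RF K d) (RF K d) := ∑ k, v k • D k
    have hDv : ∀ x, Dv x = ∑ k, v k * D k x := by
      intro x
      have h8 : ∀ s : Finset (Fin d), (∑ k ∈ s, v k • D k : Derivation K (RF K d) (RF K d)) x =
          ∑ k ∈ s, v k * D k x := by
        intro s
        induction s using Finset.induction_on with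
        | empty => simp
        | insert k s hk ih =>
          rw [Finset.sum_insert hk, Finset.sum_insert hk, Derivation.add_apply, ih,
            Derivation.smul_apply, smul_eq_mul]
      exact h8 _
    have h5 : ∀ s ∈ Set.range (fun ij : Fin N × Fin N => φ ij.1 ij.2), Dv s = 0 := by
      rintro _ ⟨ij, rfl⟩
      rw [hDv]
      simp only [hM', Finset.mul_sum]
      rw [Finset.sum_comm]
      refine Finset.sum_eq_zero fun b _ => ?_
      have h6 := congrFun hvM b
      simp only [Matrix.vecMul, dotProduct, Matrix.of_apply, Pi.zero_apply] at h6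
      calc ∑ k, v k * (M k b * ((ξ b).map (algebraMap K (RF K d)) * φ) ij.1 ij.2)
          = (∑ k, v k * M k b) * ((ξ b).map (algebraMap K (RF K d)) * φ) ij.1 ij.2 := by
            rw [Finset.sum_mul]
            exact Finset.sum_congr rfl fun k _ => by ring
        _ = 0 := by rw [h6, zero_mul]
    ext k
    have h7 := hDalg K (RF K d) Dv _ h5 (a (X k)) (hφ.finite _)
    rw [hDv, Finset.sum_eq_single k] at h7
    · rw [hD, pderiv_X_self, map_one, mul_one] at h7
      exact h7
    · intro l _ hl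
      rw [hD, pderiv_X_of_ne (Ne.symm hl), map_zero, mul_zero]
    · intro h; exact absurd (Finset.mem_univ _) h
  -- algebraic relations for the `y_j`
  have hrel := fun j : Fin d => exists_rel (fun ij : Fin N × Fin N => φ ij.1 ij.2) (a (X j))
    (hφ.finite _)
  choose n A hA hA0 using hrel
  choose i₀ hi₀ hAi₀ using hA
  -- the matrix `φ` as a specialisation
  have hψ : psi Φ δ (IsScalarTower.toAlgHom K (MvPolynomial (Fin d) K) (RF K d)) = φ := by
    ext i j
    simp only [psi, Matrix.of_apply, IsScalarTower.coe_toAlgHom']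
    exact (hΦ' i j).symm
  have hq : ∀ j, ∃ q : MvPolynomial (Fin d) K, q ≠ 0 ∧ ∀ (F : Type) [Field F] [Algebra K F]
      (ψ : MvPolynomial (Fin d) K →ₐ[K] F), ψ δ ≠ 0 → ψ q ≠ 0 →
      ev (A j (i₀ j)) (psi Φ δ ψ) ≠ 0 := by
    intro j
    refine (Clear.ev Φ δ (A j (i₀ j))).ne hδ ?_
    rw [hψ]
    exact hAi₀ j
  choose q hq0 hq using hq
  let m₁ : MvPolynomial (Fin d) K := δ ^ d * α.det
  let m₂ : MvPolynomial (Fin d) K := (β * δ) ^ d
  refine ⟨⟨Φ, δ, δ * m₁ * m₂ * ∏ j, q j, m₁, m₂, ∏ j, n j⟩, ?_, ?_, ?_, ?_, ?_, ?_, ?_, ?_⟩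
  · exact mul_ne_zero (mul_ne_zero (mul_ne_zero hδ (mul_ne_zero (pow_ne_zero _ hδ) hdet))
      (pow_ne_zero _ (mul_ne_zero hβ hδ))) (Finset.prod_ne_zero_iff.2 fun j _ => hq0 j)
  · exact ⟨m₁ * m₂ * ∏ j, q j, by simp only []; ring⟩
  · exact ⟨δ * m₂ * ∏ j, q j, by simp only []; ring⟩
  · exact ⟨δ * m₁ * ∏ j, q j, by simp only []; ring⟩
  · exact hΦ'
  · intro F _ _ y hy p hp
    simp only [map_mul] at hy
    have hδy : aeval y δ ≠ 0 := fun h => hy (by rw [h]; ring)
    refine (Clear.ev Φ δ p).zero hδ ?_ F (aeval y) hδy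
    rw [hψ]
    exact hφ.mem p hp
  · intro F _ _ g
    by_cases hne : ∃ y : Fin d → F, aeval y (δ * m₁ * m₂ * ∏ j, q j) ≠ 0 ∧ phiAt Φ δ y = g
    · obtain ⟨y₀, hy₀, hg⟩ := hne
      have h1 : ∀ j, ∃ i ≤ n j, ev (A j i) g ≠ 0 := by
        intro j
        refine ⟨i₀ j, hi₀ j, ?_⟩
        rw [← hg]
        refine hq j F (aeval y₀) ?_ ?_
        · intro h; apply hy₀; simp only [map_mul]; rw [h]; ring
        · intro h; apply hy₀; simp only [map_mul, map_prod]
          rw [Finset.prod_eq_zero (Finset.mem_univ j) h]; ring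
      have h2 := fun j => card_roots_le (n := n j) (fun i => ev (A j i) g) (h1 j)
      choose R hR hR' using h2
      have hsub : {y : Fin d → F | aeval y (δ * m₁ * m₂ * ∏ j, q j) ≠ 0 ∧ phiAt Φ δ y = g} ⊆
          ((Fintype.piFinset R : Finset (Fin d → F)) : Set (Fin d → F)) := by
        rintro y ⟨hy, hyg⟩
        rw [Finset.mem_coe, Fintype.mem_piFinset]
        intro j
        apply hR'
        have hδy : aeval y δ ≠ 0 := by
          intro h; apply hy; simp only [map_mul]; rw [h]; ring
        have h3 : Clear δ (fun (F : Type) [Field F] [Algebra K F]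
            (ψ : MvPolynomial (Fin d) K →ₐ[K] F) =>
            ∑ i ∈ Finset.range (n j + 1), ev (A j i) (psi Φ δ ψ) * ψ (X j) ^ i) :=
          Clear.sum _ fun i _ => (Clear.ev Φ δ (A j i)).mul ((Clear.const δ (X j)).pow i)
        have h4 := h3.zero hδ (by
          rw [hψ]
          exact hA0 j) F (aeval y) hδy
        rw [← hyg]
        have h5 : aeval y (X j : MvPolynomial (Fin d) K) = y j := aeval_X _ _
        rw [h5] at h4
        exact h4
      refine (Set.encard_le_encard hsub).trans ?_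
      rw [Set.encard_coe_eq_coe_finsetCard, Fintype.card_piFinset]
      exact_mod_cast Finset.prod_le_prod' fun j _ => hR j
    · have : {y : Fin d → F | aeval y (δ * m₁ * m₂ * ∏ j, q j) ≠ 0 ∧ phiAt Φ δ y = g} = ∅ := by
        ext y
        simp only [Set.mem_ofPred_eq, Set.mem_empty_iff_false, iff_false]
        exact fun h => hne ⟨y, h⟩
      change Set.encard {y : Fin d → F | aeval y (δ * m₁ * m₂ * ∏ j, q j) ≠ 0 ∧
        phiAt Φ δ y = g} ≤ _
      rw [this, Set.encard_empty]
      exact zero_le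
  · intro F _ _ y u J
    simp only []
    have h1 : ∀ k i j, aeval y (β * δ) * aeval y (pderiv k (Φ i j)) =
        aeval y (β * pderiv k δ) * aeval y (Φ i j) +
        ∑ b, aeval y (δ * α k b) * ∑ l, algebraMap K F (ξ b i l) * aeval y (Φ l j) := by
      intro k i j
      have := congrArg (aeval y) (hpoly k i j)
      simp only [map_mul, map_add, map_sum, aeval_C] at this ⊢
      exact this
    have h2 := det_rel (d := d) ((phiNum Φ y).mulVec u)
      (fun k => (Matrix.of fun i j => aeval y (pderiv k (Φ i j)) : Matrix (Fin N) (Fin N) F).mulVec u)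
      (fun c => ((ξ c).map (algebraMap K F)).mulVec ((phiNum Φ y).mulVec u))
      (aeval y (β * δ)) (fun k => aeval y (β * pderiv k δ)) (fun k b => aeval y (δ * α k b)) ?_ J
    · have h3 : (Matrix.of fun k b => aeval y (δ * α k b) : Matrix (Fin d) (Fin d) F).det =
          aeval y m₁ := by
        have h4 : (Matrix.of fun k b => aeval y (δ * α k b) : Matrix (Fin d) (Fin d) F) =
            aeval y δ • α.map (aeval y) := by
          ext k b
          simp [Matrix.smul_apply]
        rw [h4, Matrix.det_smul, Fintype.card_fin]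
        simp only [m₁, map_mul, map_pow]
        congr 1
        have := (RingHom.map_det ((aeval y : MvPolynomial (Fin d) K →ₐ[K] F) :
          MvPolynomial (Fin d) K →+* F) α).symm
        exact this
      rw [h3] at h2
      have h5 : aeval y m₂ = aeval y (β * δ) ^ d := by simp only [m₂, map_pow]
      rw [h5]
      exact h2
    · intro k i
      simp only [Matrix.mulVec, dotProduct, Matrix.of_apply, phiNum, Matrix.map_apply]
      rw [Finset.mul_sum]
      have h6 : ∀ j, aeval y (β * δ) * (aeval y (pderiv k (Φ i j)) * u j) =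
          aeval y (β * pderiv k δ) * (aeval y (Φ i j) * u j) +
          ∑ b, aeval y (δ * α k b) * ∑ l, algebraMap K F (ξ b i l) * (aeval y (Φ l j) * u j) := by
        intro j
        rw [← mul_assoc, h1, add_mul, mul_assoc (aeval y (β * pderiv k δ)), Finset.sum_mul]
        congr 1
        refine Finset.sum_congr rfl fun b _ => ?_
        rw [mul_assoc, Finset.sum_mul]
        congr 1
        exact Finset.sum_congr rfl fun l _ => by ring
      rw [Finset.sum_congr rfl fun j _ => h6 j, Finset.sum_add_distrib, ← Finset.mul_sum,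
        Finset.sum_comm]
      congr 1
      refine Finset.sum_congr rfl fun b _ => ?_
      rw [← Finset.mul_sum, Finset.sum_comm]
      congr 1
      refine Finset.sum_congr rfl fun l _ => ?_
      rw [← Finset.mul_sum]

end Pool.GC
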