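import Pool.Agent.GC.Stmts

set_option autoImplicit false

/-!
# Squad GC, module HT
-/

namespace Pool.GC

open MvPolynomial NumberField Height

namespace HtX

section Root

variable {K : Type} [Field K] [NumberField K]

/-- height of a vector of powers -/
theorem mulHeight_powers (m : ℕ) : ∃ C : ℝ, 1 ≤ C ∧ ∀ x : K,
    mulHeight (fun j : Fin (m + 1) => x ^ (j : ℕ)) ≤ C * mulHeight₁ x ^ m := by
  have hp : ∀ j : Fin (m + 1), (X 0 ^ (j : ℕ) * X 1 ^ (m - (j : ℕ)) :
      MvPolynomial (Fin 2) K).IsHomogeneous m := by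
    intro j
    have h1 := (isHomogeneous_X_pow (R := K) (0 : Fin 2) (j : ℕ)).mul
      (isHomogeneous_X_pow (R := K) (1 : Fin 2) (m - (j : ℕ)))
    have h2 : (j : ℕ) + (m - (j : ℕ)) = m := by omega
    rwa [h2] at h1
  refine ⟨max (mulHeightBound fun j : Fin (m + 1) => (X 0 ^ (j : ℕ) * X 1 ^ (m - (j : ℕ)) :
    MvPolynomial (Fin 2) K)) 1, le_max_right _ _, fun x => ?_⟩
  have h := mulHeight_eval_le hp ![x, 1]
  rw [mulHeight₁_eq_mulHeight]
  refine le_trans (le_of_eq ?_) h
  congr 1
  funext j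
  simp

/-- height of a root of a polynomial -/
theorem root_height (n : ℕ) : ∃ C : ℝ, 1 ≤ C ∧ ∀ (A : Fin (n + 1) → K) (x : K),
    A (Fin.last n) ≠ 0 → ∑ k, A k * x ^ (k : ℕ) = 0 → mulHeight₁ x ≤ C * mulHeight A := by
  cases n with
  | zero =>
    refine ⟨1, le_rfl, fun A x hA h => ?_⟩
    simp at h
    exact absurd h hA
  | succ m =>
    obtain ⟨C₁, hC₁, h₁⟩ := mulHeight_powers (K := K) m
    classical
    set B : Fin (m + 2) × (Fin (m + 2) × Fin (m + 1)) → K := fun t =>
      if h : (t.1 : ℕ) < m + 1 then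
        (if t.2.1 = Fin.last (m + 1) ∧ t.2.2 = ⟨t.1, h⟩ then 1 else 0)
      else (if (t.2.1 : ℕ) = t.2.2 then -1 else 0) with hB
    have hB1 : ∀ (i : Fin (m + 2)) (hi : (i : ℕ) < m + 1) (t : Fin (m + 2) × Fin (m + 1)),
        B (i, t) = if t.1 = Fin.last (m + 1) ∧ t.2 = ⟨i, hi⟩ then 1 else 0 := by
      intro i hi t
      rw [hB]
      exact dif_pos hi
    have hB2 : ∀ (i : Fin (m + 2)) (hi : ¬ (i : ℕ) < m + 1) (t : Fin (m + 2) × Fin (m + 1)),
        B (i, t) = if (t.1 : ℕ) = t.2 then -1 else 0 := by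
      intro i hi t
      rw [hB]
      exact dif_neg hi
    clear_value B
    set C₂ : ℝ := (Nat.card (Fin (m + 2) × Fin (m + 1)) : ℝ) ^ totalWeight K * mulHeight B
      with hC₂def
    have hC₂ : 1 ≤ C₂ := by
      have h1 : (1 : ℝ) ≤ (Nat.card (Fin (m + 2) × Fin (m + 1)) : ℝ) ^ totalWeight K :=
        one_le_pow₀ (by exact_mod_cast Nat.card_pos)
      have h2 := one_le_mulHeight B
      rw [hC₂def]
      nlinarith
    refine ⟨C₂ * C₁, by nlinarith, fun A x hA hx => ?_⟩
    set w : Fin (m + 1) → K := fun j => x ^ (j : ℕ) with hw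
    set v : Fin (m + 2) → K := fun j => x ^ (j : ℕ) with hv
    have hA0 : A ≠ 0 := fun h => hA (by rw [h]; rfl)
    have hw0 : w ≠ 0 := fun h => by
      have := congrFun h 0
      simp [hw] at this
    have hlin := mulHeight_linearMap_apply_le B (fun t => A t.1 * w t.2)
    have hsum : (fun j => ∑ i, B (j, i) * ((fun t : Fin (m + 2) × Fin (m + 1) =>
        A t.1 * w t.2) i)) = A (Fin.last (m + 1)) • v := by
      funext i
      rw [Pi.smul_apply, smul_eq_mul, Fintype.sum_prod_type]
      by_cases hi : (i : ℕ) < m + 1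
      · rw [Finset.sum_eq_single (Fin.last (m + 1)) _ (by simp),
          Finset.sum_eq_single (⟨i, hi⟩ : Fin (m + 1)) _ (by simp)]
        · simp [hB1 i hi, hw, hv]
        · intro b _ hb
          simp [hB1 i hi, hb]
        · intro b _ hb
          refine Finset.sum_eq_zero fun c _ => ?_
          simp [hB1 i hi, hb]
      · have hi' : i = Fin.last (m + 1) := by
          apply Fin.ext
          have := i.2
          simp
          omega
        subst hi'
        rw [Fin.sum_univ_castSucc] at hx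
        have hx' : A (Fin.last (m + 1)) * v (Fin.last (m + 1)) =
            -∑ k : Fin (m + 1), A k.castSucc * x ^ ((k.castSucc : Fin (m + 2)) : ℕ) := by
          rw [eq_neg_iff_add_eq_zero, add_comm]
          exact hx
        rw [hx', Fin.sum_univ_castSucc, ← Finset.sum_neg_distrib]
        have hlast : ∑ b : Fin (m + 1), B (Fin.last (m + 1), (Fin.last (m + 1), b)) *
            (A (Fin.last (m + 1)) * w b) = 0 := by
          refine Finset.sum_eq_zero fun b _ => ?_
          have h1 : ¬ (m + 1 = (b : ℕ)) := by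
            have := b.2
            omega
          rw [hB2 _ hi]
          simp [h1]
        simp only
        rw [hlast, add_zero]
        refine Finset.sum_congr rfl fun b _ => ?_
        rw [Finset.sum_eq_single b _ (by simp)]
        · rw [hB2 _ hi]
          simp [hw]
        · intro c _ hc
          have h1 : ¬ ((b : ℕ) = (c : ℕ)) := fun h => hc (Fin.ext h.symm)
          rw [hB2 _ hi]
          simp [h1]
    rw [hsum, mulHeight_smul_eq_mulHeight _ hA, mulHeight_fun_mul_eq hA0 hw0, ← hC₂def] at hlin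
    have h2 : mulHeight₁ x ^ (m + 1) ≤ mulHeight v := by
      rw [← mulHeight₁_pow, mulHeight₁_eq_mulHeight]
      have h3 := mulHeight_comp_le (![Fin.last (m + 1), 0] : Fin 2 → Fin (m + 2)) v
      refine le_trans (le_of_eq ?_) h3
      congr 1
      funext j
      fin_cases j <;> simp [hv]
    have h3 := h₁ x
    have hpos := mulHeight₁_pos x
    have hApos := mulHeight_pos A
    have h4 : mulHeight₁ x ^ (m + 1) ≤ (C₂ * C₁ * mulHeight A) * mulHeight₁ x ^ m := by
      calc mulHeight₁ x ^ (m + 1) ≤ C₂ * (mulHeight A * mulHeight w) := h2.trans hlin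
        _ ≤ C₂ * (mulHeight A * (C₁ * mulHeight₁ x ^ m)) := by gcongr
        _ = _ := by ring
    rw [pow_succ, mul_comm] at h4
    exact le_of_mul_le_mul_right h4 (pow_pos hpos m)

end Root

/-- height of the vector of all entries -/
theorem mulHeight_ent_le {K : Type} [Field K] [NumberField K] {N : ℕ}
    (γ : Matrix (Fin N) (Fin N) K) :
    mulHeight (ent γ) ≤ ∏ ij : Fin N × Fin N, mulHeight₁ (γ ij.1 ij.2) := by
  classical
  have h1 := mulHeight_fun_prod_eq (x := fun ij : Fin N × Fin N => ![γ ij.1 ij.2, (1 : K)])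
    (fun ij h => by
      have := congrFun h 1
      simp at this)
  simp only [← mulHeight₁_eq_mulHeight] at h1
  rw [← h1]
  have h2 := mulHeight_comp_le (fun o : Option (Fin N × Fin N) => fun ij : Fin N × Fin N =>
    if o = some ij then (0 : Fin 2) else 1)
    (fun I : Fin N × Fin N → Fin 2 => ∏ ij, (![γ ij.1 ij.2, (1 : K)] : Fin 2 → K) (I ij))
  refine le_trans (le_of_eq ?_) h2
  congr 1
  funext o
  cases o with
  | none => simp [ent]
  | some ij =>
    simp only [Function.comp_apply, ent, Option.elim_some]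
    rw [Finset.prod_eq_single ij]
    · simp
    · intro b _ hb
      have : ¬ (some ij = some b) := fun h => hb (Option.some.inj h).symm
      simp [this]
    · simp

/-- homogenisation -/
theorem homog {K : Type} [Field K] {a : ℕ} (j₀ : Fin a) (p : MvPolynomial (Fin a) K) :
    ∃ (e : ℕ) (P : MvPolynomial (Fin a) K), P.IsHomogeneous e ∧
      ∀ (F : Type) [Field F] [Algebra K F] (x : Fin a → F), x j₀ ≠ 0 →
      aeval x P = x j₀ ^ e * aeval (fun i => x i / x j₀) p := by
  induction p using MvPolynomial.induction_on with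
  | C c =>
    refine ⟨0, C c, isHomogeneous_C _ _, fun F _ _ x _ => ?_⟩
    rw [pow_zero, one_mul, aeval_C, aeval_C]
  | add p q hp hq =>
    obtain ⟨e₁, P₁, hP₁, h₁⟩ := hp
    obtain ⟨e₂, P₂, hP₂, h₂⟩ := hq
    refine ⟨e₁ + e₂, P₁ * X j₀ ^ e₂ + P₂ * X j₀ ^ e₁, ?_, fun F _ _ x hx => ?_⟩
    · refine (hP₁.mul (isHomogeneous_X_pow _ _)).add ?_
      rw [add_comm]
      exact hP₂.mul (isHomogeneous_X_pow _ _)
    · rw [map_add, map_mul, map_mul, map_pow, map_pow, h₁ F x hx, h₂ F x hx, map_add, aeval_X]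
      ring
  | mul_X p i hp =>
    obtain ⟨e, P, hP, h⟩ := hp
    refine ⟨e + 1, P * X i, hP.mul (isHomogeneous_X _ _), fun F _ _ x hx => ?_⟩
    rw [map_mul, h F x hx, map_mul, aeval_X, aeval_X]
    field_simp
    ring

/-- homogenisation of a family -/
theorem homog_fam {K : Type} [Field K] {a n : ℕ} (j₀ : Fin a)
    (p : Fin n → MvPolynomial (Fin a) K) :
    ∃ (e : ℕ) (P : Fin n → MvPolynomial (Fin a) K), (∀ k, (P k).IsHomogeneous e) ∧
      ∀ (F : Type) [Field F] [Algebra K F] (x : Fin a → F), x j₀ ≠ 0 →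
      ∀ k, aeval x (P k) = x j₀ ^ e * aeval (fun i => x i / x j₀) (p k) := by
  choose e P hP h using fun k => homog j₀ (p k)
  have hle : ∀ k, e k ≤ ∑ k, e k := fun k =>
    Finset.single_le_sum (f := e) (fun _ _ => Nat.zero_le _) (Finset.mem_univ k)
  refine ⟨∑ k, e k, fun k => P k * X j₀ ^ (∑ k, e k - e k), fun k => ?_,
    fun F _ _ x hx k => ?_⟩
  · have h1 := (hP k).mul (isHomogeneous_X_pow (R := K) j₀ (∑ k, e k - e k))
    rwa [Nat.add_sub_cancel' (hle k)] at h1
  · rw [map_mul, map_pow, aeval_X, h k F x hx]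
    have h1 : x j₀ ^ (∑ k, e k) = x j₀ ^ (e k) * x j₀ ^ (∑ k, e k - e k) := by
      rw [← pow_add, Nat.add_sub_cancel' (hle k)]
    rw [h1]
    ring

open scoped IntermediateField.algebraAdjoinAdjoin in
/-- an algebraic relation with polynomial coefficients -/
theorem exists_rel {K E : Type} [Field K] [Field E] [Algebra K E] {a : ℕ} (z : Fin a → E) (x : E)
    (hx : IsAlgebraic (IntermediateField.adjoin K (Set.range z)) x) :
    ∃ (n : ℕ) (p : Fin (n + 1) → MvPolynomial (Fin a) K), aeval z (p (Fin.last n)) ≠ 0 ∧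
      ∑ k, aeval z (p k) * x ^ (k : ℕ) = 0 := by
  have h1 : IsAlgebraic (Algebra.adjoin K (Set.range z)) x := by
    exact (IsFractionRing.isAlgebraic_iff (Algebra.adjoin K (Set.range z))
      (IntermediateField.adjoin K (Set.range z)) E).2 hx
  obtain ⟨q, hq0, hq⟩ := h1
  have h2 : ∀ c : Algebra.adjoin K (Set.range z), ∃ p : MvPolynomial (Fin a) K,
      aeval z p = (c : E) := by
    rintro ⟨c, hc⟩
    have h3 := hc
    rw [Algebra.adjoin_range_eq_range_aeval] at h3
    exact h3
  choose f hf using h2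
  refine ⟨q.natDegree, fun k => f (q.coeff k), ?_, ?_⟩
  · rw [hf]
    simpa using hq0
  · rw [Polynomial.aeval_eq_sum_range, Finset.sum_range] at hq
    rw [← hq]
    refine Finset.sum_congr rfl fun k _ => ?_
    rw [hf]
    rfl

end HtX

open HtX in
theorem ht_proof : Stmt_Ht := by
  intro K _ _ N d a I φ L hφ hL
  obtain ⟨j₀, hj₀, halg⟩ := hL
  have key : ∀ ij : Fin N × Fin N, ∃ (Λ : MvPolynomial (Fin N × Fin N) K) (C : ℝ) (e : ℕ),
      ev Λ φ ≠ 0 ∧ 1 ≤ C ∧ ∀ γ : Matrix (Fin N) (Fin N) K, γ ∈ pts I K → ev Λ γ ≠ 0 →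
      mulHeight₁ (γ ij.1 ij.2) ≤ C * mulHeight (fun j => ev (L j) γ) ^ e := by
    intro ij
    obtain ⟨n, p, hp1, hp2⟩ := exists_rel (fun i => ev (L i) φ / ev (L j₀) φ) (φ ij.1 ij.2)
      (halg _)
    obtain ⟨e, P, hP, h⟩ := homog_fam j₀ p
    obtain ⟨C₁, hC₁, h₁⟩ := root_height (K := K) n
    have hφP := h (RF K d) (fun i => ev (L i) φ) hj₀
    have hbind : ∀ (F : Type) [Field F] [Algebra K F] (g : Matrix (Fin N) (Fin N) F)
        (Q : MvPolynomial (Fin a) K), ev (bind₁ L Q) g = aeval (fun j => ev (L j) g) Q := by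
      intro F _ _ g Q
      unfold ev
      rw [aeval_bind₁]
    refine ⟨bind₁ L (P (Fin.last n)), C₁ * max (mulHeightBound P) 1, e, ?_, ?_, ?_⟩
    · rw [hbind, hφP]
      exact mul_ne_zero (pow_ne_zero _ hj₀) hp1
    · have := le_max_right (mulHeightBound P) 1
      nlinarith
    · intro γ hγ hΛ
      rw [hbind] at hΛ
      have hrel : ∑ k, aeval (fun j => ev (L j) γ) (P k) * (γ ij.1 ij.2) ^ (k : ℕ) = 0 := by
        have h2 : ev (∑ k, bind₁ L (P k) * X ij ^ (k : ℕ)) φ = 0 := by
          have h3 : ev (∑ k, bind₁ L (P k) * X ij ^ (k : ℕ)) φ =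
              ev (L j₀) φ ^ e * ∑ k, aeval (fun i => ev (L i) φ / ev (L j₀) φ) (p k) *
                (φ ij.1 ij.2) ^ (k : ℕ) := by
            rw [Finset.mul_sum]
            unfold ev
            rw [map_sum]
            refine Finset.sum_congr rfl fun k _ => ?_
            rw [map_mul, map_pow, aeval_X]
            have h4 := hbind (RF K d) φ (P k)
            unfold ev at h4
            rw [h4]
            have h5 := hφP k
            unfold ev at h5
            rw [h5]
            ring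
          rw [h3, hp2, mul_zero]
        have h3 := hφ.dense _ h2 K γ hγ
        rw [← h3]
        unfold ev
        rw [map_sum]
        refine Finset.sum_congr rfl fun k _ => ?_
        rw [map_mul, map_pow, aeval_X]
        have h4 := hbind K γ (P k)
        unfold ev at h4
        rw [h4]
      have h2 := h₁ (fun k => aeval (fun j => ev (L j) γ) (P k)) (γ ij.1 ij.2) hΛ hrel
      have h3 := mulHeight_eval_le hP (fun j => ev (L j) γ)
      have h4 : (fun k => aeval (fun j => ev (L j) γ) (P k)) =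
          fun k => eval (fun j => ev (L j) γ) (P k) := by
        funext k
        rw [MvPolynomial.aeval_eq_eval]
      rw [h4] at h2
      calc mulHeight₁ (γ ij.1 ij.2) ≤ C₁ * mulHeight (fun k => eval (fun j => ev (L j) γ) (P k)) := h2
        _ ≤ C₁ * (max (mulHeightBound P) 1 * mulHeight (fun j => ev (L j) γ) ^ e) := by gcongr
        _ = _ := by ring
  choose Λ C e hΛ hC h using key
  refine ⟨∏ ij, Λ ij, ∏ ij, C ij, ∑ ij, e ij, ?_, ?_, ?_⟩
  · have h1 : ev (∏ ij, Λ ij) φ = ∏ ij, ev (Λ ij) φ := by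
      unfold ev
      rw [map_prod]
    rw [h1]
    exact Finset.prod_ne_zero_iff.2 fun ij _ => hΛ ij
  · exact Finset.prod_induction _ (fun x : ℝ => 1 ≤ x)
      (fun _ _ h h' => one_le_mul_of_one_le_of_one_le h h') le_rfl fun ij _ => hC ij
  · intro γ hγ hγΛ
    have h1 : ev (∏ ij, Λ ij) γ = ∏ ij, ev (Λ ij) γ := by
      unfold ev
      rw [map_prod]
    rw [h1, Finset.prod_ne_zero_iff] at hγΛ
    calc mulHeight (ent γ) ≤ ∏ ij : Fin N × Fin N, mulHeight₁ (γ ij.1 ij.2) := mulHeight_ent_le γ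
      _ ≤ ∏ ij, (C ij * mulHeight (fun j => ev (L j) γ) ^ e ij) :=
        Finset.prod_le_prod (fun ij _ => (mulHeight₁_pos _).le)
          fun ij _ => h ij γ hγ (hγΛ ij (Finset.mem_univ _))
      _ = _ := by rw [Finset.prod_mul_distrib, Finset.prod_pow_eq_pow_sum]

end Pool.GC
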