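import Pool.Agent.GC.Stmts

set_option autoImplicit false

namespace Pool.GC

open MvPolynomial MeasureTheory NumberField Metric

/-- INF -/
theorem inf_proof (h1 : Stmt_CVR) (h2 : Stmt_CVC) : Stmt_Inf := by
  intro K _ _ w
  rcases w.isReal_or_isComplex with hw | hw
  · refine ⟨LF.ofReal (InfinitePlace.embedding_of_isReal hw), ?_, h1 K _, ?_⟩
    · rw [InfinitePlace.mult_isReal ⟨w, hw⟩]
      rfl
    · intro x
      exact InfinitePlace.norm_embedding_of_isReal hw x
  · refine ⟨LF.ofComplex w.embedding, ?_, h2 K _, ?_⟩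
    · rw [InfinitePlace.mult_isComplex ⟨w, hw⟩]
      rfl
    · intro x
      exact InfinitePlace.norm_embedding_eq w x

end Pool.GC
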