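import Pool.Agent.GC.Stmts

set_option autoImplicit false

/-! Module IntG: at almost all places integral elements of `G` change nothing. -/

namespace Pool.GC

open MvPolynomial NumberField

namespace IntGX

variable {K : Type} [Field K] [NumberField K]

theorem sum_le (v : FinitePlace K) {M : ℝ} (hM : 0 ≤ M) {ι : Type} (s : Finset ι) (f : ι → K)
    (h : ∀ j ∈ s, v (f j) ≤ M) : v (∑ j ∈ s, f j) ≤ M := by
  classical
  induction s using Finset.induction_on with
  | empty => simpa using hM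
  | insert a s ha ih =>
    rw [Finset.sum_insert ha]
    refine (FinitePlace.add_le v _ _).trans (max_le (h a (Finset.mem_insert_self a s)) ?_)
    exact ih fun j hj => h j (Finset.mem_insert_of_mem hj)

/-- the valuation ring -/
def O (v : FinitePlace K) : Subring K where
  carrier := {x | v x ≤ 1}
  mul_mem' {a b} ha hb := by
    simp only [Set.mem_ofPred_eq] at *
    rw [map_mul]
    exact mul_le_one₀ ha (apply_nonneg v b) hb
  one_mem' := by simp
  add_mem' {a b} ha hb := by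
    simp only [Set.mem_ofPred_eq] at *
    exact (FinitePlace.add_le v _ _).trans (max_le ha hb)
  zero_mem' := by simp
  neg_mem' {a} ha := by
    simp only [Set.mem_ofPred_eq] at *
    have : v (-a) = v a := by
      rw [FinitePlace.coe_apply, FinitePlace.coe_apply]
      exact AbsoluteValue.map_neg _ _
    rw [this]; exact ha

theorem mem_O (v : FinitePlace K) (x : K) : x ∈ O v ↔ v x ≤ 1 := Iff.rfl

theorem det_mem (v : FinitePlace K) {n : ℕ} (A : Matrix (Fin n) (Fin n) K)
    (h : ∀ i j, A i j ∈ O v) : A.det ∈ O v := by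
  rw [Matrix.det_apply]
  refine Subring.sum_mem _ fun σ _ => ?_
  rw [Units.smul_def]
  exact zsmul_mem (Subring.prod_mem _ fun i _ => h _ _) _

theorem adj_mem (v : FinitePlace K) {n : ℕ} (A : Matrix (Fin n) (Fin n) K)
    (h : ∀ i j, A i j ∈ O v) (i j : Fin n) : A.adjugate i j ∈ O v := by
  rw [Matrix.adjugate_apply]
  refine det_mem v _ fun k l => ?_
  rw [Matrix.updateRow_apply]
  split_ifs
  · rw [Pi.single_apply]; split_ifs
    · exact Subring.one_mem _
    · exact Subring.zero_mem _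
  · exact h _ _

theorem finite_bad {ι : Type} [Finite ι] (x : ι → K) : ∃ S : Finset (FinitePlace K), ∀ v ∉ S,
    ∀ i, v (x i) ≤ 1 ∧ (x i ≠ 0 → v (x i) = 1) := by
  classical
  have h : (⋃ i : ι, {v : FinitePlace K | x i ≠ 0 ∧ v (x i) ≠ 1}).Finite := by
    refine Set.finite_iUnion fun i => ?_
    by_cases hi : x i = 0
    · simp [hi]
    · exact (FinitePlace.hasFiniteMulSupport hi).subset fun v hv => hv.2
  refine ⟨h.toFinset, fun v hv i => ?_⟩
  simp only [Set.Finite.mem_toFinset, Set.mem_iUnion, Set.mem_ofPred_eq, not_exists, not_and,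
    not_not] at hv
  refine ⟨?_, hv i⟩
  by_cases hi : x i = 0
  · simp [hi]
  · exact (hv i hi).le

end IntGX

open IntGX in
theorem intG_proof (hP : Stmt_PAct) : Stmt_IntG := by
  classical
  intro K _ _ N d I ξ v₀ hI hξ hne
  obtain ⟨l, hl⟩ := hP K N d I ξ hI hξ
  obtain ⟨S1, hS1⟩ := finite_bad v₀
  obtain ⟨S2, hS2⟩ := finite_bad (fun J => plk ξ (fun i => v₀ i) J)
  obtain ⟨S3, hS3⟩ := finite_bad (fun x : Fin d × (Fin N × Fin N) => l x.1 x.2)
  obtain ⟨S4, hS4⟩ := finite_bad (fun x : Fin d × (Fin N × Fin N) => ξ x.1 x.2.1 x.2.2)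
  obtain ⟨J₀, hJ₀⟩ := Function.ne_iff.1 hne
  have hv0 : ∃ i, v₀ i ≠ 0 := by
    by_contra hcon
    push Not at hcon
    apply hJ₀
    have : (fun i => v₀ i) = fun _ => (0 : K) := funext hcon
    rw [this]
    show plk ξ (fun _ => (0 : K)) J₀ = 0
    unfold plk
    exact Matrix.det_eq_zero_of_column_eq_zero 0 (fun i => rfl)
  obtain ⟨i₀, hi₀⟩ := hv0
  refine ⟨S1 ∪ S2 ∪ S3 ∪ S4, ?_⟩
  intro v hv γ hγ hint
  simp only [Finset.mem_union, not_or] at hv
  obtain ⟨⟨⟨h1, h2⟩, h3⟩, h4⟩ := hv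
  have horb : orb v₀ γ = γ.mulVec v₀ := rfl
  have hdet := hI.det K γ hγ
  have hback : γ.adjugate.mulVec (γ.mulVec v₀) = v₀ := by
    rw [Matrix.mulVec_mulVec, Matrix.adjugate_mul, hdet, one_smul, Matrix.one_mulVec]
  have hNE : Nonempty (Fin N) := ⟨i₀⟩
  have hNE2 : Nonempty (Fin (d + 1) → Fin N) := ⟨J₀⟩
  -- the general estimate
  have key : ∀ (g : Matrix (Fin N) (Fin N) K), g ∈ pts I K → (∀ i j, g i j ∈ O v) →
      ∀ (u : Fin N → K) (M : ℝ), 0 ≤ M → (∀ J, v (plk ξ u J) ≤ M) →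
      ∀ J, v (plk ξ (g.mulVec u) J) ≤ M := by
    intro g hg hgi u M hM hu J
    rw [hl K g hg u J, map_mul]
    have e1 : (Matrix.of fun b c : Fin d => ∑ ij : Fin N × Fin N, algebraMap K K (l b ij) *
        (g.adjugate * (ξ c).map (algebraMap K K) * g) ij.1 ij.2).det ∈ O v := by
      refine det_mem v _ fun b c => ?_
      simp only [Matrix.of_apply]
      refine Subring.sum_mem _ fun ij _ => Subring.mul_mem _ ((hS3 v h3 (b, ij)).1) ?_
      rw [Matrix.mul_apply]
      refine Subring.sum_mem _ fun k _ => Subring.mul_mem _ ?_ (hgi _ _)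
      rw [Matrix.mul_apply]
      exact Subring.sum_mem _ fun k' _ => Subring.mul_mem _ (adj_mem v g hgi _ _)
        ((hS4 v h4 (c, (k', k))).1)
    have e2 : v (∑ J' : Fin (d + 1) → Fin N, (∏ a, g (J a) (J' a)) * plk ξ u J') ≤ M := by
      refine sum_le v hM _ _ fun J' _ => ?_
      rw [map_mul]
      have e3 : v (∏ a, g (J a) (J' a)) ≤ 1 := Subring.prod_mem (O v) fun a _ => hgi _ _
      calc v (∏ a, g (J a) (J' a)) * v (plk ξ u J') ≤ 1 * M :=
            mul_le_mul e3 (hu J') (apply_nonneg v _) zero_le_one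
        _ = M := one_mul M
    calc _ ≤ 1 * M := mul_le_mul e1 e2 (apply_nonneg v _) zero_le_one
      _ = M := one_mul M
  have hadj : ∀ i j, γ.adjugate i j ∈ O v := adj_mem v γ hint
  constructor
  · rw [horb]
    apply le_antisymm
    · refine ciSup_le fun i => ?_
      rw [Matrix.mulVec, dotProduct]
      exact Subring.sum_mem (O v) fun j _ => Subring.mul_mem _ (hint i j) ((hS1 v h1 j).1)
    · have hb : ∀ i, v (γ.mulVec v₀ i) ≤ ⨆ i, v (γ.mulVec v₀ i) := fun i =>
        le_ciSup (f := fun i => v (γ.mulVec v₀ i)) (Set.finite_range _).bddAbove i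
      have hM : 0 ≤ ⨆ i, v (γ.mulVec v₀ i) := (apply_nonneg v _).trans (hb i₀)
      calc (1 : ℝ) = v (v₀ i₀) := ((hS1 v h1 i₀).2 hi₀).symm
        _ = v (γ.adjugate.mulVec (γ.mulVec v₀) i₀) := by rw [hback]
        _ ≤ _ := by
          conv_lhs => rw [Matrix.mulVec, dotProduct]
          refine sum_le v hM _ _ fun j _ => ?_
          rw [map_mul]
          calc v (γ.adjugate i₀ j) * v (γ.mulVec v₀ j) ≤ 1 * ⨆ i, v (γ.mulVec v₀ i) :=
                mul_le_mul (hadj i₀ j) (hb j) (apply_nonneg v _) zero_le_one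
            _ = _ := one_mul _
  · rw [horb]
    apply le_antisymm
    · refine ciSup_le fun J => ?_
      exact key γ hγ hint v₀ 1 zero_le_one (fun J' => (hS2 v h2 J').1) J
    · have hb : ∀ J, v (plk ξ (γ.mulVec v₀) J) ≤ ⨆ J, v (plk ξ (γ.mulVec v₀) J) := fun J =>
        le_ciSup (f := fun J => v (plk ξ (γ.mulVec v₀) J)) (Set.finite_range _).bddAbove J
      have hM : 0 ≤ ⨆ J, v (plk ξ (γ.mulVec v₀) J) := (apply_nonneg v _).trans (hb J₀)
      have e := key γ.adjugate (hI.inv K γ hγ) hadj (γ.mulVec v₀) _ hM hb J₀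
      rw [hback] at e
      have e2 : v (plk ξ v₀ J₀) = 1 := (hS2 v h2 J₀).2 hJ₀
      rw [e2] at e
      exact e

end Pool.GC
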