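import Pool.Agent.GC.Stmts

set_option autoImplicit false

namespace Pool.GC

theorem jId_proof : Stmt_JId := by
  intro F _ d M h0
  -- row operations
  set c : Fin (d + 1) → F := fun i => if i = 0 then 0 else M i 0 / M 0 0 with hc
  set B : Matrix (Fin (d + 1)) (Fin (d + 1)) F := Matrix.of fun i j => M i j - c i * M 0 j with hB
  have hc0 : c 0 = 0 := by simp [hc]
  have hcs : ∀ i : Fin d, c i.succ = M i.succ 0 / M 0 0 := by
    intro i; simp [hc, Fin.succ_ne_zero]
  have hB0 : ∀ j, B 0 j = M 0 j := by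
    intro j; simp [hB, hc0]
  have h1 : M.det = B.det := by
    refine Matrix.det_eq_of_forall_row_eq_smul_add_const c 0 hc0 ?_
    intro i j
    rw [hB0]
    simp [hB]
  have hBs : ∀ i : Fin d, B i.succ 0 = 0 := by
    intro i
    simp only [hB, Matrix.of_apply, hcs]
    field_simp
    simp
  have h2 : B.det = M 0 0 * (B.submatrix Fin.succ Fin.succ).det := by
    rw [Matrix.det_succ_column_zero, Fin.sum_univ_succ]
    have : ∀ i : Fin d, (-1 : F) ^ ((i.succ : Fin (d + 1)) : ℕ) * B i.succ 0 *
        (B.submatrix (i.succ).succAbove Fin.succ).det = 0 := by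
      intro i; rw [hBs]; ring
    rw [Finset.sum_eq_zero (fun i _ => this i), hB0]
    simp [Fin.succAbove_zero]
  have h3 : (Matrix.of fun i k : Fin d =>
      (M i.succ k.succ * M 0 0 - M i.succ 0 * M 0 k.succ) / M 0 0 ^ 2) =
      (M 0 0)⁻¹ • B.submatrix Fin.succ Fin.succ := by
    ext i k
    simp only [Matrix.of_apply, Matrix.smul_apply, Matrix.submatrix_apply, hB, hcs, smul_eq_mul]
    field_simp
  rw [h3, Matrix.det_smul, Fintype.card_fin, h1, h2, inv_pow, pow_succ]
  field_simp

end Pool.GC
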