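import Pool.Agent.GC.Stmts

set_option autoImplicit false

namespace Pool.GC

open MvPolynomial

namespace JIndX

variable {K : Type} [Field K] {d : ℕ}

theorem chain {E : Type} [Field E] [Algebra K E] (D : Derivation K E E) (f : Fin d → E)
    (P : MvPolynomial (Fin d) K) :
    D (aeval f P) = ∑ i, aeval f (pderiv i P) * D (f i) := by
  induction P using MvPolynomial.induction_on with
  | C a => simp [← MvPolynomial.algebraMap_eq]
  | add p q hp hq =>
    simp only [map_add, hp, hq, add_mul, Finset.sum_add_distrib]
  | mul_X p j hp =>
    rw [map_mul, Derivation.leibniz, hp, aeval_X]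
    simp only [Derivation.leibniz, map_add, smul_eq_mul, map_mul, aeval_X, add_mul,
      Finset.sum_add_distrib]
    have h1 : ∑ i, aeval f p * aeval f (pderiv i (X j : MvPolynomial (Fin d) K)) * D (f i) =
        aeval f p * D (f j) := by
      rw [Finset.sum_eq_single j]
      · simp
      · intro b _ hb
        rw [pderiv_X_of_ne hb.symm]
        simp
      · intro h; exact absurd (Finset.mem_univ j) h
    rw [h1, Finset.mul_sum]
    congr 1
    refine Finset.sum_congr rfl ?_
    intro i _
    ring

theorem totalDegree_pderiv_lt (P : MvPolynomial (Fin d) K) (i : Fin d) (h : pderiv i P ≠ 0) :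
    (pderiv i P).totalDegree < P.totalDegree := by
  obtain ⟨m, hm⟩ := (MvPolynomial.ne_zero_iff).1 h
  have key : ∀ m : Fin d →₀ ℕ, coeff m (pderiv i P) ≠ 0 →
      (m.sum fun _ e => e) < P.totalDegree := by
    intro m hm
    rw [coeff_pderiv] at hm
    have h1 : coeff (m + Finsupp.single i 1) P ≠ 0 := left_ne_zero_of_mul hm
    have h2 := le_totalDegree (mem_support_iff.2 h1)
    rw [Finsupp.sum_add_index' (by simp) (by simp)] at h2
    simp only [Finsupp.sum_single_index] at h2
    omega
  rw [totalDegree, Finset.sup_lt_iff]
  · intro m hm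
    exact key m (mem_support_iff.1 hm)
  · exact (Nat.zero_le _).trans_lt (key m hm)

theorem eq_C [CharZero K] (P : MvPolynomial (Fin d) K) (h : ∀ i, pderiv i P = 0) :
    P = C (coeff 0 P) := by
  ext m
  rw [coeff_C]
  split_ifs with h0
  · rw [h0]
  · have : ∃ i, m i ≠ 0 := by
      by_contra hcon
      push Not at hcon
      exact h0 (Finsupp.ext fun i => (hcon i).symm)
    obtain ⟨i, hi⟩ := this
    have h1 := coeff_pderiv (i := i) P (m - Finsupp.single i 1)
    rw [h i, coeff_zero] at h1
    have h2 : m - Finsupp.single i 1 + Finsupp.single i 1 = m := by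
      refine tsub_add_cancel_of_le ?_
      rw [Finsupp.single_le_iff]
      omega
    rw [h2] at h1
    have h3 : ((((m - Finsupp.single i 1 : Fin d →₀ ℕ) i : ℕ) : K) + 1) ≠ 0 := by
      exact Nat.cast_add_one_ne_zero _
    exact (mul_eq_zero.1 h1.symm).resolve_right h3

theorem trdeg_RF : Algebra.trdeg K (RF K d) = d := by
  have h1 := trdeg_add_eq K (MvPolynomial (Fin d) K) (A := RF K d)
  have : Algebra.IsAlgebraic (MvPolynomial (Fin d) K) (RF K d) :=
    IsLocalization.isAlgebraic (M := nonZeroDivisors (MvPolynomial (Fin d) K)) ..
  rw [trdeg_eq_zero (R := MvPolynomial (Fin d) K) (A := RF K d), add_zero,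
    MvPolynomial.trdeg_of_isDomain] at h1
  rw [← h1]
  simp

end JIndX

open JIndX in
theorem jInd_proof : Stmt_JInd := by
  intro K _ _ d D hD f hdet
  have hind : AlgebraicIndependent K f := by
    rw [algebraicIndependent_iff]
    have key : ∀ n : ℕ, ∀ P : MvPolynomial (Fin d) K, P.totalDegree = n → aeval f P = 0 →
        P = 0 := by
      intro n
      induction n using Nat.strong_induction_on with
      | _ n ih =>
        intro P hn hP
        have h1 : ∀ i, aeval f (pderiv i P) = 0 := by
          have h2 : Matrix.vecMul (fun i => aeval f (pderiv i P))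
              (Matrix.of fun i k => D k (f i)) = 0 := by
            ext k
            have h3 := chain (D k) f P
            rw [hP, map_zero] at h3
            simp only [Matrix.vecMul, dotProduct, Matrix.of_apply, Pi.zero_apply]
            exact h3.symm
          have h4 := Matrix.eq_zero_of_vecMul_eq_zero hdet h2
          intro i
          exact congrFun h4 i
        have h5 : ∀ i, pderiv i P = 0 := by
          intro i
          by_contra hne
          exact hne (ih _ (hn ▸ totalDegree_pderiv_lt P i hne) _ rfl (h1 i))
        have h6 := eq_C P h5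
        rw [h6, aeval_C] at hP
        rw [h6, (FaithfulSMul.algebraMap_eq_zero_iff K (RF K d)).1 hP, C_0]
    exact fun P hP => key _ P rfl hP
  refine ⟨hind, ?_⟩
  have hb : IsTranscendenceBasis K f := by
    refine hind.isTranscendenceBasis_of_trdeg_le_of_finite ?_
    rw [trdeg_RF]
    simp
  have := hb.isAlgebraic_field
  exact fun x => Algebra.IsAlgebraic.isAlgebraic x

end Pool.GC
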