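import Mathlib
import Pool.Agent.GC.Stmts

set_option autoImplicit false

namespace Pool.GC

open MvPolynomial

namespace LieFX

variable {K : Type} [Field K] {N d : ℕ}

/-- the matrix `a + ε b` over the dual numbers -/
noncomputable def dual {F : Type} [Field F] (a b : Matrix (Fin N) (Fin N) F) :
    Matrix (Fin N) (Fin N) (DualNumber F) :=
  Matrix.of fun i j => TrivSqZeroExt.inl (a i j) + TrivSqZeroExt.inr (b i j)

theorem dual_mul {F : Type} [Field F] (a b a' b' : Matrix (Fin N) (Fin N) F) :
    dual a b * dual a' b' = dual (a * a') (a * b' + b * a') := by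
  ext i j
  · simp [dual, Matrix.mul_apply, Matrix.add_apply, TrivSqZeroExt.fst_sum]
  · simp [dual, Matrix.mul_apply, Matrix.add_apply, TrivSqZeroExt.snd_sum,
      Finset.sum_add_distrib, mul_comm]

theorem ev_dual {F : Type} [Field F] [Algebra K F] (p : MvPolynomial (Fin N × Fin N) K)
    (a b : Matrix (Fin N) (Fin N) F) :
    ev p (dual a b) = TrivSqZeroExt.inl (ev p a) +
      TrivSqZeroExt.inr (∑ ij : Fin N × Fin N, ev (pderiv ij p) a * b ij.1 ij.2) := by
  induction p using MvPolynomial.induction_on with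
  | C c =>
    simp only [ev, aeval_C, pderiv_C, map_zero, zero_mul, Finset.sum_const_zero,
      TrivSqZeroExt.inr_zero, add_zero]
    rfl
  | add p q hp hq =>
    simp only [ev, map_add] at hp hq ⊢
    rw [hp, hq]
    simp only [add_mul, Finset.sum_add_distrib, TrivSqZeroExt.inl_add, TrivSqZeroExt.inr_add]
    ring
  | mul_X p s hp =>
    simp only [ev, map_mul, aeval_X, Derivation.leibniz, pderiv_X, smul_eq_mul, map_add,
      map_mul] at hp ⊢
    rw [hp]
    ext
    · simp [dual]
    · simp only [dual, Matrix.of_apply, TrivSqZeroExt.snd_mul, TrivSqZeroExt.snd_add,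
        TrivSqZeroExt.snd_inl, TrivSqZeroExt.snd_inr, zero_add, TrivSqZeroExt.fst_add,
        TrivSqZeroExt.fst_inl, TrivSqZeroExt.fst_inr, add_zero, smul_eq_mul,
        op_smul_eq_smul]
      have h1 : ∀ x : Fin N × Fin N, (aeval fun ij : Fin N × Fin N => a ij.1 ij.2)
          ((Pi.single x (1 : MvPolynomial (Fin N × Fin N) K) :
            Fin N × Fin N → MvPolynomial (Fin N × Fin N) K) s) =
          (Pi.single s (1 : F) : Fin N × Fin N → F) x := by
        intro x
        by_cases h : x = s
        · subst h; simp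
        · rw [Pi.single_eq_of_ne h, Pi.single_eq_of_ne (Ne.symm h), map_zero]
      simp only [h1, add_mul, Finset.sum_add_distrib]
      congr 1
      · simp [Pi.single_apply]
      · rw [Finset.mul_sum]
        exact Finset.sum_congr rfl fun x _ => by ring

theorem ev_map {F F' : Type} [CommRing F] [Algebra K F] [CommRing F'] [Algebra K F']
    (f : F →ₐ[K] F') (p : MvPolynomial (Fin N × Fin N) K) (g : Matrix (Fin N) (Fin N) F) :
    ev p (g.map f) = f (ev p g) :=
  (MvPolynomial.comp_aeval_apply (fun ij : Fin N × Fin N => g ij.1 ij.2) f p).symm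

theorem ev_one {F : Type} [Field F] [Algebra K F] (p : MvPolynomial (Fin N × Fin N) K) :
    ev p (1 : Matrix (Fin N) (Fin N) F) = algebraMap K F (ev p (1 : Matrix (Fin N) (Fin N) K)) := by
  have h := ev_map (Algebra.ofId K F) p (1 : Matrix (Fin N) (Fin N) K)
  rw [Matrix.map_one _ (map_zero _) (map_one _)] at h
  exact h

theorem mem_pts_dual {F : Type} [Field F] [Algebra K F] {I : Set (MvPolynomial (Fin N × Fin N) K)}
    {a b : Matrix (Fin N) (Fin N) F} :
    dual a b ∈ pts I (DualNumber F) ↔ a ∈ pts I F ∧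
      ∀ p ∈ I, ∑ ij : Fin N × Fin N, ev (pderiv ij p) a * b ij.1 ij.2 = 0 := by
  constructor
  · intro h
    refine ⟨fun p hp => ?_, fun p hp => ?_⟩
    · have := congrArg TrivSqZeroExt.fst (h p hp)
      rw [ev_dual] at this
      simpa using this
    · have := congrArg TrivSqZeroExt.snd (h p hp)
      rw [ev_dual] at this
      simpa using this
  · rintro ⟨h1, h2⟩ p hp
    rw [ev_dual, h1 p hp, h2 p hp]
    simp

theorem mem_pts_inl {F : Type} [Field F] [Algebra K F] {I : Set (MvPolynomial (Fin N × Fin N) K)}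
    {a : Matrix (Fin N) (Fin N) F} (ha : a ∈ pts I F) : dual a 0 ∈ pts I (DualNumber F) :=
  mem_pts_dual.2 ⟨ha, fun p hp => by simp⟩

theorem part1 (I : Set (MvPolynomial (Fin N × Fin N) K))
    (ξ : Fin d → Matrix (Fin N) (Fin N) K) (hξ : IsLieBasis I ξ) (F : Type) [Field F] [Algebra K F]
    (η : Matrix (Fin N) (Fin N) F)
    (hη : ∀ p ∈ I, ∑ ij : Fin N × Fin N, ev (pderiv ij p) (1 : Matrix (Fin N) (Fin N) F) *
        η ij.1 ij.2 = 0) : ∃ c : Fin d → F, η = ∑ b, c b • (ξ b).map (algebraMap K F) := by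
  classical
  let B := Module.Basis.ofVectorSpace K F
  have h1 : ∀ s, ∃ c : Fin d → K, ∀ i j, B.repr (η i j) s = ∑ b, c b * ξ b i j := by
    intro s
    have h2 : (Matrix.of fun i j => B.repr (η i j) s : Matrix (Fin N) (Fin N) K) ∈
        Submodule.span K (Set.range ξ) := by
      rw [← hξ.span]
      intro p hp
      have h3 := congrArg (fun x => B.repr x s) (hη p hp)
      simp only [map_zero, Finsupp.coe_zero, Pi.zero_apply] at h3
      rw [← h3, map_sum, Finsupp.finsetSum_apply]
      refine Finset.sum_congr rfl fun ij _ => ?_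
      have h6 : ev (pderiv ij p) (1 : Matrix (Fin N) (Fin N) F) * η ij.1 ij.2 =
          (ev (pderiv ij p) (1 : Matrix (Fin N) (Fin N) K)) • η ij.1 ij.2 := by
        rw [ev_one, ← Algebra.smul_def]
      rw [h6, map_smul]
      rfl
    rw [Submodule.mem_span_range_iff_exists_fun] at h2
    obtain ⟨c, hc⟩ := h2
    refine ⟨c, fun i j => ?_⟩
    have h4 := congrFun (congrFun hc i) j
    rw [Matrix.of_apply] at h4
    rw [← h4, Matrix.sum_apply]
    rfl
  choose c hc using h1
  let T : Finset _ := Finset.univ.biUnion fun ij : Fin N × Fin N => (B.repr (η ij.1 ij.2)).support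
  refine ⟨fun b => ∑ s ∈ T, algebraMap K F (c s b) * B s, ?_⟩
  ext i j
  have h5 : η i j = ∑ s ∈ T, B.repr (η i j) s • B s := by
    conv_lhs => rw [← B.linearCombination_repr (η i j)]
    rw [Finsupp.linearCombination_apply, Finsupp.sum]
    refine Finset.sum_subset ?_ ?_
    · intro s hs
      exact Finset.mem_biUnion.2 ⟨(i, j), Finset.mem_univ _, hs⟩
    · intro s _ hs
      rw [Finsupp.notMem_support_iff.1 hs, zero_smul]
  rw [h5, Matrix.sum_apply]
  simp only [Matrix.smul_apply, Matrix.map_apply, smul_eq_mul, Finset.sum_mul]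
  rw [Finset.sum_comm]
  refine Finset.sum_congr rfl fun s _ => ?_
  rw [hc, Algebra.smul_def, map_sum, Finset.sum_mul]
  refine Finset.sum_congr rfl fun b _ => ?_
  rw [map_mul]
  ring

end LieFX

open LieFX

theorem lieF_proof : Stmt_LieF := by
  intro K _ N d I ξ hI hξ F _ _
  have key : ∀ η : Matrix (Fin N) (Fin N) F, dual 1 η ∈ pts I (DualNumber F) →
      ∃ c : Fin d → F, η = ∑ b, c b • (ξ b).map (algebraMap K F) := fun η hη =>
    part1 I ξ hξ F η (mem_pts_dual.1 hη).2
  have hinv : ∀ g : Matrix (Fin N) (Fin N) F, g ∈ pts I F → g.adjugate ∈ pts I F :=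
    fun g hg => hI.inv F g hg
  have hdet : ∀ g : Matrix (Fin N) (Fin N) F, g ∈ pts I F → g.det = 1 := fun g hg => hI.det F g hg
  refine ⟨fun η hη => part1 I ξ hξ F η hη, ?_, ?_⟩
  · intro g θ hg hθ
    apply key
    have h1 : dual g θ ∈ pts I (DualNumber F) := mem_pts_dual.2 ⟨hg, hθ⟩
    have h2 := hI.mul (DualNumber F) _ _ h1 (mem_pts_inl (hinv g hg))
    rw [dual_mul, mul_zero, zero_add, Matrix.mul_adjugate, hdet g hg, one_smul] at h2
    exact h2
  · intro g hg c
    apply key
    have h0 : dual (1 : Matrix (Fin N) (Fin N) F) ((ξ c).map (algebraMap K F)) ∈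
        pts I (DualNumber F) := by
      refine mem_pts_dual.2 ⟨?_, ?_⟩
      · intro p hp
        rw [ev_one, hI.one p hp, map_zero]
      · intro p hp
        have h3 := (hξ.span (ξ c)).2 (Submodule.subset_span ⟨c, rfl⟩) p hp
        have h4 := congrArg (algebraMap K F) h3
        rw [map_zero, map_sum] at h4
        rw [← h4]
        refine Finset.sum_congr rfl fun ij _ => ?_
        rw [ev_one, map_mul, Matrix.map_apply]
    have h1 := hI.mul (DualNumber F) _ _ (hI.mul (DualNumber F) _ _
      (mem_pts_inl (hinv g hg)) h0) (mem_pts_inl hg)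
    rw [dual_mul, dual_mul, mul_one, mul_zero, zero_mul, add_zero, zero_add,
      Matrix.adjugate_mul, hdet g hg, one_smul] at h1
    exact h1

end Pool.GC
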