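import Pool.Agent.GC.Stmts

set_option autoImplicit false

namespace Pool.GC

open MvPolynomial MeasureTheory NumberField Metric

namespace LocX

variable {K : Type} [Field K] (P : LF K) {N d : ℕ}

/-- the polynomial `(Φ u)_a`. -/
noncomputable def pu (Φ : Matrix (Fin N) (Fin N) (MvPolynomial (Fin d) K)) (u : Fin N → P.F)
    (a : Fin N) : MvPolynomial (Fin d) P.F :=
  ∑ j, map (algebraMap K P.F) (Φ a j) * C (u j)

theorem eval_map_eq (p : MvPolynomial (Fin d) K) (y : Fin d → P.F) :
    eval y (map (algebraMap K P.F) p) = aeval y p := by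
  rw [eval_map, aeval_def]

theorem eval_pu (Φ : Matrix (Fin N) (Fin N) (MvPolynomial (Fin d) K)) (u : Fin N → P.F)
    (a : Fin N) (y : Fin d → P.F) : eval y (pu P Φ u a) = (phiNum Φ y).mulVec u a := by
  simp only [pu, map_sum, map_mul, eval_C, eval_map_eq, Matrix.mulVec, dotProduct, phiNum,
    Matrix.of_apply]

theorem eval_pderiv_pu (Φ : Matrix (Fin N) (Fin N) (MvPolynomial (Fin d) K)) (u : Fin N → P.F)
    (a : Fin N) (k : Fin d) (y : Fin d → P.F) : eval y (pderiv k (pu P Φ u a)) =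
    (Matrix.of fun i j => aeval y (pderiv k (Φ i j)) : Matrix (Fin N) (Fin N) P.F).mulVec u a := by
  simp only [pu, map_sum, Derivation.leibniz, Matrix.mulVec, dotProduct, Matrix.of_apply]
  refine Finset.sum_congr rfl ?_
  intro j _
  rw [pderiv_C, smul_zero, zero_add, smul_eq_mul, map_mul, eval_C, pderiv_map, eval_map_eq,
    mul_comm]

/-- the matrix of `wdet`. -/
noncomputable def Mw (Φ : Matrix (Fin N) (Fin N) (MvPolynomial (Fin d) K)) (u : Fin N → P.F)
    (J : Fin (d + 1) → Fin N) (y : Fin d → P.F) : Matrix (Fin (d + 1)) (Fin (d + 1)) P.F :=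
  Matrix.of fun a b : Fin (d + 1) =>
    Fin.cases (motive := fun _ => P.F) ((phiNum Φ y).mulVec u (J a))
      (fun k : Fin d => (Matrix.of fun i j => aeval y (pderiv k (Φ i j)) :
        Matrix (Fin N) (Fin N) P.F).mulVec u (J a)) b

theorem wdet_eq (Φ : Matrix (Fin N) (Fin N) (MvPolynomial (Fin d) K)) (u : Fin N → P.F)
    (J : Fin (d + 1) → Fin N) (y : Fin d → P.F) : wdet Φ y u J = (Mw P Φ u J y).det := rfl

theorem ratJac_eq (hJ : Stmt_JId) (Φ : Matrix (Fin N) (Fin N) (MvPolynomial (Fin d) K))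
    (u : Fin N → P.F) (J : Fin (d + 1) → Fin N) (y : Fin d → P.F)
    (h0 : (phiNum Φ y).mulVec u (J 0) ≠ 0) :
    ratJac (fun i : Fin d => pu P Φ u (J i.succ)) (pu P Φ u (J 0)) y =
      wdet Φ y u J / ((phiNum Φ y).mulVec u (J 0)) ^ (d + 1) := by
  have h00 : Mw P Φ u J y 0 0 = (phiNum Φ y).mulVec u (J 0) := rfl
  have h1 := hJ P.F d (Mw P Φ u J y) (by rw [h00]; exact h0)
  rw [wdet_eq, ← h00, ← h1]
  unfold ratJac
  congr 1
  ext i k
  simp only [Matrix.of_apply, eval_pderiv_pu, eval_pu]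
  rfl

theorem cont_aeval (p : MvPolynomial (Fin d) K) : Continuous fun y : Fin d → P.F => aeval y p := by
  have : (fun y : Fin d → P.F => aeval y p) = fun y => eval y (map (algebraMap K P.F) p) := by
    funext y; rw [eval_map_eq]
  rw [this]
  exact MvPolynomial.continuous_eval _

theorem cont_phi (Φ : Matrix (Fin N) (Fin N) (MvPolynomial (Fin d) K)) (u : Fin N → P.F)
    (a : Fin N) : Continuous fun y : Fin d → P.F => (phiNum Φ y).mulVec u a := by
  have : (fun y : Fin d → P.F => (phiNum Φ y).mulVec u a) = fun y => eval y (pu P Φ u a) := by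
    funext y; rw [eval_pu]
  rw [this]
  exact MvPolynomial.continuous_eval _

theorem cont_phi' (Φ : Matrix (Fin N) (Fin N) (MvPolynomial (Fin d) K)) (u : Fin N → P.F) :
    Continuous fun y : Fin d → P.F => (phiNum Φ y).mulVec u :=
  continuous_pi fun a => cont_phi P Φ u a

theorem cont_wdet (Φ : Matrix (Fin N) (Fin N) (MvPolynomial (Fin d) K)) (u : Fin N → P.F)
    (J : Fin (d + 1) → Fin N) : Continuous fun y : Fin d → P.F => wdet Φ y u J := by
  have h : (fun y : Fin d → P.F => wdet Φ y u J) = fun y => (Mw P Φ u J y).det := rfl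
  rw [h]
  refine Continuous.matrix_det ?_
  refine continuous_matrix ?_
  intro a b
  refine Fin.cases ?_ (fun k => ?_) b
  · exact cont_phi P Φ u (J a)
  · have : (fun y : Fin d → P.F => Mw P Φ u J y a k.succ) =
        fun y => eval y (pderiv k (pu P Φ u (J a))) := by
      funext y; rw [eval_pderiv_pu]; rfl
    rw [this]
    exact MvPolynomial.continuous_eval _

end LocX

open LocX in
theorem loc_proof (hJ : Stmt_JId) : Stmt_Loc := by
  classical
  intro K _ P hCV hNull N d Φ u B hB hB0 c hc k n h1 h2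
  -- the pieces
  set BJ : (Fin (d + 1) → Fin N) → Set (Fin d → P.F) := fun J =>
    {y | y ∈ B ∧ ‖(phiNum Φ y).mulVec u (J 0)‖ = ‖(phiNum Φ y).mulVec u‖ ∧
      c ≤ (‖wdet Φ y u J‖ / ‖(phiNum Φ y).mulVec u‖ ^ (d + 1)) ^ P.e} with hBJ
  have hmeas : ∀ J, MeasurableSet (BJ J) := by
    intro J
    have e1 : MeasurableSet {y : Fin d → P.F |
        ‖(phiNum Φ y).mulVec u (J 0)‖ = ‖(phiNum Φ y).mulVec u‖} :=
      (isClosed_eq (cont_phi P Φ u (J 0)).norm (cont_phi' P Φ u).norm).measurableSet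
    have e2 : MeasurableSet {y : Fin d → P.F |
        c ≤ (‖wdet Φ y u J‖ / ‖(phiNum Φ y).mulVec u‖ ^ (d + 1)) ^ P.e} := by
      refine measurableSet_le measurable_const ?_
      exact ((cont_wdet P Φ u J).norm.measurable.div
        ((cont_phi' P Φ u).norm.measurable.pow_const _)).pow_const _
    exact hB.inter (e1.inter e2)
  set T : Finset (Fin (d + 1) → Fin N) := Finset.univ.filter fun J => n J ≠ 0 with hT
  have hcover : B ⊆ ⋃ J ∈ T, BJ J := by
    intro y hy
    obtain ⟨-, J, hJ0, hJ1, hJ2⟩ := h1 y hy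
    simp only [Set.mem_iUnion]
    exact ⟨J, by simp [hT, hJ0], hy, hJ1, hJ2⟩
  have hTne : T.Nonempty := by
    rw [Finset.nonempty_iff_ne_empty]
    intro he
    apply hB0
    rw [he] at hcover
    simp only [Finset.notMem_empty, Set.iUnion_of_empty, Set.iUnion_empty,
      Set.subset_empty_iff] at hcover
    rw [hcover, measure_empty]
  obtain ⟨J, hJT, hJmax⟩ := Finset.exists_max_image T (fun J => P.vol d (BJ J)) hTne
  have hnJ : n J ≠ 0 := by
    rw [hT, Finset.mem_filter] at hJT
    exact hJT.2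
  have hvol : P.vol d B ≤ ((N ^ (d + 1) : ℕ) : ENNReal) * P.vol d (BJ J) := by
    calc P.vol d B ≤ P.vol d (⋃ J ∈ T, BJ J) := measure_mono hcover
      _ ≤ ∑ J ∈ T, P.vol d (BJ J) := measure_biUnion_finset_le _ _
      _ ≤ T.card • P.vol d (BJ J) := Finset.sum_le_card_nsmul _ _ _ hJmax
      _ ≤ ((N ^ (d + 1) : ℕ) : ENNReal) * P.vol d (BJ J) := by
        rw [nsmul_eq_mul]
        gcongr
        refine (Finset.card_le_univ T).trans ?_
        simp
  -- remove the null set
  set f : MvPolynomial (Fin d) P.F := map (algebraMap K P.F) (n J) with hf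
  have hf0 : f ≠ 0 := by
    intro h
    apply hnJ
    exact map_injective _ (algebraMap K P.F).injective (by rw [← hf, h, map_zero])
  set B' : Set (Fin d → P.F) := BJ J \ {y | eval y f = 0} with hB'
  have hZmeas : MeasurableSet {y : Fin d → P.F | eval y f = 0} :=
    (isClosed_eq (MvPolynomial.continuous_eval f) continuous_const).measurableSet
  have hB'meas : MeasurableSet B' := (hmeas J).diff hZmeas
  have hB'vol : P.vol d B' = P.vol d (BJ J) :=
    measure_sdiff_null (hNull d f hf0)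
  have hne : ∀ y ∈ B', (phiNum Φ y).mulVec u (J 0) ≠ 0 := by
    intro y hy h
    have h3 := hy.1.2.1
    rw [h, norm_zero] at h3
    exact (h1 y hy.1.1).1 (norm_eq_zero.1 h3.symm)
  have hmap : ∀ y, ratMap (fun i : Fin d => pu P Φ u (J i.succ)) (pu P Φ u (J 0)) y =
      zc J ((phiNum Φ y).mulVec u) := by
    intro y
    funext i
    simp only [ratMap, zc, eval_pu]
  obtain ⟨E, hE1, hE2, hE3⟩ := hCV d (fun i : Fin d => pu P Φ u (J i.succ)) (pu P Φ u (J 0)) B'
    hB'meas (fun y hy => by rw [eval_pu]; exact hne y hy) c k hc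
    (by
      intro y hy
      rw [ratJac_eq P hJ Φ u J y (hne y hy), norm_div, norm_pow, hy.1.2.1]
      exact hy.1.2.2)
    (by
      intro z
      refine le_trans (Set.encard_le_encard ?_) (h2 J z)
      rintro y ⟨hy1, hy2⟩
      refine ⟨hy1.1.1, ?_, hne y hy1, ?_⟩
      · intro h3
        exact hy1.2 (by
          change eval y f = 0
          rw [hf, eval_map_eq, h3])
      · rw [← hmap, hy2])
  refine ⟨J, E, hnJ, hE1, ?_, ?_⟩
  · intro z hz
    obtain ⟨y, hy, hyz⟩ := hE2 hz
    refine ⟨y, hy.1.1, ?_, hy.1.2.1, ?_⟩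
    · intro h3
      exact hy.2 (by
        change eval y f = 0
        rw [hf, eval_map_eq, h3])
    · rw [← hmap, hyz]
  · calc ENNReal.ofReal c * P.vol d B
        ≤ ENNReal.ofReal c * (((N ^ (d + 1) : ℕ) : ENNReal) * P.vol d (BJ J)) := by gcongr
      _ = ((N ^ (d + 1) : ℕ) : ENNReal) * (ENNReal.ofReal c * P.vol d B') := by
        rw [hB'vol]; ring
      _ ≤ ((N ^ (d + 1) : ℕ) : ENNReal) * (k * P.vol d E) := by gcongr
      _ = ((N ^ (d + 1) * k : ℕ) : ENNReal) * P.vol d E := by
        push_cast; ring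

end Pool.GC
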