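import Mathlib
import Pool.Agent.GC.Defs
import Pool.Agent.GC.Stmts

set_option autoImplicit false

/-!
# Assembly of the main theorem from the module statements
-/

namespace Pool.GC

open MvPolynomial MeasureTheory NumberField Metric

section basic

variable {K : Type} [Field K] {N d : ℕ}

lemma plk_map (ξ : Fin d → Matrix (Fin N) (Fin N) K) (F : Type) [Field F] [Algebra K F]
    (u : Fin N → K) (J : Fin (d + 1) → Fin N) :
    plk ξ (fun i => algebraMap K F (u i)) J = algebraMap K F (plk ξ u J) := by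
  unfold plk
  rw [RingHom.map_det]
  congr 1
  ext a b
  refine Fin.cases ?_ (fun c => ?_) b
  · simp
  · simp [Matrix.mulVec, dotProduct]

lemma orb_map (v₀ : Fin N → K) (F : Type) [Field F] [Algebra K F]
    (γ : Matrix (Fin N) (Fin N) K) (i : Fin N) :
    orb v₀ (γ.map (algebraMap K F)) i = algebraMap K F (orb v₀ γ i) := by
  simp [orb, Matrix.mulVec, dotProduct]

lemma ev_mul (p q : MvPolynomial (Fin N × Fin N) K) {R : Type} [CommRing R] [Algebra K R]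
    (g : Matrix (Fin N) (Fin N) R) : ev (p * q) g = ev p g * ev q g := by
  simp [ev]

lemma integralOver_bot {A : Type} [Field A] [Algebra K A] {f : A}
    (h : IntegralOver (⊥ : Submodule K A) f) : f = 0 := by
  obtain ⟨r, a, hr, ha, hf⟩ := h
  have h0 : ∑ j ∈ Finset.Icc 1 r, a j * f ^ (r - j) = 0 := by
    refine Finset.sum_eq_zero fun j hj => ?_
    have hj1 : j ≠ 0 := by
      have := (Finset.mem_Icc.1 hj).1
      omega
    have h1 : a j ∈ (⊥ : Submodule K A) ^ j := ha j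
    have h2 : (⊥ : Submodule K A) ^ j = ⊥ := by
      obtain ⟨i, rfl⟩ : ∃ i, j = i + 1 := ⟨j - 1, by omega⟩
      rw [pow_succ, Submodule.mul_bot]
    rw [h2, Submodule.mem_bot] at h1
    rw [h1, zero_mul]
  rw [h0, add_zero] at hf
  exact pow_eq_zero_iff (by omega) |>.1 hf

end basic

theorem plk_ne_zero (hPAct : Stmt_PAct) {K : Type} [Field K] {N d a : ℕ}
    {I : Set (MvPolynomial (Fin N × Fin N) K)}
    {ξ : Fin d → Matrix (Fin N) (Fin N) K} {φ : Matrix (Fin N) (Fin N) (RF K d)}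
    {v₀ : Fin N → K} {L : Fin a → MvPolynomial (Fin N × Fin N) K}
    {Q : MvPolynomial (Fin N × Fin N) K} {m k : ℕ}
    (hI : IsGroup I) (hξ : IsLieBasis I ξ) (hφ : IsParam I φ) (hv : v₀ ≠ 0)
    (hm : 0 < m) (hQ : ev Q φ ≠ 0)
    (heff : ∀ i, IntegralOver
      (Submodule.span K (Set.range (plk ξ (orb v₀ φ))) ^ m *
        Submodule.span K (Set.range fun j => ev (L j) φ) ^ k)
      (ev Q φ * orb v₀ φ i ^ (m * (d + 1)))) : plk ξ (fun i => v₀ i) ≠ 0 := by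
  intro h0
  obtain ⟨l, hl⟩ := hPAct K N d I ξ hI hξ
  have h1 : plk ξ (orb v₀ φ) = 0 := by
    funext J
    have h2 := hl (RF K d) φ hφ.mem (fun i => algebraMap K (RF K d) (v₀ i)) J
    unfold orb
    rw [h2]
    have h3 : ∀ J' : Fin (d + 1) → Fin N,
        plk ξ (fun i => algebraMap K (RF K d) (v₀ i)) J' = 0 := by
      intro J'
      rw [plk_map ξ (RF K d) (fun i => v₀ i) J', h0]
      simp
    simp [h3]
  have h2 : Submodule.span K (Set.range (plk ξ (orb v₀ φ))) = ⊥ := by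
    rw [Submodule.span_eq_bot]
    rintro x ⟨J, rfl⟩
    rw [h1]; rfl
  have h3 : (Submodule.span K (Set.range (plk ξ (orb v₀ φ))) ^ m *
        Submodule.span K (Set.range fun j => ev (L j) φ) ^ k) = ⊥ := by
    rw [h2]
    obtain ⟨m', rfl⟩ : ∃ i, m = i + 1 := ⟨m - 1, by omega⟩
    rw [pow_succ, Submodule.mul_bot, Submodule.bot_mul]
  have h4 : ∀ i, orb v₀ φ i = 0 := by
    intro i
    have h5 := heff i
    rw [h3] at h5
    have h6 := integralOver_bot h5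
    rcases mul_eq_zero.1 h6 with h7 | h7
    · exact absurd h7 hQ
    · exact pow_eq_zero_iff (by positivity) |>.1 h7
  apply hv
  have h5 : φ.mulVec (fun i => algebraMap K (RF K d) (v₀ i)) = 0 := by
    funext i; exact h4 i
  have h6 : φ.adjugate.mulVec (φ.mulVec (fun i => algebraMap K (RF K d) (v₀ i))) = 0 := by
    rw [h5, Matrix.mulVec_zero]
  rw [Matrix.mulVec_mulVec, Matrix.adjugate_mul, hI.det _ φ hφ.mem, one_smul,
    Matrix.one_mulVec] at h6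
  funext i
  have h7 := congrFun h6 i
  simpa using h7

section count

variable {K : Type} [Field K] [NumberField K] {N d a : ℕ}

lemma one_le_qv (v : FinitePlace K) : (1 : ℝ) ≤ qv v := by
  have h : qv v ≠ 0 := by
    unfold qv
    exact Ideal.absNorm_ne_zero_of_nonZeroDivisors
      ⟨v.maximalIdeal.asIdeal, mem_nonZeroDivisors_of_ne_zero v.maximalIdeal.ne_bot⟩
  exact_mod_cast Nat.one_le_iff_ne_zero.2 h

lemma finite_bad (γ : Matrix (Fin N) (Fin N) K) :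
    {v : FinitePlace K | ∃ i j, 1 < v (γ i j)}.Finite := by
  have h : {v : FinitePlace K | ∃ i j, 1 < v (γ i j)} ⊆
      ⋃ i : Fin N, ⋃ j : Fin N, {v : FinitePlace K | γ i j ≠ 0 ∧ v (γ i j) ≠ 1} := by
    rintro v ⟨i, j, hij⟩
    simp only [Set.mem_iUnion]
    refine ⟨i, j, ?_, ne_of_gt hij⟩
    intro h0
    rw [h0, map_zero] at hij
    linarith
  refine Set.Finite.subset ?_ h
  refine Set.finite_iUnion fun i => Set.finite_iUnion fun j => ?_
  by_cases h0 : γ i j = 0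
  · simp [h0]
  · refine Set.Finite.subset (FinitePlace.hasFiniteMulSupport h0) ?_
    rintro v ⟨_, hv⟩
    exact hv

open Classical in
/-- the set of bad places of `γ` outside `S₀` -/
noncomputable def badSet (S₀ : Finset (FinitePlace K)) (γ : Matrix (Fin N) (Fin N) K) :
    Finset (FinitePlace K) := (finite_bad γ).toFinset \ S₀

lemma mem_badSet {S₀ : Finset (FinitePlace K)} {γ : Matrix (Fin N) (Fin N) K}
    {v : FinitePlace K} : v ∈ badSet S₀ γ ↔ (∃ i j, 1 < v (γ i j)) ∧ v ∉ S₀ := by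
  classical
  simp [badSet]

/-- the count on an open subset -/
theorem countU (hPAct : Stmt_PAct) (hPack : Stmt_Pack) (hSum : Stmt_Sum) (hQv : Stmt_Qv)
    (hHt : Stmt_Ht) (hEff : Stmt_Eff)
    {I : Set (MvPolynomial (Fin N × Fin N) K)}
    {ξ : Fin d → Matrix (Fin N) (Fin N) K} {φ : Matrix (Fin N) (Fin N) (RF K d)}
    {v₀ : Fin N → K} {L : Fin a → MvPolynomial (Fin N × Fin N) K}
    {Q : MvPolynomial (Fin N × Fin N) K} {m k : ℕ}
    (hI : IsGroup I) (hξ : IsLieBasis I ξ) (hφ : IsParam I φ) (hv : v₀ ≠ 0)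
    (hfree : FreeAt I v₀) (hbig : BigFam φ L)
    (hm : 0 < m) (hQ : ev Q φ ≠ 0)
    (heff : ∀ i, IntegralOver
      (Submodule.span K (Set.range (plk ξ (orb v₀ φ))) ^ m *
        Submodule.span K (Set.range fun j => ev (L j) φ) ^ k)
      (ev Q φ * orb v₀ φ i ^ (m * (d + 1)))) :
    ∃ (Λ : MvPolynomial (Fin N × Fin N) K) (C : ℝ) (e : ℕ), ev Λ φ ≠ 0 ∧ 0 ≤ C ∧
      ∀ T : ℝ, 1 ≤ T → ∀ 𝒢 : Finset (Matrix (Fin N) (Fin N) K),
      (∀ γ ∈ 𝒢, γ ∈ pts I K ∧ ev Λ γ ≠ 0 ∧ Height.mulHeight (fun j => ev (L j) γ) ≤ T) →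
      (𝒢.card : ℝ) ≤ C * T ^ ((k : ℝ) / (m : ℝ)) * (1 + Real.log T) ^ e := by
  classical
  have hplk := plk_ne_zero hPAct hI hξ hφ hv hm hQ heff
  obtain ⟨S₀, C₃, hC₃, hpack⟩ := hPack K N d I ξ φ v₀ hI hξ hφ hfree hplk
  obtain ⟨Λ₁, C₁, e₁, hΛ₁, hC₁, hht⟩ := hHt K N d a I φ L hφ hbig
  obtain ⟨C₂, hC₂, heff'⟩ := hEff K N d a I ξ φ v₀ L Q m k hφ hv hI heff
  obtain ⟨C₄, k₄, hC₄, hsum⟩ := hSum K C₃ hC₃
  have hmR : (0 : ℝ) < m := by exact_mod_cast hm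
  have hlogC₁ : 0 ≤ Real.log C₁ := Real.log_nonneg hC₁
  refine ⟨Λ₁ * Q, C₃ * C₂ ^ ((1 : ℝ) / m) * C₄ * (1 + Real.log C₁ + e₁) ^ k₄, k₄, ?_, ?_, ?_⟩
  · rw [ev_mul]; exact mul_ne_zero hΛ₁ hQ
  · positivity
  intro T hT 𝒢 h𝒢
  have hT0 : (0 : ℝ) < T := lt_of_lt_of_le one_pos hT
  have hlogT : 0 ≤ Real.log T := Real.log_nonneg hT
  set τ : ℝ := ((C₂ * T ^ k) ^ ((1 : ℝ) / m))⁻¹ with hτ
  have hCT : 0 < C₂ * T ^ k := by positivity
  have hτ0 : 0 < τ := by positivity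
  have hτm : τ ^ m = (C₂ * T ^ k)⁻¹ := by
    rw [hτ, inv_pow, ← Real.rpow_natCast, ← Real.rpow_mul hCT.le, one_div,
      inv_mul_cancel₀ hmR.ne', Real.rpow_one]
  -- each element satisfies the lower bound
  have hlow : ∀ γ ∈ 𝒢, τ ≤ Height.mulHeight (plk ξ (orb v₀ γ)) /
      Height.mulHeight (orb v₀ γ) ^ (d + 1) := by
    intro γ hγ
    obtain ⟨hγI, hγΛ, hγT⟩ := h𝒢 γ hγ
    have hQγ : ev Q γ ≠ 0 := by
      rw [ev_mul] at hγΛ; exact right_ne_zero_of_mul hγΛ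
    have h1 := heff' γ hγI hQγ
    set A := Height.mulHeight (plk ξ (orb v₀ γ)) with hA
    set B := Height.mulHeight (orb v₀ γ) with hB
    have hA0 : 0 < A := Height.mulHeight_pos _
    have hB0 : 0 < B := Height.mulHeight_pos _
    have h2 : B ^ (m * (d + 1)) ≤ (C₂ * T ^ k) * A ^ m := by
      refine h1.trans ?_
      have h3 : Height.mulHeight (fun j => ev (L j) γ) ^ k ≤ T ^ k :=
        pow_le_pow_left₀ (Height.mulHeight_pos _).le hγT k
      calc C₂ * A ^ m * Height.mulHeight (fun j => ev (L j) γ) ^ k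
          ≤ C₂ * A ^ m * T ^ k := by gcongr
        _ = (C₂ * T ^ k) * A ^ m := by ring
    have h3 : τ ^ m ≤ (A / B ^ (d + 1)) ^ m := by
      rw [hτm, div_pow, ← pow_mul, mul_comm (d + 1) m, le_div_iff₀ (by positivity),
        inv_mul_le_iff₀ hCT]
      exact h2
    exact le_of_pow_le_pow_left₀ (by omega) (by positivity) h3
  -- decomposition according to the bad set
  have hcard : (𝒢.card : ℝ) = ∑ S ∈ 𝒢.image (badSet S₀),
      ((𝒢.filter fun γ => badSet S₀ γ = S).card : ℝ) := by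
    have := Finset.card_eq_sum_card_image (badSet S₀) 𝒢
    exact_mod_cast this
  have hS : ∀ S ∈ 𝒢.image (badSet S₀), ((𝒢.filter fun γ => badSet S₀ γ = S).card : ℝ) ≤
      τ⁻¹ * C₃ * (C₃ ^ S.card * ∏ v ∈ S, ((qv v : ℝ))⁻¹) := by
    intro S hS
    obtain ⟨γ₀, hγ₀, rfl⟩ := Finset.mem_image.1 hS
    have h1 := hpack (badSet S₀ γ₀) (by
      rw [Finset.disjoint_left]
      intro v hv
      exact (mem_badSet.1 hv).2) (𝒢.filter fun γ => badSet S₀ γ = badSet S₀ γ₀) τ hτ0 (by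
      intro γ hγ
      obtain ⟨hγ1, hγ2⟩ := Finset.mem_filter.1 hγ
      refine ⟨(h𝒢 γ hγ1).1, fun v hv => ?_, hlow γ hγ1⟩
      rw [← hγ2, mem_badSet]
      exact ⟨fun h => h.1, fun h => ⟨h, hv⟩⟩)
    rw [pow_succ] at h1
    have h2 : ((𝒢.filter fun γ => badSet S₀ γ = badSet S₀ γ₀).card : ℝ) ≤
        (C₃ ^ (badSet S₀ γ₀).card * C₃ * ∏ v ∈ badSet S₀ γ₀, ((qv v : ℝ))⁻¹) / τ := by
      rw [le_div_iff₀ hτ0]
      exact h1
    refine h2.trans (le_of_eq ?_)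
    rw [div_eq_mul_inv]
    ring
  have hX : ∀ S ∈ 𝒢.image (badSet S₀), ∏ v ∈ S, (qv v : ℝ) ≤ C₁ * T ^ e₁ := by
    intro S hS
    obtain ⟨γ₀, hγ₀, rfl⟩ := Finset.mem_image.1 hS
    obtain ⟨hγI, hγΛ, hγT⟩ := h𝒢 γ₀ hγ₀
    have hΛγ : ev Λ₁ γ₀ ≠ 0 := by
      rw [ev_mul] at hγΛ; exact left_ne_zero_of_mul hγΛ
    refine (hQv K N γ₀ (badSet S₀ γ₀) fun v hv => (mem_badSet.1 hv).1).trans ?_
    refine (hht γ₀ hγI hΛγ).trans ?_
    have h3 : Height.mulHeight (fun j => ev (L j) γ₀) ^ e₁ ≤ T ^ e₁ :=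
      pow_le_pow_left₀ (Height.mulHeight_pos _).le hγT e₁
    gcongr
  have hX1 : 1 ≤ C₁ * T ^ e₁ := by
    have : 1 ≤ T ^ e₁ := one_le_pow₀ hT
    nlinarith
  have h5 := hsum (C₁ * T ^ e₁) hX1 (𝒢.image (badSet S₀)) hX
  have hlogX : 1 + Real.log (C₁ * T ^ e₁) ≤ (1 + Real.log C₁ + e₁) * (1 + Real.log T) := by
    rw [Real.log_mul (by positivity) (by positivity), Real.log_pow]
    have he : (0 : ℝ) ≤ e₁ := by positivity
    nlinarith [mul_nonneg hlogC₁ hlogT, mul_nonneg he hlogT]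
  have hlogX0 : 0 ≤ 1 + Real.log (C₁ * T ^ e₁) := by
    have := Real.log_nonneg hX1
    linarith
  have hτinv : τ⁻¹ = C₂ ^ ((1 : ℝ) / m) * T ^ ((k : ℝ) / m) := by
    rw [hτ, inv_inv, Real.mul_rpow (by positivity) (by positivity), ← Real.rpow_natCast T k,
      ← Real.rpow_mul hT0.le]
    congr 2
    ring
  calc (𝒢.card : ℝ) = ∑ S ∈ 𝒢.image (badSet S₀),
      ((𝒢.filter fun γ => badSet S₀ γ = S).card : ℝ) := hcard
    _ ≤ ∑ S ∈ 𝒢.image (badSet S₀),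
        τ⁻¹ * C₃ * (C₃ ^ S.card * ∏ v ∈ S, ((qv v : ℝ))⁻¹) := Finset.sum_le_sum hS
    _ = τ⁻¹ * C₃ * ∑ S ∈ 𝒢.image (badSet S₀), (C₃ ^ S.card * ∏ v ∈ S, ((qv v : ℝ))⁻¹) := by
        rw [Finset.mul_sum]
    _ ≤ τ⁻¹ * C₃ * (C₄ * (1 + Real.log (C₁ * T ^ e₁)) ^ k₄) := by gcongr
    _ ≤ τ⁻¹ * C₃ * (C₄ * ((1 + Real.log C₁ + e₁) * (1 + Real.log T)) ^ k₄) := by gcongr
    _ = C₃ * C₂ ^ ((1 : ℝ) / m) * C₄ * (1 + Real.log C₁ + e₁) ^ k₄ *
        T ^ ((k : ℝ) / (m : ℝ)) * (1 + Real.log T) ^ k₄ := by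
        rw [hτinv, mul_pow]; ring

end count

theorem main_proof (hPAct : Stmt_PAct) (hPack : Stmt_Pack) (hSum : Stmt_Sum) (hQv : Stmt_Qv)
    (hHt : Stmt_Ht) (hEff : Stmt_Eff) (hTrans : Stmt_Trans) : Stmt_Main := by
  intro K _ _ N d a I ξ φ v₀ L Q m k hI hξ hφ hv hfree hL hbig hm hQ heff
  classical
  obtain ⟨Λ, C, e, hΛ, hC, hU⟩ :=
    countU hPAct hPack hSum hQv hHt hEff hI hξ hφ hv hfree hbig hm hQ heff
  obtain ⟨hcov, hht⟩ := hTrans K N d a I φ L hI hφ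
  obtain ⟨ℋ, hℋ, hcov⟩ := hcov Λ hΛ
  have hht' : ∀ h : Matrix (Fin N) (Fin N) K, ∃ C : ℝ, 1 ≤ C ∧ (h ∈ ℋ →
      ∀ γ : Matrix (Fin N) (Fin N) K, γ ∈ pts I K →
        Height.mulHeight (fun j => ev (L j) (h * γ)) ≤
          C * Height.mulHeight (fun j => ev (L j) γ)) := by
    intro h
    by_cases hh : h ∈ ℋ
    · obtain ⟨C, hC, h1⟩ := hht hL h (hℋ h hh)
      exact ⟨C, hC, fun _ => h1⟩
    · exact ⟨1, le_refl _, fun h' => absurd h' hh⟩
  choose D hD1 hD using hht'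
  have hmR : (0 : ℝ) < m := by exact_mod_cast hm
  -- the bound for finite subsets
  have key : ∀ T : ℝ, 1 ≤ T → ∀ 𝒢 : Finset (Matrix (Fin N) (Fin N) K),
      (∀ γ ∈ 𝒢, γ ∈ pts I K ∧ Height.mulHeight (fun j => ev (L j) γ) ≤ T) →
      (𝒢.card : ℝ) ≤ (∑ h ∈ ℋ, C * D h ^ ((k : ℝ) / m) * (1 + Real.log (D h)) ^ e) *
        T ^ ((k : ℝ) / (m : ℝ)) * (1 + Real.log T) ^ e := by
    intro T hT 𝒢 h𝒢
    have hT0 : (0 : ℝ) < T := lt_of_lt_of_le one_pos hT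
    have hlogT : 0 ≤ Real.log T := Real.log_nonneg hT
    have h1 : 𝒢 ⊆ ℋ.biUnion fun h => 𝒢.filter fun γ => ev Λ (h * γ) ≠ 0 := by
      intro γ hγ
      obtain ⟨h, hh, hne⟩ := hcov γ (h𝒢 γ hγ).1
      exact Finset.mem_biUnion.2 ⟨h, hh, Finset.mem_filter.2 ⟨hγ, hne⟩⟩
    have h2 : (𝒢.card : ℝ) ≤ ∑ h ∈ ℋ, ((𝒢.filter fun γ => ev Λ (h * γ) ≠ 0).card : ℝ) := by
      have := (Finset.card_le_card h1).trans Finset.card_biUnion_le
      exact_mod_cast this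
    refine h2.trans ?_
    rw [Finset.sum_mul, Finset.sum_mul]
    refine Finset.sum_le_sum fun h hh => ?_
    have hinj : Set.InjOn (fun γ => h * γ) ((𝒢.filter fun γ => ev Λ (h * γ) ≠ 0) : Set _) := by
      intro γ _ γ' _ hγγ'
      have h3 : h.adjugate * (h * γ) = h.adjugate * (h * γ') := by
        simp only at hγγ'
        rw [hγγ']
      rwa [← Matrix.mul_assoc, ← Matrix.mul_assoc, Matrix.adjugate_mul,
        hI.det K h (hℋ h hh), one_smul, Matrix.one_mul, Matrix.one_mul] at h3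
    have hcard : ((𝒢.filter fun γ => ev Λ (h * γ) ≠ 0).card : ℝ) =
        (((𝒢.filter fun γ => ev Λ (h * γ) ≠ 0).image fun γ => h * γ).card : ℝ) := by
      rw [Finset.card_image_of_injOn hinj]
    have hDT : 1 ≤ D h * T := by
      have := hD1 h
      nlinarith
    have hD0 : 0 < D h := lt_of_lt_of_le one_pos (hD1 h)
    have hlogD : 0 ≤ Real.log (D h) := Real.log_nonneg (hD1 h)
    have h4 := hU (D h * T) hDT
      ((𝒢.filter fun γ => ev Λ (h * γ) ≠ 0).image fun γ => h * γ) (by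
      intro γ' hγ'
      obtain ⟨γ, hγ, rfl⟩ := Finset.mem_image.1 hγ'
      obtain ⟨hγ1, hγ2⟩ := Finset.mem_filter.1 hγ
      refine ⟨hI.mul K h γ (hℋ h hh) (h𝒢 γ hγ1).1, hγ2, ?_⟩
      refine (hD h hh γ (h𝒢 γ hγ1).1).trans ?_
      exact mul_le_mul_of_nonneg_left (h𝒢 γ hγ1).2 hD0.le)
    rw [hcard]
    refine h4.trans ?_
    have hlog : 1 + Real.log (D h * T) ≤ (1 + Real.log (D h)) * (1 + Real.log T) := by
      rw [Real.log_mul hD0.ne' hT0.ne']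
      nlinarith [mul_nonneg hlogD hlogT]
    have hlog0 : 0 ≤ 1 + Real.log (D h * T) := by
      have := Real.log_nonneg hDT
      linarith
    calc C * (D h * T) ^ ((k : ℝ) / m) * (1 + Real.log (D h * T)) ^ e
        ≤ C * (D h * T) ^ ((k : ℝ) / m) * ((1 + Real.log (D h)) * (1 + Real.log T)) ^ e := by
          gcongr
      _ = C * D h ^ ((k : ℝ) / m) * (1 + Real.log (D h)) ^ e * T ^ ((k : ℝ) / (m : ℝ)) *
          (1 + Real.log T) ^ e := by
          rw [Real.mul_rpow hD0.le hT0.le, mul_pow]; ring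
  refine ⟨∑ h ∈ ℋ, C * D h ^ ((k : ℝ) / m) * (1 + Real.log (D h)) ^ e, e, ?_⟩
  intro T hT
  have hfin : {γ | γ ∈ pts I K ∧ Height.mulHeight (fun j => ev (L j) γ) ≤ T}.Finite := by
    by_contra hinf
    obtain ⟨n, hn⟩ := exists_nat_gt ((∑ h ∈ ℋ, C * D h ^ ((k : ℝ) / m) *
      (1 + Real.log (D h)) ^ e) * T ^ ((k : ℝ) / (m : ℝ)) * (1 + Real.log T) ^ e)
    obtain ⟨𝒢, h𝒢, hcard⟩ := (Set.not_finite.1 hinf |> id : Set.Infinite _).exists_subset_card_eq n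
    have := key T hT 𝒢 fun γ hγ => h𝒢 hγ
    rw [hcard] at this
    linarith
  refine ⟨hfin, ?_⟩
  have h1 := key T hT hfin.toFinset fun γ hγ => (hfin.mem_toFinset.1 hγ)
  rwa [← Set.ncard_eq_toFinset_card _ hfin] at h1

end Pool.GC
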