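import Pool.Agent.GC.Stmts

set_option autoImplicit false

/-! Squad GC, module NULL: zero sets of polynomials are null sets. -/

namespace Pool.GC

open MvPolynomial MeasureTheory NumberField Metric

namespace NullX

variable {K : Type} [Field K] (P : LF K)

theorem measurable_zero {d : ℕ} (f : MvPolynomial (Fin d) P.F) :
    MeasurableSet {y : Fin d → P.F | eval y f = 0} :=
  (isClosed_singleton.preimage (MvPolynomial.continuous_eval f)).measurableSet

theorem eval_cons {d : ℕ} (f : MvPolynomial (Fin (d + 1)) P.F) (x : P.F) (y : Fin d → P.F) :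
    eval (Fin.cons x y : Fin (d + 1) → P.F) f =
      eval y (Polynomial.eval (C x) (finSuccEquiv P.F d f)) := by
  rw [MvPolynomial.eval_eq_eval_mv_eval', Polynomial.eval_map, Polynomial.eval,
    Polynomial.hom_eval₂]
  simp

end NullX

open NullX

theorem null_proof : Stmt_Null := by
  intro K _ P d
  induction d with
  | zero =>
    intro f hf
    have : {y : Fin 0 → P.F | eval y f = 0} = ∅ := by
      ext y
      simp only [Set.mem_ofPred_eq, Set.mem_empty_iff_false, iff_false]
      intro h
      apply hf
      rw [MvPolynomial.eq_C_of_isEmpty f] at h ⊢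
      rw [eval_C] at h
      rw [h, C_0]
    rw [this, measure_empty]
  | succ d ih =>
    intro f hf
    unfold LF.vol at *
    have hmp := measurePreserving_piFinSuccAbove (fun _ : Fin (d + 1) => P.μ) 0
    set e := MeasurableEquiv.piFinSuccAbove (fun _ : Fin (d + 1) => P.F) 0
    have hs := measurable_zero P f
    have h1 : (Measure.pi fun _ : Fin (d + 1) => P.μ) {y | eval y f = 0} =
        (P.μ.prod (Measure.pi fun _ : Fin d => P.μ)) (e.symm ⁻¹' {y | eval y f = 0}) := by
      have := hmp.symm.measure_preimage_equiv {y | eval y f = 0}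
      exact this.symm
    rw [h1, Measure.measure_prod_null (e.symm.measurable hs)]
    have hfin : {x : P.F | Polynomial.eval (C x) (finSuccEquiv P.F d f) = 0}.Finite := by
      have hne : finSuccEquiv P.F d f ≠ 0 := by
        rw [Ne, EmbeddingLike.map_eq_zero_iff]
        exact hf
      have := (Polynomial.finite_setOfPred_isRoot hne).preimage (f := (C : P.F → MvPolynomial (Fin d) P.F))
        (C_injective _ _).injOn
      exact this
    have hnull := hfin.measure_zero P.μ
    have hae : ∀ᵐ x ∂P.μ, Polynomial.eval (C x) (finSuccEquiv P.F d f) ≠ 0 := by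
      rw [ae_iff]
      simpa using hnull
    filter_upwards [hae] with x hx
    have h2 := ih _ hx
    have h3 : Prod.mk x ⁻¹' (e.symm ⁻¹' {y | eval y f = 0}) =
        {y | eval y (Polynomial.eval (C x) (finSuccEquiv P.F d f)) = 0} := by
      ext y
      simp only [Set.mem_preimage, Set.mem_ofPred_eq]
      rw [← eval_cons]
      have : e.symm (x, y) = (Fin.cons x y : Fin (d + 1) → P.F) := by
        simp [e, MeasurableEquiv.piFinSuccAbove, Fin.insertNthEquiv]
      rw [this]
    rw [h3]
    exact h2

end Pool.GC
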