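import Mathlib
import Pool.Agent.GC.Defs
import Pool.Agent.GC.Stmts

set_option autoImplicit false

/-!
# NUM: numerators of functions on the group along the parametrisation
-/

namespace Pool.GC

open MvPolynomial

/-- clearing denominators -/
theorem exists_num {K : Type} [Field K] {N d : ℕ}
    (Φ : Matrix (Fin N) (Fin N) (MvPolynomial (Fin d) K)) (δ : MvPolynomial (Fin d) K)
    (Λ : MvPolynomial (Fin N × Fin N) K) :
    ∃ (n : MvPolynomial (Fin d) K) (D : ℕ), ∀ (F : Type) [Field F] [Algebra K F] (y : Fin d → F),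
      aeval y δ ≠ 0 → aeval y n = (aeval y δ) ^ D * ev Λ (phiAt Φ δ y) := by
  induction Λ using MvPolynomial.induction_on with
  | C a =>
    refine ⟨C a, 0, ?_⟩
    intro F _ _ y _
    simp [ev]
  | add p q hp hq =>
    obtain ⟨n₁, D₁, h₁⟩ := hp
    obtain ⟨n₂, D₂, h₂⟩ := hq
    refine ⟨δ ^ D₂ * n₁ + δ ^ D₁ * n₂, D₁ + D₂, ?_⟩
    intro F _ _ y hy
    rw [map_add, map_mul, map_mul, map_pow, map_pow, h₁ F y hy, h₂ F y hy]
    simp only [ev, map_add]
    ring
  | mul_X p ij hp =>
    obtain ⟨n, D, h⟩ := hp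
    refine ⟨n * Φ ij.1 ij.2, D + 1, ?_⟩
    intro F _ _ y hy
    rw [map_mul, h F y hy]
    simp only [ev, map_mul, aeval_X, phiAt, Matrix.of_apply]
    field_simp
    ring

/-- composition with a right multiplication -/
theorem exists_rmul {K : Type} [Field K] {N : ℕ} (γ : Matrix (Fin N) (Fin N) K)
    (Λ : MvPolynomial (Fin N × Fin N) K) :
    ∃ Λ' : MvPolynomial (Fin N × Fin N) K, ∀ (F : Type) [Field F] [Algebra K F]
      (g : Matrix (Fin N) (Fin N) F), ev Λ' g = ev Λ (g * γ.map (algebraMap K F)) := by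
  refine ⟨aeval (fun ij : Fin N × Fin N => ∑ k, X (ij.1, k) * C (γ k ij.2)) Λ, ?_⟩
  intro F _ _ g
  have h := comp_aeval_apply (f := fun ij : Fin N × Fin N =>
    (∑ k, X (ij.1, k) * C (γ k ij.2) : MvPolynomial (Fin N × Fin N) K))
    (aeval (R := K) fun ij : Fin N × Fin N => g ij.1 ij.2) Λ
  unfold ev
  rw [h]
  congr 2
  funext ij
  simp [Matrix.mul_apply]

theorem num_proof : Stmt_Num := by
  intro K _ N d I ξ φ D hG hφ hD Λ hΛ γ hγ
  obtain ⟨Λ', hΛ'⟩ := exists_rmul γ Λ
  have hδ : D.δ ≠ 0 := fun h => hD.ne (by obtain ⟨c, hc⟩ := hD.dvd; rw [hc, h, zero_mul])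
  have hne : ev Λ' φ ≠ 0 := by
    intro h0
    have h1 := hφ.dense Λ' h0 (RF K d) (φ * (γ.adjugate).map (algebraMap K (RF K d))) (by
      apply hG.mul _ _ _ hφ.mem
      have h2 := hG.inv K γ hγ
      intro p hp
      have h3 := h2 p hp
      have h4 : ev p (γ.adjugate.map (algebraMap K (RF K d))) =
          algebraMap K (RF K d) (ev p γ.adjugate) := by
        unfold ev
        have := comp_aeval_apply (f := fun ij : Fin N × Fin N => γ.adjugate ij.1 ij.2)
          (Algebra.ofId K (RF K d)) p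
        rw [show algebraMap K (RF K d) ((aeval fun ij : Fin N × Fin N => γ.adjugate ij.1 ij.2) p) =
          (Algebra.ofId K (RF K d)) ((aeval fun ij : Fin N × Fin N => γ.adjugate ij.1 ij.2) p)
          from rfl, this]
        congr 2
      rw [h4, h3, map_zero])
    rw [hΛ', Matrix.mul_assoc, ← Matrix.map_mul, Matrix.adjugate_mul, hG.det K γ hγ, one_smul,
      Matrix.map_one _ (map_zero _) (map_one _), Matrix.mul_one] at h1
    exact hΛ h1
  obtain ⟨n, e, hn⟩ := exists_num D.Φ D.δ Λ'
  refine ⟨n, ?_, ?_⟩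
  · intro h0
    have hgen : ∀ p : MvPolynomial (Fin d) K,
        aeval (fun i => algebraMap (MvPolynomial (Fin d) K) (RF K d) (X i)) p =
          algebraMap (MvPolynomial (Fin d) K) (RF K d) p := by
      intro p
      have h := comp_aeval_apply (f := (X : Fin d → MvPolynomial (Fin d) K))
        (IsScalarTower.toAlgHom K (MvPolynomial (Fin d) K) (RF K d)) p
      rw [aeval_X_left_apply] at h
      exact h.symm
    have h1 := hn (RF K d) (fun i => algebraMap (MvPolynomial (Fin d) K) (RF K d) (X i)) (by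
      rw [hgen]
      exact fun h => hδ ((IsFractionRing.injective (MvPolynomial (Fin d) K) (RF K d))
        (by rw [h, map_zero])))
    have h2 : phiAt D.Φ D.δ (fun i => algebraMap (MvPolynomial (Fin d) K) (RF K d) (X i)) = φ := by
      ext i j
      rw [phiAt, Matrix.of_apply, hgen, hgen, hD.eq]
    rw [h2, h0, map_zero, hgen] at h1
    have h3 : algebraMap (MvPolynomial (Fin d) K) (RF K d) D.δ ≠ 0 :=
      fun h => hδ ((IsFractionRing.injective (MvPolynomial (Fin d) K) (RF K d))
        (by rw [h, map_zero]))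
    exact (mul_ne_zero (pow_ne_zero _ h3) hne) h1.symm
  · intro F _ _ y hΔ hny
    have hδy : aeval y D.δ ≠ 0 := by
      obtain ⟨c, hc⟩ := hD.dvd
      intro h
      apply hΔ
      rw [hc, map_mul, h, zero_mul]
    rw [hn F y hδy, hΛ'] at hny
    exact right_ne_zero_of_mul hny

end Pool.GC
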