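import Pool.Agent.GC.Stmts

set_option autoImplicit false

namespace Pool.GC

namespace PRelX

variable {K : Type} [Field K] {N d : ℕ}

/-- the columns `u, ξ_1 u, …` -/
def V (ξ : Fin d → Matrix (Fin N) (Fin N) K) {F : Type} [Field F] [Algebra K F]
    (u : Fin N → F) (n : Fin N) (b : Fin (d + 1)) : F :=
  Fin.cases (motive := fun _ => F) (u n)
    (fun c : Fin d => ((ξ c).map (algebraMap K F)).mulVec u n) b

theorem plk_eq (ξ : Fin d → Matrix (Fin N) (Fin N) K) {F : Type} [Field F] [Algebra K F]
    (u : Fin N → F) (J : Fin (d + 1) → Fin N) :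
    plk ξ u J = Matrix.det (Matrix.of fun a b : Fin (d + 1) => V ξ u (J a) b) := rfl

end PRelX

open PRelX in
theorem pRel_proof : Stmt_PRel := by
  intro K _ N d ξ F _ _ u j₀ J
  constructor
  · intro c
    rw [plk_eq, plk_eq]
    have : (Matrix.of fun a b : Fin (d + 1) => V ξ (c • u) (J a) b) =
        c • (Matrix.of fun a b : Fin (d + 1) => V ξ u (J a) b) := by
      ext a b
      refine Fin.cases ?_ (fun b => ?_) b
      · simp [V]
      · simp [V, Matrix.mulVec_smul]
    rw [this, Matrix.det_smul, Fintype.card_fin]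
  · set rows : Fin (d + 2) → Fin N := Fin.cons (α := fun _ => Fin N) j₀ J with hrows
    set W : Matrix (Fin (d + 2)) (Fin (d + 2)) F :=
      Matrix.of fun r b => Fin.cases (motive := fun _ => F) (u (rows r)) (V ξ u (rows r)) b with hW
    have hdet : W.det = 0 := by
      refine Matrix.det_zero_of_column_eq (i := 0) (j := 1) (by simp) ?_
      intro k
      have e1 : W k 0 = u (rows k) := rfl
      have e2 : W k 1 = u (rows k) := rfl
      rw [e1, e2]
    rw [Matrix.det_succ_column_zero, Fin.sum_univ_succ] at hdet
    have h0 : (W.submatrix (Fin.succAbove 0) Fin.succ).det = plk ξ u J := by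
      rw [plk_eq]
      congr 1
    have hs : ∀ i : Fin (d + 1), (W.submatrix (i.succ).succAbove Fin.succ).det =
        plk ξ u (Fin.cons (α := fun _ => Fin N) j₀ fun a : Fin d => J (i.succAbove a)) := by
      intro i
      rw [plk_eq]
      congr 1
      ext a b
      change V ξ u (rows ((i.succ).succAbove a)) b = V ξ u _ b
      congr 1
      refine Fin.cases ?_ (fun a => ?_) a
      · simp [hrows]
      · simp [hrows, Fin.succ_succAbove_succ]
    rw [h0] at hdet
    simp only [hs] at hdet
    have e0 : W 0 0 = u j₀ := rfl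
    have es : ∀ i : Fin (d + 1), W i.succ 0 = u (J i) := fun i => rfl
    rw [e0] at hdet
    simp only [es, Fin.val_zero, pow_zero, one_mul, Fin.val_succ, pow_succ] at hdet
    rw [← sub_eq_zero, ← hdet, sub_eq_add_neg, ← Finset.sum_neg_distrib]
    congr 1
    refine Finset.sum_congr rfl ?_
    intro i _
    ring

end Pool.GC
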