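import Mathlib
import Pool.Agent.GC.Defs
import Pool.Agent.GC.Stmts
import Pool.Agent.GC.Main

set_option autoImplicit false

/-!
# Packing: the local input at one place
-/

namespace Pool.GC

open MvPolynomial MeasureTheory NumberField Metric

/-- the relations for all index tuples -/
structure IsRelFam {K : Type} [Field K] {N d : ℕ} (I : Set (MvPolynomial (Fin N × Fin N) K))
    (ξ : Fin d → Matrix (Fin N) (Fin N) K) (φ : Matrix (Fin N) (Fin N) (RF K d))
    (v₀ : Fin N → K) (V : Set (Fin (d + 1) → Fin N))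
    (Λ : (Fin (d + 1) → Fin N) → MvPolynomial (Fin N × Fin N) K) (D : ℕ)
    (c : (Fin (d + 1) → Fin N) → MvPolynomial (Fin d) K) (𝒞 : Finset K) : Prop where
  inv : ∀ J, J ∉ V → ∀ (F : Type) [Field F] [Algebra K F] (g : Matrix (Fin N) (Fin N) F),
    g ∈ pts I F → orb v₀ g (J 0) * plk ξ (orb v₀ g) J = 0
  ne : ∀ J, J ∈ V → ev (Λ J) φ ≠ 0
  cne : ∀ J, J ∈ V → c J ≠ 0
  orbne : ∀ J, J ∈ V → ∀ (F : Type) [Field F] [Algebra K F] (g : Matrix (Fin N) (Fin N) F),
    g ∈ pts I F → ev (Λ J) g ≠ 0 → orb v₀ g (J 0) ≠ 0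
  fib : ∀ J, J ∈ V → ∀ (F : Type) [Field F] [Algebra K F] (z : Fin d → F),
        {x : Fin N → F | ∃ g ∈ pts I F, ev (Λ J) g ≠ 0 ∧ x = (orb v₀ g (J 0))⁻¹ • orb v₀ g ∧
          zc J (orb v₀ g) = z}.encard ≤ D
  integ : ∀ J, J ∈ V → ∀ (F : Type) [NormedField F] [Algebra K F],
        (∀ x y : F, ‖x + y‖ ≤ max ‖x‖ ‖y‖) →
        (∀ κ ∈ 𝒞, ‖algebraMap K F κ‖ ≤ 1) → ∀ g : Matrix (Fin N) (Fin N) F, g ∈ pts I F →
        orb v₀ g (J 0) ≠ 0 → (∀ i, ‖zc J (orb v₀ g) i‖ ≤ 1) → (∃ i j, 1 < ‖g i j‖) →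
        ‖aeval (zc J (orb v₀ g)) (c J)‖ < 1

open Classical in
theorem exists_relFam (hRel : Stmt_Rel) {K : Type} [Field K] [CharZero K] {N d : ℕ}
    {I : Set (MvPolynomial (Fin N × Fin N) K)}
    {ξ : Fin d → Matrix (Fin N) (Fin N) K} {φ : Matrix (Fin N) (Fin N) (RF K d)}
    (v₀ : Fin N → K) (hI : IsGroup I) (hξ : IsLieBasis I ξ) (hφ : IsParam I φ) :
    ∃ V Λ D c 𝒞, IsRelFam I ξ φ v₀ V Λ D c 𝒞 := by
  have h := hRel K N d I ξ φ v₀ hI hξ hφ
  let Inv : (Fin (d + 1) → Fin N) → Prop := fun J =>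
    ∀ (F : Type) [Field F] [Algebra K F] (g : Matrix (Fin N) (Fin N) F), g ∈ pts I F →
      orb v₀ g (J 0) * plk ξ (orb v₀ g) J = 0
  have h2 : ∀ J : Fin (d + 1) → Fin N, ∃ (Λ : MvPolynomial (Fin N × Fin N) K) (D : ℕ)
      (c : MvPolynomial (Fin d) K) (𝒞 : Finset K), ¬ Inv J →
      ev Λ φ ≠ 0 ∧ c ≠ 0 ∧
      (∀ (F : Type) [Field F] [Algebra K F] (g : Matrix (Fin N) (Fin N) F), g ∈ pts I F →
        ev Λ g ≠ 0 → orb v₀ g (J 0) ≠ 0) ∧
      (∀ (F : Type) [Field F] [Algebra K F] (z : Fin d → F),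
        {x : Fin N → F | ∃ g ∈ pts I F, ev Λ g ≠ 0 ∧
          x = (orb v₀ g (J 0))⁻¹ • orb v₀ g ∧
          zc J (orb v₀ g) = z}.encard ≤ D) ∧
      ∀ (F : Type) [NormedField F] [Algebra K F], (∀ x y : F, ‖x + y‖ ≤ max ‖x‖ ‖y‖) →
        (∀ κ ∈ 𝒞, ‖algebraMap K F κ‖ ≤ 1) → ∀ g : Matrix (Fin N) (Fin N) F, g ∈ pts I F →
        orb v₀ g (J 0) ≠ 0 → (∀ i, ‖zc J (orb v₀ g) i‖ ≤ 1) →
        (∃ i j, 1 < ‖g i j‖) →
        ‖aeval (zc J (orb v₀ g)) c‖ < 1 := by
    intro J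
    rcases h J with h1 | ⟨Λ, D, c, 𝒞, h1⟩
    · exact ⟨0, 0, 0, ∅, fun hn => absurd h1 hn⟩
    · exact ⟨Λ, D, c, 𝒞, fun _ => h1⟩
  choose Λ D c 𝒞 hh using h2
  refine ⟨{J | ¬ Inv J}, Λ, Finset.univ.sup D, c, Finset.univ.biUnion 𝒞, ?_⟩
  refine
    { inv := ?_
      ne := fun J hJ => (hh J hJ).1
      cne := fun J hJ => (hh J hJ).2.1
      orbne := fun J hJ => (hh J hJ).2.2.1
      fib := ?_
      integ := ?_ }
  · intro J hJ
    have : Inv J := by
      by_contra h3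
      exact hJ h3
    exact this
  · intro J hJ F _ _ z
    refine le_trans ((hh J hJ).2.2.2.1 F z) ?_
    exact_mod_cast Finset.le_sup (f := D) (Finset.mem_univ J)
  · intro J hJ F _ _ h1 h2
    refine (hh J hJ).2.2.2.2 F h1 fun κ hκ => h2 κ ?_
    exact Finset.mem_biUnion.2 ⟨J, Finset.mem_univ J, hκ⟩

/-- local data at one place -/
structure LocD (K : Type) [Field K] {N d : ℕ} (ξ : Fin d → Matrix (Fin N) (Fin N) K)
    (G : GeoData K N d) where
  P : LF K
  e0 : P.e ≠ 0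
  cv : P.CV
  nul : P.Null
  B : Set (Fin d → P.F)
  c₀ : ℝ
  mB : MeasurableSet B
  c₀pos : 0 < c₀
  vB : P.vol d B ≠ 0
  vB' : P.vol d B ≠ ⊤
  cmp : CMP ξ G P B c₀

/-- the local factor of the height quotient -/
noncomputable def hfac {K : Type} [Field K] {N d : ℕ} (ξ : Fin d → Matrix (Fin N) (Fin N) K)
    (P : LF K) (w : Fin N → K) : ℝ :=
  (‖plk ξ (fun i => algebraMap K P.F (w i))‖ /
    ‖(fun i => algebraMap K P.F (w i))‖ ^ (d + 1)) ^ P.e

section alg

variable {K : Type} [Field K] {N d : ℕ} {F : Type} [Field F] [Algebra K F]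

lemma phiAt_eq (Φ : Matrix (Fin N) (Fin N) (MvPolynomial (Fin d) K))
    (δ : MvPolynomial (Fin d) K) (y : Fin d → F) :
    phiAt Φ δ y = (aeval y δ)⁻¹ • phiNum Φ y := by
  ext i j
  simp [phiAt, phiNum, div_eq_inv_mul]

lemma orb_mul (v₀ : Fin N → K) (g : Matrix (Fin N) (Fin N) F) (γ : Matrix (Fin N) (Fin N) K) :
    orb v₀ (g * γ.map (algebraMap K F)) =
      g.mulVec (fun i => algebraMap K F (orb v₀ γ i)) := by
  have h : (γ.map (algebraMap K F)).mulVec (fun i => algebraMap K F (v₀ i)) =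
      fun i => algebraMap K F (orb v₀ γ i) := by
    funext i
    exact orb_map v₀ F γ i
  unfold orb at *
  rw [← Matrix.mulVec_mulVec, h]

lemma orb_mul' (v₀ : Fin N → K) (g h : Matrix (Fin N) (Fin N) F) :
    orb v₀ (g * h) = g.mulVec (orb v₀ h) := by
  unfold orb
  rw [← Matrix.mulVec_mulVec]

lemma zc_smul (J : Fin (d + 1) → Fin N) (c : F) (hc : c ≠ 0) (u : Fin N → F) :
    zc J (c • u) = zc J u := by
  funext i
  simp only [zc, Pi.smul_apply, smul_eq_mul]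
  rw [mul_div_mul_left _ _ hc]

/-- equal lines come from equal group elements -/
lemma eq_of_line {I : Set (MvPolynomial (Fin N × Fin N) K)} {v₀ : Fin N → K}
    (hI : IsGroup I) (hF : FreeAt I v₀) (g g' : Matrix (Fin N) (Fin N) F)
    (hg : g ∈ pts I F) (hg' : g' ∈ pts I F) (c : F) (h : orb v₀ g = c • orb v₀ g') : g = g' := by
  have h1 : g'.adjugate * g ∈ pts I F := hI.mul F _ _ (hI.inv F _ hg') hg
  have h2 : orb v₀ (g'.adjugate * g) = c • orb v₀ (1 : Matrix (Fin N) (Fin N) F) := by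
    rw [orb_mul', h, Matrix.mulVec_smul, ← orb_mul', Matrix.adjugate_mul, hI.det F g' hg',
      one_smul]
  have h3 := hF F _ h1 c h2
  have h4 : g' * (g'.adjugate * g) = g := by
    rw [← Matrix.mul_assoc, Matrix.mul_adjugate, hI.det F g' hg', one_smul, Matrix.one_mul]
  rw [h3, Matrix.mul_one] at h4
  exact h4.symm

/-- cardinality of a set with finite image and finite fibres -/
lemma encard_le_mul {A X : Type} (S : Set A) (T : Set X) (f : A → X) (m n : ℕ)
    (hf : ∀ a ∈ S, f a ∈ T) (hT : T.encard ≤ m)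
    (hfib : ∀ x ∈ T, {a | a ∈ S ∧ f a = x}.encard ≤ n) : S.encard ≤ (m * n : ℕ) := by
  classical
  have hTf : T.Finite := Set.finite_of_encard_le_coe hT
  have hcov : S = ⋃ x ∈ T, {a | a ∈ S ∧ f a = x} := by
    ext a
    simp only [Set.mem_iUnion, Set.mem_setOf_eq, exists_prop]
    constructor
    · intro ha
      exact ⟨f a, hf a ha, ha, rfl⟩
    · rintro ⟨x, _, ha, _⟩
      exact ha
  have hSf : S.Finite := by
    rw [hcov]
    exact Set.Finite.biUnion hTf fun x hx => Set.finite_of_encard_le_coe (hfib x hx)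
  have h1 := Finset.card_le_mul_card_image_of_maps_to (f := f) (s := hSf.toFinset)
    (t := hTf.toFinset) (fun a ha => by
      rw [Set.Finite.mem_toFinset] at ha ⊢
      exact hf a ha) n (fun x hx => by
      rw [Set.Finite.mem_toFinset] at hx
      have h2 := hfib x hx
      have h3 : ({a ∈ hSf.toFinset | f a = x} : Finset A) =
          (hSf.subset (fun a (ha : a ∈ {a | a ∈ S ∧ f a = x}) => ha.1)).toFinset := by
        ext a
        simp
      rw [h3]
      have h4 := Set.Finite.encard_eq_coe_toFinset_card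
        (hSf.subset (fun a (ha : a ∈ {a | a ∈ S ∧ f a = x}) => ha.1))
      rw [h4] at h2
      exact_mod_cast h2)
  have h5 : hTf.toFinset.card ≤ m := by
    have := Set.Finite.encard_eq_coe_toFinset_card hTf
    rw [this] at hT
    exact_mod_cast hT
  rw [Set.Finite.encard_eq_coe_toFinset_card hSf]
  have h6 : hSf.toFinset.card ≤ m * n := by
    calc hSf.toFinset.card ≤ n * hTf.toFinset.card := h1
      _ ≤ n * m := Nat.mul_le_mul_left _ h5
      _ = m * n := Nat.mul_comm _ _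
  exact_mod_cast h6

end alg

/-- the local input -/
theorem loc_main (hLoc : Stmt_Loc) (hNum : Stmt_Num) (hPRel : Stmt_PRel)
    {K : Type} [Field K] {N d : ℕ}
    {I : Set (MvPolynomial (Fin N × Fin N) K)}
    {ξ : Fin d → Matrix (Fin N) (Fin N) K} {φ : Matrix (Fin N) (Fin N) (RF K d)}
    {v₀ : Fin N → K} {G : GeoData K N d} {V : Set (Fin (d + 1) → Fin N)}
    {Λ : (Fin (d + 1) → Fin N) → MvPolynomial (Fin N × Fin N) K} {D : ℕ}
    {c : (Fin (d + 1) → Fin N) → MvPolynomial (Fin d) K} {𝒞 : Finset K}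
    (hI : IsGroup I) (hφ : IsParam I φ) (hFree : FreeAt I v₀)
    (hG : IsGeo I ξ φ G) (hR : IsRelFam I ξ φ v₀ V Λ D c 𝒞) (T : LocD K ξ G)
    (γ : Matrix (Fin N) (Fin N) K) (hγ : γ ∈ pts I K) (hpl : plk ξ (orb v₀ γ) ≠ 0) :
    ∃ (J : Fin (d + 1) → Fin N) (E : Set (Fin d → T.P.F)), J ∈ V ∧ MeasurableSet E ∧
      (∀ z ∈ E, ∃ y ∈ T.B,
        phiAt G.Φ G.δ y * γ.map (algebraMap K T.P.F) ∈ pts I T.P.F ∧
        ev (Λ J) (phiAt G.Φ G.δ y * γ.map (algebraMap K T.P.F)) ≠ 0 ∧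
        (∀ i, ‖zc J (orb v₀ (phiAt G.Φ G.δ y * γ.map (algebraMap K T.P.F))) i‖ ≤ 1) ∧
        zc J (orb v₀ (phiAt G.Φ G.δ y * γ.map (algebraMap K T.P.F))) = z) ∧
      T.c₀ * hfac ξ T.P (orb v₀ γ) * (T.P.vol d T.B).toReal ≤
        ((N ^ (d + 1) * (D * G.kφ) + 1 : ℕ) : ℝ) * (T.P.vol d E).toReal := by
  classical
  obtain ⟨P, e0, cv, nul, B, c₀, mB, c₀pos, vB, vB', cmp⟩ := T
  simp only
  -- the vector
  set u : Fin N → P.F := fun i => algebraMap K P.F (orb v₀ γ i) with hu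
  have hu0 : u ≠ 0 := by
    intro h0
    apply hpl
    have h1 : orb v₀ γ = 0 := by
      funext i
      have := congrFun h0 i
      simpa [hu] using this
    funext J
    unfold plk
    have : ∀ a b : Fin (d + 1), (Matrix.of fun a b : Fin (d + 1) =>
        Fin.cases (motive := fun _ => K) (orb v₀ γ (J a))
      (fun c : Fin d => ((ξ c).map (algebraMap K K)).mulVec (orb v₀ γ) (J a)) b) a b = 0 := by
      intro a b
      rw [h1]
      refine Fin.cases ?_ (fun c => ?_) b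
      · simp
      · simp
    exact Matrix.det_eq_zero_of_row_eq_zero 0 (this 0)
  have hplu : plk ξ u ≠ 0 := by
    intro h0
    apply hpl
    funext J
    have h1 := congrFun h0 J
    rw [hu, plk_map ξ P.F (orb v₀ γ) J] at h1
    simpa using h1
  -- the numerators
  have hn : ∀ J : Fin (d + 1) → Fin N, ∃ n : MvPolynomial (Fin d) K,
      (J ∉ V → n = 0) ∧ (J ∈ V → n ≠ 0 ∧
      ∀ (F : Type) [Field F] [Algebra K F] (y : Fin d → F), aeval y G.Δ ≠ 0 → aeval y n ≠ 0 →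
        ev (Λ J) (phiAt G.Φ G.δ y * γ.map (algebraMap K F)) ≠ 0) := by
    intro J
    by_cases hJ : J ∈ V
    · obtain ⟨n, h1, h2⟩ := hNum K N d I ξ φ G hI hφ hG (Λ J) (hR.ne J hJ) γ hγ
      exact ⟨n, fun h => absurd hJ h, fun _ => ⟨h1, h2⟩⟩
    · exact ⟨0, fun _ => rfl, fun h => absurd h hJ⟩
  choose n hn0 hn1 using hn
  have hcpos : 0 < c₀ * (‖plk ξ u‖ / ‖u‖ ^ (d + 1)) ^ P.e := by
    have h1 : 0 < ‖plk ξ u‖ := norm_pos_iff.2 hplu
    have h2 : 0 < ‖u‖ := norm_pos_iff.2 hu0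
    positivity
  -- general facts at a parameter
  have hδ : ∀ y : Fin d → P.F, aeval y G.Δ ≠ 0 → aeval y G.δ ≠ 0 := by
    intro y hy h0
    obtain ⟨q, hq⟩ := hG.dvd
    apply hy
    rw [hq, map_mul, h0, zero_mul]
  have hm₂ : ∀ y : Fin d → P.F, aeval y G.Δ ≠ 0 → aeval y G.m₂ ≠ 0 := by
    intro y hy h0
    obtain ⟨q, hq⟩ := hG.dvd₂
    apply hy
    rw [hq, map_mul, h0, zero_mul]
  have hmem : ∀ y : Fin d → P.F, aeval y G.Δ ≠ 0 →
      phiAt G.Φ G.δ y * γ.map (algebraMap K P.F) ∈ pts I P.F := by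
    intro y hy
    refine hI.mul P.F _ _ (hG.mem P.F y hy) ?_
    intro p hp
    have h1 : ev p γ = 0 := hγ p hp
    have h2 : ev p (γ.map (algebraMap K P.F)) = algebraMap K P.F (ev p γ) := by
      unfold ev
      rw [← aeval_algebraMap_apply]
      rfl
    rw [h2, h1, map_zero]
  have horb : ∀ y : Fin d → P.F, orb v₀ (phiAt G.Φ G.δ y * γ.map (algebraMap K P.F)) =
      (aeval y G.δ)⁻¹ • (phiNum G.Φ y).mulVec u := by
    intro y
    rw [orb_mul, phiAt_eq, Matrix.smul_mulVec]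
  have hzc : ∀ (y : Fin d → P.F) (J : Fin (d + 1) → Fin N), aeval y G.Δ ≠ 0 →
      zc J (orb v₀ (phiAt G.Φ G.δ y * γ.map (algebraMap K P.F))) =
        zc J ((phiNum G.Φ y).mulVec u) := by
    intro y J hy
    rw [horb, zc_smul J _ (inv_ne_zero (hδ y hy))]
  -- apply the local theorem
  obtain ⟨J, E, hJn, hE, hEz, hvol⟩ := hLoc K P cv nul N d G.Φ u B mB vB
    (c₀ * (‖plk ξ u‖ / ‖u‖ ^ (d + 1)) ^ P.e) hcpos (D * G.kφ) n (by
      intro y hy
      obtain ⟨hyΔ, hcmp⟩ := cmp y hy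
      obtain ⟨h1, J, h2, h3⟩ := hcmp u hu0
      refine ⟨h1, J, ?_, h2, h3⟩
      by_contra hJ0
      have hJV : J ∉ V := by
        intro hJV
        exact (hn1 J hJV).1 hJ0
      have h4 := hR.inv J hJV P.F _ (hmem y hyΔ)
      rw [horb] at h4
      have h5 : (phiNum G.Φ y).mulVec u (J 0) ≠ 0 := by
        rw [← norm_pos_iff, h2]
        exact norm_pos_iff.2 h1
      have h6 : ((aeval y G.δ)⁻¹ • (phiNum G.Φ y).mulVec u) (J 0) ≠ 0 := by
        rw [Pi.smul_apply, smul_eq_mul]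
        exact mul_ne_zero (inv_ne_zero (hδ y hyΔ)) h5
      have h7 := (mul_eq_zero.1 h4).resolve_left h6
      rw [(hPRel K N d ξ P.F ((phiNum G.Φ y).mulVec u) (J 0) J).1 (aeval y G.δ)⁻¹] at h7
      have h8 := (mul_eq_zero.1 h7).resolve_left (pow_ne_zero _ (inv_ne_zero (hδ y hyΔ)))
      have h9 := hG.tan P.F y u J
      rw [h8, mul_zero] at h9
      have h10 := (mul_eq_zero.1 h9).resolve_left (hm₂ y hyΔ)
      rw [h10, norm_zero, zero_div, zero_pow e0] at h3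
      linarith) (by
      intro J z
      by_cases hJV : J ∈ V
      · -- fibre count
        have hn2 := (hn1 J hJV).2 P.F
        have key := encard_le_mul {y | y ∈ B ∧ aeval y (n J) ≠ 0 ∧
            (phiNum G.Φ y).mulVec u (J 0) ≠ 0 ∧ zc J ((phiNum G.Φ y).mulVec u) = z}
          {x : Fin N → P.F | ∃ g ∈ pts I P.F, ev (Λ J) g ≠ 0 ∧
            x = (orb v₀ g (J 0))⁻¹ • orb v₀ g ∧ zc J (orb v₀ g) = z}
          (fun y => (orb v₀ (phiAt G.Φ G.δ y * γ.map (algebraMap K P.F)) (J 0))⁻¹ •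
            orb v₀ (phiAt G.Φ G.δ y * γ.map (algebraMap K P.F))) D G.kφ
          (by
            rintro y ⟨hyB, hyn, hy0, hyz⟩
            have hyΔ := (cmp y hyB).1
            refine ⟨_, hmem y hyΔ, hn2 y hyΔ hyn, rfl, ?_⟩
            rw [hzc y J hyΔ]
            exact hyz) (hR.fib J hJV P.F z)
          (by
            intro x hx
            by_cases hex : ∃ y₁, y₁ ∈ B ∧ aeval y₁ (n J) ≠ 0 ∧
              (orb v₀ (phiAt G.Φ G.δ y₁ * γ.map (algebraMap K P.F)) (J 0))⁻¹ •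
                orb v₀ (phiAt G.Φ G.δ y₁ * γ.map (algebraMap K P.F)) = x
            · obtain ⟨y₁, hy₁B, hy₁n, hy₁x⟩ := hex
              have hy₁Δ := (cmp y₁ hy₁B).1
              refine le_trans (Set.encard_le_encard ?_) (hG.fib P.F (phiAt G.Φ G.δ y₁))
              rintro y ⟨⟨hyB, hyn, hy0, hyz⟩, hyx⟩
              have hyΔ := (cmp y hyB).1
              refine ⟨hyΔ, ?_⟩
              have h1 := hR.orbne J hJV P.F _ (hmem y hyΔ) (hn2 y hyΔ hyn)
              have h2 := hR.orbne J hJV P.F _ (hmem y₁ hy₁Δ) (hn2 y₁ hy₁Δ hy₁n)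
              have h3 : orb v₀ (phiAt G.Φ G.δ y * γ.map (algebraMap K P.F)) =
                  ((orb v₀ (phiAt G.Φ G.δ y * γ.map (algebraMap K P.F)) (J 0)) *
                  (orb v₀ (phiAt G.Φ G.δ y₁ * γ.map (algebraMap K P.F)) (J 0))⁻¹) •
                  orb v₀ (phiAt G.Φ G.δ y₁ * γ.map (algebraMap K P.F)) := by
                rw [mul_smul, hy₁x, ← hyx]
                rw [smul_smul, mul_inv_cancel₀ h1, one_smul]
              have h4 := eq_of_line hI hFree _ _ (hmem y hyΔ) (hmem y₁ hy₁Δ) _ h3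
              have h5 : γ.map (algebraMap K P.F) * (γ.adjugate).map (algebraMap K P.F) = 1 := by
                rw [← Matrix.map_mul, Matrix.mul_adjugate, hI.det K γ hγ, one_smul]
                simp
              have h6 := congrArg (fun A => A * (γ.adjugate).map (algebraMap K P.F)) h4
              simp only [Matrix.mul_assoc] at h6
              rw [h5, Matrix.mul_one, Matrix.mul_one] at h6
              exact h6
            · have : {a | a ∈ {y | y ∈ B ∧ aeval y (n J) ≠ 0 ∧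
                  (phiNum G.Φ y).mulVec u (J 0) ≠ 0 ∧ zc J ((phiNum G.Φ y).mulVec u) = z} ∧
                  (orb v₀ (phiAt G.Φ G.δ a * γ.map (algebraMap K P.F)) (J 0))⁻¹ •
                orb v₀ (phiAt G.Φ G.δ a * γ.map (algebraMap K P.F)) = x} = ∅ := by
                ext y
                simp only [Set.mem_setOf_eq, Set.mem_empty_iff_false, iff_false]
                rintro ⟨⟨hyB, hyn, _⟩, hyx⟩
                exact hex ⟨y, hyB, hyn, hyx⟩
              rw [this]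
              simp)
        exact key
      · have : {y | y ∈ B ∧ aeval y (n J) ≠ 0 ∧
            (phiNum G.Φ y).mulVec u (J 0) ≠ 0 ∧ zc J ((phiNum G.Φ y).mulVec u) = z} = ∅ := by
          ext y
          simp [hn0 J hJV]
        rw [this]
        simp)
  have hJV : J ∈ V := by
    by_contra h
    exact hJn (hn0 J h)
  have hE1 : ∀ z ∈ E, ∃ y ∈ B,
        phiAt G.Φ G.δ y * γ.map (algebraMap K P.F) ∈ pts I P.F ∧
        ev (Λ J) (phiAt G.Φ G.δ y * γ.map (algebraMap K P.F)) ≠ 0 ∧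
        (∀ i, ‖zc J (orb v₀ (phiAt G.Φ G.δ y * γ.map (algebraMap K P.F))) i‖ ≤ 1) ∧
        zc J (orb v₀ (phiAt G.Φ G.δ y * γ.map (algebraMap K P.F))) = z := by
    intro z hz
    obtain ⟨y, hyB, hyn, hy0, hyz⟩ := hEz z hz
    have hyΔ := (cmp y hyB).1
    refine ⟨y, hyB, hmem y hyΔ, (hn1 J hJV).2 P.F y hyΔ hyn, ?_, ?_⟩
    · intro i
      rw [hzc y J hyΔ]
      unfold zc
      rw [norm_div]
      have h1 : ‖(phiNum G.Φ y).mulVec u (J i.succ)‖ ≤ ‖(phiNum G.Φ y).mulVec u (J 0)‖ := by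
        rw [hy0]
        exact norm_le_pi_norm _ _
      exact div_le_one_of_le₀ h1 (norm_nonneg _)
    · rw [hzc y J hyΔ]
      exact hyz
  refine ⟨J, E, hJV, hE, hE1, ?_⟩
  -- the volume of E is finite
  have hEfin : P.vol d E ≠ ⊤ := by
    have h1 : E ⊆ closedBall (0 : Fin d → P.F) 1 := by
      intro z hz
      obtain ⟨y, _, _, _, h2, h3⟩ := hE1 z hz
      rw [mem_closedBall_zero_iff, pi_norm_le_iff_of_nonneg zero_le_one]
      intro i
      rw [← h3]
      exact h2 i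
    refine ne_top_of_le_ne_top ?_ (measure_mono h1)
    unfold LF.vol
    rw [closedBall_pi _ zero_le_one, Measure.pi_pi]
    refine ENNReal.prod_ne_top fun i _ => ?_
    haveI : ProperSpace P.F := ProperSpace.of_locallyCompactSpace P.F
    exact (isCompact_closedBall _ _).measure_lt_top.ne
  have h1 := ENNReal.toReal_mono (ENNReal.mul_ne_top (ENNReal.natCast_ne_top _) hEfin) hvol
  rw [ENNReal.toReal_mul, ENNReal.toReal_mul, ENNReal.toReal_ofReal hcpos.le,
    ENNReal.toReal_natCast] at h1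
  have h2 : hfac ξ P (orb v₀ γ) = (‖plk ξ u‖ / ‖u‖ ^ (d + 1)) ^ P.e := rfl
  rw [h2]
  refine le_trans h1 ?_
  refine mul_le_mul_of_nonneg_right ?_ ENNReal.toReal_nonneg
  push_cast
  linarith

end Pool.GC
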