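import Mathlib
import Pool.Agent.GC.Defs
import Pool.Agent.GC.Stmts
import Pool.Agent.GC.Main
import Pool.Agent.GC.PackA

set_option autoImplicit false

/-!
# Packing: the count
-/

namespace Pool.GC

open MvPolynomial MeasureTheory NumberField Metric

/-- multiplicity -/
theorem mult_le {K : Type} [Field K] {N d : ℕ}
    {I : Set (MvPolynomial (Fin N × Fin N) K)}
    {ξ : Fin d → Matrix (Fin N) (Fin N) K} {φ : Matrix (Fin N) (Fin N) (RF K d)}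
    {v₀ : Fin N → K} {G : GeoData K N d} {V : Set (Fin (d + 1) → Fin N)}
    {Λ : (Fin (d + 1) → Fin N) → MvPolynomial (Fin N × Fin N) K} {D : ℕ}
    {c : (Fin (d + 1) → Fin N) → MvPolynomial (Fin d) K} {𝒞 : Finset K}
    (hI : IsGroup I) (hFree : FreeAt I v₀)
    (hR : IsRelFam I ξ φ v₀ V Λ D c 𝒞) (ι : Type) [Fintype ι] (T : ι → LocD K ξ G)
    (A : Set (Matrix (Fin N) (Fin N) K))
    (hA : ∀ γ ∈ A, ∀ γ' ∈ A, (∀ i, ∃ y ∈ (T i).B, ∃ y' ∈ (T i).B,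
      phiAt G.Φ G.δ y * γ.map (algebraMap K (T i).P.F) =
        phiAt G.Φ G.δ y' * γ'.map (algebraMap K (T i).P.F)) → γ = γ')
    (j : ι → Fin (d + 1) → Fin N) (hj : ∀ i, j i ∈ V) (z : ∀ i, Fin d → (T i).P.F)
    (hz : ∀ γ ∈ A, ∀ i, ∃ y ∈ (T i).B,
        phiAt G.Φ G.δ y * γ.map (algebraMap K (T i).P.F) ∈ pts I (T i).P.F ∧
        ev (Λ (j i)) (phiAt G.Φ G.δ y * γ.map (algebraMap K (T i).P.F)) ≠ 0 ∧
        zc (j i) (orb v₀ (phiAt G.Φ G.δ y * γ.map (algebraMap K (T i).P.F))) = z i) :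
    A.encard ≤ (D ^ Fintype.card ι : ℕ) := by
  classical
  let X : ∀ i, Set (Fin N → (T i).P.F) := fun i =>
    {x | ∃ g ∈ pts I (T i).P.F, ev (Λ (j i)) g ≠ 0 ∧ x = (orb v₀ g (j i 0))⁻¹ • orb v₀ g ∧
          zc (j i) (orb v₀ g) = z i}
  have hX : ∀ i, (X i).encard ≤ D := fun i => hR.fib (j i) (hj i) _ (z i)
  have hXf : ∀ i, (X i).Finite := fun i => Set.finite_of_encard_le_coe (hX i)
  have hXc : ∀ i, (hXf i).toFinset.card ≤ D := by
    intro i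
    have h1 := hX i
    rw [Set.Finite.encard_eq_coe_toFinset_card (hXf i)] at h1
    exact_mod_cast h1
  have h1 : ∀ γ : Matrix (Fin N) (Fin N) K, ∃ x : ∀ i, Fin N → (T i).P.F, γ ∈ A →
      ∀ i, x i ∈ X i ∧ ∃ y ∈ (T i).B,
        phiAt G.Φ G.δ y * γ.map (algebraMap K (T i).P.F) ∈ pts I (T i).P.F ∧
        ev (Λ (j i)) (phiAt G.Φ G.δ y * γ.map (algebraMap K (T i).P.F)) ≠ 0 ∧
        x i = (orb v₀ (phiAt G.Φ G.δ y * γ.map (algebraMap K (T i).P.F)) (j i 0))⁻¹ •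
          orb v₀ (phiAt G.Φ G.δ y * γ.map (algebraMap K (T i).P.F)) := by
    intro γ
    by_cases hγ : γ ∈ A
    · choose y hyB hy1 hy2 hy3 using hz γ hγ
      refine ⟨fun i => (orb v₀ (phiAt G.Φ G.δ (y i) *
        γ.map (algebraMap K (T i).P.F)) (j i 0))⁻¹ •
          orb v₀ (phiAt G.Φ G.δ (y i) * γ.map (algebraMap K (T i).P.F)), fun _ i => ?_⟩
      exact ⟨⟨_, hy1 i, hy2 i, rfl, hy3 i⟩, y i, hyB i, hy1 i, hy2 i, rfl⟩
    · exact ⟨fun _ => 0, fun h => absurd h hγ⟩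
  choose x hx using h1
  have hinj : Set.InjOn x A := by
    intro γ hγ γ' hγ' hxx
    refine hA γ hγ γ' hγ' fun i => ?_
    obtain ⟨_, y, hyB, hy1, hy2, hy3⟩ := hx γ hγ i
    obtain ⟨_, y', hyB', hy1', hy2', hy3'⟩ := hx γ' hγ' i
    refine ⟨y, hyB, y', hyB', ?_⟩
    have h2 := hR.orbne (j i) (hj i) _ _ hy1 hy2
    have h3 : orb v₀ (phiAt G.Φ G.δ y * γ.map (algebraMap K (T i).P.F)) =
        ((orb v₀ (phiAt G.Φ G.δ y * γ.map (algebraMap K (T i).P.F)) (j i 0)) *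
        (orb v₀ (phiAt G.Φ G.δ y' * γ'.map (algebraMap K (T i).P.F)) (j i 0))⁻¹) •
        orb v₀ (phiAt G.Φ G.δ y' * γ'.map (algebraMap K (T i).P.F)) := by
      rw [mul_smul, ← hy3', ← congrFun hxx i, hy3, smul_smul, mul_inv_cancel₀ h2, one_smul]
    exact eq_of_line hI hFree _ _ hy1 hy1' _ h3
  have hAf : A.Finite := by
    refine Set.Finite.of_finite_image ?_ hinj
    refine Set.Finite.subset (Fintype.piFinset fun i => (hXf i).toFinset).finite_toSet ?_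
    rintro _ ⟨γ, hγ, rfl⟩
    rw [Finset.mem_coe, Fintype.mem_piFinset]
    intro i
    rw [Set.Finite.mem_toFinset]
    exact (hx γ hγ i).1
  have hcard : hAf.toFinset.card ≤ D ^ Fintype.card ι := by
    have h2 : hAf.toFinset.card ≤ (Fintype.piFinset fun i => (hXf i).toFinset).card := by
      refine Finset.card_le_card_of_injOn x ?_ ?_
      · intro γ hγ
        rw [Set.Finite.coe_toFinset] at hγ
        rw [Finset.mem_coe, Fintype.mem_piFinset]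
        intro i
        rw [Set.Finite.mem_toFinset]
        exact (hx γ hγ i).1
      · rw [Set.Finite.coe_toFinset]
        exact hinj
    refine le_trans h2 ?_
    rw [Fintype.card_piFinset]
    calc ∏ i, (hXf i).toFinset.card ≤ ∏ _i : ι, D := Finset.prod_le_prod' fun i _ => hXc i
      _ = D ^ Fintype.card ι := by simp
  rw [Set.Finite.encard_eq_coe_toFinset_card hAf]
  exact_mod_cast hcard

instance sigmaFinite_vol {K : Type} [Field K] (P : LF K) (d : ℕ) : SigmaFinite (P.vol d) := by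
  unfold LF.vol
  infer_instance

/-- the count for given local data -/
theorem pack_count (hLoc : Stmt_Loc) (hNum : Stmt_Num) (hPRel : Stmt_PRel)
    (hPackM : Stmt_PackM)
    {K : Type} [Field K] {N d : ℕ}
    {I : Set (MvPolynomial (Fin N × Fin N) K)}
    {ξ : Fin d → Matrix (Fin N) (Fin N) K} {φ : Matrix (Fin N) (Fin N) (RF K d)}
    {v₀ : Fin N → K} {G : GeoData K N d} {V : Set (Fin (d + 1) → Fin N)}
    {Λ : (Fin (d + 1) → Fin N) → MvPolynomial (Fin N × Fin N) K} {D : ℕ}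
    {c : (Fin (d + 1) → Fin N) → MvPolynomial (Fin d) K} {𝒞 : Finset K}
    (hI : IsGroup I) (hφ : IsParam I φ) (hFree : FreeAt I v₀)
    (hG : IsGeo I ξ φ G) (hR : IsRelFam I ξ φ v₀ V Λ D c 𝒞)
    (ι : Type) [Fintype ι] (T : ι → LocD K ξ G)
    (𝒢 : Finset (Matrix (Fin N) (Fin N) K)) (h𝒢 : ∀ γ ∈ 𝒢, γ ∈ pts I K)
    (hpl : ∀ γ ∈ 𝒢, plk ξ (orb v₀ γ) ≠ 0)
    (hA : ∀ γ ∈ 𝒢, ∀ γ' ∈ 𝒢, (∀ i, ∃ y ∈ (T i).B, ∃ y' ∈ (T i).B,
      phiAt G.Φ G.δ y * γ.map (algebraMap K (T i).P.F) =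
        phiAt G.Φ G.δ y' * γ'.map (algebraMap K (T i).P.F)) → γ = γ')
    (R : ∀ i, (Fin (d + 1) → Fin N) → Set (Fin d → (T i).P.F)) (ρ : ι → ℝ)
    (hRm : ∀ i J, MeasurableSet (R i J)) (hρ : ∀ i, 0 ≤ ρ i)
    (hRρ : ∀ i J, (T i).P.vol d (R i J) ≤ ENNReal.ofReal (ρ i))
    (hRs : ∀ γ ∈ 𝒢, ∀ i, ∀ J ∈ V, ∀ y ∈ (T i).B,
        phiAt G.Φ G.δ y * γ.map (algebraMap K (T i).P.F) ∈ pts I (T i).P.F →
        ev (Λ J) (phiAt G.Φ G.δ y * γ.map (algebraMap K (T i).P.F)) ≠ 0 →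
        (∀ a, ‖zc J (orb v₀ (phiAt G.Φ G.δ y * γ.map (algebraMap K (T i).P.F))) a‖ ≤ 1) →
        zc J (orb v₀ (phiAt G.Φ G.δ y * γ.map (algebraMap K (T i).P.F))) ∈ R i J) :
    ∑ γ ∈ 𝒢, ∏ i, hfac ξ (T i).P (orb v₀ γ) ≤
      ∏ i, ((N ^ (d + 1) * (D * G.kφ) + 1 : ℕ) : ℝ) *
        (Fintype.card (Fin (d + 1) → Fin N) * D * ρ i) /
          ((T i).c₀ * ((T i).P.vol d (T i).B).toReal) := by
  classical
  have hvB : ∀ i, 0 < ((T i).P.vol d (T i).B).toReal := fun i =>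
    ENNReal.toReal_pos (T i).vB (T i).vB'
  rcases 𝒢.eq_empty_or_nonempty with h0 | ⟨γ₀, hγ₀⟩
  · rw [h0, Finset.sum_empty]
    refine Finset.prod_nonneg fun i _ => ?_
    have h1 := hvB i
    have h2 := (T i).c₀pos
    have h3 := hρ i
    positivity
  -- choose the sets
  have h1 : ∀ (γ : Matrix (Fin N) (Fin N) K) (i : ι), ∃ (J : Fin (d + 1) → Fin N)
      (E : Set (Fin d → (T i).P.F)), J ∈ V ∧ MeasurableSet E ∧ (γ ∈ 𝒢 →
      (∀ z ∈ E, ∃ y ∈ (T i).B,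
        phiAt G.Φ G.δ y * γ.map (algebraMap K (T i).P.F) ∈ pts I (T i).P.F ∧
        ev (Λ J) (phiAt G.Φ G.δ y * γ.map (algebraMap K (T i).P.F)) ≠ 0 ∧
        (∀ a, ‖zc J (orb v₀ (phiAt G.Φ G.δ y * γ.map (algebraMap K (T i).P.F))) a‖ ≤ 1) ∧
        zc J (orb v₀ (phiAt G.Φ G.δ y * γ.map (algebraMap K (T i).P.F))) = z) ∧
      (T i).c₀ * hfac ξ (T i).P (orb v₀ γ) * ((T i).P.vol d (T i).B).toReal ≤
        ((N ^ (d + 1) * (D * G.kφ) + 1 : ℕ) : ℝ) * ((T i).P.vol d E).toReal) := by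
    intro γ i
    by_cases hγ : γ ∈ 𝒢
    · obtain ⟨J, E, h2, h3, h4, h5⟩ := loc_main hLoc hNum hPRel hI hφ hFree hG hR (T i) γ
        (h𝒢 γ hγ) (hpl γ hγ)
      exact ⟨J, E, h2, h3, fun _ => ⟨h4, h5⟩⟩
    · obtain ⟨J, E, h2, h3, h4, h5⟩ := loc_main hLoc hNum hPRel hI hφ hFree hG hR (T i) γ₀
        (h𝒢 γ₀ hγ₀) (hpl γ₀ hγ₀)
      exact ⟨J, E, h2, h3, fun h => absurd h hγ⟩
  choose J E hJV hE hh using h1
  have hpm := hPackM ι (fun i => Fin d → (T i).P.F) (fun i => (T i).P.vol d)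
    (Fin (d + 1) → Fin N) (Matrix (Fin N) (Fin N) K) 𝒢 J E R ρ (D ^ Fintype.card ι)
    hE hRm hρ hRρ (by
      intro γ hγ i z hz
      obtain ⟨y, hyB, h2, h3, h4, h5⟩ := (hh γ i hγ).1 z hz
      rw [← h5]
      exact hRs γ hγ i (J γ i) (hJV γ i) y hyB h2 h3 h4) (by
      intro j z
      by_cases hne : ∃ γ₁, γ₁ ∈ 𝒢 ∧ J γ₁ = j
      · obtain ⟨γ₁, hγ₁, hj₁⟩ := hne
        refine mult_le hI hFree hR ι T {γ | γ ∈ 𝒢 ∧ J γ = j ∧ ∀ i, z i ∈ E γ i} ?_ j ?_ z ?_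
        · intro γ hγ γ' hγ' h
          exact hA γ hγ.1 γ' hγ'.1 h
        · intro i
          rw [← hj₁]
          exact hJV γ₁ i
        · rintro γ ⟨hγ, hj, hz⟩ i
          obtain ⟨y, hyB, h2, h3, h4, h5⟩ := (hh γ i hγ).1 (z i) (hz i)
          rw [← hj]
          exact ⟨y, hyB, h2, h3, h5⟩
      · have : {γ | γ ∈ 𝒢 ∧ J γ = j ∧ ∀ i, z i ∈ E γ i} = ∅ := by
          ext γ
          simp only [Set.mem_setOf_eq, Set.mem_empty_iff_false, iff_false]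
          rintro ⟨h2, h3, _⟩
          exact hne ⟨γ, h2, h3⟩
        rw [this]
        simp)
  set kk : ℝ := ((N ^ (d + 1) * (D * G.kφ) + 1 : ℕ) : ℝ) with hkk
  have hkk0 : 0 ≤ kk := by rw [hkk]; positivity
  have h2 : ∀ γ ∈ 𝒢, ∏ i, hfac ξ (T i).P (orb v₀ γ) ≤
      (∏ i, kk / ((T i).c₀ * ((T i).P.vol d (T i).B).toReal)) *
        ∏ i, ((T i).P.vol d (E γ i)).toReal := by
    intro γ hγ
    rw [← Finset.prod_mul_distrib]
    refine Finset.prod_le_prod (fun i _ => ?_) fun i _ => ?_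
    · unfold hfac
      positivity
    · have h3 := (hh γ i hγ).2
      have h4 : 0 < (T i).c₀ * ((T i).P.vol d (T i).B).toReal := mul_pos (T i).c₀pos (hvB i)
      rw [div_mul_eq_mul_div, le_div_iff₀ h4]
      linarith
  calc ∑ γ ∈ 𝒢, ∏ i, hfac ξ (T i).P (orb v₀ γ)
      ≤ ∑ γ ∈ 𝒢, (∏ i, kk / ((T i).c₀ * ((T i).P.vol d (T i).B).toReal)) *
        ∏ i, ((T i).P.vol d (E γ i)).toReal := Finset.sum_le_sum h2
    _ = (∏ i, kk / ((T i).c₀ * ((T i).P.vol d (T i).B).toReal)) *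
        ∑ γ ∈ 𝒢, ∏ i, ((T i).P.vol d (E γ i)).toReal := by rw [Finset.mul_sum]
    _ ≤ (∏ i, kk / ((T i).c₀ * ((T i).P.vol d (T i).B).toReal)) *
        ((Fintype.card (Fin (d + 1) → Fin N) : ℝ) ^ Fintype.card ι *
          ((D ^ Fintype.card ι : ℕ) : ℝ) * ∏ i, ρ i) := by
        refine mul_le_mul_of_nonneg_left hpm ?_
        refine Finset.prod_nonneg fun i _ => ?_
        have h4 : 0 < (T i).c₀ * ((T i).P.vol d (T i).B).toReal := mul_pos (T i).c₀pos (hvB i)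
        positivity
    _ = _ := by
        have h5 : ((Fintype.card (Fin (d + 1) → Fin N) : ℝ) ^ Fintype.card ι *
          ((D ^ Fintype.card ι : ℕ) : ℝ) * ∏ i, ρ i) =
          ∏ i : ι, ((Fintype.card (Fin (d + 1) → Fin N) : ℝ) * D * ρ i) := by
          rw [Finset.prod_mul_distrib, Finset.prod_mul_distrib]
          simp
        rw [h5, ← Finset.prod_mul_distrib]
        refine Finset.prod_congr rfl fun i _ => ?_
        rw [div_mul_eq_mul_div]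

end Pool.GC
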