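import Mathlib
import Pool.Agent.GC.Defs
import Pool.Agent.GC.Stmts
import Pool.Agent.GC.Main
import Pool.Agent.GC.PackA
import Pool.Agent.GC.PackB

set_option autoImplicit false

/-!
# Packing: heights and discreteness
-/

namespace Pool.GC

open MvPolynomial MeasureTheory NumberField Metric

lemma pi_norm_iSup {ι : Type} [Fintype ι] {E : Type} [SeminormedAddCommGroup E] (f : ι → E) :
    ‖f‖ = ⨆ i, ‖f i‖ := by
  rcases isEmpty_or_nonempty ι with h | h
  · have : f = 0 := Subsingleton.elim _ _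
    rw [this, norm_zero, Real.iSup_of_isEmpty]
  · refine le_antisymm ?_ ?_
    · rw [pi_norm_le_iff_of_nonempty]
      intro i
      exact le_ciSup (f := fun i => ‖f i‖) (Set.finite_range _).bddAbove i
    · exact ciSup_le fun i => norm_le_pi_norm f i

lemma hfac_eq {K : Type} [Field K] {N d : ℕ} (ξ : Fin d → Matrix (Fin N) (Fin N) K)
    (P : LF K) (a : K → ℝ) (ha : ∀ x : K, ‖algebraMap K P.F x‖ = a x) (w : Fin N → K) :
    hfac ξ P w = ((⨆ J, a (plk ξ w J)) / (⨆ i, a (w i)) ^ (d + 1)) ^ P.e := by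
  have h1 : ‖plk ξ (fun i => algebraMap K P.F (w i))‖ = ⨆ J, a (plk ξ w J) := by
    rw [pi_norm_iSup]
    congr 1
    funext J
    rw [plk_map, ha]
  have h2 : ‖(fun i => algebraMap K P.F (w i))‖ = ⨆ i, a (w i) := by
    rw [pi_norm_iSup]
    congr 1
    funext i
    rw [ha]
  unfold hfac
  rw [h1, h2]

lemma finprod_le_one_of_le {ι : Type} (f : ι → ℝ) (h0 : ∀ i, 0 ≤ f i) (h : ∀ i, f i ≤ 1) :
    ∏ᶠ i, f i ≤ 1 := by
  by_cases hf : (Function.mulSupport f).Finite
  · rw [finprod_eq_prod f hf]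
    exact Finset.prod_le_one (fun i _ => h0 i) (fun i _ => h i)
  · rw [finprod_of_infinite_mulSupport hf]

/-- discreteness -/
lemma discrete {K : Type} [Field K] [NumberField K] (x : K) (h1 : ∀ v : FinitePlace K, v x ≤ 1)
    (h2 : ∀ w : InfinitePlace K, w x < 1) : x = 0 := by
  by_contra hx
  have h := NumberField.prod_abs_eq_one hx
  have h3 : ∏ᶠ v : FinitePlace K, v x ≤ 1 :=
    finprod_le_one_of_le _ (fun v => apply_nonneg v x) h1
  have h4 : ∏ w : InfinitePlace K, w x ^ w.mult < 1 := by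
    have h5 : ∏ w : InfinitePlace K, w x ^ w.mult < ∏ w : InfinitePlace K, (1 : ℝ) := by
      refine Finset.prod_lt_prod_of_nonempty (fun w _ => ?_) (fun w _ => ?_)
        Finset.univ_nonempty
      · exact pow_pos (InfinitePlace.pos_iff.2 hx) _
      · exact pow_lt_one₀ (apply_nonneg w x) (h2 w) (InfinitePlace.mult_pos).ne'
    simpa using h5
  have h6 : 0 ≤ ∏ᶠ v : FinitePlace K, v x := finprod_nonneg fun v => apply_nonneg v x
  have h7 : 0 ≤ ∏ w : InfinitePlace K, w x ^ w.mult :=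
    Finset.prod_nonneg fun w _ => pow_nonneg (apply_nonneg w x) _
  nlinarith

/-- the elements of norm at most one of an ultrametric field -/
def intR (F : Type) [NormedField F] (h : ∀ x y : F, ‖x + y‖ ≤ max ‖x‖ ‖y‖) : Subring F where
  carrier := {x | ‖x‖ ≤ 1}
  mul_mem' := by
    intro a b ha hb
    simp only [Set.mem_setOf_eq] at *
    rw [norm_mul]
    exact mul_le_one₀ ha (norm_nonneg _) hb
  one_mem' := by simp
  add_mem' := by
    intro a b ha hb
    exact le_trans (h a b) (max_le ha hb)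
  zero_mem' := by simp
  neg_mem' := by
    intro a ha
    simpa using ha

lemma mul_mem_sub {F : Type} [Field F] {N : ℕ} (R : Subring F)
    (M M' : Matrix (Fin N) (Fin N) F) (h : ∀ i j, M i j ∈ R) (h' : ∀ i j, M' i j ∈ R) :
    ∀ i j, (M * M') i j ∈ R := by
  intro i j
  rw [Matrix.mul_apply]
  exact R.sum_mem fun k _ => R.mul_mem (h i k) (h' k j)

lemma adj_mem_sub {F : Type} [Field F] {N : ℕ} (R : Subring F)
    (M : Matrix (Fin N) (Fin N) F) (h : ∀ i j, M i j ∈ R) :
    ∀ i j, M.adjugate i j ∈ R := by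
  let M' : Matrix (Fin N) (Fin N) R := Matrix.of fun i j => ⟨M i j, h i j⟩
  have h1 : R.subtype.mapMatrix M' = M := by
    ext i j
    simp [M']
  have h2 : R.subtype.mapMatrix M'.adjugate = M.adjugate := by
    rw [RingHom.map_adjugate, h1]
  intro i j
  rw [← h2]
  simp

lemma totalDegree_map_le' {R S : Type} [CommSemiring R] [CommSemiring S] {σ : Type}
    (f : R →+* S) (p : MvPolynomial σ R) : (map f p).totalDegree ≤ p.totalDegree := by
  unfold totalDegree
  exact Finset.sup_mono (support_map_subset f p)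

lemma one_place {K : Type} [Field K] {N : ℕ} (P : LF K) (γ γ' : Matrix (Fin N) (Fin N) K)
    (hdet : γ.det = 1) (g g' : Matrix (Fin N) (Fin N) P.F) (hg' : g'.det = 1)
    (h : g * γ.map (algebraMap K P.F) = g' * γ'.map (algebraMap K P.F)) (a b : Fin N) :
    algebraMap K P.F ((γ' * γ.adjugate) a b - (1 : Matrix (Fin N) (Fin N) K) a b) =
      (g'.adjugate * g) a b - (1 : Matrix (Fin N) (Fin N) P.F) a b := by
  have h1 : γ.map (algebraMap K P.F) * (γ.adjugate).map (algebraMap K P.F) = 1 := by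
    rw [← Matrix.map_mul, Matrix.mul_adjugate, hdet, one_smul]
    simp
  have h2 : g'.adjugate * g = γ'.map (algebraMap K P.F) *
      (γ.adjugate).map (algebraMap K P.F) := by
    calc g'.adjugate * g = g'.adjugate * (g * (γ.map (algebraMap K P.F) *
          (γ.adjugate).map (algebraMap K P.F))) := by rw [h1, Matrix.mul_one]
      _ = g'.adjugate * ((g * γ.map (algebraMap K P.F)) *
          (γ.adjugate).map (algebraMap K P.F)) := by rw [Matrix.mul_assoc]
      _ = (g'.adjugate * g') * γ'.map (algebraMap K P.F) *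
          (γ.adjugate).map (algebraMap K P.F) := by
          rw [h]
          simp only [Matrix.mul_assoc]
      _ = _ := by rw [Matrix.adjugate_mul, hg', one_smul, Matrix.one_mul]
  rw [h2, ← Matrix.map_mul, map_sub, Matrix.map_apply]
  congr 1
  by_cases hab : a = b
  · rw [hab, Matrix.one_apply_eq, Matrix.one_apply_eq, map_one]
  · rw [Matrix.one_apply_ne hab, Matrix.one_apply_ne hab, map_zero]

lemma one_mem_sub {F : Type} [Field F] {N : ℕ} (R : Subring F) (a b : Fin N) :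
    (1 : Matrix (Fin N) (Fin N) F) a b ∈ R := by
  by_cases hab : a = b
  · rw [hab, Matrix.one_apply_eq]; exact Subring.one_mem _
  · rw [Matrix.one_apply_ne hab]; exact Subring.zero_mem _

/-- two elements which are close at all places are equal -/
theorem disc_eq {K : Type} [Field K] [NumberField K] {N : ℕ}
    (γ γ' : Matrix (Fin N) (Fin N) K) (hdet : γ.det = 1)
    (hfin : ∀ v : FinitePlace K, ∃ (P : LF K) (g g' : Matrix (Fin N) (Fin N) P.F),
      (∀ x : K, ‖algebraMap K P.F x‖ = v x) ∧ g'.det = 1 ∧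
      g * γ.map (algebraMap K P.F) = g' * γ'.map (algebraMap K P.F) ∧
      ∀ a b, ‖(g'.adjugate * g) a b - (1 : Matrix (Fin N) (Fin N) P.F) a b‖ ≤ 1)
    (hinf : ∀ v : InfinitePlace K, ∃ (P : LF K) (g g' : Matrix (Fin N) (Fin N) P.F),
      (∀ x : K, ‖algebraMap K P.F x‖ = v x) ∧ g'.det = 1 ∧
      g * γ.map (algebraMap K P.F) = g' * γ'.map (algebraMap K P.F) ∧
      ∀ a b, ‖(g'.adjugate * g) a b - (1 : Matrix (Fin N) (Fin N) P.F) a b‖ < 1) : γ = γ' := by
  have hzero : ∀ a b, (γ' * γ.adjugate) a b - (1 : Matrix (Fin N) (Fin N) K) a b = 0 := by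
    intro a b
    refine discrete _ ?_ ?_
    · intro v
      obtain ⟨P, g, g', h1, h2, h3, h4⟩ := hfin v
      rw [← h1, one_place P γ γ' hdet g g' h2 h3 a b]
      exact h4 a b
    · intro v
      obtain ⟨P, g, g', h1, h2, h3, h4⟩ := hinf v
      rw [← h1, one_place P γ γ' hdet g g' h2 h3 a b]
      exact h4 a b
  have h1 : γ' * γ.adjugate = 1 := by
    ext a b
    exact sub_eq_zero.1 (hzero a b)
  have h2 : γ' * γ.adjugate * γ = γ := by rw [h1, Matrix.one_mul]
  rw [Matrix.mul_assoc, Matrix.adjugate_mul, hdet, one_smul, Matrix.mul_one] at h2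
  exact h2.symm

/-- nonarchimedean places, both factors integral -/
lemma int_place {K : Type} [Field K] {N : ℕ} (P : LF K)
    (hna : ∀ x y : P.F, ‖x + y‖ ≤ max ‖x‖ ‖y‖) (g g' : Matrix (Fin N) (Fin N) P.F)
    (hg : ∀ i j, ‖g i j‖ ≤ 1) (hg' : ∀ i j, ‖g' i j‖ ≤ 1) (a b : Fin N) :
    ‖(g'.adjugate * g) a b - (1 : Matrix (Fin N) (Fin N) P.F) a b‖ ≤ 1 := by
  have h1 := mul_mem_sub (intR P.F hna) _ _ (adj_mem_sub (intR P.F hna) g' hg') hg a b
  exact Subring.sub_mem _ h1 (one_mem_sub _ a b)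

/-- integral elements of the group at a nonarchimedean place -/
lemma int_place' {K : Type} [Field K] {N : ℕ} (P : LF K)
    (hna : ∀ x y : P.F, ‖x + y‖ ≤ max ‖x‖ ‖y‖) (a : K → ℝ)
    (ha : ∀ x : K, ‖algebraMap K P.F x‖ = a x) (γ γ' : Matrix (Fin N) (Fin N) K)
    (hdet : γ.det = 1) (hdet' : γ'.det = 1) (hγ : ∀ i j, a (γ i j) ≤ 1)
    (hγ' : ∀ i j, a (γ' i j) ≤ 1) :
    ∃ g g' : Matrix (Fin N) (Fin N) P.F, g'.det = 1 ∧
      g * γ.map (algebraMap K P.F) = g' * γ'.map (algebraMap K P.F) ∧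
      ∀ a b, ‖(g'.adjugate * g) a b - (1 : Matrix (Fin N) (Fin N) P.F) a b‖ ≤ 1 := by
  have hm : ∀ γ : Matrix (Fin N) (Fin N) K, γ.det = 1 →
      (γ.map (algebraMap K P.F)).det = 1 := by
    intro γ h
    have := RingHom.map_det (algebraMap K P.F) γ
    rw [h, map_one] at this
    exact this.symm
  refine ⟨(γ.map (algebraMap K P.F)).adjugate, (γ'.map (algebraMap K P.F)).adjugate, ?_, ?_, ?_⟩
  · rw [Matrix.det_adjugate, hm γ' hdet', one_pow]
  · rw [Matrix.adjugate_mul, Matrix.adjugate_mul, hm γ hdet, hm γ' hdet']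
  · refine int_place P hna _ _ ?_ ?_
    · refine adj_mem_sub (intR P.F hna) _ ?_
      intro i j
      change ‖algebraMap K P.F (γ i j)‖ ≤ 1
      rw [ha]
      exact hγ i j
    · refine adj_mem_sub (intR P.F hna) _ ?_
      intro i j
      change ‖algebraMap K P.F (γ' i j)‖ ≤ 1
      rw [ha]
      exact hγ' i j

/-- a non-integral element stays non-integral -/
lemma nonint_place {K : Type} [Field K] {N : ℕ} (P : LF K)
    (hna : ∀ x y : P.F, ‖x + y‖ ≤ max ‖x‖ ‖y‖) (a : K → ℝ)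
    (ha : ∀ x : K, ‖algebraMap K P.F x‖ = a x) (γ : Matrix (Fin N) (Fin N) K)
    (hγ : ∃ i j, 1 < a (γ i j)) (g : Matrix (Fin N) (Fin N) P.F) (hdet : g.det = 1)
    (hg : ∀ i j, ‖g i j‖ ≤ 1) : ∃ i j, 1 < ‖(g * γ.map (algebraMap K P.F)) i j‖ := by
  by_contra hno
  have hno' : ∀ i j, (g * γ.map (algebraMap K P.F)) i j ∈ intR P.F hna := by
    intro i j
    by_contra h
    exact hno ⟨i, j, not_le.1 h⟩
  have h2 : g.adjugate * (g * γ.map (algebraMap K P.F)) = γ.map (algebraMap K P.F) := by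
    rw [← Matrix.mul_assoc, Matrix.adjugate_mul, hdet, one_smul, Matrix.one_mul]
  have h3 := mul_mem_sub (intR P.F hna) _ _ (adj_mem_sub (intR P.F hna) _ hg) hno'
  obtain ⟨i, j, hij⟩ := hγ
  have h4 := h3 i j
  rw [h2] at h4
  have h5 : ‖algebraMap K P.F (γ i j)‖ ≤ 1 := h4
  rw [ha] at h5
  linarith

/-- the height quotient as a product over the places -/
lemma height_quot {K : Type} [Field K] [NumberField K] {α β : Type} (p : α → K) (w : β → K)
    (n : ℕ) (hp : p ≠ 0) (hw : w ≠ 0) (S : Finset (FinitePlace K))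
    (h1 : ∀ v ∉ S, (⨆ i, v (w i)) = 1) (h2 : ∀ v ∉ S, (⨆ j, v (p j)) = 1) :
    Height.mulHeight p / Height.mulHeight w ^ n =
      (∏ v ∈ S, ((⨆ j, v (p j)) / (⨆ i, v (w i)) ^ n)) *
        ∏ v : InfinitePlace K, ((⨆ j, v (p j)) / (⨆ i, v (w i)) ^ n) ^ v.mult := by
  rw [NumberField.mulHeight_eq hp, NumberField.mulHeight_eq hw]
  have h3 : ∏ᶠ v : FinitePlace K, ⨆ j, v (p j) = ∏ v ∈ S, ⨆ j, v (p j) := by
    refine finprod_eq_prod_of_mulSupport_subset _ ?_
    intro v hv
    by_contra h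
    exact hv (h2 v h)
  have h4 : ∏ᶠ v : FinitePlace K, ⨆ i, v (w i) = ∏ v ∈ S, ⨆ i, v (w i) := by
    refine finprod_eq_prod_of_mulSupport_subset _ ?_
    intro v hv
    by_contra h
    exact hv (h1 v h)
  rw [h3, h4, Finset.prod_div_distrib]
  have h5 : ∏ v : InfinitePlace K, ((⨆ j, v (p j)) / (⨆ i, v (w i)) ^ n) ^ v.mult =
      (∏ v : InfinitePlace K, (⨆ j, v (p j)) ^ v.mult) /
        (∏ v : InfinitePlace K, (⨆ i, v (w i)) ^ v.mult) ^ n := by
    rw [← Finset.prod_pow, ← Finset.prod_div_distrib]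
    refine Finset.prod_congr rfl fun v _ => ?_
    rw [div_pow, ← pow_mul, ← pow_mul, mul_comm n]
  rw [h5, mul_pow, Finset.prod_pow, mul_comm ((∏ v ∈ S, ⨆ j, v (p j)) / _)]
  rw [mul_div_mul_comm]

/-- the Plücker coordinates do not vanish on the orbit -/
lemma plk_orb_ne (hPAct : Stmt_PAct) {K : Type} [Field K] {N d : ℕ}
    {I : Set (MvPolynomial (Fin N × Fin N) K)}
    {ξ : Fin d → Matrix (Fin N) (Fin N) K}
    {v₀ : Fin N → K} (hI : IsGroup I) (hξ : IsLieBasis I ξ)
    (hpl : plk ξ (fun i => v₀ i) ≠ 0) (γ : Matrix (Fin N) (Fin N) K) (hγ : γ ∈ pts I K) :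
    plk ξ (orb v₀ γ) ≠ 0 := by
  intro h0
  obtain ⟨l, hl⟩ := hPAct K N d I ξ hI hξ
  apply hpl
  funext J
  have h2 := hl K γ.adjugate (hI.inv K γ hγ) (orb v₀ γ) J
  have h3 : γ.adjugate.mulVec (orb v₀ γ) = fun i => v₀ i := by
    unfold orb
    rw [Matrix.mulVec_mulVec, Matrix.adjugate_mul, hI.det K γ hγ, one_smul, Matrix.one_mulVec]
    rfl
  rw [h3, h0] at h2
  rw [h2]
  simp

lemma orb_ne {K : Type} [Field K] {N d : ℕ} {ξ : Fin d → Matrix (Fin N) (Fin N) K}
    (w : Fin N → K) (h : plk ξ w ≠ 0) : w ≠ 0 := by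
  intro h0
  apply h
  funext J
  unfold plk
  refine Matrix.det_eq_zero_of_row_eq_zero 0 fun b => ?_
  rw [h0]
  refine Fin.cases ?_ (fun c => ?_) b
  · simp
  · simp

end Pool.GC
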