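import Mathlib
import Pool.Agent.GC.Defs
import Pool.Agent.GC.Stmts
import Pool.Agent.GC.Main
import Pool.Agent.GC.PackA
import Pool.Agent.GC.PackB
import Pool.Agent.GC.PackC

set_option autoImplicit false

/-!
# Packing: the statement PACK
-/

namespace Pool.GC

open MvPolynomial MeasureTheory NumberField Metric

lemma aeval_eq_eval_map {K : Type} [Field K] {d : ℕ} (P : LF K) (c : MvPolynomial (Fin d) K)
    (z : Fin d → P.F) : aeval z c = eval z (map (algebraMap K P.F) c) := by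
  rw [eval_map, aeval_def]

/-- the sets containing the affine coordinates -/
def regR {K : Type} [Field K] {d : ℕ} (P : LF K) (A : Prop) (c : MvPolynomial (Fin d) K) :
    Set (Fin d → P.F) :=
  {z | z ∈ closedBall (0 : Fin d → P.F) 1 ∧ (A → ‖aeval z c‖ < 1)}

lemma measurableSet_regR {K : Type} [Field K] {d : ℕ} (P : LF K) (A : Prop)
    (c : MvPolynomial (Fin d) K) : MeasurableSet (regR P A c) := by
  have h1 : IsOpen {z : Fin d → P.F | ‖aeval z c‖ < 1} := by
    have h2 : Continuous fun z : Fin d → P.F => aeval z c := by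
      have h3 : (fun z : Fin d → P.F => aeval z c) =
          fun z => eval z (map (algebraMap K P.F) c) := by
        funext z
        exact aeval_eq_eval_map P c z
      rw [h3]
      exact MvPolynomial.continuous_eval _
    exact isOpen_lt h2.norm continuous_const
  by_cases hA : A
  · have : regR P A c = closedBall (0 : Fin d → P.F) 1 ∩
        {z : Fin d → P.F | ‖aeval z c‖ < 1} := by
      ext z
      simp [regR, hA]
    rw [this]
    exact isClosed_closedBall.measurableSet.inter h1.measurableSet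
  · have : regR P A c = closedBall (0 : Fin d → P.F) 1 := by
      ext z
      simp [regR, hA]
    rw [this]
    exact isClosed_closedBall.measurableSet

lemma vol_ball_ne_top {K : Type} [Field K] (P : LF K) (d : ℕ) :
    P.vol d (closedBall 0 1) ≠ ⊤ := by
  haveI : ProperSpace P.F := ProperSpace.of_locallyCompactSpace P.F
  unfold LF.vol
  rw [closedBall_pi _ zero_le_one, Measure.pi_pi]
  refine ENNReal.prod_ne_top fun i _ => ?_
  exact (isCompact_closedBall _ _).measure_lt_top.ne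

lemma finite_ne_one {K : Type} [Field K] [NumberField K] (x : K) (hx : x ≠ 0) :
    {v : FinitePlace K | v x ≠ 1}.Finite :=
  Set.Finite.subset (FinitePlace.hasFiniteMulSupport hx) fun _ hv => hv

set_option maxHeartbeats 4000000 in
theorem pack_proof (hGeo : Stmt_Geo) (hRel : Stmt_Rel) (hNum : Stmt_Num) (hPAct : Stmt_PAct)
    (hPRel : Stmt_PRel) (hLoc : Stmt_Loc) (hCmpB : Stmt_CmpB) (hCmpG : Stmt_CmpG)
    (hIntG : Stmt_IntG) (hPackM : Stmt_PackM) (hComp : Stmt_Comp) (hCVna : Stmt_CVna)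
    (hNull : Stmt_Null) (hSZ : Stmt_SZ) (hInf : Stmt_Inf) : Stmt_Pack := by
  classical
  intro K _ _ N d I ξ φ v₀ hI hξ hφ hFree hpl
  obtain ⟨G, hG⟩ := hGeo K N d I ξ φ hI hξ hφ
  obtain ⟨V, Λ, D, c, 𝒞, hR⟩ := exists_relFam hRel v₀ hI hξ hφ
  obtain ⟨S₁, hS₁⟩ := hCmpG K N d I ξ φ G hI hξ hG
  obtain ⟨S₂, hS₂⟩ := hIntG K N d I ξ v₀ hI hξ hpl
  choose PF hNA habsF using hComp K
  choose PI heI hcvI habsI using hInf K
  choose BF cF hmBF hcF hvF hvF' hcmpF hsmF using fun v => hCmpB K N d I ξ φ G hI hξ hG (PF v)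
  choose BI cI hmBI hcI hvI hvI' hcmpI hsmI using fun w => hCmpB K N d I ξ φ G hI hξ hG (PI w)
  -- the finite set of places where coefficients are bad
  have hfin3 : {v : FinitePlace K | ∃ J, ∃ s ∈ (c J).support, v (coeff s (c J)) ≠ 1}.Finite := by
    have : {v : FinitePlace K | ∃ J, ∃ s ∈ (c J).support, v (coeff s (c J)) ≠ 1} =
        ⋃ J, ⋃ s ∈ (c J).support, {v : FinitePlace K | v (coeff s (c J)) ≠ 1} := by
      ext v
      simp
    rw [this]
    refine Set.finite_iUnion fun J => Set.Finite.biUnion (Finset.finite_toSet _) fun s hs => ?_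
    exact finite_ne_one _ (mem_support_iff.1 hs)
  have hfin4 : {v : FinitePlace K | ∃ κ ∈ 𝒞, 1 < v κ}.Finite := by
    have : {v : FinitePlace K | ∃ κ ∈ 𝒞, 1 < v κ} ⊆
        ⋃ κ ∈ 𝒞, {v : FinitePlace K | κ ≠ 0 ∧ v κ ≠ 1} := by
      rintro v ⟨κ, hκ, h⟩
      simp only [Set.mem_iUnion]
      refine ⟨κ, hκ, ?_, ne_of_gt h⟩
      intro h0
      rw [h0, map_zero] at h
      linarith
    refine Set.Finite.subset (Set.Finite.biUnion (Finset.finite_toSet _) fun κ hκ => ?_) this
    by_cases h0 : κ = 0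
    · simp [h0]
    · exact Set.Finite.subset (finite_ne_one κ h0) fun v hv => hv.2
  let S₀ : Finset (FinitePlace K) := S₁ ∪ S₂ ∪ hfin3.toFinset ∪ hfin4.toFinset
  have hS₀1 : ∀ v ∉ S₀, v ∉ S₁ := fun v hv h => hv (by simp [S₀, h])
  have hS₀2 : ∀ v ∉ S₀, v ∉ S₂ := fun v hv h => hv (by simp [S₀, h])
  have hS₀3 : ∀ v ∉ S₀, ∀ J, ∀ s ∈ (c J).support, v (coeff s (c J)) = 1 := by
    intro v hv J s hs
    by_contra h
    apply hv
    have : v ∈ hfin3.toFinset := by
      rw [Set.Finite.mem_toFinset]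
      exact ⟨J, s, hs, h⟩
    simp only [S₀, Finset.mem_union]
    exact Or.inl (Or.inr this)
  have hS₀4 : ∀ v ∉ S₀, ∀ κ ∈ 𝒞, v κ ≤ 1 := by
    intro v hv κ hκ
    by_contra h
    apply hv
    have : v ∈ hfin4.toFinset := by
      rw [Set.Finite.mem_toFinset]
      exact ⟨κ, hκ, not_le.1 h⟩
    simp only [S₀, Finset.mem_union]
    exact Or.inr this
  -- local data
  let good : ∀ v : FinitePlace K, v ∉ S₀ → LocD K ξ G := fun v hv =>
    { P := PF v
      e0 := by rw [(hNA v).1]; exact one_ne_zero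
      cv := hCVna K (PF v) (qv v) (hNA v)
      nul := hNull K (PF v)
      B := goodB G (PF v)
      c₀ := 1
      mB := (hS₁ v (hS₀1 v hv) (PF v) (hNA v) (habsF v)).1
      c₀pos := one_pos
      vB := by
        intro h0
        have h1 := (hS₁ v (hS₀1 v hv) (PF v) (hNA v) (habsF v)).2.1
        rw [h0] at h1
        have h2 : ENNReal.ofReal (1 / 2) = 0 := le_antisymm h1 bot_le
        rw [ENNReal.ofReal_eq_zero] at h2
        norm_num at h2
      vB' := by
        refine ne_top_of_le_ne_top (vol_ball_ne_top (PF v) d) (measure_mono ?_)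
        intro y hy
        exact hy.1
      cmp := (hS₁ v (hS₀1 v hv) (PF v) (hNA v) (habsF v)).2.2.1 }
  let badD : FinitePlace K → LocD K ξ G := fun v =>
    { P := PF v
      e0 := by rw [(hNA v).1]; exact one_ne_zero
      cv := hCVna K (PF v) (qv v) (hNA v)
      nul := hNull K (PF v)
      B := BF v
      c₀ := cF v
      mB := hmBF v
      c₀pos := hcF v
      vB := hvF v
      vB' := hvF' v
      cmp := hcmpF v }
  let infD : InfinitePlace K → LocD K ξ G := fun w =>
    { P := PI w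
      e0 := by rw [heI w]; exact (InfinitePlace.mult_pos).ne'
      cv := hcvI w
      nul := hNull K (PI w)
      B := BI w
      c₀ := cI w
      mB := hmBI w
      c₀pos := hcI w
      vB := hvI w
      vB' := hvI' w
      cmp := hcmpI w }
  let TB : {v // v ∈ S₀} ⊕ InfinitePlace K → LocD K ξ G :=
    Sum.elim (fun v => badD v.1) infD
  let kk : ℝ := ((N ^ (d + 1) * (D * G.kφ) + 1 : ℕ) : ℝ)
  let Dc : ℕ := Finset.univ.sup fun J => (c J).totalDegree
  let nJ : ℝ := (Fintype.card (Fin (d + 1) → Fin N) : ℝ)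
  let fB : {v // v ∈ S₀} ⊕ InfinitePlace K → ℝ := fun i =>
    kk * (nJ * D * ((TB i).P.vol d (closedBall 0 1)).toReal) /
      ((TB i).c₀ * ((TB i).P.vol d (TB i).B).toReal)
  let C₁ : ℝ := 2 * (kk * (nJ * D * Dc)) + 1
  let A₁ : ℝ := (∏ i, fB i) + 1
  have hkk0 : 0 ≤ kk := by positivity
  have hnJ0 : 0 ≤ nJ := by positivity
  have hfB0 : ∀ i, 0 ≤ fB i := by
    intro i
    have h1 : 0 < ((TB i).P.vol d (TB i).B).toReal := ENNReal.toReal_pos (TB i).vB (TB i).vB'
    have h2 := (TB i).c₀pos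
    positivity
  have hC₁ : 1 ≤ C₁ := by
    have : 0 ≤ 2 * (kk * (nJ * D * Dc)) := by positivity
    simp only [C₁]
    linarith
  have hA₁ : 1 ≤ A₁ := by
    have : 0 ≤ ∏ i, fB i := Finset.prod_nonneg fun i _ => hfB0 i
    simp only [A₁]
    linarith
  refine ⟨S₀, C₁ * A₁, by nlinarith, ?_⟩
  intro S hS 𝒢 τ hτ h𝒢
  have hSS₀ : ∀ v ∈ S, v ∉ S₀ := fun v hv h => Finset.disjoint_left.1 hS hv h
  let T : {v // v ∈ S} ⊕ ({v // v ∈ S₀} ⊕ InfinitePlace K) → LocD K ξ G :=
    Sum.elim (fun v => good v.1 (hSS₀ v.1 v.2)) TB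
  have hplγ : ∀ γ ∈ 𝒢, plk ξ (orb v₀ γ) ≠ 0 := fun γ hγ =>
    plk_orb_ne hPAct hI hξ hpl γ (h𝒢 γ hγ).1
  -- integrality of the parametrisation at the good places
  have hint : ∀ v (hv : v ∉ S₀), ∀ y ∈ goodB G (PF v), ∀ i j,
      ‖phiAt G.Φ G.δ y i j‖ ≤ 1 := fun v hv y hy =>
    (hS₁ v (hS₀1 v hv) (PF v) (hNA v) (habsF v)).2.2.2 y hy
  have hdetB : ∀ (v : FinitePlace K) (y : Fin d → (PF v).F), y ∈ goodB G (PF v) →
      (phiAt G.Φ G.δ y).det = 1 := by
    intro v y hy
    refine hI.det _ _ (hG.mem _ y ?_)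
    intro h0
    have h1 : ‖aeval y G.Δ‖ = 1 := hy.2
    rw [h0, norm_zero] at h1
    exact one_ne_zero h1.symm
  have hmain := pack_count hLoc hNum hPRel hPackM hI hφ hFree hG hR _ T 𝒢
    (fun γ hγ => (h𝒢 γ hγ).1) hplγ (by
      -- discreteness
      intro γ hγ γ' hγ' hy
      have hdetγ := hI.det K γ (h𝒢 γ hγ).1
      refine disc_eq γ γ' hdetγ ?_ ?_
      · intro v
        by_cases hvS : v ∈ S
        · have hv0 := hSS₀ v hvS
          have hy1 : ∃ y ∈ goodB G (PF v), ∃ y' ∈ goodB G (PF v),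
              phiAt G.Φ G.δ y * γ.map (algebraMap K (PF v).F) =
              phiAt G.Φ G.δ y' * γ'.map (algebraMap K (PF v).F) := hy (Sum.inl ⟨v, hvS⟩)
          obtain ⟨y, hyB, y', hyB', hyy⟩ := hy1
          refine ⟨PF v, phiAt G.Φ G.δ y, phiAt G.Φ G.δ y', habsF v, hdetB v y' hyB', hyy, ?_⟩
          exact int_place (PF v) (hNA v).2.2.1 _ _ (hint v hv0 y hyB) (hint v hv0 y' hyB')
        · by_cases hv0 : v ∈ S₀
          · have hy1 : ∃ y ∈ BF v, ∃ y' ∈ BF v,
              phiAt G.Φ G.δ y * γ.map (algebraMap K (PF v).F) =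
              phiAt G.Φ G.δ y' * γ'.map (algebraMap K (PF v).F) :=
                hy (Sum.inr (Sum.inl ⟨v, hv0⟩))
            obtain ⟨y, hyB, y', hyB', hyy⟩ := hy1
            refine ⟨PF v, phiAt G.Φ G.δ y, phiAt G.Φ G.δ y', habsF v,
              hI.det _ _ (hG.mem _ y' (hcmpF v y' hyB').1), hyy, ?_⟩
            exact fun a b => (hsmF v y hyB y' hyB' a b).le
          · obtain ⟨g, g', h1, h2, h3⟩ := int_place' (PF v) (hNA v).2.2.1 _ (habsF v) γ γ'
              hdetγ (hI.det K γ' (h𝒢 γ' hγ').1)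
              (by
                intro i j
                by_contra h
                exact hvS (((h𝒢 γ hγ).2.1 v hv0).2 ⟨i, j, not_le.1 h⟩))
              (by
                intro i j
                by_contra h
                exact hvS (((h𝒢 γ' hγ').2.1 v hv0).2 ⟨i, j, not_le.1 h⟩))
            exact ⟨PF v, g, g', habsF v, h1, h2, h3⟩
      · intro w
        have hy1 : ∃ y ∈ BI w, ∃ y' ∈ BI w,
            phiAt G.Φ G.δ y * γ.map (algebraMap K (PI w).F) =
            phiAt G.Φ G.δ y' * γ'.map (algebraMap K (PI w).F) :=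
              hy (Sum.inr (Sum.inr w))
        obtain ⟨y, hyB, y', hyB', hyy⟩ := hy1
        exact ⟨PI w, phiAt G.Φ G.δ y, phiAt G.Φ G.δ y', habsI w,
            hI.det _ _ (hG.mem _ y' (hcmpI w y' hyB').1), hyy,
            fun a b => hsmI w y hyB y' hyB' a b⟩)
    (fun i J => if i.isLeft ∧ J ∉ V then ∅ else regR (T i).P (i.isLeft = true) (c J))
    (Sum.elim (fun v => (Dc : ℝ) / qv v.1)
      (fun i => ((TB i).P.vol d (closedBall 0 1)).toReal))
    (by
      intro i J
      split_ifs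
      · exact MeasurableSet.empty
      · exact measurableSet_regR _ _ _)
    (by
      rintro (v | i)
      · change 0 ≤ (Dc : ℝ) / qv v.1
        positivity
      · exact ENNReal.toReal_nonneg)
    (by
      rintro (v | i) J
      · by_cases hJ : J ∈ V
        · have h1 : ¬ ((Sum.inl v : {v // v ∈ S} ⊕ ({v // v ∈ S₀} ⊕ InfinitePlace K)).isLeft
              ∧ J ∉ V) := fun h => h.2 hJ
          rw [if_neg h1]
          change (PF v.1).vol d (regR (PF v.1) _ (c J)) ≤ ENNReal.ofReal ((Dc : ℝ) / qv v.1)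
          have h2 := (hSZ K (PF v.1) (qv v.1) (hNA v.1) d (map (algebraMap K (PF v.1).F) (c J))
            (by
              intro s
              rw [coeff_map, habsF]
              by_cases hs : s ∈ (c J).support
              · exact (hS₀3 v.1 (hSS₀ v.1 v.2) J s hs).le
              · rw [notMem_support_iff.1 hs, map_zero]
                exact zero_le_one) (by
              obtain ⟨s, hs⟩ := MvPolynomial.ne_zero_iff.1 (hR.cne J hJ)
              refine ⟨s, ?_⟩
              rw [coeff_map, habsF]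
              exact hS₀3 v.1 (hSS₀ v.1 v.2) J s (mem_support_iff.2 hs))).2
          refine le_trans (measure_mono ?_) (le_trans h2 ?_)
          · intro z hz
            refine ⟨hz.1, ?_⟩
            rw [← aeval_eq_eval_map]
            exact hz.2 rfl
          · refine ENNReal.ofReal_le_ofReal ?_
            have h3 : ((map (algebraMap K (PF v.1).F) (c J)).totalDegree : ℝ) ≤ Dc := by
              have h4 : (map (algebraMap K (PF v.1).F) (c J)).totalDegree ≤ Dc :=
                le_trans (totalDegree_map_le' _ _)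
                  (Finset.le_sup (f := fun J => (c J).totalDegree) (Finset.mem_univ J))
              exact_mod_cast h4
            exact div_le_div_of_nonneg_right h3 (Nat.cast_nonneg _)
        · rw [if_pos ⟨rfl, hJ⟩, measure_empty]
          exact bot_le
      · have h1 : ¬ ((Sum.inr i : {v // v ∈ S} ⊕ ({v // v ∈ S₀} ⊕ InfinitePlace K)).isLeft
              ∧ J ∉ V) := fun h => by simp at h
        rw [if_neg h1]
        change (TB i).P.vol d (regR (TB i).P _ (c J)) ≤
          ENNReal.ofReal ((TB i).P.vol d (closedBall 0 1)).toReal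
        rw [ENNReal.ofReal_toReal (vol_ball_ne_top _ _)]
        exact measure_mono fun z hz => hz.1)
    (by
      rintro γ hγ (v | i) J hJ y hyB hg hΛ hzn
      · have h1 : ¬ ((Sum.inl v : {v // v ∈ S} ⊕ ({v // v ∈ S₀} ⊕ InfinitePlace K)).isLeft
              ∧ J ∉ V) := fun h => h.2 hJ
        rw [if_neg h1]
        refine ⟨?_, fun _ => ?_⟩
        · rw [mem_closedBall_zero_iff, pi_norm_le_iff_of_nonneg zero_le_one]
          exact hzn
        · have hv0 := hSS₀ v.1 v.2
          have hyB1 : y ∈ goodB G (PF v.1) := hyB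
          refine hR.integ J hJ (PF v.1).F (hNA v.1).2.2.1 ?_ _ hg
            (hR.orbne J hJ (PF v.1).F _ hg hΛ) hzn ?_
          · intro κ hκ
            rw [habsF]
            exact hS₀4 v.1 hv0 κ hκ
          · exact nonint_place (PF v.1) (hNA v.1).2.2.1 _ (habsF v.1) γ
              (((h𝒢 γ hγ).2.1 v.1 hv0).1 v.2) (phiAt G.Φ G.δ y) (hdetB v.1 y hyB1)
              (hint v.1 hv0 y hyB1)
      · have h1 : ¬ ((Sum.inr i : {v // v ∈ S} ⊕ ({v // v ∈ S₀} ⊕ InfinitePlace K)).isLeft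
              ∧ J ∉ V) := fun h => by simp at h
        rw [if_neg h1]
        refine ⟨?_, fun h => by simp at h⟩
        rw [mem_closedBall_zero_iff, pi_norm_le_iff_of_nonneg zero_le_one]
        exact hzn)
  -- lower bound
  have hlow : (𝒢.card : ℝ) * τ ≤ ∑ γ ∈ 𝒢, ∏ i, hfac ξ (T i).P (orb v₀ γ) := by
    rw [← nsmul_eq_mul, ← Finset.sum_const]
    refine Finset.sum_le_sum fun γ hγ => ?_
    refine le_trans (h𝒢 γ hγ).2.2 (le_of_eq ?_)
    have hout : ∀ v ∉ S ∪ S₀, (⨆ i, v (orb v₀ γ i)) = 1 ∧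
        (⨆ J, v (plk ξ (orb v₀ γ) J)) = 1 := by
      intro v hv
      rw [Finset.mem_union, not_or] at hv
      refine hS₂ v (hS₀2 v hv.2) γ (h𝒢 γ hγ).1 ?_
      intro i j
      by_contra h
      exact hv.1 (((h𝒢 γ hγ).2.1 v hv.2).2 ⟨i, j, not_le.1 h⟩)
    rw [height_quot (plk ξ (orb v₀ γ)) (orb v₀ γ) (d + 1) (hplγ γ hγ)
      (orb_ne _ (hplγ γ hγ)) (S ∪ S₀) (fun v hv => (hout v hv).1) (fun v hv => (hout v hv).2)]
    rw [Finset.prod_union hS, Fintype.prod_sum_type, Fintype.prod_sum_type, mul_assoc]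
    have h1 : ∏ v ∈ S, ((⨆ j, v (plk ξ (orb v₀ γ) j)) / (⨆ i, v (orb v₀ γ i)) ^ (d + 1)) =
        ∏ v : {v // v ∈ S}, hfac ξ (T (Sum.inl v)).P (orb v₀ γ) := by
      rw [← Finset.prod_coe_sort S]
      refine Finset.prod_congr rfl fun v _ => ?_
      change _ = hfac ξ (PF v.1) (orb v₀ γ)
      rw [hfac_eq ξ (PF v.1) _ (habsF v.1), (hNA v.1).1, pow_one]
    have h2 : ∏ v ∈ S₀, ((⨆ j, v (plk ξ (orb v₀ γ) j)) / (⨆ i, v (orb v₀ γ i)) ^ (d + 1)) =
        ∏ v : {v // v ∈ S₀}, hfac ξ (T (Sum.inr (Sum.inl v))).P (orb v₀ γ) := by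
      rw [← Finset.prod_coe_sort S₀]
      refine Finset.prod_congr rfl fun v _ => ?_
      change _ = hfac ξ (PF v.1) (orb v₀ γ)
      rw [hfac_eq ξ (PF v.1) _ (habsF v.1), (hNA v.1).1, pow_one]
    have h3 : ∏ v : InfinitePlace K, ((⨆ j, v (plk ξ (orb v₀ γ) j)) /
        (⨆ i, v (orb v₀ γ i)) ^ (d + 1)) ^ v.mult =
        ∏ w : InfinitePlace K, hfac ξ (T (Sum.inr (Sum.inr w))).P (orb v₀ γ) := by
      refine Finset.prod_congr rfl fun w _ => ?_
      change _ = hfac ξ (PI w) (orb v₀ γ)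
      rw [hfac_eq ξ (PI w) _ (habsI w), heI w]
    rw [h1, h2, h3]
  refine le_trans hlow (le_trans hmain ?_)
  -- upper bound
  rw [Fintype.prod_sum_type]
  have hup1 : ∏ v : {v // v ∈ S}, (((N ^ (d + 1) * (D * G.kφ) + 1 : ℕ) : ℝ) *
        (Fintype.card (Fin (d + 1) → Fin N) * D *
          (Sum.elim (fun v : {v // v ∈ S} => (Dc : ℝ) / qv v.1)
            (fun i => ((TB i).P.vol d (closedBall 0 1)).toReal)
            (Sum.inl v : {v // v ∈ S} ⊕ ({v // v ∈ S₀} ⊕ InfinitePlace K)))) /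
          ((T (Sum.inl v)).c₀ * ((T (Sum.inl v)).P.vol d (T (Sum.inl v)).B).toReal)) ≤
      C₁ ^ S.card * ∏ v ∈ S, ((qv v : ℝ))⁻¹ := by
    have h1 : C₁ ^ S.card * ∏ v ∈ S, ((qv v : ℝ))⁻¹ =
        ∏ v : {v // v ∈ S}, (C₁ * ((qv v.1 : ℝ))⁻¹) := by
      rw [Finset.prod_mul_distrib, Finset.prod_coe_sort S fun v => ((qv v : ℝ))⁻¹]
      simp
    rw [h1]
    refine Finset.prod_le_prod (fun v _ => ?_) fun v _ => ?_
    · have h2 : 0 < ((T (Sum.inl v)).P.vol d (T (Sum.inl v)).B).toReal :=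
        ENNReal.toReal_pos (T (Sum.inl v)).vB (T (Sum.inl v)).vB'
      have h3 := (T (Sum.inl v)).c₀pos
      simp only [Sum.elim_inl]
      positivity
    · have hv0 := hSS₀ v.1 v.2
      have h2 : (1 / 2 : ℝ) ≤ ((PF v.1).vol d (goodB G (PF v.1))).toReal := by
        have h3 := (hS₁ v.1 (hS₀1 v.1 hv0) (PF v.1) (hNA v.1) (habsF v.1)).2.1
        have h4 : (PF v.1).vol d (goodB G (PF v.1)) ≠ ⊤ := (T (Sum.inl v)).vB'
        have h5 := ENNReal.toReal_mono h4 h3
        rwa [ENNReal.toReal_ofReal (by norm_num)] at h5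
      change kk * (nJ * D * ((Dc : ℝ) / qv v.1)) /
        (1 * ((PF v.1).vol d (goodB G (PF v.1))).toReal) ≤ _
      rw [one_mul, div_le_iff₀ (by linarith)]
      have h6 : (0 : ℝ) ≤ ((qv v.1 : ℝ))⁻¹ := by positivity
      have h7 : kk * (nJ * D * ((Dc : ℝ) / qv v.1)) =
          (kk * (nJ * D * Dc)) * ((qv v.1 : ℝ))⁻¹ := by
        rw [div_eq_mul_inv]; ring
      rw [h7]
      have h8 : (0 : ℝ) ≤ kk * (nJ * D * Dc) := by positivity
      calc kk * (nJ * D * Dc) * ((qv v.1 : ℝ))⁻¹ ≤ (C₁ * (1 / 2)) * ((qv v.1 : ℝ))⁻¹ := by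
            refine mul_le_mul_of_nonneg_right ?_ h6
            simp only [C₁]
            linarith
        _ = C₁ * ((qv v.1 : ℝ))⁻¹ * (1 / 2) := by ring
        _ ≤ C₁ * ((qv v.1 : ℝ))⁻¹ * ((PF v.1).vol d (goodB G (PF v.1))).toReal := by
            refine mul_le_mul_of_nonneg_left h2 ?_
            have : 0 ≤ C₁ := by linarith
            positivity
  have hup2 : ∏ i : {v // v ∈ S₀} ⊕ InfinitePlace K,
        (((N ^ (d + 1) * (D * G.kφ) + 1 : ℕ) : ℝ) *
        (Fintype.card (Fin (d + 1) → Fin N) * D *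
          (Sum.elim (fun v : {v // v ∈ S} => (Dc : ℝ) / qv v.1)
            (fun i => ((TB i).P.vol d (closedBall 0 1)).toReal)
            (Sum.inr i : {v // v ∈ S} ⊕ ({v // v ∈ S₀} ⊕ InfinitePlace K)))) /
          ((T (Sum.inr i)).c₀ * ((T (Sum.inr i)).P.vol d (T (Sum.inr i)).B).toReal)) ≤ A₁ := by
    have h1 : ∏ i, fB i ≤ A₁ := by
      simp only [A₁]
      linarith
    exact h1
  refine le_trans (mul_le_mul hup1 hup2 ?_ ?_) ?_
  · refine Finset.prod_nonneg fun i _ => ?_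
    have h2 : 0 < ((T (Sum.inr i)).P.vol d (T (Sum.inr i)).B).toReal :=
        ENNReal.toReal_pos (T (Sum.inr i)).vB (T (Sum.inr i)).vB'
    have h3 := (T (Sum.inr i)).c₀pos
    simp only [Sum.elim_inr]
    positivity
  · have : 0 ≤ C₁ := by linarith
    positivity
  · have h0 : 0 ≤ ∏ v ∈ S, ((qv v : ℝ))⁻¹ := by positivity
    have h1 : C₁ ^ S.card * A₁ ≤ (C₁ * A₁) ^ (S.card + 1) := by
      rw [mul_pow]
      refine mul_le_mul ?_ ?_ (by linarith) (by positivity)
      · exact pow_le_pow_right₀ hC₁ (Nat.le_succ _)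
      · exact le_self_pow₀ hA₁ (Nat.succ_ne_zero _)
    calc C₁ ^ S.card * (∏ v ∈ S, ((qv v : ℝ))⁻¹) * A₁ =
          (C₁ ^ S.card * A₁) * ∏ v ∈ S, ((qv v : ℝ))⁻¹ := by ring
      _ ≤ _ := mul_le_mul_of_nonneg_right h1 h0

end Pool.GC
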