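import Pool.Agent.GC.Stmts

set_option autoImplicit false

/-!
# The packing inequality (squad GC, module PackM)
-/

namespace Pool.GC

open MeasureTheory

theorem packM_proof : Stmt_PackM := by
  intro ι _ α _ μ _ 𝒥 _ Γ 𝒢 J E R ρ M hE hR hρ hμR hER hcount
  classical
  have key : ∀ j : ι → 𝒥, ∑ γ ∈ 𝒢.filter (fun γ => J γ = j), ∏ i, μ i (E γ i) ≤
      M * ∏ i, ENNReal.ofReal (ρ i) := by
    intro j
    have h1 : ∀ γ, ∏ i, μ i (E γ i) = Measure.pi μ (Set.univ.pi (E γ)) := fun γ =>
      (Measure.pi_pi μ (E γ)).symm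
    have hS : ∀ γ, MeasurableSet (Set.univ.pi (E γ)) := fun γ =>
      MeasurableSet.univ_pi (fun i => hE γ i)
    have hT : MeasurableSet (Set.univ.pi fun i => R i (j i)) :=
      MeasurableSet.univ_pi (fun i => hR i (j i))
    calc ∑ γ ∈ 𝒢.filter (fun γ => J γ = j), ∏ i, μ i (E γ i)
        = ∑ γ ∈ 𝒢.filter (fun γ => J γ = j),
            ∫⁻ z, (Set.univ.pi (E γ)).indicator (fun _ => (1 : ENNReal)) z ∂(Measure.pi μ) := by
          refine Finset.sum_congr rfl fun γ _ => ?_
          rw [h1, lintegral_indicator (hS γ), setLIntegral_one]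
      _ = ∫⁻ z, ∑ γ ∈ 𝒢.filter (fun γ => J γ = j),
            (Set.univ.pi (E γ)).indicator (fun _ => (1 : ENNReal)) z ∂(Measure.pi μ) := by
          rw [lintegral_finsetSum]
          intro γ _
          exact measurable_const.indicator (hS γ)
      _ ≤ ∫⁻ z, (Set.univ.pi fun i => R i (j i)).indicator (fun _ => (M : ENNReal)) z
            ∂(Measure.pi μ) := by
          refine lintegral_mono fun z => ?_
          by_cases hz : z ∈ Set.univ.pi fun i => R i (j i)
          · rw [Set.indicator_of_mem hz]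
            have h2 : ∑ γ ∈ 𝒢.filter (fun γ => J γ = j),
                (Set.univ.pi (E γ)).indicator (fun _ => (1 : ENNReal)) z =
                (((𝒢.filter (fun γ => J γ = j)).filter
                  (fun γ => z ∈ Set.univ.pi (E γ))).card : ENNReal) := by
              rw [Finset.card_filter]
              push_cast
              refine Finset.sum_congr rfl fun γ _ => ?_
              by_cases h : z ∈ Set.univ.pi (E γ)
              · rw [Set.indicator_of_mem h, if_pos h]
              · rw [Set.indicator_of_notMem h, if_neg h]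
            rw [h2]
            have h3 := hcount j z
            have h4 : {γ | γ ∈ 𝒢 ∧ J γ = j ∧ ∀ i, z i ∈ E γ i} =
                (((𝒢.filter (fun γ => J γ = j)).filter
                  (fun γ => z ∈ Set.univ.pi (E γ)) : Finset Γ) : Set Γ) := by
              ext γ
              simp [Set.mem_pi, and_assoc]
            rw [h4, Set.encard_coe_eq_coe_finsetCard] at h3
            have h5 : ((𝒢.filter (fun γ => J γ = j)).filter
                  (fun γ => z ∈ Set.univ.pi (E γ))).card ≤ M := by exact_mod_cast h3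
            exact Nat.cast_le.2 h5
          · rw [Set.indicator_of_notMem hz]
            refine le_of_eq (Finset.sum_eq_zero fun γ hγ => ?_)
            rw [Set.indicator_of_notMem]
            intro hzE
            apply hz
            rw [Finset.mem_filter] at hγ
            intro i _
            have := hER γ hγ.1 i (hzE i (Set.mem_univ i))
            rwa [hγ.2] at this
      _ = M * Measure.pi μ (Set.univ.pi fun i => R i (j i)) := by
          rw [lintegral_indicator hT, setLIntegral_const]
      _ = M * ∏ i, μ i (R i (j i)) := by rw [Measure.pi_pi]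
      _ ≤ M * ∏ i, ENNReal.ofReal (ρ i) := by
          gcongr
          exact hμR _ _
  have hall : ∑ γ ∈ 𝒢, ∏ i, μ i (E γ i) ≤
      (Fintype.card 𝒥 : ENNReal) ^ Fintype.card ι * (M * ∏ i, ENNReal.ofReal (ρ i)) := by
    rw [← Finset.sum_fiberwise 𝒢 J (fun γ => ∏ i, μ i (E γ i))]
    refine (Finset.sum_le_sum fun j _ => key j).trans ?_
    rw [Finset.sum_const, Finset.card_univ, Fintype.card_fun, nsmul_eq_mul]
    push_cast
    exact le_rfl
  have hfin : ∀ γ ∈ 𝒢, ∀ i, μ i (E γ i) ≠ ⊤ := by
    intro γ hγ i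
    have h1 : μ i (E γ i) ≤ ENNReal.ofReal (ρ i) :=
      (measure_mono (hER γ hγ i)).trans (hμR _ _)
    exact ne_top_of_le_ne_top ENNReal.ofReal_ne_top h1
  have hlhs : ∑ γ ∈ 𝒢, ∏ i, (μ i (E γ i)).toReal = (∑ γ ∈ 𝒢, ∏ i, μ i (E γ i)).toReal := by
    rw [ENNReal.toReal_sum]
    · refine Finset.sum_congr rfl fun γ _ => ?_
      rw [ENNReal.toReal_prod]
    · intro γ hγ
      exact ENNReal.prod_ne_top fun i _ => hfin γ hγ i
  have hrhs : ((Fintype.card 𝒥 : ENNReal) ^ Fintype.card ι *
      (M * ∏ i, ENNReal.ofReal (ρ i))).toReal =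
      (Fintype.card 𝒥 : ℝ) ^ Fintype.card ι * M * ∏ i, ρ i := by
    rw [ENNReal.toReal_mul, ENNReal.toReal_mul, ENNReal.toReal_pow, ENNReal.toReal_prod,
      ENNReal.toReal_natCast, ENNReal.toReal_natCast, mul_assoc]
    congr 2
    exact Finset.prod_congr rfl fun i _ => ENNReal.toReal_ofReal (hρ i)
  rw [hlhs, ← hrhs]
  refine ENNReal.toReal_mono ?_ hall
  refine ENNReal.mul_ne_top (ENNReal.pow_ne_top (ENNReal.natCast_ne_top _)) ?_
  refine ENNReal.mul_ne_top (ENNReal.natCast_ne_top _) ?_
  exact ENNReal.prod_ne_top fun i _ => ENNReal.ofReal_ne_top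

end Pool.GC
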