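import Pool.Agent.GC.Stmts
import Pool.Agent.GC.Comp

set_option autoImplicit false

/-!
# QV: denominators and the height
-/

namespace Pool.GC

open NumberField Height Function

namespace Qv

variable {K : Type} [Field K] [NumberField K]

theorem qv_pos (v : FinitePlace K) : (0 : ℝ) < qv v := by
  have h : qv v ≠ 0 := by
    unfold qv
    exact Ideal.absNorm_eq_zero_iff.not.mpr v.maximalIdeal.ne_bot
  exact_mod_cast Nat.pos_of_ne_zero h

/-- a value larger than one at a finite place is at least the cardinality of the residue field -/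
theorem qv_le (v : FinitePlace K) {x : K} (hx : 1 < v x) : (qv v : ℝ) ≤ v x := by
  obtain ⟨P, hP, hn⟩ := comp_proof K v
  obtain ⟨-, hq2, -, hpow, -⟩ := hP
  have hx0 : x ≠ 0 := by
    rintro rfl
    rw [map_zero] at hx
    linarith
  have hx' : algebraMap K P.F x ≠ 0 := by
    rw [Ne, map_eq_zero]; exact hx0
  obtain ⟨n, hn'⟩ := hpow _ hx'
  rw [hn x] at hn'
  rw [hn'] at hx ⊢
  have hq1 : (1 : ℝ) < qv v := by exact_mod_cast (lt_of_lt_of_le one_lt_two hq2)
  have h1 : 0 < n := by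
    by_contra hcon
    push Not at hcon
    have := zpow_le_one_of_nonpos₀ hq1.le hcon
    linarith
  calc (qv v : ℝ) = (qv v : ℝ) ^ (1 : ℤ) := (zpow_one _).symm
    _ ≤ (qv v : ℝ) ^ n := zpow_le_zpow_right₀ hq1.le h1

theorem le_finprod {ι : Type} {f : ι → ℝ} (hf : f.HasFiniteMulSupport) (h1 : ∀ v, 1 ≤ f v)
    (S : Finset ι) {g : ι → ℝ} (hg0 : ∀ v ∈ S, 0 ≤ g v) (hg : ∀ v ∈ S, g v ≤ f v) :
    ∏ v ∈ S, g v ≤ ∏ᶠ v, f v := by
  classical
  have hf' : (mulSupport f).Finite := hf
  rw [finprod_eq_prod_of_mulSupport_subset (s := hf'.toFinset ∪ S) f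
    (by intro v hv; simp only [Finset.coe_union, Set.Finite.coe_toFinset, Set.mem_union]
        left; exact hv)]
  rw [← Finset.prod_sdiff (Finset.subset_union_right : S ⊆ hf'.toFinset ∪ S)]
  have ha : (1 : ℝ) ≤ ∏ v ∈ (hf'.toFinset ∪ S) \ S, f v := by
    have := Finset.prod_le_prod (s := (hf'.toFinset ∪ S) \ S) (f := fun _ => (1 : ℝ)) (g := f)
      (fun _ _ => zero_le_one) (fun v _ => h1 v)
    simpa using this
  have hb : ∏ v ∈ S, g v ≤ ∏ v ∈ S, f v := Finset.prod_le_prod hg0 hg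
  have hc : (0 : ℝ) ≤ ∏ v ∈ S, f v := Finset.prod_nonneg fun v _ => zero_le_one.trans (h1 v)
  nlinarith

theorem finite_mulSupport {ι : Type} [Finite ι] [Nonempty ι] {x : ι → K} (hx : x ≠ 0) :
    (fun v : FinitePlace K => ⨆ i, v (x i)).HasFiniteMulSupport := by
  obtain ⟨i₀, hi₀⟩ := Function.ne_iff.mp hx
  have hfin : (⋃ i ∈ {i | x i ≠ 0}, mulSupport fun v : FinitePlace K => v (x i)).Finite :=
    Set.Finite.biUnion (Set.toFinite _) fun i hi => FinitePlace.hasFiniteMulSupport hi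
  refine Set.Finite.subset hfin ?_
  intro v hv
  by_contra hcon
  simp only [Set.mem_iUnion, not_exists, Set.mem_ofPred_eq, mem_mulSupport, not_not] at hcon
  apply hv
  apply le_antisymm
  · apply ciSup_le
    intro i
    by_cases hi : x i = 0
    · rw [hi, map_zero]; exact zero_le_one
    · exact (hcon i hi).le
  · exact le_ciSup_of_le (Set.finite_range _).bddAbove i₀ (hcon i₀ hi₀).ge

end Qv

open Qv

theorem qv_proof : Stmt_Qv := by
  intro K _ _ N γ S hS
  have hx : (ent γ : Option (Fin N × Fin N) → K) ≠ 0 := by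
    intro h
    have := congrFun h none
    simp [ent] at this
  have h1 : ∀ {W : Type} [FunLike W K ℝ] [MonoidWithZeroHomClass W K ℝ] (v : W),
      1 ≤ ⨆ i, v (ent γ i) := by
    intro W _ _ v
    refine le_ciSup_of_le (Set.finite_range _).bddAbove none ?_
    simp [ent]
  rw [NumberField.mulHeight_eq hx]
  have ha : (1 : ℝ) ≤ ∏ v : InfinitePlace K, (⨆ i, v (ent γ i)) ^ v.mult := by
    have := Finset.prod_le_prod (s := (Finset.univ : Finset (InfinitePlace K)))
      (f := fun _ => (1 : ℝ)) (g := fun v => (⨆ i, v (ent γ i)) ^ v.mult)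
      (fun _ _ => zero_le_one) (fun v _ => one_le_pow₀ (h1 v))
    simpa using this
  have hb : ∏ v ∈ S, (qv v : ℝ) ≤ ∏ᶠ v : FinitePlace K, ⨆ i, v (ent γ i) := by
    refine le_finprod (finite_mulSupport hx) (fun v => h1 v) S (fun v _ => (qv_pos v).le) ?_
    intro v hv
    obtain ⟨i, j, hij⟩ := hS v hv
    exact le_ciSup_of_le (Set.finite_range _).bddAbove (some (i, j)) (qv_le v hij)
  have hc : (0 : ℝ) ≤ ∏ v ∈ S, (qv v : ℝ) := Finset.prod_nonneg fun v _ => (qv_pos v).le
  nlinarith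

end Pool.GC
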