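import Pool.Agent.GC.Stmts

/-!
# REL: algebraic relations over the affine coordinates with index `J`
-/

set_option autoImplicit false

namespace Pool.GC.RelX

open MvPolynomial

variable {K : Type} [Field K] {N d : ℕ}

section Ev

variable {R : Type} [CommRing R] [Algebra K R]

lemma ev_add (p q : MvPolynomial (Fin N × Fin N) K) (g : Matrix (Fin N) (Fin N) R) :
    ev (p + q) g = ev p g + ev q g := map_add _ _ _

lemma ev_mul (p q : MvPolynomial (Fin N × Fin N) K) (g : Matrix (Fin N) (Fin N) R) :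
    ev (p * q) g = ev p g * ev q g := map_mul _ _ _

lemma ev_pow (p : MvPolynomial (Fin N × Fin N) K) (n : ℕ) (g : Matrix (Fin N) (Fin N) R) :
    ev (p ^ n) g = ev p g ^ n := map_pow _ _ _

lemma ev_prod {ι : Type} (s : Finset ι) (p : ι → MvPolynomial (Fin N × Fin N) K)
    (g : Matrix (Fin N) (Fin N) R) : ev (∏ i ∈ s, p i) g = ∏ i ∈ s, ev (p i) g := map_prod _ _ _

lemma ev_sum {ι : Type} (s : Finset ι) (p : ι → MvPolynomial (Fin N × Fin N) K)
    (g : Matrix (Fin N) (Fin N) R) : ev (∑ i ∈ s, p i) g = ∑ i ∈ s, ev (p i) g := map_sum _ _ _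

lemma ev_C (a : K) (g : Matrix (Fin N) (Fin N) R) :
    ev (C a : MvPolynomial (Fin N × Fin N) K) g = algebraMap K R a := by
  unfold ev
  exact aeval_C _ _

lemma ev_X (ij : Fin N × Fin N) (g : Matrix (Fin N) (Fin N) R) :
    ev (X ij : MvPolynomial (Fin N × Fin N) K) g = g ij.1 ij.2 := by
  unfold ev
  exact aeval_X _ _

end Ev

/-- clearing denominators -/
lemma homog {σ : Type} (n : σ → MvPolynomial (Fin N × Fin N) K)
    (q : MvPolynomial (Fin N × Fin N) K) (H : MvPolynomial σ K) :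
    ∃ (E : ℕ) (p : MvPolynomial (Fin N × Fin N) K),
    ∀ (F : Type) [Field F] [Algebra K F] (g : Matrix (Fin N) (Fin N) F), ev q g ≠ 0 →
      ev p g = ev q g ^ E * aeval (fun i => ev (n i) g / ev q g) H := by
  induction H using MvPolynomial.induction_on with
  | C a => exact ⟨0, C a, fun F _ _ g _ => by rw [ev_C, pow_zero, one_mul, aeval_C]⟩
  | add p1 p2 h1 h2 =>
    obtain ⟨E1, P1, h1⟩ := h1
    obtain ⟨E2, P2, h2⟩ := h2
    refine ⟨E1 + E2, P1 * q ^ E2 + P2 * q ^ E1, fun F _ _ g hg => ?_⟩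
    rw [ev_add, ev_mul, ev_mul, ev_pow, ev_pow, h1 F g hg, h2 F g hg, map_add]
    ring
  | mul_X p i h =>
    obtain ⟨E, P, h⟩ := h
    refine ⟨E + 1, P * n i, fun F _ _ g hg => ?_⟩
    rw [ev_mul, h F g hg, map_mul, aeval_X]
    field_simp
    ring

/-- relations on the generic point hold everywhere -/
lemma transfer {I : Set (MvPolynomial (Fin N × Fin N) K)}
    {φ : Matrix (Fin N) (Fin N) (RF K d)} (hφ : IsParam I φ) {σ : Type}
    (n : σ → MvPolynomial (Fin N × Fin N) K) (q : MvPolynomial (Fin N × Fin N) K)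
    (hq : ev q φ ≠ 0) (H : MvPolynomial σ K)
    (h0 : aeval (fun i => ev (n i) φ / ev q φ) H = 0)
    (F : Type) [Field F] [Algebra K F] (g : Matrix (Fin N) (Fin N) F) (hg : g ∈ pts I F)
    (hqg : ev q g ≠ 0) : aeval (fun i => ev (n i) g / ev q g) H = 0 := by
  obtain ⟨E, p, hp⟩ := homog n q H
  have h1 := hp (RF K d) φ hq
  rw [h0, mul_zero] at h1
  have h2 := hφ.dense p h1 F g hg
  rw [hp F g hqg] at h2
  rcases mul_eq_zero.1 h2 with h3 | h3
  · exact absurd h3 (pow_ne_zero _ hqg)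
  · exact h3

/-- the polynomial in one more variable with coefficients `r s` -/
noncomputable def relP (n : ℕ) (r : ℕ → MvPolynomial (Fin d) K) :
    MvPolynomial (Option (Fin d)) K :=
  ∑ s ∈ Finset.range (n + 1), rename some (r s) * X none ^ s

lemma aeval_relP (n : ℕ) (r : ℕ → MvPolynomial (Fin d) K) {F : Type} [Field F] [Algebra K F]
    (f : Option (Fin d) → F) :
    aeval f (relP n r) = ∑ s ∈ Finset.range (n + 1), aeval (fun i => f (some i)) (r s) *
      f none ^ s := by
  unfold relP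
  rw [map_sum]
  refine Finset.sum_congr rfl fun s _ => ?_
  rw [map_mul, map_pow, aeval_X, aeval_rename]
  rfl

open scoped IntermediateField.algebraAdjoinAdjoin in
/-- a relation for an element algebraic over `K(z)` -/
lemma exists_rel {L : Type} [Field L] [Algebra K L] (z : Fin d → L) (x : L)
    (hx : IsAlgebraic (IntermediateField.adjoin K (Set.range z)) x) :
    ∃ (n : ℕ) (r : ℕ → MvPolynomial (Fin d) K), r n ≠ 0 ∧
      ∑ s ∈ Finset.range (n + 1), aeval z (r s) * x ^ s = 0 := by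
  have h1 : IsAlgebraic (Algebra.adjoin K (Set.range z)) x :=
    (IsFractionRing.isAlgebraic_iff (Algebra.adjoin K (Set.range z))
      (IntermediateField.adjoin K (Set.range z)) L).2 hx
  obtain ⟨p, hp0, hp⟩ := h1
  have hc : ∀ s, ∃ r : MvPolynomial (Fin d) K, aeval z r = (p.coeff s : L) := by
    intro s
    have h2 : ∀ w ∈ Algebra.adjoin K (Set.range z), ∃ r : MvPolynomial (Fin d) K,
        aeval z r = w := by
      intro w hw
      rw [Algebra.adjoin_range_eq_range_aeval] at hw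
      exact hw
    exact h2 _ (p.coeff s).2
  choose r hr using hc
  refine ⟨p.natDegree, r, ?_, ?_⟩
  · intro h0
    have h3 := hr p.natDegree
    rw [h0, map_zero] at h3
    apply hp0
    rw [← Polynomial.leadingCoeff_eq_zero]
    exact Subtype.ext h3.symm
  · rw [Polynomial.aeval_eq_sum_range] at hp
    rw [← hp]
    refine Finset.sum_congr rfl fun s _ => ?_
    rw [hr s]
    rfl

/-! ### The polynomials of the orbit map -/

/-- the coordinates of `g v₀` -/
noncomputable def orbP (v₀ : Fin N → K) (j : Fin N) : MvPolynomial (Fin N × Fin N) K :=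
  ∑ k, X (j, k) * C (v₀ k)

lemma ev_orbP (v₀ : Fin N → K) (j : Fin N) {F : Type} [Field F] [Algebra K F]
    (g : Matrix (Fin N) (Fin N) F) : ev (orbP v₀ j) g = orb v₀ g j := by
  unfold orbP orb
  rw [ev_sum]
  refine Finset.sum_congr rfl fun k _ => ?_
  rw [ev_mul, ev_X, ev_C]

/-- the polynomial of the Pluecker coordinate -/
noncomputable def plkP (ξ : Fin d → Matrix (Fin N) (Fin N) K) (v₀ : Fin N → K)
    (J : Fin (d + 1) → Fin N) : MvPolynomial (Fin N × Fin N) K :=
  Matrix.det (Matrix.of fun a b : Fin (d + 1) =>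
    Fin.cases (motive := fun _ => MvPolynomial (Fin N × Fin N) K) (orbP v₀ (J a))
      (fun c : Fin d => ∑ k, C (ξ c (J a) k) * orbP v₀ k) b)

lemma ev_plkP (ξ : Fin d → Matrix (Fin N) (Fin N) K) (v₀ : Fin N → K)
    (J : Fin (d + 1) → Fin N) {F : Type} [Field F] [Algebra K F]
    (g : Matrix (Fin N) (Fin N) F) : ev (plkP ξ v₀ J) g = plk ξ (orb v₀ g) J := by
  unfold plkP plk
  have h : ∀ A : Matrix (Fin (d + 1)) (Fin (d + 1)) (MvPolynomial (Fin N × Fin N) K),
      ev A.det g = (Matrix.of fun a b => ev (A a b) g).det := by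
    intro A
    unfold ev
    rw [AlgHom.map_det]
    rfl
  rw [h]
  congr 1
  ext a b
  simp only [Matrix.of_apply]
  refine Fin.cases ?_ (fun c => ?_) b
  · simp only [Fin.cases_zero]
    exact ev_orbP v₀ (J a) g
  · simp only [Fin.cases_succ]
    rw [ev_sum]
    simp only [Matrix.mulVec, dotProduct]
    refine Finset.sum_congr rfl fun k _ => ?_
    rw [ev_mul, ev_C, ev_orbP, Matrix.map_apply]

/-! ### Ultrametric estimates -/

lemma norm_sum_le {F : Type} [NormedField F] (hF : ∀ x y : F, ‖x + y‖ ≤ max ‖x‖ ‖y‖)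
    {ι : Type} (s : Finset ι) (f : ι → F) (B : ℝ) (hB : 0 ≤ B) (hf : ∀ i ∈ s, ‖f i‖ ≤ B) :
    ‖∑ i ∈ s, f i‖ ≤ B := by
  classical
  induction s using Finset.induction_on with
  | empty => simpa using hB
  | insert a s ha ih =>
    rw [Finset.sum_insert ha]
    refine (hF _ _).trans (max_le (hf a (Finset.mem_insert_self _ _)) (ih fun i hi => ?_))
    exact hf i (Finset.mem_insert_of_mem hi)

lemma norm_aeval_le {F : Type} [NormedField F] [Algebra K F]
    (hF : ∀ x y : F, ‖x + y‖ ≤ max ‖x‖ ‖y‖) (z : Fin d → F) (hz : ∀ i, ‖z i‖ ≤ 1)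
    (p : MvPolynomial (Fin d) K) (hp : ∀ m ∈ p.support, ‖algebraMap K F (coeff m p)‖ ≤ 1) :
    ‖aeval z p‖ ≤ 1 := by
  rw [aeval_def, eval₂_eq]
  refine norm_sum_le hF _ _ 1 zero_le_one fun m hm => ?_
  rw [norm_mul]
  refine mul_le_one₀ (hp m hm) (norm_nonneg _) ?_
  rw [norm_prod]
  refine Finset.prod_le_one (fun i _ => norm_nonneg _) fun i _ => ?_
  rw [norm_pow]
  exact pow_le_one₀ (norm_nonneg _) (hz i)

lemma lead_lt {F : Type} [NormedField F] (hF : ∀ x y : F, ‖x + y‖ ≤ max ‖x‖ ‖y‖) (n : ℕ)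
    (a : ℕ → F) (g : F) (h0 : ∑ s ∈ Finset.range (n + 1), a s * g ^ s = 0)
    (ha : ∀ s, s ≤ n → ‖a s‖ ≤ 1) (hg : 1 < ‖g‖) : ‖a n‖ < 1 := by
  rw [Finset.sum_range_succ] at h0
  rcases n with _ | n
  · simp only [Finset.range_zero, Finset.sum_empty, pow_zero, mul_one, zero_add] at h0
    rw [h0]
    simp
  · have h1 : a (n + 1) * g ^ (n + 1) = - ∑ s ∈ Finset.range (n + 1), a s * g ^ s := by
      linear_combination h0
    have h2 : ‖∑ s ∈ Finset.range (n + 1), a s * g ^ s‖ ≤ ‖g‖ ^ n := by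
      refine norm_sum_le hF _ _ _ (pow_nonneg (norm_nonneg _) _) fun s hs => ?_
      have hs' : s ≤ n := by
        have := Finset.mem_range.1 hs
        omega
      rw [norm_mul, norm_pow]
      calc ‖a s‖ * ‖g‖ ^ s ≤ 1 * ‖g‖ ^ s :=
            mul_le_mul_of_nonneg_right (ha s (by omega)) (pow_nonneg (norm_nonneg _) _)
        _ ≤ ‖g‖ ^ n := by
            rw [one_mul]
            exact pow_le_pow_right₀ hg.le hs'
    have h3 : ‖a (n + 1)‖ * ‖g‖ ^ (n + 1) ≤ ‖g‖ ^ n := by
      rw [← norm_pow, ← norm_mul, h1, norm_neg]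
      exact h2
    have h4 : 0 < ‖g‖ ^ n := pow_pos (by linarith) _
    have h5 : ‖a (n + 1)‖ * ‖g‖ ≤ 1 := by
      have : ‖a (n + 1)‖ * ‖g‖ * ‖g‖ ^ n ≤ 1 * ‖g‖ ^ n := by
        calc ‖a (n + 1)‖ * ‖g‖ * ‖g‖ ^ n = ‖a (n + 1)‖ * ‖g‖ ^ (n + 1) := by ring
          _ ≤ ‖g‖ ^ n := h3
          _ = 1 * ‖g‖ ^ n := by ring
      exact le_of_mul_le_mul_right this h4
    by_contra hcon
    push Not at hcon
    nlinarith [norm_nonneg (a (n + 1))]

/-- the number of solutions of a system of equations -/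
lemma encard_le {F : Type} [Field F] (n : Fin N → ℕ) (a : Fin N → ℕ → F)
    (ha : ∀ j, a j (n j) ≠ 0) (T : Set (Fin N → F))
    (hT : ∀ x ∈ T, ∀ j, ∑ s ∈ Finset.range (n j + 1), a j s * x j ^ s = 0) :
    T.encard ≤ ((∏ j, n j : ℕ) : ℕ∞) := by
  classical
  let P : Fin N → Polynomial F := fun j =>
    ∑ s ∈ Finset.range (n j + 1), Polynomial.C (a j s) * Polynomial.X ^ s
  have hcoeff : ∀ j, (P j).coeff (n j) = a j (n j) := by
    intro j
    simp only [P, Polynomial.finsetSum_coeff, Polynomial.coeff_C_mul_X_pow]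
    rw [Finset.sum_ite_eq (Finset.range (n j + 1)) (n j)]
    simp
  have hne : ∀ j, P j ≠ 0 := by
    intro j h
    have := hcoeff j
    rw [h, Polynomial.coeff_zero] at this
    exact ha j this.symm
  have hdeg : ∀ j, (P j).natDegree ≤ n j := by
    intro j
    refine Polynomial.natDegree_sum_le_of_forall_le _ _ fun s hs => ?_
    have h1 : s ≤ n j := by
      have := Finset.mem_range.1 hs
      omega
    exact (Polynomial.natDegree_C_mul_X_pow_le _ _).trans h1
  have hsub : T ⊆ ((Fintype.piFinset fun j => (P j).roots.toFinset : Finset (Fin N → F)) :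
      Set (Fin N → F)) := by
    intro x hx
    simp only [Finset.mem_coe, Fintype.mem_piFinset, Multiset.mem_toFinset]
    intro j
    rw [Polynomial.mem_roots (hne j), Polynomial.IsRoot.def]
    simp only [P, Polynomial.eval_finsetSum, Polynomial.eval_mul, Polynomial.eval_C,
      Polynomial.eval_pow, Polynomial.eval_X]
    exact hT x hx j
  refine (Set.encard_le_encard hsub).trans ?_
  rw [Set.encard_coe_eq_coe_finsetCard, Fintype.card_piFinset]
  norm_cast
  refine Finset.prod_le_prod' fun j _ => ?_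
  exact ((Multiset.toFinset_card_le _).trans (Polynomial.card_roots' _)).trans (hdeg j)

/-! ### The affine coordinates form a transcendence basis -/

lemma aeval_gen (p : MvPolynomial (Fin d) K) :
    aeval (fun k => algebraMap (MvPolynomial (Fin d) K) (RF K d) (X k)) p =
      algebraMap (MvPolynomial (Fin d) K) (RF K d) p := by
  have h := (MvPolynomial.aeval_unique
    (IsScalarTower.toAlgHom K (MvPolynomial (Fin d) K) (RF K d)))
  have h2 : (IsScalarTower.toAlgHom K (MvPolynomial (Fin d) K) (RF K d)) p = _ :=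
    DFunLike.congr_fun h p
  exact h2.symm

lemma plk_smul (ξ : Fin d → Matrix (Fin N) (Fin N) K) {F : Type} [Field F] [Algebra K F]
    (c : F) (u : Fin N → F) (J : Fin (d + 1) → Fin N) :
    plk ξ (c • u) J = c ^ (d + 1) * plk ξ u J := by
  unfold plk
  have h : (Matrix.of fun a b : Fin (d + 1) =>
    Fin.cases (motive := fun _ => F) ((c • u) (J a))
      (fun c' : Fin d => ((ξ c').map (algebraMap K F)).mulVec (c • u) (J a)) b) =
      c • (Matrix.of fun a b : Fin (d + 1) =>
    Fin.cases (motive := fun _ => F) (u (J a))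
      (fun c' : Fin d => ((ξ c').map (algebraMap K F)).mulVec u (J a)) b) := by
    ext a b
    simp only [Matrix.of_apply, Matrix.smul_apply]
    refine Fin.cases ?_ (fun c' => ?_) b
    · simp
    · simp only [Fin.cases_succ, Matrix.mulVec_smul, Pi.smul_apply]
  rw [h, Matrix.det_smul, Fintype.card_fin]

/-- the affine coordinates at the generic point form a transcendence basis -/
lemma transBasis [CharZero K] (hDer : Stmt_Der) (hJInd : Stmt_JInd) (hJId : Stmt_JId)
    {I : Set (MvPolynomial (Fin N × Fin N) K)} {ξ : Fin d → Matrix (Fin N) (Fin N) K}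
    {φ : Matrix (Fin N) (Fin N) (RF K d)} {Dg : GeoData K N d} (hG : IsGeo I ξ φ Dg)
    (v₀ : Fin N → K) (J : Fin (d + 1) → Fin N) (h0 : orb v₀ φ (J 0) ≠ 0)
    (h1 : plk ξ (orb v₀ φ) J ≠ 0) :
    AlgebraicIndependent K (zc J (orb v₀ φ)) ∧ ∀ x : RF K d,
      IsAlgebraic (IntermediateField.adjoin K (Set.range (zc J (orb v₀ φ)))) x := by
  obtain ⟨D, hD⟩ := hDer K d
  refine hJInd K d D hD _ ?_
  set y : Fin d → RF K d := fun k => algebraMap (MvPolynomial (Fin d) K) (RF K d) (X k) with hy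
  set u : Fin N → RF K d := fun i => algebraMap K (RF K d) (v₀ i) with hu
  have hinj : Function.Injective (algebraMap (MvPolynomial (Fin d) K) (RF K d)) :=
    IsFractionRing.injective _ _
  have hne : ∀ p : MvPolynomial (Fin d) K, p ∣ Dg.Δ →
      algebraMap (MvPolynomial (Fin d) K) (RF K d) p ≠ 0 := by
    intro p hp h
    have h2 : p = 0 := hinj (by rw [h, map_zero])
    exact hG.ne (zero_dvd_iff.1 (h2 ▸ hp))
  have hδ := hne _ hG.dvd
  have hm₁ := hne _ hG.dvd₁
  set δ' := algebraMap (MvPolynomial (Fin d) K) (RF K d) Dg.δ with hδ'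
  set w : Fin N → RF K d := (phiNum Dg.Φ y).mulVec u with hw
  have hPhi : phiNum Dg.Φ y = δ' • φ := by
    ext i j
    simp only [phiNum, Matrix.of_apply, Matrix.smul_apply, smul_eq_mul]
    rw [aeval_gen, hG.eq i j, ← hδ']
    field_simp
  have hwo : w = δ' • orb v₀ φ := by
    rw [hw, hPhi, Matrix.smul_mulVec]
    rfl
  have hw0 : w (J 0) ≠ 0 := by
    rw [hwo]
    exact mul_ne_zero hδ h0
  have hz : ∀ i, zc J (orb v₀ φ) i = w (J i.succ) / w (J 0) := by
    intro i
    rw [hwo]
    simp only [zc, Pi.smul_apply, smul_eq_mul]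
    field_simp
  -- derivatives of `w`
  have hDw : ∀ (k : Fin d) (a : Fin N), (Matrix.of fun i j => aeval y (pderiv k (Dg.Φ i j)) :
      Matrix (Fin N) (Fin N) (RF K d)).mulVec u a = D k (w a) := by
    intro k a
    simp only [hw, Matrix.mulVec, dotProduct, phiNum, Matrix.of_apply]
    rw [map_sum]
    refine Finset.sum_congr rfl fun j _ => ?_
    rw [Derivation.leibniz, hu]
    simp only [Derivation.map_algebraMap, smul_eq_mul, mul_zero, zero_add]
    rw [aeval_gen, aeval_gen, hD, mul_comm]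
  have hwdet : wdet Dg.Φ y u J = Matrix.det (Matrix.of fun a b : Fin (d + 1) =>
      Fin.cases (motive := fun _ => RF K d) (w (J a)) (fun k : Fin d => D k (w (J a))) b) := by
    unfold wdet
    congr 1
    ext a b
    simp only [Matrix.of_apply]
    refine Fin.cases ?_ (fun k => ?_) b
    · simp only [Fin.cases_zero]
      rfl
    · simp only [Fin.cases_succ]
      exact hDw k (J a)
  have htan := hG.tan (RF K d) y u J
  have hplk : plk ξ w J ≠ 0 := by
    rw [hwo, plk_smul]
    exact mul_ne_zero (pow_ne_zero _ hδ) h1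
  have hwd : wdet Dg.Φ y u J ≠ 0 := by
    intro h
    rw [h, mul_zero, aeval_gen] at htan
    exact mul_ne_zero hm₁ hplk htan.symm
  set M : Matrix (Fin (d + 1)) (Fin (d + 1)) (RF K d) := Matrix.of fun a b : Fin (d + 1) =>
      Fin.cases (motive := fun _ => RF K d) (w (J a)) (fun k : Fin d => D k (w (J a))) b with hM
  have hM00 : M 0 0 = w (J 0) := by
    simp only [hM, Matrix.of_apply, Fin.cases_zero]
  have hMs0 : ∀ i : Fin d, M i.succ 0 = w (J i.succ) := by
    intro i
    simp only [hM, Matrix.of_apply, Fin.cases_zero]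
  have hM0s : ∀ k : Fin d, M 0 k.succ = D k (w (J 0)) := by
    intro k
    simp only [hM, Matrix.of_apply, Fin.cases_succ]
  have hMss : ∀ i k : Fin d, M i.succ k.succ = D k (w (J i.succ)) := by
    intro i k
    simp only [hM, Matrix.of_apply, Fin.cases_succ]
  have hjid := hJId (RF K d) d M (by rw [hM00]; exact hw0)
  have hmat : (Matrix.of fun i k => D k (zc J (orb v₀ φ) i)) = (Matrix.of fun i k : Fin d =>
      (M i.succ k.succ * M 0 0 - M i.succ 0 * M 0 k.succ) / M 0 0 ^ 2) := by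
    ext i k
    simp only [Matrix.of_apply]
    rw [hz i, Derivation.leibniz_div, hM00, hMs0, hM0s, hMss]
    simp only [smul_eq_mul]
    field_simp
  rw [hmat, hjid, ← hwdet, hM00]
  exact div_ne_zero hwd (pow_ne_zero _ hw0)

end Pool.GC.RelX

namespace Pool.GC

open MvPolynomial RelX

theorem rel_proof (hDer : Stmt_Der) (hJInd : Stmt_JInd) (hGeo : Stmt_Geo) (hJId : Stmt_JId) :
    Stmt_Rel := by
  classical
  intro K _ _ N d I ξ φ v₀ hI hξ hφ J
  by_cases hcase : orb v₀ φ (J 0) * plk ξ (orb v₀ φ) J = 0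
  · left
    intro F _ _ g hg
    have h1 : ev (orbP v₀ (J 0) * plkP ξ v₀ J) φ = 0 := by
      rw [ev_mul, ev_orbP, ev_plkP]
      exact hcase
    have h2 := hφ.dense _ h1 F g hg
    rw [ev_mul, ev_orbP, ev_plkP] at h2
    exact h2
  right
  have h0 : orb v₀ φ (J 0) ≠ 0 := fun h => hcase (by rw [h, zero_mul])
  have h1 : plk ξ (orb v₀ φ) J ≠ 0 := fun h => hcase (by rw [h, mul_zero])
  obtain ⟨Dg, hG⟩ := hGeo K N d I ξ φ hI hξ hφ
  obtain ⟨hind, halg⟩ := transBasis hDer hJInd hJId hG v₀ J h0 h1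
  have hinj : ∀ p : MvPolynomial (Fin d) K, p ≠ 0 → aeval (zc J (orb v₀ φ)) p ≠ 0 := by
    intro p hp h
    exact hp ((algebraicIndependent_iff_injective_aeval.1 hind) (by rw [h, map_zero]))
  set q := orbP v₀ (J 0) with hq
  have hqφ : ev q φ ≠ 0 := by
    rw [hq, ev_orbP]
    exact h0
  -- relations for functions on the group
  have key : ∀ nx : MvPolynomial (Fin N × Fin N) K, ∃ (n : ℕ) (r : ℕ → MvPolynomial (Fin d) K),
      r n ≠ 0 ∧ ∀ (F : Type) [Field F] [Algebra K F] (g : Matrix (Fin N) (Fin N) F),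
        g ∈ pts I F → orb v₀ g (J 0) ≠ 0 →
        ∑ s ∈ Finset.range (n + 1), aeval (zc J (orb v₀ g)) (r s) *
          (ev nx g / orb v₀ g (J 0)) ^ s = 0 := by
    intro nx
    obtain ⟨n, r, hrn, hr⟩ := exists_rel (zc J (orb v₀ φ)) (ev nx φ / orb v₀ φ (J 0)) (halg _)
    refine ⟨n, r, hrn, fun F _ _ g hg hg0 => ?_⟩
    let nn : Option (Fin d) → MvPolynomial (Fin N × Fin N) K := fun o =>
      o.elim nx fun i => orbP v₀ (J i.succ)
    have hval : ∀ (F : Type) [Field F] [Algebra K F] (g : Matrix (Fin N) (Fin N) F),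
        aeval (fun i => ev (nn i) g / ev q g) (relP n r) =
          ∑ s ∈ Finset.range (n + 1), aeval (zc J (orb v₀ g)) (r s) *
          (ev nx g / orb v₀ g (J 0)) ^ s := by
      intro F _ _ g
      rw [aeval_relP]
      refine Finset.sum_congr rfl fun s _ => ?_
      have e1 : (fun i : Fin d => ev (nn (some i)) g / ev q g) = zc J (orb v₀ g) := by
        funext i
        simp only [nn, Option.elim_some, hq, ev_orbP, zc]
      have e2 : ev (nn none) g / ev q g = ev nx g / orb v₀ g (J 0) := by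
        simp only [nn, Option.elim_none, hq, ev_orbP]
      rw [e1, e2]
    have h2 := transfer hφ nn q hqφ (relP n r) (by rw [hval]; exact hr) F g hg
      (by rw [hq, ev_orbP]; exact hg0)
    rw [hval] at h2
    exact h2
  -- relations for the coordinates and the entries
  have k1 := fun j : Fin N => key (orbP v₀ j)
  choose n1 r1 hr1 hrel1 using k1
  have k2 := fun ij : Fin N × Fin N => key (X ij * q)
  choose n2 r2 hr2 hrel2 using k2
  -- numerators of the leading coefficients
  have k3 : ∀ j : Fin N, ∃ (E : ℕ) (p : MvPolynomial (Fin N × Fin N) K),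
      ∀ (F : Type) [Field F] [Algebra K F] (g : Matrix (Fin N) (Fin N) F),
      orb v₀ g (J 0) ≠ 0 →
      ev p g = orb v₀ g (J 0) ^ E * aeval (zc J (orb v₀ g)) (r1 j (n1 j)) := by
    intro j
    obtain ⟨E, p, hp⟩ := homog (fun i : Fin d => orbP v₀ (J i.succ)) q (r1 j (n1 j))
    refine ⟨E, p, fun F _ _ g hg => ?_⟩
    have h2 := hp F g (by rw [hq, ev_orbP]; exact hg)
    have e1 : (fun i : Fin d => ev (orbP v₀ (J i.succ)) g / ev q g) = zc J (orb v₀ g) := by
      funext i
      simp only [hq, ev_orbP, zc]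
    rw [e1, hq, ev_orbP] at h2
    exact h2
  choose E p hp using k3
  refine ⟨q * ∏ j, p j, ∏ j, n1 j, ∏ ij : Fin N × Fin N, r2 ij (n2 ij),
    Finset.univ.biUnion fun ij : Fin N × Fin N => (Finset.range (n2 ij + 1)).biUnion fun s =>
      (r2 ij s).support.image fun m => coeff m (r2 ij s), ?_, ?_, ?_, ?_, ?_⟩
  · rw [ev_mul, ev_prod]
    refine mul_ne_zero hqφ (Finset.prod_ne_zero_iff.2 fun j _ => ?_)
    rw [hp j (RF K d) φ h0]
    exact mul_ne_zero (pow_ne_zero _ h0) (hinj _ (hr1 j))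
  · exact Finset.prod_ne_zero_iff.2 fun ij _ => hr2 ij
  · intro F _ _ g hg hΛ h
    apply hΛ
    rw [ev_mul, hq, ev_orbP, h, zero_mul]
  · intro F _ _ z
    by_cases hz : ∀ j, aeval z (r1 j (n1 j)) ≠ 0
    · refine encard_le n1 (fun j s => aeval z (r1 j s)) hz _ ?_
      rintro x ⟨g, hg, hΛ, rfl, rfl⟩ j
      have hg0 : orb v₀ g (J 0) ≠ 0 := by
        intro h
        apply hΛ
        rw [ev_mul, hq, ev_orbP, h, zero_mul]
      have h2 := hrel1 j F g hg hg0
      rw [ev_orbP] at h2
      simp only [Pi.smul_apply, smul_eq_mul]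
      rw [← h2]
      refine Finset.sum_congr rfl fun s _ => ?_
      rw [div_eq_inv_mul]
    · push Not at hz
      obtain ⟨j, hj⟩ := hz
      have hempty : {x : Fin N → F | ∃ g ∈ pts I F, ev (q * ∏ j, p j) g ≠ 0 ∧
          x = (orb v₀ g (J 0))⁻¹ • orb v₀ g ∧ zc J (orb v₀ g) = z} = ∅ := by
        ext x
        simp only [Set.mem_ofPred_eq, Set.mem_empty_iff_false, iff_false, not_exists, not_and]
        intro g hg hΛ _ hzz
        have hg0 : orb v₀ g (J 0) ≠ 0 := by
          intro h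
          apply hΛ
          rw [ev_mul, hq, ev_orbP, h, zero_mul]
        apply hΛ
        rw [ev_mul, ev_prod]
        have : ev (p j) g = 0 := by
          rw [hp j F g hg0, hzz, hj, mul_zero]
        rw [Finset.prod_eq_zero (Finset.mem_univ j) this, mul_zero]
      rw [hempty, Set.encard_empty]
      exact zero_le
  · intro F _ _ hF hC g hg hg0 hz ⟨i, j, hij⟩
    have hcoef : ∀ ij s, s ≤ n2 ij → ‖aeval (zc J (orb v₀ g)) (r2 ij s)‖ ≤ 1 := by
      intro ij s hs
      refine norm_aeval_le hF _ hz _ fun m hm => ?_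
      refine hC _ ?_
      simp only [Finset.mem_biUnion, Finset.mem_univ, true_and, Finset.mem_image]
      exact ⟨ij, s, Finset.mem_range.2 (by omega), m, hm, rfl⟩
    have hlt : ‖aeval (zc J (orb v₀ g)) (r2 (i, j) (n2 (i, j)))‖ < 1 := by
      refine lead_lt hF (n2 (i, j)) (fun s => aeval (zc J (orb v₀ g)) (r2 (i, j) s)) (g i j) ?_
        (fun s hs => hcoef (i, j) s hs) hij
      have h2 := hrel2 (i, j) F g hg hg0
      rw [← h2]
      refine Finset.sum_congr rfl fun s _ => ?_
      rw [ev_mul, ev_X, hq, ev_orbP]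
      congr 2
      field_simp
    rw [map_prod, norm_prod, ← Finset.mul_prod_erase _ _ (Finset.mem_univ (i, j))]
    have hle : ∏ ij ∈ Finset.univ.erase (i, j), ‖aeval (zc J (orb v₀ g)) (r2 ij (n2 ij))‖ ≤ 1 :=
      Finset.prod_le_one (fun ij _ => norm_nonneg _) fun ij _ => hcoef ij _ le_rfl
    calc ‖aeval (zc J (orb v₀ g)) (r2 (i, j) (n2 (i, j)))‖ *
          ∏ ij ∈ Finset.univ.erase (i, j), ‖aeval (zc J (orb v₀ g)) (r2 ij (n2 ij))‖
        ≤ ‖aeval (zc J (orb v₀ g)) (r2 (i, j) (n2 (i, j)))‖ * 1 :=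
          mul_le_mul_of_nonneg_left hle (norm_nonneg _)
      _ < 1 := by
          rw [mul_one]
          exact hlt

end Pool.GC
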