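import Pool.Agent.GC.Stmts

set_option autoImplicit false

/-! Squad GC, module SZ: Schwartz-Zippel over a nonarchimedean local field. -/

namespace Pool.GC

open MvPolynomial MeasureTheory NumberField Metric

namespace SZX

section Ring

variable {F : Type} [NormedField F] (hna : ∀ x y : F, ‖x + y‖ ≤ max ‖x‖ ‖y‖)

include hna in
theorem sub_le (x y : F) : ‖x - y‖ ≤ max ‖x‖ ‖y‖ := by
  rw [sub_eq_add_neg]
  have := hna x (-y)
  rwa [norm_neg] at this

/-- the ring of integers -/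
def O : Subring F where
  carrier := {x | ‖x‖ ≤ 1}
  mul_mem' := by
    intro a b ha hb
    show ‖a * b‖ ≤ 1
    rw [norm_mul]
    exact mul_le_one₀ ha (norm_nonneg _) hb
  one_mem' := by
    show ‖(1 : F)‖ ≤ 1
    rw [norm_one]
  add_mem' := by
    intro a b ha hb
    exact (hna a b).trans (max_le ha hb)
  zero_mem' := by
    show ‖(0 : F)‖ ≤ 1
    rw [norm_zero]
    exact zero_le_one
  neg_mem' := by
    intro a ha
    show ‖-a‖ ≤ 1
    rw [norm_neg]
    exact ha

theorem mem_O {x : F} : x ∈ O hna ↔ ‖x‖ ≤ 1 := Iff.rfl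

/-- its maximal ideal -/
def mm : Ideal (O hna) where
  carrier := {x | ‖(x : F)‖ < 1}
  add_mem' := by
    intro a b ha hb
    exact lt_of_le_of_lt (hna a b) (max_lt ha hb)
  zero_mem' := by
    show ‖((0 : O hna) : F)‖ < 1
    simp
  smul_mem' := by
    intro c x hx
    show ‖((c * x : O hna) : F)‖ < 1
    have hc : ‖(c : F)‖ ≤ 1 := c.2
    have hx' : ‖(x : F)‖ < 1 := hx
    rw [Subring.coe_mul, norm_mul]
    calc ‖(c : F)‖ * ‖(x : F)‖ ≤ 1 * ‖(x : F)‖ := by
          exact mul_le_mul_of_nonneg_right hc (norm_nonneg _)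
      _ < 1 := by linarith

theorem mem_mm {x : O hna} : x ∈ mm hna ↔ ‖(x : F)‖ < 1 := Iff.rfl

instance prime : (mm hna).IsPrime := by
  refine Ideal.IsPrime.mk ?_ ?_
  · intro h
    have : (1 : O hna) ∈ mm hna := by rw [h]; trivial
    rw [mem_mm] at this
    simp at this
  · intro x y h
    rw [mem_mm, Subring.coe_mul, norm_mul] at h
    by_contra h'
    rw [not_or, mem_mm, mem_mm, not_lt, not_lt] at h'
    have h1 := le_antisymm (x.2 : ‖(x : F)‖ ≤ 1) h'.1
    have h2 := le_antisymm (y.2 : ‖(y : F)‖ ≤ 1) h'.2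
    rw [h1, h2] at h
    norm_num at h

end Ring

end SZX

open SZX

theorem sz_proof : Stmt_SZ := by
  intro K _ P q hP d c hc1 hc2
  classical
  obtain ⟨-, hq, hna, -, -, ⟨R, hRc, hR1, hR2⟩, hμ⟩ := hP
  have hq0 : (q : ENNReal) ≠ 0 := by
    simp; omega
  have hqt : (q : ENNReal) ≠ ⊤ := ENNReal.natCast_ne_top q
  -- measure of the unit ball of `F ^ d`
  have hvol : P.vol d (closedBall 0 1) = 1 := by
    unfold LF.vol
    rw [closedBall_pi _ zero_le_one, Measure.pi_pi]
    simp [hμ]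
  refine ⟨hvol, ?_⟩
  -- measure of a residue class
  have htr : ∀ r : P.F, P.μ (ball r 1) = P.μ (ball 0 1) := by
    intro r
    have h1 : (fun x => -r + x) ⁻¹' (ball (0 : P.F) 1) = ball r 1 := by
      ext x
      simp only [Set.mem_preimage, mem_ball, dist_eq_norm, sub_zero]
      rw [neg_add_eq_sub]
    rw [← h1, measure_preimage_add]
  have hcover : closedBall (0 : P.F) 1 = ⋃ r ∈ R, ball r 1 := by
    ext x
    simp only [mem_closedBall, Set.mem_iUnion, mem_ball, dist_eq_norm,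
      exists_prop, sub_zero]
    constructor
    · intro hx
      obtain ⟨r, ⟨hr, hr'⟩, -⟩ := hR2 x hx
      exact ⟨r, hr, hr'⟩
    · rintro ⟨r, hr, hr'⟩
      have := hna (x - r) r
      rw [sub_add_cancel] at this
      exact this.trans (max_le hr'.le (hR1 r hr))
  have hdisj : (R : Set P.F).PairwiseDisjoint fun r => ball r 1 := by
    intro r hr s hs hrs
    rw [Function.onFun, Set.disjoint_left]
    intro x hx hx'
    rw [mem_ball, dist_eq_norm] at hx hx'
    apply hrs
    have hx1 : ‖x‖ ≤ 1 := by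
      have := hna (x - r) r
      rw [sub_add_cancel] at this
      exact this.trans (max_le hx.le (hR1 r hr))
    obtain ⟨t, -, ht⟩ := hR2 x hx1
    rw [ht r ⟨hr, hx⟩, ht s ⟨hs, hx'⟩]
  have hball : P.μ (ball 0 1) = (q : ENNReal)⁻¹ := by
    rw [hcover, measure_biUnion_finset hdisj (fun r _ => measurableSet_ball)] at hμ
    simp only [htr, Finset.sum_const, hRc, nsmul_eq_mul] at hμ
    rw [← ENNReal.mul_right_inj hq0 hqt, hμ, ENNReal.mul_inv_cancel hq0 hqt]
  -- reduction of the polynomial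
  let c' : MvPolynomial (Fin d) (O hna) := ∑ s ∈ c.support, monomial s ⟨coeff s c, hc1 s⟩
  have hc' : ∀ s, ((coeff s c' : O hna) : P.F) = coeff s c := by
    intro s
    simp only [c', coeff_sum, coeff_monomial]
    rw [Finset.sum_ite_eq']
    split_ifs with h
    · rfl
    · rw [notMem_support_iff] at h
      rw [h]
      rfl
  have hmap : MvPolynomial.map (O hna).subtype c' = c := by
    ext s
    rw [coeff_map]
    exact hc' s
  let cb : MvPolynomial (Fin d) (O hna ⧸ mm hna) := MvPolynomial.map (Ideal.Quotient.mk (mm hna)) c'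
  have hcb : cb ≠ 0 := by
    obtain ⟨s, hs⟩ := hc2
    intro h
    have h1 := congrArg (coeff s) h
    rw [coeff_zero, coeff_map, Ideal.Quotient.eq_zero_iff_mem, mem_mm, hc', hs] at h1
    exact lt_irrefl _ h1
  have hdeg : cb.totalDegree ≤ c.totalDegree := by
    unfold totalDegree
    refine Finset.sup_mono ?_
    intro s hs
    rw [mem_support_iff] at hs ⊢
    intro h
    apply hs
    have h1 : coeff s c' = 0 := by
      have := hc' s
      rw [h] at this
      exact_mod_cast this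
    show coeff s (MvPolynomial.map (Ideal.Quotient.mk (mm hna)) c') = 0
    rw [coeff_map, h1, map_zero]
  -- representatives
  let rep : P.F → O hna ⧸ mm hna := fun x => if h : ‖x‖ ≤ 1 then Ideal.Quotient.mk (mm hna) ⟨x, h⟩ else 0
  have hrep : ∀ x (h : ‖x‖ ≤ 1), rep x = Ideal.Quotient.mk (mm hna) ⟨x, h⟩ := by
    intro x h
    simp only [rep]
    rw [dif_pos h]
  have hrepR : Set.InjOn rep (R : Set P.F) := by
    intro r hr s hs h
    rw [hrep r (hR1 r hr), hrep s (hR1 s hs), Ideal.Quotient.eq, mem_mm] at h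
    have h' : ‖r - s‖ < 1 := h
    obtain ⟨t, -, ht⟩ := hR2 r (hR1 r hr)
    rw [ht r ⟨hr, by simp⟩, ht s ⟨hs, h'⟩]
  let S : Finset (O hna ⧸ mm hna) := R.image rep
  have hS : S.card = q := by
    rw [Finset.card_image_of_injOn hrepR, hRc]
  let Z : Finset (Fin d → P.F) := (Fintype.piFinset fun _ : Fin d => R).filter
    fun ρ => eval (fun i => rep (ρ i)) cb = 0
  have hsub : {z | z ∈ closedBall (0 : Fin d → P.F) 1 ∧ ‖eval z c‖ < 1} ⊆
      ⋃ ρ ∈ Z, Set.pi Set.univ fun i => ball (ρ i) 1 := by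
    rintro z ⟨hz, hz'⟩
    rw [closedBall_pi _ zero_le_one, Set.mem_univ_pi] at hz
    have hz1 : ∀ i, ‖z i‖ ≤ 1 := fun i => by simpa using hz i
    choose ρ hρ using fun i => (hR2 (z i) (hz1 i)).exists
    rw [Set.mem_iUnion₂]
    refine ⟨ρ, ?_, ?_⟩
    · simp only [Z, Finset.mem_filter, Fintype.mem_piFinset]
      refine ⟨fun i => (hρ i).1, ?_⟩
      have h1 : (fun i => rep (ρ i)) = fun i => Ideal.Quotient.mk (mm hna) ⟨z i, hz1 i⟩ := by
        funext i
        rw [hrep _ (hR1 _ (hρ i).1), Ideal.Quotient.eq, mem_mm]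
        show ‖ρ i - z i‖ < 1
        rw [norm_sub_rev]
        exact (hρ i).2
      rw [h1]
      show eval _ (MvPolynomial.map (Ideal.Quotient.mk (mm hna)) c') = 0
      have h2 := MvPolynomial.map_eval (Ideal.Quotient.mk (mm hna)) (fun i => (⟨z i, hz1 i⟩ : O hna)) c'
      have h3 : (fun i => Ideal.Quotient.mk (mm hna) ⟨z i, hz1 i⟩) =
        (Ideal.Quotient.mk (mm hna)) ∘ (fun i => (⟨z i, hz1 i⟩ : O hna)) := rfl
      rw [h3, ← h2, Ideal.Quotient.eq_zero_iff_mem, mem_mm]
      have h4 := MvPolynomial.map_eval (O hna).subtype (fun i => (⟨z i, hz1 i⟩ : O hna)) c'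
      rw [hmap] at h4
      have h5 : ((O hna).subtype ∘ fun i => (⟨z i, hz1 i⟩ : O hna)) = z := rfl
      rw [h5] at h4
      have h6 : (((eval fun i => (⟨z i, hz1 i⟩ : O hna)) c' : O hna) : P.F) = eval z c := h4
      rw [h6]
      exact hz'
    · rw [Set.mem_univ_pi]
      intro i
      rw [mem_ball, dist_eq_norm]
      exact (hρ i).2
  have hmeas : ∀ ρ : Fin d → P.F, P.vol d (Set.pi Set.univ fun i => ball (ρ i) 1) =
      ((q : ENNReal)⁻¹) ^ d := by
    intro ρ
    unfold LF.vol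
    rw [Measure.pi_pi]
    simp [htr, hball]
  have hcard : (Z.card : ℚ≥0) / (q : ℚ≥0) ^ d ≤ (c.totalDegree : ℚ≥0) / q := by
    have h1 := MvPolynomial.schwartz_zippel_totalDegree hcb S
    rw [hS] at h1
    have h2 : Z.card ≤ (Finset.filter (fun f => eval f cb = 0)
        (Fintype.piFinset fun _ : Fin d => S)).card := by
      refine Finset.card_le_card_of_injOn (fun ρ i => rep (ρ i)) ?_ ?_
      · intro ρ hρ
        simp only [Z, Finset.coe_filter, Fintype.mem_piFinset, Set.mem_ofPred_eq] at hρ ⊢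
        exact ⟨fun i => Finset.mem_image_of_mem _ (hρ.1 i), hρ.2⟩
      · intro ρ hρ σ hσ h
        simp only [Z, Finset.coe_filter, Fintype.mem_piFinset, Set.mem_ofPred_eq] at hρ hσ
        funext i
        exact hrepR (hρ.1 i) (hσ.1 i) (congrFun h i)
    calc (Z.card : ℚ≥0) / (q : ℚ≥0) ^ d ≤ ((Finset.filter (fun f => eval f cb = 0)
        (Fintype.piFinset fun _ : Fin d => S)).card : ℚ≥0) / (q : ℚ≥0) ^ d := by
          gcongr
      _ ≤ (cb.totalDegree : ℚ≥0) / q := h1
      _ ≤ _ := by gcongr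
  have hcardR : (Z.card : ℝ) * ((q : ℝ)⁻¹) ^ d ≤ (c.totalDegree : ℝ) / q := by
    have : ((Z.card : ℚ≥0) / (q : ℚ≥0) ^ d : ℚ≥0) ≤ ((c.totalDegree : ℚ≥0) / q : ℚ≥0) := hcard
    have h1 : (((Z.card : ℚ≥0) / (q : ℚ≥0) ^ d : ℚ≥0) : ℝ) ≤
        (((c.totalDegree : ℚ≥0) / q : ℚ≥0) : ℝ) := by exact_mod_cast this
    push_cast at h1
    rw [inv_pow, ← div_eq_mul_inv]
    exact h1
  calc P.vol d {z | z ∈ closedBall (0 : Fin d → P.F) 1 ∧ ‖eval z c‖ < 1}
      ≤ P.vol d (⋃ ρ ∈ Z, Set.pi Set.univ fun i => ball (ρ i) 1) := measure_mono hsub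
    _ ≤ ∑ ρ ∈ Z, P.vol d (Set.pi Set.univ fun i => ball (ρ i) 1) := measure_biUnion_finset_le _ _
    _ = Z.card * ((q : ENNReal)⁻¹) ^ d := by
        simp [hmeas]
    _ = ENNReal.ofReal ((Z.card : ℝ) * ((q : ℝ)⁻¹) ^ d) := by
        have hqpos : (0 : ℝ) < q := by
          have : 0 < q := by omega
          exact_mod_cast this
        rw [ENNReal.ofReal_mul (by positivity), ENNReal.ofReal_natCast,
          ENNReal.ofReal_pow (by positivity), ENNReal.ofReal_inv_of_pos hqpos,
          ENNReal.ofReal_natCast]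
    _ ≤ _ := ENNReal.ofReal_le_ofReal hcardR

end Pool.GC
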