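import Pool.Agent.GC.Stmts

set_option autoImplicit false

/-! Module SCALE: linear maps scale the measure by the absolute value of the determinant. -/

namespace Pool.GC

namespace ScaleX

open MeasureTheory Metric Set
open scoped Pointwise ENNReal NNReal

section one

variable {K : Type} [Field K] (P : LF K) {q : ℕ}

theorem smul_closedBall (u : P.Fˣ) :
    u • closedBall (0 : P.F) 1 = closedBall (0 : P.F) ‖(u : P.F)‖ := by
  ext x
  rw [Set.mem_smul_set_iff_inv_smul_mem, mem_closedBall_zero_iff, mem_closedBall_zero_iff,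
    Units.smul_def, smul_eq_mul, norm_mul, Units.val_inv_eq_inv_val, norm_inv,
    inv_mul_le_iff₀ (norm_pos_iff.2 u.ne_zero), mul_one]

theorem char_norm_one (h : P.μ (closedBall 0 1) = 1) (u : P.Fˣ) (hu : ‖(u : P.F)‖ = 1) :
    distribHaarChar P.F u = 1 := by
  have h1 := distribHaarChar_mul P.μ u (closedBall (0 : P.F) 1)
  rw [smul_closedBall, hu, h, mul_one] at h1
  exact_mod_cast h1

theorem char_unif (h : P.IsNA q) (u : P.Fˣ) (hu : ‖(u : P.F)‖ = (q : ℝ)⁻¹) :
    distribHaarChar P.F u = (q : ℝ≥0)⁻¹ := by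
  obtain ⟨he, hq, hum, hval, -, ⟨R, hRc, hR1, hRu⟩, hμ⟩ := h
  have hq0 : (0 : ℝ) < q := by positivity
  have hq1 : (1 : ℝ) < q := by exact_mod_cast (by omega : 1 < q)
  have hball : closedBall (0 : P.F) (q : ℝ)⁻¹ = ball (0 : P.F) 1 := by
    ext x
    rw [mem_closedBall_zero_iff, mem_ball_zero_iff]
    constructor
    · intro hx
      exact lt_of_le_of_lt hx (inv_lt_one_of_one_lt₀ hq1)
    · intro hx
      by_cases hx0 : x = 0
      · rw [hx0, norm_zero]; positivity
      · obtain ⟨n, hn⟩ := hval x hx0
        rw [hn] at hx ⊢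
        have h0 : n < 0 := by
          by_contra hcon
          have : (1 : ℝ) ≤ (q : ℝ) ^ n := one_le_zpow₀ hq1.le (by omega)
          linarith
        rw [← zpow_neg_one]
        exact zpow_le_zpow_right₀ hq1.le (by omega)
  have hunion : closedBall (0 : P.F) 1 = ⋃ r ∈ R, ball r 1 := by
    ext x
    rw [mem_closedBall_zero_iff]
    simp only [Set.mem_iUnion, mem_ball, dist_eq_norm, exists_prop]
    constructor
    · intro hx
      obtain ⟨r, ⟨hr, hxr⟩, -⟩ := hRu x hx
      exact ⟨r, hr, hxr⟩
    · rintro ⟨r, hr, hxr⟩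
      have := hum (x - r) r
      rw [sub_add_cancel] at this
      exact this.trans (max_le hxr.le (hR1 r hr))
  have hdisj : Set.PairwiseDisjoint (R : Set P.F) (fun r => ball r (1 : ℝ)) := by
    intro r hr r' hr' hne
    rw [Function.onFun, Set.disjoint_left]
    intro x hx hx'
    rw [mem_ball, dist_eq_norm] at hx hx'
    have hx1 : ‖x‖ ≤ 1 := by
      have := hum (x - r) r
      rw [sub_add_cancel] at this
      exact this.trans (max_le hx.le (hR1 r hr))
    obtain ⟨r₀, -, hr₀⟩ := hRu x hx1
    exact hne ((hr₀ r ⟨hr, hx⟩).trans (hr₀ r' ⟨hr', hx'⟩).symm)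
  have hm : ∀ r ∈ R, P.μ (ball r 1) = P.μ (ball (0 : P.F) 1) := by
    intro r _
    have : ball r (1 : ℝ) = (fun x => x + -r) ⁻¹' ball (0 : P.F) 1 := by
      ext x
      simp [mem_ball, dist_eq_norm, sub_eq_add_neg]
    rw [this, measure_preimage_add_right]
  have hsum : P.μ (closedBall (0 : P.F) 1) = (q : ℝ≥0∞) * P.μ (ball (0 : P.F) 1) := by
    rw [hunion, measure_biUnion_finset hdisj (fun r _ => measurableSet_ball),
      Finset.sum_congr rfl hm, Finset.sum_const, hRc, nsmul_eq_mul]
  have h1 := distribHaarChar_mul P.μ u (closedBall (0 : P.F) 1)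
  rw [smul_closedBall, hu, hball, hμ, mul_one] at h1
  rw [hμ, ← h1] at hsum
  have h2 : (1 : ℝ≥0) = (q : ℝ≥0) * distribHaarChar P.F u := by exact_mod_cast hsum
  have hq' : (q : ℝ≥0) ≠ 0 := by
    intro h0
    rw [h0, zero_mul] at h2
    exact one_ne_zero h2
  field_simp
  rw [mul_comm]
  exact h2.symm

theorem char_eq (h : P.IsNA q) (u : P.Fˣ) : (distribHaarChar P.F u : ℝ) = ‖(u : P.F)‖ := by
  obtain ⟨π, hπ⟩ := h.2.2.2.2.1
  have hq0 : (0 : ℝ) < q := by have := h.2.1; positivity
  have hπ0 : π ≠ 0 := by
    rintro rfl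
    rw [norm_zero] at hπ
    exact (inv_pos.2 hq0).ne hπ
  obtain ⟨n, hn⟩ := h.2.2.2.1 u u.ne_zero
  set w : P.Fˣ := Units.mk0 π hπ0 with hw
  have hwn : ‖((u * w ^ n : P.Fˣ) : P.F)‖ = 1 := by
    rw [Units.val_mul, norm_mul, hn, Units.val_zpow_eq_zpow_val, norm_zpow]
    have : ‖(w : P.F)‖ = (q : ℝ)⁻¹ := hπ
    rw [this, inv_zpow, mul_inv_cancel₀ (zpow_ne_zero _ hq0.ne')]
  have h1 := char_norm_one P h.2.2.2.2.2.2 _ hwn
  rw [map_mul, map_zpow, char_unif P h w hπ] at h1
  have h2 : (distribHaarChar P.F u : ℝ) * ((q : ℝ)⁻¹) ^ n = 1 := by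
    have := congrArg (fun z : ℝ≥0 => (z : ℝ)) h1
    push_cast at this
    exact this
  rw [inv_zpow, mul_inv_eq_one₀ (zpow_ne_zero _ hq0.ne')] at h2
  rw [h2, hn]

theorem measure_closedBall (h : P.IsNA q) (a : P.F) (ha : a ≠ 0) :
    P.μ (closedBall 0 ‖a‖) = ENNReal.ofReal ‖a‖ := by
  have h1 := distribHaarChar_mul P.μ (Units.mk0 a ha) (closedBall (0 : P.F) 1)
  rw [smul_closedBall, h.2.2.2.2.2.2, mul_one] at h1
  have h2 := char_eq P h (Units.mk0 a ha)
  rw [Units.val_mk0] at h1 h2
  rw [← h1, ← h2, ENNReal.ofReal_coe_nnreal]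

end one

section multi

variable {K : Type} [Field K] (P : LF K) {q : ℕ} {d : ℕ}

theorem vol_ball (h : P.IsNA q) : P.vol d (closedBall 0 1) = 1 := by
  unfold LF.vol
  rw [Measure.pi_closedBall _ _ zero_le_one]
  simp only [Pi.zero_apply, h.2.2.2.2.2.2, Finset.prod_const_one]

theorem cont (A : Matrix (Fin d) (Fin d) P.F) : Continuous (A.mulVec : (Fin d → P.F) → _) := by
  refine continuous_pi fun i => ?_
  change Continuous (fun v : Fin d → P.F => ∑ j, A i j * v j)
  fun_prop

/-- the homeomorphism given by an invertible matrix -/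
noncomputable def eqv (A : Matrix (Fin d) (Fin d) P.F) (hA : IsUnit A.det) :
    (Fin d → P.F) ≃ₜ+ (Fin d → P.F) where
  toFun := A.mulVec
  invFun := A⁻¹.mulVec
  left_inv := by
    intro v
    rw [Matrix.mulVec_mulVec, Matrix.nonsing_inv_mul A hA, Matrix.one_mulVec]
  right_inv := by
    intro v
    rw [Matrix.mulVec_mulVec, Matrix.mul_nonsing_inv A hA, Matrix.one_mulVec]
  map_add' := fun v w => Matrix.mulVec_add A v w
  continuous_toFun := cont P A
  continuous_invFun := cont P A⁻¹

theorem scale_of_ball (h : P.IsNA q) (A : Matrix (Fin d) (Fin d) P.F) (hA : A.det ≠ 0) (c : ℝ≥0∞)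
    (hc : P.vol d (A.mulVec '' closedBall 0 1) = c) (S : Set (Fin d → P.F)) :
    P.vol d (A.mulVec '' S) = c * P.vol d S := by
  have hH : (P.vol d).IsAddHaarMeasure := by unfold LF.vol; infer_instance
  have hR : (P.vol d).Regular := inferInstance
  have h1 : ∀ X : Set (Fin d → P.F),
      (addEquivAddHaarChar (eqv P A (isUnit_iff_ne_zero.2 hA)) : ℝ≥0∞) * P.vol d X
        = P.vol d (A.mulVec '' X) := by
    intro X
    have h2 := addEquivAddHaarChar_smul_preimage (P.vol d) (eqv P A (isUnit_iff_ne_zero.2 hA))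
      (X := (eqv P A (isUnit_iff_ne_zero.2 hA)) '' X)
    rw [Set.preimage_image_eq _ (eqv P A (isUnit_iff_ne_zero.2 hA)).injective, ENNReal.smul_def,
      smul_eq_mul] at h2
    exact h2
  rw [← h1 S, ← hc, ← h1 (closedBall 0 1), vol_ball P h, mul_one]

theorem diag (h : P.IsNA q) (D : Fin d → P.F) (hD : ∀ i, D i ≠ 0) (S : Set (Fin d → P.F)) :
    P.vol d ((Matrix.diagonal D).mulVec '' S) =
      ENNReal.ofReal ‖(Matrix.diagonal D).det‖ * P.vol d S := by
  apply scale_of_ball P h
  · rw [Matrix.det_diagonal]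
    exact Finset.prod_ne_zero_iff.2 fun i _ => hD i
  · have him : (Matrix.diagonal D).mulVec '' closedBall (0 : Fin d → P.F) 1
        = Set.pi Set.univ (fun i => closedBall (0 : P.F) ‖D i‖) := by
      ext v
      simp only [Set.mem_image, mem_closedBall_zero_iff, Set.mem_pi, Set.mem_univ, true_implies]
      constructor
      · rintro ⟨w, hw, rfl⟩ i
        rw [Matrix.mulVec_diagonal, norm_mul]
        have := (pi_norm_le_iff_of_nonneg zero_le_one).1 hw i
        exact mul_le_of_le_one_right (norm_nonneg _) this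
      · intro hv
        refine ⟨fun i => (D i)⁻¹ * v i, ?_, ?_⟩
        · rw [pi_norm_le_iff_of_nonneg zero_le_one]
          intro i
          rw [norm_mul, norm_inv, inv_mul_le_iff₀ (norm_pos_iff.2 (hD i)), mul_one]
          exact hv i
        · funext i
          rw [Matrix.mulVec_diagonal, mul_inv_cancel_left₀ (hD i)]
    rw [him]
    unfold LF.vol
    rw [Measure.pi_pi, Matrix.det_diagonal, norm_prod,
      ENNReal.ofReal_prod_of_nonneg (fun i _ => norm_nonneg _)]
    exact Finset.prod_congr rfl fun i _ => measure_closedBall P h (D i) (hD i)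

theorem transv_maps (h : P.IsNA q) (i j : Fin d) (c : P.F) (hc : ‖c‖ ≤ 1) (v : Fin d → P.F)
    (hv : ‖v‖ ≤ 1) : ‖(Matrix.transvection i j c).mulVec v‖ ≤ 1 := by
  rw [pi_norm_le_iff_of_nonneg zero_le_one] at hv ⊢
  intro k
  unfold Matrix.transvection
  rw [Matrix.add_mulVec, Matrix.one_mulVec, Pi.add_apply]
  refine (h.2.2.1 _ _).trans (max_le (hv k) ?_)
  by_cases hk : k = i
  · subst hk
    rw [Matrix.single_mulVec]
    simp only [Function.update_self]
    rw [norm_mul]
    exact mul_le_one₀ hc (norm_nonneg _) (hv j)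
  · rw [Matrix.single_mulVec]
    simp [Function.update_of_ne hk]

theorem transv_one (h : P.IsNA q) (i j : Fin d) (hij : i ≠ j) (S : Set (Fin d → P.F)) :
    P.vol d ((Matrix.transvection i j (1 : P.F)).mulVec '' S) =
      ENNReal.ofReal ‖(Matrix.transvection i j (1 : P.F)).det‖ * P.vol d S := by
  rw [Matrix.det_transvection_of_ne _ _ hij, norm_one, ENNReal.ofReal_one]
  apply scale_of_ball P h
  · rw [Matrix.det_transvection_of_ne _ _ hij]; exact one_ne_zero
  · have him : (Matrix.transvection i j (1 : P.F)).mulVec '' closedBall (0 : Fin d → P.F) 1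
        = closedBall 0 1 := by
      ext v
      simp only [Set.mem_image, mem_closedBall_zero_iff]
      constructor
      · rintro ⟨w, hw, rfl⟩
        exact transv_maps P h i j 1 (by simp) w hw
      · intro hv
        refine ⟨(Matrix.transvection i j (-1 : P.F)).mulVec v,
          transv_maps P h i j (-1) (by simp) v hv, ?_⟩
        rw [Matrix.mulVec_mulVec, Matrix.transvection_mul_transvection_same _ _ hij,
          add_neg_cancel, Matrix.transvection_zero, Matrix.one_mulVec]
    rw [him, vol_ball P h]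

end multi

end ScaleX

open ScaleX in
theorem scale_proof : Stmt_Scale := by
  intro K _ P q h d A hA
  have hmul : ∀ A B : Matrix (Fin d) (Fin d) P.F,
      (∀ S, P.vol d (A.mulVec '' S) = ENNReal.ofReal ‖A.det‖ * P.vol d S) →
      (∀ S, P.vol d (B.mulVec '' S) = ENNReal.ofReal ‖B.det‖ * P.vol d S) →
      ∀ S, P.vol d ((A * B).mulVec '' S) = ENNReal.ofReal ‖(A * B).det‖ * P.vol d S := by
    intro A B hA hB S
    have e : (A * B).mulVec '' S = A.mulVec '' (B.mulVec '' S) := by
      rw [Set.image_image]
      refine Set.image_congr' fun v => ?_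
      rw [Matrix.mulVec_mulVec]
    rw [e, hA, hB, Matrix.det_mul, norm_mul, ENNReal.ofReal_mul (norm_nonneg _), mul_assoc]
  refine Matrix.diagonal_transvection_induction_of_det_ne_zero
    (fun A => ∀ S, P.vol d (A.mulVec '' S) = ENNReal.ofReal ‖A.det‖ * P.vol d S) A hA ?_ ?_ ?_
  · intro D hD
    rw [Matrix.det_diagonal, Finset.prod_ne_zero_iff] at hD
    exact diag P h D fun i => hD i (Finset.mem_univ i)
  · rintro ⟨i, j, hij, c⟩
    rw [Matrix.TransvectionStruct.toMatrix_mk]
    by_cases hc : c = 0
    · subst hc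
      intro S
      rw [Matrix.transvection_zero, Matrix.det_one, norm_one, ENNReal.ofReal_one, one_mul]
      congr 1
      ext v
      simp
    · have e : Matrix.transvection i j c
          = Matrix.diagonal (Function.update 1 i c) * Matrix.transvection i j (1 : P.F)
            * Matrix.diagonal (Function.update 1 i c⁻¹) := by
        ext a b
        rw [Matrix.mul_diagonal, Matrix.diagonal_mul]
        unfold Matrix.transvection
        simp only [Matrix.add_apply, Matrix.one_apply, Matrix.single_apply]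
        by_cases ha : a = i
        · subst ha
          rw [Function.update_self]
          by_cases hb : b = a
          · subst hb
            rw [Function.update_self]
            have : ¬ (j = b) := fun h => hij h.symm
            simp [this, hc]
          · rw [Function.update_of_ne hb]
            have hba : ¬ (a = b) := fun h => hb h.symm
            simp [hba]
        · rw [Function.update_of_ne ha]
          have hia : ¬ (i = a) := fun h => ha h.symm
          by_cases hb : b = i
          · subst hb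
            rw [Function.update_self]
            simp [ha, hia]
          · rw [Function.update_of_ne hb]
            simp [hia]
      rw [e]
      refine hmul _ _ (hmul _ _ (diag P h _ ?_) (transv_one P h i j hij)) (diag P h _ ?_)
      · intro k
        by_cases hk : k = i
        · subst hk; rw [Function.update_self]; exact hc
        · rw [Function.update_of_ne hk]; exact one_ne_zero
      · intro k
        by_cases hk : k = i
        · subst hk; rw [Function.update_self]; exact inv_ne_zero hc
        · rw [Function.update_of_ne hk]; exact one_ne_zero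
  · intro A B _ _ hA hB
    exact hmul A B hA hB

end Pool.GC
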