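import Mathlib
import Pool.Agent.GC.Defs
import Pool.Agent.GC.Stmts

set_option autoImplicit false

/-!
# SUM: the sum over the sets of bad places (Rankin's trick)
-/

namespace Pool.GC

open NumberField

/-- one step of the comparison of `∑ n^(-1-s)` with an integral -/
theorem sum_step (s : ℝ) (hs : 0 < s) (n : ℕ) (hn : 1 ≤ n) :
    (((n + 1 : ℕ) : ℝ)) ^ (-(1 + s)) ≤ ((n : ℝ) ^ (-s) - ((n + 1 : ℕ) : ℝ) ^ (-s)) / s := by
  have hn0 : (0 : ℝ) < n := by exact_mod_cast hn
  have hm0 : (0 : ℝ) < ((n + 1 : ℕ) : ℝ) := by positivity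
  rw [le_div_iff₀ hs]
  set m : ℝ := ((n + 1 : ℕ) : ℝ) with hm
  have hnm : (n : ℝ) = m - 1 := by rw [hm]; push_cast; ring
  have h1 : m ^ (-(1 + s)) = m ^ (-s) / m := by
    rw [show -(1 + s) = -s - 1 by ring, Real.rpow_sub_one hm0.ne']
  have h2 : (1 + s / m) * m ^ (-s) ≤ (n : ℝ) ^ (-s) := by
    have h3 : (n : ℝ) = m * (1 - 1 / m) := by rw [hnm]; field_simp
    have h4 : (0 : ℝ) < 1 - 1 / m := by
      have : (n : ℝ) / m = 1 - 1 / m := by rw [hnm]; field_simp
      rw [← this]; positivity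
    rw [h3, Real.mul_rpow hm0.le h4.le, mul_comm]
    apply mul_le_mul_of_nonneg_left _ (by positivity)
    rw [Real.rpow_def_of_pos h4]
    have h5 : Real.log (1 - 1 / m) ≤ - (1 / m) := by
      have := Real.log_le_sub_one_of_pos h4
      linarith
    have h6 : s / m ≤ Real.log (1 - 1 / m) * (-s) := by
      have : s / m = (- (1 / m)) * (-s) := by ring
      rw [this]
      nlinarith
    calc 1 + s / m ≤ Real.exp (s / m) := by linarith [Real.add_one_le_exp (s / m)]
      _ ≤ _ := Real.exp_le_exp.mpr h6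
  rw [h1]
  have h7 : m ^ (-s) / m * s = (s / m) * m ^ (-s) := by ring
  rw [h7]
  linarith

/-- partial sums of the zeta function -/
theorem sum_zeta (s : ℝ) (hs : 0 < s) (M : ℕ) :
    ∑ n ∈ Finset.range M, (((n + 1 : ℕ) : ℝ)) ^ (-(1 + s)) ≤ 1 + 1 / s := by
  have key : ∀ M : ℕ, ∑ n ∈ Finset.range (M + 1), (((n + 1 : ℕ) : ℝ)) ^ (-(1 + s)) ≤
      1 + (1 - (((M + 1 : ℕ) : ℝ)) ^ (-s)) / s := by
    intro M
    induction M with
    | zero => simp
    | succ M ih =>
      rw [Finset.sum_range_succ]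
      have h := sum_step s hs (M + 1) (by omega)
      have : (1 - (((M + 1 + 1 : ℕ) : ℝ)) ^ (-s)) / s = (1 - (((M + 1 : ℕ) : ℝ)) ^ (-s)) / s +
        ((((M + 1 : ℕ) : ℝ)) ^ (-s) - (((M + 1 + 1 : ℕ) : ℝ)) ^ (-s)) / s := by ring
      rw [this]
      linarith
  rcases M with _ | M
  · simp; positivity
  · refine (key M).trans ?_
    have : (1 - (((M + 1 : ℕ) : ℝ)) ^ (-s)) / s ≤ 1 / s := by
      apply div_le_div_of_nonneg_right _ hs.le
      have : 0 ≤ (((M + 1 : ℕ) : ℝ)) ^ (-s) := by positivity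
      linarith
    linarith

/-- finite Euler products -/
theorem euler_le (s : ℝ) (hs : 0 < s) (P : Finset ℕ) (hP : ∀ p ∈ P, p.Prime) :
    ∏ p ∈ P, (1 + (p : ℝ) ^ (-(1 + s))) ≤ 1 + 1 / s := by
  classical
  rw [Finset.prod_one_add]
  have h1 : ∀ A ∈ P.powerset, ∏ p ∈ A, (p : ℝ) ^ (-(1 + s)) =
      (fun n : ℕ => (n : ℝ) ^ (-(1 + s))) (∏ p ∈ A, p) := by
    intro A hA
    simp only [Nat.cast_prod]
    rw [← Real.finsetProd_rpow]
    intro i hi
    positivity
  rw [Finset.sum_congr rfl h1]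
  have hinj : Set.InjOn (fun A : Finset ℕ => ∏ p ∈ A, p) (P.powerset : Set (Finset ℕ)) := by
    intro A hA B hB hAB
    have hA' : ∀ p ∈ A, p.Prime := fun p hp => hP p (Finset.mem_powerset.mp hA hp)
    have hB' : ∀ p ∈ B, p.Prime := fun p hp => hP p (Finset.mem_powerset.mp hB hp)
    rw [← Nat.primeFactors_prod hA', ← Nat.primeFactors_prod hB']
    exact congrArg _ hAB
  rw [← Finset.sum_image (f := fun n : ℕ => (n : ℝ) ^ (-(1 + s))) hinj]
  set Q := P.powerset.image (fun A : Finset ℕ => ∏ p ∈ A, p) with hQ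
  have hpos : ∀ n ∈ Q, 1 ≤ n := by
    intro n hn
    rw [hQ, Finset.mem_image] at hn
    obtain ⟨A, hA, rfl⟩ := hn
    exact Finset.one_le_prod' fun p hp => (hP p (Finset.mem_powerset.mp hA hp)).one_lt.le
  obtain ⟨M, hM⟩ : ∃ M : ℕ, ∀ n ∈ Q, n ≤ M := ⟨Q.sup id, fun n hn => Finset.le_sup (f := id) hn⟩
  refine le_trans ?_ (sum_zeta s hs M)
  have h2 : ∑ n ∈ Finset.range M, (((n + 1 : ℕ) : ℝ)) ^ (-(1 + s)) =
      ∑ n ∈ (Finset.range M).image (fun n : ℕ => n + 1), ((n : ℕ) : ℝ) ^ (-(1 + s)) := by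
    rw [Finset.sum_image]
    intro a _ b _ hab
    simpa using hab
  rw [h2]
  apply Finset.sum_le_sum_of_subset_of_nonneg
  · intro n hn
    rw [Finset.mem_image]
    exact ⟨n - 1, Finset.mem_range.mpr (by have := hpos n hn; have := hM n hn; omega),
      by have := hpos n hn; omega⟩
  · intro i _ _
    positivity

section Places

variable {K : Type} [Field K] [NumberField K]

theorem qv_two_le (v : FinitePlace K) : 2 ≤ qv v := by
  have h0 : Ideal.absNorm v.maximalIdeal.asIdeal ≠ 0 := by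
    rw [Ne, Ideal.absNorm_eq_zero_iff]; exact v.maximalIdeal.ne_bot
  have h1 : Ideal.absNorm v.maximalIdeal.asIdeal ≠ 1 := by
    rw [Ne, Ideal.absNorm_eq_one_iff]; exact v.maximalIdeal.isPrime.ne_top
  unfold qv
  omega

theorem exists_prime_under (v : FinitePlace K) : ∃ p : ℕ, p.Prime ∧ p ∣ qv v ∧
    (p : 𝓞 K) ∈ v.maximalIdeal.asIdeal := by
  have hp := v.maximalIdeal.isPrime
  have key : ∀ n : ℕ, n ≠ 0 → (n : 𝓞 K) ∈ v.maximalIdeal.asIdeal → ∃ p : ℕ, p.Prime ∧ p ∣ n ∧
      (p : 𝓞 K) ∈ v.maximalIdeal.asIdeal := by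
    intro n
    induction n using Nat.recOnMul with
    | zero => intro h; exact absurd rfl h
    | one =>
      intro _ h
      rw [Nat.cast_one] at h
      exact absurd ((Ideal.eq_top_iff_one _).mpr h) hp.ne_top
    | prime p hpp =>
      intro _ h
      exact ⟨p, hpp, dvd_rfl, h⟩
    | mul a b iha ihb =>
      intro hab h
      rw [Nat.cast_mul] at h
      rcases hp.mem_or_mem h with h | h
      · obtain ⟨p, h1, h2, h3⟩ := iha (by rintro rfl; simp at hab) h
        exact ⟨p, h1, h2.mul_right _, h3⟩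
      · obtain ⟨p, h1, h2, h3⟩ := ihb (by rintro rfl; simp at hab) h
        exact ⟨p, h1, h2.mul_left _, h3⟩
  exact key (qv v) (by have := qv_two_le v; omega) (Ideal.absNorm_mem _)

/-- the prime number below `v` -/
noncomputable def pv (v : FinitePlace K) : ℕ := (exists_prime_under v).choose

theorem pv_prime (v : FinitePlace K) : (pv v).Prime := (exists_prime_under v).choose_spec.1

theorem pv_le (v : FinitePlace K) : pv v ≤ qv v :=
  Nat.le_of_dvd (by have := qv_two_le v; omega) (exists_prime_under v).choose_spec.2.1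

theorem pv_mem (v : FinitePlace K) : (pv v : 𝓞 K) ∈ v.maximalIdeal.asIdeal :=
  (exists_prime_under v).choose_spec.2.2

theorem card_over (A : Finset (FinitePlace K)) (p : ℕ) (hp : p.Prime) (hA : ∀ v ∈ A, pv v = p) :
    A.card ≤ Module.finrank ℚ K := by
  classical
  have hdvd : ∏ v ∈ A, v.maximalIdeal.asIdeal ∣ Ideal.span {(p : 𝓞 K)} := by
    apply Finset.prod_dvd_of_coprime
    · intro v hv w hw hvw
      have hne : v.maximalIdeal.asIdeal ≠ w.maximalIdeal.asIdeal := by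
        intro h
        apply hvw
        apply FinitePlace.maximalIdeal_injective
        exact IsDedekindDomain.HeightOneSpectrum.ext h
      have := v.maximalIdeal.isMaximal
      have := w.maximalIdeal.isMaximal
      exact (Ideal.isCoprime_of_isMaximal hne)
    · intro v hv
      rw [Ideal.dvd_span_singleton, ← hA v hv]
      exact pv_mem v
  have h1 := map_dvd Ideal.absNorm hdvd
  rw [map_prod, Ideal.absNorm_span_singleton] at h1
  have h2 : (Algebra.norm ℤ (p : 𝓞 K)).natAbs = p ^ Module.finrank ℚ K := by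
    have : (p : 𝓞 K) = algebraMap ℤ (𝓞 K) (p : ℤ) := by simp
    rw [this, Algebra.norm_algebraMap]
    rw [Int.natAbs_pow, Int.natAbs_natCast, RingOfIntegers.rank]
  rw [h2] at h1
  have h3 := Nat.le_of_dvd (pow_pos hp.pos _) h1
  have h4 : p ^ A.card ≤ ∏ v ∈ A, Ideal.absNorm v.maximalIdeal.asIdeal := by
    rw [← Finset.prod_const]
    apply Finset.prod_le_prod' 
    intro v hv
    rw [← hA v hv]
    exact pv_le v
  exact (Nat.pow_le_pow_iff_right hp.one_lt).mp (h4.trans h3)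

theorem prod_places_le (s : ℝ) (hs : 0 < s) (T : Finset (FinitePlace K)) :
    ∏ v ∈ T, (1 + (qv v : ℝ) ^ (-(1 + s))) ≤ (1 + 1 / s) ^ Module.finrank ℚ K := by
  classical
  have h0 : ∏ v ∈ T, (1 + (qv v : ℝ) ^ (-(1 + s))) ≤
      ∏ v ∈ T, (1 + (pv v : ℝ) ^ (-(1 + s))) := by
    apply Finset.prod_le_prod
    · intro v _; positivity
    · intro v _
      have : (qv v : ℝ) ^ (-(1 + s)) ≤ (pv v : ℝ) ^ (-(1 + s)) := by
        apply Real.rpow_le_rpow_of_nonpos
        · exact_mod_cast (pv_prime v).pos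
        · exact_mod_cast pv_le v
        · linarith
      linarith
  refine h0.trans ?_
  rw [← Finset.prod_fiberwise_of_maps_to (g := fun v => pv v) (t := T.image fun v => pv v)
    (fun v hv => Finset.mem_image_of_mem _ hv)]
  have h1 : ∀ p ∈ T.image (fun v => pv v), ∏ v ∈ T with pv v = p, (1 + (pv v : ℝ) ^ (-(1 + s))) ≤
      (1 + (p : ℝ) ^ (-(1 + s))) ^ Module.finrank ℚ K := by
    intro p hp
    have hpp : p.Prime := by
      rw [Finset.mem_image] at hp
      obtain ⟨v, _, rfl⟩ := hp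
      exact pv_prime v
    have h2 : ∏ v ∈ T with pv v = p, (1 + (pv v : ℝ) ^ (-(1 + s))) =
        ∏ v ∈ T with pv v = p, (1 + (p : ℝ) ^ (-(1 + s))) := by
      apply Finset.prod_congr rfl
      intro v hv
      rw [(Finset.mem_filter.mp hv).2]
    rw [h2, Finset.prod_const]
    apply pow_le_pow_right₀
    · have : 0 ≤ (p : ℝ) ^ (-(1 + s)) := by positivity
      linarith
    · exact card_over _ p hpp fun v hv => (Finset.mem_filter.mp hv).2
  refine (Finset.prod_le_prod (fun p _ => Finset.prod_nonneg fun v _ => by positivity) h1).trans ?_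
  rw [Finset.prod_pow]
  apply pow_le_pow_left₀
  · exact Finset.prod_nonneg fun p _ => by positivity
  · apply euler_le s hs
    intro p hp
    rw [Finset.mem_image] at hp
    obtain ⟨v, _, rfl⟩ := hp
    exact pv_prime v

end Places

theorem sum_proof : Stmt_Sum := by
  classical
  intro K _ _ C hC
  obtain ⟨m, hm⟩ := exists_nat_ge C
  refine ⟨Real.exp 1 * 2 ^ (Module.finrank ℚ K * m), Module.finrank ℚ K * m, ?_, ?_⟩
  · have h1 : 1 ≤ Real.exp 1 := by
      have := Real.add_one_le_exp (1 : ℝ); linarith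
    have h2 : (1 : ℝ) ≤ 2 ^ (Module.finrank ℚ K * m) := one_le_pow₀ (by norm_num)
    nlinarith
  intro X hX 𝒮 h𝒮
  have hL : 0 ≤ Real.log X := Real.log_nonneg hX
  set s : ℝ := 1 / (1 + Real.log X) with hs
  have hs0 : 0 < s := by positivity
  set T : Finset (FinitePlace K) := 𝒮.biUnion id with hT
  have hq : ∀ v : FinitePlace K, (0 : ℝ) < qv v := by
    intro v
    have := qv_two_le v
    exact_mod_cast (by omega : 0 < qv v)
  have h1 : ∀ S ∈ 𝒮, C ^ S.card * ∏ v ∈ S, ((qv v : ℝ))⁻¹ ≤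
      X ^ s * ∏ v ∈ S, (C * (qv v : ℝ) ^ (-(1 + s))) := by
    intro S hS
    have hprod : 0 < ∏ v ∈ S, (qv v : ℝ) := Finset.prod_pos fun v _ => hq v
    have h2 : ∏ v ∈ S, (C * (qv v : ℝ) ^ (-(1 + s))) =
        C ^ S.card * (∏ v ∈ S, ((qv v : ℝ))⁻¹) * (∏ v ∈ S, (qv v : ℝ)) ^ (-s) := by
      rw [← Real.finsetProd_rpow _ _ fun v _ => (hq v).le, ← Finset.prod_const,
        ← Finset.prod_mul_distrib, ← Finset.prod_mul_distrib]
      apply Finset.prod_congr rfl
      intro v _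
      rw [show -(1 + s) = -1 + -s by ring, Real.rpow_add (hq v), Real.rpow_neg_one]
      ring
    rw [h2]
    have h3 : 1 ≤ X ^ s * (∏ v ∈ S, (qv v : ℝ)) ^ (-s) := by
      rw [Real.rpow_neg hprod.le, ← div_eq_mul_inv, one_le_div (by positivity)]
      exact Real.rpow_le_rpow hprod.le (h𝒮 S hS) hs0.le
    have h4 : 0 ≤ C ^ S.card * (∏ v ∈ S, ((qv v : ℝ))⁻¹) := by
      apply mul_nonneg (by positivity)
      exact Finset.prod_nonneg fun v _ => by have := hq v; positivity
    calc C ^ S.card * ∏ v ∈ S, ((qv v : ℝ))⁻¹ = (C ^ S.card * ∏ v ∈ S, ((qv v : ℝ))⁻¹) * 1 := by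
          ring
      _ ≤ (C ^ S.card * ∏ v ∈ S, ((qv v : ℝ))⁻¹) * (X ^ s * (∏ v ∈ S, (qv v : ℝ)) ^ (-s)) :=
          mul_le_mul_of_nonneg_left h3 h4
      _ = _ := by ring
  have hC0 : 0 ≤ C := by linarith
  have h5 : ∑ S ∈ 𝒮, X ^ s * ∏ v ∈ S, (C * (qv v : ℝ) ^ (-(1 + s))) ≤
      X ^ s * ∏ v ∈ T, (1 + C * (qv v : ℝ) ^ (-(1 + s))) := by
    rw [← Finset.mul_sum, Finset.prod_one_add]
    apply mul_le_mul_of_nonneg_left _ (by positivity)
    apply Finset.sum_le_sum_of_subset_of_nonneg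
    · intro S hS
      rw [Finset.mem_powerset, hT]
      exact Finset.subset_biUnion_of_mem id hS
    · intro S _ _
      exact Finset.prod_nonneg fun v _ => by positivity
  have h6 : ∏ v ∈ T, (1 + C * (qv v : ℝ) ^ (-(1 + s))) ≤
      (∏ v ∈ T, (1 + (qv v : ℝ) ^ (-(1 + s)))) ^ m := by
    rw [← Finset.prod_pow]
    apply Finset.prod_le_prod
    · intro v _; positivity
    · intro v _
      have h7 := one_add_mul_le_pow (R := ℝ) (a := (qv v : ℝ) ^ (-(1 + s)))
        (by have : 0 ≤ (qv v : ℝ) ^ (-(1 + s)) := by positivity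
            linarith) m
      refine le_trans ?_ h7
      have : 0 ≤ (qv v : ℝ) ^ (-(1 + s)) := by positivity
      nlinarith
  have h8 : (∏ v ∈ T, (1 + (qv v : ℝ) ^ (-(1 + s)))) ^ m ≤
      (2 * (1 + Real.log X)) ^ (Module.finrank ℚ K * m) := by
    rw [pow_mul]
    apply pow_le_pow_left₀
    · exact Finset.prod_nonneg fun v _ => by positivity
    · refine (prod_places_le s hs0 T).trans ?_
      apply pow_le_pow_left₀ (by positivity)
      rw [hs, one_div_one_div]
      linarith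
  have h9 : X ^ s ≤ Real.exp 1 := by
    rw [Real.rpow_def_of_pos (by linarith)]
    apply Real.exp_le_exp.mpr
    rw [hs, mul_one_div, div_le_one (by positivity)]
    linarith
  calc ∑ S ∈ 𝒮, C ^ S.card * ∏ v ∈ S, ((qv v : ℝ))⁻¹
      ≤ ∑ S ∈ 𝒮, X ^ s * ∏ v ∈ S, (C * (qv v : ℝ) ^ (-(1 + s))) := Finset.sum_le_sum h1
    _ ≤ X ^ s * ∏ v ∈ T, (1 + C * (qv v : ℝ) ^ (-(1 + s))) := h5
    _ ≤ Real.exp 1 * (2 * (1 + Real.log X)) ^ (Module.finrank ℚ K * m) := by
        apply mul_le_mul h9 (h6.trans h8) _ (by positivity)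
        exact Finset.prod_nonneg fun v _ => by positivity
    _ = _ := by rw [mul_pow]; ring

end Pool.GC
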