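import Pool.Agent.GC.Stmts

set_option autoImplicit false

/-!
# Squad GC, module TRANS
-/

namespace Pool.GC

open MvPolynomial NumberField

namespace TransX

/-- clearing denominators -/
theorem clear {K : Type} [Field K] {σ τ : Type} (Φ : σ → MvPolynomial τ K)
    (δ : MvPolynomial τ K) (p : MvPolynomial σ K) :
    ∃ (e : ℕ) (P : MvPolynomial τ K), ∀ (F : Type) [Field F] [Algebra K F]
      (χ : MvPolynomial τ K →ₐ[K] F), χ δ ≠ 0 →
      χ P = χ δ ^ e * aeval (fun i => χ (Φ i) / χ δ) p := by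
  induction p using MvPolynomial.induction_on with
  | C a =>
    refine ⟨0, C a, fun F _ _ χ _ => ?_⟩
    rw [pow_zero, one_mul, aeval_C]
    exact χ.commutes a
  | add p q hp hq =>
    obtain ⟨e₁, P₁, h₁⟩ := hp
    obtain ⟨e₂, P₂, h₂⟩ := hq
    refine ⟨e₁ + e₂, P₁ * δ ^ e₂ + P₂ * δ ^ e₁, fun F _ _ χ hχ => ?_⟩
    rw [map_add, map_mul, map_mul, map_pow, map_pow, h₁ F χ hχ, h₂ F χ hχ, map_add]
    ring
  | mul_X p i hp =>
    obtain ⟨e, P, h⟩ := hp
    refine ⟨e + 1, P * Φ i, fun F _ _ χ hχ => ?_⟩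
    rw [map_mul, h F χ hχ, map_mul, aeval_X]
    field_simp
    ring

/-- a common denominator for the entries of a matrix of rational functions -/
theorem common {K : Type} [Field K] {N d : ℕ} (φ : Matrix (Fin N) (Fin N) (RF K d)) :
    ∃ (Φ : Fin N × Fin N → MvPolynomial (Fin d) K) (δ : MvPolynomial (Fin d) K), δ ≠ 0 ∧
      ∀ i j, φ i j = algebraMap _ (RF K d) (Φ (i, j)) / algebraMap _ (RF K d) δ := by
  obtain ⟨b, hb⟩ := IsLocalization.exist_integer_multiples_of_finite
    (nonZeroDivisors (MvPolynomial (Fin d) K)) (fun ij : Fin N × Fin N => φ ij.1 ij.2)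
  choose Φ hΦ using hb
  have hb0 : (b : MvPolynomial (Fin d) K) ≠ 0 := nonZeroDivisors.coe_ne_zero b
  refine ⟨Φ, b, hb0, fun i j => ?_⟩
  have h1 : algebraMap _ (RF K d) (b : MvPolynomial (Fin d) K) ≠ 0 :=
    (map_ne_zero_iff _ (IsFractionRing.injective (MvPolynomial (Fin d) K) (RF K d))).2 hb0
  rw [eq_div_iff h1, mul_comm]
  have h2 := hΦ (i, j)
  rw [Algebra.smul_def] at h2
  exact h2.symm

/-- a parametrised group has a rational point outside a proper closed subset -/
theorem exists_pt {K : Type} [Field K] [Infinite K] {N d : ℕ}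
    (I : Set (MvPolynomial (Fin N × Fin N) K)) (φ : Matrix (Fin N) (Fin N) (RF K d))
    (hφ : φ ∈ pts I (RF K d)) (Λ : MvPolynomial (Fin N × Fin N) K) (hΛ : ev Λ φ ≠ 0) :
    ∃ g ∈ pts I K, ev Λ g ≠ 0 := by
  obtain ⟨Φ, δ, hδ, hΦ⟩ := common φ
  have hinj := IsFractionRing.injective (MvPolynomial (Fin d) K) (RF K d)
  set χ : MvPolynomial (Fin d) K →ₐ[K] RF K d :=
    IsScalarTower.toAlgHom K (MvPolynomial (Fin d) K) (RF K d) with hχ
  have hχδ : χ δ ≠ 0 := (map_ne_zero_iff _ hinj).2 hδ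
  have hχΦ : (fun ij : Fin N × Fin N => χ (Φ ij) / χ δ) = fun ij => φ ij.1 ij.2 := by
    funext ij
    rw [hΦ ij.1 ij.2]
    rfl
  obtain ⟨e, P, hP⟩ := clear Φ δ Λ
  have hP0 : P ≠ 0 := by
    intro h0
    have h1 := hP (RF K d) χ hχδ
    rw [h0, map_zero, hχΦ] at h1
    exact mul_ne_zero (pow_ne_zero _ hχδ) hΛ h1.symm
  obtain ⟨y, hy⟩ : ∃ y : Fin d → K, aeval y (δ * P) ≠ 0 := by
    by_contra hcon
    push Not at hcon
    apply mul_ne_zero hδ hP0
    apply MvPolynomial.funext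
    intro x
    have h1 := hcon x
    rw [MvPolynomial.aeval_eq_eval] at h1
    rw [map_zero]
    exact h1
  rw [map_mul] at hy
  have hy1 := left_ne_zero_of_mul hy
  have hy2 := right_ne_zero_of_mul hy
  refine ⟨Matrix.of fun i j => aeval y (Φ (i, j)) / aeval y δ, fun p hp => ?_, ?_⟩
  · obtain ⟨e', P', hP'⟩ := clear Φ δ p
    have h1 := hP' (RF K d) χ hχδ
    rw [hχΦ] at h1
    have h2 : aeval (fun ij : Fin N × Fin N => φ ij.1 ij.2) p = 0 := hφ p hp
    rw [h2, mul_zero] at h1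
    have h3 : P' = 0 := by
      apply hinj
      rw [map_zero]
      exact h1
    have h4 := hP' K (aeval y) hy1
    rw [h3, map_zero] at h4
    exact (mul_eq_zero.1 h4.symm).resolve_left (pow_ne_zero _ hy1)
  · have h4 := hP K (aeval y) hy1
    intro h0
    apply hy2
    rw [h4]
    have h5 : aeval (fun i => aeval y (Φ i) / aeval y δ) Λ = 0 := h0
    rw [h5, mul_zero]

/-- left translation of a function -/
noncomputable def lt {K : Type} [Field K] {N : ℕ} (h : Matrix (Fin N) (Fin N) K)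
    (Λ : MvPolynomial (Fin N × Fin N) K) : MvPolynomial (Fin N × Fin N) K :=
  bind₁ (fun ij : Fin N × Fin N => ∑ l, C (h ij.1 l) * X (l, ij.2)) Λ

theorem ev_lt {K : Type} [Field K] {N : ℕ} (h : Matrix (Fin N) (Fin N) K)
    (Λ : MvPolynomial (Fin N × Fin N) K) (g : Matrix (Fin N) (Fin N) K) :
    ev (lt h Λ) g = ev Λ (h * g) := by
  unfold ev lt
  rw [aeval_bind₁]
  congr 2
  funext ij
  rw [map_sum, Matrix.mul_apply]
  refine Finset.sum_congr rfl fun l _ => ?_
  rw [map_mul, aeval_X, aeval_C]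
  rfl

end TransX

open TransX in
theorem trans_proof : Stmt_Trans := by
  intro K _ _ N d a I φ L hG hφ
  refine ⟨fun Λ hΛ => ?_, fun hL h hh => ?_⟩
  · obtain ⟨g₀, hg₀, hg₀Λ⟩ := exists_pt I φ hφ.mem Λ hΛ
    set 𝒮 : Set (MvPolynomial (Fin N × Fin N) K) := (fun h => lt h Λ) '' pts I K with h𝒮
    have hfg : (Ideal.span 𝒮).FG := IsNoetherian.noetherian _
    obtain ⟨T, hT𝒮, hTspan⟩ := Submodule.fg_span_iff_fg_span_finset_subset 𝒮 |>.1 hfg
    have hT' : ∀ t : MvPolynomial (Fin N × Fin N) K, ∃ h : Matrix (Fin N) (Fin N) K,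
        t ∈ T → h ∈ pts I K ∧ lt h Λ = t := by
      intro t
      by_cases ht : t ∈ T
      · obtain ⟨h, h1, h2⟩ := hT𝒮 ht
        exact ⟨h, fun _ => ⟨h1, h2⟩⟩
      · exact ⟨1, fun h => absurd h ht⟩
    choose f hf using hT'
    classical
    refine ⟨T.image f, ?_, ?_⟩
    · intro h hh
      obtain ⟨t, ht, rfl⟩ := Finset.mem_image.1 hh
      exact (hf t ht).1
    · intro γ hγ
      by_contra hcon
      push Not at hcon
      have hle : Ideal.span 𝒮 ≤ RingHom.ker (aeval (fun ij : Fin N × Fin N => γ ij.1 ij.2) :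
          MvPolynomial (Fin N × Fin N) K →ₐ[K] K).toRingHom := by
        have h1 : Ideal.span 𝒮 = Ideal.span (T : Set (MvPolynomial (Fin N × Fin N) K)) := hTspan
        rw [h1, Ideal.span_le]
        intro t ht
        have h2 := (hf t ht).2
        rw [SetLike.mem_coe, RingHom.mem_ker, ← h2]
        have h3 := ev_lt (f t) Λ γ
        rw [hcon (f t) (Finset.mem_image_of_mem f ht)] at h3
        exact h3
      have hadj := hG.inv K γ hγ
      have hmem := hG.mul K g₀ γ.adjugate hg₀ hadj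
      have h1 := hle (Ideal.subset_span ⟨g₀ * γ.adjugate, hmem, rfl⟩)
      have h2 : ev (lt (g₀ * γ.adjugate) Λ) γ = 0 := h1
      rw [ev_lt, Matrix.mul_assoc, Matrix.adjugate_mul, hG.det K γ hγ, one_smul, mul_one] at h2
      exact hg₀Λ h2
  · obtain ⟨c, hc⟩ := hL h hh
    rcases isEmpty_or_nonempty (Fin a) with he | hne
    · refine ⟨1, le_rfl, fun γ _ => ?_⟩
      rw [one_mul]
      apply le_of_eq
      congr 1
      funext j
      exact he.elim j
    · refine ⟨Nat.card (Fin a) ^ Height.totalWeight K *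
        Height.mulHeight (fun ji : Fin a × Fin a => c ji.1 ji.2), ?_, fun γ hγ => ?_⟩
      · have h1 : (1 : ℝ) ≤ (Nat.card (Fin a) : ℝ) ^ Height.totalWeight K :=
          one_le_pow₀ (by exact_mod_cast Nat.card_pos)
        have h2 := Height.one_le_mulHeight (fun ji : Fin a × Fin a => c ji.1 ji.2)
        nlinarith
      · have h1 := Height.mulHeight_linearMap_apply_le (fun ji : Fin a × Fin a => c ji.1 ji.2)
          (fun j => ev (L j) γ)
        have h2 : (fun j => ev (L j) (h * γ)) = fun j => ∑ i, c j i * ev (L i) γ := by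
          funext j
          have h3 := hc K γ hγ j
          simpa using h3
        rw [h2]
        exact h1

end Pool.GC
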