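import Mathlib
import Pool.Agent.GC.Defs
import Pool.Agent.GC.Stmts
import Pool.Agent.GC.Main
import Pool.Agent.GC.Pack
import Pool.Agent.GC.Comp
import Pool.Agent.GC.Scale
import Pool.Agent.GC.CVna
import Pool.Agent.GC.SZ
import Pool.Agent.GC.Null
import Pool.Agent.GC.CVR
import Pool.Agent.GC.CVC
import Pool.Agent.GC.Inf
import Pool.Agent.GC.Der
import Pool.Agent.GC.Dalg
import Pool.Agent.GC.JInd
import Pool.Agent.GC.LieF
import Pool.Agent.GC.Geo
import Pool.Agent.GC.Rel
import Pool.Agent.GC.Num
import Pool.Agent.GC.PAct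
import Pool.Agent.GC.PRel
import Pool.Agent.GC.JId
import Pool.Agent.GC.Loc
import Pool.Agent.GC.CmpG
import Pool.Agent.GC.IntG
import Pool.Agent.GC.PackM
import Pool.Agent.GC.Sum
import Pool.Agent.GC.Ht
import Pool.Agent.GC.Eff
import Pool.Agent.GC.Trans
import Pool.Agent.GC.CmpB
import Pool.Agent.GC.Qv

set_option autoImplicit false

/-!
# Assembly
-/

namespace Pool.GC

theorem all_geo : Stmt_Geo := geo_proof der_proof dalg_proof lieF_proof

theorem all_pAct : Stmt_PAct := pAct_proof lieF_proof

theorem all_rel : Stmt_Rel := rel_proof der_proof jInd_proof all_geo jId_proof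

theorem all_pack : Stmt_Pack :=
  pack_proof all_geo all_rel num_proof all_pAct pRel_proof (loc_proof jId_proof)
    (cmpB_proof all_pAct pRel_proof)
    (cmpG_proof all_pAct pRel_proof sz_proof) (intG_proof all_pAct) packM_proof comp_proof
    (cvna_proof scale_proof) null_proof sz_proof (inf_proof cVR_proof cVC_proof)

theorem all_main : Stmt_Main :=
  main_proof all_pAct all_pack sum_proof qv_proof ht_proof eff_proof trans_proof

end Pool.GC
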