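import Pool.Agent.GC.Stmts

set_option autoImplicit false

/-! Module PAct: the action of `G` on the Plücker coordinates. -/

namespace Pool.GC

open MvPolynomial

namespace PActX

/-- expansion of `det (A * B)` by rows -/
theorem det_rows {R : Type} [CommRing R] {n N : ℕ} (A : Matrix (Fin n) (Fin N) R)
    (B : Matrix (Fin N) (Fin n) R) :
    (A * B).det = ∑ J' : Fin n → Fin N, (∏ a, A a (J' a)) *
      (Matrix.of fun a b => B (J' a) b).det := by
  have h1 : (A * B).det = Matrix.detRowAlternating (R := R) (n := Fin n)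
      (fun a => ∑ j, A a j • B j) := by
    change Matrix.detRowAlternating (R := R) (n := Fin n) (A * B) = _
    congr 1
    funext a b
    simp [Matrix.mul_apply, Finset.sum_apply]
  rw [h1]
  change Matrix.detRowAlternating.toMultilinearMap _ = _
  rw [MultilinearMap.map_sum]
  refine Finset.sum_congr rfl fun r _ => ?_
  rw [MultilinearMap.map_smul_univ]
  rfl

variable {K : Type} [Field K] {N d : ℕ}

/-- the matrix with columns `u, ξ_1 u, …` -/
def M0 (ξ : Fin d → Matrix (Fin N) (Fin N) K) {F : Type} [Field F] [Algebra K F]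
    (u : Fin N → F) : Matrix (Fin N) (Fin (d + 1)) F :=
  Matrix.of fun i b => Fin.cases (motive := fun _ => F) (u i)
      (fun c : Fin d => ((ξ c).map (algebraMap K F)).mulVec u i) b

theorem plk_eq (ξ : Fin d → Matrix (Fin N) (Fin N) K) {F : Type} [Field F] [Algebra K F]
    (u : Fin N → F) (J : Fin (d + 1) → Fin N) :
    plk ξ u J = (Matrix.of fun a b => M0 ξ u (J a) b).det := rfl

/-- block matrix -/
def bl {F : Type} [Field F] (a : Fin d → Fin d → F) : Matrix (Fin (d + 1)) (Fin (d + 1)) F :=
  Matrix.of fun k b => Fin.cases (motive := fun _ => F) (Fin.cases (motive := fun _ => F) 1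
    (fun _ => 0) k) (fun c => Fin.cases (motive := fun _ => F) 0 (fun b' => a b' c) k) b

theorem det_bl {F : Type} [Field F] (a : Fin d → Fin d → F) :
    (bl a).det = (Matrix.of a).det := by
  rw [Matrix.det_succ_column_zero, Fin.sum_univ_succ]
  have h0 : bl a 0 0 = 1 := rfl
  have h1 : ∀ i : Fin d, bl a i.succ 0 = 0 := fun i => rfl
  simp only [h0, h1, mul_zero, zero_mul, Finset.sum_const_zero, add_zero]
  simp only [Fin.val_zero, pow_zero, one_mul]
  rfl

theorem main (ξ : Fin d → Matrix (Fin N) (Fin N) K) {F : Type} [Field F] [Algebra K F]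
    (g : Matrix (Fin N) (Fin N) F) (hg : g.det = 1) (a : Fin d → Fin d → F)
    (ha : ∀ c, g.adjugate * (ξ c).map (algebraMap K F) * g =
      ∑ b, a b c • (ξ b).map (algebraMap K F)) (u : Fin N → F) (J : Fin (d + 1) → Fin N) :
    plk ξ (g.mulVec u) J = (Matrix.of a).det *
      ∑ J' : Fin (d + 1) → Fin N, (∏ k, g (J k) (J' k)) * plk ξ u J' := by
  have h1 : (Matrix.of fun a b => M0 ξ (g.mulVec u) (J a) b) =
      (Matrix.of fun k j => g (J k) j) * M0 ξ u * bl a := by
    ext k b
    rw [Matrix.mul_apply]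
    refine Fin.cases ?_ (fun c => ?_) b
    · rw [Fin.sum_univ_succ]
      have h0 : bl a 0 0 = 1 := rfl
      have h1 : ∀ i : Fin d, bl a i.succ 0 = 0 := fun i => rfl
      simp only [h0, h1, mul_zero, Finset.sum_const_zero, add_zero, mul_one]
      rfl
    · rw [Fin.sum_univ_succ]
      have h0 : bl a 0 c.succ = 0 := rfl
      have h1 : ∀ i : Fin d, bl a i.succ c.succ = a i c := fun i => rfl
      simp only [h0, h1, mul_zero, zero_add]
      have e1 : (ξ c).map (algebraMap K F) * g = g * ∑ b, a b c • (ξ b).map (algebraMap K F) := by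
        rw [← ha c, ← mul_assoc, ← mul_assoc, Matrix.mul_adjugate, hg, one_smul, one_mul]
      have e2 : (Matrix.of fun a b => M0 ξ (g.mulVec u) (J a) b) k c.succ =
          (((ξ c).map (algebraMap K F)).mulVec (g.mulVec u)) (J k) := rfl
      rw [e2, Matrix.mulVec_mulVec, e1, ← Matrix.mulVec_mulVec, Matrix.sum_mulVec]
      have e3 : ∀ i : Fin d, ((Matrix.of fun k j => g (J k) j) * M0 ξ u) k i.succ =
          (g.mulVec (((ξ i).map (algebraMap K F)).mulVec u)) (J k) := fun i => rfl
      simp only [e3]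
      rw [← Matrix.mulVecLin_apply, map_sum, Finset.sum_apply]
      refine Finset.sum_congr rfl fun b _ => ?_
      rw [Matrix.mulVecLin_apply, Matrix.smul_mulVec, Matrix.mulVec_smul, Pi.smul_apply,
        smul_eq_mul, mul_comm]
  rw [plk_eq, h1, Matrix.det_mul, det_rows, det_bl, mul_comm]
  rfl

theorem functional (ξ : Fin d → Matrix (Fin N) (Fin N) K) (hi : LinearIndependent K ξ) :
    ∃ l : Fin d → Fin N × Fin N → K, ∀ b c, ∑ ij : Fin N × Fin N, l b ij * ξ c ij.1 ij.2 =
      if b = c then 1 else 0 := by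
  have hinj := hi.fintypeLinearCombination_injective
  obtain ⟨P, hP⟩ := LinearMap.exists_leftInverse_of_injective _ (LinearMap.ker_eq_bot.2 hinj)
  refine ⟨fun b ij => P (Matrix.single ij.1 ij.2 1) b, fun b c => ?_⟩
  have h1 : P (ξ c) = Pi.single c 1 := by
    have := LinearMap.congr_fun hP (Pi.single c 1)
    simpa using this
  have h2 : P (ξ c) b = ∑ ij : Fin N × Fin N, P (Matrix.single ij.1 ij.2 1) b * ξ c ij.1 ij.2 := by
    conv_lhs => rw [Matrix.matrix_eq_sum_single (ξ c)]
    rw [← Finset.sum_product', map_sum, Finset.sum_apply]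
    refine Finset.sum_congr rfl fun ij _ => ?_
    have h3 : Matrix.single ij.1 ij.2 (ξ c ij.1 ij.2) =
        ξ c ij.1 ij.2 • Matrix.single ij.1 ij.2 (1 : K) := by
      rw [Matrix.smul_single, smul_eq_mul, mul_one]
    rw [h3, map_smul, Pi.smul_apply, smul_eq_mul, mul_comm]
  rw [← h2, h1, Pi.single_apply]

end PActX

open PActX in
theorem pAct_proof (hL : Stmt_LieF) : Stmt_PAct := by
  intro K _ N d I ξ hI hξ
  obtain ⟨l, hl⟩ := functional ξ hξ.indep
  refine ⟨l, ?_⟩
  intro F _ _ g hg u J
  have hdet := hI.det F g hg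
  obtain ⟨-, -, h3⟩ := hL K N d I ξ hI hξ F
  choose a ha using h3 g hg
  have h4 : (Matrix.of fun b c : Fin d => ∑ ij : Fin N × Fin N, algebraMap K F (l b ij) *
      (g.adjugate * (ξ c).map (algebraMap K F) * g) ij.1 ij.2) = Matrix.of fun b c => a c b := by
    ext b c
    simp only [Matrix.of_apply]
    rw [ha c]
    have e : ∀ ij : Fin N × Fin N, algebraMap K F (l b ij) *
        (∑ b' : Fin d, a c b' • (ξ b').map (algebraMap K F)) ij.1 ij.2 =
        ∑ b' : Fin d, a c b' * algebraMap K F (l b ij * ξ b' ij.1 ij.2) := by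
      intro ij
      rw [Matrix.sum_apply, Finset.mul_sum]
      refine Finset.sum_congr rfl fun b' _ => ?_
      rw [Matrix.smul_apply, Matrix.map_apply, map_mul, smul_eq_mul]
      ring
    rw [Finset.sum_congr rfl fun ij _ => e ij, Finset.sum_comm]
    simp only [← Finset.mul_sum, ← map_sum]
    simp only [hl]
    rw [Finset.sum_eq_single b]
    · simp
    · intro b' _ hb
      simp [Ne.symm hb]
    · simp
  rw [h4]
  exact main ξ g hdet (fun b c => a c b) ha u J

end Pool.GC
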