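import Pool.Agent.GC.SStmts
import Pool.Agent.GC.CmpB

set_option autoImplicit false

/-!
# Squad SPH, module SCmpB
-/

namespace Pool.GC

open MvPolynomial MeasureTheory NumberField Metric

open CmpBX in
theorem sCmpB_proof (hAct : Stmt_PAct) (hRel : Stmt_PRel) : Stmt_SCmpB := by
  intro K _ _ N d I ξ φ D hG hξ hD P ε hε
  obtain ⟨l, hl⟩ := hAct K N d I ξ hG hξ
  -- the centre
  obtain ⟨y₁, hy₁⟩ : ∃ y : Fin d → K, aeval y D.Δ ≠ 0 := by
    by_contra hcon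
    push Not at hcon
    apply hD.ne
    apply MvPolynomial.funext
    intro x
    have h1 := hcon x
    rw [MvPolynomial.aeval_eq_eval] at h1
    rw [map_zero]
    exact h1
  set y₀ : Fin d → P.F := fun i => algebraMap K P.F (y₁ i) with hy₀
  have hΔ₀ : aeval y₀ D.Δ ≠ 0 := by
    have h1 : aeval y₀ D.Δ = algebraMap K P.F (aeval y₁ D.Δ) := by
      exact MvPolynomial.aeval_algebraMap_apply P.F y₁ D.Δ
    rw [h1]
    exact (map_ne_zero_iff _ (algebraMap K P.F).injective).2 hy₁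
  have hdvd : ∀ (y : Fin d → P.F) (p : MvPolynomial (Fin d) K), p ∣ D.Δ → aeval y D.Δ ≠ 0 →
      aeval y p ≠ 0 := by
    rintro y p ⟨q, hq⟩ hy h0
    apply hy
    rw [hq, map_mul, h0, zero_mul]
  -- the parametrisation is continuous
  have hφc : ContinuousAt (fun y : Fin d → P.F => phiAt D.Φ D.δ y) y₀ := by
    refine continuousAt_pi.2 fun i => continuousAt_pi.2 fun j => ?_
    exact (continuous_aeval' P (D.Φ i j)).continuousAt.div
      (continuous_aeval' P D.δ).continuousAt (hdvd y₀ _ hD.dvd hΔ₀)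
  set f : (Fin d → P.F) → ℝ := fun y => c₁ ξ l (phiAt D.Φ D.δ y) * c₂ (phiAt D.Φ D.δ y) ^ (d + 1) *
    (d + 1) * (‖aeval y D.m₂‖ / ‖aeval y D.m₁‖) with hf
  have hfc : ContinuousAt f y₀ := by
    refine ContinuousAt.mul (ContinuousAt.mul (ContinuousAt.mul ?_ ?_) continuousAt_const) ?_
    · exact (continuous_c₁ ξ l).continuousAt.comp hφc
    · exact ((continuous_c₂).continuousAt.comp hφc).pow _
    · exact (continuous_aeval' P D.m₂).norm.continuousAt.div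
        (continuous_aeval' P D.m₁).norm.continuousAt
        (norm_ne_zero_iff.2 (hdvd y₀ _ hD.dvd₁ hΔ₀))
  have hf0 : ∀ y, 0 ≤ f y := fun y => by
    have h1 := c₁_nonneg ξ l (phiAt D.Φ D.δ y)
    have h2 := c₂_nonneg (phiAt D.Φ D.δ y)
    simp only [hf]
    positivity
  set M : ℝ := f y₀ + 1 with hM
  have hMpos : 0 < M := by linarith [hf0 y₀]
  have e₁ : ∀ᶠ y in nhds y₀, aeval y D.Δ ≠ 0 :=
    (continuous_aeval' P D.Δ).continuousAt.eventually_ne hΔ₀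
  have e₂ : ∀ᶠ y in nhds y₀, f y < M :=
    hfc.eventually_lt continuousAt_const (by linarith)
  have e₃ : ∀ᶠ z in nhds y₀ ×ˢ nhds y₀, ∀ i j,
      ‖((phiAt D.Φ D.δ z.2).adjugate * phiAt D.Φ D.δ z.1 - 1) i j‖ < ε := by
    rw [← nhds_prod_eq]
    have hz : ((phiAt D.Φ D.δ y₀).adjugate * phiAt D.Φ D.δ y₀ - 1) = 0 := by
      rw [Matrix.adjugate_mul, hG.det P.F _ (hD.mem P.F y₀ hΔ₀), one_smul, sub_self]
    refine Filter.eventually_all.2 fun i => Filter.eventually_all.2 fun j => ?_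
    refine (cont_pair _ y₀ hφc i j).eventually_lt continuousAt_const ?_
    simp only
    rw [hz, Matrix.zero_apply, norm_zero]
    exact hε
  obtain ⟨t, ht, ht'⟩ := (Filter.eventually_prod_self_iff (r := fun a b : Fin d → P.F =>
    ∀ i j, ‖((phiAt D.Φ D.δ b).adjugate * phiAt D.Φ D.δ a - 1) i j‖ < ε)).1 e₃
  obtain ⟨s, hs, hs'⟩ := exists_nhds_vol P y₀
  obtain ⟨B, hBsub, hBo, hyB⟩ := _root_.mem_nhds_iff.1
    (Filter.inter_mem (Filter.inter_mem (Filter.inter_mem e₁ e₂) ht) hs)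
  refine ⟨B, (1 / M) ^ P.e, hBo.measurableSet, by positivity, ?_, ?_, ?_, ?_⟩
  · exact vol_ne_zero P hBo ⟨y₀, hyB⟩
  · exact ((measure_mono fun x hx => (hBsub hx).2).trans_lt hs').ne
  · intro y hy
    obtain ⟨⟨⟨hyΔ, hyf⟩, -⟩, -⟩ := hBsub hy
    have hyΔ' : aeval y D.Δ ≠ 0 := hyΔ
    refine ⟨hyΔ', fun u hu => ?_⟩
    have hδ := hdvd y _ hD.dvd hyΔ'
    have hm₁ := hdvd y _ hD.dvd₁ hyΔ'
    have hm₂ := hdvd y _ hD.dvd₂ hyΔ'
    set g := phiAt D.Φ D.δ y with hg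
    have hgI : g ∈ pts I P.F := hD.mem P.F y hyΔ'
    have hnum : (phiNum D.Φ y).mulVec u = aeval y D.δ • g.mulVec u := by
      have h1 : phiNum D.Φ y = aeval y D.δ • g := by
        ext i j
        rw [Matrix.smul_apply, smul_eq_mul, hg]
        unfold phiNum phiAt
        rw [Matrix.of_apply, Matrix.of_apply, mul_div_cancel₀ _ hδ]
      rw [h1, Matrix.smul_mulVec]
    have hgu : g.mulVec u ≠ 0 := by
      intro h0
      apply hu
      have h1 : g.adjugate.mulVec (g.mulVec u) = u := by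
        rw [Matrix.mulVec_mulVec, Matrix.adjugate_mul, hG.det P.F g hgI, one_smul,
          Matrix.one_mulVec]
      rw [← h1, h0, Matrix.mulVec_zero]
    have hw : (phiNum D.Φ y).mulVec u ≠ 0 := by
      rw [hnum]
      exact smul_ne_zero hδ hgu
    refine ⟨hw, ?_⟩
    obtain ⟨J, hJ1, hJ2⟩ := exists_J hRel ξ _ hw
    refine ⟨J, hJ1, ?_⟩
    rw [← mul_pow]
    refine pow_le_pow_left₀ (by positivity) ?_ _
    have htan := hD.tan P.F y u J
    set w := (phiNum D.Φ y).mulVec u with hwdef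
    -- norms
    have hupos : 0 < ‖u‖ := norm_pos_iff.2 hu
    have hgupos : 0 < ‖g.mulVec u‖ := norm_pos_iff.2 hgu
    have hwpos : 0 < ‖w‖ := norm_pos_iff.2 hw
    have hδpos : 0 < ‖aeval y D.δ‖ := norm_pos_iff.2 hδ
    have hm₁pos : 0 < ‖aeval y D.m₁‖ := norm_pos_iff.2 hm₁
    have hm₂pos : 0 < ‖aeval y D.m₂‖ := norm_pos_iff.2 hm₂
    have hwn : ‖w‖ = ‖aeval y D.δ‖ * ‖g.mulVec u‖ := by rw [hnum, norm_smul]
    have hplkw : ‖plk ξ w‖ = ‖aeval y D.δ‖ ^ (d + 1) * ‖plk ξ (g.mulVec u)‖ := by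
      have h1 : plk ξ w = aeval y D.δ ^ (d + 1) • plk ξ (g.mulVec u) := by
        funext J'
        rw [hnum, (hRel K N d ξ P.F (g.mulVec u) (J 0) J').1, Pi.smul_apply, smul_eq_mul]
      rw [h1, norm_smul, norm_pow]
    have hp1 : ‖plk ξ u‖ ≤ c₁ ξ l g * ‖plk ξ (g.mulVec u)‖ := plk_le I ξ hG l hl g hgI u
    have hp2 : ‖g.mulVec u‖ ≤ c₂ g * ‖u‖ := mulVec_le g u
    have hc1 := c₁_nonneg ξ l g
    have hc2 := c₂_nonneg g
    -- ratio of `u` against ratio of `g u`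
    have hr1 : ‖plk ξ u‖ / ‖u‖ ^ (d + 1) ≤
        c₁ ξ l g * c₂ g ^ (d + 1) * (‖plk ξ w‖ / ‖w‖ ^ (d + 1)) := by
      have hratio : ‖plk ξ w‖ / ‖w‖ ^ (d + 1) =
          ‖plk ξ (g.mulVec u)‖ / ‖g.mulVec u‖ ^ (d + 1) := by
        rw [hplkw, hwn, mul_pow, mul_div_mul_left _ _ (pow_pos hδpos _).ne']
      rw [hratio, div_le_iff₀ (pow_pos hupos _)]
      have h3 : ‖g.mulVec u‖ ^ (d + 1) ≤ c₂ g ^ (d + 1) * ‖u‖ ^ (d + 1) := by
        rw [← mul_pow]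
        exact pow_le_pow_left₀ (norm_nonneg _) hp2 _
      have h4 : ‖plk ξ (g.mulVec u)‖ ≤
          ‖plk ξ (g.mulVec u)‖ / ‖g.mulVec u‖ ^ (d + 1) * (c₂ g ^ (d + 1) * ‖u‖ ^ (d + 1)) := by
        calc ‖plk ξ (g.mulVec u)‖ =
            ‖plk ξ (g.mulVec u)‖ / ‖g.mulVec u‖ ^ (d + 1) * ‖g.mulVec u‖ ^ (d + 1) := by
              rw [div_mul_cancel₀ _ (pow_pos hgupos _).ne']
          _ ≤ _ := mul_le_mul_of_nonneg_left h3 (by positivity)
      calc ‖plk ξ u‖ ≤ c₁ ξ l g * ‖plk ξ (g.mulVec u)‖ := hp1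
        _ ≤ c₁ ξ l g * (‖plk ξ (g.mulVec u)‖ / ‖g.mulVec u‖ ^ (d + 1) *
            (c₂ g ^ (d + 1) * ‖u‖ ^ (d + 1))) := mul_le_mul_of_nonneg_left h4 hc1
        _ = _ := by ring
    have hr2 : ‖plk ξ w J‖ = ‖aeval y D.m₂‖ / ‖aeval y D.m₁‖ * ‖wdet D.Φ y u J‖ := by
      have h1 : ‖aeval y D.m₂‖ * ‖wdet D.Φ y u J‖ = ‖aeval y D.m₁‖ * ‖plk ξ w J‖ := by
        rw [← norm_mul, ← norm_mul, htan]
      field_simp
      linarith
    have hr3 : ‖plk ξ u‖ / ‖u‖ ^ (d + 1) ≤ f y * (‖wdet D.Φ y u J‖ / ‖w‖ ^ (d + 1)) := by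
      calc ‖plk ξ u‖ / ‖u‖ ^ (d + 1)
          ≤ c₁ ξ l g * c₂ g ^ (d + 1) * (‖plk ξ w‖ / ‖w‖ ^ (d + 1)) := hr1
        _ ≤ c₁ ξ l g * c₂ g ^ (d + 1) * (((d + 1 : ℝ) * ‖plk ξ w J‖) / ‖w‖ ^ (d + 1)) := by
          gcongr
        _ = f y * (‖wdet D.Φ y u J‖ / ‖w‖ ^ (d + 1)) := by
          rw [hr2]
          simp only [hf, ← hg]
          ring
    rw [one_div, inv_mul_le_iff₀ hMpos]
    refine hr3.trans ?_
    exact mul_le_mul_of_nonneg_right (le_of_lt hyf) (by positivity)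
  · intro y hy y' hy' i j
    exact ht' y (hBsub hy).1.2 y' (hBsub hy').1.2 i j

end Pool.GC
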