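import Mathlib
import Pool.Agent.GC.Defs

set_option autoImplicit false

/-!
# Actions of split solvable groups with an open orbit and a finite stabiliser: definitions
-/

namespace Pool.GC

open MvPolynomial

section Defs

variable {K : Type} [Field K] {N d a : ℕ}

/-- All elements of `G` are upper triangular matrices. -/
def Triangular (I : Set (MvPolynomial (Fin N × Fin N) K)) : Prop :=
  ∀ (F : Type) [Field F] [Algebra K F] (g : Matrix (Fin N) (Fin N) F), g ∈ pts I F →
    ∀ i j, j < i → g i j = 0

/-- The stabiliser of the line `[v₀]` in `G` has exponent dividing `n > 0`. -/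
def FinStab (I : Set (MvPolynomial (Fin N × Fin N) K)) (v₀ : Fin N → K) (n : ℕ) : Prop :=
  0 < n ∧ ∀ (F : Type) [Field F] [Algebra K F] (g : Matrix (Fin N) (Fin N) F), g ∈ pts I F →
    ∀ c : F, orb v₀ g = c • orb v₀ (1 : Matrix (Fin N) (Fin N) F) → g ^ n = 1

/-- The point `[x]` lies in the orbit of `[v₀]` over the algebraic closure. -/
def InOrb (I : Set (MvPolynomial (Fin N × Fin N) K)) (v₀ x : Fin N → K) : Prop :=
  ∃ (g : Matrix (Fin N) (Fin N) (AlgebraicClosure K)) (c : AlgebraicClosure K),
    g ∈ pts I (AlgebraicClosure K) ∧ c ≠ 0 ∧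
      (fun i => algebraMap K (AlgebraicClosure K) (x i)) = c • orb v₀ g

/-- The map given by the forms `L_j` is generically finite on the orbit. -/
def BigForm (φ : Matrix (Fin N) (Fin N) (RF K d)) (v₀ : Fin N → K)
    (L : Fin a → MvPolynomial (Fin N) K) : Prop :=
  ∃ j, aeval (orb v₀ φ) (L j) ≠ 0 ∧ ∀ x : RF K d, IsAlgebraic (IntermediateField.adjoin K
    (Set.range fun i => aeval (orb v₀ φ) (L i) / aeval (orb v₀ φ) (L j))) x

end Defs

end Pool.GC
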