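import Mathlib
import Pool.Agent.GC.Defs
import Pool.Agent.GC.Stmts
import Pool.Agent.GC.SDefs

set_option autoImplicit false

/-!
# Spherical varieties: weak Manin for split solvable groups acting with an open orbit and finite
stabilisers.  Definitions and exact statements of the modules of squad SPH.
Paper proofs: /team-store/MP_18ea5f_SPH_PROOF.md
-/

namespace Pool.GC

open MvPolynomial MeasureTheory NumberField Metric

open scoped LinearAlgebra.Projectivization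

section Defs

variable {K : Type} [Field K] {N : ℕ}

/-- the vector `x` over a larger field -/
def vm (F : Type) [Field F] [Algebra K F] (x : Fin N → K) : Fin N → F :=
  fun i => algebraMap K F (x i)

/-- `[x]` lies in the orbit of `[v₀]` over an extension -/
def InOrbE (I : Set (MvPolynomial (Fin N × Fin N) K)) (v₀ : Fin N → K) {F : Type} [Field F]
    [Algebra K F] (x : Fin N → F) : Prop :=
  ∃ (E : Type) (_ : Field E) (_ : Algebra K E) (_ : Algebra F E) (_ : IsScalarTower K F E)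
    (g : Matrix (Fin N) (Fin N) E) (c : E), g ∈ pts I E ∧ c ≠ 0 ∧
      (fun i => algebraMap F E (x i)) = c • orb v₀ g

end Defs

/-- a normed algebraically closed extension of a nonarchimedean local field -/
structure EX (K : Type) [Field K] (P : LF K) where
  E : Type
  [nf : NormedField E]
  [algP : Algebra P.F E]
  [algK : Algebra K E]
  [tower : IsScalarTower K P.F E]
  closed : IsAlgClosed E
  na : ∀ x y : E, ‖x + y‖ ≤ max ‖x‖ ‖y‖
  norm_map : ∀ x : P.F, ‖algebraMap P.F E x‖ = ‖x‖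

attribute [instance] EX.nf EX.algP EX.algK EX.tower

/-- all lifts of `[x]` to `G(E)` are integral -/
def EX.Int {K : Type} [Field K] {P : LF K} (X : EX K P) {N : ℕ}
    (I : Set (MvPolynomial (Fin N × Fin N) K)) (v₀ x : Fin N → K) : Prop :=
  ∀ g : Matrix (Fin N) (Fin N) X.E, g ∈ pts I X.E → ∀ c : X.E, c ≠ 0 → vm X.E x = c • orb v₀ g →
    ∀ i j, ‖g i j‖ ≤ 1

/-- SEXT: existence of the extension (spectral norm) -/
def Stmt_SExt : Prop :=
  ∀ (K : Type) [Field K] (P : LF K) (q : ℕ), P.IsNA q → Nonempty (EX K P)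

/-- SREL: as REL, with a form on `K^N` instead of a function on `G` -/
def Stmt_SRel : Prop :=
  ∀ (K : Type) [Field K] [CharZero K] (N d : ℕ) (I : Set (MvPolynomial (Fin N × Fin N) K))
    (ξ : Fin d → Matrix (Fin N) (Fin N) K) (φ : Matrix (Fin N) (Fin N) (RF K d))
    (v₀ : Fin N → K), IsGroup I → IsLieBasis I ξ → IsParam I φ → ∀ J : Fin (d + 1) → Fin N,
    (∀ (F : Type) [Field F] [Algebra K F] (g : Matrix (Fin N) (Fin N) F), g ∈ pts I F →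
      orb v₀ g (J 0) * plk ξ (orb v₀ g) J = 0) ∨
    ∃ (Λ : MvPolynomial (Fin N) K) (b D : ℕ) (c : MvPolynomial (Fin d) K) (𝒞 : Finset K),
      Λ.IsHomogeneous b ∧ aeval (orb v₀ φ) Λ ≠ 0 ∧ c ≠ 0 ∧
      (∀ (F : Type) [Field F] [Algebra K F] (x : Fin N → F), aeval x Λ ≠ 0 → x (J 0) ≠ 0) ∧
      (∀ (F : Type) [Field F] [Algebra K F] (z : Fin d → F),
        {x : Fin N → F | InOrbE I v₀ x ∧ aeval x Λ ≠ 0 ∧ x (J 0) = 1 ∧ zc J x = z}.encard ≤ D) ∧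
      ∀ (F : Type) [NormedField F] [Algebra K F], (∀ x y : F, ‖x + y‖ ≤ max ‖x‖ ‖y‖) →
        (∀ κ ∈ 𝒞, ‖algebraMap K F κ‖ ≤ 1) → ∀ g : Matrix (Fin N) (Fin N) F, g ∈ pts I F →
        orb v₀ g (J 0) ≠ 0 → (∀ i, ‖zc J (orb v₀ g) i‖ ≤ 1) → (∃ i j, 1 < ‖g i j‖) →
        ‖aeval (zc J (orb v₀ g)) c‖ < 1

/-- SNUM: a form along the translates of the parametrisation -/
def Stmt_SNum : Prop :=
  ∀ (K : Type) [Field K] (N d : ℕ) (I : Set (MvPolynomial (Fin N × Fin N) K))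
    (ξ : Fin d → Matrix (Fin N) (Fin N) K) (φ : Matrix (Fin N) (Fin N) (RF K d))
    (D : GeoData K N d) (v₀ : Fin N → K), IsGroup I → IsParam I φ → IsGeo I ξ φ D →
    ∀ (Λ : MvPolynomial (Fin N) K) (b : ℕ), Λ.IsHomogeneous b → aeval (orb v₀ φ) Λ ≠ 0 →
    ∀ x : Fin N → K, InOrb I v₀ x → ∃ n : MvPolynomial (Fin d) K, n ≠ 0 ∧
      ∀ (F : Type) [Field F] [Algebra K F] (y : Fin d → F), aeval y D.Δ ≠ 0 → aeval y n ≠ 0 →
        aeval ((phiAt D.Φ D.δ y).mulVec (vm F x)) Λ ≠ 0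

/-- SSTAB: stabilisers of the points of the orbit -/
def Stmt_SStab : Prop :=
  ∀ (K : Type) [Field K] [CharZero K] (N : ℕ) (I : Set (MvPolynomial (Fin N × Fin N) K))
    (v₀ : Fin N → K) (n : ℕ), IsGroup I → Triangular I → FinStab I v₀ n →
    ∀ (x : Fin N → K), InOrb I v₀ x → ∀ (F : Type) [Field F] [Algebra K F],
    (∀ s : Matrix (Fin N) (Fin N) F, s ∈ pts I F → ∀ c : F, s.mulVec (vm F x) = c • vm F x →
      s ^ n = 1 ∧ (∀ k, s k k ^ n = 1) ∧ ((∀ k, s k k = 1) → s = 1)) ∧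
    {s : Matrix (Fin N) (Fin N) F | s ∈ pts I F ∧ ∃ c : F, s.mulVec (vm F x) =
      c • vm F x}.encard ≤ (n ^ N : ℕ)

/-- SUNIQ: a system of equations with at most one solution over every field has its solution
in the base field -/
def Stmt_SUniq : Prop :=
  ∀ (K : Type) [Field K] [CharZero K] (σ : Type) [Fintype σ] (S : Set (MvPolynomial σ K)),
    (∀ (F : Type) [Field F] [Algebra K F] (a b : σ → F), (∀ p ∈ S, aeval a p = 0) →
      (∀ p ∈ S, aeval b p = 0) → a = b) →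
    ∀ (F : Type) [Field F] [Algebra K F] (a : σ → F), (∀ p ∈ S, aeval a p = 0) →
      ∃ a₀ : σ → K, a = fun i => algebraMap K F (a₀ i)

/-- SGAM: two points which are close at all places differ by an element of `G(K)` with
trivial diagonal (uses SSTAB, SUNIQ) -/
def Stmt_SGam : Prop :=
  ∀ (K : Type) [Field K] [NumberField K] (N : ℕ) (I : Set (MvPolynomial (Fin N × Fin N) K))
    (v₀ : Fin N → K) (n : ℕ), IsGroup I → Triangular I → FinStab I v₀ n →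
    ∀ (x x' : Fin N → K), InOrb I v₀ x → InOrb I v₀ x' →
    (∀ w : InfinitePlace K, ∃ (P : LF K) (c : Matrix (Fin N) (Fin N) P.F) (s : P.F),
      (∀ t : K, ‖algebraMap K P.F t‖ = w t) ∧ c ∈ pts I P.F ∧ s ≠ 0 ∧
      c.mulVec (vm P.F x) = s • vm P.F x' ∧ ∀ k l, ‖(c - 1) k l‖ < 1 / (2 * (n : ℝ))) →
    (∀ v : FinitePlace K,
      (∃ (P : LF K) (c : Matrix (Fin N) (Fin N) P.F) (s : P.F),
        (∀ t u : P.F, ‖t + u‖ ≤ max ‖t‖ ‖u‖) ∧
        (∀ t : K, ‖algebraMap K P.F t‖ = v t) ∧ c ∈ pts I P.F ∧ s ≠ 0 ∧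
        c.mulVec (vm P.F x) = s • vm P.F x' ∧ ∀ k l, ‖c k l‖ ≤ 1) ∨
      (∃ (P : LF K) (X : EX K P), (∀ t : K, ‖algebraMap K P.F t‖ = v t) ∧
        X.Int I v₀ x ∧ X.Int I v₀ x')) →
    ∃ (γ : Matrix (Fin N) (Fin N) K) (s : K), γ ∈ pts I K ∧ (∀ k, γ k k = 1) ∧ s ≠ 0 ∧
      γ.mulVec x = s • x'

/-- SMULT: the multiplicity (uses SGAM, SSTAB) -/
def Stmt_SMult : Prop :=
  ∀ (K : Type) [Field K] [NumberField K] (N : ℕ) (I : Set (MvPolynomial (Fin N × Fin N) K))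
    (v₀ : Fin N → K) (n : ℕ), IsGroup I → Triangular I → FinStab I v₀ n →
    ∀ (ι : Type) [Fintype ι] (P : ι → LF K) (A : Set (ℙ K (Fin N → K)))
      (b : ∀ i, ℙ K (Fin N → K) → Matrix (Fin N) (Fin N) (P i).F),
    (∀ p ∈ A, InOrb I v₀ p.rep) → (∀ i, ∀ p ∈ A, b i p ∈ pts I (P i).F) →
    (∀ i, ∀ p ∈ A, ∀ p' ∈ A, ∃ c : (P i).F, c ≠ 0 ∧
      (b i p).mulVec (vm (P i).F p.rep) = c • (b i p').mulVec (vm (P i).F p'.rep)) →
    (∀ w : InfinitePlace K, ∃ i, (∀ t : K, ‖algebraMap K (P i).F t‖ = w t) ∧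
      ∀ p ∈ A, ∀ p' ∈ A, ∀ k l, ‖((b i p').adjugate * b i p - 1) k l‖ < 1 / (2 * (n : ℝ))) →
    (∀ v : FinitePlace K,
      (∃ i, (∀ t u : (P i).F, ‖t + u‖ ≤ max ‖t‖ ‖u‖) ∧
        (∀ t : K, ‖algebraMap K (P i).F t‖ = v t) ∧
        ∀ p ∈ A, ∀ p' ∈ A, ∀ k l, ‖((b i p').adjugate * b i p) k l‖ ≤ 1) ∨
      (∃ (P : LF K) (X : EX K P), (∀ t : K, ‖algebraMap K P.F t‖ = v t) ∧
        ∀ p ∈ A, X.Int I v₀ p.rep)) →
    A.encard ≤ ((n ^ N) ^ Fintype.card ι : ℕ)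

/-- SCMPB: as CMPB, with an arbitrarily small set `B` -/
def Stmt_SCmpB : Prop :=
  ∀ (K : Type) [Field K] [Infinite K] (N d : ℕ) (I : Set (MvPolynomial (Fin N × Fin N) K))
    (ξ : Fin d → Matrix (Fin N) (Fin N) K) (φ : Matrix (Fin N) (Fin N) (RF K d))
    (D : GeoData K N d), IsGroup I → IsLieBasis I ξ → IsGeo I ξ φ D → ∀ (P : LF K) (ε : ℝ),
    0 < ε → ∃ (B : Set (Fin d → P.F)) (c₀ : ℝ), MeasurableSet B ∧ 0 < c₀ ∧ P.vol d B ≠ 0 ∧
      P.vol d B ≠ ⊤ ∧ CMP ξ D P B c₀ ∧ ∀ y ∈ B, ∀ y' ∈ B, ∀ i j,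
      ‖((phiAt D.Φ D.δ y').adjugate * phiAt D.Φ D.δ y - 1) i j‖ < ε

/-- SINTG: nothing happens at almost all places where the point is integral (uses PACT) -/
def Stmt_SIntG : Prop :=
  ∀ (K : Type) [Field K] [NumberField K] (N d : ℕ) (I : Set (MvPolynomial (Fin N × Fin N) K))
    (ξ : Fin d → Matrix (Fin N) (Fin N) K) (v₀ : Fin N → K), IsGroup I → IsLieBasis I ξ →
    plk ξ (fun i => v₀ i) ≠ 0 →
    ∃ S₀ : Finset (FinitePlace K), ∀ v ∉ S₀, ∀ P : LF K,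
      (∀ t : K, ‖algebraMap K P.F t‖ = v t) → ∀ X : EX K P, ∀ x : Fin N → K, InOrb I v₀ x →
      X.Int I v₀ x → (⨆ J, v (plk ξ x J)) = (⨆ i, v (x i)) ^ (d + 1)

/-- SQV: the bad places divide the value of a form -/
def Stmt_SQv : Prop :=
  ∀ (K : Type) [Field K] [NumberField K] (N d a e : ℕ)
    (I : Set (MvPolynomial (Fin N × Fin N) K)) (φ : Matrix (Fin N) (Fin N) (RF K d))
    (v₀ : Fin N → K) (L : Fin a → MvPolynomial (Fin N) K), IsGroup I → IsParam I φ →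
    (∀ j, (L j).IsHomogeneous e) → BigForm φ v₀ L →
    ∃ (R : MvPolynomial (Fin N) K) (b D : ℕ) (C : ℝ) (S₀ : Finset (FinitePlace K)),
      R.IsHomogeneous b ∧ aeval (orb v₀ φ) R ≠ 0 ∧ 1 ≤ C ∧
      ∀ x : Fin N → K, InOrb I v₀ x → eval x R ≠ 0 → ∀ S : Finset (FinitePlace K),
      (∀ v ∈ S, v ∉ S₀ ∧ ∃ (P : LF K) (X : EX K P), P.IsNA (qv v) ∧
        (∀ t : K, ‖algebraMap K P.F t‖ = v t) ∧ ¬ X.Int I v₀ x) →
      ∏ v ∈ S, (qv v : ℝ) ≤ C * Height.mulHeight (fun j => eval x (L j)) ^ D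

/-- SEFF: the effectivity condition gives an inequality between heights -/
def Stmt_SEff : Prop :=
  ∀ (K : Type) [Field K] [NumberField K] (N d a e b m k : ℕ)
    (I : Set (MvPolynomial (Fin N × Fin N) K))
    (ξ : Fin d → Matrix (Fin N) (Fin N) K) (φ : Matrix (Fin N) (Fin N) (RF K d))
    (v₀ : Fin N → K) (L : Fin a → MvPolynomial (Fin N) K) (Q₁ Q₂ : MvPolynomial (Fin N) K),
    IsGroup I → IsParam I φ → v₀ ≠ 0 → (∀ j, (L j).IsHomogeneous e) →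
    Q₁.IsHomogeneous (b + k * e) → Q₂.IsHomogeneous b → aeval (orb v₀ φ) Q₂ ≠ 0 →
    (∀ i, IntegralOver
      (Submodule.span K (Set.range (plk ξ (orb v₀ φ))) ^ m *
        Submodule.span K (Set.range fun j => aeval (orb v₀ φ) (L j)) ^ k)
      (aeval (orb v₀ φ) Q₁ / aeval (orb v₀ φ) Q₂ * orb v₀ φ i ^ (m * (d + 1)))) →
    ∃ C : ℝ, 1 ≤ C ∧ ∀ x : Fin N → K, InOrb I v₀ x → eval x Q₁ ≠ 0 → eval x Q₂ ≠ 0 →
      Height.mulHeight x ^ (m * (d + 1)) ≤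
        C * Height.mulHeight (plk ξ x) ^ m *
          Height.mulHeight (fun j => eval x (L j)) ^ k

/-- SPACK: counting the points with given bad places -/
def Stmt_SPack : Prop :=
  ∀ (K : Type) [Field K] [NumberField K] (N d : ℕ) (I : Set (MvPolynomial (Fin N × Fin N) K))
    (ξ : Fin d → Matrix (Fin N) (Fin N) K) (φ : Matrix (Fin N) (Fin N) (RF K d))
    (v₀ : Fin N → K) (n : ℕ), IsGroup I → Triangular I → IsLieBasis I ξ → IsParam I φ →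
    FinStab I v₀ n → plk ξ (fun i => v₀ i) ≠ 0 →
    ∀ (PF : FinitePlace K → LF K), (∀ v, (PF v).IsNA (qv v)) →
    (∀ (v : FinitePlace K) (t : K), ‖algebraMap K (PF v).F t‖ = v t) →
    ∀ XF : ∀ v, EX K (PF v),
    ∃ (S₀ : Finset (FinitePlace K)) (C : ℝ), 1 ≤ C ∧ ∀ S : Finset (FinitePlace K),
      Disjoint S S₀ → ∀ (𝒢 : Finset (ℙ K (Fin N → K))) (τ : ℝ), 0 < τ →
      (∀ p ∈ 𝒢, InOrb I v₀ p.rep ∧ (∀ v ∉ S₀, v ∈ S ↔ ¬ (XF v).Int I v₀ p.rep) ∧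
        τ ≤ Height.mulHeight (plk ξ p.rep) / Height.mulHeight p.rep ^ (d + 1)) →
      (𝒢.card : ℝ) * τ ≤ C ^ (S.card + 1) * ∏ v ∈ S, ((qv v : ℝ))⁻¹

/-- SMAIN: weak Manin for split solvable groups acting with an open orbit and finite
stabilisers, in particular for spherical varieties -/
def Stmt_SMain : Prop :=
  ∀ (K : Type) [Field K] [NumberField K] (N d a e b m k n : ℕ)
    (I : Set (MvPolynomial (Fin N × Fin N) K))
    (ξ : Fin d → Matrix (Fin N) (Fin N) K) (φ : Matrix (Fin N) (Fin N) (RF K d))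
    (v₀ : Fin N → K) (L : Fin a → MvPolynomial (Fin N) K) (Q₁ Q₂ : MvPolynomial (Fin N) K),
    IsGroup I → Triangular I → IsLieBasis I ξ → IsParam I φ → v₀ ≠ 0 → FinStab I v₀ n →
    (∀ j, (L j).IsHomogeneous e) → BigForm φ v₀ L → 0 < m →
    Q₁.IsHomogeneous (b + k * e) → Q₂.IsHomogeneous b →
    aeval (orb v₀ φ) Q₁ ≠ 0 → aeval (orb v₀ φ) Q₂ ≠ 0 →
    (∀ i, IntegralOver
      (Submodule.span K (Set.range (plk ξ (orb v₀ φ))) ^ m *
        Submodule.span K (Set.range fun j => aeval (orb v₀ φ) (L j)) ^ k)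
      (aeval (orb v₀ φ) Q₁ / aeval (orb v₀ φ) Q₂ * orb v₀ φ i ^ (m * (d + 1)))) →
    ∃ (Λ : MvPolynomial (Fin N) K) (b' : ℕ), Λ.IsHomogeneous b' ∧ aeval (orb v₀ φ) Λ ≠ 0 ∧
      ∃ (C : ℝ) (e' : ℕ), ∀ T : ℝ, 1 ≤ T →
      {p : ℙ K (Fin N → K) | InOrb I v₀ p.rep ∧ eval p.rep Λ ≠ 0 ∧
        Height.mulHeight (fun j => eval p.rep (L j)) ≤ T}.Finite ∧
      ({p : ℙ K (Fin N → K) | InOrb I v₀ p.rep ∧ eval p.rep Λ ≠ 0 ∧
        Height.mulHeight (fun j => eval p.rep (L j)) ≤ T}.ncard : ℝ) ≤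
        C * T ^ ((k : ℝ) / (m : ℝ)) * (1 + Real.log T) ^ e'

end Pool.GC
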