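import Mathlib
import Pool.Agent.GC.Stmts
import Pool.Agent.GC.SStmts
import Pool.Agent.GC.Eff

set_option autoImplicit false

/-!
# Module SEFF: the effectivity condition gives an inequality between heights (forms on `K^N`)
-/

namespace Pool.GC

open MvPolynomial NumberField Height Height.AdmissibleAbsValues

namespace SEff

open Eff

variable {K : Type} [Field K] {N d : ℕ}

/-- the composition of a form with `X v₀` for the generic matrix `X` -/
noncomputable def cmp (v₀ : Fin N → K) (Q : MvPolynomial (Fin N) K) : MvPolynomial (Fin N × Fin N) K :=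
  aeval (orbP v₀) Q

lemma ev_cmp (v₀ : Fin N → K) (Q : MvPolynomial (Fin N) K) {F : Type} [Field F] [Algebra K F]
    (g : Matrix (Fin N) (Fin N) F) : ev (cmp v₀ Q) g = aeval (orb v₀ g) Q := by
  unfold ev cmp
  have h : (aeval fun ij : Fin N × Fin N => g ij.1 ij.2 : MvPolynomial (Fin N × Fin N) K →ₐ[K] F)
      (aeval (orbP v₀) Q) = aeval (fun i => (aeval fun ij : Fin N × Fin N => g ij.1 ij.2 :
        MvPolynomial (Fin N × Fin N) K →ₐ[K] F) (orbP v₀ i)) Q := by
    rw [← comp_aeval_apply]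
  rw [h]
  have h2 : (fun i => (aeval fun ij : Fin N × Fin N => g ij.1 ij.2 :
        MvPolynomial (Fin N × Fin N) K →ₐ[K] F) (orbP v₀ i)) = orb v₀ g := by
    funext i
    exact ev_orbP v₀ i g
  rw [h2]

/-- homogeneity of forms -/
lemma aeval_smul {Q : MvPolynomial (Fin N) K} {b : ℕ} (hQ : Q.IsHomogeneous b) {F : Type} [Field F]
    [Algebra K F] (c : F) (x : Fin N → F) : aeval (c • x) Q = c ^ b * aeval x Q := by
  rw [aeval_def, aeval_def, eval₂_eq', eval₂_eq', Finset.mul_sum]
  refine Finset.sum_congr rfl fun s hs => ?_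
  have h1 : ∑ i, s i = b := by
    have := hQ (mem_support_iff.1 hs)
    rw [← this, Finsupp.weight_apply, Finsupp.sum_fintype _ _ (by simp)]
    simp
  simp only [Pi.smul_apply, smul_eq_mul, mul_pow, Finset.prod_mul_distrib]
  rw [Finset.prod_pow_eq_pow_sum, h1]
  ring

/-- Plücker coordinates of a multiple -/
lemma plk_smul (ξ : Fin d → Matrix (Fin N) (Fin N) K) {F : Type} [Field F] [Algebra K F] (c : F)
    (u : Fin N → F) (J : Fin (d + 1) → Fin N) : plk ξ (c • u) J = c ^ (d + 1) * plk ξ u J := by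
  unfold plk
  have h : (Matrix.of fun a b : Fin (d + 1) =>
    Fin.cases (motive := fun _ => F) ((c • u) (J a))
      (fun e : Fin d => ((ξ e).map (algebraMap K F)).mulVec (c • u) (J a)) b) =
      c • (Matrix.of fun a b : Fin (d + 1) =>
    Fin.cases (motive := fun _ => F) (u (J a))
      (fun e : Fin d => ((ξ e).map (algebraMap K F)).mulVec u (J a)) b) := by
    ext a b
    refine Fin.cases ?_ (fun e => ?_) b
    · simp
    · simp [Matrix.mulVec_smul]
  rw [h, Matrix.det_smul]
  simp

/-- relations are homogeneous -/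
lemma relU_smul {T : Type} [Fintype T] {r : ℕ} {c : (j : ℕ) → (Fin j → T) → K} {A : Type}
    [CommRing A] [Algebra K A] {x : A} {w : T → A} (h : RelU r c x w) (l : A) :
    RelU r c (l * x) (fun t => l * w t) := by
  unfold RelU at h ⊢
  have h1 : (l * x) ^ r + ∑ j ∈ Finset.Icc 1 r, (∑ s : Fin j → T, algebraMap K A (c j s) *
      ∏ k, (l * w (s k))) * (l * x) ^ (r - j) = l ^ r * (x ^ r + ∑ j ∈ Finset.Icc 1 r,
      (∑ s : Fin j → T, algebraMap K A (c j s) * ∏ k, w (s k)) * x ^ (r - j)) := by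
    rw [mul_add, mul_pow, Finset.mul_sum]
    congr 1
    refine Finset.sum_congr rfl fun j hj => ?_
    have hj2 := (Finset.mem_Icc.1 hj).2
    have e : l ^ r = l ^ j * l ^ (r - j) := by rw [← pow_add, Nat.add_sub_cancel' hj2]
    rw [e, mul_pow, Finset.sum_mul, Finset.sum_mul, Finset.mul_sum]
    refine Finset.sum_congr rfl fun s _ => ?_
    rw [Finset.prod_mul_distrib]
    simp only [Finset.prod_const, Finset.card_univ, Fintype.card_fin]
    ring
  rw [h1, h, mul_zero]

/-- relations with a denominator -/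
lemma relU_div {T : Type} [Fintype T] {r : ℕ} {c : (j : ℕ) → (Fin j → T) → K} {F : Type}
    [Field F] [Algebra K F] {q x : F} {w : T → F} (hq : q ≠ 0) : RelU r c (x / q) w ↔
      x ^ r + ∑ j ∈ Finset.Icc 1 r, (∑ s : Fin j → T, algebraMap K F (c j s) *
        ∏ k, (q * w (s k))) * x ^ (r - j) = 0 := by
  have h1 : RelU r c x (fun t => q * w t) ↔ RelU r c (x / q) w := by
    constructor
    · intro h
      have := relU_smul h q⁻¹
      have e1 : q⁻¹ * x = x / q := by field_simp
      have e2 : (fun t => q⁻¹ * (q * w t)) = w := by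
        funext t
        field_simp
      rwa [e1, e2] at this
    · intro h
      have := relU_smul h q
      have e1 : q * (x / q) = x := by field_simp
      rwa [e1] at this
  rw [← h1]
  rfl

/-- relations descend to subfields -/
lemma relU_map {T : Type} [Fintype T] {r : ℕ} {c : (j : ℕ) → (Fin j → T) → K} {F : Type}
    [Field F] [Algebra K F] {x : K} {w : T → K}
    (h : RelU r c (algebraMap K F x) (fun t => algebraMap K F (w t))) : RelU r c x w := by
  unfold RelU at h ⊢
  apply (algebraMap K F).injective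
  rw [map_zero, ← h]
  simp

end SEff

open SEff Eff in
theorem sEff_proof : Stmt_SEff := by
  intro K _ _ N d a e b m k I ξ φ v₀ L Q₁ Q₂ hI hφ hv₀ hL hQ₁ hQ₂ hQφ hint
  -- the generic elements
  let xP : Fin N → MvPolynomial (Fin N × Fin N) K := fun i =>
    cmp v₀ Q₁ * orbP v₀ i ^ (m * (d + 1))
  let wP : (Fin m → (Fin (d + 1) → Fin N)) × (Fin k → Fin a) →
      MvPolynomial (Fin N × Fin N) K := fun t =>
    cmp v₀ Q₂ * prd m k (plkP ξ v₀) (fun j => cmp v₀ (L j)) t
  have hwev : ∀ (F : Type) [Field F] [Algebra K F] (g : Matrix (Fin N) (Fin N) F)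
      (t : (Fin m → (Fin (d + 1) → Fin N)) × (Fin k → Fin a)), ev (wP t) g =
      aeval (orb v₀ g) Q₂ * prd m k (plk ξ (orb v₀ g)) (fun j => aeval (orb v₀ g) (L j)) t := by
    intro F _ _ g t
    simp only [wP, prd]
    rw [← ev_cmp, ← funext (f := fun J => ev (plkP ξ v₀ J) g) (fun J => ev_plkP ξ v₀ J g)]
    have : ∀ j, aeval (orb v₀ g) (L j) = ev (cmp v₀ (L j)) g := fun j => (ev_cmp v₀ (L j) g).symm
    simp only [this]
    simp [ev]
  have hxev : ∀ (F : Type) [Field F] [Algebra K F] (g : Matrix (Fin N) (Fin N) F) (i : Fin N),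
      ev (xP i) g = aeval (orb v₀ g) Q₁ * orb v₀ g i ^ (m * (d + 1)) := by
    intro F _ _ g i
    simp only [xP]
    rw [← ev_orbP v₀ i g, ← ev_cmp]
    simp [ev]
  -- relations
  have hrel : ∀ i, ∃ (r : ℕ) (c : (j : ℕ) → (Fin j →
      (Fin m → (Fin (d + 1) → Fin N)) × (Fin k → Fin a)) → K), 1 ≤ r ∧
      RelU r c (aeval (orb v₀ φ) Q₁ / aeval (orb v₀ φ) Q₂ * orb v₀ φ i ^ (m * (d + 1)))
        (prd m k (plk ξ (orb v₀ φ)) (fun j => aeval (orb v₀ φ) (L j))) := by
    intro i
    have := hint i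
    rw [span_prd] at this
    exact exists_rel _ _ this
  choose r c hr hc using hrel
  -- specialise
  have hspec : ∀ (F : Type) [Field F] [Algebra K F] (g : Matrix (Fin N) (Fin N) F), g ∈ pts I F →
      aeval (orb v₀ g) Q₂ ≠ 0 → ∀ i,
      RelU (r i) (c i) (aeval (orb v₀ g) Q₁ * orb v₀ g i ^ (m * (d + 1)) / aeval (orb v₀ g) Q₂)
        (prd m k (plk ξ (orb v₀ g)) (fun j => aeval (orb v₀ g) (L j))) := by
    intro F _ _ g hg hQg i
    let p : MvPolynomial (Fin N × Fin N) K := xP i ^ r i + ∑ j ∈ Finset.Icc 1 (r i),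
      (∑ s, C (c i j s) * ∏ l, wP (s l)) * xP i ^ (r i - j)
    have hp : ∀ (F : Type) [Field F] [Algebra K F] (g : Matrix (Fin N) (Fin N) F), ev p g =
        ev (xP i) g ^ r i + ∑ j ∈ Finset.Icc 1 (r i),
      (∑ s, algebraMap K F (c i j s) * ∏ l, ev (wP (s l)) g) * ev (xP i) g ^ (r i - j) := by
      intro F _ _ g
      simp [p, ev]
    have h0 : ev p φ = 0 := by
      rw [hp]
      have := hc i
      have e1 : aeval (orb v₀ φ) Q₁ / aeval (orb v₀ φ) Q₂ * orb v₀ φ i ^ (m * (d + 1)) =
          aeval (orb v₀ φ) Q₁ * orb v₀ φ i ^ (m * (d + 1)) / aeval (orb v₀ φ) Q₂ := by ring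
      rw [e1, relU_div hQφ] at this
      rw [← this]
      simp only [hwev, hxev]
    have h1 := hφ.dense p h0 F g hg
    rw [hp] at h1
    rw [relU_div hQg, ← h1]
    simp only [hwev, hxev]
  obtain ⟨C, hC, h⟩ := height_rel r hr c
  refine ⟨C, hC, fun x hx hQ₁x hQ₂x => ?_⟩
  obtain ⟨g, l, hg, hl, hxg⟩ := hx
  have horb : orb v₀ g ≠ 0 := by
    intro h0
    have hdet := hI.det _ g hg
    have h1 : g.adjugate.mulVec (g.mulVec fun i => algebraMap K (AlgebraicClosure K) (v₀ i)) = 0 := by
      have : (g.mulVec fun i => algebraMap K (AlgebraicClosure K) (v₀ i)) = 0 := h0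
      rw [this, Matrix.mulVec_zero]
    rw [Matrix.mulVec_mulVec, Matrix.adjugate_mul, hdet, one_smul, Matrix.one_mulVec] at h1
    refine hv₀ (funext fun i => ?_)
    have := congrFun h1 i
    simpa using this
  have hx0' : x ≠ 0 := by
    rintro rfl
    apply horb
    funext i
    have := congrFun hxg i
    simp only [Pi.zero_apply, map_zero, Pi.smul_apply, smul_eq_mul] at this
    rcases mul_eq_zero.1 this.symm with h | h
    · exact absurd h hl
    · exact h
  -- values of forms
  have hval : ∀ p : MvPolynomial (Fin N) K, algebraMap K (AlgebraicClosure K) (eval x p) =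
      aeval (l • orb v₀ g) p := by
    intro p
    rw [← hxg]
    have : (fun i => algebraMap K (AlgebraicClosure K) (x i)) = algebraMap K (AlgebraicClosure K) ∘ x := rfl
    rw [this, aeval_algebraMap_apply]
    simp [aeval_eq_eval]
  have hQ₂g : aeval (orb v₀ g) Q₂ ≠ 0 := by
    intro h0
    apply hQ₂x
    apply (algebraMap K (AlgebraicClosure K)).injective
    rw [hval, aeval_smul hQ₂, h0, mul_zero, map_zero]
  have hplk : ∀ J, algebraMap K (AlgebraicClosure K) (plk ξ x J) = plk ξ (l • orb v₀ g) J := by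
    intro J
    rw [← hxg]
    unfold plk
    rw [RingHom.map_det]
    congr 1
    ext a b
    refine Fin.cases ?_ (fun c => ?_) b
    · simp
    · simp [Matrix.mulVec, dotProduct]
  have hrelx : ∀ i, RelU (r i) (c i) (eval x Q₁ * x i ^ (m * (d + 1)) / eval x Q₂)
      (prd m k (plk ξ x) (fun j => eval x (L j))) := by
    intro i
    have h1 := relU_smul (hspec (AlgebraicClosure K) g hg hQ₂g i) (l ^ (k * e + m * (d + 1)))
    apply relU_map (F := AlgebraicClosure K)
    convert h1 using 1
    · have hxi : algebraMap K (AlgebraicClosure K) (x i) = l * orb v₀ g i := congrFun hxg i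
      rw [map_div₀, map_mul, map_pow, hval, hval, aeval_smul hQ₁, aeval_smul hQ₂, hxi]
      field_simp
      ring
    · funext t
      simp only [prd, map_mul, map_prod, hplk, hval, plk_smul]
      have : ∀ j, aeval (l • orb v₀ g) (L j) = l ^ e * aeval (orb v₀ g) (L j) := fun j =>
        aeval_smul (hL j) l _
      simp only [this, Finset.prod_mul_distrib, Finset.prod_const, Finset.card_univ, Fintype.card_fin]
      ring
  have hx0 : (fun i => eval x Q₁ * x i ^ (m * (d + 1)) / eval x Q₂) ≠ 0 := by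
    obtain ⟨i, hi⟩ := Function.ne_iff.1 hx0'
    exact Function.ne_iff.2 ⟨i, div_ne_zero (mul_ne_zero hQ₁x (pow_ne_zero _ hi)) hQ₂x⟩
  obtain ⟨hw, hle⟩ := h _ _ hx0 hrelx
  rw [mulHeight_prd _ _ _ _ hw] at hle
  have e1 : (fun i => eval x Q₁ * x i ^ (m * (d + 1)) / eval x Q₂) =
      (eval x Q₁ / eval x Q₂) • (x ^ (m * (d + 1))) := by
    funext i
    simp
    ring
  rw [e1, mulHeight_smul_eq_mulHeight _ (div_ne_zero hQ₁x hQ₂x), mulHeight_pow] at hle
  calc _ ≤ _ := hle
    _ = _ := by ring

end Pool.GC
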