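import Pool.Agent.GC.SStmts

/-!
# SEXT: the spectral norm on the algebraic closure
-/

set_option autoImplicit false

namespace Pool.GC

theorem sExt_proof : Stmt_SExt := by
  intro K _ P q hP
  haveI : IsUltrametricDist P.F :=
    IsUltrametricDist.isUltrametricDist_of_forall_norm_add_le_max_norm hP.2.2.1
  letI nf : NormedField (AlgebraicClosure P.F) :=
    spectralNorm.normedField P.F (AlgebraicClosure P.F)
  letI algP : Algebra P.F (AlgebraicClosure P.F) := inferInstance
  letI algK : Algebra K (AlgebraicClosure P.F) :=
    ((algebraMap P.F (AlgebraicClosure P.F)).comp (algebraMap K P.F)).toAlgebra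
  exact ⟨{
    E := AlgebraicClosure P.F
    nf := nf
    algP := algP
    algK := algK
    tower := IsScalarTower.of_algebraMap_eq fun _ => rfl
    closed := inferInstanceAs (IsAlgClosed (AlgebraicClosure P.F))
    na := fun x y => isNonarchimedean_spectralNorm (K := P.F) (L := AlgebraicClosure P.F) x y
    norm_map := fun x => spectralNorm_extends (K := P.F) (L := AlgebraicClosure P.F) x }⟩

end Pool.GC
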