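import Mathlib
import Pool.Agent.GC.Defs
import Pool.Agent.GC.Stmts
import Pool.Agent.GC.SStmts
import Pool.Agent.GC.PackC

set_option autoImplicit false

/-!
# SGAM: two points which are close at all places differ by an element of `G(K)` with trivial
diagonal
-/

namespace Pool.GC

open MvPolynomial MeasureTheory NumberField Metric

namespace SGamX

section alg

variable {K : Type} [Field K] {N : ℕ}

lemma ev_mapA {F E : Type} [Field F] [Algebra K F] [Field E] [Algebra K E] (i : F →ₐ[K] E)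
    (p : MvPolynomial (Fin N × Fin N) K) (g : Matrix (Fin N) (Fin N) F) :
    ev p (g.map i) = i (ev p g) := by
  unfold ev
  rw [← AlgHom.comp_apply, MvPolynomial.comp_aeval]
  rfl

lemma pts_map {I : Set (MvPolynomial (Fin N × Fin N) K)} {F E : Type} [Field F] [Algebra K F]
    [Field E] [Algebra K E] (i : F →ₐ[K] E) {g : Matrix (Fin N) (Fin N) F} :
    g.map i ∈ pts I E ↔ g ∈ pts I F := by
  constructor
  · intro h p hp
    have := h p hp
    rw [ev_mapA] at this
    exact (map_eq_zero_iff i i.injective).1 this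
  · intro h p hp
    rw [ev_mapA, h p hp, map_zero]

lemma vm_map {F E : Type} [Field F] [Algebra K F] [Field E] [Algebra K E] (i : F →ₐ[K] E)
    (x : Fin N → K) : vm E x = i ∘ (vm F x) := by
  funext j
  simp [vm]

lemma mulVec_map {F E : Type} [Field F] [Algebra K F] [Field E] [Algebra K E] (i : F →ₐ[K] E)
    (g : Matrix (Fin N) (Fin N) F) (u : Fin N → F) :
    (g.map i).mulVec (i ∘ u) = i ∘ (g.mulVec u) := by
  funext j
  exact (RingHom.map_mulVec (i : F →+* E) g u j).symm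

lemma line_map {F E : Type} [Field F] [Algebra K F] [Field E] [Algebra K E] (i : F →ₐ[K] E)
    {g : Matrix (Fin N) (Fin N) F} {x x' : Fin N → K} {s : F}
    (h : g.mulVec (vm F x) = s • vm F x') : (g.map i).mulVec (vm E x) = i s • vm E x' := by
  rw [vm_map i x, mulVec_map, h, vm_map i x']
  funext j
  simp

/-- diagonal of a product of triangular matrices -/
lemma diag_mul {F : Type} [Field F] (g h : Matrix (Fin N) (Fin N) F)
    (hg : ∀ i j, j < i → g i j = 0) (hh : ∀ i j, j < i → h i j = 0) (k : Fin N) :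
    (g * h) k k = g k k * h k k := by
  rw [Matrix.mul_apply]
  refine Finset.sum_eq_single k ?_ ?_
  · intro j _ hj
    rcases lt_or_gt_of_ne hj with h1 | h1
    · rw [hg k j h1, zero_mul]
    · rw [hh j k h1, mul_zero]
  · intro h1
    exact absurd (Finset.mem_univ k) h1

lemma line_div {I : Set (MvPolynomial (Fin N × Fin N) K)} (hI : IsGroup I)
    {F : Type} [Field F] [Algebra K F] {c₁ c₂ : Matrix (Fin N) (Fin N) F} (h₁ : c₁ ∈ pts I F)
    {x x' : Fin N → K} {s₁ s₂ : F} (hs₁ : s₁ ≠ 0)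
    (e₁ : c₁.mulVec (vm F x) = s₁ • vm F x') (e₂ : c₂.mulVec (vm F x) = s₂ • vm F x') :
    (c₁.adjugate * c₂).mulVec (vm F x) = (s₂ * s₁⁻¹) • vm F x := by
  have h3 : c₁.adjugate.mulVec (s₁ • vm F x') = vm F x := by
    rw [← e₁, Matrix.mulVec_mulVec, Matrix.adjugate_mul, hI.det F c₁ h₁, one_smul,
      Matrix.one_mulVec]
  rw [← Matrix.mulVec_mulVec, e₂]
  have h4 : s₂ • vm F x' = (s₂ * s₁⁻¹) • (s₁ • vm F x') := by
    rw [smul_smul, mul_assoc, inv_mul_cancel₀ hs₁, mul_one]
  rw [h4, Matrix.mulVec_smul, h3]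

/-- two elements with the same effect -/
lemma two {I : Set (MvPolynomial (Fin N × Fin N) K)} (hI : IsGroup I) (hT : Triangular I)
    {n : ℕ} {x x' : Fin N → K} {F : Type} [Field F] [Algebra K F]
    (hS : ∀ s : Matrix (Fin N) (Fin N) F, s ∈ pts I F → ∀ c : F,
      s.mulVec (vm F x) = c • vm F x →
      s ^ n = 1 ∧ (∀ k, s k k ^ n = 1) ∧ ((∀ k, s k k = 1) → s = 1))
    {c₁ c₂ : Matrix (Fin N) (Fin N) F} (h₁ : c₁ ∈ pts I F) (h₂ : c₂ ∈ pts I F)
    {s₁ s₂ : F} (hs₁ : s₁ ≠ 0)
    (e₁ : c₁.mulVec (vm F x) = s₁ • vm F x') (e₂ : c₂.mulVec (vm F x) = s₂ • vm F x') :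
    (∀ k, c₁ k k ^ n = c₂ k k ^ n) ∧ ((∀ k, c₁ k k = c₂ k k) → c₁ = c₂) := by
  have hadj : c₁.adjugate ∈ pts I F := hI.inv F _ h₁
  have hm : c₁.adjugate * c₂ ∈ pts I F := hI.mul F _ _ hadj h₂
  have hcc : c₁.adjugate * c₁ = 1 := by
    rw [Matrix.adjugate_mul, hI.det F c₁ h₁, one_smul]
  have hcc' : c₁ * c₁.adjugate = 1 := by
    rw [Matrix.mul_adjugate, hI.det F c₁ h₁, one_smul]
  obtain ⟨-, h4, h5⟩ := hS _ hm _ (line_div hI h₁ hs₁ e₁ e₂)
  have hd1 : ∀ k, c₁.adjugate k k * c₁ k k = 1 := by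
    intro k
    rw [← diag_mul _ _ (hT F _ hadj) (hT F _ h₁) k, hcc, Matrix.one_apply_eq]
  have hd2 : ∀ k, (c₁.adjugate * c₂) k k = c₁.adjugate k k * c₂ k k := fun k =>
    diag_mul _ _ (hT F _ hadj) (hT F _ h₂) k
  constructor
  · intro k
    have h6 := h4 k
    rw [hd2, mul_pow] at h6
    have h7 : c₁.adjugate k k ^ n * c₁ k k ^ n = 1 := by
      rw [← mul_pow, hd1, one_pow]
    have h8 : c₁.adjugate k k ^ n ≠ 0 := left_ne_zero_of_mul_eq_one h7
    exact mul_left_cancel₀ h8 (h7.trans h6.symm)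
  · intro h6
    have h7 : c₁.adjugate * c₂ = 1 := by
      apply h5
      intro k
      rw [hd2, ← h6 k, hd1]
    calc c₁ = c₁ * (c₁.adjugate * c₂) := by rw [h7, Matrix.mul_one]
      _ = c₂ := by rw [← Matrix.mul_assoc, hcc', Matrix.one_mul]

end alg

section norms

variable {F : Type} [NormedField F]

lemma pow_close (t : F) (n : ℕ) (ε : ℝ) (hε : ‖t - 1‖ ≤ ε) :
    ‖t ^ n - 1‖ ≤ (1 + ε) ^ n - 1 := by
  have hε0 : 0 ≤ ε := le_trans (norm_nonneg _) hε
  induction n with
  | zero => simp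
  | succ m ih =>
    have h1 : t ^ (m + 1) - 1 = (t ^ m - 1) * t + (t - 1) := by ring
    have ht : ‖t‖ ≤ 1 + ε := by
      calc ‖t‖ = ‖1 + (t - 1)‖ := by ring_nf
        _ ≤ ‖(1 : F)‖ + ‖t - 1‖ := norm_add_le _ _
        _ ≤ 1 + ε := by rw [norm_one]; linarith
    have h2 : 0 ≤ (1 + ε) ^ m - 1 := by
      have := one_le_pow₀ (M₀ := ℝ) (a := 1 + ε) (by linarith) (n := m)
      linarith
    calc ‖t ^ (m + 1) - 1‖ = ‖(t ^ m - 1) * t + (t - 1)‖ := by rw [h1]
      _ ≤ ‖(t ^ m - 1) * t‖ + ‖t - 1‖ := norm_add_le _ _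
      _ = ‖t ^ m - 1‖ * ‖t‖ + ‖t - 1‖ := by rw [norm_mul]
      _ ≤ ((1 + ε) ^ m - 1) * (1 + ε) + ε := by
          have := mul_le_mul ih ht (norm_nonneg _) h2
          linarith
      _ = (1 + ε) ^ (m + 1) - 1 := by ring

lemma pow_lt_two (n : ℕ) : (1 + 1 / (2 * (n : ℝ))) ^ n < 2 := by
  rcases Nat.eq_zero_or_pos n with h | h
  · rw [h]; norm_num
  · have hn : (0 : ℝ) < n := by exact_mod_cast h
    have h1 : (1 + 1 / (2 * (n : ℝ))) ^ n ≤ Real.exp (1 / 2) := by
      have h2 : 1 + 1 / (2 * (n : ℝ)) ≤ Real.exp (1 / (2 * (n : ℝ))) := by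
        have := Real.add_one_le_exp (1 / (2 * (n : ℝ)))
        linarith
      calc (1 + 1 / (2 * (n : ℝ))) ^ n ≤ (Real.exp (1 / (2 * (n : ℝ)))) ^ n := by
            apply pow_le_pow_left₀ _ h2
            positivity
        _ = Real.exp (n * (1 / (2 * (n : ℝ)))) := by rw [← Real.exp_nat_mul]
        _ = Real.exp (1 / 2) := by
            congr 1
            field_simp
    have h3 : Real.exp (1 / 2) < 2 := by
      have h4 : Real.exp (1 / 2) ^ 2 < 2 ^ 2 := by
        rw [← Real.exp_nat_mul]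
        have := Real.exp_one_lt_d9
        norm_num
        linarith
      exact lt_of_pow_lt_pow_left₀ 2 (by norm_num) h4
    linarith

lemma root_one (t : F) (n : ℕ) (hn : 0 < n) (hnn : ‖(n : F)‖ = n) (h1 : t ^ n = 1)
    (h2 : ‖t - 1‖ < 1 / (2 * (n : ℝ))) : t = 1 := by
  by_contra hne
  have hn' : (0 : ℝ) < n := by exact_mod_cast hn
  have ht : ‖t‖ = 1 := by
    have h3 : ‖t‖ ^ n = 1 := by rw [← norm_pow, h1, norm_one]
    exact (pow_eq_one_iff_of_nonneg (norm_nonneg t) hn.ne').1 h3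
  have hpow : ∀ j : ℕ, ‖1 - t ^ j‖ ≤ j * ‖t - 1‖ := by
    intro j
    induction j with
    | zero => simp
    | succ m ih =>
      have h3 : 1 - t ^ (m + 1) = (1 - t ^ m) + t ^ m * (1 - t) := by ring
      calc ‖1 - t ^ (m + 1)‖ = ‖(1 - t ^ m) + t ^ m * (1 - t)‖ := by rw [h3]
        _ ≤ ‖1 - t ^ m‖ + ‖t ^ m * (1 - t)‖ := norm_add_le _ _
        _ = ‖1 - t ^ m‖ + ‖t - 1‖ := by
            rw [norm_mul, norm_pow, ht, one_pow, one_mul, norm_sub_rev 1 t]
        _ ≤ m * ‖t - 1‖ + ‖t - 1‖ := by linarith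
        _ = ((m + 1 : ℕ) : ℝ) * ‖t - 1‖ := by push_cast; ring
  have hg : ∑ j ∈ Finset.range n, t ^ j = 0 := by
    have h3 := geom_sum_mul t n
    rw [h1, sub_self] at h3
    rcases mul_eq_zero.1 h3 with h4 | h4
    · exact h4
    · exact absurd (sub_eq_zero.1 h4) hne
  have h5 : (n : F) = ∑ j ∈ Finset.range n, (1 - t ^ j) := by
    rw [Finset.sum_sub_distrib, hg, sub_zero]
    simp
  have h6 : (n : ℝ) ≤ ∑ j ∈ Finset.range n, (n : ℝ) * ‖t - 1‖ := by
    calc (n : ℝ) = ‖(n : F)‖ := hnn.symm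
      _ = ‖∑ j ∈ Finset.range n, (1 - t ^ j)‖ := by rw [← h5]
      _ ≤ ∑ j ∈ Finset.range n, ‖1 - t ^ j‖ := norm_sum_le _ _
      _ ≤ _ := by
          refine Finset.sum_le_sum fun j hj => ?_
          refine le_trans (hpow j) ?_
          have h7 : (j : ℝ) ≤ n := by
            exact_mod_cast (Finset.mem_range.1 hj).le
          exact mul_le_mul_of_nonneg_right h7 (norm_nonneg _)
  rw [Finset.sum_const, Finset.card_range, nsmul_eq_mul] at h6
  have h8 : (n : ℝ) * ‖t - 1‖ < 1 / 2 := by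
    have := mul_lt_mul_of_pos_left h2 hn'
    have h9 : (n : ℝ) * (1 / (2 * (n : ℝ))) = 1 / 2 := by field_simp
    linarith
  nlinarith

end norms

section main

variable {K : Type} [Field K] {N : ℕ}

/-- lifts of `[x]` -/
lemma lift_line {I : Set (MvPolynomial (Fin N × Fin N) K)} (hI : IsGroup I)
    {v₀ x x' : Fin N → K} {g g' : Matrix (Fin N) (Fin N) (AlgebraicClosure K)}
    {c c' : AlgebraicClosure K} (hg : g ∈ pts I (AlgebraicClosure K)) (hc' : c' ≠ 0)
    (hx : vm (AlgebraicClosure K) x = c • orb v₀ g)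
    (hx' : vm (AlgebraicClosure K) x' = c' • orb v₀ g') :
    (g' * g.adjugate).mulVec (vm (AlgebraicClosure K) x) =
      (c * c'⁻¹) • vm (AlgebraicClosure K) x' := by
  have h1 : (g' * g.adjugate).mulVec (orb v₀ g) = orb v₀ g' := by
    rw [← orb_mul', Matrix.mul_assoc, Matrix.adjugate_mul, hI.det _ g hg, one_smul,
      Matrix.mul_one]
  rw [hx, Matrix.mulVec_smul, h1, hx', smul_smul, mul_assoc, inv_mul_cancel₀ hc', mul_one]

lemma orb_mapA {F E : Type} [Field F] [Algebra K F] [Field E] [Algebra K E] (i : F →ₐ[K] E)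
    (v₀ : Fin N → K) (g : Matrix (Fin N) (Fin N) F) : orb v₀ (g.map i) = i ∘ (orb v₀ g) := by
  have := mulVec_map i g (vm F v₀)
  rw [← vm_map i v₀] at this
  exact this

/-- the equations of the transporter with trivial diagonal -/
def eqs (I : Set (MvPolynomial (Fin N × Fin N) K)) (x x' : Fin N → K) :
    Set (MvPolynomial (Fin N × Fin N) K) :=
  I ∪ Set.range (fun k : Fin N => (X (k, k) - 1 : MvPolynomial (Fin N × Fin N) K)) ∪
    Set.range (fun ij : Fin N × Fin N =>
      (∑ l, X (ij.1, l) * C (x l)) * C (x' ij.2) - (∑ l, X (ij.2, l) * C (x l)) * C (x' ij.1))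

lemma eqs_iff (I : Set (MvPolynomial (Fin N × Fin N) K)) (x x' : Fin N → K) {F : Type} [Field F]
    [Algebra K F] (a : Fin N × Fin N → F) :
    (∀ p ∈ eqs I x x', aeval a p = 0) ↔
      ((Matrix.of fun i j => a (i, j)) ∈ pts I F ∧ (∀ k, a (k, k) = 1) ∧
        ∀ i j, (Matrix.of fun i j => a (i, j)).mulVec (vm F x) i * vm F x' j =
          (Matrix.of fun i j => a (i, j)).mulVec (vm F x) j * vm F x' i) := by
  have hl : ∀ i, aeval a (∑ l, X (i, l) * C (x l) : MvPolynomial (Fin N × Fin N) K) =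
      (Matrix.of fun i j => a (i, j)).mulVec (vm F x) i := by
    intro i
    rw [map_sum]
    simp only [map_mul, aeval_X, aeval_C, Matrix.mulVec, dotProduct, Matrix.of_apply, vm]
  constructor
  · intro h
    refine ⟨?_, ?_, ?_⟩
    · intro p hp
      exact h p (Or.inl (Or.inl hp))
    · intro k
      have := h _ (Or.inl (Or.inr ⟨k, rfl⟩))
      simpa [sub_eq_zero] using this
    · intro i j
      have := h _ (Or.inr ⟨(i, j), rfl⟩)
      simp only [map_sub, map_mul, hl, aeval_C] at this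
      exact sub_eq_zero.1 this
  · rintro ⟨h1, h2, h3⟩ p hp
    rcases hp with (hp | ⟨k, rfl⟩) | ⟨⟨i, j⟩, rfl⟩
    · exact h1 p hp
    · simp [h2]
    · simp only [map_sub, map_mul, hl, aeval_C]
      exact sub_eq_zero.2 (h3 i j)

lemma line_of_cross {F : Type} [Field F] {u w : Fin N → F} (hu : u ≠ 0) (hw : w ≠ 0)
    (h : ∀ i j, u i * w j = u j * w i) : ∃ s : F, s ≠ 0 ∧ u = s • w := by
  obtain ⟨j, hj⟩ := Function.ne_iff.1 hw
  rw [Pi.zero_apply] at hj
  have h1 : u = (u j * (w j)⁻¹) • w := by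
    funext i
    rw [Pi.smul_apply, smul_eq_mul]
    have := h i j
    field_simp
    rw [this]
  refine ⟨u j * (w j)⁻¹, ?_, h1⟩
  intro h0
  rw [h0, zero_smul] at h1
  exact hu h1

lemma mulVec_ne {I : Set (MvPolynomial (Fin N × Fin N) K)} (hI : IsGroup I) {F : Type} [Field F]
    [Algebra K F] {g : Matrix (Fin N) (Fin N) F} (hg : g ∈ pts I F) {u : Fin N → F} (hu : u ≠ 0) :
    g.mulVec u ≠ 0 := by
  intro h
  apply hu
  have h1 : g.adjugate.mulVec (g.mulVec u) = u := by
    rw [Matrix.mulVec_mulVec, Matrix.adjugate_mul, hI.det F g hg, one_smul, Matrix.one_mulVec]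
  rw [← h1, h, Matrix.mulVec_zero]

lemma vm_ne {F : Type} [Field F] [Algebra K F] {x : Fin N → K} (hx : x ≠ 0) : vm F x ≠ 0 := by
  intro h
  apply hx
  funext i
  have := congrFun h i
  exact (map_eq_zero_iff _ (algebraMap K F).injective).1 this

end main

/-- main theorem, with the finiteness of the stabiliser replaced by the conclusion of SSTAB -/
theorem core (hU : Stmt_SUniq) {K : Type} [Field K] [NumberField K] {N : ℕ}
    {I : Set (MvPolynomial (Fin N × Fin N) K)} {v₀ : Fin N → K} {n : ℕ} (hI : IsGroup I)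
    (hT : Triangular I) (hn : 0 < n) {x x' : Fin N → K}
    (hS : ∀ (F : Type) [Field F] [Algebra K F] (s : Matrix (Fin N) (Fin N) F), s ∈ pts I F →
      ∀ c : F, s.mulVec (vm F x) = c • vm F x →
      s ^ n = 1 ∧ (∀ k, s k k ^ n = 1) ∧ ((∀ k, s k k = 1) → s = 1))
    (hxO : InOrb I v₀ x) (hxO' : InOrb I v₀ x')
    (hinf : ∀ w : InfinitePlace K, ∃ (P : LF K) (c : Matrix (Fin N) (Fin N) P.F) (s : P.F),
      (∀ t : K, ‖algebraMap K P.F t‖ = w t) ∧ c ∈ pts I P.F ∧ s ≠ 0 ∧
      c.mulVec (vm P.F x) = s • vm P.F x' ∧ ∀ k l, ‖(c - 1) k l‖ < 1 / (2 * (n : ℝ)))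
    (hfin : ∀ v : FinitePlace K,
      (∃ (P : LF K) (c : Matrix (Fin N) (Fin N) P.F) (s : P.F),
        (∀ t u : P.F, ‖t + u‖ ≤ max ‖t‖ ‖u‖) ∧
        (∀ t : K, ‖algebraMap K P.F t‖ = v t) ∧ c ∈ pts I P.F ∧ s ≠ 0 ∧
        c.mulVec (vm P.F x) = s • vm P.F x' ∧ ∀ k l, ‖c k l‖ ≤ 1) ∨
      (∃ (P : LF K) (X : EX K P), (∀ t : K, ‖algebraMap K P.F t‖ = v t) ∧
        X.Int I v₀ x ∧ X.Int I v₀ x')) :
    ∃ (γ : Matrix (Fin N) (Fin N) K) (s : K), γ ∈ pts I K ∧ (∀ k, γ k k = 1) ∧ s ≠ 0 ∧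
      γ.mulVec x = s • x' := by
  obtain ⟨g, c, hg, hc, hx⟩ := hxO
  obtain ⟨g', c', hg', hc', hx'⟩ := hxO'
  change vm (AlgebraicClosure K) x = c • orb v₀ g at hx
  change vm (AlgebraicClosure K) x' = c' • orb v₀ g' at hx'
  set p := g' * g.adjugate with hp
  have hpm : p ∈ pts I (AlgebraicClosure K) := hI.mul _ _ _ hg' (hI.inv _ _ hg)
  have hs0 : c * c'⁻¹ ≠ 0 := mul_ne_zero hc (inv_ne_zero hc')
  have hpl : p.mulVec (vm (AlgebraicClosure K) x) = (c * c'⁻¹) • vm (AlgebraicClosure K) x' :=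
    lift_line hI hg hc' hx hx'
  -- the characters are rational
  have hρ : ∀ k, ∃ ρ : K, algebraMap K (AlgebraicClosure K) ρ = p k k ^ n := by
    intro k
    have h1 : p k k ^ n ∈ Set.range (algebraMap K (AlgebraicClosure K)) := by
      rw [InfiniteGalois.mem_range_algebraMap_iff_fixed]
      intro σ
      have h2 : p.map σ ∈ pts I (AlgebraicClosure K) :=
        (pts_map (σ : AlgebraicClosure K →ₐ[K] AlgebraicClosure K)).2 hpm
      have h3 := line_map (σ : AlgebraicClosure K →ₐ[K] AlgebraicClosure K) hpl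
      have h4 := (two hI hT (hS _) hpm h2 hs0 hpl h3).1 k
      calc σ (p k k ^ n) = (σ (p k k)) ^ n := map_pow _ _ _
        _ = p k k ^ n := h4.symm
    exact h1
  choose ρ hρ using hρ
  -- comparison with elements over extensions
  have hcomp : ∀ (E : Type) [Field E] [Algebra K E] (i : AlgebraicClosure K →ₐ[K] E)
      (a : Matrix (Fin N) (Fin N) E) (s : E), a ∈ pts I E → s ≠ 0 →
      a.mulVec (vm E x) = s • vm E x' → ∀ k, a k k ^ n = algebraMap K E (ρ k) := by
    intro E _ _ i a s ha hs h k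
    have h2 : p.map i ∈ pts I E := (pts_map i).2 hpm
    have h3 := line_map i hpl
    have h4 := (two hI hT (hS _) ha h2 hs h h3).1 k
    rw [h4, Matrix.map_apply, ← map_pow, ← hρ k, AlgHom.commutes]
  have hcompP : ∀ (P : LF K) (a : Matrix (Fin N) (Fin N) P.F) (s : P.F), a ∈ pts I P.F →
      s ≠ 0 → a.mulVec (vm P.F x) = s • vm P.F x' →
      ∀ k, a k k ^ n = algebraMap K P.F (ρ k) := by
    intro P a s ha hs h k
    let j : P.F →ₐ[K] AlgebraicClosure P.F := IsScalarTower.toAlgHom K P.F _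
    have h1 := hcomp (AlgebraicClosure P.F) IsAlgClosed.lift (a.map j) (j s) ((pts_map j).2 ha)
      ((map_ne_zero_iff j j.injective).2 hs) (line_map j h) k
    rw [Matrix.map_apply, ← map_pow, ← AlgHom.commutes j] at h1
    exact j.injective h1
  have hρ1 : ∀ k, ρ k = 1 := by
    intro k
    rw [← sub_eq_zero]
    refine discrete _ ?_ ?_
    · intro v
      rcases hfin v with ⟨P, a, s, hna, hP, ha, hs, hl, hle⟩ | ⟨P, X, hP, hX, hX'⟩
      · rw [← hP, map_sub, ← hcompP P a s ha hs hl k, map_one]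
        have h1 : a k k ∈ intR P.F hna := hle k k
        exact Subring.sub_mem _ (Subring.pow_mem _ h1 n) (Subring.one_mem _)
      · have := X.closed
        let i : AlgebraicClosure K →ₐ[K] X.E := IsAlgClosed.lift
        have e1 : vm X.E x = i c • orb v₀ (g.map i) := by
          rw [vm_map i x, hx, orb_mapA]
          funext l
          simp
        have e2 : vm X.E x' = i c' • orb v₀ (g'.map i) := by
          rw [vm_map i x', hx', orb_mapA]
          funext l
          simp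
        have h1 : ∀ k l, (g.map i) k l ∈ intR X.E X.na :=
          hX _ ((pts_map i).2 hg) _ ((map_ne_zero_iff i i.injective).2 hc) e1
        have h2 : ∀ k l, (g'.map i) k l ∈ intR X.E X.na :=
          hX' _ ((pts_map i).2 hg') _ ((map_ne_zero_iff i i.injective).2 hc') e2
        have h3 : p.map i = g'.map i * (g.map i).adjugate := by
          rw [hp]
          have h4 : (g' * g.adjugate).map i = g'.map i * (g.adjugate).map i :=
            Matrix.map_mul (f := (i : AlgebraicClosure K →+* X.E))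
          have h5 : (g.adjugate).map i = (g.map i).adjugate :=
            RingHom.map_adjugate (i : AlgebraicClosure K →+* X.E) g
          rw [h4, h5]
        have h6 : (p.map i) k k ∈ intR X.E X.na := by
          rw [h3]
          exact mul_mem_sub _ _ _ h2 (adj_mem_sub _ _ h1) k k
        have h7 : algebraMap K X.E (ρ k) = (p.map i) k k ^ n := by
          rw [Matrix.map_apply, ← map_pow, ← hρ k, AlgHom.commutes]
        rw [← hP, ← X.norm_map, ← IsScalarTower.algebraMap_apply, map_sub, h7, map_one]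
        exact Subring.sub_mem _ (Subring.pow_mem _ h6 n) (Subring.one_mem _)
    · intro w
      obtain ⟨P, a, s, hP, ha, hs, hl, hlt⟩ := hinf w
      rw [← hP, map_sub, ← hcompP P a s ha hs hl k, map_one]
      have h1 := hlt k k
      rw [Matrix.sub_apply, Matrix.one_apply_eq] at h1
      have h2 := pow_close (a k k) n _ h1.le
      have h3 := pow_lt_two n
      linarith
  -- an infinite place
  obtain ⟨w⟩ : Nonempty (InfinitePlace K) := inferInstance
  obtain ⟨P, a, s, hP, ha, hs, hl, hlt⟩ := hinf w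
  have hnn : ‖(n : P.F)‖ = n := by
    have h1 := hP (n : K)
    rw [map_natCast] at h1
    rw [h1, ← InfinitePlace.norm_embedding_eq]
    simp
  have hd : ∀ k, a k k = 1 := by
    intro k
    refine root_one (a k k) n hn hnn ?_ ?_
    · rw [hcompP P a s ha hs hl k, hρ1, map_one]
    · have h1 := hlt k k
      rwa [Matrix.sub_apply, Matrix.one_apply_eq] at h1
  by_cases hv0 : v₀ = 0
  · -- degenerate case
    have hz : ∀ (g : Matrix (Fin N) (Fin N) (AlgebraicClosure K)), orb v₀ g = 0 := by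
      intro g
      rw [hv0]
      unfold orb
      have : (fun i => algebraMap K (AlgebraicClosure K) ((0 : Fin N → K) i)) = 0 := by
        funext i
        simp
      rw [this, Matrix.mulVec_zero]
    have hx0 : x = 0 := by
      by_contra h
      exact vm_ne (F := AlgebraicClosure K) h (by rw [hx, hz, smul_zero])
    have hx0' : x' = 0 := by
      by_contra h
      exact vm_ne (F := AlgebraicClosure K) h (by rw [hx', hz, smul_zero])
    refine ⟨1, 1, hI.one, fun k => Matrix.one_apply_eq k, one_ne_zero, ?_⟩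
    rw [hx0, hx0', Matrix.mulVec_zero, smul_zero]
  · have hone : ∀ (g : Matrix (Fin N) (Fin N) (AlgebraicClosure K)),
        g ∈ pts I (AlgebraicClosure K) → orb v₀ g ≠ 0 := fun g hg =>
      mulVec_ne hI hg (vm_ne hv0)
    have hxne : x ≠ 0 := by
      intro h
      have h1 : vm (AlgebraicClosure K) x = 0 := by
        rw [h]
        funext i
        simp [vm]
      rw [h1] at hx
      exact (smul_ne_zero hc (hone g hg)) hx.symm
    have hxne' : x' ≠ 0 := by
      intro h
      have h1 : vm (AlgebraicClosure K) x' = 0 := by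
        rw [h]
        funext i
        simp [vm]
      rw [h1] at hx'
      exact (smul_ne_zero hc' (hone g' hg')) hx'.symm
    have huniq : ∀ (F : Type) [Field F] [Algebra K F] (a b : Fin N × Fin N → F),
        (∀ p ∈ eqs I x x', aeval a p = 0) → (∀ p ∈ eqs I x x', aeval b p = 0) → a = b := by
      intro F _ _ a b h1 h2
      obtain ⟨a1, a2, a3⟩ := (eqs_iff I x x' a).1 h1
      obtain ⟨b1, b2, b3⟩ := (eqs_iff I x x' b).1 h2
      obtain ⟨s₁, hs₁, e₁⟩ := line_of_cross (mulVec_ne hI a1 (vm_ne hxne)) (vm_ne hxne') a3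
      obtain ⟨s₂, hs₂, e₂⟩ := line_of_cross (mulVec_ne hI b1 (vm_ne hxne)) (vm_ne hxne') b3
      have h3 := (two hI hT (hS F) a1 b1 hs₁ e₁ e₂).2 (by
        intro k
        rw [Matrix.of_apply, Matrix.of_apply, a2, b2])
      funext ⟨i, j⟩
      exact congrFun (congrFun h3 i) j
    have hsol : ∀ q ∈ eqs I x x', aeval (fun ij : Fin N × Fin N => a ij.1 ij.2) q = 0 := by
      rw [eqs_iff]
      refine ⟨ha, hd, ?_⟩
      intro i j
      have h1 : (Matrix.of fun i j => a i j).mulVec (vm P.F x) = s • vm P.F x' := hl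
      rw [h1, Pi.smul_apply, Pi.smul_apply, smul_eq_mul, smul_eq_mul]
      ring
    obtain ⟨a₀, ha₀⟩ := hU K (Fin N × Fin N) (eqs I x x') huniq P.F _ hsol
    have hsol0 : ∀ q ∈ eqs I x x', aeval a₀ q = 0 := by
      intro q hq
      have h1 := hsol q hq
      rw [ha₀] at h1
      have h2 : aeval (fun i => algebraMap K P.F (a₀ i)) q = algebraMap K P.F (aeval a₀ q) := by
        exact MvPolynomial.aeval_algebraMap_apply P.F a₀ q
      rw [h2] at h1
      exact (map_eq_zero_iff _ (algebraMap K P.F).injective).1 h1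
    obtain ⟨a1, a2, a3⟩ := (eqs_iff I x x' a₀).1 hsol0
    obtain ⟨s₁, hs₁, e₁⟩ := line_of_cross (mulVec_ne hI a1 (vm_ne hxne)) (vm_ne hxne') a3
    exact ⟨_, s₁, a1, a2, hs₁, e₁⟩

end SGamX

/-- SGAM -/
theorem sGam_proof (hSt : Stmt_SStab) (hU : Stmt_SUniq) : Stmt_SGam := by
  intro K _ _ N I v₀ n hI hT hF x x' hx hx' hinf hfin
  exact SGamX.core hU hI hT hF.1 (fun F _ _ => (hSt K N I v₀ n hI hT hF x hx F).1) hx hx' hinf hfin

end Pool.GC
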