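import Pool.Agent.GC.SStmts
import Pool.Agent.GC.IntG

set_option autoImplicit false

/-! Module SIntG: at almost all places where the point is integral nothing happens. -/

namespace Pool.GC

open MvPolynomial NumberField

namespace SIntGX

section

variable {E : Type} [NormedField E]

theorem sum_le (na : ∀ x y : E, ‖x + y‖ ≤ max ‖x‖ ‖y‖) {M : ℝ} (hM : 0 ≤ M) {ι : Type}
    (s : Finset ι) (f : ι → E) (h : ∀ j ∈ s, ‖f j‖ ≤ M) : ‖∑ j ∈ s, f j‖ ≤ M := by
  classical
  induction s using Finset.induction_on with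
  | empty => simpa using hM
  | insert a s ha ih =>
    rw [Finset.sum_insert ha]
    refine (na _ _).trans (max_le (h a (Finset.mem_insert_self a s)) ?_)
    exact ih fun j hj => h j (Finset.mem_insert_of_mem hj)

/-- the valuation ring -/
def O (na : ∀ x y : E, ‖x + y‖ ≤ max ‖x‖ ‖y‖) : Subring E where
  carrier := {x | ‖x‖ ≤ 1}
  mul_mem' {a b} ha hb := by
    simp only [Set.mem_ofPred_eq] at *
    rw [norm_mul]
    exact mul_le_one₀ ha (norm_nonneg b) hb
  one_mem' := by simp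
  add_mem' {a b} ha hb := by
    simp only [Set.mem_ofPred_eq] at *
    exact (na _ _).trans (max_le ha hb)
  zero_mem' := by simp
  neg_mem' {a} ha := by
    simp only [Set.mem_ofPred_eq] at *
    rw [norm_neg]; exact ha

variable (na : ∀ x y : E, ‖x + y‖ ≤ max ‖x‖ ‖y‖)

theorem mem_O (x : E) : x ∈ O na ↔ ‖x‖ ≤ 1 := Iff.rfl

theorem det_mem {n : ℕ} (A : Matrix (Fin n) (Fin n) E)
    (h : ∀ i j, A i j ∈ O na) : A.det ∈ O na := by
  rw [Matrix.det_apply]
  refine Subring.sum_mem _ fun σ _ => ?_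
  rw [Units.smul_def]
  exact zsmul_mem (Subring.prod_mem _ fun i _ => h _ _) _

theorem adj_mem {n : ℕ} (A : Matrix (Fin n) (Fin n) E)
    (h : ∀ i j, A i j ∈ O na) (i j : Fin n) : A.adjugate i j ∈ O na := by
  rw [Matrix.adjugate_apply]
  refine det_mem na _ fun k l => ?_
  rw [Matrix.updateRow_apply]
  split_ifs
  · rw [Pi.single_apply]; split_ifs
    · exact Subring.one_mem _
    · exact Subring.zero_mem _
  · exact h _ _

end

section

variable {K : Type} [Field K] {N d : ℕ}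

/-- Plücker coordinates commute with extension of the field. -/
theorem plk_vm (ξ : Fin d → Matrix (Fin N) (Fin N) K) (E : Type) [Field E] [Algebra K E]
    (x : Fin N → K) (J : Fin (d + 1) → Fin N) :
    plk ξ (vm E x) J = algebraMap K E (plk ξ x J) := by
  unfold plk
  rw [RingHom.map_det]
  congr 1
  ext a b
  simp only [Matrix.of_apply, RingHom.mapMatrix_apply, Matrix.map_apply]
  refine Fin.cases ?_ (fun c => ?_) b
  · simp [vm]
  · simp [vm, Matrix.mulVec, dotProduct, map_sum, map_mul]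

/-- Plücker coordinates are homogeneous. -/
theorem plk_smul (ξ : Fin d → Matrix (Fin N) (Fin N) K) {E : Type} [Field E] [Algebra K E]
    (c : E) (u : Fin N → E) (J : Fin (d + 1) → Fin N) :
    plk ξ (c • u) J = c ^ (d + 1) * plk ξ u J := by
  unfold plk
  have : (Matrix.of fun a b : Fin (d + 1) =>
      Fin.cases (motive := fun _ => E) ((c • u) (J a))
        (fun k : Fin d => ((ξ k).map (algebraMap K E)).mulVec (c • u) (J a)) b) =
      c • (Matrix.of fun a b : Fin (d + 1) =>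
      Fin.cases (motive := fun _ => E) (u (J a))
        (fun k : Fin d => ((ξ k).map (algebraMap K E)).mulVec u (J a)) b) := by
    ext a b
    refine Fin.cases ?_ (fun k => ?_) b
    · simp
    · simp [Matrix.mulVec_smul]
  rw [this, Matrix.det_smul, Fintype.card_fin]

end

end SIntGX

open SIntGX in
theorem sIntG_proof (hP : Stmt_PAct) : Stmt_SIntG := by
  classical
  intro K _ _ N d I ξ v₀ hI hξ hne
  obtain ⟨l, hl⟩ := hP K N d I ξ hI hξ
  obtain ⟨S1, hS1⟩ := IntGX.finite_bad v₀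
  obtain ⟨S2, hS2⟩ := IntGX.finite_bad (fun J => plk ξ (fun i => v₀ i) J)
  obtain ⟨S3, hS3⟩ := IntGX.finite_bad (fun x : Fin d × (Fin N × Fin N) => l x.1 x.2)
  obtain ⟨S4, hS4⟩ := IntGX.finite_bad (fun x : Fin d × (Fin N × Fin N) => ξ x.1 x.2.1 x.2.2)
  obtain ⟨J₀, hJ₀⟩ := Function.ne_iff.1 hne
  have hv0 : ∃ i, v₀ i ≠ 0 := by
    by_contra hcon
    push Not at hcon
    apply hJ₀
    have : (fun i => v₀ i) = fun _ => (0 : K) := funext hcon
    rw [this]
    show plk ξ (fun _ => (0 : K)) J₀ = 0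
    unfold plk
    exact Matrix.det_eq_zero_of_column_eq_zero 0 (fun i => rfl)
  obtain ⟨i₀, hi₀⟩ := hv0
  refine ⟨S1 ∪ S2 ∪ S3 ∪ S4, ?_⟩
  intro v hv P hPv X x hx hint
  simp only [Finset.mem_union, not_or] at hv
  obtain ⟨⟨⟨h1, h2⟩, h3⟩, h4⟩ := hv
  have na := X.na
  have hnorm : ∀ t : K, ‖algebraMap K X.E t‖ = v t := by
    intro t
    rw [IsScalarTower.algebraMap_apply K P.F X.E, X.norm_map, hPv]
  -- the lift
  obtain ⟨g₁, c₁, hg₁, hc₁, hx₁⟩ := hx
  have := X.closed
  let f : AlgebraicClosure K →ₐ[K] X.E := IsAlgClosed.lift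
  set g : Matrix (Fin N) (Fin N) X.E := g₁.map f with hgdef
  set c : X.E := f c₁ with hcdef
  have hg : g ∈ pts I X.E := by
    intro p hp
    have := hg₁ p hp
    have e : ev p g = f (ev p g₁) := by
      exact (MvPolynomial.comp_aeval_apply (f := fun ij : Fin N × Fin N => g₁ ij.1 ij.2) f p).symm
    rw [e, this, map_zero]
  have hc : c ≠ 0 := by
    rw [hcdef]
    exact (map_ne_zero f).2 hc₁
  have hxc : vm X.E x = c • orb v₀ g := by
    funext i
    have e := congrFun hx₁ i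
    have e2 := congrArg f e
    simp only [Pi.smul_apply, smul_eq_mul, map_mul, AlgHom.commutes] at e2
    simp only [vm, Pi.smul_apply, smul_eq_mul]
    rw [e2]
    congr 1
    simp only [orb, Matrix.mulVec, dotProduct, map_sum, map_mul, AlgHom.commutes, hgdef,
      Matrix.map_apply]
  have hgi : ∀ i j, ‖g i j‖ ≤ 1 := hint g hg c hc hxc
  have hdet := hI.det X.E g hg
  set w : Fin N → X.E := fun i => algebraMap K X.E (v₀ i) with hw
  have horb : orb v₀ g = g.mulVec w := rfl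
  have hback : g.adjugate.mulVec (g.mulVec w) = w := by
    rw [Matrix.mulVec_mulVec, Matrix.adjugate_mul, hdet, one_smul, Matrix.one_mulVec]
  have hNE : Nonempty (Fin N) := ⟨i₀⟩
  have hNE2 : Nonempty (Fin (d + 1) → Fin N) := ⟨J₀⟩
  have key : ∀ (g : Matrix (Fin N) (Fin N) X.E), g ∈ pts I X.E → (∀ i j, g i j ∈ O na) →
      ∀ (u : Fin N → X.E) (M : ℝ), 0 ≤ M → (∀ J, ‖plk ξ u J‖ ≤ M) →
      ∀ J, ‖plk ξ (g.mulVec u) J‖ ≤ M := by
    intro g hg hgi u M hM hu J
    rw [hl X.E g hg u J, norm_mul]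
    have e1 : (Matrix.of fun b c : Fin d => ∑ ij : Fin N × Fin N, algebraMap K X.E (l b ij) *
        (g.adjugate * (ξ c).map (algebraMap K X.E) * g) ij.1 ij.2).det ∈ O na := by
      refine det_mem na _ fun b c => ?_
      simp only [Matrix.of_apply]
      refine Subring.sum_mem _ fun ij _ => Subring.mul_mem _ ?_ ?_
      · rw [mem_O, hnorm]; exact (hS3 v h3 (b, ij)).1
      rw [Matrix.mul_apply]
      refine Subring.sum_mem _ fun k _ => Subring.mul_mem _ ?_ (hgi _ _)
      rw [Matrix.mul_apply]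
      refine Subring.sum_mem _ fun k' _ => Subring.mul_mem _ (adj_mem na g hgi _ _) ?_
      rw [Matrix.map_apply, mem_O, hnorm]
      exact (hS4 v h4 (c, (k', k))).1
    have e2 : ‖∑ J' : Fin (d + 1) → Fin N, (∏ a, g (J a) (J' a)) * plk ξ u J'‖ ≤ M := by
      refine sum_le na hM _ _ fun J' _ => ?_
      rw [norm_mul]
      have e3 : ‖∏ a, g (J a) (J' a)‖ ≤ 1 := Subring.prod_mem (O na) fun a _ => hgi _ _
      calc ‖∏ a, g (J a) (J' a)‖ * ‖plk ξ u J'‖ ≤ 1 * M :=
            mul_le_mul e3 (hu J') (norm_nonneg _) zero_le_one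
        _ = M := one_mul M
    calc _ ≤ 1 * M := mul_le_mul e1 e2 (norm_nonneg _) zero_le_one
      _ = M := one_mul M
  have hadj : ∀ i j, g.adjugate i j ∈ O na := adj_mem na g hgi
  have hw1 : ∀ i, ‖w i‖ ≤ 1 := fun i => by rw [hw]; simp only [hnorm]; exact (hS1 v h1 i).1
  have hw2 : ‖w i₀‖ = 1 := by rw [hw]; simp only [hnorm]; exact (hS1 v h1 i₀).2 hi₀
  have hpw : ∀ J, plk ξ w J = algebraMap K X.E (plk ξ v₀ J) := fun J => plk_vm ξ X.E v₀ J
  have hu1 : ∀ i, ‖g.mulVec w i‖ ≤ 1 := by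
    intro i
    rw [Matrix.mulVec, dotProduct]
    exact Subring.sum_mem (O na) fun j _ => Subring.mul_mem _ (hgi i j) (hw1 j)
  have hu2 : ∃ i, ‖g.mulVec w i‖ = 1 := by
    by_contra hcon
    push Not at hcon
    have hlt : ∀ i, ‖g.mulVec w i‖ < 1 := fun i => lt_of_le_of_ne (hu1 i) (hcon i)
    obtain ⟨i₁, hi₁⟩ := Finite.exists_max fun i => ‖g.mulVec w i‖
    have : ‖w i₀‖ ≤ ‖g.mulVec w i₁‖ := by
      conv_lhs => rw [← hback]
      rw [Matrix.mulVec, dotProduct]
      refine sum_le na (norm_nonneg _) _ _ fun j _ => ?_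
      rw [norm_mul]
      calc ‖g.adjugate i₀ j‖ * ‖g.mulVec w j‖ ≤ 1 * ‖g.mulVec w i₁‖ :=
            mul_le_mul (hadj i₀ j) (hi₁ j) (norm_nonneg _) zero_le_one
        _ = _ := one_mul _
    rw [hw2] at this
    exact absurd (hlt i₁) (not_lt.2 this)
  have hp1 : ∀ J, ‖plk ξ (g.mulVec w) J‖ ≤ 1 := by
    refine key g hg hgi w 1 zero_le_one fun J => ?_
    rw [hpw, hnorm]
    exact (hS2 v h2 J).1
  have hp2 : ∃ J, ‖plk ξ (g.mulVec w) J‖ = 1 := by
    by_contra hcon
    push Not at hcon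
    have hlt : ∀ J, ‖plk ξ (g.mulVec w) J‖ < 1 := fun J => lt_of_le_of_ne (hp1 J) (hcon J)
    obtain ⟨J₁, hJ₁⟩ := Finite.exists_max fun J => ‖plk ξ (g.mulVec w) J‖
    have e := key g.adjugate (hI.inv X.E g hg) hadj (g.mulVec w) _ (norm_nonneg _) hJ₁ J₀
    rw [hback, hpw, hnorm] at e
    have e2 : v (plk ξ v₀ J₀) = 1 := (hS2 v h2 J₀).2 hJ₀
    rw [e2] at e
    exact absurd (hlt J₁) (not_lt.2 e)
  have hxn : ∀ i, v (x i) = ‖c‖ * ‖g.mulVec w i‖ := by
    intro i
    rw [← hnorm, ← norm_mul]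
    congr 1
    exact congrFun hxc i
  have hpn : ∀ J, v (plk ξ x J) = ‖c‖ ^ (d + 1) * ‖plk ξ (g.mulVec w) J‖ := by
    intro J
    rw [← hnorm, ← plk_vm, hxc, plk_smul, norm_mul, norm_pow, horb]
  have r1 : (⨆ i, v (x i)) = ‖c‖ := by
    apply le_antisymm
    · refine ciSup_le fun i => ?_
      rw [hxn]
      exact mul_le_of_le_one_right (norm_nonneg _) (hu1 i)
    · obtain ⟨i, hi⟩ := hu2
      have := le_ciSup (f := fun i => v (x i)) (Set.finite_range _).bddAbove i
      rw [hxn, hi, mul_one] at this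
      exact this
  have r2 : (⨆ J, v (plk ξ x J)) = ‖c‖ ^ (d + 1) := by
    apply le_antisymm
    · refine ciSup_le fun J => ?_
      rw [hpn]
      exact mul_le_of_le_one_right (by positivity) (hp1 J)
    · obtain ⟨J, hJ⟩ := hp2
      have := le_ciSup (f := fun J => v (plk ξ x J)) (Set.finite_range _).bddAbove J
      rw [hpn, hJ, mul_one] at this
      exact this
  rw [r1, r2]

end Pool.GC
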