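import Mathlib
import Pool.Agent.GC.Defs
import Pool.Agent.GC.Stmts
import Pool.Agent.GC.Main
import Pool.Agent.GC.SStmts

set_option autoImplicit false

/-!
# Spherical varieties: assembly
-/

namespace Pool.GC

open MvPolynomial MeasureTheory NumberField Metric

open scoped LinearAlgebra.Projectivization

theorem plk_ne_zero' (hPAct : Stmt_PAct) {K : Type} [Field K] {N d : ℕ}
    {I : Set (MvPolynomial (Fin N × Fin N) K)}
    {ξ : Fin d → Matrix (Fin N) (Fin N) K} {φ : Matrix (Fin N) (Fin N) (RF K d)}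
    {v₀ : Fin N → K} {W : Submodule K (RF K d)} {κ : RF K d} {m : ℕ}
    (hI : IsGroup I) (hξ : IsLieBasis I ξ) (hφ : IsParam I φ) (hv : v₀ ≠ 0)
    (hm : 0 < m) (hQ : κ ≠ 0)
    (heff : ∀ i, IntegralOver
      (Submodule.span K (Set.range (plk ξ (orb v₀ φ))) ^ m * W)
      (κ * orb v₀ φ i ^ (m * (d + 1)))) : plk ξ (fun i => v₀ i) ≠ 0 := by
  intro h0
  obtain ⟨l, hl⟩ := hPAct K N d I ξ hI hξ
  have h1 : plk ξ (orb v₀ φ) = 0 := by
    funext J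
    have h2 := hl (RF K d) φ hφ.mem (fun i => algebraMap K (RF K d) (v₀ i)) J
    unfold orb
    rw [h2]
    have h3 : ∀ J' : Fin (d + 1) → Fin N,
        plk ξ (fun i => algebraMap K (RF K d) (v₀ i)) J' = 0 := by
      intro J'
      rw [plk_map ξ (RF K d) (fun i => v₀ i) J', h0]
      simp
    simp [h3]
  have h2 : Submodule.span K (Set.range (plk ξ (orb v₀ φ))) = ⊥ := by
    rw [Submodule.span_eq_bot]
    rintro x ⟨J, rfl⟩
    rw [h1]; rfl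
  have h3 : (Submodule.span K (Set.range (plk ξ (orb v₀ φ))) ^ m * W) = ⊥ := by
    rw [h2]
    obtain ⟨m', rfl⟩ : ∃ i, m = i + 1 := ⟨m - 1, by omega⟩
    rw [pow_succ, Submodule.mul_bot, Submodule.bot_mul]
  have h4 : ∀ i, orb v₀ φ i = 0 := by
    intro i
    have h5 := heff i
    rw [h3] at h5
    have h6 := integralOver_bot h5
    rcases mul_eq_zero.1 h6 with h7 | h7
    · exact absurd h7 hQ
    · exact pow_eq_zero_iff (by positivity) |>.1 h7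
  apply hv
  have h5 : φ.mulVec (fun i => algebraMap K (RF K d) (v₀ i)) = 0 := by
    funext i; exact h4 i
  have h6 : φ.adjugate.mulVec (φ.mulVec (fun i => algebraMap K (RF K d) (v₀ i))) = 0 := by
    rw [h5, Matrix.mulVec_zero]
  rw [Matrix.mulVec_mulVec, Matrix.adjugate_mul, hI.det _ φ hφ.mem, one_smul,
    Matrix.one_mulVec] at h6
  funext i
  have h7 := congrFun h6 i
  simpa using h7

/-- a set all of whose finite subsets have bounded product is finite -/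
lemma finite_of_prod {ι : Type} (s : Set ι) (f : ι → ℝ) (hf : ∀ i ∈ s, 2 ≤ f i) (X : ℝ)
    (h : ∀ S : Finset ι, (∀ i ∈ S, i ∈ s) → ∏ i ∈ S, f i ≤ X) : s.Finite := by
  by_contra hinf
  obtain ⟨n, hn⟩ := pow_unbounded_of_one_lt X (one_lt_two : (1 : ℝ) < 2)
  obtain ⟨S, hS, hcard⟩ := (Set.not_finite.1 hinf |> id : Set.Infinite _).exists_subset_card_eq n
  have h1 := h S fun i hi => hS hi
  have h2 : (2 : ℝ) ^ n ≤ ∏ i ∈ S, f i := by
    rw [← hcard, ← Finset.prod_const]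
    exact Finset.prod_le_prod (fun _ _ => zero_le_two) fun i hi => hf i (hS hi)
  linarith

set_option maxHeartbeats 1000000 in
theorem sMain_proof (hPAct : Stmt_PAct) (hComp : Stmt_Comp) (hSExt : Stmt_SExt)
    (hPack : Stmt_SPack) (hSum : Stmt_Sum) (hQv : Stmt_SQv) (hEff : Stmt_SEff) :
    Stmt_SMain := by
  classical
  intro K _ _ N d a e b m k n I ξ φ v₀ L Q₁ Q₂ hI hTri hξ hφ hv hfin hL hbig hm hQ₁ hQ₂
    hQ₁0 hQ₂0 heff
  have hplk := plk_ne_zero' hPAct hI hξ hφ hv hm (div_ne_zero hQ₁0 hQ₂0) heff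
  choose PF hNA habsF using hComp K
  have hXne : ∀ v, Nonempty (EX K (PF v)) := fun v => hSExt K (PF v) (qv v) (hNA v)
  let XF : ∀ v, EX K (PF v) := fun v => Classical.choice (hXne v)
  obtain ⟨S₀, C₃, hC₃, hpack⟩ := hPack K N d I ξ φ v₀ n hI hTri hξ hφ hfin hplk PF hNA
    habsF XF
  obtain ⟨R, bR, e₁, C₁, S₁, hRh, hR0, hC₁, hqv⟩ := hQv K N d a e I φ v₀ L hI hφ hL hbig
  obtain ⟨C₂, hC₂, heff'⟩ := hEff K N d a e b m k I ξ φ v₀ L Q₁ Q₂ hI hφ hv hL hQ₁ hQ₂ hQ₂0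
    heff
  obtain ⟨C₄, k₄, hC₄, hsum⟩ := hSum K C₃ hC₃
  have hmR : (0 : ℝ) < m := by exact_mod_cast hm
  -- the constant for the places in `S₁`
  set M₁ : ℝ := C₁ * ∏ v ∈ S₁, (qv v : ℝ) with hM₁
  have hprod1 : ∀ S : Finset (FinitePlace K), 1 ≤ ∏ v ∈ S, (qv v : ℝ) := by
    intro S
    have : ∏ v ∈ S, (1 : ℝ) ≤ ∏ v ∈ S, (qv v : ℝ) :=
      Finset.prod_le_prod (fun _ _ => zero_le_one) fun v _ => one_le_qv v
    simpa using this
  have hM₁1 : 1 ≤ M₁ := by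
    have := hprod1 S₁
    rw [hM₁]
    nlinarith
  have hlogC₁ : 0 ≤ Real.log M₁ := Real.log_nonneg hM₁1
  -- bad places
  have hbadprod : ∀ p : ℙ K (Fin N → K), InOrb I v₀ p.rep → eval p.rep R ≠ 0 →
      ∀ S : Finset (FinitePlace K), (∀ v ∈ S, ¬ (XF v).Int I v₀ p.rep) →
      ∏ v ∈ S, (qv v : ℝ) ≤ M₁ * Height.mulHeight (fun j => eval p.rep (L j)) ^ e₁ := by
    intro p hp hpR S hS
    have h1 := hqv p.rep hp hpR (S \ S₁) fun v hv => by
      rw [Finset.mem_sdiff] at hv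
      exact ⟨hv.2, PF v, XF v, hNA v, habsF v, hS v hv.1⟩
    have h2 : ∏ v ∈ S, (qv v : ℝ) = (∏ v ∈ S \ S₁, (qv v : ℝ)) * ∏ v ∈ S ∩ S₁, (qv v : ℝ) := by
      rw [← Finset.sdiff_inter_self_left S S₁]
      exact (Finset.prod_sdiff Finset.inter_subset_left).symm
    have h3 : ∏ v ∈ S ∩ S₁, (qv v : ℝ) ≤ ∏ v ∈ S₁, (qv v : ℝ) := by
      have h7 : (∏ v ∈ S₁ \ (S ∩ S₁), (qv v : ℝ)) * ∏ v ∈ S ∩ S₁, (qv v : ℝ) =
          ∏ v ∈ S₁, (qv v : ℝ) := Finset.prod_sdiff Finset.inter_subset_right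
      have h8 := hprod1 (S₁ \ (S ∩ S₁))
      have h9 := hprod1 (S ∩ S₁)
      nlinarith
    have h4 : 0 ≤ ∏ v ∈ S ∩ S₁, (qv v : ℝ) := by positivity
    have h5 : 0 < Height.mulHeight (fun j => eval p.rep (L j)) := Height.mulHeight_pos _
    have h6 : 0 ≤ C₁ := by linarith
    calc ∏ v ∈ S, (qv v : ℝ) = (∏ v ∈ S \ S₁, (qv v : ℝ)) * ∏ v ∈ S ∩ S₁, (qv v : ℝ) := h2
      _ ≤ (C₁ * Height.mulHeight (fun j => eval p.rep (L j)) ^ e₁) * ∏ v ∈ S₁, (qv v : ℝ) :=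
          mul_le_mul h1 h3 h4 (by positivity)
      _ = _ := by rw [hM₁]; ring
  have hbadfin : ∀ p : ℙ K (Fin N → K), InOrb I v₀ p.rep → eval p.rep R ≠ 0 →
      {v : FinitePlace K | ¬ (XF v).Int I v₀ p.rep}.Finite := by
    intro p hp hpR
    refine finite_of_prod _ (fun v => (qv v : ℝ)) (fun v _ => ?_) _
      (hbadprod p hp hpR)
    exact_mod_cast (hNA v).2.1
  let bad : ℙ K (Fin N → K) → Finset (FinitePlace K) := fun p =>
    if h : {v : FinitePlace K | ¬ (XF v).Int I v₀ p.rep}.Finite then h.toFinset \ S₀ else ∅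
  have hbad : ∀ p : ℙ K (Fin N → K), InOrb I v₀ p.rep → eval p.rep R ≠ 0 →
      ∀ v, v ∈ bad p ↔ ¬ (XF v).Int I v₀ p.rep ∧ v ∉ S₀ := by
    intro p hp hpR v
    simp only [bad, dif_pos (hbadfin p hp hpR), Finset.mem_sdiff, Set.Finite.mem_toFinset]
    rfl
  -- the bound for finite sets
  have key : ∀ T : ℝ, 1 ≤ T → ∀ 𝒢 : Finset (ℙ K (Fin N → K)),
      (∀ p ∈ 𝒢, InOrb I v₀ p.rep ∧ eval p.rep (R * (Q₁ * Q₂)) ≠ 0 ∧
        Height.mulHeight (fun j => eval p.rep (L j)) ≤ T) →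
      (𝒢.card : ℝ) ≤ (C₃ * C₂ ^ ((1 : ℝ) / m) * C₄ * (1 + Real.log M₁ + e₁) ^ k₄) *
        T ^ ((k : ℝ) / (m : ℝ)) * (1 + Real.log T) ^ k₄ := by
    intro T hT 𝒢 h𝒢
    have hT0 : (0 : ℝ) < T := lt_of_lt_of_le one_pos hT
    have hlogT : 0 ≤ Real.log T := Real.log_nonneg hT
    have hRp : ∀ p ∈ 𝒢, eval p.rep R ≠ 0 := by
      intro p hp
      have := (h𝒢 p hp).2.1
      rw [map_mul] at this
      exact left_ne_zero_of_mul this
    have hQp : ∀ p ∈ 𝒢, eval p.rep Q₁ ≠ 0 ∧ eval p.rep Q₂ ≠ 0 := by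
      intro p hp
      have := (h𝒢 p hp).2.1
      rw [map_mul, map_mul] at this
      exact ⟨left_ne_zero_of_mul (right_ne_zero_of_mul this),
        right_ne_zero_of_mul (right_ne_zero_of_mul this)⟩
    set τ : ℝ := ((C₂ * T ^ k) ^ ((1 : ℝ) / m))⁻¹ with hτ
    have hCT : 0 < C₂ * T ^ k := by positivity
    have hτ0 : 0 < τ := by positivity
    have hτm : τ ^ m = (C₂ * T ^ k)⁻¹ := by
      rw [hτ, inv_pow, ← Real.rpow_natCast, ← Real.rpow_mul hCT.le, one_div,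
        inv_mul_cancel₀ hmR.ne', Real.rpow_one]
    have hlow : ∀ p ∈ 𝒢, τ ≤ Height.mulHeight (plk ξ p.rep) /
        Height.mulHeight p.rep ^ (d + 1) := by
      intro p hp
      obtain ⟨hpI, _, hpT⟩ := h𝒢 p hp
      have h1 := heff' p.rep hpI (hQp p hp).1 (hQp p hp).2
      set A := Height.mulHeight (plk ξ p.rep) with hA
      set B := Height.mulHeight p.rep with hB
      have hA0 : 0 < A := Height.mulHeight_pos _
      have hB0 : 0 < B := Height.mulHeight_pos _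
      have h2 : B ^ (m * (d + 1)) ≤ (C₂ * T ^ k) * A ^ m := by
        refine h1.trans ?_
        have h3 : Height.mulHeight (fun j => eval p.rep (L j)) ^ k ≤ T ^ k :=
          pow_le_pow_left₀ (Height.mulHeight_pos _).le hpT k
        calc C₂ * A ^ m * Height.mulHeight (fun j => eval p.rep (L j)) ^ k
            ≤ C₂ * A ^ m * T ^ k := by gcongr
          _ = (C₂ * T ^ k) * A ^ m := by ring
      have h3 : τ ^ m ≤ (A / B ^ (d + 1)) ^ m := by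
        rw [hτm, div_pow, ← pow_mul, mul_comm (d + 1) m, le_div_iff₀ (by positivity),
          inv_mul_le_iff₀ hCT]
        exact h2
      exact le_of_pow_le_pow_left₀ (by omega) (by positivity) h3
    have hcard : (𝒢.card : ℝ) = ∑ S ∈ 𝒢.image bad,
        ((𝒢.filter fun p => bad p = S).card : ℝ) := by
      have := Finset.card_eq_sum_card_image bad 𝒢
      exact_mod_cast this
    have hS : ∀ S ∈ 𝒢.image bad, ((𝒢.filter fun p => bad p = S).card : ℝ) ≤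
        τ⁻¹ * C₃ * (C₃ ^ S.card * ∏ v ∈ S, ((qv v : ℝ))⁻¹) := by
      intro S hS
      obtain ⟨p₀, hp₀, rfl⟩ := Finset.mem_image.1 hS
      have h1 := hpack (bad p₀) (by
        rw [Finset.disjoint_left]
        intro v hv
        exact ((hbad p₀ (h𝒢 p₀ hp₀).1 (hRp p₀ hp₀) v).1 hv).2)
        (𝒢.filter fun p => bad p = bad p₀) τ hτ0 (by
        intro p hp
        obtain ⟨hp1, hp2⟩ := Finset.mem_filter.1 hp
        refine ⟨(h𝒢 p hp1).1, fun v hv => ?_, hlow p hp1⟩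
        rw [← hp2, hbad p (h𝒢 p hp1).1 (hRp p hp1) v]
        exact ⟨fun h => h.1, fun h => ⟨h, hv⟩⟩)
      rw [pow_succ] at h1
      have h2 : ((𝒢.filter fun p => bad p = bad p₀).card : ℝ) ≤
          (C₃ ^ (bad p₀).card * C₃ * ∏ v ∈ bad p₀, ((qv v : ℝ))⁻¹) / τ := by
        rw [le_div_iff₀ hτ0]
        exact h1
      refine h2.trans (le_of_eq ?_)
      rw [div_eq_mul_inv]
      ring
    have hX : ∀ S ∈ 𝒢.image bad, ∏ v ∈ S, (qv v : ℝ) ≤ M₁ * T ^ e₁ := by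
      intro S hS
      obtain ⟨p₀, hp₀, rfl⟩ := Finset.mem_image.1 hS
      refine (hbadprod p₀ (h𝒢 p₀ hp₀).1 (hRp p₀ hp₀) (bad p₀) fun v hv =>
        ((hbad p₀ (h𝒢 p₀ hp₀).1 (hRp p₀ hp₀) v).1 hv).1).trans ?_
      have h3 : Height.mulHeight (fun j => eval p₀.rep (L j)) ^ e₁ ≤ T ^ e₁ :=
        pow_le_pow_left₀ (Height.mulHeight_pos _).le (h𝒢 p₀ hp₀).2.2 e₁
      gcongr
    have hX1 : 1 ≤ M₁ * T ^ e₁ := by
      have : 1 ≤ T ^ e₁ := one_le_pow₀ hT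
      nlinarith
    have h5 := hsum (M₁ * T ^ e₁) hX1 (𝒢.image bad) hX
    have hlogX : 1 + Real.log (M₁ * T ^ e₁) ≤ (1 + Real.log M₁ + e₁) * (1 + Real.log T) := by
      rw [Real.log_mul (by positivity) (by positivity), Real.log_pow]
      have he : (0 : ℝ) ≤ e₁ := by positivity
      nlinarith [mul_nonneg hlogC₁ hlogT, mul_nonneg he hlogT]
    have hlogX0 : 0 ≤ 1 + Real.log (M₁ * T ^ e₁) := by
      have := Real.log_nonneg hX1
      linarith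
    have hτinv : τ⁻¹ = C₂ ^ ((1 : ℝ) / m) * T ^ ((k : ℝ) / m) := by
      rw [hτ, inv_inv, Real.mul_rpow (by positivity) (by positivity), ← Real.rpow_natCast T k,
        ← Real.rpow_mul hT0.le]
      congr 2
      ring
    calc (𝒢.card : ℝ) = ∑ S ∈ 𝒢.image bad, ((𝒢.filter fun p => bad p = S).card : ℝ) := hcard
      _ ≤ ∑ S ∈ 𝒢.image bad,
          τ⁻¹ * C₃ * (C₃ ^ S.card * ∏ v ∈ S, ((qv v : ℝ))⁻¹) := Finset.sum_le_sum hS
      _ = τ⁻¹ * C₃ * ∑ S ∈ 𝒢.image bad, (C₃ ^ S.card * ∏ v ∈ S, ((qv v : ℝ))⁻¹) := by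
          rw [Finset.mul_sum]
      _ ≤ τ⁻¹ * C₃ * (C₄ * (1 + Real.log (M₁ * T ^ e₁)) ^ k₄) := by gcongr
      _ ≤ τ⁻¹ * C₃ * (C₄ * ((1 + Real.log M₁ + e₁) * (1 + Real.log T)) ^ k₄) := by gcongr
      _ = (C₃ * C₂ ^ ((1 : ℝ) / m) * C₄ * (1 + Real.log M₁ + e₁) ^ k₄) *
          T ^ ((k : ℝ) / (m : ℝ)) * (1 + Real.log T) ^ k₄ := by
          rw [hτinv, mul_pow]; ring
  refine ⟨R * (Q₁ * Q₂), bR + ((b + k * e) + b), hRh.mul (hQ₁.mul hQ₂), ?_,
    C₃ * C₂ ^ ((1 : ℝ) / m) * C₄ * (1 + Real.log M₁ + e₁) ^ k₄, k₄, ?_⟩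
  · rw [map_mul, map_mul]
    exact mul_ne_zero hR0 (mul_ne_zero hQ₁0 hQ₂0)
  intro T hT
  have hfinT : {p : ℙ K (Fin N → K) | InOrb I v₀ p.rep ∧ eval p.rep (R * (Q₁ * Q₂)) ≠ 0 ∧
      Height.mulHeight (fun j => eval p.rep (L j)) ≤ T}.Finite := by
    by_contra hinf
    obtain ⟨n, hn⟩ := exists_nat_gt ((C₃ * C₂ ^ ((1 : ℝ) / m) * C₄ *
      (1 + Real.log M₁ + e₁) ^ k₄) * T ^ ((k : ℝ) / (m : ℝ)) * (1 + Real.log T) ^ k₄)
    obtain ⟨𝒢, h𝒢, hcard⟩ := (Set.not_finite.1 hinf |> id : Set.Infinite _).exists_subset_card_eq n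
    have := key T hT 𝒢 fun p hp => h𝒢 hp
    rw [hcard] at this
    linarith
  refine ⟨hfinT, ?_⟩
  have h1 := key T hT hfinT.toFinset fun p hp => (hfinT.mem_toFinset.1 hp)
  rwa [← Set.ncard_eq_toFinset_card _ hfinT] at h1

end Pool.GC
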