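import Pool.Agent.GC.SStmts
import Pool.Agent.GC.PackC

set_option autoImplicit false

/-!
# Squad SPH, module SMult: the multiplicity
-/

namespace Pool.GC

open MvPolynomial MeasureTheory NumberField Metric

open scoped LinearAlgebra.Projectivization

namespace SMultX

section base

variable {K : Type} [Field K] {N : ℕ}

lemma ev_map {R R' : Type} [CommRing R] [CommRing R'] [Algebra K R] [Algebra K R']
    (f : R →ₐ[K] R') (p : MvPolynomial (Fin N × Fin N) K) (g : Matrix (Fin N) (Fin N) R) :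
    ev p (g.map f) = f (ev p g) := by
  unfold ev
  have h : aeval (fun ij : Fin N × Fin N => (g.map f) ij.1 ij.2) =
      f.comp (aeval fun ij : Fin N × Fin N => g ij.1 ij.2) := by
    ext i
    simp
  rw [h]
  rfl

lemma pts_map {R R' : Type} [CommRing R] [CommRing R'] [Algebra K R] [Algebra K R']
    (f : R →ₐ[K] R') {I : Set (MvPolynomial (Fin N × Fin N) K)} {g : Matrix (Fin N) (Fin N) R}
    (hg : g ∈ pts I R) : g.map f ∈ pts I R' := by
  intro p hp
  rw [ev_map, hg p hp, map_zero]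

lemma pts_alg {R : Type} [CommRing R] [Algebra K R]
    {I : Set (MvPolynomial (Fin N × Fin N) K)} {g : Matrix (Fin N) (Fin N) K}
    (hg : g ∈ pts I K) : g.map (algebraMap K R) ∈ pts I R :=
  pts_map (Algebra.ofId K R) hg

lemma orb_mapf {F F' : Type} [Field F] [Field F'] [Algebra K F] [Algebra K F']
    (f : F →ₐ[K] F') (v₀ : Fin N → K) (g : Matrix (Fin N) (Fin N) F) (i : Fin N) :
    orb v₀ (g.map f) i = f (orb v₀ g i) := by
  simp [orb, Matrix.mulVec, dotProduct]

lemma vm_mulVec (F : Type) [Field F] [Algebra K F] (g : Matrix (Fin N) (Fin N) K)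
    (x : Fin N → K) : (g.map (algebraMap K F)).mulVec (vm F x) = vm F (g.mulVec x) := by
  funext i
  simp [vm, Matrix.mulVec, dotProduct]

lemma vm_smul (F : Type) [Field F] [Algebra K F] (s : K) (x : Fin N → K) :
    vm F (s • x) = algebraMap K F s • vm F x := by
  funext i
  simp [vm]

/-- lifts over an algebraically closed field -/
lemma lift {I : Set (MvPolynomial (Fin N × Fin N) K)} {v₀ x : Fin N → K}
    (h : InOrb I v₀ x) (E : Type) [Field E] [Algebra K E] [IsAlgClosed E] :
    ∃ g ∈ pts I E, ∃ c : E, c ≠ 0 ∧ vm E x = c • orb v₀ g := by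
  obtain ⟨g, c, hg, hc, he⟩ := h
  let f : AlgebraicClosure K →ₐ[K] E := IsAlgClosed.lift
  refine ⟨g.map f, pts_map f hg, f c, (map_ne_zero f).mpr hc, ?_⟩
  funext i
  have h1 := congrFun he i
  simp only [Pi.smul_apply, smul_eq_mul] at h1
  rw [Pi.smul_apply, smul_eq_mul, orb_mapf, ← map_mul, ← h1, AlgHom.commutes]
  rfl

/-- integrality of an element of the group which connects two points all of whose lifts are
integral -/
lemma int_of {I : Set (MvPolynomial (Fin N × Fin N) K)} {v₀ x x' : Fin N → K}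
    (hI : IsGroup I) {P : LF K} (X : EX K P) (hx : InOrb I v₀ x) (h1 : X.Int I v₀ x)
    (h2 : X.Int I v₀ x') {γ : Matrix (Fin N) (Fin N) K} (hγ : γ ∈ pts I K) {s : K} (hs : s ≠ 0)
    (h : γ.mulVec x = s • x') (k l : Fin N) : ‖algebraMap K X.E (γ k l)‖ ≤ 1 := by
  haveI := X.closed
  obtain ⟨g, hg, c, hc, he⟩ := lift hx X.E
  have hs' : algebraMap K X.E s ≠ 0 := (map_ne_zero _).mpr hs
  have hg1 := h1 g hg c hc he
  have hγ' : γ.map (algebraMap K X.E) ∈ pts I X.E := pts_alg hγ
  have hg2 := h2 (γ.map (algebraMap K X.E) * g) (hI.mul _ _ _ hγ' hg)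
    ((algebraMap K X.E s)⁻¹ * c) (mul_ne_zero (inv_ne_zero hs') hc) (by
      have e1 : (γ.map (algebraMap K X.E)).mulVec (vm X.E x) = algebraMap K X.E s • vm X.E x' := by
        rw [vm_mulVec, h, vm_smul]
      rw [he, Matrix.mulVec_smul, ← orb_mul'] at e1
      rw [mul_smul, e1, smul_smul, inv_mul_cancel₀ hs', one_smul])
  have e2 : γ.map (algebraMap K X.E) = (γ.map (algebraMap K X.E) * g) * g.adjugate := by
    rw [Matrix.mul_assoc, Matrix.mul_adjugate, hI.det _ g hg, one_smul, Matrix.mul_one]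
  have h3 := mul_mem_sub (intR X.E X.na) _ _ hg2 (adj_mem_sub (intR X.E X.na) g hg1) k l
  rw [← e2] at h3
  exact h3

end base

lemma encard_pi_le {ι : Type} [Fintype ι] {A : Type} {α : ι → Type} (S : Set A)
    (X : ∀ i, Set (α i)) (D : ℕ) (hX : ∀ i, (X i).encard ≤ D) (f : A → ∀ i, α i)
    (hf : ∀ a ∈ S, ∀ i, f a i ∈ X i) (hinj : Set.InjOn f S) :
    S.encard ≤ (D ^ Fintype.card ι : ℕ) := by
  classical
  have hXf : ∀ i, (X i).Finite := fun i => Set.finite_of_encard_le_coe (hX i)
  have hXc : ∀ i, (hXf i).toFinset.card ≤ D := by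
    intro i
    have h1 := hX i
    rw [Set.Finite.encard_eq_coe_toFinset_card (hXf i)] at h1
    exact_mod_cast h1
  have hAf : S.Finite := by
    refine Set.Finite.of_finite_image ?_ hinj
    refine Set.Finite.subset (Fintype.piFinset fun i => (hXf i).toFinset).finite_toSet ?_
    rintro _ ⟨γ, hγ, rfl⟩
    rw [Finset.mem_coe, Fintype.mem_piFinset]
    intro i
    rw [Set.Finite.mem_toFinset]
    exact hf γ hγ i
  have hcard : hAf.toFinset.card ≤ D ^ Fintype.card ι := by
    have h2 : hAf.toFinset.card ≤ (Fintype.piFinset fun i => (hXf i).toFinset).card := by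
      refine Finset.card_le_card_of_injOn f ?_ ?_
      · intro γ hγ
        rw [Set.Finite.coe_toFinset] at hγ
        rw [Finset.mem_coe, Fintype.mem_piFinset]
        intro i
        rw [Set.Finite.mem_toFinset]
        exact hf γ hγ i
      · rw [Set.Finite.coe_toFinset]
        exact hinj
    refine le_trans h2 ?_
    rw [Fintype.card_piFinset]
    calc ∏ i, (hXf i).toFinset.card ≤ ∏ _i : ι, D := Finset.prod_le_prod' fun i _ => hXc i
      _ = D ^ Fintype.card ι := by simp
  rw [Set.Finite.encard_eq_coe_toFinset_card hAf]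
  exact_mod_cast hcard

lemma alg {M : Type} [Monoid M] {g' ga ga' b ba ba' b0 b0a : M}
    (h : ga * (ba * b0) = ga' * (ba' * b0)) (h0 : b0 * b0a = 1) (hg' : g' * ga' = 1)
    (hb : ba * b = 1) : g' * ga = ba' * b := by
  have h1 : ga * ba = ga' * ba' := by
    calc ga * ba = ga * (ba * b0) * b0a := by rw [mul_assoc, mul_assoc, h0, mul_one]
      _ = ga' * (ba' * b0) * b0a := by rw [h]
      _ = ga' * ba' := by rw [mul_assoc, mul_assoc, h0, mul_one]
  calc g' * ga = g' * (ga * ba) * b := by rw [mul_assoc, mul_assoc, hb, mul_one]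
    _ = g' * (ga' * ba') * b := by rw [h1]
    _ = ba' * b := by rw [← mul_assoc, hg', one_mul]

end SMultX

open SMultX in
theorem sMult_proof (hGam : Stmt_SGam) (hStab : Stmt_SStab) : Stmt_SMult := by
  intro K _ _ N I v₀ n hI hT hS ι _ P A b hA hb hproj hinf hfin
  classical
  rcases A.eq_empty_or_nonempty with h0 | ⟨p0, hp0⟩
  · rw [h0, Set.encard_empty]
    exact zero_le
  have hn : (0 : ℝ) < n := by exact_mod_cast hS.1
  have hloc : ∀ i, ∀ p ∈ A, ∀ p' ∈ A, (b i p').adjugate * b i p ∈ pts I (P i).F ∧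
      ∃ s : (P i).F, s ≠ 0 ∧
      ((b i p').adjugate * b i p).mulVec (vm (P i).F p.rep) = s • vm (P i).F p'.rep := by
    intro i p hp p' hp'
    refine ⟨hI.mul _ _ _ (hI.inv _ _ (hb i p' hp')) (hb i p hp), ?_⟩
    obtain ⟨s, hs, h⟩ := hproj i p hp p' hp'
    refine ⟨s, hs, ?_⟩
    rw [← Matrix.mulVec_mulVec, h, Matrix.mulVec_smul, Matrix.mulVec_mulVec,
      Matrix.adjugate_mul, hI.det _ _ (hb i p' hp'), one_smul, Matrix.one_mulVec]
  -- the connecting elements
  have hγ : ∀ p, ∃ (γ : Matrix (Fin N) (Fin N) K) (s : K), p ∈ A → γ ∈ pts I K ∧ s ≠ 0 ∧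
      γ.mulVec p0.rep = s • p.rep := by
    intro p
    by_cases hp : p ∈ A
    · obtain ⟨γ, s, h1, _, h2, h3⟩ := hGam K N I v₀ n hI hT hS p0.rep p.rep (hA p0 hp0) (hA p hp)
        (by
          intro w
          obtain ⟨i, hi1, hi2⟩ := hinf w
          obtain ⟨h1, s, hs, h2⟩ := hloc i p0 hp0 p hp
          exact ⟨P i, _, s, hi1, h1, hs, h2, hi2 p0 hp0 p hp⟩)
        (by
          intro v
          rcases hfin v with ⟨i, hna, hi1, hi2⟩ | ⟨P', X, h1, h2⟩
          · left
            obtain ⟨h1, s, hs, h2⟩ := hloc i p0 hp0 p hp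
            exact ⟨P i, _, s, hna, hi1, h1, hs, h2, hi2 p0 hp0 p hp⟩
          · right
            exact ⟨P', X, h1, h2 p0 hp0, h2 p hp⟩)
      exact ⟨γ, s, fun _ => ⟨h1, h2, h3⟩⟩
    · exact ⟨0, 0, fun h => absurd h hp⟩
  choose γ s hγ using hγ
  refine encard_pi_le A (fun i => {t : Matrix (Fin N) (Fin N) (P i).F | t ∈ pts I (P i).F ∧
      ∃ c : (P i).F, t.mulVec (vm (P i).F p0.rep) = c • vm (P i).F p0.rep}) (n ^ N)
    (fun i => (hStab K N I v₀ n hI hT hS p0.rep (hA p0 hp0) (P i).F).2)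
    (fun p i => (γ p).adjugate.map (algebraMap K (P i).F) * ((b i p).adjugate * b i p0)) ?_ ?_
  · intro p hp i
    obtain ⟨h1, h2, h3⟩ := hγ p hp
    obtain ⟨h4, t, ht, h5⟩ := hloc i p0 hp0 p hp
    refine ⟨hI.mul _ _ _ (pts_alg (hI.inv _ _ h1)) h4, t * algebraMap K (P i).F (s p)⁻¹, ?_⟩
    have e1 : (γ p).adjugate.mulVec p.rep = (s p)⁻¹ • p0.rep := by
      have e2 : p.rep = (s p)⁻¹ • (γ p).mulVec p0.rep := by
        rw [h3, smul_smul, inv_mul_cancel₀ h2, one_smul]
      rw [e2, Matrix.mulVec_smul, Matrix.mulVec_mulVec, Matrix.adjugate_mul, hI.det _ _ h1,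
        one_smul, Matrix.one_mulVec]
    rw [← Matrix.mulVec_mulVec, h5, Matrix.mulVec_smul, vm_mulVec, e1, vm_smul, smul_smul]
  · intro p hp p' hp' hpp
    obtain ⟨h1, h2, h3⟩ := hγ p hp
    obtain ⟨h1', h2', h3'⟩ := hγ p' hp'
    set Γ : Matrix (Fin N) (Fin N) K := γ p' * (γ p).adjugate with hΓ
    have hΓI : Γ ∈ pts I K := hI.mul _ _ _ h1' (hI.inv _ _ h1)
    have hΓi : ∀ i, Γ.map (algebraMap K (P i).F) = (b i p').adjugate * b i p := by
      intro i
      have e := congrFun hpp i
      rw [hΓ, Matrix.map_mul]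
      refine alg e (b0a := (b i p0).adjugate) ?_ ?_ ?_
      · rw [Matrix.mul_adjugate, hI.det _ _ (hb i p0 hp0), one_smul]
      · rw [← Matrix.map_mul, Matrix.mul_adjugate, hI.det _ _ h1', one_smul]
        simp
      · rw [Matrix.adjugate_mul, hI.det _ _ (hb i p hp), one_smul]
    have hent : ∀ i k l, algebraMap K (P i).F (Γ k l - (1 : Matrix (Fin N) (Fin N) K) k l) =
        ((b i p').adjugate * b i p - 1) k l := by
      intro i k l
      rw [Matrix.sub_apply, ← hΓi i, map_sub, Matrix.map_apply]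
      congr 1
      by_cases hkl : k = l
      · rw [hkl, Matrix.one_apply_eq, Matrix.one_apply_eq, map_one]
      · rw [Matrix.one_apply_ne hkl, Matrix.one_apply_ne hkl, map_zero]
    have hΓp : Γ.mulVec p.rep = ((s p)⁻¹ * s p') • p'.rep := by
      have e2 : p.rep = (s p)⁻¹ • (γ p).mulVec p0.rep := by
        rw [h3, smul_smul, inv_mul_cancel₀ h2, one_smul]
      rw [e2, Matrix.mulVec_smul, Matrix.mulVec_mulVec, hΓ, Matrix.mul_assoc,
        Matrix.adjugate_mul, hI.det _ _ h1, one_smul, Matrix.mul_one, h3', smul_smul]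
    have hΓ1 : Γ = 1 := by
      ext k l
      have h := discrete (Γ k l - (1 : Matrix (Fin N) (Fin N) K) k l) (by
        intro v
        rcases hfin v with ⟨i, hna, hi1, hi2⟩ | ⟨P', X, h4, h5⟩
        · rw [← hi1, hent i k l, Matrix.sub_apply]
          exact Subring.sub_mem (intR (P i).F hna) (hi2 p hp p' hp' k l) (one_mem_sub _ k l)
        · have h6 := int_of hI X (hA p hp) (h5 p hp) (h5 p' hp') hΓI
            (mul_ne_zero (inv_ne_zero h2) h2') hΓp k l
          have h7 : ‖algebraMap K X.E (Γ k l - (1 : Matrix (Fin N) (Fin N) K) k l)‖ ≤ 1 := by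
            rw [map_sub]
            refine Subring.sub_mem (intR X.E X.na) h6 ?_
            by_cases hkl : k = l
            · rw [hkl, Matrix.one_apply_eq, map_one]
              exact Subring.one_mem _
            · rw [Matrix.one_apply_ne hkl, map_zero]
              exact Subring.zero_mem _
          rw [← h4, ← X.norm_map, ← IsScalarTower.algebraMap_apply]
          exact h7) (by
        intro w
        obtain ⟨i, hi1, hi2⟩ := hinf w
        rw [← hi1, hent i k l]
        refine (hi2 p hp p' hp' k l).trans_le ?_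
        have hn1 : (1 : ℝ) ≤ n := by exact_mod_cast hS.1
        rw [div_le_one (by positivity)]
        linarith)
      exact sub_eq_zero.1 h
    rw [hΓ1, Matrix.one_mulVec] at hΓp
    rw [← p.mk_rep, ← p'.mk_rep, Projectivization.mk_eq_mk_iff']
    exact ⟨_, hΓp.symm⟩

end Pool.GC
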