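import Pool.Agent.GC.SStmts

/-!
# SNUM: a form along the translates of the parametrisation
-/

set_option autoImplicit false

namespace Pool.GC

open MvPolynomial

namespace SNumX

theorem aeval_smul {K : Type} [Field K] {N b : ℕ} {Λ : MvPolynomial (Fin N) K}
    (hΛ : Λ.IsHomogeneous b) {F : Type} [Field F] [Algebra K F] (c : F) (u : Fin N → F) :
    aeval (c • u) Λ = c ^ b * aeval u Λ := by
  rw [MvPolynomial.aeval_def, MvPolynomial.aeval_def, MvPolynomial.eval₂_eq, MvPolynomial.eval₂_eq,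
    Finset.mul_sum]
  refine Finset.sum_congr rfl fun s hs => ?_
  have h1 : s.degree = b := by
    have := hΛ (mem_support_iff.mp hs)
    rw [Finsupp.degree_eq_weight_one]
    exact this
  have h2 : ∏ i ∈ s.support, (c • u) i ^ s i = c ^ b * ∏ i ∈ s.support, u i ^ s i := by
    rw [← h1, Finsupp.degree_apply, ← Finset.prod_pow_eq_pow_sum, ← Finset.prod_mul_distrib]
    refine Finset.prod_congr rfl fun i _ => ?_
    rw [Pi.smul_apply, smul_eq_mul, mul_pow]
  rw [h2]
  ring

/-- the form along `g ↦ g x` -/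
noncomputable def pol {K : Type} [Field K] {N : ℕ} (Λ : MvPolynomial (Fin N) K) (x : Fin N → K) :
    MvPolynomial (Fin N × Fin N) K :=
  aeval (fun i => ∑ j, X (i, j) * C (x j)) Λ

theorem ev_pol {K : Type} [Field K] {N : ℕ} (Λ : MvPolynomial (Fin N) K) (x : Fin N → K)
    {F : Type} [Field F] [Algebra K F] (g : Matrix (Fin N) (Fin N) F) :
    ev (pol Λ x) g = aeval (g.mulVec (vm F x)) Λ := by
  unfold ev pol
  have h := comp_aeval_apply (f := fun i : Fin N =>
    (∑ j, X (i, j) * C (x j) : MvPolynomial (Fin N × Fin N) K))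
    (aeval (R := K) fun ij : Fin N × Fin N => g ij.1 ij.2) Λ
  rw [h]
  congr 2
  funext i
  simp [Matrix.mulVec, dotProduct, vm]

theorem ev_map {K : Type} [Field K] {N : ℕ} {F F' : Type} [Field F] [Algebra K F] [Field F']
    [Algebra K F'] (f : F →ₐ[K] F') (p : MvPolynomial (Fin N × Fin N) K)
    (g : Matrix (Fin N) (Fin N) F) : ev p (g.map f) = f (ev p g) := by
  unfold ev
  rw [comp_aeval_apply]
  rfl

theorem pts_map {K : Type} [Field K] {N : ℕ} {F F' : Type} [Field F] [Algebra K F] [Field F']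
    [Algebra K F'] (f : F →ₐ[K] F') {I : Set (MvPolynomial (Fin N × Fin N) K)}
    {g : Matrix (Fin N) (Fin N) F} (hg : g ∈ pts I F) : g.map f ∈ pts I F' := by
  intro p hp
  rw [ev_map, hg p hp, map_zero]

theorem orb_map {K : Type} [Field K] {N : ℕ} {F F' : Type} [Field F] [Algebra K F] [Field F']
    [Algebra K F'] (f : F →ₐ[K] F') (v₀ : Fin N → K) (g : Matrix (Fin N) (Fin N) F) :
    orb v₀ (g.map f) = fun i => f (orb v₀ g i) := by
  funext i
  simp [orb, Matrix.mulVec, dotProduct]

end SNumX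

open SNumX

theorem sNum_proof : Stmt_SNum := by
  intro K _ N d I ξ φ D v₀ hG hφ hD Λ b hΛh hΛ x hx
  have hδ : D.δ ≠ 0 := fun h => hD.ne (by obtain ⟨c, hc⟩ := hD.dvd; rw [hc, h, zero_mul])
  have hδ' : algebraMap (MvPolynomial (Fin d) K) (RF K d) D.δ ≠ 0 :=
    fun h => hδ ((IsFractionRing.injective (MvPolynomial (Fin d) K) (RF K d))
      (by rw [h, map_zero]))
  -- the numerator
  have hn : ∀ (F : Type) [Field F] [Algebra K F] (y : Fin d → F),
      aeval y (aeval (fun i => ∑ j, D.Φ i j * C (x j)) Λ : MvPolynomial (Fin d) K) =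
      aeval ((phiNum D.Φ y).mulVec (vm F x)) Λ := by
    intro F _ _ y
    have h := comp_aeval_apply (f := fun i : Fin N =>
      (∑ j, D.Φ i j * C (x j) : MvPolynomial (Fin d) K)) (aeval (R := K) y) Λ
    rw [h]
    congr 2
    funext i
    simp [Matrix.mulVec, dotProduct, vm, phiNum]
  have hphi : ∀ (F : Type) [Field F] [Algebra K F] (y : Fin d → F),
      (phiAt D.Φ D.δ y).mulVec (vm F x) =
        (aeval y D.δ)⁻¹ • (phiNum D.Φ y).mulVec (vm F x) := by
    intro F _ _ y
    rw [← Matrix.smul_mulVec]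
    congr 1
    ext i j
    simp [phiAt, phiNum, div_eq_inv_mul]
  refine ⟨aeval (fun i => ∑ j, D.Φ i j * C (x j)) Λ, ?_, ?_⟩
  · intro h0
    have hgen : ∀ p : MvPolynomial (Fin d) K,
        aeval (fun i => algebraMap (MvPolynomial (Fin d) K) (RF K d) (X i)) p =
          algebraMap (MvPolynomial (Fin d) K) (RF K d) p := by
      intro p
      have h := comp_aeval_apply (f := (X : Fin d → MvPolynomial (Fin d) K))
        (IsScalarTower.toAlgHom K (MvPolynomial (Fin d) K) (RF K d)) p
      rw [aeval_X_left_apply] at h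
      exact h.symm
    have h2 : phiAt D.Φ D.δ (fun i => algebraMap (MvPolynomial (Fin d) K) (RF K d) (X i)) = φ := by
      ext i j
      rw [phiAt, Matrix.of_apply, hgen, hgen, hD.eq]
    have h3 : ev (pol Λ x) φ = 0 := by
      rw [ev_pol, ← h2, hphi, aeval_smul hΛh, ← hn, h0, map_zero, mul_zero]
    obtain ⟨g, c, hg, hc, hxg⟩ := hx
    let Ω := AlgebraicClosure (RF K d)
    let f : AlgebraicClosure K →ₐ[K] Ω := IsAlgClosed.lift
    let e : RF K d →ₐ[K] Ω := IsScalarTower.toAlgHom K (RF K d) Ω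
    have hφ' : φ.map e ∈ pts I Ω := pts_map e hφ.mem
    have hg' : g.map f ∈ pts I Ω := pts_map f hg
    have hh := hG.mul Ω _ _ hφ' (hG.inv Ω _ hg')
    have h4 := hφ.dense _ h3 Ω _ hh
    rw [ev_pol] at h4
    have h5 : vm Ω x = f c • orb v₀ (g.map f) := by
      funext i
      have h6 : algebraMap K (AlgebraicClosure K) (x i) = c * orb v₀ g i := congrFun hxg i
      have h7 := congrArg f h6
      rw [AlgHom.commutes, map_mul] at h7
      rw [vm, Pi.smul_apply, smul_eq_mul, orb_map]
      exact h7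
    have h6 : (φ.map e * (g.map f).adjugate).mulVec (vm Ω x) = f c • orb v₀ (φ.map e) := by
      rw [h5, Matrix.mulVec_smul]
      congr 1
      unfold orb
      rw [Matrix.mulVec_mulVec, Matrix.mul_assoc, Matrix.adjugate_mul, hG.det Ω _ hg', one_smul,
        Matrix.mul_one]
    rw [h6, aeval_smul hΛh, orb_map] at h4
    have h7 : aeval (fun i => e (orb v₀ φ i)) Λ = e (aeval (orb v₀ φ) Λ) := by
      rw [comp_aeval_apply]
    rw [h7] at h4
    rcases mul_eq_zero.mp h4 with h8 | h8
    · exact pow_ne_zero b ((map_ne_zero f).mpr hc) h8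
    · exact hΛ ((map_eq_zero e).mp h8)
  · intro F _ _ y hΔ hny
    have hδy : aeval y D.δ ≠ 0 := by
      obtain ⟨c, hc⟩ := hD.dvd
      intro h
      apply hΔ
      rw [hc, map_mul, h, zero_mul]
    rw [hn F y] at hny
    rw [hphi, aeval_smul hΛh]
    exact mul_ne_zero (pow_ne_zero _ (inv_ne_zero hδy)) hny

end Pool.GC
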