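import Mathlib
import Pool.Agent.GC.Defs
import Pool.Agent.GC.Stmts
import Pool.Agent.GC.Main
import Pool.Agent.GC.PackA
import Pool.Agent.GC.PackB
import Pool.Agent.GC.PackC
import Pool.Agent.GC.SStmts

set_option autoImplicit false

/-!
# Packing for spherical varieties: the local input at one place
-/

namespace Pool.GC

open MvPolynomial MeasureTheory NumberField Metric

open scoped LinearAlgebra.Projectivization

/-- the relations for all index tuples -/
structure IsSRelFam {K : Type} [Field K] {N d : ℕ} (I : Set (MvPolynomial (Fin N × Fin N) K))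
    (ξ : Fin d → Matrix (Fin N) (Fin N) K) (φ : Matrix (Fin N) (Fin N) (RF K d))
    (v₀ : Fin N → K) (V : Set (Fin (d + 1) → Fin N))
    (Λ : (Fin (d + 1) → Fin N) → MvPolynomial (Fin N) K)
    (b : (Fin (d + 1) → Fin N) → ℕ) (D : ℕ)
    (c : (Fin (d + 1) → Fin N) → MvPolynomial (Fin d) K) (𝒞 : Finset K) : Prop where
  inv : ∀ J, J ∉ V → ∀ (F : Type) [Field F] [Algebra K F] (g : Matrix (Fin N) (Fin N) F),
    g ∈ pts I F → orb v₀ g (J 0) * plk ξ (orb v₀ g) J = 0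
  hom : ∀ J, J ∈ V → (Λ J).IsHomogeneous (b J)
  ne : ∀ J, J ∈ V → aeval (orb v₀ φ) (Λ J) ≠ 0
  cne : ∀ J, J ∈ V → c J ≠ 0
  orbne : ∀ J, J ∈ V → ∀ (F : Type) [Field F] [Algebra K F] (x : Fin N → F),
    aeval x (Λ J) ≠ 0 → x (J 0) ≠ 0
  fib : ∀ J, J ∈ V → ∀ (F : Type) [Field F] [Algebra K F] (z : Fin d → F),
    {x : Fin N → F | InOrbE I v₀ x ∧ aeval x (Λ J) ≠ 0 ∧ x (J 0) = 1 ∧ zc J x = z}.encard ≤ D
  integ : ∀ J, J ∈ V → ∀ (F : Type) [NormedField F] [Algebra K F],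
        (∀ x y : F, ‖x + y‖ ≤ max ‖x‖ ‖y‖) →
        (∀ κ ∈ 𝒞, ‖algebraMap K F κ‖ ≤ 1) → ∀ g : Matrix (Fin N) (Fin N) F, g ∈ pts I F →
        orb v₀ g (J 0) ≠ 0 → (∀ i, ‖zc J (orb v₀ g) i‖ ≤ 1) → (∃ i j, 1 < ‖g i j‖) →
        ‖aeval (zc J (orb v₀ g)) (c J)‖ < 1

open Classical in
theorem exists_sRelFam (hRel : Stmt_SRel) {K : Type} [Field K] [CharZero K] {N d : ℕ}
    {I : Set (MvPolynomial (Fin N × Fin N) K)}
    {ξ : Fin d → Matrix (Fin N) (Fin N) K} {φ : Matrix (Fin N) (Fin N) (RF K d)}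
    (v₀ : Fin N → K) (hI : IsGroup I) (hξ : IsLieBasis I ξ) (hφ : IsParam I φ) :
    ∃ V Λ b D c 𝒞, IsSRelFam I ξ φ v₀ V Λ b D c 𝒞 := by
  have h := hRel K N d I ξ φ v₀ hI hξ hφ
  let Inv : (Fin (d + 1) → Fin N) → Prop := fun J =>
    ∀ (F : Type) [Field F] [Algebra K F] (g : Matrix (Fin N) (Fin N) F), g ∈ pts I F →
      orb v₀ g (J 0) * plk ξ (orb v₀ g) J = 0
  have h2 : ∀ J : Fin (d + 1) → Fin N, ∃ (Λ : MvPolynomial (Fin N) K) (b D : ℕ)
      (c : MvPolynomial (Fin d) K) (𝒞 : Finset K), ¬ Inv J →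
      Λ.IsHomogeneous b ∧ aeval (orb v₀ φ) Λ ≠ 0 ∧ c ≠ 0 ∧
      (∀ (F : Type) [Field F] [Algebra K F] (x : Fin N → F), aeval x Λ ≠ 0 → x (J 0) ≠ 0) ∧
      (∀ (F : Type) [Field F] [Algebra K F] (z : Fin d → F),
        {x : Fin N → F | InOrbE I v₀ x ∧ aeval x Λ ≠ 0 ∧ x (J 0) = 1 ∧ zc J x = z}.encard ≤ D) ∧
      ∀ (F : Type) [NormedField F] [Algebra K F], (∀ x y : F, ‖x + y‖ ≤ max ‖x‖ ‖y‖) →
        (∀ κ ∈ 𝒞, ‖algebraMap K F κ‖ ≤ 1) → ∀ g : Matrix (Fin N) (Fin N) F, g ∈ pts I F →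
        orb v₀ g (J 0) ≠ 0 → (∀ i, ‖zc J (orb v₀ g) i‖ ≤ 1) → (∃ i j, 1 < ‖g i j‖) →
        ‖aeval (zc J (orb v₀ g)) c‖ < 1 := by
    intro J
    rcases h J with h1 | ⟨Λ, b, D, c, 𝒞, h1⟩
    · exact ⟨0, 0, 0, 0, ∅, fun hn => absurd h1 hn⟩
    · exact ⟨Λ, b, D, c, 𝒞, fun _ => h1⟩
  choose Λ b D c 𝒞 hh using h2
  refine ⟨{J | ¬ Inv J}, Λ, b, Finset.univ.sup D, c, Finset.univ.biUnion 𝒞, ?_⟩
  refine
    { inv := ?_
      hom := fun J hJ => (hh J hJ).1
      ne := fun J hJ => (hh J hJ).2.1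
      cne := fun J hJ => (hh J hJ).2.2.1
      orbne := fun J hJ => (hh J hJ).2.2.2.1
      fib := ?_
      integ := ?_ }
  · intro J hJ
    have : Inv J := by
      by_contra h3
      exact hJ h3
    exact this
  · intro J hJ F _ _ z
    refine le_trans ((hh J hJ).2.2.2.2.1 F z) ?_
    exact_mod_cast Finset.le_sup (f := D) (Finset.mem_univ J)
  · intro J hJ F _ _ h1 h2
    refine (hh J hJ).2.2.2.2.2 F h1 fun κ hκ => h2 κ ?_
    exact Finset.mem_biUnion.2 ⟨J, Finset.mem_univ J, hκ⟩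

/-! ### Lifts over larger fields -/

lemma pts_map {K : Type} [Field K] {N : ℕ} {I : Set (MvPolynomial (Fin N × Fin N) K)}
    {F E : Type} [Field F] [Field E] [Algebra K F] [Algebra K E] (f : F →ₐ[K] E)
    {g : Matrix (Fin N) (Fin N) F} (hg : g ∈ pts I F) : g.map f ∈ pts I E := by
  intro p hp
  have h1 : ev p g = 0 := hg p hp
  have h2 : ev p (g.map f) = f (ev p g) := by
    unfold ev
    rw [← AlgHom.comp_apply, comp_aeval]
    rfl
  rw [h2, h1, map_zero]

lemma orb_algHom {K : Type} [Field K] {N : ℕ} (v₀ : Fin N → K)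
    {F E : Type} [Field F] [Field E] [Algebra K F] [Algebra K E] (f : F →ₐ[K] E)
    (g : Matrix (Fin N) (Fin N) F) (i : Fin N) : orb v₀ (g.map f) i = f (orb v₀ g i) := by
  simp [orb, Matrix.mulVec, dotProduct]

lemma vm_algHom {K : Type} [Field K] {N : ℕ} (x : Fin N → K)
    {F E : Type} [Field F] [Field E] [Algebra K F] [Algebra K E] (f : F →ₐ[K] E) (i : Fin N) :
    vm E x i = f (vm F x i) := by
  simp [vm]

/-- a lift over any algebraically closed extension -/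
lemma exists_lift {K : Type} [Field K] {N : ℕ} {I : Set (MvPolynomial (Fin N × Fin N) K)}
    {v₀ x : Fin N → K} (hx : InOrb I v₀ x) (E : Type) [Field E] [Algebra K E]
    [IsAlgClosed E] : ∃ (g : Matrix (Fin N) (Fin N) E) (c : E), g ∈ pts I E ∧ c ≠ 0 ∧
      vm E x = c • orb v₀ g := by
  obtain ⟨g, c, hg, hc, hx⟩ := hx
  let f : AlgebraicClosure K →ₐ[K] E := IsAlgClosed.lift
  refine ⟨g.map f, f c, pts_map f hg, ?_, ?_⟩
  · intro h
    exact hc (f.toRingHom.injective (by simpa using h))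
  · funext i
    rw [vm_algHom x f i, Pi.smul_apply, orb_algHom, smul_eq_mul, ← map_mul]
    congr 1
    exact congrFun hx i

/-- translates of points of the orbit -/
lemma inOrbE_mul {K : Type} [Field K] {N : ℕ} {I : Set (MvPolynomial (Fin N × Fin N) K)}
    (hI : IsGroup I) {v₀ x : Fin N → K} (hx : InOrb I v₀ x) {F : Type} [Field F] [Algebra K F]
    (b : Matrix (Fin N) (Fin N) F) (hb : b ∈ pts I F) (c : F) (hc : c ≠ 0) :
    InOrbE I v₀ (c • b.mulVec (vm F x)) := by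
  obtain ⟨g, s, hg, hs, hgx⟩ := exists_lift hx (AlgebraicClosure F)
  let f : F →ₐ[K] AlgebraicClosure F := IsScalarTower.toAlgHom K F (AlgebraicClosure F)
  refine ⟨AlgebraicClosure F, inferInstance, inferInstance, inferInstance, inferInstance,
    b.map f * g, f c * s, hI.mul _ _ _ (pts_map f hb) hg, mul_ne_zero ?_ hs, ?_⟩
  · intro h
    exact hc (f.toRingHom.injective (by simpa using h))
  · have h1 : (fun i => algebraMap F (AlgebraicClosure F) ((c • b.mulVec (vm F x)) i)) =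
        f c • (b.map f).mulVec (vm (AlgebraicClosure F) x) := by
      funext i
      have h2 : algebraMap F (AlgebraicClosure F) ((c • b.mulVec (vm F x)) i) =
          f ((c • b.mulVec (vm F x)) i) := rfl
      rw [h2]
      simp only [Pi.smul_apply, smul_eq_mul, map_mul, Matrix.mulVec, dotProduct, map_sum,
        Matrix.map_apply, vm_algHom x f]
    rw [h1, hgx, Matrix.mulVec_smul, orb_mul', smul_smul]

lemma aeval_smul_hom {K : Type} [Field K] {N b : ℕ} {Λ : MvPolynomial (Fin N) K}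
    (hΛ : Λ.IsHomogeneous b) {F : Type} [Field F] [Algebra K F] (c : F) (x : Fin N → F) :
    aeval (c • x) Λ = c ^ b * aeval x Λ := by
  rw [aeval_def, aeval_def, eval₂_eq, eval₂_eq, Finset.mul_sum]
  refine Finset.sum_congr rfl fun s hs => ?_
  have h1 : ∑ i ∈ s.support, s i = b := by
    have h2 := hΛ (mem_support_iff.1 hs)
    rw [← h2, Finsupp.weight_apply, Finsupp.sum]
    simp
  have h3 : ∏ i ∈ s.support, (c • x) i ^ s i = c ^ b * ∏ i ∈ s.support, x i ^ s i := by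
    rw [← h1, ← Finset.prod_pow_eq_pow_sum, ← Finset.prod_mul_distrib]
    refine Finset.prod_congr rfl fun i _ => ?_
    rw [Pi.smul_apply, smul_eq_mul, mul_pow]
  rw [h3]
  ring

lemma aeval_smul_ne {K : Type} [Field K] {N b : ℕ} {Λ : MvPolynomial (Fin N) K}
    (hΛ : Λ.IsHomogeneous b) {F : Type} [Field F] [Algebra K F] (c : F) (hc : c ≠ 0)
    (x : Fin N → F) (hx : aeval x Λ ≠ 0) : aeval (c • x) Λ ≠ 0 := by
  rw [aeval_smul_hom hΛ]
  exact mul_ne_zero (pow_ne_zero _ hc) hx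

/-- the local input -/
theorem sloc_main (hLoc : Stmt_Loc) (hNum : Stmt_SNum) (hPRel : Stmt_PRel)
    (hStab : Stmt_SStab) {K : Type} [Field K] [CharZero K] {N d n₀ : ℕ}
    {I : Set (MvPolynomial (Fin N × Fin N) K)}
    {ξ : Fin d → Matrix (Fin N) (Fin N) K} {φ : Matrix (Fin N) (Fin N) (RF K d)}
    {v₀ : Fin N → K} {G : GeoData K N d} {V : Set (Fin (d + 1) → Fin N)}
    {Λ : (Fin (d + 1) → Fin N) → MvPolynomial (Fin N) K}
    {bb : (Fin (d + 1) → Fin N) → ℕ} {D : ℕ}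
    {c : (Fin (d + 1) → Fin N) → MvPolynomial (Fin d) K} {𝒞 : Finset K}
    (hI : IsGroup I) (hTri : Triangular I) (hFin : FinStab I v₀ n₀) (hφ : IsParam I φ)
    (hG : IsGeo I ξ φ G) (hR : IsSRelFam I ξ φ v₀ V Λ bb D c 𝒞) (T : LocD K ξ G)
    (x : Fin N → K) (hx : InOrb I v₀ x) (hpl : plk ξ x ≠ 0) :
    ∃ (J : Fin (d + 1) → Fin N) (E : Set (Fin d → T.P.F)), J ∈ V ∧ MeasurableSet E ∧
      (∀ z ∈ E, ∃ y ∈ T.B, phiAt G.Φ G.δ y ∈ pts I T.P.F ∧
        aeval ((phiAt G.Φ G.δ y).mulVec (vm T.P.F x)) (Λ J) ≠ 0 ∧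
        (∀ i, ‖zc J ((phiAt G.Φ G.δ y).mulVec (vm T.P.F x)) i‖ ≤ 1) ∧
        zc J ((phiAt G.Φ G.δ y).mulVec (vm T.P.F x)) = z) ∧
      T.c₀ * hfac ξ T.P x * (T.P.vol d T.B).toReal ≤
        ((N ^ (d + 1) * (D * (n₀ ^ N * G.kφ)) + 1 : ℕ) : ℝ) * (T.P.vol d E).toReal := by
  classical
  obtain ⟨P, e0, cv, nul, B, c₀, mB, c₀pos, vB, vB', cmp⟩ := T
  simp only
  -- the vector
  set u : Fin N → P.F := vm P.F x with hu
  have hx0 : x ≠ 0 := orb_ne x hpl
  have hu0 : u ≠ 0 := by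
    intro h0
    apply hx0
    funext i
    have := congrFun h0 i
    simpa [hu, vm] using this
  have hplu : plk ξ u ≠ 0 := by
    intro h0
    apply hpl
    funext J
    have h1 := congrFun h0 J
    have h2 : plk ξ u J = algebraMap K P.F (plk ξ x J) := plk_map ξ P.F x J
    rw [h2] at h1
    simpa using h1
  -- the numerators
  have hn : ∀ J : Fin (d + 1) → Fin N, ∃ n : MvPolynomial (Fin d) K,
      (J ∉ V → n = 0) ∧ (J ∈ V → n ≠ 0 ∧
      ∀ (F : Type) [Field F] [Algebra K F] (y : Fin d → F), aeval y G.Δ ≠ 0 → aeval y n ≠ 0 →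
        aeval ((phiAt G.Φ G.δ y).mulVec (vm F x)) (Λ J) ≠ 0) := by
    intro J
    by_cases hJ : J ∈ V
    · obtain ⟨n, h1, h2⟩ := hNum K N d I ξ φ G v₀ hI hφ hG (Λ J) (bb J) (hR.hom J hJ)
        (hR.ne J hJ) x hx
      exact ⟨n, fun h => absurd hJ h, fun _ => ⟨h1, h2⟩⟩
    · exact ⟨0, fun _ => rfl, fun h => absurd h hJ⟩
  choose n hn0 hn1 using hn
  have hcpos : 0 < c₀ * (‖plk ξ u‖ / ‖u‖ ^ (d + 1)) ^ P.e := by
    have h1 : 0 < ‖plk ξ u‖ := norm_pos_iff.2 hplu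
    have h2 : 0 < ‖u‖ := norm_pos_iff.2 hu0
    positivity
  -- general facts at a parameter
  have hδ : ∀ y : Fin d → P.F, aeval y G.Δ ≠ 0 → aeval y G.δ ≠ 0 := by
    intro y hy h0
    obtain ⟨q, hq⟩ := hG.dvd
    apply hy
    rw [hq, map_mul, h0, zero_mul]
  have hm₂ : ∀ y : Fin d → P.F, aeval y G.Δ ≠ 0 → aeval y G.m₂ ≠ 0 := by
    intro y hy h0
    obtain ⟨q, hq⟩ := hG.dvd₂
    apply hy
    rw [hq, map_mul, h0, zero_mul]
  have hmem : ∀ y : Fin d → P.F, aeval y G.Δ ≠ 0 → phiAt G.Φ G.δ y ∈ pts I P.F :=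
    fun y hy => hG.mem P.F y hy
  have horb : ∀ y : Fin d → P.F, (phiAt G.Φ G.δ y).mulVec u =
      (aeval y G.δ)⁻¹ • (phiNum G.Φ y).mulVec u := by
    intro y
    rw [phiAt_eq, Matrix.smul_mulVec]
  have hzc : ∀ (y : Fin d → P.F) (J : Fin (d + 1) → Fin N), aeval y G.Δ ≠ 0 →
      zc J ((phiAt G.Φ G.δ y).mulVec u) = zc J ((phiNum G.Φ y).mulVec u) := by
    intro y J hy
    rw [horb, zc_smul J _ (inv_ne_zero (hδ y hy))]
  -- invalid indices
  have hinv : ∀ (y : Fin d → P.F) (J : Fin (d + 1) → Fin N), aeval y G.Δ ≠ 0 → J ∉ V →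
      (phiNum G.Φ y).mulVec u (J 0) ≠ 0 → plk ξ ((phiNum G.Φ y).mulVec u) J = 0 := by
    intro y J hy hJ h0
    obtain ⟨E, _, _, _, _, g, s, hg, hs, hgx⟩ := inOrbE_mul hI hx (phiAt G.Φ G.δ y)
      (hmem y hy) (aeval y G.δ) (hδ y hy)
    have h1 : (aeval y G.δ) • (phiAt G.Φ G.δ y).mulVec (vm P.F x) =
        (phiNum G.Φ y).mulVec u := by
      rw [← hu, horb, smul_smul, mul_inv_cancel₀ (hδ y hy), one_smul]
    rw [h1] at hgx
    have h2 := hR.inv J hJ E g hg
    have h3 : orb v₀ g (J 0) ≠ 0 := by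
      intro h4
      apply h0
      have h5 := congrFun hgx (J 0)
      simp only [Pi.smul_apply, h4, smul_zero] at h5
      exact (algebraMap P.F E).injective (by rw [h5, map_zero])
    have h4 := (mul_eq_zero.1 h2).resolve_left h3
    have h5 : plk ξ (fun i => algebraMap P.F E ((phiNum G.Φ y).mulVec u i)) J = 0 := by
      rw [hgx, (hPRel K N d ξ E (orb v₀ g) (J 0) J).1 s, h4, mul_zero]
    -- plk over the larger field
    have h6 : plk ξ (fun i => algebraMap P.F E ((phiNum G.Φ y).mulVec u i)) J =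
        algebraMap P.F E (plk ξ ((phiNum G.Φ y).mulVec u) J) := by
      unfold plk
      rw [RingHom.map_det]
      congr 1
      ext a b
      refine Fin.cases ?_ (fun c' => ?_) b
      · simp
      · simp only [Matrix.of_apply, Fin.cases_succ, RingHom.mapMatrix_apply, Matrix.map_apply,
          Matrix.mulVec, dotProduct, map_sum, map_mul]
        refine Finset.sum_congr rfl fun j _ => ?_
        rw [IsScalarTower.algebraMap_apply K P.F E]
    rw [h6] at h5
    exact (algebraMap P.F E).injective (by rw [h5, map_zero])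
  -- apply the local theorem
  obtain ⟨J, E, hJn, hE, hEz, hvol⟩ := hLoc K P cv nul N d G.Φ u B mB vB
    (c₀ * (‖plk ξ u‖ / ‖u‖ ^ (d + 1)) ^ P.e) hcpos (D * (n₀ ^ N * G.kφ)) n (by
      intro y hy
      obtain ⟨hyΔ, hcmp⟩ := cmp y hy
      obtain ⟨h1, J, h2, h3⟩ := hcmp u hu0
      refine ⟨h1, J, ?_, h2, h3⟩
      by_contra hJ0
      have hJV : J ∉ V := by
        intro hJV
        exact (hn1 J hJV).1 hJ0
      have h5 : (phiNum G.Φ y).mulVec u (J 0) ≠ 0 := by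
        rw [← norm_pos_iff, h2]
        exact norm_pos_iff.2 h1
      have h8 := hinv y J hyΔ hJV h5
      have h9 := hG.tan P.F y u J
      rw [h8, mul_zero] at h9
      have h10 := (mul_eq_zero.1 h9).resolve_left (hm₂ y hyΔ)
      rw [h10, norm_zero, zero_div, zero_pow e0] at h3
      linarith) (by
      intro J z
      by_cases hJV : J ∈ V
      · -- fibre count
        have hn2 := (hn1 J hJV).2 P.F
        have hu0' : ∀ y ∈ B, aeval y (n J) ≠ 0 → (phiAt G.Φ G.δ y).mulVec u (J 0) ≠ 0 := by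
          intro y hy hyn
          exact hR.orbne J hJV P.F _ (hn2 y (cmp y hy).1 hyn)
        have key := encard_le_mul {y | y ∈ B ∧ aeval y (n J) ≠ 0 ∧
            (phiNum G.Φ y).mulVec u (J 0) ≠ 0 ∧ zc J ((phiNum G.Φ y).mulVec u) = z}
          {x : Fin N → P.F | InOrbE I v₀ x ∧ aeval x (Λ J) ≠ 0 ∧ x (J 0) = 1 ∧ zc J x = z}
          (fun y => ((phiAt G.Φ G.δ y).mulVec u (J 0))⁻¹ • (phiAt G.Φ G.δ y).mulVec u)
          D (n₀ ^ N * G.kφ)
          (by
            rintro y ⟨hyB, hyn, hy0, hyz⟩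
            have hyΔ := (cmp y hyB).1
            have h1 := hu0' y hyB hyn
            refine ⟨inOrbE_mul hI hx _ (hmem y hyΔ) _ (inv_ne_zero h1), ?_, ?_, ?_⟩
            · have h2 := hn2 y hyΔ hyn
              rw [← hu] at h2
              exact aeval_smul_ne (hR.hom J hJV) _ (inv_ne_zero h1) _ h2
            · rw [Pi.smul_apply, smul_eq_mul, inv_mul_cancel₀ h1]
            · rw [zc_smul J _ (inv_ne_zero h1), hzc y J hyΔ]
              exact hyz) (hR.fib J hJV P.F z)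
          (by
            intro x' hx'
            by_cases hex : ∃ y₁, y₁ ∈ B ∧ aeval y₁ (n J) ≠ 0 ∧
              ((phiAt G.Φ G.δ y₁).mulVec u (J 0))⁻¹ • (phiAt G.Φ G.δ y₁).mulVec u = x'
            · obtain ⟨y₁, hy₁B, hy₁n, hy₁x⟩ := hex
              have hy₁Δ := (cmp y₁ hy₁B).1
              have hdet₁ := hI.det _ _ (hmem y₁ hy₁Δ)
              refine encard_le_mul _ {s : Matrix (Fin N) (Fin N) P.F | s ∈ pts I P.F ∧
                ∃ c : P.F, s.mulVec (vm P.F x) = c • vm P.F x}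
                (fun y => (phiAt G.Φ G.δ y₁).adjugate * phiAt G.Φ G.δ y) (n₀ ^ N) G.kφ ?_
                ((hStab K N I v₀ n₀ hI hTri hFin x hx P.F).2) ?_
              · rintro y ⟨⟨hyB, hyn, hy0, hyz⟩, hyx⟩
                have hyΔ := (cmp y hyB).1
                refine ⟨hI.mul _ _ _ (hI.inv _ _ (hmem y₁ hy₁Δ)) (hmem y hyΔ), ?_⟩
                have h1 := hu0' y hyB hyn
                refine ⟨((phiAt G.Φ G.δ y).mulVec u (J 0)) *
                  ((phiAt G.Φ G.δ y₁).mulVec u (J 0))⁻¹, ?_⟩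
                have h3 : (phiAt G.Φ G.δ y).mulVec u =
                    (((phiAt G.Φ G.δ y).mulVec u (J 0)) *
                    ((phiAt G.Φ G.δ y₁).mulVec u (J 0))⁻¹) • (phiAt G.Φ G.δ y₁).mulVec u := by
                  rw [mul_smul, hy₁x, ← hyx, smul_smul, mul_inv_cancel₀ h1, one_smul]
                rw [← hu, ← Matrix.mulVec_mulVec]
                conv_lhs => rw [h3]
                rw [Matrix.mulVec_smul, Matrix.mulVec_mulVec, Matrix.adjugate_mul, hdet₁,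
                  one_smul, Matrix.one_mulVec]
              · rintro s ⟨hs, _⟩
                refine le_trans (Set.encard_le_encard ?_) (hG.fib P.F (phiAt G.Φ G.δ y₁ * s))
                rintro y ⟨⟨⟨hyB, _⟩, _⟩, hys⟩
                refine ⟨(cmp y hyB).1, ?_⟩
                rw [← hys, ← Matrix.mul_assoc, Matrix.mul_adjugate, hdet₁, one_smul,
                  Matrix.one_mul]
            · have : {a | a ∈ {y | y ∈ B ∧ aeval y (n J) ≠ 0 ∧
                  (phiNum G.Φ y).mulVec u (J 0) ≠ 0 ∧ zc J ((phiNum G.Φ y).mulVec u) = z} ∧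
                  ((phiAt G.Φ G.δ a).mulVec u (J 0))⁻¹ • (phiAt G.Φ G.δ a).mulVec u = x'} = ∅ := by
                ext y
                simp only [Set.mem_setOf_eq, Set.mem_empty_iff_false, iff_false]
                rintro ⟨⟨hyB, hyn, _⟩, hyx⟩
                exact hex ⟨y, hyB, hyn, hyx⟩
              rw [this]
              simp)
        exact key
      · have : {y | y ∈ B ∧ aeval y (n J) ≠ 0 ∧
            (phiNum G.Φ y).mulVec u (J 0) ≠ 0 ∧ zc J ((phiNum G.Φ y).mulVec u) = z} = ∅ := by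
          ext y
          simp [hn0 J hJV]
        rw [this]
        simp)
  have hJV : J ∈ V := by
    by_contra h
    exact hJn (hn0 J h)
  have hE1 : ∀ z ∈ E, ∃ y ∈ B, phiAt G.Φ G.δ y ∈ pts I P.F ∧
        aeval ((phiAt G.Φ G.δ y).mulVec u) (Λ J) ≠ 0 ∧
        (∀ i, ‖zc J ((phiAt G.Φ G.δ y).mulVec u) i‖ ≤ 1) ∧
        zc J ((phiAt G.Φ G.δ y).mulVec u) = z := by
    intro z hz
    obtain ⟨y, hyB, hyn, hy0, hyz⟩ := hEz z hz
    have hyΔ := (cmp y hyB).1
    refine ⟨y, hyB, hmem y hyΔ, (hn1 J hJV).2 P.F y hyΔ hyn, ?_, ?_⟩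
    · intro i
      rw [hzc y J hyΔ]
      unfold zc
      rw [norm_div]
      have h1 : ‖(phiNum G.Φ y).mulVec u (J i.succ)‖ ≤ ‖(phiNum G.Φ y).mulVec u (J 0)‖ := by
        rw [hy0]
        exact norm_le_pi_norm _ _
      exact div_le_one_of_le₀ h1 (norm_nonneg _)
    · rw [hzc y J hyΔ]
      exact hyz
  refine ⟨J, E, hJV, hE, hE1, ?_⟩
  -- the volume of E is finite
  have hEfin : P.vol d E ≠ ⊤ := by
    have h1 : E ⊆ closedBall (0 : Fin d → P.F) 1 := by
      intro z hz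
      obtain ⟨y, _, _, _, h2, h3⟩ := hE1 z hz
      rw [mem_closedBall_zero_iff, pi_norm_le_iff_of_nonneg zero_le_one]
      intro i
      rw [← h3]
      exact h2 i
    refine ne_top_of_le_ne_top ?_ (measure_mono h1)
    unfold LF.vol
    rw [closedBall_pi _ zero_le_one, Measure.pi_pi]
    refine ENNReal.prod_ne_top fun i _ => ?_
    haveI : ProperSpace P.F := ProperSpace.of_locallyCompactSpace P.F
    exact (isCompact_closedBall _ _).measure_lt_top.ne
  have h1 := ENNReal.toReal_mono (ENNReal.mul_ne_top (ENNReal.natCast_ne_top _) hEfin) hvol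
  rw [ENNReal.toReal_mul, ENNReal.toReal_mul, ENNReal.toReal_ofReal hcpos.le,
    ENNReal.toReal_natCast] at h1
  have h2 : hfac ξ P x = (‖plk ξ u‖ / ‖u‖ ^ (d + 1)) ^ P.e := rfl
  rw [h2]
  refine le_trans h1 ?_
  refine mul_le_mul_of_nonneg_right ?_ ENNReal.toReal_nonneg
  push_cast
  linarith

end Pool.GC
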