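import Mathlib
import Pool.Agent.GC.Defs
import Pool.Agent.GC.Stmts
import Pool.Agent.GC.Main
import Pool.Agent.GC.PackA
import Pool.Agent.GC.PackB
import Pool.Agent.GC.PackC
import Pool.Agent.GC.SStmts
import Pool.Agent.GC.SPackA

set_option autoImplicit false

/-!
# Packing for spherical varieties: the count
-/

namespace Pool.GC

open MvPolynomial MeasureTheory NumberField Metric

open scoped LinearAlgebra.Projectivization

lemma encard_pi_le {ι : Type} [Fintype ι] {X : ι → Type} (S : ∀ i, Set (X i)) (D : ℕ)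
    (hS : ∀ i, (S i).encard ≤ D) :
    {x : ∀ i, X i | ∀ i, x i ∈ S i}.encard ≤ (D ^ Fintype.card ι : ℕ) := by
  classical
  have hf : ∀ i, (S i).Finite := fun i => Set.finite_of_encard_le_coe (hS i)
  have hc : ∀ i, (hf i).toFinset.card ≤ D := by
    intro i
    have h1 := hS i
    rw [Set.Finite.encard_eq_coe_toFinset_card (hf i)] at h1
    exact_mod_cast h1
  have h1 : {x : ∀ i, X i | ∀ i, x i ∈ S i} =
      ((Fintype.piFinset fun i => (hf i).toFinset : Finset (∀ i, X i)) : Set (∀ i, X i)) := by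
    ext x
    simp
  rw [h1, Set.encard_coe_eq_coe_finsetCard, Fintype.card_piFinset]
  have h2 : ∏ i, (hf i).toFinset.card ≤ D ^ Fintype.card ι := by
    calc ∏ i, (hf i).toFinset.card ≤ ∏ _i : ι, D := Finset.prod_le_prod' fun i _ => hc i
      _ = D ^ Fintype.card ι := by simp
  exact_mod_cast h2

/-- the count for given local data -/
theorem spack_count (hLoc : Stmt_Loc) (hNum : Stmt_SNum) (hPRel : Stmt_PRel)
    (hStab : Stmt_SStab) (hPackM : Stmt_PackM)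
    {K : Type} [Field K] [CharZero K] {N d n₀ : ℕ}
    {I : Set (MvPolynomial (Fin N × Fin N) K)}
    {ξ : Fin d → Matrix (Fin N) (Fin N) K} {φ : Matrix (Fin N) (Fin N) (RF K d)}
    {v₀ : Fin N → K} {G : GeoData K N d} {V : Set (Fin (d + 1) → Fin N)}
    {Λ : (Fin (d + 1) → Fin N) → MvPolynomial (Fin N) K}
    {bb : (Fin (d + 1) → Fin N) → ℕ} {D : ℕ}
    {c : (Fin (d + 1) → Fin N) → MvPolynomial (Fin d) K} {𝒞 : Finset K}
    (hI : IsGroup I) (hTri : Triangular I) (hFin : FinStab I v₀ n₀) (hφ : IsParam I φ)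
    (hG : IsGeo I ξ φ G) (hR : IsSRelFam I ξ φ v₀ V Λ bb D c 𝒞)
    (ι : Type) [Fintype ι] (T : ι → LocD K ξ G)
    (𝒢 : Finset (ℙ K (Fin N → K))) (h𝒢 : ∀ p ∈ 𝒢, InOrb I v₀ p.rep)
    (hpl : ∀ p ∈ 𝒢, plk ξ p.rep ≠ 0) (M₁ : ℕ)
    (hA : ∀ (A : Set (ℙ K (Fin N → K))) (Y : ∀ i, ℙ K (Fin N → K) → (Fin d → (T i).P.F)),
      (∀ p ∈ A, p ∈ 𝒢) → (∀ i, ∀ p ∈ A, Y i p ∈ (T i).B) →
      (∀ i, ∀ p ∈ A, ∀ p' ∈ A, ∃ c : (T i).P.F, c ≠ 0 ∧
        (phiAt G.Φ G.δ (Y i p)).mulVec (vm (T i).P.F p.rep) =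
          c • (phiAt G.Φ G.δ (Y i p')).mulVec (vm (T i).P.F p'.rep)) →
      A.encard ≤ M₁)
    (R : ∀ i, (Fin (d + 1) → Fin N) → Set (Fin d → (T i).P.F)) (ρ : ι → ℝ)
    (hRm : ∀ i J, MeasurableSet (R i J)) (hρ : ∀ i, 0 ≤ ρ i)
    (hRρ : ∀ i J, (T i).P.vol d (R i J) ≤ ENNReal.ofReal (ρ i))
    (hRs : ∀ p ∈ 𝒢, ∀ i, ∀ J ∈ V, ∀ y ∈ (T i).B,
        aeval ((phiAt G.Φ G.δ y).mulVec (vm (T i).P.F p.rep)) (Λ J) ≠ 0 →
        (∀ a, ‖zc J ((phiAt G.Φ G.δ y).mulVec (vm (T i).P.F p.rep)) a‖ ≤ 1) →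
        zc J ((phiAt G.Φ G.δ y).mulVec (vm (T i).P.F p.rep)) ∈ R i J) :
    ∑ p ∈ 𝒢, ∏ i, hfac ξ (T i).P p.rep ≤
      M₁ * ∏ i, ((N ^ (d + 1) * (D * (n₀ ^ N * G.kφ)) + 1 : ℕ) : ℝ) *
        (Fintype.card (Fin (d + 1) → Fin N) * D * ρ i) /
          ((T i).c₀ * ((T i).P.vol d (T i).B).toReal) := by
  classical
  have hvB : ∀ i, 0 < ((T i).P.vol d (T i).B).toReal := fun i =>
    ENNReal.toReal_pos (T i).vB (T i).vB'
  rcases 𝒢.eq_empty_or_nonempty with h0 | ⟨p₀, hp₀⟩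
  · rw [h0, Finset.sum_empty]
    refine mul_nonneg (Nat.cast_nonneg _) (Finset.prod_nonneg fun i _ => ?_)
    have h1 := hvB i
    have h2 := (T i).c₀pos
    have h3 := hρ i
    positivity
  -- choose the sets
  have h1 : ∀ (p : ℙ K (Fin N → K)) (i : ι), ∃ (J : Fin (d + 1) → Fin N)
      (E : Set (Fin d → (T i).P.F)), J ∈ V ∧ MeasurableSet E ∧ (p ∈ 𝒢 →
      (∀ z ∈ E, ∃ y ∈ (T i).B, phiAt G.Φ G.δ y ∈ pts I (T i).P.F ∧
        aeval ((phiAt G.Φ G.δ y).mulVec (vm (T i).P.F p.rep)) (Λ J) ≠ 0 ∧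
        (∀ a, ‖zc J ((phiAt G.Φ G.δ y).mulVec (vm (T i).P.F p.rep)) a‖ ≤ 1) ∧
        zc J ((phiAt G.Φ G.δ y).mulVec (vm (T i).P.F p.rep)) = z) ∧
      (T i).c₀ * hfac ξ (T i).P p.rep * ((T i).P.vol d (T i).B).toReal ≤
        ((N ^ (d + 1) * (D * (n₀ ^ N * G.kφ)) + 1 : ℕ) : ℝ) * ((T i).P.vol d E).toReal) := by
    intro p i
    by_cases hp : p ∈ 𝒢
    · obtain ⟨J, E, h2, h3, h4, h5⟩ := sloc_main hLoc hNum hPRel hStab hI hTri hFin hφ hG hR
        (T i) p.rep (h𝒢 p hp) (hpl p hp)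
      exact ⟨J, E, h2, h3, fun _ => ⟨h4, h5⟩⟩
    · obtain ⟨J, E, h2, h3, h4, h5⟩ := sloc_main hLoc hNum hPRel hStab hI hTri hFin hφ hG hR
        (T i) p₀.rep (h𝒢 p₀ hp₀) (hpl p₀ hp₀)
      exact ⟨J, E, h2, h3, fun h => absurd h hp⟩
  choose J E hJV hE hh using h1
  have hpm := hPackM ι (fun i => Fin d → (T i).P.F) (fun i => (T i).P.vol d)
    (Fin (d + 1) → Fin N) (ℙ K (Fin N → K)) 𝒢 J E R ρ (D ^ Fintype.card ι * M₁)
    hE hRm hρ hRρ (by
      intro p hp i z hz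
      obtain ⟨y, hyB, h2, h3, h4, h5⟩ := (hh p i hp).1 z hz
      rw [← h5]
      exact hRs p hp i (J p i) (hJV p i) y hyB h3 h4) (by
      intro j z
      by_cases hne : ∃ p₁, p₁ ∈ 𝒢 ∧ J p₁ = j
      · obtain ⟨p₁, hp₁, hj₁⟩ := hne
        have hjV : ∀ i, j i ∈ V := by
          intro i
          rw [← hj₁]
          exact hJV p₁ i
        set A₀ : Set (ℙ K (Fin N → K)) := {p | p ∈ 𝒢 ∧ J p = j ∧ ∀ i, z i ∈ E p i} with hA₀
        have hYe : ∀ (i : ι) (p : ℙ K (Fin N → K)), ∃ y : Fin d → (T i).P.F, p ∈ A₀ →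
            y ∈ (T i).B ∧ phiAt G.Φ G.δ y ∈ pts I (T i).P.F ∧
            aeval ((phiAt G.Φ G.δ y).mulVec (vm (T i).P.F p.rep)) (Λ (j i)) ≠ 0 ∧
            zc (j i) ((phiAt G.Φ G.δ y).mulVec (vm (T i).P.F p.rep)) = z i := by
          intro i p
          by_cases hp : p ∈ A₀
          · obtain ⟨hp1, hp2, hp3⟩ := hp
            obtain ⟨y, hyB, h2, h3, h4, h5⟩ := (hh p i hp1).1 (z i) (hp3 i)
            rw [hp2] at h3 h5
            exact ⟨y, fun _ => ⟨hyB, h2, h3, h5⟩⟩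
          · exact ⟨0, fun h => absurd h hp⟩
        choose Y hY using hYe
        -- the common points
        refine encard_le_mul A₀ {x : ∀ i, Fin N → (T i).P.F | ∀ i, x i ∈
          {x : Fin N → (T i).P.F | InOrbE I v₀ x ∧ aeval x (Λ (j i)) ≠ 0 ∧ x (j i 0) = 1 ∧
            zc (j i) x = z i}}
          (fun p i => ((phiAt G.Φ G.δ (Y i p)).mulVec (vm (T i).P.F p.rep) (j i 0))⁻¹ •
            (phiAt G.Φ G.δ (Y i p)).mulVec (vm (T i).P.F p.rep)) (D ^ Fintype.card ι) M₁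
          ?_ (encard_pi_le _ D fun i => hR.fib (j i) (hjV i) _ (z i)) ?_
        · intro p hp i
          obtain ⟨h2, h3, h4, h5⟩ := hY i p hp
          have h6 := hR.orbne (j i) (hjV i) _ _ h4
          refine ⟨inOrbE_mul hI (h𝒢 p hp.1) _ h3 _ (inv_ne_zero h6),
            aeval_smul_ne (hR.hom (j i) (hjV i)) _ (inv_ne_zero h6) _ h4, ?_, ?_⟩
          · simp only [Pi.smul_apply, smul_eq_mul]
            exact inv_mul_cancel₀ h6
          · rw [zc_smul _ _ (inv_ne_zero h6)]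
            exact h5
        · intro x _
          refine hA _ Y (fun p hp => hp.1.1) (fun i p hp => (hY i p hp.1).1) ?_
          intro i p hp p' hp'
          have h6 := hR.orbne (j i) (hjV i) _ _ (hY i p hp.1).2.2.1
          have h7 := hR.orbne (j i) (hjV i) _ _ (hY i p' hp'.1).2.2.1
          refine ⟨((phiAt G.Φ G.δ (Y i p)).mulVec (vm (T i).P.F p.rep) (j i 0)) *
            ((phiAt G.Φ G.δ (Y i p')).mulVec (vm (T i).P.F p'.rep) (j i 0))⁻¹,
            mul_ne_zero h6 (inv_ne_zero h7), ?_⟩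
          have h8 := congrFun hp.2 i
          have h9 := congrFun hp'.2 i
          rw [mul_smul, h9, ← h8, smul_smul, mul_inv_cancel₀ h6, one_smul]
      · have : {p | p ∈ 𝒢 ∧ J p = j ∧ ∀ i, z i ∈ E p i} = ∅ := by
          ext p
          simp only [Set.mem_setOf_eq, Set.mem_empty_iff_false, iff_false]
          rintro ⟨h2, h3, _⟩
          exact hne ⟨p, h2, h3⟩
        rw [this]
        simp)
  set kk : ℝ := ((N ^ (d + 1) * (D * (n₀ ^ N * G.kφ)) + 1 : ℕ) : ℝ) with hkk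
  have hkk0 : 0 ≤ kk := by rw [hkk]; positivity
  have h2 : ∀ p ∈ 𝒢, ∏ i, hfac ξ (T i).P p.rep ≤
      (∏ i, kk / ((T i).c₀ * ((T i).P.vol d (T i).B).toReal)) *
        ∏ i, ((T i).P.vol d (E p i)).toReal := by
    intro p hp
    rw [← Finset.prod_mul_distrib]
    refine Finset.prod_le_prod (fun i _ => ?_) fun i _ => ?_
    · unfold hfac
      positivity
    · have h3 := (hh p i hp).2
      have h4 : 0 < (T i).c₀ * ((T i).P.vol d (T i).B).toReal := mul_pos (T i).c₀pos (hvB i)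
      rw [div_mul_eq_mul_div, le_div_iff₀ h4]
      linarith
  calc ∑ p ∈ 𝒢, ∏ i, hfac ξ (T i).P p.rep
      ≤ ∑ p ∈ 𝒢, (∏ i, kk / ((T i).c₀ * ((T i).P.vol d (T i).B).toReal)) *
        ∏ i, ((T i).P.vol d (E p i)).toReal := Finset.sum_le_sum h2
    _ = (∏ i, kk / ((T i).c₀ * ((T i).P.vol d (T i).B).toReal)) *
        ∑ p ∈ 𝒢, ∏ i, ((T i).P.vol d (E p i)).toReal := by rw [Finset.mul_sum]
    _ ≤ (∏ i, kk / ((T i).c₀ * ((T i).P.vol d (T i).B).toReal)) *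
        ((Fintype.card (Fin (d + 1) → Fin N) : ℝ) ^ Fintype.card ι *
          ((D ^ Fintype.card ι * M₁ : ℕ) : ℝ) * ∏ i, ρ i) := by
        refine mul_le_mul_of_nonneg_left hpm ?_
        refine Finset.prod_nonneg fun i _ => ?_
        have h4 : 0 < (T i).c₀ * ((T i).P.vol d (T i).B).toReal := mul_pos (T i).c₀pos (hvB i)
        positivity
    _ = _ := by
        have h5 : ((Fintype.card (Fin (d + 1) → Fin N) : ℝ) ^ Fintype.card ι *
          ((D ^ Fintype.card ι * M₁ : ℕ) : ℝ) * ∏ i, ρ i) =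
          M₁ * ∏ i : ι, ((Fintype.card (Fin (d + 1) → Fin N) : ℝ) * D * ρ i) := by
          rw [Finset.prod_mul_distrib, Finset.prod_mul_distrib]
          simp
          ring
        rw [h5, mul_left_comm, ← Finset.prod_mul_distrib]
        congr 1
        refine Finset.prod_congr rfl fun i _ => ?_
        rw [div_mul_eq_mul_div]

end Pool.GC
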