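import Mathlib
import Pool.Agent.GC.Defs
import Pool.Agent.GC.Stmts
import Pool.Agent.GC.Main
import Pool.Agent.GC.PackA
import Pool.Agent.GC.PackB
import Pool.Agent.GC.PackC
import Pool.Agent.GC.Pack
import Pool.Agent.GC.SStmts
import Pool.Agent.GC.SPackA
import Pool.Agent.GC.SPackB

set_option autoImplicit false

/-!
# Packing for spherical varieties: the statement SPACK
-/

namespace Pool.GC

open MvPolynomial MeasureTheory NumberField Metric

open scoped LinearAlgebra.Projectivization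

lemma finite_sup {K : Type} [Field K] [NumberField K] {ι : Type} [Finite ι] (x : ι → K)
    (hx : x ≠ 0) : {v : FinitePlace K | (⨆ i, v (x i)) ≠ 1}.Finite := by
  obtain ⟨i₀, hi₀⟩ := Function.ne_iff.1 hx
  have h : {v : FinitePlace K | (⨆ i, v (x i)) ≠ 1} ⊆
      ⋃ i, {v : FinitePlace K | x i ≠ 0 ∧ v (x i) ≠ 1} := by
    intro v hv
    by_contra hno
    simp only [Set.mem_iUnion, not_exists] at hno
    apply hv
    have h1 : ∀ i, x i ≠ 0 → v (x i) = 1 := by
      intro i hi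
      by_contra h2
      exact hno i ⟨hi, h2⟩
    have h3 : ∀ i, v (x i) ≤ 1 := by
      intro i
      by_cases hi : x i = 0
      · rw [hi, map_zero]; exact zero_le_one
      · exact (h1 i hi).le
    haveI : Nonempty ι := ⟨i₀⟩
    refine le_antisymm (ciSup_le h3) ?_
    rw [← h1 i₀ hi₀]
    exact le_ciSup (f := fun i => v (x i)) (Set.finite_range _).bddAbove i₀
  refine Set.Finite.subset (Set.finite_iUnion fun i => ?_) h
  by_cases hi : x i = 0
  · simp [hi]
  · exact Set.Finite.subset (finite_ne_one (x i) hi) fun v hv => hv.2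

/-- the height quotient as a product over the places -/
lemma height_quot' {K : Type} [Field K] [NumberField K] {α β : Type} [Finite α] [Finite β]
    (p : α → K) (w : β → K)
    (n : ℕ) (hp : p ≠ 0) (hw : w ≠ 0) (S : Finset (FinitePlace K))
    (h1 : ∀ v ∉ S, (⨆ j, v (p j)) = (⨆ i, v (w i)) ^ n) :
    Height.mulHeight p / Height.mulHeight w ^ n =
      (∏ v ∈ S, ((⨆ j, v (p j)) / (⨆ i, v (w i)) ^ n)) *
        ∏ v : InfinitePlace K, ((⨆ j, v (p j)) / (⨆ i, v (w i)) ^ n) ^ v.mult := by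
  classical
  rw [NumberField.mulHeight_eq hp, NumberField.mulHeight_eq hw]
  let U : Finset (FinitePlace K) := (finite_sup p hp).toFinset ∪ (finite_sup w hw).toFinset ∪ S
  have h3 : ∏ᶠ v : FinitePlace K, ⨆ j, v (p j) = ∏ v ∈ U, ⨆ j, v (p j) := by
    refine finprod_eq_prod_of_mulSupport_subset _ ?_
    intro v hv
    have : v ∈ (finite_sup p hp).toFinset := by
      rw [Set.Finite.mem_toFinset]
      exact hv
    simp only [U, Finset.coe_union, Set.mem_union, Finset.mem_coe]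
    exact Or.inl (Or.inl this)
  have h4 : ∏ᶠ v : FinitePlace K, ⨆ i, v (w i) = ∏ v ∈ U, ⨆ i, v (w i) := by
    refine finprod_eq_prod_of_mulSupport_subset _ ?_
    intro v hv
    have : v ∈ (finite_sup w hw).toFinset := by
      rw [Set.Finite.mem_toFinset]
      exact hv
    simp only [U, Finset.coe_union, Set.mem_union, Finset.mem_coe]
    exact Or.inl (Or.inr this)
  have h6 : ∏ v ∈ S, ((⨆ j, v (p j)) / (⨆ i, v (w i)) ^ n) =
      ∏ v ∈ U, ((⨆ j, v (p j)) / (⨆ i, v (w i)) ^ n) := by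
    refine Finset.prod_subset Finset.subset_union_right fun v _ hv => ?_
    rw [h1 v hv]
    refine div_self (pow_ne_zero _ ?_)
    obtain ⟨i₀, hi₀⟩ := Function.ne_iff.1 hw
    have h7 : 0 < v (w i₀) := FinitePlace.pos_iff.2 hi₀
    have h8 : v (w i₀) ≤ ⨆ i, v (w i) :=
      le_ciSup (f := fun i => v (w i)) (Set.finite_range _).bddAbove i₀
    linarith
  rw [h3, h4, h6, Finset.prod_div_distrib]
  have h5 : ∏ v : InfinitePlace K, ((⨆ j, v (p j)) / (⨆ i, v (w i)) ^ n) ^ v.mult =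
      (∏ v : InfinitePlace K, (⨆ j, v (p j)) ^ v.mult) /
        (∏ v : InfinitePlace K, (⨆ i, v (w i)) ^ v.mult) ^ n := by
    rw [← Finset.prod_pow, ← Finset.prod_div_distrib]
    refine Finset.prod_congr rfl fun v _ => ?_
    rw [div_pow, ← pow_mul, ← pow_mul, mul_comm n]
  rw [h5, mul_pow, Finset.prod_pow, mul_comm ((∏ v ∈ U, ⨆ j, v (p j)) / _)]
  rw [mul_div_mul_comm]

/-- the bad places: the affine coordinates satisfy a congruence -/
lemma bad_place {K : Type} [Field K] {N d : ℕ} {I : Set (MvPolynomial (Fin N × Fin N) K)}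
    {ξ : Fin d → Matrix (Fin N) (Fin N) K} {φ : Matrix (Fin N) (Fin N) (RF K d)}
    {v₀ : Fin N → K} {V : Set (Fin (d + 1) → Fin N)}
    {Λ : (Fin (d + 1) → Fin N) → MvPolynomial (Fin N) K}
    {bb : (Fin (d + 1) → Fin N) → ℕ} {D : ℕ}
    {c : (Fin (d + 1) → Fin N) → MvPolynomial (Fin d) K} {𝒞 : Finset K}
    (hI : IsGroup I) (hR : IsSRelFam I ξ φ v₀ V Λ bb D c 𝒞) (P : LF K) (X : EX K P)
    (h𝒞 : ∀ κ ∈ 𝒞, ‖algebraMap K P.F κ‖ ≤ 1) (x : Fin N → K) (hx : ¬ X.Int I v₀ x)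
    (b : Matrix (Fin N) (Fin N) P.F) (hb : b ∈ pts I P.F) (hbi : ∀ i j, ‖b i j‖ ≤ 1)
    (J : Fin (d + 1) → Fin N) (hJ : J ∈ V) (hJ0 : b.mulVec (vm P.F x) (J 0) ≠ 0)
    (hz : ∀ i, ‖zc J (b.mulVec (vm P.F x)) i‖ ≤ 1) :
    ‖aeval (zc J (b.mulVec (vm P.F x))) (c J)‖ < 1 := by
  unfold EX.Int at hx
  push Not at hx
  obtain ⟨g, hg, s, hs, hgx, i, j, hij⟩ := hx
  let f : P.F →ₐ[K] X.E := IsScalarTower.toAlgHom K P.F X.E
  have hf : ∀ t : P.F, ‖f t‖ = ‖t‖ := fun t => X.norm_map t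
  have hb' : b.map f ∈ pts I X.E := pts_map f hb
  have hbi' : ∀ i j, ‖(b.map f) i j‖ ≤ 1 := by
    intro i j
    rw [Matrix.map_apply, hf]
    exact hbi i j
  have hgb : b.map f * g ∈ pts I X.E := hI.mul _ _ _ hb' hg
  have hdet := hI.det _ _ hb'
  have hbx : ∀ i, f (b.mulVec (vm P.F x) i) = (s • orb v₀ (b.map f * g)) i := by
    intro i
    have h1 : f (b.mulVec (vm P.F x) i) = (b.map f).mulVec (vm X.E x) i := by
      simp only [Matrix.mulVec, dotProduct, map_sum, map_mul, Matrix.map_apply,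
        vm_algHom x f]
    rw [h1, hgx, Matrix.mulVec_smul, orb_mul']
  have h0 : orb v₀ (b.map f * g) (J 0) ≠ 0 := by
    intro h
    apply hJ0
    have h1 := hbx (J 0)
    rw [Pi.smul_apply, h, smul_zero] at h1
    exact f.toRingHom.injective (by simpa using h1)
  have hzc : zc J (orb v₀ (b.map f * g)) = fun i => f (zc J (b.mulVec (vm P.F x)) i) := by
    funext i
    rw [← zc_smul J s hs]
    simp only [zc, map_div₀]
    rw [hbx, hbx]
  have hnon : ∃ i j, 1 < ‖(b.map f * g) i j‖ := by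
    by_contra hno
    have hno' : ∀ i j, (b.map f * g) i j ∈ intR X.E X.na := by
      intro i j
      by_contra h
      exact hno ⟨i, j, not_le.1 h⟩
    have h2 : (b.map f).adjugate * (b.map f * g) = g := by
      rw [← Matrix.mul_assoc, Matrix.adjugate_mul, hdet, one_smul, Matrix.one_mul]
    have h3 := mul_mem_sub (intR X.E X.na) _ _ (adj_mem_sub (intR X.E X.na) _ hbi') hno' i j
    rw [h2] at h3
    have h4 : ‖g i j‖ ≤ 1 := h3
    linarith
  have hmain := hR.integ J hJ X.E X.na (fun κ hκ => by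
      rw [IsScalarTower.algebraMap_apply K P.F X.E, X.norm_map]
      exact h𝒞 κ hκ) (b.map f * g) hgb h0 (by
      intro i
      rw [hzc]
      simp only
      rw [hf]
      exact hz i) hnon
  rw [hzc] at hmain
  have h5 : aeval (fun i => f (zc J (b.mulVec (vm P.F x)) i)) (c J) =
      f (aeval (zc J (b.mulVec (vm P.F x))) (c J)) := by
    rw [← AlgHom.comp_apply, comp_aeval]
  rw [h5, hf] at hmain
  exact hmain

lemma close_int {K : Type} [Field K] {N : ℕ} (P : LF K)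
    (hna : ∀ x y : P.F, ‖x + y‖ ≤ max ‖x‖ ‖y‖) (M : Matrix (Fin N) (Fin N) P.F) (k l : Fin N)
    (h : ‖(M - 1) k l‖ ≤ 1) : ‖M k l‖ ≤ 1 := by
  have h2 : (M - 1) k l ∈ intR P.F hna := h
  have h3 := Subring.add_mem _ h2 (one_mem_sub (intR P.F hna) k l)
  rw [Matrix.sub_apply, sub_add_cancel] at h3
  exact h3

set_option maxHeartbeats 4000000 in
theorem sPack_proof (hGeo : Stmt_Geo) (hRel : Stmt_SRel) (hNum : Stmt_SNum) (hPAct : Stmt_PAct)
    (hPRel : Stmt_PRel) (hStab : Stmt_SStab) (hMult : Stmt_SMult) (hLoc : Stmt_Loc)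
    (hCmpB : Stmt_SCmpB) (hCmpG : Stmt_CmpG)
    (hIntG : Stmt_SIntG) (hPackM : Stmt_PackM) (hCVna : Stmt_CVna)
    (hNull : Stmt_Null) (hSZ : Stmt_SZ) (hInf : Stmt_Inf) : Stmt_SPack := by
  classical
  intro K _ _ N d I ξ φ v₀ n₀ hI hTri hξ hφ hFin hpl PF hNA habsF XF
  obtain ⟨G, hG⟩ := hGeo K N d I ξ φ hI hξ hφ
  obtain ⟨V, Λ, bb, D, c, 𝒞, hR⟩ := exists_sRelFam hRel v₀ hI hξ hφ
  obtain ⟨S₁, hS₁⟩ := hCmpG K N d I ξ φ G hI hξ hG
  obtain ⟨S₂, hS₂⟩ := hIntG K N d I ξ v₀ hI hξ hpl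
  choose PI heI hcvI habsI using hInf K
  have hn₀ : 0 < n₀ := hFin.1
  have hn₀R : (0 : ℝ) < n₀ := by exact_mod_cast hn₀
  have hε : (0 : ℝ) < 1 / (2 * (n₀ : ℝ)) := by positivity
  have hε1 : 1 / (2 * (n₀ : ℝ)) ≤ 1 := by
    rw [div_le_one (by positivity)]
    have : (1 : ℝ) ≤ n₀ := by exact_mod_cast hn₀
    linarith
  choose BF cF hmBF hcF hvF hvF' hcmpF hsmF using
    fun v => hCmpB K N d I ξ φ G hI hξ hG (PF v) _ hε
  choose BI cI hmBI hcI hvI hvI' hcmpI hsmI using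
    fun w => hCmpB K N d I ξ φ G hI hξ hG (PI w) _ hε
  -- the finite set of places where coefficients are bad
  have hfin3 : {v : FinitePlace K | ∃ J, ∃ s ∈ (c J).support, v (coeff s (c J)) ≠ 1}.Finite := by
    have : {v : FinitePlace K | ∃ J, ∃ s ∈ (c J).support, v (coeff s (c J)) ≠ 1} =
        ⋃ J, ⋃ s ∈ (c J).support, {v : FinitePlace K | v (coeff s (c J)) ≠ 1} := by
      ext v
      simp
    rw [this]
    refine Set.finite_iUnion fun J => Set.Finite.biUnion (Finset.finite_toSet _) fun s hs => ?_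
    exact finite_ne_one _ (mem_support_iff.1 hs)
  have hfin4 : {v : FinitePlace K | ∃ κ ∈ 𝒞, 1 < v κ}.Finite := by
    have : {v : FinitePlace K | ∃ κ ∈ 𝒞, 1 < v κ} ⊆
        ⋃ κ ∈ 𝒞, {v : FinitePlace K | κ ≠ 0 ∧ v κ ≠ 1} := by
      rintro v ⟨κ, hκ, h⟩
      simp only [Set.mem_iUnion]
      refine ⟨κ, hκ, ?_, ne_of_gt h⟩
      intro h0
      rw [h0, map_zero] at h
      linarith
    refine Set.Finite.subset (Set.Finite.biUnion (Finset.finite_toSet _) fun κ hκ => ?_) this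
    by_cases h0 : κ = 0
    · simp [h0]
    · exact Set.Finite.subset (finite_ne_one κ h0) fun v hv => hv.2
  let S₀ : Finset (FinitePlace K) := S₁ ∪ S₂ ∪ hfin3.toFinset ∪ hfin4.toFinset
  have hS₀1 : ∀ v ∉ S₀, v ∉ S₁ := fun v hv h => hv (by simp [S₀, h])
  have hS₀2 : ∀ v ∉ S₀, v ∉ S₂ := fun v hv h => hv (by simp [S₀, h])
  have hS₀3 : ∀ v ∉ S₀, ∀ J, ∀ s ∈ (c J).support, v (coeff s (c J)) = 1 := by
    intro v hv J s hs
    by_contra h
    apply hv
    have : v ∈ hfin3.toFinset := by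
      rw [Set.Finite.mem_toFinset]
      exact ⟨J, s, hs, h⟩
    simp only [S₀, Finset.mem_union]
    exact Or.inl (Or.inr this)
  have hS₀4 : ∀ v ∉ S₀, ∀ κ ∈ 𝒞, v κ ≤ 1 := by
    intro v hv κ hκ
    by_contra h
    apply hv
    have : v ∈ hfin4.toFinset := by
      rw [Set.Finite.mem_toFinset]
      exact ⟨κ, hκ, not_le.1 h⟩
    simp only [S₀, Finset.mem_union]
    exact Or.inr this
  -- local data
  let good : ∀ v : FinitePlace K, v ∉ S₀ → LocD K ξ G := fun v hv =>
    { P := PF v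
      e0 := by rw [(hNA v).1]; exact one_ne_zero
      cv := hCVna K (PF v) (qv v) (hNA v)
      nul := hNull K (PF v)
      B := goodB G (PF v)
      c₀ := 1
      mB := (hS₁ v (hS₀1 v hv) (PF v) (hNA v) (habsF v)).1
      c₀pos := one_pos
      vB := by
        intro h0
        have h1 := (hS₁ v (hS₀1 v hv) (PF v) (hNA v) (habsF v)).2.1
        rw [h0] at h1
        have h2 : ENNReal.ofReal (1 / 2) = 0 := le_antisymm h1 bot_le
        rw [ENNReal.ofReal_eq_zero] at h2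
        norm_num at h2
      vB' := by
        refine ne_top_of_le_ne_top (vol_ball_ne_top (PF v) d) (measure_mono ?_)
        intro y hy
        exact hy.1
      cmp := (hS₁ v (hS₀1 v hv) (PF v) (hNA v) (habsF v)).2.2.1 }
  let badD : FinitePlace K → LocD K ξ G := fun v =>
    { P := PF v
      e0 := by rw [(hNA v).1]; exact one_ne_zero
      cv := hCVna K (PF v) (qv v) (hNA v)
      nul := hNull K (PF v)
      B := BF v
      c₀ := cF v
      mB := hmBF v
      c₀pos := hcF v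
      vB := hvF v
      vB' := hvF' v
      cmp := hcmpF v }
  let infD : InfinitePlace K → LocD K ξ G := fun w =>
    { P := PI w
      e0 := by rw [heI w]; exact (InfinitePlace.mult_pos).ne'
      cv := hcvI w
      nul := hNull K (PI w)
      B := BI w
      c₀ := cI w
      mB := hmBI w
      c₀pos := hcI w
      vB := hvI w
      vB' := hvI' w
      cmp := hcmpI w }
  let TB : {v // v ∈ S₀} ⊕ InfinitePlace K → LocD K ξ G :=
    Sum.elim (fun v => badD v.1) infD
  let kk : ℝ := ((N ^ (d + 1) * (D * (n₀ ^ N * G.kφ)) + 1 : ℕ) : ℝ)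
  let Dc : ℕ := Finset.univ.sup fun J => (c J).totalDegree
  let nJ : ℝ := (Fintype.card (Fin (d + 1) → Fin N) : ℝ)
  let fB : {v // v ∈ S₀} ⊕ InfinitePlace K → ℝ := fun i =>
    kk * (nJ * D * ((TB i).P.vol d (closedBall 0 1)).toReal) /
      ((TB i).c₀ * ((TB i).P.vol d (TB i).B).toReal)
  let mm : ℝ := ((n₀ ^ N : ℕ) : ℝ)
  let C₁ : ℝ := mm * (2 * (kk * (nJ * D * Dc))) + 1
  let A₁ : ℝ := mm ^ Fintype.card ({v // v ∈ S₀} ⊕ InfinitePlace K) * (∏ i, fB i) + 1
  have hmm0 : 0 ≤ mm := by positivity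
  have hkk0 : 0 ≤ kk := by positivity
  have hnJ0 : 0 ≤ nJ := by positivity
  have hfB0 : ∀ i, 0 ≤ fB i := by
    intro i
    have h1 : 0 < ((TB i).P.vol d (TB i).B).toReal := ENNReal.toReal_pos (TB i).vB (TB i).vB'
    have h2 := (TB i).c₀pos
    positivity
  have hfBp : 0 ≤ ∏ i, fB i := Finset.prod_nonneg fun i _ => hfB0 i
  have hC₁ : 1 ≤ C₁ := by
    have : 0 ≤ mm * (2 * (kk * (nJ * D * Dc))) := by positivity
    simp only [C₁]
    linarith
  have hA₁ : 1 ≤ A₁ := by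
    have : 0 ≤ mm ^ Fintype.card ({v // v ∈ S₀} ⊕ InfinitePlace K) * ∏ i, fB i := by
      positivity
    simp only [A₁]
    linarith
  refine ⟨S₀, C₁ * A₁, by nlinarith, ?_⟩
  intro S hS 𝒢 τ hτ h𝒢
  have hSS₀ : ∀ v ∈ S, v ∉ S₀ := fun v hv h => Finset.disjoint_left.1 hS hv h
  let T : {v // v ∈ S} ⊕ ({v // v ∈ S₀} ⊕ InfinitePlace K) → LocD K ξ G :=
    Sum.elim (fun v => good v.1 (hSS₀ v.1 v.2)) TB
  have hplγ : ∀ p ∈ 𝒢, plk ξ p.rep ≠ 0 := by
    intro p hp
    obtain ⟨g, s, hg, hs, hgx⟩ := (h𝒢 p hp).1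
    obtain ⟨l, hl⟩ := hPAct K N d I ξ hI hξ
    intro h0
    apply hpl
    have h1 : ∀ J, plk ξ (orb v₀ g) J = 0 := by
      intro J
      have h2 : plk ξ (fun i => algebraMap K (AlgebraicClosure K) (p.rep i)) J = 0 := by
        rw [plk_map ξ (AlgebraicClosure K) p.rep J, h0]
        simp
      rw [hgx, (hPRel K N d ξ _ (orb v₀ g) (J 0) J).1 s] at h2
      exact (mul_eq_zero.1 h2).resolve_left (pow_ne_zero _ hs)
    funext J
    have h2 := hl (AlgebraicClosure K) g.adjugate (hI.inv _ g hg) (orb v₀ g) J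
    have h3 : g.adjugate.mulVec (orb v₀ g) =
        fun i => algebraMap K (AlgebraicClosure K) (v₀ i) := by
      unfold orb
      rw [Matrix.mulVec_mulVec, Matrix.adjugate_mul, hI.det _ g hg, one_smul,
        Matrix.one_mulVec]
    rw [h3, plk_map ξ (AlgebraicClosure K) v₀ J] at h2
    have h4 : algebraMap K (AlgebraicClosure K) (plk ξ v₀ J) = 0 := by
      rw [h2]
      simp [h1]
    have h5 : plk ξ v₀ J = 0 :=
      (algebraMap K (AlgebraicClosure K)).injective (by rw [h4, map_zero])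
    exact h5
  -- integrality of the parametrisation at the good places
  have hint : ∀ v (hv : v ∉ S₀), ∀ y ∈ goodB G (PF v), ∀ i j,
      ‖phiAt G.Φ G.δ y i j‖ ≤ 1 := fun v hv y hy =>
    (hS₁ v (hS₀1 v hv) (PF v) (hNA v) (habsF v)).2.2.2 y hy
  have hmemB : ∀ (v : FinitePlace K) (y : Fin d → (PF v).F), y ∈ goodB G (PF v) →
      phiAt G.Φ G.δ y ∈ pts I (PF v).F := by
    intro v y hy
    refine hG.mem _ y ?_
    intro h0
    have h1 : ‖aeval y G.Δ‖ = 1 := hy.2
    rw [h0, norm_zero] at h1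
    exact one_ne_zero h1.symm
  have hmain := spack_count hLoc hNum hPRel hStab hPackM hI hTri hFin hφ hG hR _ T 𝒢
    (fun p hp => (h𝒢 p hp).1) hplγ
    ((n₀ ^ N) ^ Fintype.card ({v // v ∈ S} ⊕ ({v // v ∈ S₀} ⊕ InfinitePlace K))) (by
      -- multiplicity
      intro A Y hA𝒢 hYB hcom
      refine hMult K N I v₀ n₀ hI hTri hFin _ (fun i => (T i).P) A
        (fun i p => phiAt G.Φ G.δ (Y i p)) (fun p hp => (h𝒢 p (hA𝒢 p hp)).1) ?_ hcom ?_ ?_
      · intro i p hp
        exact hG.mem _ _ ((T i).cmp _ (hYB i p hp)).1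
      · intro w
        refine ⟨Sum.inr (Sum.inr w), habsI w, ?_⟩
        intro p hp p' hp' k l
        exact hsmI w _ (hYB (Sum.inr (Sum.inr w)) p hp) _ (hYB (Sum.inr (Sum.inr w)) p' hp') k l
      · intro v
        by_cases hvS : v ∈ S
        · left
          have hv0 := hSS₀ v hvS
          refine ⟨Sum.inl ⟨v, hvS⟩, (hNA v).2.2.1, habsF v, ?_⟩
          intro p hp p' hp' k l
          exact mul_mem_sub (intR (PF v).F (hNA v).2.2.1) _ _
            (adj_mem_sub (intR (PF v).F (hNA v).2.2.1) _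
              (hint v hv0 _ (hYB (Sum.inl ⟨v, hvS⟩) p' hp')))
            (hint v hv0 _ (hYB (Sum.inl ⟨v, hvS⟩) p hp)) k l
        · by_cases hv0 : v ∈ S₀
          · left
            refine ⟨Sum.inr (Sum.inl ⟨v, hv0⟩), (hNA v).2.2.1, habsF v, ?_⟩
            intro p hp p' hp' k l
            have h1 := hsmF v _ (hYB (Sum.inr (Sum.inl ⟨v, hv0⟩)) p hp) _
              (hYB (Sum.inr (Sum.inl ⟨v, hv0⟩)) p' hp') k l
            exact close_int (PF v) (hNA v).2.2.1 _ k l (h1.le.trans hε1)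
          · right
            refine ⟨PF v, XF v, habsF v, ?_⟩
            intro p hp
            by_contra h
            exact hvS (((h𝒢 p (hA𝒢 p hp)).2.1 v hv0).2 h))
    (fun i J => if i.isLeft ∧ J ∉ V then ∅ else regR (T i).P (i.isLeft = true) (c J))
    (Sum.elim (fun v => (Dc : ℝ) / qv v.1)
      (fun i => ((TB i).P.vol d (closedBall 0 1)).toReal))
    (by
      intro i J
      split_ifs
      · exact MeasurableSet.empty
      · exact measurableSet_regR _ _ _)
    (by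
      rintro (v | i)
      · change 0 ≤ (Dc : ℝ) / qv v.1
        positivity
      · exact ENNReal.toReal_nonneg)
    (by
      rintro (v | i) J
      · by_cases hJ : J ∈ V
        · have h1 : ¬ ((Sum.inl v : {v // v ∈ S} ⊕ ({v // v ∈ S₀} ⊕ InfinitePlace K)).isLeft
              ∧ J ∉ V) := fun h => h.2 hJ
          rw [if_neg h1]
          change (PF v.1).vol d (regR (PF v.1) _ (c J)) ≤ ENNReal.ofReal ((Dc : ℝ) / qv v.1)
          have h2 := (hSZ K (PF v.1) (qv v.1) (hNA v.1) d (map (algebraMap K (PF v.1).F) (c J))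
            (by
              intro s
              rw [coeff_map, habsF]
              by_cases hs : s ∈ (c J).support
              · exact (hS₀3 v.1 (hSS₀ v.1 v.2) J s hs).le
              · rw [notMem_support_iff.1 hs, map_zero]
                exact zero_le_one) (by
              obtain ⟨s, hs⟩ := MvPolynomial.ne_zero_iff.1 (hR.cne J hJ)
              refine ⟨s, ?_⟩
              rw [coeff_map, habsF]
              exact hS₀3 v.1 (hSS₀ v.1 v.2) J s (mem_support_iff.2 hs))).2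
          refine le_trans (measure_mono ?_) (le_trans h2 ?_)
          · intro z hz
            refine ⟨hz.1, ?_⟩
            rw [← aeval_eq_eval_map]
            exact hz.2 rfl
          · refine ENNReal.ofReal_le_ofReal ?_
            have h3 : ((map (algebraMap K (PF v.1).F) (c J)).totalDegree : ℝ) ≤ Dc := by
              have h4 : (map (algebraMap K (PF v.1).F) (c J)).totalDegree ≤ Dc :=
                le_trans (totalDegree_map_le' _ _)
                  (Finset.le_sup (f := fun J => (c J).totalDegree) (Finset.mem_univ J))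
              exact_mod_cast h4
            exact div_le_div_of_nonneg_right h3 (Nat.cast_nonneg _)
        · rw [if_pos ⟨rfl, hJ⟩, measure_empty]
          exact bot_le
      · have h1 : ¬ ((Sum.inr i : {v // v ∈ S} ⊕ ({v // v ∈ S₀} ⊕ InfinitePlace K)).isLeft
              ∧ J ∉ V) := fun h => by simp at h
        rw [if_neg h1]
        change (TB i).P.vol d (regR (TB i).P _ (c J)) ≤
          ENNReal.ofReal ((TB i).P.vol d (closedBall 0 1)).toReal
        rw [ENNReal.ofReal_toReal (vol_ball_ne_top _ _)]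
        exact measure_mono fun z hz => hz.1)
    (by
      rintro p hp (v | i) J hJ y hyB hΛ hzn
      · have h1 : ¬ ((Sum.inl v : {v // v ∈ S} ⊕ ({v // v ∈ S₀} ⊕ InfinitePlace K)).isLeft
              ∧ J ∉ V) := fun h => h.2 hJ
        rw [if_neg h1]
        refine ⟨?_, fun _ => ?_⟩
        · rw [mem_closedBall_zero_iff, pi_norm_le_iff_of_nonneg zero_le_one]
          exact hzn
        · have hv0 := hSS₀ v.1 v.2
          have hyB1 : y ∈ goodB G (PF v.1) := hyB
          exact bad_place hI hR (PF v.1) (XF v.1) (fun κ hκ => by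
              rw [habsF]
              exact hS₀4 v.1 hv0 κ hκ) p.rep (((h𝒢 p hp).2.1 v.1 hv0).1 v.2)
            (phiAt G.Φ G.δ y) (hmemB v.1 y hyB1) (hint v.1 hv0 y hyB1) J hJ
            (hR.orbne J hJ _ _ hΛ) hzn
      · have h1 : ¬ ((Sum.inr i : {v // v ∈ S} ⊕ ({v // v ∈ S₀} ⊕ InfinitePlace K)).isLeft
              ∧ J ∉ V) := fun h => by simp at h
        rw [if_neg h1]
        refine ⟨?_, fun h => by simp at h⟩
        rw [mem_closedBall_zero_iff, pi_norm_le_iff_of_nonneg zero_le_one]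
        exact hzn)
  -- lower bound
  have hlow : (𝒢.card : ℝ) * τ ≤ ∑ p ∈ 𝒢, ∏ i, hfac ξ (T i).P p.rep := by
    rw [← nsmul_eq_mul, ← Finset.sum_const]
    refine Finset.sum_le_sum fun p hp => ?_
    refine le_trans (h𝒢 p hp).2.2 (le_of_eq ?_)
    have hout : ∀ v ∉ S ∪ S₀, (⨆ J, v (plk ξ p.rep J)) = (⨆ i, v (p.rep i)) ^ (d + 1) := by
      intro v hv
      rw [Finset.mem_union, not_or] at hv
      refine hS₂ v (hS₀2 v hv.2) (PF v) (habsF v) (XF v) p.rep (h𝒢 p hp).1 ?_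
      by_contra h
      exact hv.1 (((h𝒢 p hp).2.1 v hv.2).2 h)
    rw [height_quot' (plk ξ p.rep) p.rep (d + 1) (hplγ p hp)
      (orb_ne _ (hplγ p hp)) (S ∪ S₀) hout]
    rw [Finset.prod_union hS, Fintype.prod_sum_type, Fintype.prod_sum_type, mul_assoc]
    have h1 : ∏ v ∈ S, ((⨆ j, v (plk ξ p.rep j)) / (⨆ i, v (p.rep i)) ^ (d + 1)) =
        ∏ v : {v // v ∈ S}, hfac ξ (T (Sum.inl v)).P p.rep := by
      rw [← Finset.prod_coe_sort S]
      refine Finset.prod_congr rfl fun v _ => ?_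
      change _ = hfac ξ (PF v.1) p.rep
      rw [hfac_eq ξ (PF v.1) _ (habsF v.1), (hNA v.1).1, pow_one]
    have h2 : ∏ v ∈ S₀, ((⨆ j, v (plk ξ p.rep j)) / (⨆ i, v (p.rep i)) ^ (d + 1)) =
        ∏ v : {v // v ∈ S₀}, hfac ξ (T (Sum.inr (Sum.inl v))).P p.rep := by
      rw [← Finset.prod_coe_sort S₀]
      refine Finset.prod_congr rfl fun v _ => ?_
      change _ = hfac ξ (PF v.1) p.rep
      rw [hfac_eq ξ (PF v.1) _ (habsF v.1), (hNA v.1).1, pow_one]
    have h3 : ∏ v : InfinitePlace K, ((⨆ j, v (plk ξ p.rep j)) /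
        (⨆ i, v (p.rep i)) ^ (d + 1)) ^ v.mult =
        ∏ w : InfinitePlace K, hfac ξ (T (Sum.inr (Sum.inr w))).P p.rep := by
      refine Finset.prod_congr rfl fun w _ => ?_
      change _ = hfac ξ (PI w) p.rep
      rw [hfac_eq ξ (PI w) _ (habsI w), heI w]
    rw [h1, h2, h3]
  refine le_trans hlow (le_trans hmain ?_)
  -- upper bound
  rw [Fintype.prod_sum_type]
  have hup1 : ∏ v : {v // v ∈ S}, (((N ^ (d + 1) * (D * (n₀ ^ N * G.kφ)) + 1 : ℕ) : ℝ) *
        (Fintype.card (Fin (d + 1) → Fin N) * D *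
          (Sum.elim (fun v : {v // v ∈ S} => (Dc : ℝ) / qv v.1)
            (fun i => ((TB i).P.vol d (closedBall 0 1)).toReal)
            (Sum.inl v : {v // v ∈ S} ⊕ ({v // v ∈ S₀} ⊕ InfinitePlace K)))) /
          ((T (Sum.inl v)).c₀ * ((T (Sum.inl v)).P.vol d (T (Sum.inl v)).B).toReal)) ≤
      (2 * (kk * (nJ * D * Dc))) ^ S.card * ∏ v ∈ S, ((qv v : ℝ))⁻¹ := by
    have h1 : (2 * (kk * (nJ * D * Dc))) ^ S.card * ∏ v ∈ S, ((qv v : ℝ))⁻¹ =
        ∏ v : {v // v ∈ S}, ((2 * (kk * (nJ * D * Dc))) * ((qv v.1 : ℝ))⁻¹) := by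
      rw [Finset.prod_mul_distrib, Finset.prod_coe_sort S fun v => ((qv v : ℝ))⁻¹]
      simp
    rw [h1]
    refine Finset.prod_le_prod (fun v _ => ?_) fun v _ => ?_
    · have h2 : 0 < ((T (Sum.inl v)).P.vol d (T (Sum.inl v)).B).toReal :=
        ENNReal.toReal_pos (T (Sum.inl v)).vB (T (Sum.inl v)).vB'
      have h3 := (T (Sum.inl v)).c₀pos
      simp only [Sum.elim_inl]
      positivity
    · have hv0 := hSS₀ v.1 v.2
      have h2 : (1 / 2 : ℝ) ≤ ((PF v.1).vol d (goodB G (PF v.1))).toReal := by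
        have h3 := (hS₁ v.1 (hS₀1 v.1 hv0) (PF v.1) (hNA v.1) (habsF v.1)).2.1
        have h4 : (PF v.1).vol d (goodB G (PF v.1)) ≠ ⊤ := (T (Sum.inl v)).vB'
        have h5 := ENNReal.toReal_mono h4 h3
        rwa [ENNReal.toReal_ofReal (by norm_num)] at h5
      change kk * (nJ * D * ((Dc : ℝ) / qv v.1)) /
        (1 * ((PF v.1).vol d (goodB G (PF v.1))).toReal) ≤ _
      rw [one_mul, div_le_iff₀ (by linarith)]
      have h6 : (0 : ℝ) ≤ ((qv v.1 : ℝ))⁻¹ := by positivity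
      have h7 : kk * (nJ * D * ((Dc : ℝ) / qv v.1)) =
          (2 * (kk * (nJ * D * Dc))) * ((qv v.1 : ℝ))⁻¹ * (1 / 2) := by
        rw [div_eq_mul_inv]; ring
      rw [h7]
      refine mul_le_mul_of_nonneg_left h2 ?_
      positivity
  have hup2 : ∏ i : {v // v ∈ S₀} ⊕ InfinitePlace K,
        (((N ^ (d + 1) * (D * (n₀ ^ N * G.kφ)) + 1 : ℕ) : ℝ) *
        (Fintype.card (Fin (d + 1) → Fin N) * D *
          (Sum.elim (fun v : {v // v ∈ S} => (Dc : ℝ) / qv v.1)
            (fun i => ((TB i).P.vol d (closedBall 0 1)).toReal)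
            (Sum.inr i : {v // v ∈ S} ⊕ ({v // v ∈ S₀} ⊕ InfinitePlace K)))) /
          ((T (Sum.inr i)).c₀ * ((T (Sum.inr i)).P.vol d (T (Sum.inr i)).B).toReal)) =
      ∏ i, fB i := rfl
  rw [hup2]
  have hcard : Fintype.card ({v // v ∈ S} ⊕ ({v // v ∈ S₀} ⊕ InfinitePlace K)) =
      S.card + Fintype.card ({v // v ∈ S₀} ⊕ InfinitePlace K) := by
    rw [Fintype.card_sum]
    simp
  have hcast : (((n₀ ^ N) ^ Fintype.card ({v // v ∈ S} ⊕ ({v // v ∈ S₀} ⊕
      InfinitePlace K)) : ℕ) : ℝ) =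
      mm ^ S.card * mm ^ Fintype.card ({v // v ∈ S₀} ⊕ InfinitePlace K) := by
    rw [hcard, ← pow_add]
    simp only [mm]
    push_cast
    ring
  rw [hcast]
  have h0 : 0 ≤ ∏ v ∈ S, ((qv v : ℝ))⁻¹ := by positivity
  have hmp : 0 ≤ mm ^ S.card := by positivity
  have hmp2 : 0 ≤ mm ^ Fintype.card ({v // v ∈ S₀} ⊕ InfinitePlace K) := by positivity
  have hX0 : 0 ≤ 2 * (kk * (nJ * D * Dc)) := by positivity
  have h1 : (mm * (2 * (kk * (nJ * D * Dc)))) ^ S.card ≤ C₁ ^ S.card := by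
    refine pow_le_pow_left₀ (by positivity) ?_ _
    simp only [C₁]
    linarith
  have h2 : mm ^ Fintype.card ({v // v ∈ S₀} ⊕ InfinitePlace K) * ∏ i, fB i ≤ A₁ := by
    simp only [A₁]
    linarith
  have h3 : C₁ ^ S.card * A₁ ≤ (C₁ * A₁) ^ (S.card + 1) := by
    rw [mul_pow]
    refine mul_le_mul ?_ ?_ (by linarith) (by positivity)
    · exact pow_le_pow_right₀ hC₁ (Nat.le_succ _)
    · exact le_self_pow₀ hA₁ (Nat.succ_ne_zero _)
  calc mm ^ S.card * mm ^ Fintype.card ({v // v ∈ S₀} ⊕ InfinitePlace K) *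
        ((∏ v : {v // v ∈ S}, (((N ^ (d + 1) * (D * (n₀ ^ N * G.kφ)) + 1 : ℕ) : ℝ) *
        (Fintype.card (Fin (d + 1) → Fin N) * D *
          (Sum.elim (fun v : {v // v ∈ S} => (Dc : ℝ) / qv v.1)
            (fun i => ((TB i).P.vol d (closedBall 0 1)).toReal)
            (Sum.inl v : {v // v ∈ S} ⊕ ({v // v ∈ S₀} ⊕ InfinitePlace K)))) /
          ((T (Sum.inl v)).c₀ * ((T (Sum.inl v)).P.vol d (T (Sum.inl v)).B).toReal))) *
          ∏ i, fB i)
      ≤ mm ^ S.card * mm ^ Fintype.card ({v // v ∈ S₀} ⊕ InfinitePlace K) *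
        (((2 * (kk * (nJ * D * Dc))) ^ S.card * ∏ v ∈ S, ((qv v : ℝ))⁻¹) * ∏ i, fB i) := by
        refine mul_le_mul_of_nonneg_left ?_ (by positivity)
        exact mul_le_mul_of_nonneg_right hup1 hfBp
    _ = ((mm * (2 * (kk * (nJ * D * Dc)))) ^ S.card *
        (mm ^ Fintype.card ({v // v ∈ S₀} ⊕ InfinitePlace K) * ∏ i, fB i)) *
          ∏ v ∈ S, ((qv v : ℝ))⁻¹ := by
        rw [mul_pow mm]
        ring
    _ ≤ (C₁ ^ S.card * A₁) * ∏ v ∈ S, ((qv v : ℝ))⁻¹ := by
        refine mul_le_mul_of_nonneg_right ?_ h0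
        exact mul_le_mul h1 h2 (by positivity) (by positivity)
    _ ≤ _ := mul_le_mul_of_nonneg_right h3 h0

end Pool.GC
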