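import Pool.Agent.GC.SStmts
import Pool.Agent.GC.Qv
import Pool.Agent.GC.Ht
import Pool.Agent.GC.Rel

set_option autoImplicit false

/-!
# SQV: the bad places divide the value of a form
-/

namespace Pool.GC

open MvPolynomial NumberField Height Function

namespace SQvX

/-! ### The height inequality -/

section Hgt

variable {K : Type} [Field K] [NumberField K]

theorem finprod_ite [DecidableEq (FinitePlace K)] (S : Finset (FinitePlace K)) :
    (fun v : FinitePlace K => if v ∈ S then (qv v : ℝ) else 1).HasFiniteMulSupport ∧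
    ∏ᶠ v : FinitePlace K, (if v ∈ S then (qv v : ℝ) else 1) = ∏ v ∈ S, (qv v : ℝ) := by
  have hsub : mulSupport (fun v : FinitePlace K => if v ∈ S then (qv v : ℝ) else 1) ⊆ ↑S := by
    intro v hv
    by_contra hcon
    apply hv
    exact if_neg hcon
  refine ⟨Set.Finite.subset S.finite_toSet hsub, ?_⟩
  rw [finprod_eq_prod_of_mulSupport_subset _ hsub]
  exact Finset.prod_congr rfl fun v hv => if_pos hv

theorem max_supp {f : FinitePlace K → ℝ} (hf : f.HasFiniteMulSupport) :
    (fun v => max 1 (f v)).HasFiniteMulSupport := by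
  refine Set.Finite.subset hf ?_
  intro v hv h
  apply hv
  show max 1 (f v) = 1
  have h' : f v = 1 := h
  rw [h', max_self]

/-- the product formula with extra factors at finitely many places -/
theorem height_qv {a D : ℕ} (R : MvPolynomial (Fin a) K) (hR : R.IsHomogeneous D) :
    ∃ C : ℝ, 1 ≤ C ∧ ∀ (l : Fin a → K), l ≠ 0 → eval l R ≠ 0 → ∀ S : Finset (FinitePlace K),
      (∀ v ∈ S, (qv v : ℝ) * v (eval l R) ≤ (⨆ i, v (l i)) ^ D) →
      ∏ v ∈ S, (qv v : ℝ) ≤ C * mulHeight l ^ D := by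
  classical
  rcases eq_or_ne R 0 with hR0 | hR0
  · refine ⟨1, le_rfl, fun l _ hl => ?_⟩
    rw [hR0, map_zero] at hl
    exact absurd rfl hl
  -- constants
  set cw : InfinitePlace K → ℝ := fun w =>
    (AddMonoidAlgebra.coeff R).sum (fun _ c => w.val c) with hcw
  set cv : FinitePlace K → ℝ := fun v => ⨆ s : R.support, v (coeff s R) with hcv
  have hcvs : cv.HasFiniteMulSupport := by
    have hne : (fun s : R.support => coeff s R) ≠ 0 := by
      obtain ⟨s, hs⟩ := support_nonempty.2 hR0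
      intro h
      exact (mem_support_iff.1 hs) (congrFun h ⟨s, hs⟩)
    have : Nonempty R.support := by
      obtain ⟨s, hs⟩ := support_nonempty.2 hR0
      exact ⟨⟨s, hs⟩⟩
    exact Qv.finite_mulSupport hne
  have hcv' := max_supp hcvs
  set C₁ : ℝ := ∏ w : InfinitePlace K, (max 1 (cw w)) ^ w.mult with hC₁
  set C₂ : ℝ := ∏ᶠ v : FinitePlace K, max 1 (cv v) with hC₂
  have hC₁1 : 1 ≤ C₁ := by
    rw [hC₁]
    exact Finset.prod_induction _ (fun x : ℝ => 1 ≤ x)
      (fun _ _ h h' => one_le_mul_of_one_le_of_one_le h h') le_rfl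
      fun w _ => one_le_pow₀ (le_max_left _ _)
  have hC₂1 : 1 ≤ C₂ := by
    have h := Qv.le_finprod hcv' (fun v => le_max_left _ _) (∅ : Finset (FinitePlace K))
      (g := fun _ => 0) (fun _ _ => le_rfl) (fun _ h => absurd h (Finset.notMem_empty _))
    simpa using h
  refine ⟨C₁ * C₂, one_le_mul_of_one_le_of_one_le hC₁1 hC₂1, ?_⟩
  intro l hl hy S hS
  have hane : Nonempty (Fin a) := (Function.ne_iff.mp hl).nonempty
  have hM : ∀ v : FinitePlace K, 0 ≤ ⨆ i, v (l i) := fun v =>
    Real.iSup_nonneg fun i => apply_nonneg v _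
  have hMw : ∀ w : InfinitePlace K, 0 ≤ ⨆ i, w (l i) := fun w =>
    Real.iSup_nonneg fun i => apply_nonneg w _
  have hfinM := Qv.finite_mulSupport (K := K) hl
  have hfinMD : (fun v : FinitePlace K => (⨆ i, v (l i)) ^ D).HasFiniteMulSupport := by
    refine Set.Finite.subset hfinM ?_
    intro v hv h
    apply hv
    have h' : (⨆ i, v (l i)) = 1 := h
    show (⨆ i, v (l i)) ^ D = 1
    rw [h', one_pow]
  have hfiny : (fun v : FinitePlace K => v (eval l R)).HasFiniteMulSupport :=
    FinitePlace.hasFiniteMulSupport hy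
  obtain ⟨hfinS, hprodS⟩ := finprod_ite S
  -- local bounds at the finite places
  have hloc : ∀ v : FinitePlace K, (if v ∈ S then (qv v : ℝ) else 1) * v (eval l R) ≤
      max 1 (cv v) * (⨆ i, v (l i)) ^ D := by
    intro v
    have h0 : 0 ≤ (⨆ i, v (l i)) ^ D := pow_nonneg (hM v) D
    by_cases hvS : v ∈ S
    · rw [if_pos hvS]
      refine (hS v hvS).trans ?_
      have := le_max_left 1 (cv v)
      nlinarith
    · rw [if_neg hvS, one_mul]
      have hna : IsNonarchimedean v.val := FinitePlace.add_le v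
      have h1 := hna.eval_mvPolynomial_le hR l
      refine h1.trans ?_
      exact mul_le_mul_of_nonneg_right (le_max_right _ _) h0
  have hfin : (∏ v ∈ S, (qv v : ℝ)) * ∏ᶠ v : FinitePlace K, v (eval l R) ≤
      C₂ * (∏ᶠ v : FinitePlace K, ⨆ i, v (l i)) ^ D := by
    rw [← hprodS, ← finprod_mul_distrib hfinS hfiny, finprod_pow hfinM, hC₂,
      ← finprod_mul_distrib hcv' hfinMD]
    refine finprod_le_finprod (hfinS.mul hfiny) ?_ (hcv'.mul hfinMD) hloc
    intro v
    refine mul_nonneg ?_ (apply_nonneg v _)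
    split_ifs
    · exact (Qv.qv_pos v).le
    · exact zero_le_one
  -- infinite places
  have hinf : ∏ w : InfinitePlace K, w (eval l R) ^ w.mult ≤
      C₁ * (∏ w : InfinitePlace K, (⨆ i, w (l i)) ^ w.mult) ^ D := by
    rw [hC₁, ← Finset.prod_pow, ← Finset.prod_mul_distrib]
    refine Finset.prod_le_prod (fun w _ => pow_nonneg (apply_nonneg w _) _) fun w _ => ?_
    have h1 : w (eval l R) ≤ cw w * (⨆ i, w (l i)) ^ D := w.val.eval_mvPolynomial_le hR l
    have h2 : w (eval l R) ≤ max 1 (cw w) * (⨆ i, w (l i)) ^ D :=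
      h1.trans (mul_le_mul_of_nonneg_right (le_max_right _ _) (pow_nonneg (hMw w) D))
    calc w (eval l R) ^ w.mult ≤ (max 1 (cw w) * (⨆ i, w (l i)) ^ D) ^ w.mult :=
          pow_le_pow_left₀ (apply_nonneg w _) h2 _
      _ = max 1 (cw w) ^ w.mult * ((⨆ i, w (l i)) ^ w.mult) ^ D := by
          rw [mul_pow, ← pow_mul, ← pow_mul, mul_comm D]
  have hprod := prod_abs_eq_one hy
  rw [NumberField.mulHeight_eq hl, mul_pow]
  have hA0 : 0 ≤ ∏ w : InfinitePlace K, w (eval l R) ^ w.mult :=
    Finset.prod_nonneg fun w _ => pow_nonneg (apply_nonneg w _) _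
  have hB0 : 0 ≤ (∏ v ∈ S, (qv v : ℝ)) * ∏ᶠ v : FinitePlace K, v (eval l R) := by
    refine mul_nonneg (Finset.prod_nonneg fun v _ => (Qv.qv_pos v).le) ?_
    exact finprod_nonneg fun v => apply_nonneg v _
  have hmul := mul_le_mul hinf hfin hB0
    (mul_nonneg (zero_le_one.trans hC₁1) (pow_nonneg (Finset.prod_nonneg fun w _ =>
      pow_nonneg (hMw w) _) _))
  calc ∏ v ∈ S, (qv v : ℝ) = (∏ w : InfinitePlace K, w (eval l R) ^ w.mult) *
        ((∏ v ∈ S, (qv v : ℝ)) * ∏ᶠ v : FinitePlace K, v (eval l R)) := by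
        rw [mul_left_comm, hprod, mul_one]
    _ ≤ _ := hmul
    _ = _ := by ring

end Hgt

/-! ### Homogeneity -/

theorem aeval_smul {K : Type} [Field K] {a e : ℕ} {p : MvPolynomial (Fin a) K}
    (hp : p.IsHomogeneous e) {F : Type} [Field F] [Algebra K F] (c : F) (u : Fin a → F) :
    aeval (c • u) p = c ^ e * aeval u p := by
  rw [aeval_def, aeval_def, eval₂_eq, eval₂_eq, Finset.mul_sum]
  refine Finset.sum_congr rfl fun s hs => ?_
  simp only [Pi.smul_apply, smul_eq_mul, mul_pow]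
  rw [Finset.prod_mul_distrib, Finset.prod_pow_eq_pow_sum,
    ← hp.degree_eq_sum_deg_support hs]
  ring

/-- the bad places -/
theorem bad_place {K : Type} [Field K] [NumberField K] (v : FinitePlace K) (P : LF K)
    (X : EX K P) (hnorm : ∀ t : K, ‖algebraMap K P.F t‖ = v t) {a n e : ℕ} (l : Fin a → K)
    (hl : l ≠ 0) (A : Fin (n + 1) → MvPolynomial (Fin a) K)
    (hA : ∀ k, (A k).IsHomogeneous e) (hco : ∀ k s, v (coeff s (A k)) ≤ 1)
    (g : X.E) (hg : 1 < ‖g‖)
    (hrel : ∑ k, algebraMap K X.E (eval l (A k)) * g ^ (k : ℕ) = 0)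
    (hne : eval l (A (Fin.last n)) ≠ 0) :
    (qv v : ℝ) * v (eval l (A (Fin.last n))) ≤ (⨆ i, v (l i)) ^ e := by
  have hane : Nonempty (Fin a) := (Function.ne_iff.mp hl).nonempty
  have hnE : ∀ t : K, ‖algebraMap K X.E t‖ = v t := by
    intro t
    rw [IsScalarTower.algebraMap_apply K P.F X.E, X.norm_map, hnorm]
  obtain ⟨j₁, hj₁⟩ := exists_eq_ciSup_of_finite (f := fun i => v (l i))
  have hle : ∀ i, v (l i) ≤ v (l j₁) := by
    intro i
    have h : v (l i) ≤ ⨆ i, v (l i) := le_ciSup (f := fun i => v (l i))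
      (Set.finite_range _).bddAbove i
    rw [← hj₁] at h
    exact h
  have hj0 : l j₁ ≠ 0 := by
    obtain ⟨i, hi⟩ := Function.ne_iff.mp hl
    intro h
    have h1 := hle i
    rw [h, map_zero] at h1
    exact hi ((map_eq_zero v).1 (le_antisymm h1 (apply_nonneg v _)))
  have hna : IsNonarchimedean v.val := FinitePlace.add_le v
  have hb0 : l j₁ ^ e ≠ 0 := pow_ne_zero _ hj0
  -- all coefficients are bounded
  have hbd : ∀ k, v (eval l (A k)) ≤ v (l j₁ ^ e) := by
    intro k
    have h1 : v (eval l (A k)) ≤ (⨆ s : (A k).support, v (coeff s (A k))) *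
      (⨆ i, v (l i)) ^ e := hna.eval_mvPolynomial_le (hA k) l
    have h2 : (⨆ s : (A k).support, v (coeff s (A k))) ≤ 1 :=
      Real.iSup_le (fun s => hco k s) zero_le_one
    have h3 : 0 ≤ (⨆ i, v (l i)) ^ e :=
      pow_nonneg (Real.iSup_nonneg fun i => apply_nonneg v _) _
    rw [map_pow, hj₁]
    nlinarith
  -- the leading coefficient
  have hlt : v (eval l (A (Fin.last n))) < v (l j₁ ^ e) := by
    let f : ℕ → X.E := fun s =>
      if h : s < n + 1 then algebraMap K X.E (eval l (A ⟨s, h⟩) / l j₁ ^ e) else 0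
    have hf : ∀ (s : ℕ) (h : s < n + 1), f s = algebraMap K X.E (eval l (A ⟨s, h⟩) / l j₁ ^ e) :=
      fun s h => dif_pos h
    have h := RelX.lead_lt X.na n f g ?_ ?_ hg
    · rw [hf n (Nat.lt_succ_self n), hnE, map_div₀, div_lt_one] at h
      · exact h
      · exact lt_of_le_of_ne (apply_nonneg v _) (Ne.symm ((map_ne_zero v).2 hb0))
    · rw [Finset.sum_range]
      have h1 : ∀ k : Fin (n + 1), f k * g ^ (k : ℕ) =
          (algebraMap K X.E (l j₁ ^ e))⁻¹ * (algebraMap K X.E (eval l (A k)) * g ^ (k : ℕ)) := by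
        intro k
        rw [hf k k.2, map_div₀, div_eq_inv_mul]
        ring
      rw [Finset.sum_congr rfl fun k _ => h1 k, ← Finset.mul_sum, hrel, mul_zero]
    · intro s hs
      rw [hf s (by omega), hnE, map_div₀]
      exact div_le_one_of_le₀ (hbd _) (apply_nonneg v _)
  have hq := Qv.qv_le v (x := l j₁ ^ e / eval l (A (Fin.last n))) (by
    rw [map_div₀, one_lt_div]
    · exact hlt
    · exact lt_of_le_of_ne (apply_nonneg v _) (Ne.symm ((map_ne_zero v).2 hne)))
  have hpos : 0 < v (eval l (A (Fin.last n))) :=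
    lt_of_le_of_ne (apply_nonneg v _) (Ne.symm ((map_ne_zero v).2 hne))
  rw [map_div₀, le_div_iff₀ hpos, map_pow, hj₁] at hq
  exact hq

/-- values of forms at the good places -/
theorem good_le {K : Type} [Field K] [NumberField K] (v : FinitePlace K) {a e : ℕ}
    (l : Fin a → K) (p : MvPolynomial (Fin a) K) (hp : p.IsHomogeneous e)
    (hco : ∀ s, v (coeff s p) ≤ 1) : v (eval l p) ≤ (⨆ i, v (l i)) ^ e := by
  have hna : IsNonarchimedean v.val := FinitePlace.add_le v
  have h1 : v (eval l p) ≤ (⨆ s : p.support, v (coeff s p)) * (⨆ i, v (l i)) ^ e :=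
    hna.eval_mvPolynomial_le hp l
  have h2 : (⨆ s : p.support, v (coeff s p)) ≤ 1 := Real.iSup_le (fun s => hco s) zero_le_one
  have h3 : 0 ≤ (⨆ i, v (l i)) ^ e := pow_nonneg (Real.iSup_nonneg fun i => apply_nonneg v _) _
  nlinarith

end SQvX

open SQvX HtX RelX in
theorem sQv_proof : Stmt_SQv := by
  classical
  intro K _ _ N d a e I φ v₀ L hI hφ hL hbig
  obtain ⟨j₀, hj₀, halg⟩ := hbig
  -- the polynomials of the L_j in the matrix entries
  let LP : Fin a → MvPolynomial (Fin N × Fin N) K := fun j => bind₁ (orbP v₀) (L j)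
  have hLP : ∀ (F : Type) [Field F] [Algebra K F] (g : Matrix (Fin N) (Fin N) F) (j : Fin a),
      ev (LP j) g = aeval (orb v₀ g) (L j) := by
    intro F _ _ g j
    have h : (fun i => ev (orbP v₀ i) g) = orb v₀ g := funext fun i => RelX.ev_orbP v₀ i g
    rw [← h]
    show aeval _ (bind₁ (orbP v₀) (L j)) = _
    rw [aeval_bind₁]
    rfl
  have hbind : ∀ (F : Type) [Field F] [Algebra K F] (g : Matrix (Fin N) (Fin N) F)
      (Q : MvPolynomial (Fin a) K), ev (bind₁ LP Q) g =
        aeval (fun j => aeval (orb v₀ g) (L j)) Q := by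
    intro F _ _ g Q
    have h : (fun j => ev (LP j) g) = fun j => aeval (orb v₀ g) (L j) :=
      funext fun j => hLP F g j
    rw [← h]
    unfold ev
    rw [aeval_bind₁]
  -- relations for the entries
  have key : ∀ ij : Fin N × Fin N, ∃ (n e' : ℕ) (A : Fin (n + 1) → MvPolynomial (Fin a) K),
      (∀ k, (A k).IsHomogeneous e') ∧
      aeval (fun j => aeval (orb v₀ φ) (L j)) (A (Fin.last n)) ≠ 0 ∧
      ∀ (F : Type) [Field F] [Algebra K F] (g : Matrix (Fin N) (Fin N) F), g ∈ pts I F →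
        ∑ k, aeval (fun j => aeval (orb v₀ g) (L j)) (A k) * (g ij.1 ij.2) ^ (k : ℕ) = 0 := by
    intro ij
    obtain ⟨n, p, hp1, hp2⟩ := HtX.exists_rel
      (fun i => aeval (orb v₀ φ) (L i) / aeval (orb v₀ φ) (L j₀)) (φ ij.1 ij.2) (halg _)
    obtain ⟨e', A, hA, h⟩ := homog_fam j₀ p
    have hφA := h (RF K d) (fun i => aeval (orb v₀ φ) (L i)) hj₀
    refine ⟨n, e', A, hA, ?_, ?_⟩
    · rw [hφA]
      exact mul_ne_zero (pow_ne_zero _ hj₀) hp1
    · intro F _ _ g hg
      have hev : ∀ (F : Type) [Field F] [Algebra K F] (g : Matrix (Fin N) (Fin N) F),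
          ev (∑ k, bind₁ LP (A k) * X ij ^ (k : ℕ)) g =
          ∑ k, aeval (fun j => aeval (orb v₀ g) (L j)) (A k) * (g ij.1 ij.2) ^ (k : ℕ) := by
        intro F _ _ g
        rw [ev_sum]
        refine Finset.sum_congr rfl fun k _ => ?_
        rw [ev_mul, ev_pow, ev_X, hbind]
      have h2 : ev (∑ k, bind₁ LP (A k) * X ij ^ (k : ℕ)) φ = 0 := by
        rw [hev]
        have h3 : ∀ k, aeval (fun j => aeval (orb v₀ φ) (L j)) (A k) * (φ ij.1 ij.2) ^ (k : ℕ) =
            aeval (orb v₀ φ) (L j₀) ^ e' *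
              (aeval (fun i => aeval (orb v₀ φ) (L i) / aeval (orb v₀ φ) (L j₀)) (p k) *
                (φ ij.1 ij.2) ^ (k : ℕ)) := by
          intro k
          rw [hφA k]
          ring
        rw [Finset.sum_congr rfl fun k _ => h3 k, ← Finset.mul_sum, hp2, mul_zero]
      have h3 := hφ.dense _ h2 F g hg
      rw [hev] at h3
      exact h3
  choose n e' A hA hAφ hArel using key
  -- the form
  set R' : MvPolynomial (Fin a) K := ∏ ij : Fin N × Fin N, A ij (Fin.last (n ij)) with hR'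
  have hR'h : R'.IsHomogeneous (∑ ij, e' ij) :=
    IsHomogeneous.prod _ _ _ fun ij _ => hA ij _
  obtain ⟨C, hC, hheight⟩ := height_qv R' hR'h
  -- the exceptional places
  have hS₀ : ∀ (ij : Fin N × Fin N) (k : Fin (n ij + 1)), {v : FinitePlace K |
      ∃ s ∈ (A ij k).support, v (coeff s (A ij k)) ≠ 1}.Finite := by
    intro ij k
    have h : {v : FinitePlace K | ∃ s ∈ (A ij k).support, v (coeff s (A ij k)) ≠ 1} ⊆
        ⋃ s ∈ (A ij k).support, mulSupport (fun v : FinitePlace K => v (coeff s (A ij k))) := by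
      rintro v ⟨s, hs, hv⟩
      simp only [Set.mem_iUnion]
      exact ⟨s, hs, hv⟩
    refine Set.Finite.subset (Set.Finite.biUnion (Finset.finite_toSet _) fun s hs => ?_) h
    exact FinitePlace.hasFiniteMulSupport (mem_support_iff.1 hs)
  have hS₁ : (⋃ ij : Fin N × Fin N, ⋃ k : Fin (n ij + 1), {v : FinitePlace K |
      ∃ s ∈ (A ij k).support, v (coeff s (A ij k)) ≠ 1}).Finite :=
    Set.finite_iUnion fun ij => Set.finite_iUnion fun k => hS₀ ij k
  refine ⟨L j₀ * bind₁ L R', e + e * ∑ ij, e' ij, ∑ ij, e' ij, C, hS₁.toFinset, ?_, ?_, hC, ?_⟩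
  · exact (hL j₀).mul (hR'h.aeval _ hL)
  · rw [map_mul, aeval_bind₁, hR', map_prod]
    exact mul_ne_zero hj₀ (Finset.prod_ne_zero_iff.2 fun ij _ => hAφ ij)
  intro x hx hRx S hS
  have hevR : eval x (L j₀ * bind₁ L R') = eval x (L j₀) * eval (fun j => eval x (L j)) R' := by
    rw [map_mul]
    congr 1
    rw [← MvPolynomial.aeval_eq_eval, ← MvPolynomial.aeval_eq_eval, aeval_bind₁]
  rw [hevR] at hRx
  set l : Fin a → K := fun j => eval x (L j) with hldef
  have hl0 : l ≠ 0 := by
    intro h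
    exact left_ne_zero_of_mul hRx (congrFun h j₀)
  have hlR : eval l R' ≠ 0 := right_ne_zero_of_mul hRx
  refine hheight l hl0 hlR S ?_
  intro v hv
  obtain ⟨hvS₀, P, X, hP, hnorm, hInt⟩ := hS v hv
  have hco : ∀ ij k s, v (coeff s (A ij k)) ≤ 1 := by
    intro ij k s
    by_cases hs : s ∈ (A ij k).support
    · by_contra hcon
      apply hvS₀
      rw [Set.Finite.mem_toFinset]
      simp only [Set.mem_iUnion]
      refine ⟨ij, k, s, hs, ?_⟩
      intro h
      rw [h] at hcon
      exact hcon le_rfl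
    · rw [notMem_support_iff.1 hs, map_zero]
      exact zero_le_one
  unfold EX.Int at hInt
  push Not at hInt
  obtain ⟨g, hg, c, hc, hxg, i, j, hij⟩ := hInt
  -- the relation at x
  have hlg : (fun j => algebraMap K X.E (l j)) = c ^ e • fun j => aeval (orb v₀ g) (L j) := by
    funext j
    rw [Pi.smul_apply, smul_eq_mul, ← aeval_smul (hL j), ← hxg]
    have h : aeval (vm X.E x) (L j) = algebraMap K X.E (aeval x (L j)) :=
      aeval_algebraMap_apply X.E x (L j)
    rw [h, hldef, MvPolynomial.aeval_eq_eval]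
  have hval : ∀ Q : MvPolynomial (Fin a) K, algebraMap K X.E (eval l Q) =
      aeval (fun j => algebraMap K X.E (l j)) Q := by
    intro Q
    have h : aeval (algebraMap K X.E ∘ l) Q = algebraMap K X.E (aeval l Q) :=
      aeval_algebraMap_apply X.E l Q
    rw [MvPolynomial.aeval_eq_eval] at h
    exact h.symm
  have hrel : ∑ k, algebraMap K X.E (eval l (A (i, j) k)) * (g i j) ^ (k : ℕ) = 0 := by
    have h1 : ∀ k, algebraMap K X.E (eval l (A (i, j) k)) * (g i j) ^ (k : ℕ) =
        (c ^ e) ^ e' (i, j) * (aeval (fun j => aeval (orb v₀ g) (L j)) (A (i, j) k) *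
          (g i j) ^ (k : ℕ)) := by
      intro k
      rw [hval, hlg, aeval_smul (hA (i, j) k)]
      ring
    rw [Finset.sum_congr rfl fun k _ => h1 k, ← Finset.mul_sum, hArel (i, j) X.E g hg, mul_zero]
  have hprod : eval l R' = eval l (A (i, j) (Fin.last (n (i, j)))) *
      ∏ ij ∈ Finset.univ.erase (i, j), eval l (A ij (Fin.last (n ij))) := by
    rw [hR', map_prod]
    exact (Finset.mul_prod_erase Finset.univ (fun ij => eval l (A ij (Fin.last (n ij))))
      (Finset.mem_univ (i, j))).symm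
  have hne : eval l (A (i, j) (Fin.last (n (i, j)))) ≠ 0 := by
    rw [hprod] at hlR
    exact left_ne_zero_of_mul hlR
  have hbad := bad_place v P X hnorm l hl0 (A (i, j)) (hA (i, j)) (fun k s => hco (i, j) k s)
    (g i j) hij hrel hne
  have hM : 0 ≤ ⨆ i, v (l i) := Real.iSup_nonneg fun i => apply_nonneg v _
  rw [hprod, map_mul, map_prod, ← mul_assoc,
    ← Finset.add_sum_erase _ _ (Finset.mem_univ (i, j)), pow_add]
  refine mul_le_mul hbad ?_ (Finset.prod_nonneg fun ij _ => apply_nonneg v _) (pow_nonneg hM _)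
  rw [← Finset.prod_pow_eq_pow_sum]
  exact Finset.prod_le_prod (fun ij _ => apply_nonneg v _)
    fun ij _ => good_le v l _ (hA ij _) (hco ij _)

end Pool.GC
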