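import Pool.Agent.GC.SStmts
import Pool.Agent.GC.Rel

/-!
# SREL: algebraic relations over the affine coordinates with index `J`, with a form on `K^N`
-/

set_option autoImplicit false

namespace Pool.GC.SRelX

open MvPolynomial RelX

variable {K : Type} [Field K] {N d : ℕ}

/-- homogenisation with respect to the coordinate `J 0` -/
lemma homogF (J : Fin (d + 1) → Fin N) (H : MvPolynomial (Fin d) K) :
    ∃ (E : ℕ) (p : MvPolynomial (Fin N) K), p.IsHomogeneous E ∧
    ∀ (F : Type) [Field F] [Algebra K F] (x : Fin N → F), x (J 0) ≠ 0 →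
      aeval x p = x (J 0) ^ E * aeval (zc J x) H := by
  induction H using MvPolynomial.induction_on with
  | C a => exact ⟨0, C a, isHomogeneous_C _ _, fun F _ _ x _ => by
      rw [aeval_C, aeval_C, pow_zero, one_mul]⟩
  | add p1 p2 h1 h2 =>
    obtain ⟨E1, P1, g1, h1⟩ := h1
    obtain ⟨E2, P2, g2, h2⟩ := h2
    refine ⟨E1 + E2, P1 * X (J 0) ^ E2 + P2 * X (J 0) ^ E1, ?_, fun F _ _ x hx => ?_⟩
    · refine IsHomogeneous.add (g1.mul (isHomogeneous_X_pow _ _)) ?_
      rw [add_comm E1 E2]
      exact g2.mul (isHomogeneous_X_pow _ _)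
    · rw [map_add, map_mul, map_mul, map_pow, map_pow, aeval_X, h1 F x hx, h2 F x hx, map_add]
      ring
  | mul_X p i h =>
    obtain ⟨E, P, g, h⟩ := h
    refine ⟨E + 1, P * X (J i.succ), g.mul (isHomogeneous_X _ _), fun F _ _ x hx => ?_⟩
    rw [map_mul, h F x hx, map_mul, aeval_X, aeval_X]
    simp only [zc]
    field_simp
    ring

lemma zc_smul (J : Fin (d + 1) → Fin N) {F : Type} [Field F] (c : F) (hc : c ≠ 0)
    (x : Fin N → F) : zc J (c • x) = zc J x := by
  funext i
  simp only [zc, Pi.smul_apply, smul_eq_mul]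
  exact mul_div_mul_left _ _ hc

lemma zc_map (J : Fin (d + 1) → Fin N) {F E : Type} [Field F] [Field E] [Algebra F E]
    (x : Fin N → F) : zc J (fun i => algebraMap F E (x i)) = fun i => algebraMap F E (zc J x i) := by
  funext i
  simp only [zc, map_div₀]

end Pool.GC.SRelX

namespace Pool.GC

open MvPolynomial RelX SRelX

theorem sRel_proof (hDer : Stmt_Der) (hJInd : Stmt_JInd) (hGeo : Stmt_Geo) (hJId : Stmt_JId) :
    Stmt_SRel := by
  classical
  intro K _ _ N d I ξ φ v₀ hI hξ hφ J
  by_cases hcase : orb v₀ φ (J 0) * plk ξ (orb v₀ φ) J = 0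
  · left
    intro F _ _ g hg
    have h1 : ev (orbP v₀ (J 0) * plkP ξ v₀ J) φ = 0 := by
      rw [ev_mul, ev_orbP, ev_plkP]
      exact hcase
    have h2 := hφ.dense _ h1 F g hg
    rw [ev_mul, ev_orbP, ev_plkP] at h2
    exact h2
  right
  have h0 : orb v₀ φ (J 0) ≠ 0 := fun h => hcase (by rw [h, zero_mul])
  have h1 : plk ξ (orb v₀ φ) J ≠ 0 := fun h => hcase (by rw [h, mul_zero])
  obtain ⟨Dg, hG⟩ := hGeo K N d I ξ φ hI hξ hφ
  obtain ⟨hind, halg⟩ := transBasis hDer hJInd hJId hG v₀ J h0 h1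
  have hinj : ∀ p : MvPolynomial (Fin d) K, p ≠ 0 → aeval (zc J (orb v₀ φ)) p ≠ 0 := by
    intro p hp h
    exact hp ((algebraicIndependent_iff_injective_aeval.1 hind) (by rw [h, map_zero]))
  set q := orbP v₀ (J 0) with hq
  have hqφ : ev q φ ≠ 0 := by
    rw [hq, ev_orbP]
    exact h0
  -- relations for functions on the group
  have key : ∀ nx : MvPolynomial (Fin N × Fin N) K, ∃ (n : ℕ) (r : ℕ → MvPolynomial (Fin d) K),
      r n ≠ 0 ∧ ∀ (F : Type) [Field F] [Algebra K F] (g : Matrix (Fin N) (Fin N) F),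
        g ∈ pts I F → orb v₀ g (J 0) ≠ 0 →
        ∑ s ∈ Finset.range (n + 1), aeval (zc J (orb v₀ g)) (r s) *
          (ev nx g / orb v₀ g (J 0)) ^ s = 0 := by
    intro nx
    obtain ⟨n, r, hrn, hr⟩ := exists_rel (zc J (orb v₀ φ)) (ev nx φ / orb v₀ φ (J 0)) (halg _)
    refine ⟨n, r, hrn, fun F _ _ g hg hg0 => ?_⟩
    let nn : Option (Fin d) → MvPolynomial (Fin N × Fin N) K := fun o =>
      o.elim nx fun i => orbP v₀ (J i.succ)
    have hval : ∀ (F : Type) [Field F] [Algebra K F] (g : Matrix (Fin N) (Fin N) F),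
        aeval (fun i => ev (nn i) g / ev q g) (relP n r) =
          ∑ s ∈ Finset.range (n + 1), aeval (zc J (orb v₀ g)) (r s) *
          (ev nx g / orb v₀ g (J 0)) ^ s := by
      intro F _ _ g
      rw [aeval_relP]
      refine Finset.sum_congr rfl fun s _ => ?_
      have e1 : (fun i : Fin d => ev (nn (some i)) g / ev q g) = zc J (orb v₀ g) := by
        funext i
        simp only [nn, Option.elim_some, hq, ev_orbP, zc]
      have e2 : ev (nn none) g / ev q g = ev nx g / orb v₀ g (J 0) := by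
        simp only [nn, Option.elim_none, hq, ev_orbP]
      rw [e1, e2]
    have h2 := transfer hφ nn q hqφ (relP n r) (by rw [hval]; exact hr) F g hg
      (by rw [hq, ev_orbP]; exact hg0)
    rw [hval] at h2
    exact h2
  -- relations for the coordinates and the entries
  have k1 := fun j : Fin N => key (orbP v₀ j)
  choose n1 r1 hr1 hrel1 using k1
  have k2 := fun ij : Fin N × Fin N => key (X ij * q)
  choose n2 r2 hr2 hrel2 using k2
  -- forms for the leading coefficients
  have k3 := fun j : Fin N => homogF J (r1 j (n1 j))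
  choose E p hpE hp using k3
  refine ⟨X (J 0) * ∏ j, p j, 1 + ∑ j, E j, ∏ j, n1 j, ∏ ij : Fin N × Fin N, r2 ij (n2 ij),
    Finset.univ.biUnion fun ij : Fin N × Fin N => (Finset.range (n2 ij + 1)).biUnion fun s =>
      (r2 ij s).support.image fun m => coeff m (r2 ij s), ?_, ?_, ?_, ?_, ?_, ?_⟩
  · exact (isHomogeneous_X _ _).mul (IsHomogeneous.prod _ _ _ fun j _ => hpE j)
  · rw [map_mul, map_prod, aeval_X]
    refine mul_ne_zero h0 (Finset.prod_ne_zero_iff.2 fun j _ => ?_)
    rw [hp j (RF K d) _ h0]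
    exact mul_ne_zero (pow_ne_zero _ h0) (hinj _ (hr1 j))
  · exact Finset.prod_ne_zero_iff.2 fun ij _ => hr2 ij
  · intro F _ _ x hΛ h
    apply hΛ
    rw [map_mul, aeval_X, h, zero_mul]
  · intro F _ _ z
    by_cases hz : ∀ j, aeval z (r1 j (n1 j)) ≠ 0
    · refine encard_le n1 (fun j s => aeval z (r1 j s)) hz _ ?_
      rintro x ⟨⟨E', _, _, _, _, g, c, hg, hc, hx⟩, hΛ, hx1, rfl⟩ j
      have hxJ : ∀ i, algebraMap F E' (x i) = c * orb v₀ g i := fun i => congrFun hx i
      have hg0 : orb v₀ g (J 0) ≠ 0 := by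
        intro h
        have h3 := hxJ (J 0)
        rw [h, mul_zero, hx1, map_one] at h3
        exact one_ne_zero h3
      have h2 := hrel1 j E' g hg hg0
      rw [ev_orbP] at h2
      have hzz : zc J (orb v₀ g) = fun i => algebraMap F E' (zc J x i) := by
        rw [← zc_map, hx, zc_smul J c hc]
      have hxx : orb v₀ g j / orb v₀ g (J 0) = algebraMap F E' (x j) := by
        have h3 := hxJ j
        have h4 := hxJ (J 0)
        rw [hx1, map_one] at h4
        rw [h3, div_eq_iff hg0]
        calc orb v₀ g j = orb v₀ g j * 1 := (mul_one _).symm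
          _ = c * orb v₀ g j * orb v₀ g (J 0) := by rw [h4]; ring
      rw [hzz, hxx] at h2
      apply (algebraMap F E').injective
      rw [map_zero, ← h2, map_sum]
      refine Finset.sum_congr rfl fun s _ => ?_
      rw [map_mul, map_pow]
      congr 1
      rw [← MvPolynomial.aeval_algebraMap_apply]
      rfl
    · push Not at hz
      obtain ⟨j, hj⟩ := hz
      have hempty : {x : Fin N → F | InOrbE I v₀ x ∧ aeval x (X (J 0) * ∏ j, p j) ≠ 0 ∧
          x (J 0) = 1 ∧ zc J x = z} = ∅ := by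
        ext x
        simp only [Set.mem_ofPred_eq, Set.mem_empty_iff_false, iff_false, not_and]
        intro _ hΛ hx1 hzz
        apply hΛ
        rw [map_mul, map_prod]
        have : aeval x (p j) = 0 := by
          rw [hp j F x (by rw [hx1]; exact one_ne_zero), hzz, hj, mul_zero]
        rw [Finset.prod_eq_zero (Finset.mem_univ j) this, mul_zero]
      rw [hempty, Set.encard_empty]
      exact zero_le
  · intro F _ _ hF hC g hg hg0 hz ⟨i, j, hij⟩
    have hcoef : ∀ ij s, s ≤ n2 ij → ‖aeval (zc J (orb v₀ g)) (r2 ij s)‖ ≤ 1 := by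
      intro ij s hs
      refine norm_aeval_le hF _ hz _ fun m hm => ?_
      refine hC _ ?_
      simp only [Finset.mem_biUnion, Finset.mem_univ, true_and, Finset.mem_image]
      exact ⟨ij, s, Finset.mem_range.2 (by omega), m, hm, rfl⟩
    have hlt : ‖aeval (zc J (orb v₀ g)) (r2 (i, j) (n2 (i, j)))‖ < 1 := by
      refine lead_lt hF (n2 (i, j)) (fun s => aeval (zc J (orb v₀ g)) (r2 (i, j) s)) (g i j) ?_
        (fun s hs => hcoef (i, j) s hs) hij
      have h2 := hrel2 (i, j) F g hg hg0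
      rw [← h2]
      refine Finset.sum_congr rfl fun s _ => ?_
      rw [ev_mul, ev_X, hq, ev_orbP]
      congr 2
      field_simp
    rw [map_prod, norm_prod, ← Finset.mul_prod_erase _ _ (Finset.mem_univ (i, j))]
    have hle : ∏ ij ∈ Finset.univ.erase (i, j), ‖aeval (zc J (orb v₀ g)) (r2 ij (n2 ij))‖ ≤ 1 :=
      Finset.prod_le_one (fun ij _ => norm_nonneg _) fun ij _ => hcoef ij _ le_rfl
    calc ‖aeval (zc J (orb v₀ g)) (r2 (i, j) (n2 (i, j)))‖ *
          ∏ ij ∈ Finset.univ.erase (i, j), ‖aeval (zc J (orb v₀ g)) (r2 ij (n2 ij))‖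
        ≤ ‖aeval (zc J (orb v₀ g)) (r2 (i, j) (n2 (i, j)))‖ * 1 :=
          mul_le_mul_of_nonneg_left hle (norm_nonneg _)
      _ < 1 := by
          rw [mul_one]
          exact hlt

end Pool.GC
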