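import Pool.Agent.GC.SStmts

set_option autoImplicit false

/-! Module SStab: stabilisers of the points of the orbit. -/

namespace Pool.GC

open MvPolynomial

namespace SStabX

variable {K : Type} [Field K] {N : ℕ}

theorem ev_map {R S : Type} [CommRing R] [CommRing S] [Algebra K R] [Algebra K S] (f : R →ₐ[K] S)
    (p : MvPolynomial (Fin N × Fin N) K) (g : Matrix (Fin N) (Fin N) R) :
    ev p (g.map f) = f (ev p g) := by
  unfold ev
  rw [← AlgHom.comp_apply, comp_aeval]
  rfl

theorem map_mem {I : Set (MvPolynomial (Fin N × Fin N) K)} {R S : Type} [CommRing R] [CommRing S]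
    [Algebra K R] [Algebra K S] (f : R →ₐ[K] S) {g : Matrix (Fin N) (Fin N) R}
    (hg : g ∈ pts I R) : g.map f ∈ pts I S := by
  intro p hp
  rw [ev_map, hg p hp, map_zero]

theorem map_mulVec' {R S : Type} [CommRing R] [CommRing S] (f : R →+* S)
    (g : Matrix (Fin N) (Fin N) R) (v : Fin N → R) :
    (g.map f).mulVec (fun i => f (v i)) = fun i => f (g.mulVec v i) := by
  funext i
  simp only [Matrix.mulVec, dotProduct, Matrix.map_apply, map_sum, map_mul]

/-- upper triangular matrices: products and powers -/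
theorem tri_mul {F : Type} [Field F] {A B : Matrix (Fin N) (Fin N) F}
    (hA : ∀ i j, j < i → A i j = 0) (hB : ∀ i j, j < i → B i j = 0) :
    (∀ i j, j < i → (A * B) i j = 0) ∧ ∀ k, (A * B) k k = A k k * B k k := by
  refine ⟨fun i j hij => ?_, fun k => ?_⟩
  · rw [Matrix.mul_apply]
    refine Finset.sum_eq_zero fun l _ => ?_
    rcases lt_or_ge l i with h | h
    · rw [hA i l h, zero_mul]
    · rw [hB l j (lt_of_lt_of_le hij h), mul_zero]
  · rw [Matrix.mul_apply, Finset.sum_eq_single k]
    · intro l _ hl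
      rcases lt_or_gt_of_ne hl with h | h
      · rw [hA k l h, zero_mul]
      · rw [hB l k h, mul_zero]
    · intro h
      exact absurd (Finset.mem_univ k) h

theorem tri_pow {F : Type} [Field F] {A : Matrix (Fin N) (Fin N) F}
    (hA : ∀ i j, j < i → A i j = 0) (n : ℕ) :
    (∀ i j, j < i → (A ^ n) i j = 0) ∧ ∀ k, (A ^ n) k k = A k k ^ n := by
  induction n with
  | zero =>
    refine ⟨fun i j hij => ?_, fun k => ?_⟩
    · rw [pow_zero, Matrix.one_apply_ne (ne_of_gt hij)]
    · rw [pow_zero, pow_zero, Matrix.one_apply_eq]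
  | succ n ih =>
    have h := tri_mul ih.1 hA
    refine ⟨fun i j hij => ?_, fun k => ?_⟩
    · rw [pow_succ, h.1 i j hij]
    · rw [pow_succ, h.2 k, ih.2 k, pow_succ]

/-- a unipotent upper triangular matrix of finite order is trivial -/
theorem unip {F : Type} [Field F] [CharZero F] {s : Matrix (Fin N) (Fin N) F}
    (hs : ∀ i j, j < i → s i j = 0) (h1 : ∀ k, s k k = 1) {n : ℕ} (hn : 0 < n)
    (hsn : s ^ n = 1) : s = 1 := by
  set Q : Matrix (Fin N) (Fin N) F := ∑ j ∈ Finset.range n, s ^ j with hQ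
  have hQt : Q.BlockTriangular id := by
    intro i j hij
    rw [hQ, Matrix.sum_apply]
    exact Finset.sum_eq_zero fun l _ => (tri_pow hs l).1 i j hij
  have hQd : ∀ k, Q k k = (n : F) := by
    intro k
    rw [hQ, Matrix.sum_apply]
    have : ∀ l ∈ Finset.range n, (s ^ l) k k = 1 := fun l _ => by
      rw [(tri_pow hs l).2 k, h1 k, one_pow]
    rw [Finset.sum_congr rfl this]
    simp
  have hdet : Q.det = (n : F) ^ N := by
    rw [Matrix.det_of_isUpperTriangular hQt]
    simp [hQd]
  have hne : Q.det ≠ 0 := by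
    rw [hdet]
    exact pow_ne_zero _ (Nat.cast_ne_zero.mpr hn.ne')
  have hunit : IsUnit Q := (Matrix.isUnit_iff_isUnit_det Q).mpr (isUnit_iff_ne_zero.mpr hne)
  have h2 : Q * (s - 1) = 0 := by
    rw [hQ, geom_sum_mul, hsn, sub_self]
  have h3 : s - 1 = 0 := (hunit.mul_right_eq_zero).mp h2
  exact sub_eq_zero.mp h3

theorem conj_pow {F : Type} [Field F] {A s g : Matrix (Fin N) (Fin N) F} (h : g * A = 1)
    (h' : A * g = 1) (n : ℕ) : (A * s * g) ^ n = A * s ^ n * g := by
  induction n with
  | zero => rw [pow_zero, pow_zero, mul_one, h']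
  | succ n ih =>
    rw [pow_succ, ih, pow_succ]
    calc A * s ^ n * g * (A * s * g) = A * s ^ n * (g * A) * s * g := by
          simp only [mul_assoc]
      _ = A * (s ^ n * s) * g := by
          rw [h]
          simp only [mul_assoc, mul_one]

/-- the lifts of the points of the orbit over a larger algebraically closed field -/
theorem lift_orb {I : Set (MvPolynomial (Fin N × Fin N) K)} {v₀ x : Fin N → K}
    (hx : InOrb I v₀ x) (E : Type) [Field E] [Algebra K E] [IsAlgClosed E] :
    ∃ (g : Matrix (Fin N) (Fin N) E) (c : E), g ∈ pts I E ∧ c ≠ 0 ∧ vm E x = c • orb v₀ g := by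
  obtain ⟨g, c, hg, hc, hxg⟩ := hx
  let i : AlgebraicClosure K →ₐ[K] E := IsAlgClosed.lift
  refine ⟨g.map i, i c, map_mem i hg, (map_ne_zero_iff i i.injective).mpr hc, ?_⟩
  have h1 : orb v₀ (g.map i) = fun j => i (orb v₀ g j) := by
    unfold orb
    have h2 : (fun j => algebraMap K E (v₀ j)) =
        fun j => i (algebraMap K (AlgebraicClosure K) (v₀ j)) := by
      funext j
      rw [AlgHom.commutes]
    rw [h2]
    exact map_mulVec' (i : AlgebraicClosure K →+* E) g _
  funext j
  have h3 := congrFun hxg j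
  simp only [Pi.smul_apply, smul_eq_mul] at h3
  rw [Pi.smul_apply, smul_eq_mul, h1]
  simp only
  rw [← map_mul, ← h3, AlgHom.commutes]
  rfl

theorem main {I : Set (MvPolynomial (Fin N × Fin N) K)} {v₀ : Fin N → K} {n : ℕ}
    (hG : IsGroup I) (hS : FinStab I v₀ n) {x : Fin N → K} (hx : InOrb I v₀ x)
    (F : Type) [Field F] [Algebra K F] (E : Type) [Field E] [Algebra K E] [IsAlgClosed E]
    [Algebra F E] [IsScalarTower K F E] (s : Matrix (Fin N) (Fin N) F) (hs : s ∈ pts I F) (c : F)
    (hsx : s.mulVec (vm F x) = c • vm F x) : s ^ n = 1 := by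
  obtain ⟨g, b, hg, hb, hxg⟩ := lift_orb hx E
  have hdet := hG.det E g hg
  have hA1 : g * g.adjugate = 1 := by rw [Matrix.mul_adjugate, hdet, one_smul]
  have hA2 : g.adjugate * g = 1 := by rw [Matrix.adjugate_mul, hdet, one_smul]
  have hAm : g.adjugate ∈ pts I E := hG.inv E g hg
  let f : F →ₐ[K] E := IsScalarTower.toAlgHom K F E
  set t : Matrix (Fin N) (Fin N) E := s.map f with ht
  have htm : t ∈ pts I E := map_mem f hs
  have hv : vm E x = fun i => f (vm F x i) := by
    funext i
    change algebraMap K E (x i) = algebraMap F E (algebraMap K F (x i))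
    exact IsScalarTower.algebraMap_apply K F E (x i)
  have htx : t.mulVec (vm E x) = (f c) • vm E x := by
    have e1 := map_mulVec' (f : F →+* E) s (vm F x)
    rw [hsx] at e1
    rw [hv]
    refine e1.trans ?_
    funext i
    simp
  have hmem : g.adjugate * t * g ∈ pts I E := hG.mul E _ _ (hG.mul E _ _ hAm htm) hg
  have horb : orb v₀ g = b⁻¹ • vm E x := by
    rw [hxg, smul_smul, inv_mul_cancel₀ hb, one_smul]
  have key : orb v₀ (g.adjugate * t * g) = (f c) • orb v₀ (1 : Matrix (Fin N) (Fin N) E) := by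
    have e1 : orb v₀ (g.adjugate * t * g) = g.adjugate.mulVec (t.mulVec (orb v₀ g)) := by
      unfold orb
      rw [Matrix.mulVec_mulVec, Matrix.mulVec_mulVec, mul_assoc]
    have e2 : orb v₀ (1 : Matrix (Fin N) (Fin N) E) = g.adjugate.mulVec (orb v₀ g) := by
      unfold orb
      rw [Matrix.mulVec_mulVec, hA2]
    rw [e1, e2, horb, Matrix.mulVec_smul, htx, smul_comm b⁻¹ (f c), Matrix.mulVec_smul]
  have hn := hS.2 E (g.adjugate * t * g) hmem (f c) key
  rw [conj_pow hA1 hA2] at hn
  have h5 : t ^ n = 1 := by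
    have : g * (g.adjugate * t ^ n * g) * g.adjugate = t ^ n := by
      calc g * (g.adjugate * t ^ n * g) * g.adjugate
          = (g * g.adjugate) * t ^ n * (g * g.adjugate) := by simp only [mul_assoc]
        _ = t ^ n := by rw [hA1, one_mul, mul_one]
    rw [← this, hn, mul_one, hA1]
  have h6 : (s ^ n).map f = (1 : Matrix (Fin N) (Fin N) F).map f := by
    have e3 : (s ^ n).map f = t ^ n := by
      change (f : F →+* E).mapMatrix (s ^ n) = _
      rw [map_pow]
      rfl
    have e4 : (1 : Matrix (Fin N) (Fin N) F).map f = 1 := by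
      change (f : F →+* E).mapMatrix 1 = _
      rw [map_one]
    rw [e3, e4, h5]
  exact Matrix.map_injective f.injective h6

end SStabX

open SStabX in
theorem sStab_proof : Stmt_SStab := by
  intro K _ _ N I v₀ n hG hT hS x hx F _ _
  have : CharZero F := charZero_of_injective_algebraMap (algebraMap K F).injective
  have h1 : ∀ s : Matrix (Fin N) (Fin N) F, s ∈ pts I F → ∀ c : F,
      s.mulVec (vm F x) = c • vm F x →
      s ^ n = 1 ∧ (∀ k, s k k ^ n = 1) ∧ ((∀ k, s k k = 1) → s = 1) := by
    intro s hs c hc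
    have hn := SStabX.main hG hS hx F (AlgebraicClosure F) s hs c hc
    have ht := hT F s hs
    refine ⟨hn, fun k => ?_, fun hd => unip ht hd hS.1 hn⟩
    rw [← (tri_pow ht n).2 k, hn, Matrix.one_apply_eq]
  refine ⟨h1, ?_⟩
  classical
  set T : Finset F := (Polynomial.nthRoots n (1 : F)).toFinset with hTdef
  have hTc : T.card ≤ n := (Multiset.toFinset_card_le _).trans (Polynomial.card_nthRoots n 1)
  have hmem : ∀ z : F, z ^ n = 1 → z ∈ T := by
    intro z hz
    rw [hTdef, Multiset.mem_toFinset, Polynomial.mem_nthRoots hS.1]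
    exact hz
  have hle : {s : Matrix (Fin N) (Fin N) F | s ∈ pts I F ∧ ∃ c : F, s.mulVec (vm F x) =
      c • vm F x}.encard ≤ ((Fintype.piFinset fun _ : Fin N => T) : Set (Fin N → F)).encard := by
    refine Set.encard_le_encard_of_injOn (f := fun s k => s k k) ?_ ?_
    · rintro s ⟨hs, c, hc⟩
      simp only [Finset.mem_coe, Fintype.mem_piFinset]
      exact fun k => hmem _ ((h1 s hs c hc).2.1 k)
    · rintro s ⟨hs, c, hc⟩ s' ⟨hs', c', hc'⟩ hd
      have hd' : ∀ k, s k k = s' k k := fun k => congrFun hd k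
      have hdet := hG.det F s' hs'
      have hA1 : s' * s'.adjugate = 1 := by rw [Matrix.mul_adjugate, hdet, one_smul]
      have hA2 : s'.adjugate * s' = 1 := by rw [Matrix.adjugate_mul, hdet, one_smul]
      have hAm : s'.adjugate ∈ pts I F := hG.inv F s' hs'
      have hx1 : vm F x = c' • s'.adjugate.mulVec (vm F x) := by
        rw [← Matrix.mulVec_smul, ← hc', Matrix.mulVec_mulVec, hA2, Matrix.one_mulVec]
      have hex : ∃ c₁ : F, s'.adjugate.mulVec (vm F x) = c₁ • vm F x := by
        by_cases h0 : c' = 0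
        · rw [h0, zero_smul] at hx1
          exact ⟨0, by rw [hx1, Matrix.mulVec_zero, smul_zero]⟩
        · refine ⟨c'⁻¹, ?_⟩
          conv_rhs => rw [hx1]
          rw [smul_smul, inv_mul_cancel₀ h0, one_smul]
      obtain ⟨c₁, hc₁⟩ := hex
      have hm := hG.mul F _ _ hAm hs
      have hst : (s'.adjugate * s).mulVec (vm F x) = (c * c₁) • vm F x := by
        rw [← Matrix.mulVec_mulVec, hc, Matrix.mulVec_smul, hc₁, smul_smul]
      have hdiag : ∀ k, (s'.adjugate * s) k k = 1 := by
        intro k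
        rw [(tri_mul (hT F _ hAm) (hT F _ hs)).2 k, hd' k,
          ← (tri_mul (hT F _ hAm) (hT F _ hs')).2 k, hA2, Matrix.one_apply_eq]
      have hone := (h1 _ hm _ hst).2.2 hdiag
      calc s = (s' * s'.adjugate) * s := by rw [hA1, one_mul]
        _ = s' * (s'.adjugate * s) := by rw [mul_assoc]
        _ = s' := by rw [hone, mul_one]
  refine hle.trans ?_
  rw [Set.encard_coe_eq_coe_finsetCard, Fintype.card_piFinset]
  simp only [Finset.prod_const, Finset.card_univ, Fintype.card_fin]
  exact_mod_cast Nat.pow_le_pow_left hTc N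

end Pool.GC
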