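import Pool.Agent.GC.SStmts

set_option autoImplicit false

namespace Pool.GC

open MvPolynomial

theorem sUniq_proof : Stmt_SUniq := by
  intro K _ _ σ _ S huniq F _ _ a ha
  classical
  -- the ring of the system
  let J : Ideal (MvPolynomial σ K) := Ideal.span S
  have hJ : J ≠ ⊤ := by
    intro h
    have h1 : J ≤ RingHom.ker (aeval (R := K) a : MvPolynomial σ K →ₐ[K] F) := by
      rw [Ideal.span_le]
      intro p hp
      exact ha p hp
    have h2 : (1 : MvPolynomial σ K) ∈ J := by rw [h]; trivial
    have h3 := h1 h2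
    rw [RingHom.mem_ker, map_one] at h3
    exact one_ne_zero h3
  obtain ⟨M, hM, hJM⟩ := Ideal.exists_le_maximal J hJ
  letI : Field (MvPolynomial σ K ⧸ M) := Ideal.Quotient.field M
  haveI : Algebra.FiniteType K (MvPolynomial σ K ⧸ M) :=
    Algebra.FiniteType.of_surjective (Ideal.Quotient.mkₐ K M) (Ideal.Quotient.mkₐ_surjective K M)
  haveI : Module.Finite K (MvPolynomial σ K ⧸ M) :=
    finite_of_finite_type_of_isJacobsonRing K (MvPolynomial σ K ⧸ M)
  let f : (MvPolynomial σ K ⧸ M) →ₐ[K] AlgebraicClosure K := IsAlgClosed.lift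
  let a1 : σ → AlgebraicClosure K := fun i => f (Ideal.Quotient.mkₐ K M (X i))
  have ha1 : ∀ p : MvPolynomial σ K, aeval a1 p = f (Ideal.Quotient.mkₐ K M p) := by
    intro p
    have : aeval a1 = f.comp (Ideal.Quotient.mkₐ K M) := by
      ext i
      simp [a1]
    rw [this]
    rfl
  have hs1 : ∀ p ∈ S, aeval a1 p = 0 := by
    intro p hp
    have h0 : Ideal.Quotient.mkₐ K M p = 0 :=
      Ideal.Quotient.eq_zero_iff_mem.mpr (hJM (Ideal.subset_span hp))
    rw [ha1, h0, map_zero]
  have hfix : ∀ i, ∀ s : AlgebraicClosure K ≃ₐ[K] AlgebraicClosure K, s (a1 i) = a1 i := by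
    intro i s
    have h := huniq (AlgebraicClosure K) (fun i => s (a1 i)) a1 (by
      intro p hp
      have : aeval (fun i => s (a1 i)) p = s (aeval a1 p) := by
        have e : aeval (fun i => s (a1 i)) = (s : AlgebraicClosure K →ₐ[K] AlgebraicClosure K).comp
            (aeval a1) := by
          ext i
          simp
        rw [e]
        rfl
      rw [this, hs1 p hp, map_zero]) hs1
    exact congrFun h i
  have hex : ∀ i, ∃ t : K, algebraMap K (AlgebraicClosure K) t = a1 i := by
    intro i
    exact IntermediateField.mem_bot.mp ((InfiniteGalois.mem_bot_iff_fixed (a1 i)).mpr (hfix i))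
  choose a0 ha0 using hex
  have hs0 : ∀ p ∈ S, aeval a0 p = 0 := by
    intro p hp
    apply (algebraMap K (AlgebraicClosure K)).injective
    rw [map_zero, ← hs1 p hp]
    have e : a1 = fun i => algebraMap K (AlgebraicClosure K) (a0 i) := funext fun i => (ha0 i).symm
    rw [e]
    exact (MvPolynomial.aeval_algebraMap_apply (AlgebraicClosure K) a0 p).symm
  refine ⟨a0, huniq F a _ ha ?_⟩
  intro p hp
  have e := MvPolynomial.aeval_algebraMap_apply F a0 p
  have e' : aeval (fun i => algebraMap K F (a0 i)) p = algebraMap K F (aeval a0 p) := e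
  rw [e', hs0 p hp, map_zero]

end Pool.GC
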