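import Mathlib
import Pool.Agent.GC.All
import Pool.Agent.GC.SStmts
import Pool.Agent.GC.SMain
import Pool.Agent.GC.SPack
import Pool.Agent.GC.SExt
import Pool.Agent.GC.SRel
import Pool.Agent.GC.SNum
import Pool.Agent.GC.SStab
import Pool.Agent.GC.SUniq
import Pool.Agent.GC.SGam
import Pool.Agent.GC.SMult
import Pool.Agent.GC.SCmpB
import Pool.Agent.GC.SIntG
import Pool.Agent.GC.SQv
import Pool.Agent.GC.SEff

set_option autoImplicit false

/-!
# Assembly (spherical varieties)
-/

namespace Pool.GC

theorem all_sGam : Stmt_SGam := sGam_proof sStab_proof sUniq_proof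

theorem all_sMult : Stmt_SMult := sMult_proof all_sGam sStab_proof

theorem all_sPack : Stmt_SPack :=
  sPack_proof all_geo (sRel_proof der_proof jInd_proof all_geo jId_proof) sNum_proof all_pAct
    pRel_proof sStab_proof all_sMult (loc_proof jId_proof) (sCmpB_proof all_pAct pRel_proof)
    (cmpG_proof all_pAct pRel_proof sz_proof) (sIntG_proof all_pAct) packM_proof
    (cvna_proof scale_proof) null_proof sz_proof (inf_proof cVR_proof cVC_proof)

theorem all_sMain : Stmt_SMain :=
  sMain_proof all_pAct comp_proof sExt_proof all_sPack sum_proof sQv_proof sEff_proof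

end Pool.GC
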